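import Mathlib

-- merged part: Pool.Agent.Work.MP_267827_an.Topo
section
-- merged part: Pool.Agent.Work.MP_267827_an.Defs
section
/-! Definitions for the polygonal Faber-Krahn inequality for polygons with many sides. -/

set_option autoImplicit false

namespace Pool.Agent.Work.MP_267827_an

open MeasureTheory Set Filter Topology

noncomputable section

section poly

variable {E : Type*} [NormedAddCommGroup E] [NormedSpace ℝ E]

/-- the `i`-th closed side of the polygon with vertices `v` -/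
def edge {n : ℕ} (v : Fin n → E) (i : Fin n) : Set E := segment ℝ (v i) (v (finRotate n i))

/-- the boundary curve of the polygon -/
def Gam {n : ℕ} (v : Fin n → E) : Set E := ⋃ i, edge v i

/-- the union of the bounded components of the complement -/
def Ins (Γ : Set E) : Set E := {x | x ∉ Γ ∧ Bornology.IsBounded (connectedComponentIn Γᶜ x)}

/-- a simple closed polygon -/
def Simple {n : ℕ} (v : Fin n → E) : Prop :=
  (∀ i : Fin n, ¬ Collinear ℝ ({v i, v (finRotate n i), v (finRotate n (finRotate n i))} : Set E)) ∧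
    ∀ i j : Fin n, j ≠ i → j ≠ finRotate n i → i ≠ finRotate n j → Disjoint (edge v i) (edge v j)

/-- test functions -/
def Test (P : Set E) (u : E → ℝ) : Prop :=
  ContDiff ℝ 1 u ∧ HasCompactSupport u ∧ tsupport u ⊆ P

/-- Dirichlet energy -/
def EE [MeasureSpace E] (u : E → ℝ) : ℝ := ∫ x, ‖fderiv ℝ u x‖ ^ 2

/-- square of the `L²` norm -/
def NN [MeasureSpace E] (u : E → ℝ) : ℝ := ∫ x, u x ^ 2

end poly

/-- `exp (i x)` -/
def ei (x : ℝ) : ℂ := Complex.exp (x * Complex.I)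

/-- vertices of the regular polygon -/
def reg (n : ℕ) (r : ℝ) (k : Fin n) : ℂ := r * ei (2 * Real.pi * (k : ℕ) / n)

/-- the open triangle with apex `0`, sides in the directions `0` and `θ`, whose third side has
normal direction `γ` and distance `h` from the apex -/
def Tri (θ γ h : ℝ) : Set ℂ := {z | 0 < z.im ∧ (z * ei (-θ)).im < 0 ∧ (z * ei (-γ)).re < h}

/-- decomposition of the directions around `O` into arcs on which one side is seen -/
structure Arcs {n : ℕ} (v : Fin n → ℂ) (O : ℂ) (m : ℕ) (ϑ γ h : ℕ → ℝ) (e : ℕ → Fin n) :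
    Prop where
  pos : 0 < m
  le : m ≤ n
  mono : ∀ k, k < m → ϑ k < ϑ (k + 1)
  per : ϑ m = ϑ 0 + 2 * Real.pi
  hpos : ∀ k, k < m → 0 < h k
  ang : ∀ k, k < m → ∀ x ∈ Ioo (ϑ k) (ϑ (k + 1)), |x - γ k| < Real.pi / 2
  hit : ∀ k, k < m → ∀ x ∈ Ioo (ϑ k) (ϑ (k + 1)),
    O + ((h k / Real.cos (x - γ k) : ℝ) : ℂ) * ei x ∈ edge v (e k)
  free : ∀ k, k < m → ∀ x ∈ Ioo (ϑ k) (ϑ (k + 1)), ∀ r : ℝ, 0 ≤ r → r < h k / Real.cos (x - γ k) →
    O + (r : ℂ) * ei x ∈ Ins (Gam v)

/-! ### The Bessel function -/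

/-- the Bessel function `J₀` -/
def J0 (x : ℝ) : ℝ := (∫ τ in (0 : ℝ)..Real.pi, Real.cos (x * Real.sin τ)) / Real.pi

/-- its derivative -/
def J1 (x : ℝ) : ℝ := -(∫ τ in (0 : ℝ)..Real.pi, Real.sin τ * Real.sin (x * Real.sin τ)) / Real.pi

/-- the first zero -/
def jj : ℝ := sInf {x | 0 ≤ x ∧ J0 x = 0}

/-- the ground state of the unit disc in the variable `σ = log r` -/
def JJ (σ : ℝ) : ℝ := J0 (jj * Real.exp σ)

/-- its derivative -/
def ZZ (σ : ℝ) : ℝ := jj * Real.exp σ * J1 (jj * Real.exp σ)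

/-! ### Level sets -/

/-- super-level sets -/
def lev (u : ℂ → ℝ) (t : ℝ) : Set ℂ := {x | t < |u x|}

/-- the distribution function -/
def mu (u : ℂ → ℝ) (t : ℝ) : ℝ := volume.real (lev u t)

/-- the logarithmic derivative of the ground state of the disc of area `m₀` on the circle that
encloses the area `m` -/
def om (m₀ m : ℝ) : ℝ :=
  if m ≤ 0 then 0 else
    -(Real.sqrt (Real.pi / m) * ZZ (Real.log (m / m₀) / 2) / JJ (Real.log (m / m₀) / 2))

/-! ### The half strip -/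

/-- the measure on the half strip `σ < 0`, `0 < t < 1` -/
def nu : Measure (ℝ × ℝ) := (volume.restrict (Iio 0)).prod (volume.restrict (Ioo 0 1))

/-- derivative in the first variable -/
def ds (V : ℝ × ℝ → ℝ) (p : ℝ × ℝ) : ℝ := fderiv ℝ V p (1, 0)

/-- derivative in the second variable -/
def dt (V : ℝ × ℝ → ℝ) (p : ℝ × ℝ) : ℝ := fderiv ℝ V p (0, 1)

/-- admissible functions on the half line -/
structure V1 (f f' : ℝ → ℝ) : Prop where
  der : ∀ σ, σ < 0 → HasDerivAt f (f' σ) σ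
  cont : ContinuousOn f' (Iio 0)
  bd : ∃ K : ℝ, ∀ σ, σ < 0 → |f σ| ≤ K ∧ |f σ| ≤ K * |σ| ∧ |f' σ| ≤ K * Real.exp σ

/-- admissible functions on the half strip -/
structure VV (V : ℝ × ℝ → ℝ) : Prop where
  c1 : ContDiffOn ℝ 1 V {p | p.1 < 0}
  bd : ∃ K : ℝ, ∀ p : ℝ × ℝ, p.1 < 0 → p.2 ∈ Icc (0 : ℝ) 1 → |V p| ≤ K ∧ |V p| ≤ K * |p.1| ∧
    |ds V p| ≤ K * Real.exp p.1 ∧ |dt V p| ≤ K * Real.exp p.1

/-- `-log |1 - exp (a + i π t)|` -/
def u1 (a t : ℝ) : ℝ := -Real.log ‖1 - Complex.exp (a + Real.pi * t * Complex.I)‖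

/-- `-log |1 + exp (a + i π t)|` -/
def u2 (a t : ℝ) : ℝ := -Real.log ‖1 + Complex.exp (a + Real.pi * t * Complex.I)‖

/-- the logarithm of the conformal weight in the boundary layer variable -/
def xx (β b a t : ℝ) : ℝ := 2 * (β + b) * u1 a t + 2 * (β - b) * u2 a t

/-- the conformal weight -/
def WW (β b : ℝ) (p : ℝ × ℝ) : ℝ := Real.exp (xx β b (p.1 / β) p.2)

/-- the area excess of the triangle over the sector of the same conformal radius, doubled -/
def LL (β b : ℝ) : ℝ :=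
  2 * Real.pi * β ^ 2 * ∫ p, Real.exp (2 * β * p.1) * (Real.exp (xx β b p.1 p.2) - 1) ∂nu

/-- radial energy -/
def Ds (V : ℝ × ℝ → ℝ) : ℝ := ∫ p, ds V p ^ 2 ∂nu

/-- angular energy -/
def Dt (V : ℝ × ℝ → ℝ) : ℝ := ∫ p, dt V p ^ 2 ∂nu

/-- weighted mass -/
def NW (β b : ℝ) (V : ℝ × ℝ → ℝ) : ℝ := ∫ p, Real.exp (2 * p.1) * WW β b p * V p ^ 2 ∂nu

/-- the quadratic form of a triangle -/
def QQ (β b c lam : ℝ) (V : ℝ × ℝ → ℝ) : ℝ :=
  Real.pi * β * Ds V + Dt V / (Real.pi * β) - lam * Real.exp (2 * c) * (Real.pi * β) * NW β b V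

/-- derivative of the conformal map of the half strip onto the triangle -/
def GG (β b : ℝ) (w : ℂ) : ℂ :=
  Complex.exp (w - (β + b : ℝ) * Complex.log (1 - Complex.exp (w / β)) -
    (β - b : ℝ) * Complex.log (1 + Complex.exp (w / β)))

/-- the conformal map of the half strip onto the triangle -/
def FF (β b : ℝ) (w : ℂ) : ℂ := ∫ s in Iio (0 : ℝ), GG β b (w + s)

/-- the height of the triangle -/
def hh (β b : ℝ) : ℝ :=
  (FF β b ((Real.pi * β / 2 : ℝ) * Complex.I) * ei (-(Real.pi * (β + b) / 2))).re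

/-- the boundary values of the weight on the first side -/
def he (β b σ : ℝ) : ℝ := Real.exp (xx β b (σ / β) 0 / 2)

/-- the distortion of the radius on the first side -/
def ke (β b σ : ℝ) : ℝ := ∫ s in Iio (0 : ℝ), Real.exp s * he β b (σ + s)

/-- the logarithm of the radius on the first side -/
def SS (β b σ : ℝ) : ℝ := σ + Real.log (ke β b σ)

/-- circumradius of the normalised regular polygon -/
def rr (n : ℕ) : ℝ := hh (2 / n) 0 / Real.cos (Real.pi / n)

end

end Pool.Agent.Work.MP_267827_an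
end

-- merged part: Pool.Agent.Work.MP_267827_an.Topo
section
/-! Elementary topology of polygons. -/

set_option autoImplicit false
set_option linter.unusedSectionVars false

namespace Pool.Agent.Work.MP_267827_an

open MeasureTheory Set Filter Topology Metric

section gen

variable {E : Type*} [NormedAddCommGroup E] [NormedSpace ℝ E]

theorem isCompact_edge {n : ℕ} (v : Fin n → E) (i : Fin n) : IsCompact (edge v i) := by
  rw [edge, segment_eq_image]
  exact isCompact_Icc.image (by fun_prop)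

theorem isCompact_Gam {n : ℕ} (v : Fin n → E) : IsCompact (Gam v) :=
  isCompact_iUnion (isCompact_edge v)

theorem isClosed_Gam {n : ℕ} (v : Fin n → E) : IsClosed (Gam v) := (isCompact_Gam v).isClosed

theorem edge_subset_Gam {n : ℕ} (v : Fin n → E) (i : Fin n) : edge v i ⊆ Gam v :=
  subset_iUnion (edge v) i

theorem isPreconnected_Gam {n : ℕ} (v : Fin n → E) : IsPreconnected (Gam v) := by
  rcases n with _ | n
  · simp [Gam, isPreconnected_empty]
  have c : ∀ i, IsPreconnected (edge v i) := fun i => (convex_segment _ _).isPreconnected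
  have key : ∀ k : ℕ, ∀ hk : k < n + 1,
      ∃ t ⊆ Gam v, v 0 ∈ t ∧ v ⟨k, hk⟩ ∈ t ∧ IsPreconnected t := by
    intro k
    induction k with
    | zero =>
      intro hk
      exact ⟨edge v 0, edge_subset_Gam v 0, left_mem_segment _ _ _, left_mem_segment _ _ _, c 0⟩
    | succ k ih =>
      intro hk
      obtain ⟨t, h1, h2, h3, h4⟩ := ih (by omega)
      refine ⟨t ∪ edge v ⟨k, by omega⟩, union_subset h1 (edge_subset_Gam v _), Or.inl h2,
        Or.inr ?_, h4.union _ h3 (left_mem_segment _ _ _) (c _)⟩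
      have : finRotate (n + 1) ⟨k, by omega⟩ = ⟨k + 1, hk⟩ := finRotate_of_lt (by omega)
      rw [← this]
      exact right_mem_segment _ _ _
  refine isPreconnected_of_forall (v 0) fun y hy => ?_
  obtain ⟨i, hi⟩ := mem_iUnion.1 hy
  obtain ⟨t, h1, h2, h3, h4⟩ := key i.1 i.2
  exact ⟨t ∪ edge v i, union_subset h1 (edge_subset_Gam v _), Or.inl h2, Or.inr hi,
    h4.union _ h3 (left_mem_segment _ _ _) (c _)⟩

theorem subset_Ins {Γ S : Set E} (hS : IsPreconnected S) (hd : Disjoint S Γ) {x : E} (hx : x ∈ S)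
    (hI : x ∈ Ins Γ) : S ⊆ Ins Γ := by
  intro y hy
  have h1 : S ⊆ Γᶜ := hd.subset_compl_right
  have h2 := hS.subset_connectedComponentIn hx h1 hy
  refine ⟨h1 hy, ?_⟩
  rw [← connectedComponentIn_eq h2]
  exact hI.2

theorem isOpen_Ins {Γ : Set E} (hΓ : IsClosed Γ) : IsOpen (Ins Γ) := by
  rw [Metric.isOpen_iff]
  intro x hx
  obtain ⟨ε, hε, h⟩ := Metric.isOpen_iff.1 hΓ.isOpen_compl x hx.1
  exact ⟨ε, hε, subset_Ins (convex_ball x ε).isPreconnected (disjoint_left.2 fun y hy => h hy)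
    (mem_ball_self hε) hx⟩

theorem not_mem_Ins {Γ S : Set E} (hS : IsPreconnected S) (hd : Disjoint S Γ)
    (hb : ¬ Bornology.IsBounded S) {x : E} (hx : x ∈ S) : x ∉ Ins Γ := fun hI =>
  hb (hI.2.subset (hS.subset_connectedComponentIn hx hd.subset_compl_right))

theorem Test.eq_zero {P : Set E} {u : E → ℝ} (h : Test P u) {x : E} (hx : x ∉ P) : u x = 0 :=
  image_eq_zero_of_notMem_tsupport fun c => hx (h.2.2 c)

end gen

/-- a circle inside the polygon bounds a disc inside the polygon -/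
theorem closedBall_subset_Ins {Γ : Set ℂ} (hΓ : IsPreconnected Γ) {x : ℂ} {t : ℝ} (ht : 0 < t)
    (h : sphere x t ⊆ Ins Γ) : closedBall x t ⊆ Ins Γ := by
  have y0 : x + t ∈ sphere x t := by simp [abs_of_pos ht]
  have hne : ∀ z ∈ Γ, dist z x ≠ t := fun z hz e => (h e).1 hz
  by_cases hc : ∃ z ∈ Γ, dist z x < t
  · exfalso
    obtain ⟨z, hz, hz'⟩ := hc
    have all : ∀ w ∈ Γ, dist w x < t := by
      intro w hw
      by_contra c
      obtain ⟨y, hy, e⟩ := hΓ.intermediate_value hz hw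
        (f := fun y => dist y x) (by fun_prop) ⟨hz'.le, not_lt.1 c⟩
      exact hne y hy e
    refine not_mem_Ins (S := (fun s : ℝ => x + s) '' Ici t)
      (isPreconnected_Ici.image _ (by fun_prop)) ?_ ?_ ⟨t, self_mem_Ici, rfl⟩ (h y0)
    · rw [disjoint_left]
      rintro _ ⟨s, hs, rfl⟩ hw
      have := all _ hw
      have hs' : t ≤ s := hs
      simp only [dist_self_add_left, Complex.norm_real, Real.norm_eq_abs] at this
      linarith [le_abs_self s]
    · intro hb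
      obtain ⟨R, hR⟩ := hb.subset_closedBall x
      have := hR ⟨max t (|R| + 1), mem_Ici.2 (le_max_left _ _), rfl⟩
      simp only [mem_closedBall, dist_self_add_left, Complex.norm_real, Real.norm_eq_abs] at this
      linarith [le_abs_self (max t (|R| + 1)), le_max_right t (|R| + 1), le_abs_self R]
  · push Not at hc
    refine subset_Ins (convex_closedBall x t).isPreconnected ?_ (sphere_subset_closedBall y0) (h y0)
    rw [disjoint_left]
    intro z hz hz'
    exact hne z hz' (le_antisymm hz (hc z hz'))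

@[simp] theorem norm_ei (x : ℝ) : ‖ei x‖ = 1 := Complex.norm_exp_ofReal_mul_I x

theorem ei_add (x y : ℝ) : ei (x + y) = ei x * ei y := by
  simp only [ei, ← Complex.exp_add]; congr 1; push_cast; ring

@[simp] theorem ei_zero : ei 0 = 1 := by simp [ei]

@[simp] theorem ei_re (x : ℝ) : (ei x).re = Real.cos x := Complex.exp_ofReal_mul_I_re x

@[simp] theorem ei_im (x : ℝ) : (ei x).im = Real.sin x := Complex.exp_ofReal_mul_I_im x

theorem ei_two_pi : ei (2 * Real.pi) = 1 := by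
  simp only [ei]; push_cast; exact Complex.exp_two_pi_mul_I

theorem ei_mul_neg (x : ℝ) : ei x * ei (-x) = 1 := by rw [← ei_add]; simp

theorem ei_ne_zero (x : ℝ) : ei x ≠ 0 := Complex.exp_ne_zero _

@[fun_prop] theorem continuous_ei : Continuous ei := by unfold ei; fun_prop

theorem hasDerivAt_ei (x : ℝ) : HasDerivAt ei (Complex.I * ei x) x := by
  have := ((hasDerivAt_id x).ofReal_comp.mul_const Complex.I).cexp
  simp only [id, Complex.ofReal_one, one_mul] at this
  rw [mul_comm] at this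
  exact this

end Pool.Agent.Work.MP_267827_an
end

-- merged part: Pool.Agent.Work.MP_267827_an.PS.GDefs
section
/-! Definitions for the partition of a polygon into convex cells (helper49).

Polygons are lists of oriented edges up to permutation.  A piece is a polygon whose boundary is
a chain of Dirichlet edges followed by a convex wall (free boundary). -/

set_option autoImplicit false

namespace Pool.Agent.Work.MP_267827_an.PS

open MeasureTheory Set Filter Topology Real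

noncomputable section

/-- the cross product; `0 < cr a b` means that `b` points to the left of `a` -/
def cr (a b : ℂ) : ℝ := a.re * b.im - a.im * b.re

/-- the edges of the path with the given vertices -/
def Ed : List ℂ → List (ℂ × ℂ)
  | a :: b :: l => (a, b) :: Ed (b :: l)
  | _ => []

/-- the edges form one closed path -/
def Loop (es : List (ℂ × ℂ)) : Prop := ∃ (a : ℂ) (l : List ℂ), es.Perm (Ed (a :: l ++ [a]))

/-- no multiple points -/
structure Simp (es : List (ℂ × ℂ)) : Prop where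
  nodup : (es.map Prod.fst).Nodup
  vert : ∀ e ∈ es, ∀ f ∈ es, f.1 ∉ openSegment ℝ e.1 e.2
  disj : ∀ e ∈ es, ∀ f ∈ es, e ≠ f → Disjoint (openSegment ℝ e.1 e.2) (openSegment ℝ f.1 f.2)

/-- the curve -/
def GC (es : List (ℂ × ℂ)) : Set ℂ := {z | ∃ e ∈ es, z ∈ segment ℝ e.1 e.2}

/-- the winding number -/
def wn (es : List (ℂ × ℂ)) (z : ℂ) : ℝ :=
  (es.map fun e => Complex.arg ((e.2 - z) / (e.1 - z))).sum / (2 * π)

/-- the inside -/
def IL (es : List (ℂ × ℂ)) : Set ℂ := {z | z ∉ GC es ∧ wn es z = 1}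

/-- the shoelace area -/
def sh (es : List (ℂ × ℂ)) : ℝ := (es.map fun e => cr e.1 e.2).sum / 2

/-- a simple, positively oriented closed polygon -/
structure SP (es : List (ℂ × ℂ)) : Prop where
  loop : Loop es
  simp : Simp es
  pos : ∀ z, z ∉ GC es → wn es z = 0 ∨ wn es z = 1

/-- the points strictly to the left of all edges -/
def Lft (es : List (ℂ × ℂ)) : Set ℂ := {z | ∀ e ∈ es, 0 < cr (e.2 - e.1) (z - e.1)}

/-- the open segment lies inside -/
def Free (es : List (ℂ × ℂ)) (p q : ℂ) : Prop := openSegment ℝ p q ⊆ IL es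

/-- the mirror image of an edge, reversed -/
def mirE (e : ℂ × ℂ) : ℂ × ℂ := ((starRingEnd ℂ) e.2, (starRingEnd ℂ) e.1)

/-- the mirror image of a path, reversed -/
def mirL (l : List ℂ) : List ℂ := (l.map (starRingEnd ℂ)).reverse

/-- lower bound for the energy on `K`, Dirichlet condition on `D`, free elsewhere -/
def Low (D K : Set ℂ) (lam : ℝ) : Prop :=
  ∀ u : ℂ → ℝ, ContDiff ℝ 1 u → HasCompactSupport u → Disjoint (tsupport u) D →
    lam * ∫ z in K, u z ^ 2 ≤ ∫ z in K, ‖fderiv ℝ u z‖ ^ 2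

/-- the lower bound with a gain on some open subset -/
def HS (D K : Set ℂ) (lam : ℝ) : Prop :=
  ∃ (U : Set ℂ) (μ : ℝ), IsOpen U ∧ U.Nonempty ∧ U ⊆ K ∧ 0 < μ ∧
    ∀ u : ℂ → ℝ, ContDiff ℝ 1 u → HasCompactSupport u → Disjoint (tsupport u) D →
      lam * (∫ z in K, u z ^ 2) + μ * ∫ z in U, u z ^ 2 ≤ ∫ z in K, ‖fderiv ℝ u z‖ ^ 2

/-- a path whose edge directions are nondecreasing and lie in `[lo, hi]` -/
inductive Wall : ℝ → ℝ → List ℂ → Prop
  | one {lo hi : ℝ} (a : ℂ) : lo ≤ hi → Wall lo hi [a]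
  | cons {lo hi τ s : ℝ} {a b : ℂ} {l : List ℂ} : lo ≤ τ → 0 < s → b - a = s * ei τ →
      Wall τ hi (b :: l) → Wall lo hi (a :: b :: l)

/-- every convex cell with Dirichlet base `A B` whose wall stays in the cone with base angles
`a` at `A` and `b` at `B` has eigenvalue times area at least `Λ` -/
def CellLow (Λ a b : ℝ) : Prop :=
  ∀ (A B : ℂ) (k : List ℂ) (τ s lam : ℝ), 0 < s → B - A = s * ei τ →
    Wall (τ + π - b) (τ + π + a) (B :: k ++ [A]) →
    lam * volume.real (Lft ((A, B) :: Ed (B :: k ++ [A]))) ≤ Λ →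
    Low (segment ℝ A B) (Lft ((A, B) :: Ed (B :: k ++ [A]))) lam

/-- the same for the triangle with base angles exactly `a` and `b` -/
def TriLow (Λ a b : ℝ) : Prop :=
  ∀ (A B C : ℂ) (τ s p q lam : ℝ), 0 < s → 0 < p → 0 < q → B - A = s * ei τ →
    C - B = p * ei (τ + π - b) → A - C = q * ei (τ + π + a) →
    lam * volume.real (Lft [(A, B), (B, C), (C, A)]) ≤ Λ →
    Low (segment ℝ A B) (Lft [(A, B), (B, C), (C, A)]) lam

/-- the tangent inequality for right cells with opening `θ`, strict unless `θ = π / n` -/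
def RIGHT (n : ℕ) (g κ : ℝ) : Prop :=
  ∀ θ : ℝ, 0 < θ → θ < π / 2 → ∃ Λ : ℝ, g * θ - κ ≤ Λ ∧ (θ ≠ π / n → g * θ - κ < Λ) ∧
    CellLow Λ (π / 2) (π / 2 - θ)

/-- the strict inequality for obtuse cells -/
def OBT (g κ : ℝ) : Prop :=
  ∀ a b : ℝ, π / 2 < a → 0 < b → a + b < π →
    ∃ Λ : ℝ, g * (π - a - b) - 2 * κ < Λ ∧ CellLow Λ a b

/-- the constants and the two inputs from analysis -/
structure Cst (n : ℕ) (g κ lam s₀ : ℝ) : Prop where
  hn : 5 ≤ n
  hg : 0 < g
  hκ : 0 < κ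
  hl : 0 < lam
  hs : 0 < s₀
  rel : lam * s₀ ^ 2 = 8 * (g * (π / n) - κ) * tan (π / n)
  right : RIGHT n g κ
  obt : OBT g κ

/-- a piece: Dirichlet chain `c`, convex wall `w` -/
structure Piece (D : Set ℂ) (c w : List ℂ) (lo hi : ℝ) : Prop where
  sp : SP (Ed c ++ Ed w)
  lc : 2 ≤ c.length
  lw : 2 ≤ w.length
  hA : c.head? = w.getLast?
  hB : c.getLast? = w.head?
  wall : Wall lo hi w
  dir : GC (Ed c) ⊆ D

/-- the budget of a piece -/
def Fv (g κ lam : ℝ) (c w : List ℂ) (lo hi : ℝ) : ℝ :=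
  g * (π - (hi - lo)) - 2 * κ * (Ed c).length - lam * sh (Ed c ++ Ed w)

/-- the demand of the pocket cut off by the segment from `b` to `a` -/
def Dm (κ lam : ℝ) (c : List ℂ) (a b : ℂ) : ℝ :=
  2 * κ * (Ed c).length + lam * sh (Ed c ++ [(b, a)])

/-- a path that starts in the direction `e`, turns by `2 π / n` at every vertex and has edges of
length at least `s₀`; the last argument is the direction of the next edge -/
inductive RigC (n : ℕ) (s₀ : ℝ) : ℂ → List ℂ → ℂ → Prop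
  | one (e a : ℂ) : RigC n s₀ e [a] e
  | cons {e e' a b : ℂ} {l : List ℂ} {s : ℝ} : s₀ ≤ s → b - a = s * e →
      RigC n s₀ (e * ei (2 * π / n)) (b :: l) e' → RigC n s₀ e (a :: b :: l) e'

/-- the result for a piece -/
def Res (n : ℕ) (g κ lam s₀ : ℝ) (D : Set ℂ) (c w : List ℂ) (lo hi : ℝ) : Prop :=
  HS D (IL (Ed c ++ Ed w)) lam ∨
    (Low D (IL (Ed c ++ Ed w)) lam ∧ Fv g κ lam c w lo hi = 0 ∧
      RigC n s₀ (ei (hi + π / 2 + π / n)) c (ei (lo - π / 2 + π / n)))

/-- the result for all pieces with fewer than `m` Dirichlet edges -/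
def IH (n : ℕ) (g κ lam s₀ : ℝ) (m : ℕ) : Prop :=
  ∀ (D : Set ℂ) (c w : List ℂ) (lo hi : ℝ), Piece D c w lo hi → (Ed c).length < m →
    0 ≤ Fv g κ lam c w lo hi → Res n g κ lam s₀ D c w lo hi

/-- the direction of `z` in `(ω - π, ω + π]` -/
def dirn (ω : ℝ) (z : ℂ) : ℝ := ω + Complex.arg (z * ei (-ω))

end

end Pool.Agent.Work.MP_267827_an.PS
end

-- merged part: Pool.Agent.Work.MP_267827_an.Bessel
section
/-! The Bessel function of order zero up to its first zero. -/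

set_option autoImplicit false

namespace Pool.Agent.Work.MP_267827_an

open MeasureTheory Set Filter Topology Metric Real

/-- second derivative of the Bessel function -/
noncomputable def J2 (x : ℝ) : ℝ :=
  -(∫ τ in (0 : ℝ)..π, sin τ ^ 2 * cos (x * sin τ)) / π

theorem J0_der (x : ℝ) : HasDerivAt J0 (J1 x) x := by
  have h := (intervalIntegral.hasDerivAt_integral_of_dominated_loc_of_deriv_le (μ := volume)
    (a := 0) (b := π) (F := fun x τ => cos (x * sin τ))
    (F' := fun x τ => -(sin τ * sin (x * sin τ))) (x₀ := x) (s := univ) (bound := fun _ => 1)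
    univ_mem (Eventually.of_forall fun x => Continuous.aestronglyMeasurable (by fun_prop))
    (Continuous.intervalIntegrable (by fun_prop) _ _)
    (Continuous.aestronglyMeasurable (by fun_prop))
    (Eventually.of_forall fun t _ x _ => by
      rw [norm_neg, norm_mul]
      exact mul_le_one₀ (abs_sin_le_one _) (norm_nonneg _) (abs_sin_le_one _))
    intervalIntegrable_const
    (Eventually.of_forall fun t _ x _ => by
      have := ((hasDerivAt_id x).mul_const (sin t)).cos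
      exact this.congr_deriv (by simp only [id]; ring))).2
  rw [intervalIntegral.integral_neg] at h
  exact h.div_const π

theorem J1_der (x : ℝ) : HasDerivAt J1 (J2 x) x := by
  have h := (intervalIntegral.hasDerivAt_integral_of_dominated_loc_of_deriv_le (μ := volume)
    (a := 0) (b := π) (F := fun x τ => sin τ * sin (x * sin τ))
    (F' := fun x τ => sin τ ^ 2 * cos (x * sin τ)) (x₀ := x) (s := univ) (bound := fun _ => 1)
    univ_mem (Eventually.of_forall fun x => Continuous.aestronglyMeasurable (by fun_prop))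
    (Continuous.intervalIntegrable (by fun_prop) _ _)
    (Continuous.aestronglyMeasurable (by fun_prop))
    (Eventually.of_forall fun t _ x _ => by
      rw [norm_mul]
      refine mul_le_one₀ ?_ (norm_nonneg _) (abs_cos_le_one _)
      rw [Real.norm_of_nonneg (sq_nonneg _)]
      exact sin_sq_le_one t)
    intervalIntegrable_const
    (Eventually.of_forall fun t _ x _ => by
      have := (((hasDerivAt_id x).mul_const (sin t)).sin).const_mul (sin t)
      exact this.congr_deriv (by simp only [id]; ring))).2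
  exact h.neg.div_const π

theorem bessel_ode (x : ℝ) : x * J2 x + J1 x + x * J0 x = 0 := by
  have h : ∫ τ in (0 : ℝ)..π, (x * cos (x * sin τ) - x * (sin τ ^ 2 * cos (x * sin τ)) -
      sin τ * sin (x * sin τ)) = 0 := by
    rw [intervalIntegral.integral_eq_sub_of_hasDerivAt (f := fun τ => cos τ * sin (x * sin τ))]
    · simp
    · intro τ _
      have := (hasDerivAt_cos τ).mul (((hasDerivAt_sin τ).const_mul x).sin)
      exact this.congr_deriv (by rw [sin_sq]; ring)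
    · exact Continuous.intervalIntegrable (by fun_prop) _ _
  rw [intervalIntegral.integral_sub (Continuous.intervalIntegrable (by fun_prop) _ _)
      (Continuous.intervalIntegrable (by fun_prop) _ _),
    intervalIntegral.integral_sub (Continuous.intervalIntegrable (by fun_prop) _ _)
      (Continuous.intervalIntegrable (by fun_prop) _ _),
    intervalIntegral.integral_const_mul, intervalIntegral.integral_const_mul] at h
  simp only [J0, J1, J2]
  have := pi_pos
  field_simp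
  linarith

theorem J0_zero : J0 0 = 1 := by
  simp [J0, pi_pos.ne']

theorem abs_J0_le (x : ℝ) : |J0 x| ≤ 1 := by
  have h := intervalIntegral.norm_integral_le_of_norm_le_const (a := 0) (b := π) (C := 1)
    (f := fun τ => cos (x * sin τ)) fun τ _ => abs_cos_le_one _
  rw [J0, abs_div, abs_of_pos pi_pos, div_le_one pi_pos]
  simpa [abs_of_pos pi_pos] using h

theorem abs_J1_le (x : ℝ) : |J1 x| ≤ |x| := by
  have h := intervalIntegral.norm_integral_le_of_norm_le_const (a := 0) (b := π) (C := |x|)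
    (f := fun τ => sin τ * sin (x * sin τ)) fun τ _ => by
      rw [norm_mul]
      calc _ ≤ 1 * |x * sin τ| :=
            mul_le_mul (abs_sin_le_one _) abs_sin_le_abs (abs_nonneg _) zero_le_one
        _ ≤ |x| := by
            rw [one_mul, abs_mul]
            exact mul_le_of_le_one_right (abs_nonneg _) (abs_sin_le_one _)
  rw [J1, abs_div, abs_neg, abs_of_pos pi_pos, div_le_iff₀ pi_pos]
  simpa [abs_of_pos pi_pos] using h

theorem xJ1_der (x : ℝ) : HasDerivAt (fun x => x * J1 x) (-(x * J0 x)) x := by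
  have := (hasDerivAt_id x).mul (J1_der x)
  refine this.congr_deriv ?_
  have := bessel_ode x
  simp only [id]; linarith

theorem continuous_J0 : Continuous J0 :=
  continuous_iff_continuousAt.2 fun x => (J0_der x).continuousAt

theorem exists_zero : ∃ x, 0 ≤ x ∧ x ≤ 49 / 20 ∧ J0 x = 0 := by
  by_contra hc
  push Not at hc
  set L : ℝ := 49 / 20 with hL
  have ne : ∀ x ∈ Icc (0 : ℝ) L, J0 x ≠ 0 := fun x hx => hc x hx.1 hx.2
  let Φ : ℝ → ℝ := fun s => s ^ 4 / L ^ 4 - (s ^ 2 / 2 - s ^ 4 / (2 * L ^ 2) + s ^ 6 / (6 * L ^ 4)) -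
    s * J1 s / J0 s * (1 - s ^ 2 / L ^ 2) ^ 2
  have hd : ∀ s ∈ Icc (0 : ℝ) L, HasDerivAt Φ
      (s * (-2 * s / L ^ 2 - J1 s / J0 s * (1 - s ^ 2 / L ^ 2)) ^ 2) s := by
    intro s hs
    have h1 := ((xJ1_der s).div (J0_der s) (ne s hs)).mul
      ((((hasDerivAt_pow 2 s).div_const (L ^ 2)).const_sub 1).pow 2)
    have h2 := ((hasDerivAt_pow 4 s).div_const (L ^ 4)).sub
      ((((hasDerivAt_pow 2 s).div_const 2).sub
        ((hasDerivAt_pow 4 s).div_const (2 * L ^ 2))).add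
          ((hasDerivAt_pow 6 s).div_const (6 * L ^ 4)))
    refine (h2.sub h1).congr_deriv ?_
    have := ne s hs
    simp only [Pi.div_apply, Pi.pow_apply, hL]
    field_simp
    ring
  have mono : MonotoneOn Φ (Icc 0 L) := by
    refine monotoneOn_of_deriv_nonneg (convex_Icc _ _)
      (fun s hs => (hd s hs).continuousAt.continuousWithinAt)
      (fun s hs => (hd s (interior_subset hs)).differentiableAt.differentiableWithinAt)
      fun s hs => ?_
    rw [(hd s (interior_subset hs)).deriv]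
    exact mul_nonneg (interior_subset hs).1 (sq_nonneg _)
  have := mono (left_mem_Icc.2 (by norm_num [hL])) (right_mem_Icc.2 (by norm_num [hL]))
    (by norm_num [hL])
  simp only [Φ, hL] at this
  norm_num at this

theorem jj_mem : 0 ≤ jj ∧ J0 jj = 0 := by
  obtain ⟨x, h1, -, h3⟩ := exists_zero
  have cl : IsClosed {x : ℝ | 0 ≤ x ∧ J0 x = 0} :=
    (isClosed_le continuous_const continuous_id).inter (isClosed_eq continuous_J0 continuous_const)
  exact cl.csInf_mem ⟨x, h1, h3⟩ ⟨0, fun y hy => hy.1⟩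

theorem jj_pos : 0 < jj := by
  refine lt_of_le_of_ne jj_mem.1 fun e => ?_
  have := jj_mem.2
  rw [← e, J0_zero] at this
  exact one_ne_zero this

theorem jj_le : jj ≤ 49 / 20 := by
  obtain ⟨x, h1, h2, h3⟩ := exists_zero
  have : jj ≤ x := csInf_le ⟨0, fun y hy => hy.1⟩ ⟨h1, h3⟩
  exact this.trans h2

theorem J0_pos {x : ℝ} (h0 : 0 ≤ x) (h : x < jj) : 0 < J0 x := by
  by_contra c
  obtain ⟨y, hy, e⟩ := intermediate_value_Icc' h0 continuous_J0.continuousOn
    (show (0 : ℝ) ∈ Icc (J0 x) (J0 0) from ⟨not_lt.1 c, by rw [J0_zero]; norm_num⟩)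
  have : jj ≤ y := csInf_le ⟨0, fun y hy => hy.1⟩ ⟨hy.1, e⟩
  linarith [hy.2]

theorem JJ_der (σ : ℝ) : HasDerivAt JJ (ZZ σ) σ := by
  have := (J0_der (jj * exp σ)).comp σ ((hasDerivAt_exp σ).const_mul jj)
  exact this.congr_deriv (by simp only [ZZ]; ring)

theorem ZZ_der (σ : ℝ) : HasDerivAt ZZ (-(jj ^ 2 * exp (2 * σ) * JJ σ)) σ := by
  have := (xJ1_der (jj * exp σ)).comp σ ((hasDerivAt_exp σ).const_mul jj)
  exact this.congr_deriv (by simp only [JJ, two_mul, exp_add]; ring)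

theorem JJ_zero : JJ 0 = 0 := by simp [JJ, jj_mem.2]

theorem JJ_pos {σ : ℝ} (h : σ < 0) : 0 < JJ σ :=
  J0_pos (mul_pos jj_pos (exp_pos σ)).le (mul_lt_of_lt_one_right jj_pos (exp_lt_one_iff.2 h))

theorem ZZ_neg {σ : ℝ} (h : σ ≤ 0) : ZZ σ < 0 := by
  have anti : StrictAntiOn (fun x => x * J1 x) (Icc 0 jj) := by
    refine strictAntiOn_of_deriv_neg (convex_Icc _ _)
      (fun s _ => (xJ1_der s).continuousAt.continuousWithinAt) fun s hs => ?_
    rw [interior_Icc] at hs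
    rw [(xJ1_der s).deriv, neg_lt_zero]
    exact mul_pos hs.1 (J0_pos hs.1.le hs.2)
  have p := mul_pos jj_pos (exp_pos σ)
  have := anti (left_mem_Icc.2 jj_pos.le)
    ⟨p.le, mul_le_of_le_one_right jj_pos.le (exp_le_one_iff.2 h)⟩ p
  simpa [ZZ] using this

theorem abs_JJ_le (σ : ℝ) : |JJ σ| ≤ 1 := abs_J0_le _

theorem abs_ZZ_le (σ : ℝ) : |ZZ σ| ≤ jj ^ 2 * exp (2 * σ) := by
  have p := mul_pos jj_pos (exp_pos σ)
  have := abs_J1_le (jj * exp σ)
  rw [abs_of_pos p] at this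
  rw [ZZ, abs_mul, abs_of_pos p]
  calc _ ≤ jj * exp σ * (jj * exp σ) := mul_le_mul_of_nonneg_left this p.le
    _ = _ := by rw [two_mul, exp_add]; ring

end Pool.Agent.Work.MP_267827_an
end

-- merged part: Pool.Agent.Work.MP_267827_an.OneD
section
/-! Inequalities on the half line. -/

set_option autoImplicit false

namespace Pool.Agent.Work.MP_267827_an

open MeasureTheory Set Filter Topology Metric Real

section gen

variable {α : Type*} [MeasurableSpace α] {μ : Measure α}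

/-- bounded measurable functions -/
def B0 (μ : Measure α) (f : α → ℝ) : Prop := AEStronglyMeasurable f μ ∧ ∃ K, ∀ᵐ x ∂μ, |f x| ≤ K

theorem B0.const (c : ℝ) : B0 μ fun _ => c :=
  ⟨aestronglyMeasurable_const, |c|, Eventually.of_forall fun _ => le_rfl⟩

theorem B0.mul {f g : α → ℝ} (hf : B0 μ f) (hg : B0 μ g) : B0 μ fun x => f x * g x := by
  obtain ⟨m, K, h⟩ := hf
  obtain ⟨m', K', h'⟩ := hg
  refine ⟨m.mul m', K * K', ?_⟩
  filter_upwards [h, h'] with x a b
  rw [abs_mul]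
  exact mul_le_mul a b (abs_nonneg _) ((abs_nonneg _).trans a)

theorem B0.add {f g : α → ℝ} (hf : B0 μ f) (hg : B0 μ g) : B0 μ fun x => f x + g x := by
  obtain ⟨m, K, h⟩ := hf
  obtain ⟨m', K', h'⟩ := hg
  refine ⟨m.add m', K + K', ?_⟩
  filter_upwards [h, h'] with x a b
  exact (abs_add_le _ _).trans (add_le_add a b)

theorem B0.sub {f g : α → ℝ} (hf : B0 μ f) (hg : B0 μ g) : B0 μ fun x => f x - g x := by
  obtain ⟨m, K, h⟩ := hf
  obtain ⟨m', K', h'⟩ := hg
  refine ⟨m.sub m', K + K', ?_⟩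
  filter_upwards [h, h'] with x a b
  exact (abs_sub _ _).trans (add_le_add a b)

theorem B0.sq {f : α → ℝ} (hf : B0 μ f) : B0 μ fun x => f x ^ 2 := by
  simpa only [pow_two] using hf.mul hf

theorem B0.abs {f : α → ℝ} (hf : B0 μ f) : B0 μ fun x => |f x| := by
  obtain ⟨m, K, h⟩ := hf
  exact ⟨m.norm, K, by simpa using h⟩

theorem B0.mul_int {f g : α → ℝ} (hf : B0 μ f) (hg : Integrable g μ) :
    Integrable (fun x => f x * g x) μ := by
  obtain ⟨m, K, h⟩ := hf
  exact hg.bdd_mul m h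

theorem B0.int_mul {f g : α → ℝ} (hf : B0 μ f) (hg : Integrable g μ) :
    Integrable (fun x => g x * f x) μ := by
  simpa only [mul_comm] using hf.mul_int hg

theorem B0.sq_int {f : α → ℝ} (hf : B0 μ f) (hg : Integrable f μ) :
    Integrable (fun x => f x ^ 2) μ := by
  simpa only [pow_two] using hf.mul_int hg

theorem iadd {f g : α → ℝ} (hf : Integrable f μ) (hg : Integrable g μ) :
    Integrable (fun x => f x + g x) μ := hf.add hg

theorem isub {f g : α → ℝ} (hf : Integrable f μ) (hg : Integrable g μ) :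
    Integrable (fun x => f x - g x) μ := hf.sub hg

theorem ineg {f : α → ℝ} (hf : Integrable f μ) : Integrable (fun x => -f x) μ := hf.neg

theorem cs {f g : α → ℝ} (hf : Integrable (fun x => f x ^ 2) μ)
    (hg : Integrable (fun x => g x ^ 2) μ) (hfg : Integrable (fun x => f x * g x) μ) :
    (∫ x, f x * g x ∂μ) ^ 2 ≤ (∫ x, f x ^ 2 ∂μ) * ∫ x, g x ^ 2 ∂μ := by
  have h := discrim_le_zero (a := ∫ x, f x ^ 2 ∂μ) (b := 2 * ∫ x, f x * g x ∂μ)
    (c := ∫ x, g x ^ 2 ∂μ) fun t => by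
      have : 0 ≤ ∫ x, (f x ^ 2 * (t * t) + 2 * (f x * g x) * t + g x ^ 2) ∂μ :=
        integral_nonneg fun x => by
          have := sq_nonneg (t * f x + g x)
          simp only [Pi.zero_apply]; nlinarith
      rwa [integral_add (iadd (hf.mul_const _) ((hfg.const_mul 2).mul_const t)) hg,
        integral_add (hf.mul_const _) ((hfg.const_mul 2).mul_const t), integral_mul_const,
        integral_mul_const, integral_const_mul] at this
  rw [discrim] at h
  nlinarith

theorem abs_le_sqrt_mul {x a b : ℝ} (ha : 0 ≤ a) (h : x ^ 2 ≤ a * b) : |x| ≤ √a * √b := by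
  rw [← sqrt_mul ha]
  exact abs_le_sqrt h

/-- expansion of a weighted square -/
theorem int_sq_add {w f g : α → ℝ} (a : ℝ) (h1 : Integrable (fun x => w x * f x ^ 2) μ)
    (h2 : Integrable (fun x => w x * (f x * g x)) μ) (h3 : Integrable (fun x => w x * g x ^ 2) μ) :
    ∫ x, w x * (a * f x + g x) ^ 2 ∂μ = a ^ 2 * (∫ x, w x * f x ^ 2 ∂μ) +
      2 * a * (∫ x, w x * (f x * g x) ∂μ) + ∫ x, w x * g x ^ 2 ∂μ := by
  rw [← integral_const_mul, ← integral_const_mul,
    ← integral_add (h1.const_mul _) (h2.const_mul _),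
    ← integral_add (iadd (h1.const_mul _) (h2.const_mul _)) h3]
  exact integral_congr_ae (Eventually.of_forall fun x => by simp only; ring)

theorem int_sq_add' {f g : α → ℝ} (a : ℝ) (h1 : Integrable (fun x => f x ^ 2) μ)
    (h2 : Integrable (fun x => f x * g x) μ) (h3 : Integrable (fun x => g x ^ 2) μ) :
    ∫ x, (a * f x + g x) ^ 2 ∂μ = a ^ 2 * (∫ x, f x ^ 2 ∂μ) +
      2 * a * (∫ x, f x * g x ∂μ) + ∫ x, g x ^ 2 ∂μ := by
  simpa using int_sq_add (μ := μ) (w := fun _ => 1) (f := f) (g := g) a (by simpa using h1)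
    (by simpa using h2) (by simpa using h3)

end gen

/-- Lebesgue measure on the negative half line -/
noncomputable abbrev m0 : Measure ℝ := volume.restrict (Iio 0)

theorem ae_m0 {p : ℝ → Prop} (h : ∀ σ, σ < 0 → p σ) : ∀ᵐ σ ∂m0, p σ :=
  (ae_restrict_iff' measurableSet_Iio).2 (Eventually.of_forall h)

theorem int_exp {a : ℝ} (ha : 0 < a) : Integrable (fun σ => exp (a * σ)) m0 :=
  (integrableOn_exp_mul_Iic ha 0).mono_set Iio_subset_Iic_self

theorem integral_exp0 {a : ℝ} (ha : 0 < a) : ∫ σ, exp (a * σ) ∂m0 = 1 / a := by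
  have := integral_exp_mul_Iic ha 0
  rw [integral_Iic_eq_integral_Iio] at this
  simpa using this

theorem int_exp1 : Integrable exp m0 := by simpa using int_exp one_pos

theorem b0_of_cont {f : ℝ → ℝ} (hc : ContinuousOn f (Iio 0)) {K : ℝ}
    (h : ∀ σ, σ < 0 → |f σ| ≤ K) : B0 m0 f :=
  ⟨hc.aestronglyMeasurable measurableSet_Iio, K, ae_m0 h⟩

theorem int_of_cont {f : ℝ → ℝ} (hc : ContinuousOn f (Iio 0)) {K a : ℝ} (ha : 0 < a)
    (h : ∀ σ, σ < 0 → |f σ| ≤ K * exp (a * σ)) : Integrable f m0 :=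
  ((int_exp ha).const_mul K).mono' (hc.aestronglyMeasurable measurableSet_Iio) (ae_m0 h)

theorem exp_le_one' {a σ : ℝ} (ha : 0 ≤ a) (h : σ < 0) : exp (a * σ) ≤ 1 :=
  exp_le_one_iff.2 (mul_nonpos_of_nonneg_of_nonpos ha h.le)

theorem b0_exp {a : ℝ} (ha : 0 ≤ a) : B0 m0 fun σ => exp (a * σ) :=
  b0_of_cont (by fun_prop) (K := 1) fun σ h => by
    rw [abs_of_pos (exp_pos _)]; exact exp_le_one' ha h

theorem ftc0 {Φ Φ' : ℝ → ℝ} {l₀ l₁ : ℝ} (hd : ∀ σ, σ < 0 → HasDerivAt Φ (Φ' σ) σ)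
    (hi : Integrable Φ' m0) (h0 : Tendsto Φ atBot (𝓝 l₀)) (h1 : Tendsto Φ (𝓝[<] 0) (𝓝 l₁)) :
    ∫ σ, Φ' σ ∂m0 = l₁ - l₀ := by
  have e : ∀ σ, σ < 0 → Function.update Φ 0 l₁ =ᶠ[𝓝 σ] Φ := fun σ h => by
    filter_upwards [Iio_mem_nhds h] with x hx
    exact Function.update_of_ne (ne_of_lt hx) _ _
  have := integral_Iic_of_hasDerivAt_of_tendsto (f := Function.update Φ 0 l₁) (f' := Φ') (a := 0)
    (m := l₀) (by
      rw [← continuousWithinAt_Iio_iff_Iic, ContinuousWithinAt, Function.update_self]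
      refine h1.congr' ?_
      filter_upwards [self_mem_nhdsWithin] with x hx
      exact (Function.update_of_ne (ne_of_lt hx) _ _).symm)
    (fun x hx => (hd x hx).congr_of_eventuallyEq (e x hx))
    (by rw [IntegrableOn, ← restrict_Iio_eq_restrict_Iic]; exact hi)
    (h0.congr' (by
      filter_upwards [Iio_mem_atBot 0] with x hx
      exact (Function.update_of_ne (ne_of_lt hx) _ _).symm))
  rwa [integral_Iic_eq_integral_Iio, Function.update_self] at this

theorem tendsto_bot_of_le {Φ : ℝ → ℝ} {K : ℝ} (h : ∀ σ, σ ≤ -1 → |Φ σ| ≤ K / |σ|) :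
    Tendsto Φ atBot (𝓝 0) := by
  refine squeeze_zero_norm' (a := fun σ => K / |σ|) ?_
    (tendsto_const_nhds.div_atTop tendsto_abs_atBot_atTop)
  filter_upwards [Iic_mem_atBot (-1)] with σ hσ
  exact h σ hσ

theorem tendsto_zero_of_le {Φ : ℝ → ℝ} {K : ℝ} (h : ∀ σ, -1 < σ → σ < 0 → |Φ σ| ≤ K * |σ|) :
    Tendsto Φ (𝓝[<] 0) (𝓝 0) := by
  refine squeeze_zero_norm' (a := fun σ => K * |σ|) ?_ ?_
  · filter_upwards [Ioo_mem_nhdsLT (show (-1 : ℝ) < 0 by norm_num)] with σ hσ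
    exact h σ hσ.1 hσ.2
  · have : Tendsto (fun σ : ℝ => K * |σ|) (𝓝 0) (𝓝 (K * |0|)) :=
      Continuous.tendsto (by fun_prop) 0
    simpa using this.mono_left nhdsWithin_le_nhds

theorem exp_le_inv {σ : ℝ} (h : σ < 0) : exp σ ≤ 1 / |σ| := by
  rw [le_div_iff₀ (abs_pos.2 h.ne), abs_of_neg h]
  have := add_one_le_exp (-σ)
  have e : exp σ * exp (-σ) = 1 := by rw [← exp_add]; simp
  nlinarith [exp_pos σ]

namespace V1

variable {f f' g g' : ℝ → ℝ}

theorem contf (h : V1 f f') : ContinuousOn f (Iio 0) :=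
  fun σ hσ => (h.der σ hσ).continuousAt.continuousWithinAt

theorem bd' (h : V1 f f') : ∃ K : ℝ, 0 ≤ K ∧
    ∀ σ, σ < 0 → |f σ| ≤ K ∧ |f σ| ≤ K * |σ| ∧ |f' σ| ≤ K * exp σ := by
  obtain ⟨K, hK⟩ := h.bd
  exact ⟨K, (abs_nonneg _).trans (hK (-1) (by norm_num)).1, hK⟩

theorem b0 (h : V1 f f') : B0 m0 f := by
  obtain ⟨K, hK⟩ := h.bd
  exact b0_of_cont h.contf fun σ hσ => (hK σ hσ).1

theorem b0' (h : V1 f f') : B0 m0 f' := by
  obtain ⟨K, K0, hK⟩ := h.bd'
  exact b0_of_cont h.cont (K := K) fun σ hσ =>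
    (hK σ hσ).2.2.trans (mul_le_of_le_one_right K0 (exp_le_one_iff.2 hσ.le))

theorem int' (h : V1 f f') : Integrable f' m0 := by
  obtain ⟨K, hK⟩ := h.bd
  exact int_of_cont h.cont (K := K) one_pos fun σ hσ => by simpa using (hK σ hσ).2.2

theorem intD (h : V1 f f') : Integrable (fun σ => f' σ ^ 2) m0 := h.b0'.sq_int h.int'

theorem intDD (h : V1 f f') (k : V1 g g') : Integrable (fun σ => f' σ * g' σ) m0 :=
  h.b0'.mul_int k.int'

theorem intN (h : V1 f f') : Integrable (fun σ => exp (2 * σ) * f σ ^ 2) m0 :=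
  h.b0.sq.int_mul (int_exp two_pos)

theorem intNN (h : V1 f f') (k : V1 g g') : Integrable (fun σ => exp (2 * σ) * (f σ * g σ)) m0 :=
  (h.b0.mul k.b0).int_mul (int_exp two_pos)

theorem lin (a : ℝ) (h : V1 f f') (k : V1 g g') :
    V1 (fun σ => a * f σ + g σ) (fun σ => a * f' σ + g' σ) := by
  obtain ⟨K, hK⟩ := h.bd
  obtain ⟨K', hK'⟩ := k.bd
  refine ⟨fun σ hσ => ((h.der σ hσ).const_mul a).add (k.der σ hσ),
    (continuousOn_const.mul h.cont).add k.cont, |a| * K + K', fun σ hσ => ?_⟩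
  obtain ⟨a1, a2, a3⟩ := hK σ hσ
  obtain ⟨b1, b2, b3⟩ := hK' σ hσ
  have := abs_nonneg a
  refine ⟨(abs_add_le _ _).trans ?_, (abs_add_le _ _).trans ?_, (abs_add_le _ _).trans ?_⟩ <;>
    rw [abs_mul] <;> nlinarith

theorem congr {F F' : ℝ → ℝ} (h : V1 f f') (e : ∀ σ, σ < 0 → F σ = f σ)
    (e' : ∀ σ, σ < 0 → F' σ = f' σ) : V1 F F' := by
  obtain ⟨K, hK⟩ := h.bd
  refine ⟨fun σ hσ => ?_, h.cont.congr e', K, fun σ hσ => ?_⟩
  · rw [e' σ hσ]
    refine (h.der σ hσ).congr_of_eventuallyEq ?_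
    filter_upwards [Iio_mem_nhds hσ] with x hx using e x hx
  · rw [e σ hσ, e' σ hσ]; exact hK σ hσ

theorem of_der (hd : ∀ σ, σ ≤ 0 → HasDerivAt f (f' σ) σ) (hc : ContinuousOn f' (Iic 0))
    (h0 : f 0 = 0) {K : ℝ} (hK : ∀ σ, σ ≤ 0 → |f' σ| ≤ K * exp σ) : V1 f f' := by
  have K0 : 0 ≤ K := by simpa using (abs_nonneg _).trans (hK 0 le_rfl)
  refine ⟨fun σ hσ => hd σ hσ.le, hc.mono Iio_subset_Iic_self, K, fun σ hσ => ?_⟩
  have sub : uIcc σ 0 ⊆ Iic 0 := by rw [uIcc_of_le hσ.le]; exact Icc_subset_Iic_self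
  have h1 := intervalIntegral.integral_eq_sub_of_hasDerivAt (fun x hx => hd x (sub hx))
    ((hc.mono sub).intervalIntegrable)
  have h2 : ‖∫ x in σ..0, f' x‖ ≤ ∫ x in σ..0, K * exp x :=
    intervalIntegral.norm_integral_le_of_norm_le hσ.le
      (Eventually.of_forall fun x hx => hK x hx.2)
      (Continuous.intervalIntegrable (by fun_prop) _ _)
  rw [h1, h0, intervalIntegral.integral_const_mul, integral_exp, exp_zero, zero_sub, norm_neg,
    Real.norm_eq_abs] at h2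
  have h3 := add_one_le_exp σ
  have h4 := exp_pos σ
  refine ⟨by nlinarith, ?_, hK σ hσ.le⟩
  rw [abs_of_neg hσ]; nlinarith

/-- integration by parts -/
theorem ibp (h : V1 f f') {g1 g2 : ℝ → ℝ} (hd : ∀ σ, σ < 0 → HasDerivAt g1 (g2 σ) σ)
    (hi : Integrable g2 m0) {C : ℝ} (hb : ∀ σ, σ < 0 → |g1 σ| ≤ C * exp σ) :
    ∫ σ, f' σ * g1 σ ∂m0 = -∫ σ, f σ * g2 σ ∂m0 := by
  obtain ⟨K, K0, hK⟩ := h.bd'
  have C0 : 0 ≤ C := nonneg_of_mul_nonneg_left ((abs_nonneg _).trans (hb (-1) (by norm_num)))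
    (exp_pos _)
  have b1 : B0 m0 g1 := b0_of_cont (fun σ hσ => (hd σ hσ).continuousAt.continuousWithinAt)
    (K := C) fun σ hσ => (hb σ hσ).trans (mul_le_of_le_one_right C0 (exp_le_one_iff.2 hσ.le))
  have i1 := b1.int_mul h.int'
  have i2 := h.b0.mul_int hi
  have := ftc0 (Φ := fun σ => f σ * g1 σ) (Φ' := fun σ => f' σ * g1 σ + f σ * g2 σ)
    (fun σ hσ => (h.der σ hσ).mul (hd σ hσ)) (i1.add i2)
    (tendsto_bot_of_le (K := K * C) fun σ hσ => by
      have s0 : σ < 0 := by linarith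
      rw [abs_mul, mul_div_assoc, div_eq_mul_one_div]
      exact mul_le_mul (hK σ s0).1 ((hb σ s0).trans
        (mul_le_mul_of_nonneg_left (exp_le_inv s0) C0)) (abs_nonneg _) K0)
    (tendsto_zero_of_le (K := K * C) fun σ _ s0 => by
      rw [abs_mul, mul_right_comm]
      exact mul_le_mul (hK σ s0).2.1 ((hb σ s0).trans
        (mul_le_of_le_one_right C0 (exp_le_one_iff.2 s0.le))) (abs_nonneg _) (by positivity))
  rw [integral_add i1 i2] at this
  linarith

theorem abs_mul_le (h : V1 f f') : ∃ K : ℝ, 0 ≤ K ∧ ∀ σ, σ < 0 →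
    |f σ| * (1 + |σ|) ≤ K * |σ| := by
  obtain ⟨K, K0, hK⟩ := h.bd'
  refine ⟨2 * K, by positivity, fun σ hσ => ?_⟩
  obtain ⟨a1, a2, -⟩ := hK σ hσ
  nlinarith [abs_nonneg σ]

theorem int_inv_sq : Integrable (fun σ : ℝ => (1 + σ ^ 2)⁻¹) m0 :=
  integrable_inv_one_add_sq.restrict

/-- the Riccati identity -/
theorem riccati (h : V1 f f') {g p : ℝ → ℝ}
    (hd : ∀ σ, σ < 0 → HasDerivAt g (-(p σ) - g σ ^ 2) σ)
    (hp : Integrable (fun σ => p σ * f σ ^ 2) m0) {C : ℝ}
    (hg : ∀ σ, σ < 0 → |g σ| * |σ| ≤ C) :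
    Integrable (fun σ => (f' σ - g σ * f σ) ^ 2) m0 ∧
    ∫ σ, (f' σ - g σ * f σ) ^ 2 ∂m0 = (∫ σ, f' σ ^ 2 ∂m0) - ∫ σ, p σ * f σ ^ 2 ∂m0 := by
  obtain ⟨K, K0, hK⟩ := h.bd'
  obtain ⟨L, L0, hL⟩ := h.abs_mul_le
  have C0 : 0 ≤ C := le_trans (by positivity) (hg (-1) (by norm_num))
  have gc : ContinuousOn g (Iio 0) := fun σ hσ => (hd σ hσ).continuousAt.continuousWithinAt
  have key : ∀ σ, σ < 0 → |g σ * f σ| * (1 + |σ|) ≤ C * L := by
    intro σ hσ
    rw [abs_mul, mul_assoc]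
    calc _ ≤ |g σ| * (L * |σ|) := mul_le_mul_of_nonneg_left (hL σ hσ) (abs_nonneg _)
      _ = |g σ| * |σ| * L := by ring
      _ ≤ _ := mul_le_mul_of_nonneg_right (hg σ hσ) L0
  have b1 : B0 m0 fun σ => g σ * f σ := b0_of_cont (gc.mul h.contf) (K := C * L) fun σ hσ => by
    have := key σ hσ
    nlinarith [abs_nonneg (g σ * f σ), abs_nonneg σ]
  have i1 : Integrable (fun σ => (g σ * f σ) ^ 2) m0 := by
    refine (int_inv_sq.const_mul ((C * L) ^ 2)).mono' b1.sq.1 (ae_m0 fun σ hσ => ?_)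
    have := key σ hσ
    rw [Real.norm_of_nonneg (sq_nonneg _), ← div_eq_mul_inv, le_div_iff₀ (by positivity),
      ← sq_abs (g σ * f σ), ← sq_abs σ]
    have h2 := pow_le_pow_left₀ (by positivity) this 2
    nlinarith [abs_nonneg σ, sq_nonneg |g σ * f σ|, mul_nonneg (sq_nonneg |g σ * f σ|)
      (abs_nonneg σ)]
  have i2 := b1.mul_int h.int'
  have e := ftc0 (Φ := fun σ => g σ * f σ * f σ)
    (Φ' := fun σ => 2 * (g σ * f σ * f' σ) - p σ * f σ ^ 2 - (g σ * f σ) ^ 2)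
    (fun σ hσ => (((hd σ hσ).mul (h.der σ hσ)).mul (h.der σ hσ)).congr_deriv
      (by simp only [Pi.mul_apply]; ring))
    (((i2.const_mul 2).sub hp).sub i1)
    (tendsto_bot_of_le (K := C * L * K) fun σ hσ => by
      have s0 : σ < 0 := by linarith
      rw [abs_mul, le_div_iff₀ (abs_pos.2 s0.ne), mul_right_comm]
      refine mul_le_mul ?_ (hK σ s0).1 (abs_nonneg _) (by positivity)
      have := key σ s0
      nlinarith [abs_nonneg (g σ * f σ)])
    (tendsto_zero_of_le (K := C * L * K) fun σ _ s0 => by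
      rw [abs_mul, mul_assoc (C * L)]
      refine mul_le_mul ?_ (hK σ s0).2.1 (abs_nonneg _) (by positivity)
      have := key σ s0
      nlinarith [abs_nonneg (g σ * f σ), abs_nonneg σ])
  rw [integral_sub (isub (i2.const_mul 2) hp) i1, integral_sub (i2.const_mul 2) hp] at e
  have e2 : (fun σ => (f' σ - g σ * f σ) ^ 2) =
      fun σ => f' σ ^ 2 - 2 * (g σ * f σ * f' σ) + (g σ * f σ) ^ 2 := by
    funext σ; ring
  rw [e2]
  refine ⟨(h.intD.sub (i2.const_mul 2)).add i1, ?_⟩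
  rw [integral_add (isub h.intD (i2.const_mul 2)) i1, integral_sub h.intD (i2.const_mul 2)]
  linarith

theorem intH (h : V1 f f') : Integrable (fun σ => (σ ^ 2)⁻¹ * f σ ^ 2) m0 := by
  obtain ⟨L, L0, hL⟩ := h.abs_mul_le
  refine (int_inv_sq.const_mul (L ^ 2)).mono' ?_ (ae_m0 fun σ hσ => ?_)
  · exact (by fun_prop : Measurable fun σ : ℝ => (σ ^ 2)⁻¹).aestronglyMeasurable.mul h.b0.sq.1
  · have h2 := pow_le_pow_left₀ (by positivity) (hL σ hσ) 2
    have s0 : 0 < σ ^ 2 := by have := hσ.ne; positivity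
    rw [Real.norm_of_nonneg (by positivity), ← div_eq_mul_inv, le_div_iff₀ (by positivity),
      mul_assoc, inv_mul_le_iff₀ s0]
    rw [mul_pow, mul_pow, sq_abs, sq_abs] at h2
    have h3 : 1 + σ ^ 2 ≤ (1 + |σ|) ^ 2 := by nlinarith [abs_nonneg σ, sq_abs σ]
    nlinarith [sq_nonneg (f σ)]

/-- Hardy's inequality -/
theorem hardy (h : V1 f f') : ∫ σ, (σ ^ 2)⁻¹ * f σ ^ 2 ∂m0 ≤ 4 * ∫ σ, f' σ ^ 2 ∂m0 := by
  have i1 := h.intH.const_mul (1 / 4)
  simp only [← mul_assoc] at i1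
  have := (h.riccati (g := fun σ => 1 / 2 * σ⁻¹) (p := fun σ => 1 / 4 * (σ ^ 2)⁻¹)
    (fun σ hσ => ((hasDerivAt_inv hσ.ne).const_mul (1 / 2)).congr_deriv (by
      have := hσ.ne; field_simp; ring)) i1 (C := 1 / 2) fun σ hσ => by
      have := abs_pos.2 hσ.ne
      rw [abs_mul, abs_inv, abs_of_pos (by norm_num : (0 : ℝ) < 1 / 2)]
      field_simp; rfl).2
  have n : 0 ≤ ∫ σ, (f' σ - 1 / 2 * σ⁻¹ * f σ) ^ 2 ∂m0 := integral_nonneg fun _ => sq_nonneg _
  simp only [mul_assoc, integral_const_mul] at this n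
  linarith

theorem N_le_D (h : V1 f f') : ∫ σ, exp (2 * σ) * f σ ^ 2 ∂m0 ≤ ∫ σ, f' σ ^ 2 ∂m0 := by
  have h1 := h.hardy
  have h2 : ∫ σ, exp (2 * σ) * f σ ^ 2 ∂m0 ≤ ∫ σ, 1 / 4 * ((σ ^ 2)⁻¹ * f σ ^ 2) ∂m0 := by
    refine integral_mono_ae h.intN (h.intH.const_mul _) (ae_m0 fun σ hσ => ?_)
    simp only
    rw [← mul_assoc]
    refine mul_le_mul_of_nonneg_right ?_ (sq_nonneg _)
    have s0 : 0 < σ ^ 2 := by have := hσ.ne; positivity
    have e1 : 2 * -σ ≤ exp (-σ) := by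
      have := Real.quadratic_le_exp_of_nonneg (x := -σ) (by linarith)
      have := Real.sum_le_exp_of_nonneg (x := -σ) (by linarith) 4
      simp [Finset.sum_range_succ, Nat.factorial] at this
      nlinarith [sq_nonneg (σ + 1), sq_nonneg σ, mul_nonneg (sq_nonneg (σ + 1)) (neg_nonneg.2 hσ.le)]
    have e2 : exp (2 * σ) * exp (-σ) ^ 2 = 1 := by
      rw [← exp_nat_mul, ← exp_add]; simp
    rw [← div_eq_mul_inv, le_div_iff₀ s0]
    have e3 : (2 * -σ) ^ 2 ≤ exp (-σ) ^ 2 := pow_le_pow_left₀ (by linarith) e1 2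
    nlinarith [exp_pos (2 * σ)]
  rw [integral_const_mul] at h2
  linarith

end V1

theorem exp_sq (σ : ℝ) : exp σ ^ 2 = exp (2 * σ) := by rw [← exp_nat_mul]; norm_num

theorem ip_le_N {f w : ℝ → ℝ} (h : B0 m0 f) {C : ℝ}
    (hw : ∀ σ, σ < 0 → |w σ| ≤ C * exp (2 * σ)) :
    |∫ σ, w σ * f σ ∂m0| ≤ C * √(∫ σ, exp (2 * σ) * f σ ^ 2 ∂m0) := by
  have C0 : 0 ≤ C := nonneg_of_mul_nonneg_left ((abs_nonneg _).trans (hw (-1) (by norm_num)))
    (exp_pos _)
  have i1 : Integrable (fun σ => exp σ * (exp σ * |f σ|)) m0 :=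
    ((b0_exp zero_le_one).mul h.abs).int_mul int_exp1 |>.congr (by simp)
  have h1 := cs (μ := m0) (f := exp) (g := fun σ => exp σ * |f σ|)
    (by simpa only [exp_sq] using int_exp two_pos)
    (by simpa only [mul_pow, exp_sq, sq_abs] using h.sq.int_mul (int_exp two_pos)) i1
  simp only [mul_pow, exp_sq, sq_abs, integral_exp0 two_pos] at h1
  have h2 : ‖∫ σ, w σ * f σ ∂m0‖ ≤ ∫ σ, C * (exp σ * (exp σ * |f σ|)) ∂m0 :=
    norm_integral_le_of_norm_le (i1.const_mul C) (ae_m0 fun σ hσ => by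
      rw [norm_mul, ← mul_assoc (exp σ), ← sq, exp_sq, ← mul_assoc]
      exact mul_le_mul_of_nonneg_right (hw σ hσ) (abs_nonneg _))
  rw [integral_const_mul] at h2
  refine h2.trans (mul_le_mul_of_nonneg_left (le_sqrt_of_sq_le ?_) C0)
  have n : 0 ≤ ∫ σ, exp (2 * σ) * f σ ^ 2 ∂m0 := integral_nonneg fun σ => by positivity
  linarith

/-- weights that decay like `exp (2 σ)` -/
theorem V1.ip_le {f f' : ℝ → ℝ} (h : V1 f f') {w : ℝ → ℝ} {C : ℝ}
    (hw : ∀ σ, σ < 0 → |w σ| ≤ C * exp (2 * σ)) :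
    |∫ σ, w σ * f σ ∂m0| ≤ C * √(∫ σ, f' σ ^ 2 ∂m0) := by
  have C0 : 0 ≤ C := nonneg_of_mul_nonneg_left ((abs_nonneg _).trans (hw (-1) (by norm_num)))
    (exp_pos _)
  exact (ip_le_N h.b0 hw).trans (mul_le_mul_of_nonneg_left (sqrt_le_sqrt h.N_le_D) C0)

/-- weights that are concentrated near `0` -/
theorem V1.ip_hardy {f f' : ℝ → ℝ} (h : V1 f f') {w : ℝ → ℝ} {C : ℝ}
    (hw : ∀ σ, σ < 0 → |w σ| * |σ| ≤ C * exp σ) :
    |∫ σ, w σ * f σ ∂m0| ≤ 2 * C * √(∫ σ, f' σ ^ 2 ∂m0) := by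
  have C0 : 0 ≤ C := nonneg_of_mul_nonneg_left
    (le_trans (by positivity) (hw (-1) (by norm_num))) (exp_pos _)
  obtain ⟨K, K0, hK⟩ := h.bd'
  have b1 : B0 m0 fun σ => |σ⁻¹ * f σ| := by
    refine B0.abs ⟨(by fun_prop : Measurable fun σ : ℝ => σ⁻¹).aestronglyMeasurable.mul h.b0.1, K,
      ae_m0 fun σ hσ => ?_⟩
    rw [abs_mul, abs_inv, inv_mul_le_iff₀ (abs_pos.2 hσ.ne), mul_comm]
    exact (hK σ hσ).2.1
  have i1 := b1.int_mul int_exp1
  have h1 := cs (μ := m0) (f := exp) (g := fun σ => |σ⁻¹ * f σ|)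
    (by simpa only [exp_sq] using int_exp two_pos)
    (by simpa only [mul_pow, sq_abs, inv_pow] using h.intH) i1
  simp only [mul_pow, exp_sq, sq_abs, inv_pow, integral_exp0 two_pos] at h1
  have h2 : ‖∫ σ, w σ * f σ ∂m0‖ ≤ ∫ σ, C * (exp σ * |σ⁻¹ * f σ|) ∂m0 :=
    norm_integral_le_of_norm_le (i1.const_mul C) (ae_m0 fun σ hσ => by
      have := abs_pos.2 hσ.ne
      rw [norm_mul, ← mul_assoc, abs_mul, abs_inv, ← mul_assoc]
      refine mul_le_mul_of_nonneg_right ?_ (abs_nonneg _)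
      rw [← div_eq_mul_inv, le_div_iff₀ this]
      exact hw σ hσ)
  rw [integral_const_mul] at h2
  refine h2.trans ?_
  rw [mul_comm 2 C, mul_assoc]
  refine mul_le_mul_of_nonneg_left ?_ C0
  have := h.hardy
  have n : 0 ≤ ∫ σ, f' σ ^ 2 ∂m0 := integral_nonneg fun σ => by positivity
  refine abs_le_abs (le_abs_self _) ?_ |>.trans' (le_abs_self _) |>.trans ?_
  · exact neg_le_abs _
  · rw [abs_abs]
    refine abs_le_of_sq_le_sq ?_ (by positivity)
    rw [mul_pow, sq_sqrt n]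
    linarith

theorem ev_small (A : ℝ) {B : ℝ} (hB : 0 < B) : ∀ᶠ t in 𝓝[>] (0 : ℝ), A * t ≤ B := by
  have : Tendsto (fun t : ℝ => A * t) (𝓝 0) (𝓝 (A * 0)) := Continuous.tendsto (by fun_prop) 0
  rw [mul_zero] at this
  exact (this.mono_left nhdsWithin_le_nhds).eventually (Iic_mem_nhds hB)

theorem ev_le {B : ℝ} (hB : 0 < B) : ∀ᶠ t in 𝓝[>] (0 : ℝ), 0 < t ∧ t ≤ B := by
  filter_upwards [ev_small 1 hB, self_mem_nhdsWithin] with t h1 h2
  exact ⟨h2, by linarith⟩

end Pool.Agent.Work.MP_267827_an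
end
end

-- merged part: Pool.Agent.Work.MP_267827_an.Transfer
section
/-! From the normalised statement in the complex plane to the Euclidean plane. -/

set_option autoImplicit false

namespace Pool.Agent.Work.MP_267827_an

open MeasureTheory Set Filter Topology Metric Real

/-- the normalised statement in the complex plane -/
def CoreC (n : ℕ) : Prop :=
  ∃ r lam : ℝ, 0 < r ∧
    (∀ η : ℝ, 0 < η → ∃ u : ℂ → ℝ, Test (Ins (Gam (reg n r))) u ∧ u ≠ 0 ∧
      EE u ≤ (lam + η) * NN u) ∧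
    ∀ v : Fin n → ℂ, Simple v → volume (Ins (Gam v)) = volume (Ins (Gam (reg n r))) →
      (∃ (O : ℂ) (ϑ₀ : ℝ), Gam v = (fun z => O + ei ϑ₀ * z) '' Gam (reg n r)) ∨
        ∃ μ : ℝ, 0 < μ ∧ ∀ u : ℂ → ℝ, Test (Ins (Gam v)) u → (lam + μ) * NN u ≤ EE u

section sim

open Pointwise

variable {E F : Type*} [NormedAddCommGroup E] [InnerProductSpace ℝ E] [NormedAddCommGroup F]
  [InnerProductSpace ℝ F]

/-- similarities of ratio `s` -/
def TransferSim (Φ : E ≃ₜ F) (s : ℝ) : Prop :=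
  0 < s ∧ ∃ (O : F) (L : E ≃ₗᵢ[ℝ] F), ∀ x, Φ x = O + s • L x

theorem transfer_exists (O : F) {s : ℝ} (hs : 0 < s) (L : E ≃ₗᵢ[ℝ] F) :
    ∃ Φ : E ≃ₜ F, TransferSim Φ s ∧ ∀ x, Φ x = O + s • L x :=
  ⟨L.toHomeomorph.trans ((Homeomorph.smulOfNeZero s hs.ne').trans (Homeomorph.addLeft O)),
    ⟨hs, O, L, fun _ => rfl⟩, fun _ => rfl⟩

variable {Φ : E ≃ₜ F} {s : ℝ}

theorem TransferSim.symm (h : TransferSim Φ s) : TransferSim Φ.symm s⁻¹ := by
  obtain ⟨hs, O, L, h⟩ := h
  refine ⟨inv_pos.2 hs, -(s⁻¹ • L.symm O), L.symm, fun y => ?_⟩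
  rw [Homeomorph.symm_apply_eq, h]
  simp [smul_smul, hs.ne']

theorem TransferSim.dist_eq (h : TransferSim Φ s) (x y : E) : dist (Φ x) (Φ y) = s * dist x y := by
  obtain ⟨hs, O, L, h⟩ := h
  rw [h, h, dist_add_left, dist_smul₀, L.dist_map, Real.norm_eq_abs, abs_of_pos hs]

theorem TransferSim.seg (h : TransferSim Φ s) (a b : E) :
    Φ '' segment ℝ a b = segment ℝ (Φ a) (Φ b) := by
  obtain ⟨hs, O, L, h⟩ := h
  rw [segment_eq_image, segment_eq_image, image_image]
  refine image_congr fun t _ => ?_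
  simp only [h, map_add, map_smul]
  module

theorem TransferSim.edge (h : TransferSim Φ s) {n : ℕ} (v : Fin n → E) (i : Fin n) :
    edge (Φ ∘ v) i = Φ '' edge v i := (h.seg _ _).symm

theorem TransferSim.gam (h : TransferSim Φ s) {n : ℕ} (v : Fin n → E) :
    Gam (Φ ∘ v) = Φ '' Gam v := by
  simp only [Gam, image_iUnion, h.edge]

theorem TransferSim.bdd (h : TransferSim Φ s) {A : Set E} (hA : Bornology.IsBounded A) :
    Bornology.IsBounded (Φ '' A) :=
  (LipschitzWith.of_dist_le_mul (K := ⟨s, h.1.le⟩) fun x y => (h.dist_eq x y).le).isBounded_image hA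

theorem TransferSim.ins (h : TransferSim Φ s) (Γ : Set E) : Ins (Φ '' Γ) = Φ '' Ins Γ := by
  ext y
  obtain ⟨x, rfl⟩ := Φ.surjective y
  rw [Φ.injective.mem_set_image]
  simp only [Ins, mem_ofPred_eq, Φ.injective.mem_set_image]
  refine and_congr_right fun hx => ?_
  rw [← Φ.image_compl, ← Φ.image_connectedComponentIn hx]
  refine ⟨fun k => ?_, h.bdd⟩
  have := h.symm.bdd k
  rwa [image_image, show (fun x => Φ.symm (Φ x)) = id from funext Φ.symm_apply_apply,
    image_id] at this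

theorem TransferSim.col (h : TransferSim Φ s) {A : Set E} (hA : Collinear ℝ A) :
    Collinear ℝ (Φ '' A) := by
  obtain ⟨hs, O, L, h⟩ := h
  rw [collinear_iff_exists_forall_eq_smul_vadd] at hA ⊢
  obtain ⟨p, d, hA⟩ := hA
  refine ⟨Φ p, s • L d, ?_⟩
  rintro _ ⟨x, hx, rfl⟩
  obtain ⟨t, rfl⟩ := hA x hx
  refine ⟨t, ?_⟩
  simp only [h, vadd_eq_add, map_add, map_smul]
  module

theorem TransferSim.simple (h : TransferSim Φ s) {n : ℕ} {v : Fin n → E} (hv : Simple v) :
    Simple (Φ ∘ v) := by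
  refine ⟨fun i k => hv.1 i ?_, fun i j h1 h2 h3 => ?_⟩
  · simpa [image_insert_eq] using h.symm.col k
  · rw [h.edge, h.edge]
    exact (disjoint_image_iff Φ.injective).2 (hv.2 i j h1 h2 h3)

theorem TransferSim.der (h : TransferSim Φ s) : ∃ L : E ≃ₗᵢ[ℝ] F, ContDiff ℝ 1 Φ ∧
    ∀ x, HasFDerivAt Φ (s • (L.toContinuousLinearEquiv : E →L[ℝ] F)) x := by
  obtain ⟨hs, O, L, h⟩ := h
  refine ⟨L, ?_, fun x => ?_⟩
  · rw [show (Φ : E → F) = fun x => O + s • L x from funext h]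
    exact contDiff_const.add (L.contDiff.const_smul s)
  · rw [show (Φ : E → F) = fun x => O + s • L x from funext h]
    exact (L.toContinuousLinearEquiv.hasFDerivAt.const_smul s).const_add O

theorem TransferSim.test (h : TransferSim Φ s) {P : Set E} {u : F → ℝ} (hu : Test (Φ '' P) u) :
    Test P (u ∘ Φ) := by
  obtain ⟨L, h1, -⟩ := h.der
  refine ⟨hu.1.comp h1, hu.2.1.comp_homeomorph Φ, fun x hx => ?_⟩
  have : Φ x ∈ tsupport u := by
    have k : tsupport (u ∘ Φ) ⊆ Φ ⁻¹' tsupport u :=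
      closure_minimal (fun y hy => subset_closure hy) ((isClosed_tsupport u).preimage Φ.continuous)
    exact k hx
  exact Φ.injective.mem_set_image.1 (hu.2.2 this)

variable [FiniteDimensional ℝ E] [MeasurableSpace E] [BorelSpace E] [FiniteDimensional ℝ F]
  [MeasurableSpace F] [BorelSpace F]

theorem TransferSim.int (h : TransferSim Φ s) (hF : Module.finrank ℝ F = 2) (g : F → ℝ) :
    ∫ x, g (Φ x) = (s ^ 2)⁻¹ * ∫ y, g y := by
  obtain ⟨hs, O, L, h⟩ := h
  simp only [h]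
  rw [L.measurePreserving.integral_comp L.toHomeomorph.measurableEmbedding
    (fun y => g (O + s • y)), Measure.integral_comp_smul volume (fun y => g (O + y)) s,
    integral_add_left_eq_self, hF, abs_of_pos (by positivity), smul_eq_mul]

theorem TransferSim.vol (h : TransferSim Φ s) (hF : Module.finrank ℝ F = 2) (A : Set E) :
    volume (Φ '' A) = ENNReal.ofReal (s ^ 2) * volume A := by
  obtain ⟨hs, O, L, h⟩ := h
  have h1 : Φ '' A = O +ᵥ (s • (L '' A)) := by
    rw [← image_smul, ← image_vadd, image_image, image_image]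
    exact image_congr fun x _ => h x
  have h2 : volume (L '' A) = volume A := by
    rw [← (L.measurePreserving).measure_preimage_emb L.toHomeomorph.measurableEmbedding,
      preimage_image_eq _ L.injective]
  rw [h1, measure_vadd, Measure.addHaar_smul_of_nonneg _ hs.le, hF, h2]

theorem TransferSim.nn (h : TransferSim Φ s) (hF : Module.finrank ℝ F = 2) (u : F → ℝ) :
    NN (u ∘ Φ) = (s ^ 2)⁻¹ * NN u := h.int hF fun y => u y ^ 2

theorem TransferSim.ee (h : TransferSim Φ s) (hF : Module.finrank ℝ F = 2) {u : F → ℝ}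
    (hu : ContDiff ℝ 1 u) : EE (u ∘ Φ) = EE u := by
  obtain ⟨L, -, h1⟩ := h.der
  have h2 : ∀ x, ‖fderiv ℝ (u ∘ Φ) x‖ ^ 2 = s ^ 2 * ‖fderiv ℝ u (Φ x)‖ ^ 2 := by
    intro x
    rw [((hu.differentiable one_ne_zero (Φ x)).hasFDerivAt.comp x (h1 x)).fderiv,
      ContinuousLinearMap.comp_smul, norm_smul, mul_pow, Real.norm_eq_abs, sq_abs]
    congr 2
    exact ContinuousLinearMap.opNorm_comp_linearIsometryEquiv _ L
  have hs := h.1
  simp only [EE, h2]
  rw [integral_const_mul, h.int hF fun y => ‖fderiv ℝ u y‖ ^ 2, ← mul_assoc,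
    mul_inv_cancel₀ (by positivity), one_mul]

/-- the set of Rayleigh quotients -/
def TransferQ (P : Set E) : Set ℝ := {q | ∃ u : E → ℝ, Test P u ∧ u ≠ 0 ∧ q = EE u / NN u}

theorem TransferSim.quot (h : TransferSim Φ s) (hF : Module.finrank ℝ F = 2) (P : Set E) :
    TransferQ P = s ^ 2 • TransferQ (Φ '' P) := by
  have key : ∀ u : F → ℝ, ContDiff ℝ 1 u → EE (u ∘ Φ) / NN (u ∘ Φ) = s ^ 2 * (EE u / NN u) := by
    intro u hu
    rw [h.ee hF hu, h.nn hF, ← div_div, div_right_comm, div_inv_eq_mul, mul_comm]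
  ext q
  constructor
  · rintro ⟨u, h1, h2, rfl⟩
    have h3 : Test (Φ '' P) (u ∘ Φ.symm) := h.symm.test (by
      rwa [image_image, show (fun x => Φ.symm (Φ x)) = id from funext Φ.symm_apply_apply,
        image_id])
    have h4 : (u ∘ Φ.symm) ∘ Φ = u := funext fun x => by simp
    refine ⟨_, ⟨u ∘ Φ.symm, h3, fun k => h2 ?_, rfl⟩, ?_⟩
    · rw [← h4, k]
      rfl
    · beta_reduce
      rw [smul_eq_mul, ← key _ h3.1, h4]
  · rintro ⟨_, ⟨u, h1, h2, rfl⟩, rfl⟩
    refine ⟨u ∘ Φ, h.test h1, fun k => h2 (funext fun y => ?_), (key u h1.1).symm⟩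
    simpa using congrFun k (Φ.symm y)

theorem TransferSim.inf (h : TransferSim Φ s) (hF : Module.finrank ℝ F = 2) (P : Set E) :
    sInf (TransferQ P) = s ^ 2 * sInf (TransferQ (Φ '' P)) := by
  rw [h.quot hF, Real.sInf_smul_of_nonneg (sq_nonneg s), smul_eq_mul]

theorem transfer_nn_pos {P : Set E} {u : E → ℝ} (h : Test P u) (h0 : u ≠ 0) : 0 < NN u := by
  obtain ⟨x, hx⟩ := Function.ne_iff.1 h0
  refine Continuous.integral_pos_of_hasCompactSupport_nonneg_nonzero (x := x)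
    (h.1.continuous.pow 2) ?_ (fun y => sq_nonneg _) (pow_ne_zero 2 hx)
  exact h.2.1.comp_left (g := fun t : ℝ => t ^ 2) (by simp)

theorem transfer_bdd (P : Set E) : BddBelow (TransferQ P) := by
  refine ⟨0, ?_⟩
  rintro _ ⟨u, -, -, rfl⟩
  exact div_nonneg (integral_nonneg fun _ => sq_nonneg _) (integral_nonneg fun _ => sq_nonneg _)

theorem transfer_ne {P : Set E} (hP : IsOpen P) (hne : P.Nonempty) : (TransferQ P).Nonempty := by
  obtain ⟨x, hx⟩ := hne
  obtain ⟨f, h1, h2, h3, -, h4⟩ := exists_contDiff_tsupport_subset (n := 1) (hP.mem_nhds hx)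
  refine ⟨_, f, ⟨h3, h2, h1⟩, fun k => ?_, rfl⟩
  rw [k] at h4
  simp at h4

end sim

theorem transfer_core {n : ℕ} {r lam : ℝ}
    (h1 : ∀ η : ℝ, 0 < η → ∃ u : ℂ → ℝ, Test (Ins (Gam (reg n r))) u ∧ u ≠ 0 ∧
      EE u ≤ (lam + η) * NN u) {v : Fin n → ℂ}
    (hv : volume (Ins (Gam v)) = volume (Ins (Gam (reg n r))))
    (h2 : (∃ (O : ℂ) (ϑ₀ : ℝ), Gam v = (fun z => O + ei ϑ₀ * z) '' Gam (reg n r)) ∨
      ∃ μ : ℝ, 0 < μ ∧ ∀ u : ℂ → ℝ, Test (Ins (Gam v)) u → (lam + μ) * NN u ≤ EE u) :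
    sInf (TransferQ (Ins (Gam (reg n r)))) ≤ sInf (TransferQ (Ins (Gam v))) ∧
      (sInf (TransferQ (Ins (Gam v))) = sInf (TransferQ (Ins (Gam (reg n r)))) →
        ∃ Ψ : ℂ ≃ₜ ℂ, TransferSim Ψ 1 ∧ Ins (Gam v) = Ψ '' Ins (Gam (reg n r))) := by
  rcases h2 with ⟨O, ϑ, h2⟩ | ⟨μ, hμ, h2⟩
  · obtain ⟨Ψ, h3, h4⟩ := transfer_exists O one_pos (rotation (Circle.exp ϑ))
    have h5 : Ins (Gam v) = Ψ '' Ins (Gam (reg n r)) := by
      rw [← h3.ins, h2]
      congr 1
      refine image_congr fun z _ => ?_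
      rw [h4, one_smul, rotation_apply, Circle.coe_exp, ei]
    refine ⟨?_, fun _ => ⟨Ψ, h3, h5⟩⟩
    rw [h3.inf Complex.finrank_real_complex, h5]
    simp
  · have h3 : sInf (TransferQ (Ins (Gam (reg n r)))) ≤ lam := by
      refine le_of_forall_pos_le_add fun η hη => ?_
      obtain ⟨u, k1, k2, k3⟩ := h1 η hη
      exact (csInf_le (transfer_bdd _) ⟨u, k1, k2, rfl⟩).trans
        ((div_le_iff₀ (transfer_nn_pos k1 k2)).2 k3)
    have h4 : (Ins (Gam v)).Nonempty := by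
      obtain ⟨u, k1, k2, -⟩ := h1 1 one_pos
      obtain ⟨x, hx⟩ := Function.ne_iff.1 k2
      refine nonempty_of_measure_ne_zero (μ := volume) ?_
      rw [hv]
      exact ((isOpen_Ins (isClosed_Gam _)).measure_pos volume
        ⟨x, k1.2.2 (subset_closure hx)⟩).ne'
    have h5 : lam + μ ≤ sInf (TransferQ (Ins (Gam v))) := by
      refine le_csInf (transfer_ne (isOpen_Ins (isClosed_Gam _)) h4) ?_
      rintro _ ⟨u, k1, k2, rfl⟩
      exact (le_div_iff₀ (transfer_nn_pos k1 k2)).2 (h2 u k1)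
    exact ⟨by linarith, fun k => by linarith⟩

theorem transfer (n : ℕ) (h : CoreC n) :
    ∀ r : ℝ, 0 < r → ∀ v : Fin n → EuclideanSpace ℝ (Fin 2),
    (∀ i : Fin n, ¬ Collinear ℝ ({v i, v (finRotate n i), v (finRotate n (finRotate n i))} :
        Set (EuclideanSpace ℝ (Fin 2)))) →
    (∀ i j : Fin n, j ≠ i → j ≠ finRotate n i → i ≠ finRotate n j →
      Disjoint (segment ℝ (v i) (v (finRotate n i))) (segment ℝ (v j) (v (finRotate n j)))) →
    ∀ w : Fin n → EuclideanSpace ℝ (Fin 2),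
    (∀ k : Fin n, w k = !₂[r * Real.cos (2 * Real.pi * ((k : ℕ) : ℝ) / (n : ℝ)),
                          r * Real.sin (2 * Real.pi * ((k : ℕ) : ℝ) / (n : ℝ))]) →
    ∀ P R : Set (EuclideanSpace ℝ (Fin 2)),
    P = {x | x ∉ (⋃ i : Fin n, segment ℝ (v i) (v (finRotate n i))) ∧
          Bornology.IsBounded
            (connectedComponentIn (⋃ i : Fin n, segment ℝ (v i) (v (finRotate n i)))ᶜ x)} →
    R = {x | x ∉ (⋃ i : Fin n, segment ℝ (w i) (w (finRotate n i))) ∧
          Bornology.IsBounded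
            (connectedComponentIn (⋃ i : Fin n, segment ℝ (w i) (w (finRotate n i)))ᶜ x)} →
    MeasureTheory.volume P = MeasureTheory.volume R →
    ∀ lP lR : ℝ,
    lP = sInf {q : ℝ | ∃ u : EuclideanSpace ℝ (Fin 2) → ℝ, ContDiff ℝ 1 u ∧
          HasCompactSupport u ∧ tsupport u ⊆ P ∧ u ≠ 0 ∧
          q = (∫ x, ‖fderiv ℝ u x‖ ^ 2) / (∫ x, u x ^ 2)} →
    lR = sInf {q : ℝ | ∃ u : EuclideanSpace ℝ (Fin 2) → ℝ, ContDiff ℝ 1 u ∧
          HasCompactSupport u ∧ tsupport u ⊆ R ∧ u ≠ 0 ∧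
          q = (∫ x, ‖fderiv ℝ u x‖ ^ 2) / (∫ x, u x ^ 2)} →
    lR ≤ lP ∧
      (lP = lR → ∃ e : EuclideanSpace ℝ (Fin 2) ≃ᵢ EuclideanSpace ℝ (Fin 2), e '' P = R) := by
  obtain ⟨r₀, lam, hr₀, h1, h2⟩ := h
  intro r hr v hv1 hv2 w hw P R hP hR hvol lP lR hlP hlR
  have hs : 0 < r₀ / r := div_pos hr₀ hr
  obtain ⟨Φ, h3, h4⟩ := transfer_exists (0 : ℂ) hs Complex.orthonormalBasisOneI.repr.symm
  have hF := Complex.finrank_real_complex
  have hP' : P = Ins (Gam v) := hP
  have hR' : R = Ins (Gam w) := hR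
  have h5 : Φ ∘ w = reg n r₀ := by
    funext k
    rw [Function.comp_apply, h4, hw k, Complex.orthonormalBasisOneI_repr_symm_apply, reg]
    apply Complex.ext <;> simp [-Complex.ofReal_cos, -Complex.ofReal_sin] <;> field_simp
  have h6 : Ins (Gam (Φ ∘ v)) = Φ '' P := by rw [h3.gam, h3.ins, hP']
  have h7 : Ins (Gam (reg n r₀)) = Φ '' R := by rw [← h5, h3.gam, h3.ins, hR']
  have h8 : volume (Ins (Gam (Φ ∘ v))) = volume (Ins (Gam (reg n r₀))) := by
    rw [h6, h7, h3.vol hF, h3.vol hF, hvol]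
  obtain ⟨h9, h10⟩ := transfer_core h1 h8 (h2 _ (h3.simple ⟨hv1, hv2⟩) h8)
  have hQ : ∀ A : Set (EuclideanSpace ℝ (Fin 2)),
      {q : ℝ | ∃ u : EuclideanSpace ℝ (Fin 2) → ℝ, ContDiff ℝ 1 u ∧
        HasCompactSupport u ∧ tsupport u ⊆ A ∧ u ≠ 0 ∧
        q = (∫ x, ‖fderiv ℝ u x‖ ^ 2) / (∫ x, u x ^ 2)} = TransferQ A := by
    intro A
    ext q
    simp only [TransferQ, Test, EE, NN, mem_ofPred_eq, and_assoc]
  rw [hQ, h3.inf hF] at hlP hlR
  rw [h6, h7] at h9 h10
  refine ⟨?_, fun k => ?_⟩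
  · rw [hlP, hlR]
    exact mul_le_mul_of_nonneg_left h9 (sq_nonneg _)
  · rw [hlP, hlR] at k
    obtain ⟨Ψ, h11, h12⟩ := h10 (mul_left_cancel₀ (pow_pos hs 2).ne' k)
    refine ⟨⟨(Φ.trans (Ψ.symm.trans Φ.symm)).toEquiv, Isometry.of_dist_eq fun x y => ?_⟩, ?_⟩
    · change dist (Φ.symm (Ψ.symm (Φ x))) (Φ.symm (Ψ.symm (Φ y))) = _
      rw [h3.symm.dist_eq, h11.symm.dist_eq, h3.dist_eq]
      field_simp
    · change (fun x => Φ.symm (Ψ.symm (Φ x))) '' P = R
      rw [← image_image (fun z => Φ.symm (Ψ.symm z)) Φ, h12, image_image, image_image]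
      simp

end Pool.Agent.Work.MP_267827_an
end
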