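import Pool.Agent.Work.MP_267827_an.Three

/-! Polar decomposition of the energy, hidden and outer parts. -/

set_option autoImplicit false

namespace Pool.Agent.Work.MP_267827_an

open MeasureTheory Set Filter Topology Metric Real

theorem split_exp (p : ℝ × ℝ) : Complex.exp (pt 1 1 p) = (exp p.1 : ℝ) * ei p.2 := by
  simp [pt, ei, Complex.exp_add]

theorem split_norm (p : ℝ × ℝ) : ‖Complex.exp (pt 1 1 p)‖ = exp p.1 := by
  rw [Complex.norm_exp, pt_re, one_mul]

theorem split_der (O w : ℂ) : HasDerivAt (fun w => O + Complex.exp w) (Complex.exp w) w :=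
  (Complex.hasDerivAt_exp w).const_add O

theorem split_chain {u : ℂ → ℝ} (hu : ContDiff ℝ 1 u) (O : ℂ) (p : ℝ × ℝ) :
    ds (UU u O) p = fderiv ℝ u (O + Complex.exp (pt 1 1 p)) (Complex.exp (pt 1 1 p)) ∧
    dt (UU u O) p =
      fderiv ℝ u (O + Complex.exp (pt 1 1 p)) (Complex.I * Complex.exp (pt 1 1 p)) := by
  have := chain (u := u) (F := fun w => O + Complex.exp w) (a := 1) (q := 1) (p := p)
    (split_der O _) (hu.differentiable one_ne_zero _)
  rw [one_mul, one_mul] at this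
  exact this

theorem UU_contDiff {u : ℂ → ℝ} (hu : ContDiff ℝ 1 u) (O : ℂ) : ContDiff ℝ 1 (UU u O) :=
  hu.comp (contDiff_const.add ((Complex.contDiff_exp (𝕜 := ℝ)).comp (contDiff_pt 1 1)))

/-- bounds for the function in logarithmic polar coordinates -/
theorem UU_bd {u : ℂ → ℝ} (hu : ContDiff ℝ 1 u) (hc : HasCompactSupport u) (O : ℂ) :
    ∃ C : ℝ, 0 ≤ C ∧ ∀ p : ℝ × ℝ, |UU u O p| ≤ C ∧ |ds (UU u O) p| ≤ C * exp p.1 ∧
      |dt (UU u O) p| ≤ C * exp p.1 := by
  obtain ⟨A, hA⟩ := hu.continuous.bounded_above_of_compact_support hc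
  obtain ⟨B, hB⟩ := (hu.continuous_fderiv one_ne_zero).bounded_above_of_compact_support
    (hc.fderiv ℝ)
  have hA0 : 0 ≤ A := (norm_nonneg _).trans (hA 0)
  have hB0 : 0 ≤ B := (norm_nonneg _).trans (hB 0)
  have key : ∀ z c : ℂ, |fderiv ℝ u z c| ≤ (A + B) * ‖c‖ := fun z c =>
    ((fderiv ℝ u z).le_opNorm c).trans
      (mul_le_mul_of_nonneg_right (by linarith [hB z]) (norm_nonneg _))
  refine ⟨A + B, by positivity, fun p => ⟨(hA _).trans (by linarith), ?_, ?_⟩⟩
  · rw [(split_chain hu O p).1, ← split_norm]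
    exact key _ _
  · rw [(split_chain hu O p).2, ← split_norm]
    simpa using key _ (Complex.I * Complex.exp (pt 1 1 p))

theorem split_zero {u : ℂ → ℝ} (hu : ContDiff ℝ 1 u) (O : ℂ) {p : ℝ × ℝ}
    (h : O + Complex.exp (pt 1 1 p) ∉ tsupport u) :
    UU u O p = 0 ∧ ds (UU u O) p = 0 ∧ dt (UU u O) p = 0 := by
  refine ⟨image_eq_zero_of_notMem_tsupport (f := u) h, ?_, ?_⟩
  · rw [(split_chain hu O p).1, fderiv_of_notMem_tsupport ℝ h]
    rfl
  · rw [(split_chain hu O p).2, fderiv_of_notMem_tsupport ℝ h]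
    rfl

theorem split_far {u : ℂ → ℝ} (hu : ContDiff ℝ 1 u) (hc : HasCompactSupport u) (O : ℂ) :
    ∃ R : ℝ, ∀ p : ℝ × ℝ, R ≤ p.1 →
      UU u O p = 0 ∧ ds (UU u O) p = 0 ∧ dt (UU u O) p = 0 := by
  obtain ⟨R, hR⟩ := hc.isCompact.isBounded.subset_closedBall O
  refine ⟨R, fun p hp => split_zero hu O fun c => ?_⟩
  have := hR c
  rw [mem_closedBall, dist_self_add_left, split_norm] at this
  linarith [add_one_le_exp p.1]

theorem split_ds_cont {U : ℝ × ℝ → ℝ} (hU : ContDiff ℝ 1 U) : Continuous (ds U) :=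
  (hU.continuous_fderiv one_ne_zero).clm_apply continuous_const

theorem split_dt_cont {U : ℝ × ℝ → ℝ} (hU : ContDiff ℝ 1 U) : Continuous (dt U) :=
  (hU.continuous_fderiv one_ne_zero).clm_apply continuous_const

theorem split_der_s {U : ℝ × ℝ → ℝ} (hU : ContDiff ℝ 1 U) (s x : ℝ) :
    HasDerivAt (fun s => U (s, x)) (ds U (s, x)) s :=
  (hU.differentiable one_ne_zero (s, x)).hasFDerivAt.comp_hasDerivAt s
    ((hasDerivAt_id s).prodMk (hasDerivAt_const s x))

theorem split_der_t {U : ℝ × ℝ → ℝ} (hU : ContDiff ℝ 1 U) (s x : ℝ) :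
    HasDerivAt (fun x => U (s, x)) (dt U (s, x)) x :=
  (hU.differentiable one_ne_zero (s, x)).hasFDerivAt.comp_hasDerivAt x
    ((hasDerivAt_const x s).prodMk (hasDerivAt_id x))

theorem split_den_cont {u : ℂ → ℝ} (hu : ContDiff ℝ 1 u) (O : ℂ) (lam : ℝ) :
    Continuous (den u O lam) := by
  have h0 := (UU_contDiff hu O).continuous
  have h1 := split_ds_cont (UU_contDiff hu O)
  have h2 := split_dt_cont (UU_contDiff hu O)
  unfold den
  fun_prop

theorem den_int {u : ℂ → ℝ} (hu : ContDiff ℝ 1 u) (hc : HasCompactSupport u) (O : ℂ)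
    (lam a a' : ℝ) : IntegrableOn (den u O lam) (univ ×ˢ Ioo a a') := by
  obtain ⟨C, C0, hC⟩ := UU_bd hu hc O
  obtain ⟨R, hR⟩ := split_far hu hc O
  have h1 : IntegrableOn (fun p : ℝ × ℝ => (2 + |lam|) * C ^ 2 * exp (2 * p.1))
      (Iic R ×ˢ Ioo a a') := by
    rw [IntegrableOn, Measure.volume_eq_prod, ← Measure.prod_restrict]
    exact ((integrableOn_exp_mul_Iic two_pos R).const_mul _).comp_fst _
  have h2 : IntegrableOn (den u O lam) (Iic R ×ˢ Ioo a a') := by
    refine h1.mono' (split_den_cont hu O lam).aestronglyMeasurable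
      (Eventually.of_forall fun p => ?_)
    obtain ⟨a1, a2, a3⟩ := hC p
    have b1 := pow_le_pow_left₀ (abs_nonneg _) a1 2
    have b2 := pow_le_pow_left₀ (abs_nonneg _) a2 2
    have b3 := pow_le_pow_left₀ (abs_nonneg _) a3 2
    rw [mul_pow, exp_sq] at b2 b3
    rw [sq_abs] at b1 b2 b3
    have e := exp_pos (2 * p.1)
    have b4 : |lam * (exp (2 * p.1) * UU u O p ^ 2)| ≤ |lam| * (exp (2 * p.1) * C ^ 2) := by
      rw [abs_mul, abs_of_nonneg (a := exp (2 * p.1) * _) (by positivity)]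
      gcongr
    rw [den, Real.norm_eq_abs, abs_le]
    obtain ⟨b5, b6⟩ := abs_le.1 b4
    constructor <;> nlinarith [sq_nonneg (ds (UU u O) p), sq_nonneg (dt (UU u O) p), sq_nonneg C]
  refine h2.of_forall_sdiff_eq_zero (MeasurableSet.univ.prod measurableSet_Ioo) fun p hp => ?_
  have : R ≤ p.1 := by
    by_contra c
    exact hp.2 ⟨(not_le.1 c).le, hp.1.2⟩
  obtain ⟨a1, a2, a3⟩ := hR p this
  simp [den, a1, a2, a3]

theorem split_null (O : ℂ) (a : ℝ) : volume {z : ℂ | ((z - O) * ei (-a)).im = 0} = 0 := by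
  have h := Measure.addHaar_submodule (volume : Measure ℂ)
    (LinearMap.ker (Complex.imLm ∘ₗ LinearMap.mulRight ℝ (ei (-a)))) fun h => by
      have : Complex.I * ei a ∈ LinearMap.ker (Complex.imLm ∘ₗ LinearMap.mulRight ℝ (ei (-a))) := by
        rw [h]
        trivial
      rw [LinearMap.mem_ker, LinearMap.comp_apply, LinearMap.mulRight_apply, mul_assoc,
        ei_mul_neg] at this
      simp at this
  rw [← measure_preimage_add_right volume (-O)] at h
  rw [← h]
  congr 1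

/-- integration in logarithmic polar coordinates -/
theorem split_polar {g : ℂ → ℝ} (hg : Integrable g) (O : ℂ) (a : ℝ) :
    IntegrableOn (fun p : ℝ × ℝ => exp (2 * p.1) * g (O + Complex.exp (pt 1 1 p)))
      (univ ×ˢ Ioo a (a + 2 * π)) ∧
    ∫ z, g z = ∫ p in univ ×ˢ Ioo a (a + 2 * π),
      exp (2 * p.1) * g (O + Complex.exp (pt 1 1 p)) := by
  obtain ⟨-, c1, c2⟩ := cov (D := univ ×ˢ Ioo a (a + 2 * π))
    (MeasurableSet.univ.prod measurableSet_Ioo) (F := fun w => O + Complex.exp w)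
    (F' := Complex.exp) one_pos one_pos (fun p _ => split_der O _) (fun p hp q hq e => by
      obtain ⟨k, hk⟩ := Complex.exp_eq_exp_iff_exists_int.1 (add_left_cancel e)
      have e1 := congrArg Complex.re hk
      have e2 := congrArg Complex.im hk
      simp at e1 e2
      have b1 : (k : ℝ) < 1 := by nlinarith [hp.2.2, hq.2.1, pi_pos]
      have b2 : (-1 : ℝ) < k := by nlinarith [hp.2.1, hq.2.2, pi_pos]
      have c1 : k < 1 := by exact_mod_cast b1
      have c2 : -1 < k := by exact_mod_cast b2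
      have : k = 0 := by omega
      subst this
      exact Prod.ext e1 (by simpa using e2)) g
  simp only [one_mul, split_norm, exp_sq, smul_eq_mul] at c1 c2
  refine ⟨c1.1 hg.integrableOn, ?_⟩
  rw [← c2]
  refine (setIntegral_eq_integral_of_ae_compl_eq_zero ?_).symm
  filter_upwards [measure_eq_zero_iff_ae_notMem.1 (split_null O a)] with z hz hz'
  exfalso
  set w := -((z - O) * ei (-a)) with hw
  have w0 : w.im ≠ 0 := fun c => hz (by rwa [hw, Complex.neg_im, neg_eq_zero] at c)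
  have w1 : 0 < ‖w‖ := norm_pos_iff.2 fun c => w0 (by simp [c])
  have w2 : w.arg < π := Complex.arg_lt_pi_iff.2 (Or.inr w0)
  refine hz' ⟨(log ‖w‖, w.arg + a + π), ⟨trivial, by linarith [Complex.neg_pi_lt_arg w],
    by linarith⟩, ?_⟩
  have e1 : ei π = -1 := Complex.exp_pi_mul_I
  have e2 : (‖w‖ : ℂ) * ei w.arg = w := Complex.norm_mul_exp_arg_mul_I w
  simp only [split_exp, exp_log w1, ei_add, ← mul_assoc, e1, e2]
  rw [hw, neg_mul, mul_assoc, mul_comm (ei (-a)), ei_mul_neg]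
  ring

theorem split_EE {u : ℂ → ℝ} (hu : ContDiff ℝ 1 u) (hc : HasCompactSupport u) (O : ℂ)
    (lam a : ℝ) : EE u - lam * NN u = ∫ p in univ ×ˢ Ioo a (a + 2 * π), den u O lam p := by
  have hd := hu.continuous_fderiv one_ne_zero
  have i1 : Integrable fun z => ‖fderiv ℝ u z‖ ^ 2 := by
    have c1 : Continuous fun z => ‖fderiv ℝ u z‖ ^ 2 := hd.norm.pow 2
    refine c1.integrable_of_hasCompactSupport (hc.mono' fun z hz => ?_)
    by_contra c
    exact hz (by simp [fderiv_of_notMem_tsupport ℝ c])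
  have i2 : Integrable fun z => u z ^ 2 := by
    have c1 : Continuous fun z => u z ^ 2 := hu.continuous.pow 2
    refine c1.integrable_of_hasCompactSupport (hc.mono fun z hz c => hz (by simp [c]))
  have i3 := (split_polar (isub i1 (i2.const_mul lam)) O a).2
  rw [integral_sub i1 (i2.const_mul lam), integral_const_mul] at i3
  refine i3.trans (integral_congr_ae (Eventually.of_forall fun p => ?_))
  simp only
  rw [den, (split_chain hu O p).1, (split_chain hu O p).2, norm_sq_dual, split_norm, exp_sq, UU]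
  ring

theorem split_fub {F : ℝ × ℝ → ℝ} {S T : Set ℝ} (h : IntegrableOn F (S ×ˢ T)) :
    (IntegrableOn (fun x => ∫ s in S, F (s, x)) T ∧
      ∫ p in S ×ˢ T, F p = ∫ x in T, ∫ s in S, F (s, x)) ∧
    IntegrableOn (fun s => ∫ x in T, F (s, x)) S ∧
      ∫ p in S ×ˢ T, F p = ∫ s in S, ∫ x in T, F (s, x) := by
  rw [IntegrableOn, Measure.volume_eq_prod, ← Measure.prod_restrict] at h
  rw [Measure.volume_eq_prod, ← Measure.prod_restrict]
  exact ⟨⟨h.integral_prod_right, integral_prod_symm _ h⟩, h.integral_prod_left, integral_prod _ h⟩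

theorem split_sum {G : ℝ → ℝ} {ϑ : ℕ → ℝ} {m : ℕ} (mono : ∀ k, k < m → ϑ k < ϑ (k + 1))
    (hi : ∀ k, k < m → IntegrableOn G (Ioo (ϑ k) (ϑ (k + 1)))) (h : ϑ 0 ≤ ϑ m) :
    ∑ k ∈ Finset.range m, ∫ x in Ioo (ϑ k) (ϑ (k + 1)), G x = ∫ x in Ioo (ϑ 0) (ϑ m), G x := by
  have := intervalIntegral.sum_integral_adjacent_intervals (f := G) (μ := volume) (a := ϑ) (n := m)
    fun k hk => (intervalIntegrable_iff_integrableOn_Ioo_of_le (mono k hk).le).2 (hi k hk)
  rw [intervalIntegral.integral_of_le h, integral_Ioc_eq_integral_Ioo] at this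
  rw [← this]
  refine Finset.sum_congr rfl fun k hk => ?_
  rw [intervalIntegral.integral_of_le (mono k (Finset.mem_range.1 hk)).le,
    integral_Ioc_eq_integral_Ioo]

/-- the Poincare inequality on a short interval -/
theorem split_short {f f' c : ℝ → ℝ} (hd : ∀ s, HasDerivAt f (f' s) s) (hc : Continuous f')
    (hcc : Continuous c) {a b : ℝ} (hab : a ≤ b) (hl : b - a ≤ 1 / 8) (h0 : f a = 0)
    (hF : ∀ s ∈ Icc a b, f' s ^ 2 - 16 * f s ^ 2 ≤ c s) : 0 ≤ ∫ s in Icc a b, c s := by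
  have hf : Continuous f := continuous_iff_continuousAt.2 fun s => (hd s).continuousAt
  have h1 := intervalIntegral.integral_eq_sub_of_hasDerivAt (a := a) (b := b)
    (f := fun s => 32 * (b - s) * f s ^ 2)
    (f' := fun s => -32 * f s ^ 2 + 32 * (b - s) * (2 * f s * f' s)) (fun s _ =>
      ((((hasDerivAt_id s).const_sub b).const_mul 32).mul ((hd s).pow 2)).congr_deriv (by
        simp)) (Continuous.intervalIntegrable (by fun_prop) _ _)
  have h2 := intervalIntegral.integral_mono_on (μ := volume) hab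
    (f := fun s => -32 * f s ^ 2 + 32 * (b - s) * (2 * f s * f' s)) (g := c)
    (Continuous.intervalIntegrable (by fun_prop) _ _) (hcc.intervalIntegrable _ _) fun s hs => by
      have h3 : (32 * (b - s)) ^ 2 ≤ 4 ^ 2 :=
        pow_le_pow_left₀ (by linarith [hs.2]) (by linarith [hs.1]) 2
      nlinarith [hF s hs, sq_nonneg (f' s - 32 * (b - s) * f s), sq_nonneg (f s),
        mul_le_mul_of_nonneg_right h3 (sq_nonneg (f s))]
  rw [h1, intervalIntegral.integral_of_le hab, ← integral_Icc_eq_integral_Ioc] at h2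
  simpa [h0] using h2

theorem split_int1 {F : ℝ → ℝ} (hF : Continuous F) {R : ℝ} (h0 : ∀ s, R ≤ s → F s = 0) (a : ℝ) :
    IntegrableOn F (Ioi a) :=
  (hF.integrableOn_Icc (a := a) (b := R)).of_forall_sdiff_eq_zero measurableSet_Ioi
    fun s hs => h0 s (by
      by_contra c
      exact hs.2 ⟨le_of_lt hs.1, (not_le.1 c).le⟩)

theorem split_int2 {F : ℝ × ℝ → ℝ} (hF : Continuous F) {R : ℝ}
    (h0 : ∀ p : ℝ × ℝ, R ≤ p.1 → F p = 0) (s a b : ℝ) : IntegrableOn F (Ioi s ×ˢ Ioo a b) :=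
  (hF.continuousOn.integrableOn_compact
    ((isCompact_Icc (a := s) (b := R)).prod (isCompact_Icc (a := a) (b := b)))
    ).of_forall_sdiff_eq_zero (measurableSet_Ioi.prod measurableSet_Ioo) fun p hp => h0 p (by
      by_contra c
      exact hp.2 ⟨⟨le_of_lt hp.1.1, (not_le.1 c).le⟩, Ioo_subset_Icc_self hp.1.2⟩)

theorem split_ftc {f f' : ℝ → ℝ} (hd : ∀ s, HasDerivAt f (f' s) s) (hc : Continuous f') {R : ℝ}
    (h0 : ∀ s, R ≤ s → f s = 0 ∧ f' s = 0) (a : ℝ) : ∫ s in Ioi a, f' s = -f a := by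
  have := integral_Ioi_of_hasDerivAt_of_tendsto' (f := f) (f' := f') (a := a) (m := 0)
    (fun s _ => hd s) (split_int1 hc (fun s hs => (h0 s hs).2) a)
    (tendsto_const_nhds.congr' ((eventually_ge_atTop R).mono fun s hs => (h0 s hs).1.symm))
  rwa [zero_sub] at this

theorem split_cs {w χ : ℝ × ℝ → ℝ} (hw : Continuous w) {R s₁ a b ε : ℝ}
    (hR : ∀ p : ℝ × ℝ, R ≤ p.1 → w p = 0)
    (hχ : ∀ p ∈ Ioi s₁ ×ˢ Ioo a b, exp p.1 * |w p| = χ p * |w p|)
    (iχ : IntegrableOn (fun p => χ p ^ 2) (Ioi s₁ ×ˢ Ioo a b))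
    (vχ : ∫ p in Ioi s₁ ×ˢ Ioo a b, χ p ^ 2 ≤ ε) :
    IntegrableOn (fun p => exp p.1 * |w p|) (Ioi s₁ ×ˢ Ioo a b) ∧
    IntegrableOn (fun p => w p ^ 2) (Ioi s₁ ×ˢ Ioo a b) ∧
    (∫ p in Ioi s₁ ×ˢ Ioo a b, exp p.1 * |w p|) ^ 2 ≤ ε * ∫ p in Ioi s₁ ×ˢ Ioo a b, w p ^ 2 := by
  have mD : MeasurableSet (Ioi s₁ ×ˢ Ioo a b) := measurableSet_Ioi.prod measurableSet_Ioo
  have i1 : IntegrableOn (fun p => exp p.1 * |w p|) (Ioi s₁ ×ˢ Ioo a b) :=
    split_int2 (by fun_prop) (R := R) (fun p hp => by simp [hR p hp]) _ _ _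
  have i2 : IntegrableOn (fun p => w p ^ 2) (Ioi s₁ ×ˢ Ioo a b) :=
    split_int2 (by fun_prop) (R := R) (fun p hp => by simp [hR p hp]) _ _ _
  refine ⟨i1, i2, ?_⟩
  have := cs (f := χ) (g := fun p => |w p|) iχ (by simp only [sq_abs]; exact i2)
    (i1.congr_fun hχ mD)
  simp only [sq_abs] at this
  rw [setIntegral_congr_fun mD hχ]
  exact this.trans (mul_le_mul_of_nonneg_right vχ (integral_nonneg fun p => sq_nonneg _))

/-- the part of the function outside the larger disc is small -/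
theorem split_outer {U χ : ℝ × ℝ → ℝ} (hU : ContDiff ℝ 1 U) {R s₁ a b ε : ℝ} (hs : 0 < s₁)
    (hε : 0 ≤ ε) (hR : ∀ p : ℝ × ℝ, R ≤ p.1 → U p = 0 ∧ ds U p = 0 ∧ dt U p = 0)
    (hz : ∀ s, s₁ < s → ∃ x ∈ Icc a b, U (s, x) = 0)
    (hχ : ∀ p ∈ Ioi s₁ ×ˢ Ioo a b,
      exp p.1 * |ds U p| = χ p * |ds U p| ∧ exp p.1 * |dt U p| = χ p * |dt U p|)
    (iχ : IntegrableOn (fun p => χ p ^ 2) (Ioi s₁ ×ˢ Ioo a b))
    (vχ : ∫ p in Ioi s₁ ×ˢ Ioo a b, χ p ^ 2 ≤ ε) {lam M : ℝ} (hlam' : lam ≤ 8) (hM : 0 ≤ M)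
    (hsmall : 8 * ε + 2 * M * √ε ≤ 1) :
    M * ∫ x in Ioo a b, U (s₁, x) ^ 2 ≤ ∫ p in Ioi s₁ ×ˢ Ioo a b,
      (ds U p ^ 2 + dt U p ^ 2 - lam * (exp (2 * p.1) * U p ^ 2)) := by
  have mD : MeasurableSet (Ioi s₁ ×ˢ Ioo a b) := measurableSet_Ioi.prod measurableSet_Ioo
  have c0 := hU.continuous
  have c1 := split_ds_cont hU
  have c2 := split_dt_cont hU
  obtain ⟨i1, j1, k1⟩ := split_cs c1 (fun p hp => (hR p hp).2.1) (fun p hp => (hχ p hp).1) iχ vχ
  obtain ⟨i2, j2, k2⟩ := split_cs c2 (fun p hp => (hR p hp).2.2) (fun p hp => (hχ p hp).2) iχ vχ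
  obtain ⟨⟨f1, f2⟩, -⟩ := split_fub i1
  obtain ⟨-, g1, g2⟩ := split_fub i2
  have iN : IntegrableOn (fun p => exp (2 * p.1) * U p ^ 2) (Ioi s₁ ×ˢ Ioo a b) :=
    split_int2 (by fun_prop) (R := R) (fun p hp => by simp [(hR p hp).1]) _ _ _
  have iU : IntegrableOn (fun p => U p ^ 2) (Ioi s₁ ×ˢ Ioo a b) :=
    split_int2 (by fun_prop) (R := R) (fun p hp => by simp [(hR p hp).1]) _ _ _
  have iV : IntegrableOn (fun p => U p * ds U p) (Ioi s₁ ×ˢ Ioo a b) :=
    split_int2 (by fun_prop) (R := R) (fun p hp => by simp [(hR p hp).1]) _ _ _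
  have hf : ∀ s x, s₁ < s → exp s * |U (s, x)| ≤ ∫ σ in Ioi s₁, exp σ * |ds U (σ, x)| := by
    intro s x h
    have e := split_ftc (fun σ => split_der_s hU σ x) (by fun_prop) (R := R)
      (fun σ hσ => ⟨(hR (σ, x) hσ).1, (hR (σ, x) hσ).2.1⟩) s
    have i : ∀ t, IntegrableOn (fun σ => exp σ * |ds U (σ, x)|) (Ioi t) :=
      split_int1 (by fun_prop) (R := R) fun σ hσ => by simp [(hR (σ, x) hσ).2.1]
    calc exp s * |U (s, x)| = ‖∫ σ in Ioi s, exp s * ds U (σ, x)‖ := by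
          rw [integral_const_mul, e, Real.norm_eq_abs, abs_mul, abs_neg, abs_of_pos (exp_pos s)]
      _ ≤ ∫ σ in Ioi s, exp σ * |ds U (σ, x)| := by
          refine norm_integral_le_of_norm_le (i s) ((ae_restrict_iff' measurableSet_Ioi).2
            (Eventually.of_forall fun σ hσ => ?_))
          rw [Real.norm_eq_abs, abs_mul, abs_of_pos (exp_pos s)]
          exact mul_le_mul_of_nonneg_right (exp_le_exp.2 (le_of_lt hσ)) (abs_nonneg _)
      _ ≤ _ := setIntegral_mono_set (i s₁) (Eventually.of_forall fun σ => by positivity)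
          (Ioi_subset_Ioi h.le).eventuallyLE
  have hg : ∀ s x, s₁ < s → x ∈ Ioo a b →
      exp s * |U (s, x)| ≤ ∫ y in Ioo a b, exp s * |dt U (s, y)| := by
    intro s x h hx
    obtain ⟨y, hy, h0⟩ := hz s h
    have e := intervalIntegral.integral_eq_sub_of_hasDerivAt (a := y) (b := x)
      (fun t _ => split_der_t hU s t) (Continuous.intervalIntegrable (by fun_prop) _ _)
    rw [h0, sub_zero] at e
    rw [integral_const_mul, ← e, ← integral_Icc_eq_integral_Ioo]
    have i : IntegrableOn (fun t => |dt U (s, t)|) (Icc a b) :=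
      Continuous.integrableOn_Icc (by fun_prop)
    exact mul_le_mul_of_nonneg_left ((intervalIntegral.norm_integral_le_integral_norm_uIoc
      (f := fun t => dt U (s, t))).trans (setIntegral_mono_set i (Eventually.of_forall fun σ => abs_nonneg _)
        (uIoc_subset_uIcc.trans (uIcc_subset_Icc hy (Ioo_subset_Icc_self hx))).eventuallyLE))
      (exp_pos s).le
  have hN : ∫ p in Ioi s₁ ×ˢ Ioo a b, exp (2 * p.1) * U p ^ 2 ≤
      (∫ p in Ioi s₁ ×ˢ Ioo a b, exp p.1 * |dt U p|) *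
        ∫ p in Ioi s₁ ×ˢ Ioo a b, exp p.1 * |ds U p| := by
    rw [f2, g2, ← setIntegral_prod_mul, ← Measure.volume_eq_prod]
    refine setIntegral_mono_on iN ?_ mD fun p hp => ?_
    · rw [IntegrableOn, Measure.volume_eq_prod, ← Measure.prod_restrict]
      exact g1.mul_prod f1
    · have := mul_le_mul (hg p.1 p.2 hp.1 hp.2) (hf p.1 p.2 hp.1) (by positivity)
        (integral_nonneg fun y => by positivity)
      refine le_trans (le_of_eq ?_) this
      rw [← exp_sq, ← sq_abs (U p)]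
      ring
  have hU2 : ∫ p in Ioi s₁ ×ˢ Ioo a b, U p ^ 2 ≤
      ∫ p in Ioi s₁ ×ˢ Ioo a b, exp (2 * p.1) * U p ^ 2 :=
    setIntegral_mono_on iU iN mD fun p hp => le_mul_of_one_le_left (sq_nonneg _)
      (one_le_exp (by linarith [mem_Ioi.1 hp.1]))
  have hB : ∫ x in Ioo a b, U (s₁, x) ^ 2 = -2 * ∫ p in Ioi s₁ ×ˢ Ioo a b, U p * ds U p := by
    rw [(split_fub iV).1.2, ← integral_const_mul]
    refine integral_congr_ae (Eventually.of_forall fun x => ?_)
    have e := split_ftc (f := fun σ => U (σ, x) ^ 2) (f' := fun σ => 2 * (U (σ, x) * ds U (σ, x)))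
      (fun σ => ((split_der_s hU σ x).pow 2).congr_deriv (by simp [mul_assoc])) (by fun_prop)
      (R := R) (fun σ hσ => by simp [(hR (σ, x) hσ).1]) s₁
    rw [integral_const_mul] at e
    simp only
    linarith
  have hC := cs iU j1 iV
  rw [integral_sub (iadd j1 j2) (iN.const_mul lam), integral_add j1 j2, integral_const_mul, hB]
  set A := ∫ p in Ioi s₁ ×ˢ Ioo a b, ds U p ^ 2
  set B := ∫ p in Ioi s₁ ×ˢ Ioo a b, dt U p ^ 2
  set N := ∫ p in Ioi s₁ ×ˢ Ioo a b, exp (2 * p.1) * U p ^ 2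
  set X := ∫ p in Ioi s₁ ×ˢ Ioo a b, U p * ds U p
  have A0 : 0 ≤ A := integral_nonneg fun p => sq_nonneg _
  have B0 : 0 ≤ B := integral_nonneg fun p => sq_nonneg _
  have N0 : 0 ≤ N := integral_nonneg fun p => by positivity
  have h1 : N ≤ ε * (A + B) := by
    nlinarith [sq_nonneg ((∫ p in Ioi s₁ ×ˢ Ioo a b, exp p.1 * |dt U p|) -
      ∫ p in Ioi s₁ ×ˢ Ioo a b, exp p.1 * |ds U p|), mul_nonneg hε A0, mul_nonneg hε B0]
  have h2 : |X| ≤ √ε * (A + B) := by
    refine abs_le_of_sq_le_sq' ?_ (by positivity) |> abs_le.2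
    rw [mul_pow, sq_sqrt hε]
    calc X ^ 2 ≤ N * A := hC.trans (mul_le_mul_of_nonneg_right hU2 A0)
      _ ≤ ε * (A + B) * (A + B) := mul_le_mul h1 (by linarith) A0 (by positivity)
      _ = _ := by ring
  have h3 := mul_le_mul_of_nonneg_left (abs_le.1 h2).1 hM
  have h4 := mul_le_mul_of_nonneg_right hsmall (add_nonneg A0 B0)
  have h5 := mul_le_mul_of_nonneg_right hlam' N0
  nlinarith

/-- the hidden part of an arc inside the larger disc has nonnegative energy -/
theorem split_mid {u : ℂ → ℝ} (hu : ContDiff ℝ 1 u) (hc : HasCompactSupport u) (O : ℂ)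
    {s₁ lam a a' γ h : ℝ} (hs1 : s₁ ≤ 1 / 16) (hlam' : lam ≤ 8)
    (hin : ∀ x ∈ Ioo a a', -s₁ ≤ log (h / cos (x - γ)))
    (hz : ∀ x ∈ Ioo a a', UU u O (log (h / cos (x - γ)), x) = 0) :
    ∫ p in In s₁ a a' γ h, den u O lam p ≤ ∫ p in Iic s₁ ×ˢ Ioo a a', den u O lam p := by
  have hU := UU_contDiff hu O
  have c0 := split_den_cont hu O lam
  have c1 := split_ds_cont hU
  have i0 := den_int hu hc O lam a a'
  have i1 : IntegrableOn (den u O lam) (Iic s₁ ×ˢ Ioo a a') :=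
    i0.mono_set (prod_mono (subset_univ _) subset_rfl)
  have mI := In_meas s₁ a a' γ h
  have sub : In s₁ a a' γ h ⊆ Iic s₁ ×ˢ Ioo a a' := fun p hp =>
    ⟨(hp.2.trans_le (min_le_right _ _)).le, hp.1⟩
  rw [← integral_inter_add_sdiff mI i1, inter_eq_self_of_subset_right sub, le_add_iff_nonneg_right,
    sdiff_eq, ← setIntegral_indicator mI.compl, (split_fub (i1.indicator mI.compl)).1.2]
  refine setIntegral_nonneg measurableSet_Ioo fun x hx => ?_
  have e : (fun s => (In s₁ a a' γ h)ᶜ.indicator (den u O lam) (s, x)) =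
      (Ici (s0 s₁ γ h x)).indicator fun s => den u O lam (s, x) := by
    funext s
    by_cases c : s0 s₁ γ h x ≤ s
    · rw [indicator_of_mem (mem_Ici.2 c), indicator_of_mem]
      exact fun d => not_lt.2 c d.2
    · rw [indicator_of_notMem (fun d => c (mem_Ici.1 d)), indicator_of_notMem]
      exact fun d => d ⟨hx, not_le.1 c⟩
  rw [e, setIntegral_indicator measurableSet_Ici, inter_comm, Ici_inter_Iic, s0]
  rcases le_total (log (h / cos (x - γ))) s₁ with c | c
  · rw [min_eq_left c]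
    refine split_short (fun s => split_der_s hU s x) (by fun_prop) (by fun_prop) c
      (by linarith [hin x hx]) (hz x hx) fun s hs => ?_
    have h1 : exp (2 * s) ≤ 2 := by
      have := exp_one_lt_d9
      have h2 : exp (2 * s) ^ 2 ≤ exp 1 := by
        rw [exp_sq]
        exact exp_le_exp.2 (by linarith [hs.2])
      nlinarith [exp_pos (2 * s)]
    have h2 : 0 ≤ exp (2 * s) * UU u O (s, x) ^ 2 := by positivity
    have h3 := mul_le_mul_of_nonneg_right hlam' h2
    have h4 := mul_le_mul_of_nonneg_right h1 (sq_nonneg (UU u O (s, x)))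
    simp only [den]
    nlinarith [sq_nonneg (dt (UU u O) (s, x))]
  · rw [min_eq_right c]
    simp

theorem energy_split {n : ℕ} {v : Fin n → ℂ} {O : ℂ} {m : ℕ} {ϑ γ h : ℕ → ℝ} {e : ℕ → Fin n}
    (hA : Arcs v O m ϑ γ h e) {u : ℂ → ℝ} (hu : Test (Ins (Gam v)) u) {s₁ ε₀ lam M : ℝ}
    (hs : 0 < s₁) (hs1 : s₁ ≤ 1 / 16) (hlam : 0 ≤ lam) (hlam' : lam ≤ 8) (hM : 0 ≤ M)
    (hin : ∀ k, k < m → ∀ x ∈ Ioo (ϑ k) (ϑ (k + 1)), -s₁ ≤ log (h k / cos (x - γ k)))
    (hvol : volume (Ins (Gam v)) < ENNReal.ofReal (π * exp (2 * s₁)))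
    (hout : volume (Ins (Gam v) \ ball O 1) ≤ ENNReal.ofReal ε₀) (hε : 0 ≤ ε₀)
    (hsmall : 8 * ε₀ + 2 * M * √ε₀ ≤ 1) :
    ∑ k ∈ Finset.range m, ((∫ p in In s₁ (ϑ k) (ϑ (k + 1)) (γ k) (h k), den u O lam p) +
      M * ∫ x in Ioo (ϑ k) (ϑ (k + 1)), UU u O (s₁, x) ^ 2) ≤ EE u - lam * NN u := by
  have hU := UU_contDiff hu.1 O
  have c0 := hU.continuous
  have h0m : ϑ 0 ≤ ϑ m := by linarith [hA.per, pi_pos]
  have i1 : ∀ (S : Set ℝ) (a a' : ℝ), IntegrableOn (den u O lam) (S ×ˢ Ioo a a') := fun S a a' =>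
    (den_int hu.1 hu.2.1 O lam a a').mono_set (prod_mono (subset_univ _) subset_rfl)
  have s1 : ∑ k ∈ Finset.range m, ∫ p in In s₁ (ϑ k) (ϑ (k + 1)) (γ k) (h k), den u O lam p ≤
      ∫ p in Iic s₁ ×ˢ Ioo (ϑ 0) (ϑ m), den u O lam p := by
    rw [(split_fub (i1 _ _ _)).1.2, ← split_sum hA.mono
      (fun k _ => (split_fub (i1 _ _ _)).1.1) h0m]
    refine Finset.sum_le_sum fun k hk => ?_
    have hk' := Finset.mem_range.1 hk
    rw [← (split_fub (i1 _ _ _)).1.2]
    refine split_mid hu.1 hu.2.1 O hs1 hlam' (hin k hk') fun x hx => hu.eq_zero fun c => c.1 ?_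
    rw [split_exp, exp_log (div_pos (hA.hpos k hk')
      (cos_pos_of_mem_Ioo (abs_lt.1 (hA.ang k hk' x hx))))]
    exact edge_subset_Gam v _ (hA.hit k hk' x hx)
  have s2 := split_sum (G := fun x => UU u O (s₁, x) ^ 2) hA.mono (fun k _ =>
    (Continuous.integrableOn_Icc (by fun_prop)).mono_set Ioo_subset_Icc_self) h0m
  have mP : MeasurableSet (Ins (Gam v) \ ball O 1) :=
    (isOpen_Ins (isClosed_Gam v)).measurableSet.diff measurableSet_ball
  have iP : Integrable ((Ins (Gam v) \ ball O 1).indicator fun _ => (1 : ℝ)) :=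
    (integrableOn_const (hout.trans_lt ENNReal.ofReal_lt_top).ne).integrable_indicator mP
  obtain ⟨p1, p2⟩ := split_polar iP O (ϑ 0)
  rw [← hA.per] at p1 p2
  rw [integral_indicator_const _ mP, smul_eq_mul, mul_one] at p2
  have p3 : ∀ p : ℝ × ℝ, (exp p.1 * (Ins (Gam v) \ ball O 1).indicator (fun _ => (1 : ℝ))
      (O + Complex.exp (pt 1 1 p))) ^ 2 = exp (2 * p.1) *
      (Ins (Gam v) \ ball O 1).indicator (fun _ => (1 : ℝ)) (O + Complex.exp (pt 1 1 p)) := by
    intro p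
    rw [mul_pow, exp_sq]
    by_cases c : O + Complex.exp (pt 1 1 p) ∈ Ins (Gam v) \ ball O 1
    · simp [c]
    · simp [c]
  have sub : Ioi s₁ ×ˢ Ioo (ϑ 0) (ϑ m) ⊆ univ ×ˢ Ioo (ϑ 0) (ϑ m) :=
    prod_mono (subset_univ _) subset_rfl
  obtain ⟨R, hR⟩ := split_far hu.1 hu.2.1 O
  have s3 := split_outer (χ := fun p => exp p.1 *
    (Ins (Gam v) \ ball O 1).indicator (fun _ => (1 : ℝ)) (O + Complex.exp (pt 1 1 p)))
    (a := ϑ 0) (b := ϑ m) hU hs hε hR (fun s hs' => by
      by_contra c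
      push Not at c
      have d : sphere O (exp s) ⊆ Ins (Gam v) := fun z hz => by
        by_contra d
        have z1 : ‖z - O‖ = exp s := by simpa [dist_eq_norm] using hz
        have hp : 0 < 2 * π := by positivity
        refine c (toIcoMod hp (ϑ 0) (z - O).arg) (by
          rw [hA.per]
          exact Ico_subset_Icc_self (toIcoMod_mem_Ico hp _ _)) (hu.eq_zero ?_)
        have z2 : (‖z - O‖ : ℂ) * ei (z - O).arg = z - O := Complex.norm_mul_exp_arg_mul_I _
        have z3 : Function.Periodic ei (2 * π) := fun x => by rw [ei_add, ei_two_pi, mul_one]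
        rw [split_exp]
        simp only
        rw [← self_sub_toIcoDiv_zsmul, z3.sub_zsmul_eq, ← z1, z2, add_sub_cancel]
        exact d
      have d1 := measure_mono (μ := volume)
        (closedBall_subset_Ins (isPreconnected_Gam v) (exp_pos s) d)
      refine absurd (d1.trans_lt hvol) (not_lt.2 ?_)
      rw [Complex.volume_closedBall, ← ENNReal.ofReal_pow (exp_pos s).le, exp_sq,
        ← ENNReal.ofReal_coe_nnreal, NNReal.coe_real_pi, ← ENNReal.ofReal_mul (exp_pos _).le,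
        mul_comm π]
      exact ENNReal.ofReal_le_ofReal
        (mul_le_mul_of_nonneg_right (exp_le_exp.2 (by linarith)) pi_pos.le))
    (fun p hp => by
      by_cases c : O + Complex.exp (pt 1 1 p) ∈ Ins (Gam v)
      · rw [indicator_of_mem, mul_one]
        · exact ⟨rfl, rfl⟩
        · refine ⟨c, fun d => ?_⟩
          rw [mem_ball, dist_self_add_left, split_norm] at d
          linarith [add_one_le_exp p.1, mem_Ioi.1 hp.1]
      · obtain ⟨-, a1, a2⟩ := split_zero hu.1 O fun d => c (hu.2.2 d)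
        simp [a1, a2])
    (by simp only [p3]; exact p1.mono_set sub) (by
      simp only [p3]
      refine (setIntegral_mono_set p1 (Eventually.of_forall fun p => ?_) sub.eventuallyLE).trans ?_
      · simp only [← p3]
        exact sq_nonneg _
      · rw [← p2]
        exact ENNReal.toReal_le_of_le_ofReal hε hout) hlam' hM hsmall
  have s4 := integral_inter_add_sdiff (μ := volume) (f := den u O lam)
    (s := univ ×ˢ Ioo (ϑ 0) (ϑ m)) (t := Iic s₁ ×ˢ Ioo (ϑ 0) (ϑ m))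
    (measurableSet_Iic.prod measurableSet_Ioo) (i1 _ _ _)
  rw [inter_eq_self_of_subset_right (prod_mono (subset_univ _) subset_rfl),
    show univ ×ˢ Ioo (ϑ 0) (ϑ m) \ Iic s₁ ×ˢ Ioo (ϑ 0) (ϑ m) = Ioi s₁ ×ˢ Ioo (ϑ 0) (ϑ m) by
      ext p
      simp only [Set.mem_sdiff, mem_prod, mem_univ, mem_Iic, mem_Ioi, true_and, not_and', not_le]
      tauto] at s4
  rw [split_EE hu.1 hu.2.1 O lam (ϑ 0), ← hA.per, Finset.sum_add_distrib, ← Finset.mul_sum, s2,
    ← s4]
  exact add_le_add s1 s3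

end Pool.Agent.Work.MP_267827_an
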