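import Pool.Agent.Work.MP_267827_an.Bad
import Pool.Agent.Work.MP_267827_an.Split

/-! The energy over an arc, ray by ray. -/

set_option autoImplicit false

namespace Pool.Agent.Work.MP_267827_an

open MeasureTheory Set Filter Topology Metric Real

theorem BadArc_exp (p : ℝ × ℝ) : Complex.exp (pt 1 1 p) = (exp p.1 : ℝ) * ei p.2 := by
  simp [pt, ei, Complex.exp_add]

theorem BadArc_ds {U : ℝ × ℝ → ℝ} (hU : ContDiff ℝ 1 U) (c s x : ℝ) :
    HasDerivAt (fun s => U (s + c, x)) (ds U (s + c, x)) s := by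
  have h1 : HasDerivAt (fun s : ℝ => ((s + c, x) : ℝ × ℝ)) (1, 0) s :=
    ((hasDerivAt_id s).add_const c).prodMk (hasDerivAt_const s x)
  exact (hU.differentiable one_ne_zero (s + c, x)).hasFDerivAt.comp_hasDerivAt s h1

theorem BadArc_dt {U : ℝ × ℝ → ℝ} (hU : ContDiff ℝ 1 U) (s x : ℝ) :
    HasDerivAt (fun x => U (s, x)) (dt U (s, x)) x := by
  have h1 : HasDerivAt (fun x : ℝ => ((s, x) : ℝ × ℝ)) (0, 1) x :=
    (hasDerivAt_const x s).prodMk (hasDerivAt_id x)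
  exact (hU.differentiable one_ne_zero (s, x)).hasFDerivAt.comp_hasDerivAt x h1

theorem BadArc_cs {U : ℝ × ℝ → ℝ} (hU : ContDiff ℝ 1 U) : Continuous (ds U) :=
  (hU.continuous_fderiv one_ne_zero).clm_apply continuous_const

theorem BadArc_ct {U : ℝ × ℝ → ℝ} (hU : ContDiff ℝ 1 U) : Continuous (dt U) :=
  (hU.continuous_fderiv one_ne_zero).clm_apply continuous_const

theorem Gp_der {u0 K : ℝ} {φ φ' φ'' : ℝ → ℝ} (h : Wt u0 K φ φ' φ'') (h0 : 0 < u0) {u : ℂ → ℝ}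
    (hu : ContDiff ℝ 1 u) (hc : HasCompactSupport u) (O : ℂ) :
    (∀ x, HasDerivAt (Gp φ u O) (Gp' φ u O x) x) ∧ Continuous (Gp' φ u O) := by
  obtain ⟨C, C0, hC⟩ := UU_bd hu hc O
  have hU := UU_contDiff hu O
  have cU := hU.continuous
  have cT := BadArc_ct hU
  have cφ := h.cont
  have ib : Integrable (fun s => C * |φ s|) m0 := (h.int h0).abs.const_mul C
  have mU : ∀ x, AEStronglyMeasurable (fun s => UU u O (s, x) * φ s) m0 := fun x =>
    Continuous.aestronglyMeasurable (by fun_prop)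
  have mT : ∀ x, AEStronglyMeasurable (fun s => dt (UU u O) (s, x) * φ s) m0 := fun x =>
    Continuous.aestronglyMeasurable (by fun_prop)
  have bT : ∀ x s, s < 0 → ‖dt (UU u O) (s, x) * φ s‖ ≤ C * |φ s| := fun x s hs => by
    rw [norm_mul]
    exact mul_le_mul_of_nonneg_right ((hC (s, x)).2.2.trans
      (mul_le_of_le_one_right C0 (exp_le_one_iff.2 hs.le))) (abs_nonneg _)
  refine ⟨fun x => ?_, continuous_of_dominated mT (fun x => ae_m0 (bT x)) ib
    (Eventually.of_forall fun s => by fun_prop)⟩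
  refine (hasDerivAt_integral_of_dominated_loc_of_deriv_le (μ := m0) (s := univ) univ_mem
    (F := fun x s => UU u O (s, x) * φ s) (F' := fun x s => dt (UU u O) (s, x) * φ s)
    (Eventually.of_forall mU) ?_ (mT x) (ae_m0 fun s hs x _ => bT x s hs) ib
    (Eventually.of_forall fun s x _ => (BadArc_dt hU s x).mul_const _)).2
  refine ib.mono' (mU x) (Eventually.of_forall fun s => ?_)
  rw [norm_mul]
  exact mul_le_mul_of_nonneg_right (hC (s, x)).1 (abs_nonneg _)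

theorem Gp_per (φ : ℝ → ℝ) (u : ℂ → ℝ) (O : ℂ) (x : ℝ) :
    Gp φ u O (x + 2 * π) = Gp φ u O x := by
  have e : ei (x + 2 * π) = ei x := by
    unfold ei
    push_cast
    rw [add_mul, Complex.exp_add, Complex.exp_two_pi_mul_I, mul_one]
  simp only [Gp, UU, BadArc_exp, e]

theorem BadArc_shift (F : ℝ → ℝ) (c : ℝ) : ∫ σ, F (σ + c) ∂m0 = ∫ s in Iio c, F s := by
  have := (measurePreserving_add_right volume c).setIntegral_preimage_emb
    (measurableEmbedding_addRight c) F (Iio c)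
  simpa using this

theorem BadArc_sh0 {F : ℝ → ℝ} {u0 c : ℝ} (h0 : 0 < u0) (hc : -u0 ≤ c)
    (hF : ∀ s, -u0 ≤ s → F s = 0) : ∫ σ, F (σ + c) ∂m0 = ∫ σ, F σ ∂m0 := by
  have e : ∀ d, -u0 ≤ d → ∫ s in Iio d, F s = ∫ s in Iio (-u0), F s := fun d hd =>
    setIntegral_eq_of_subset_of_forall_sdiff_eq_zero measurableSet_Iio (Iio_subset_Iio hd)
      fun s hs => hF s (not_lt.1 hs.2)
  rw [BadArc_shift, e c hc, e 0 (by linarith)]

theorem BadArc_int {F : ℝ → ℝ} (hF : Continuous F) {C : ℝ} (c : ℝ)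
    (h : ∀ s, |F s| ≤ C * exp s) :
    B0 m0 (fun σ => F (σ + c)) ∧ Integrable (fun σ => F (σ + c)) m0 := by
  have C0 : 0 ≤ C := nonneg_of_mul_nonneg_left ((abs_nonneg _).trans (h 0)) (exp_pos _)
  have b : ∀ σ, |F (σ + c)| ≤ C * exp c * exp (1 * σ) := fun σ => by
    rw [one_mul, mul_assoc, ← exp_add, add_comm c]; exact h _
  exact ⟨b0_of_cont (by fun_prop) (K := C * exp c) fun σ hσ => (b σ).trans
    (mul_le_of_le_one_right (by positivity) (exp_le_one' zero_le_one hσ)),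
    int_of_cont (by fun_prop) one_pos fun σ _ => b σ⟩

/-- the slice of the function along a ray -/
theorem BadArc_v1 {u : ℂ → ℝ} (hu : ContDiff ℝ 1 u) (hc : HasCompactSupport u) (O : ℂ)
    (c x : ℝ) : V1 (fun σ => UU u O (σ + c, x) - UU u O (c, x))
      fun σ => ds (UU u O) (σ + c, x) := by
  obtain ⟨C, C0, hC⟩ := UU_bd hu hc O
  have hU := UU_contDiff hu O
  have cS := BadArc_cs hU
  refine V1.of_der (fun σ _ => (BadArc_ds hU c σ x).sub_const _) (by fun_prop) (by simp)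
    (K := C * exp c) fun σ _ => ?_
  rw [mul_assoc, ← exp_add, add_comm c]
  exact (hC (σ + c, x)).2.1

/-- the energy of one ray -/
theorem BadArc_den {u0 K : ℝ} {φ φ' φ'' : ℝ → ℝ} (h : Wt u0 K φ φ' φ'') (h0 : 0 < u0)
    {u : ℂ → ℝ} (hu : ContDiff ℝ 1 u) (hc : HasCompactSupport u) (O : ℂ) (lam : ℝ) {c : ℝ}
    (hcu : -u0 ≤ c) (x : ℝ) :
    (∫ σ, ds (UU u O) (σ + c, x) ^ 2 ∂m0) -
      lam * exp (2 * c) * (∫ σ, exp (2 * σ) * UU u O (σ + c, x) ^ 2 ∂m0) +
      kap * Gp' φ u O x ^ 2 ≤ ∫ s in Iio c, den u O lam (s, x) := by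
  obtain ⟨C, C0, hC⟩ := UU_bd hu hc O
  have hU := UU_contDiff hu O
  have cU := hU.continuous
  have cS := BadArc_cs hU
  have cT := BadArc_ct hU
  have cφ := h.cont
  obtain ⟨bS, iS⟩ := BadArc_int (F := fun s => ds (UU u O) (s, x)) (by fun_prop) c
    fun s => (hC (s, x)).2.1
  obtain ⟨bT, iT⟩ := BadArc_int (F := fun s => dt (UU u O) (s, x)) (by fun_prop) c
    fun s => (hC (s, x)).2.2
  obtain ⟨bφ, iφ⟩ := BadArc_int (F := φ) cφ (C := 11) c fun s => by
    rcases le_total s 0 with k | k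
    · exact (h.abs_le h0 s).trans (by linarith [exp2_le k])
    · rw [h.zero s (by linarith), abs_zero]; positivity
  have bU : B0 m0 fun σ => UU u O (σ + c, x) :=
    b0_of_cont (by fun_prop) (K := C) fun σ _ => (hC _).1
  have iN := bU.sq.int_mul (int_exp two_pos)
  have e1 : Gp' φ u O x = ∫ σ, dt (UU u O) (σ + c, x) * φ (σ + c) ∂m0 :=
    (BadArc_sh0 (F := fun s => dt (UU u O) (s, x) * φ s) h0 hcu fun s hs => by
      rw [h.zero s hs, mul_zero]).symm
  have e2 : ∫ σ, φ (σ + c) ^ 2 ∂m0 = ∫ σ, φ σ ^ 2 ∂m0 :=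
    BadArc_sh0 (F := fun s => φ s ^ 2) h0 hcu fun s hs => by rw [h.zero s hs]; norm_num
  have k1 := cs (bT.sq_int iT) (bφ.sq_int iφ) (bT.mul_int iφ)
  rw [← e1, e2] at k1
  have k2 := (kap_phi h h0).2
  have k3 : 0 ≤ ∫ σ, dt (UU u O) (σ + c, x) ^ 2 ∂m0 := integral_nonneg fun _ => sq_nonneg _
  have k4 := mul_le_mul_of_nonneg_left k1 kap_pos.le
  have k5 := mul_le_mul_of_nonneg_left k2 k3
  have e3 : ∫ s in Iio c, den u O lam (s, x) = (∫ σ, ds (UU u O) (σ + c, x) ^ 2 ∂m0) +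
      (∫ σ, dt (UU u O) (σ + c, x) ^ 2 ∂m0) -
      lam * exp (2 * c) * (∫ σ, exp (2 * σ) * UU u O (σ + c, x) ^ 2 ∂m0) := by
    rw [← BadArc_shift (fun s => den u O lam (s, x)), ← integral_const_mul,
      ← integral_add (bS.sq_int iS) (bT.sq_int iT),
      ← integral_sub (iadd (bS.sq_int iS) (bT.sq_int iT)) (iN.const_mul _)]
    refine integral_congr_ae (Eventually.of_forall fun σ => ?_)
    simp only [den, mul_add, exp_add]
    ring
  rw [e3]
  nlinarith

/-- Fubini over the visible part of an arc -/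
theorem BadArc_fub {F : ℝ × ℝ → ℝ} {a a' : ℝ} (hF : IntegrableOn F (univ ×ˢ Ioo a a'))
    (s₁ γ h : ℝ) : IntegrableOn (fun x => ∫ s in Iio (s0 s₁ γ h x), F (s, x)) (Ioo a a') ∧
      ∫ p in In s₁ a a' γ h, F p = ∫ x in Ioo a a', ∫ s in Iio (s0 s₁ γ h x), F (s, x) := by
  have mI := In_meas s₁ a a' γ h
  have i1 : Integrable ((In s₁ a a' γ h).indicator F) (volume.prod volume) :=
    (integrable_indicator_iff mI).2 (hF.mono_set fun p hp => ⟨mem_univ _, hp.1⟩)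
  have e1 : ∀ x ∈ Ioo a a', ∫ s, (In s₁ a a' γ h).indicator F (s, x) =
      ∫ s in Iio (s0 s₁ γ h x), F (s, x) := fun x hx => by
    rw [← integral_indicator measurableSet_Iio]
    refine integral_congr_ae (Eventually.of_forall fun s => ?_)
    by_cases k : s < s0 s₁ γ h x
    · simp only [indicator_of_mem (show (s, x) ∈ In s₁ a a' γ h from ⟨hx, k⟩),
        indicator_of_mem (show s ∈ Iio _ from k)]
    · simp only [indicator_of_notMem (show (s, x) ∉ In s₁ a a' γ h from fun q => k q.2),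
        indicator_of_notMem (show s ∉ Iio _ from k)]
  refine ⟨i1.integral_prod_right.integrableOn.congr_fun e1 measurableSet_Ioo, ?_⟩
  rw [← integral_indicator mI, Measure.volume_eq_prod, integral_prod_symm _ i1,
    ← setIntegral_congr_fun measurableSet_Ioo e1]
  refine (setIntegral_eq_integral_of_forall_compl_eq_zero fun x hx => ?_).symm
  have e2 : ∀ s, (In s₁ a a' γ h).indicator F (s, x) = 0 := fun s =>
    indicator_of_notMem (fun q => hx q.1) _
  simp only [e2, integral_zero]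

theorem BadArc_b0 {F : ℝ → ℝ} (hF : Continuous F) (a a' : ℝ) :
    B0 (volume.restrict (Ioo a a')) F := by
  obtain ⟨M, hM⟩ := (isCompact_Icc (a := a) (b := a')).exists_bound_of_continuousOn
    hF.continuousOn
  exact ⟨hF.aestronglyMeasurable, M, (ae_restrict_iff' measurableSet_Ioo).2
    (Eventually.of_forall fun x hx => hM x (Ioo_subset_Icc_self hx))⟩

theorem BadArc_fin {F : ℝ → ℝ} {a a' : ℝ} (hF : B0 (volume.restrict (Ioo a a')) F) :
    Integrable F (volume.restrict (Ioo a a')) := by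
  simpa using hF.mul_int (integrable_const (1 : ℝ))

theorem bad_arc {u0 K : ℝ} {φ φ' φ'' : ℝ → ℝ} (h : Wt u0 K φ φ' φ'') (h0 : 0 < u0)
    {c0 δ₁ K₁ : ℝ} (ray : RayP φ c0 801 δ₁) (hc0 : 0 < c0) (hδ₁ : 0 < δ₁) (hK : 1 ≤ K₁) :
    ∃ δ Kb cb : ℝ, 0 < δ ∧ 1 ≤ Kb ∧ 0 < cb ∧ ∀ᶠ β₀ in 𝓝[>] (0 : ℝ), ∀ lam bh al ω μ : ℝ,
      jj ^ 2 - K₁ * β₀ ^ 3 ≤ lam → lam ≤ jj ^ 2 → (bh - lam * NJ) ^ 2 ≤ K₁ * β₀ ^ 3 →
      al - bh ≤ K₁ * β₀ ^ 3 → (ω - ∫ σ, φ σ * JJ σ ∂m0) ^ 2 ≤ K₁ * β₀ ^ 3 → 0 ≤ μ → μ ≤ cb →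
      ∀ u : ℂ → ℝ, ContDiff ℝ 1 u → HasCompactSupport u → ∀ (O : ℂ) (a a' γ h s₁ y : ℝ),
      0 < s₁ → s₁ ≤ δ → a < a' → 0 < h → (∀ x ∈ Ioo a a', |x - γ| < π / 2) →
      (∀ x ∈ Ioo a a', -s₁ ≤ log (h / cos (x - γ))) →
      (∀ x ∈ Ioo a a', u (O + ((h / cos (x - γ) : ℝ) : ℂ) * ei x) = 0) →
        y ^ 2 * (al * (a' - a) - bh * (∫ x in Ioo a a', exp (2 * s0 s₁ γ h x)) -
            Kb * (β₀ ^ 3 + μ) * (a' - a)) +
          (y * DD) ^ 2 * (4 + jj ^ 2 / 6 - 1 / 100) * (∫ x in Ioo a a', s0 s₁ γ h x ^ 2) +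
          (kap * (∫ x in Ioo a a', Gp' φ u O x ^ 2) -
            1 / 200 * (∫ x in Ioo a a', (Gp φ u O x - y * ω) ^ 2) -
            2 * ∫ x in Ioo a a', y * DD * s0 s₁ γ h x * (Gp φ u O x - y * ω)) ≤
        (∫ p in In s₁ a a' γ h, den u O (lam + μ) p) +
          Kb / s₁ ^ 2 * ∫ x in Ioo a a', UU u O (s₁, x) ^ 2 := by
  obtain ⟨δ, Kb, cb, δ0, Kb1, cb0, ev⟩ := bad_ray h h0 ray hc0 hδ₁ hK
  refine ⟨min δ (min u0 1), Kb, cb, by positivity, Kb1, cb0, ?_⟩
  filter_upwards [ev] with β₀ hβ lam bh al ω μ l1 l2 l3 l4 l5 l6 l7 u hu hc O a a' γ r s₁ y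
    s0' sδ aa r0 hγ hlow hz
  have sδ1 : s₁ ≤ δ := sδ.trans (min_le_left _ _)
  have su : s₁ ≤ u0 := sδ.trans ((min_le_right _ _).trans (min_le_left _ _))
  have s1 : s₁ ≤ 1 := sδ.trans ((min_le_right _ _).trans (min_le_right _ _))
  have cabs : ∀ x ∈ Ioo a a', |s0 s₁ γ r x| ≤ s₁ := fun x hx =>
    abs_le.2 ⟨le_min (hlow x hx) (by linarith), min_le_right _ _⟩
  obtain ⟨gd, gc'⟩ := Gp_der h h0 hu hc O
  have gc : Continuous (Gp φ u O) := continuous_iff_continuousAt.2 fun x => (gd x).continuousAt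
  have cU := (UU_contDiff hu O).continuous
  obtain ⟨iD, eD⟩ := BadArc_fub (den_int hu hc O (lam + μ) a a') s₁ γ r
  have sc := s0_cont s₁ r0 hγ
  have bs : B0 (volume.restrict (Ioo a a')) (s0 s₁ γ r) :=
    ⟨sc.aestronglyMeasurable measurableSet_Ioo, s₁,
      (ae_restrict_iff' measurableSet_Ioo).2 (Eventually.of_forall cabs)⟩
  have be : B0 (volume.restrict (Ioo a a')) fun x => exp (2 * s0 s₁ γ r x) :=
    ⟨ContinuousOn.aestronglyMeasurable (by fun_prop) measurableSet_Ioo, exp (2 * s₁),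
      (ae_restrict_iff' measurableSet_Ioo).2 (Eventually.of_forall fun x hx => by
        rw [abs_of_pos (exp_pos _)]
        exact exp_le_exp.2 (by linarith [(abs_le.1 (cabs x hx)).2]))⟩
  have bH : B0 (volume.restrict (Ioo a a')) fun x => Gp φ u O x - y * ω :=
    BadArc_b0 (by fun_prop) a a'
  have i0 : Integrable (fun _ : ℝ => y ^ 2 * (al - Kb * (β₀ ^ 3 + μ)))
      (volume.restrict (Ioo a a')) := integrable_const _
  have i1 := (BadArc_fin be).const_mul (y ^ 2 * bh)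
  have i2 := (BadArc_fin bs.sq).const_mul ((y * DD) ^ 2 * (4 + jj ^ 2 / 6 - 1 / 100))
  have i3 := (BadArc_fin (BadArc_b0 gc' a a').sq).const_mul kap
  have i4 := (BadArc_fin bH.sq).const_mul (1 / 200)
  have i5 := (BadArc_fin (((B0.const (y * DD)).mul bs).mul bH)).const_mul 2
  have i6 := (BadArc_fin (BadArc_b0 (F := fun x => UU u O (s₁, x)) (by fun_prop) a a').sq).const_mul
    (Kb / s₁ ^ 2)
  have key := setIntegral_mono_on
    (isub (isub (iadd (iadd (isub i0 i1) i2) i3) i4) i5) (iadd iD i6) measurableSet_Ioo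
    fun x hx => ?_
  · rw [integral_sub (isub (iadd (iadd (isub i0 i1) i2) i3) i4) i5,
      integral_sub (iadd (iadd (isub i0 i1) i2) i3) i4, integral_add (iadd (isub i0 i1) i2) i3,
      integral_add (isub i0 i1) i2, integral_sub i0 i1, integral_add iD i6, ← eD,
      setIntegral_const, Measure.real, Real.volume_Ioo, ENNReal.toReal_ofReal (by linarith),
      smul_eq_mul] at key
    simp only [integral_const_mul (y ^ 2 * bh), integral_const_mul kap,
      integral_const_mul (2 : ℝ), integral_const_mul (1 / 200 : ℝ),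
      integral_const_mul (Kb / s₁ ^ 2),
      integral_const_mul ((y * DD) ^ 2 * (4 + jj ^ 2 / 6 - 1 / 100))] at key
    linarith
  · have ca := cabs x hx
    have cu : -u0 ≤ s0 s₁ γ r x := by linarith [(abs_le.1 ca).1]
    have cp : 0 < cos (x - γ) := cos_pos_of_mem_Ioo (abs_lt.1 (hγ x hx))
    have hb : UU u O (s0 s₁ γ r x, x) = 0 ∨ s0 s₁ γ r x = s₁ := by
      rcases le_total (log (r / cos (x - γ))) s₁ with k | k
      · left
        rw [UU, BadArc_exp, s0, min_eq_left k, exp_log (div_pos r0 cp)]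
        exact hz x hx
      · exact Or.inr (min_eq_right k)
    have k1 := hβ lam bh al ω μ l1 l2 l3 l4 l5 l6 l7 _ _ (BadArc_v1 hu hc O (s0 s₁ γ r x) x) y
      (s0 s₁ γ r x) (UU u O (s0 s₁ γ r x, x)) s₁ (Gp φ u O x - y * ω) (ca.trans sδ1) s0' s1
      (hb.imp id fun e => by rw [e, abs_of_pos s0']) (by
        simp only [sub_add_cancel]
        rw [BadArc_sh0 (F := fun s => UU u O (s, x) * φ s) h0 cu fun s hs => by
          rw [h.zero s hs, mul_zero], Gp])
    simp only [sub_add_cancel] at k1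
    have k2 := BadArc_den h h0 hu hc O (lam + μ) cu x
    have k3 : Kb / s₁ ^ 2 * UU u O (s0 s₁ γ r x, x) ^ 2 ≤ Kb / s₁ ^ 2 * UU u O (s₁, x) ^ 2 := by
      refine mul_le_mul_of_nonneg_left ?_ (by positivity)
      rcases hb with e | e
      · rw [e]; nlinarith [sq_nonneg (UU u O (s₁, x))]
      · rw [e]
    linarith

end Pool.Agent.Work.MP_267827_an
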