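import Pool.Agent.Work.MP_267827_an.Weight

/-! The weight of the coupling in conformal coordinates. -/

set_option autoImplicit false

namespace Pool.Agent.Work.MP_267827_an

open MeasureTheory Set Filter Topology Metric Real

variable {u0 K : ℝ} {φ φ' φ'' : ℝ → ℝ}

theorem Dist_SS_cont {β : ℝ} (hβ : 0 < β) (b : ℝ) : ContinuousOn (SS β b) (Iio 0) :=
  fun _ hσ => (SS_der hβ b hσ).continuousAt.continuousWithinAt

theorem Dist_he_cont {β : ℝ} (hβ : 0 < β) (b : ℝ) : ContinuousOn (he β b) (Iio 0) := by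
  have hm : MapsTo (fun σ : ℝ => ((σ / β, 0) : ℝ × ℝ)) (Iio 0) {p | p.1 < 0} :=
    fun σ hσ => div_neg_of_neg_of_pos hσ hβ
  have hc : ContinuousOn (fun σ : ℝ => ((σ / β, 0) : ℝ × ℝ)) (Iio 0) := by fun_prop
  have h1 : ContinuousOn (fun σ : ℝ => u1 (σ / β) 0) (Iio 0) := by
    have := u_cont.1.comp hc hm
    simpa only [Function.comp_def] using this
  have h2 : ContinuousOn (fun σ : ℝ => u2 (σ / β) 0) (Iio 0) := by
    have := u_cont.2.comp hc hm
    simpa only [Function.comp_def] using this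
  exact continuous_exp.comp_continuousOn
    (((continuousOn_const.mul h1).add (continuousOn_const.mul h2)).div_const 2)

theorem Dist_ke_cont {β : ℝ} (hβ : 0 < β) (b : ℝ) : ContinuousOn (ke β b) (Iio 0) := by
  have h1 : ContinuousOn (fun σ => exp (SS β b σ - σ)) (Iio 0) :=
    continuous_exp.comp_continuousOn ((Dist_SS_cont hβ b).sub continuousOn_id)
  refine h1.congr fun σ hσ => ?_
  beta_reduce
  rw [SS, add_sub_cancel_left, exp_log (ke_pos hβ b hσ)]

theorem Ps_cont (h : Wt u0 K φ φ' φ'') (c : ℝ) {β : ℝ} (hβ : 0 < β) (b : ℝ) :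
    ContinuousOn (Ps φ c β b) (Iio 0) :=
  (h.cont.comp_continuousOn (continuousOn_const.add (Dist_SS_cont hβ b))).mul
    ((Dist_he_cont hβ b).div (Dist_ke_cont hβ b) fun _ hσ => (ke_pos hβ b hσ).ne')

theorem Dist_exp_le {x : ℝ} (hx : |x| ≤ 1) : exp x ≤ 3 :=
  (exp_le_exp.2 (abs_le.1 hx).2).trans (exp_one_lt_d9.le.trans (by norm_num))

theorem Dist_exp_shift {x : ℝ} (hx : |x| ≤ 1 / 2) (σ : ℝ) :
    exp (2 * (σ + x)) ≤ 3 * exp (2 * σ) := by
  rw [mul_add, exp_add, mul_comm]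
  have : |2 * x| ≤ 1 := by rw [abs_mul, abs_two]; linarith
  exact mul_le_mul_of_nonneg_right (Dist_exp_le this) (exp_pos _).le

theorem Dist_mvt {f f' : ℝ → ℝ} {c B : ℝ} (hd : ∀ x, HasDerivAt f (f' x) x)
    (hb : ∀ x, |x| ≤ |c| → |f' x| ≤ B) : |f c - f 0| ≤ B * |c| := by
  have := (convex_Icc (-|c|) |c|).norm_image_sub_le_of_norm_hasDerivWithin_le (f := f) (f' := f')
    (C := B) (fun x _ => (hd x).hasDerivWithinAt) (fun x hx => hb x (abs_le.2 hx))
    (x := 0) (y := c) ⟨by simp, abs_nonneg c⟩ (abs_le.1 le_rfl)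
  simpa using this

theorem Dist_shift {f f' : ℝ → ℝ} (hd : ∀ x, HasDerivAt f (f' x) x)
    (hb : ∀ s, |f' s| ≤ K * exp (2 * s)) {c : ℝ} (hc : |c| ≤ 1 / 2) (σ : ℝ) :
    |f (σ + c) - f σ| ≤ 3 * K * |c| * exp (2 * σ) := by
  have K0 : 0 ≤ K := by simpa using (abs_nonneg _).trans (hb 0)
  have := Dist_mvt (f := fun x => f (σ + x)) (f' := fun x => f' (σ + x)) (c := c)
    (B := K * (3 * exp (2 * σ))) (fun x => (hd (σ + x)).comp_const_add σ x)
    fun x hx => (hb _).trans (mul_le_mul_of_nonneg_left (Dist_exp_shift (hx.trans hc) σ) K0)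
  rw [add_zero] at this
  linarith

theorem shift_est (h : Wt u0 K φ φ' φ'') {c : ℝ} (hc : |c| ≤ 1 / 2) (σ : ℝ) :
    |φ (σ + c) - φ σ| ≤ 3 * K * |c| * exp (2 * σ) ∧
    |φ (σ + c) - φ σ - c * φ' σ| ≤ 3 * K * c ^ 2 * exp (2 * σ) := by
  have K0 : 0 ≤ K := by simpa using (abs_nonneg _).trans (h.b1 0)
  refine ⟨Dist_shift h.der h.b1 hc σ, ?_⟩
  have := Dist_mvt (f := fun x => φ (σ + x) - x * φ' σ) (f' := fun x => φ' (σ + x) - φ' σ) (c := c)
    (B := 3 * K * |c| * exp (2 * σ))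
    (fun x => ((h.der (σ + x)).comp_const_add σ x).sub (hasDerivAt_mul_const (φ' σ)))
    fun x hx => (Dist_shift h.der2 h.b2 (hx.trans hc) σ).trans (by gcongr)
  have e : φ (σ + c) - c * φ' σ - (φ (σ + 0) - 0 * φ' σ) = φ (σ + c) - φ σ - c * φ' σ := by
    rw [add_zero]; ring
  rw [e] at this
  calc _ ≤ _ := this
    _ = 3 * K * (|c| * |c|) * exp (2 * σ) := by ring
    _ = _ := by rw [abs_mul_abs_self, ← sq]

theorem Dist_ke_int {β : ℝ} (hβ : 0 < β) (b : ℝ) {σ : ℝ} (hσ : σ < 0) :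
    IntegrableOn (fun s : ℝ => exp s * he β b (σ + s)) (Iio 0) := by
  have h1 := ((Conf_int hβ b (w := σ) (Or.inl hσ)).norm).const_mul (exp (-σ))
  refine h1.congr ?_
  filter_upwards [ae_restrict_mem measurableSet_Iio] with s hs
  have hs : s < 0 := hs
  have h2 : 0 < he β b (σ + s) := exp_pos _
  rw [← Complex.ofReal_add, Conf_GG_bot hβ b (by linarith), Complex.norm_real,
    Real.norm_of_nonneg (by positivity), ← mul_assoc, ← exp_add]
  congr 2; ring

/-- averages of exponentials -/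
theorem Dist_avg {p q : ℝ → ℝ} {d : ℝ} (hp : Integrable (fun s => exp s * exp (p s)) m0)
    (hq : Integrable (fun s => exp s * exp (q s)) m0) (p0 : 0 < ∫ s, exp s * exp (p s) ∂m0)
    (q0 : 0 < ∫ s, exp s * exp (q s) ∂m0) (h : ∀ s, s < 0 → p s - q s ≤ d) :
    log (∫ s, exp s * exp (p s) ∂m0) - log (∫ s, exp s * exp (q s) ∂m0) ≤ d := by
  have h1 : ∫ s, exp s * exp (p s) ∂m0 ≤ exp d * ∫ s, exp s * exp (q s) ∂m0 := by
    rw [← integral_const_mul]
    refine integral_mono_ae hp (hq.const_mul _) (ae_m0 fun s hs => ?_)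
    have : exp (p s) ≤ exp d * exp (q s) := by
      rw [← exp_add]; exact exp_le_exp.2 (by linarith [h s hs])
    calc exp s * exp (p s) ≤ exp s * (exp d * exp (q s)) := by gcongr
      _ = _ := by ring
  have h2 := log_le_log p0 h1
  rw [log_mul (exp_pos _).ne' q0.ne', log_exp] at h2
  linarith

theorem Dist_log_two {β b β' b' σ d : ℝ} (hβ : 0 < β) (hβ' : 0 < β') (hσ : σ < 0)
    (h : ∀ s, s ≤ σ → |xx β b (s / β) 0 / 2 - xx β' b' (s / β') 0 / 2| ≤ d) :
    |log (ke β b σ) - log (ke β' b' σ)| ≤ d := by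
  refine abs_sub_le_iff.2 ⟨?_, ?_⟩
  · exact Dist_avg (Dist_ke_int hβ b hσ) (Dist_ke_int hβ' b' hσ) (ke_pos hβ b hσ)
      (ke_pos hβ' b' hσ) fun s hs => (abs_sub_le_iff.1 (h _ (by linarith))).1
  · exact Dist_avg (Dist_ke_int hβ' b' hσ) (Dist_ke_int hβ b hσ) (ke_pos hβ' b' hσ)
      (ke_pos hβ b hσ) fun s hs => (abs_sub_le_iff.1 (h _ (by linarith))).2

theorem Dist_log_one {β b σ d : ℝ} (hβ : 0 < β) (hσ : σ < 0)
    (h : ∀ s, s ≤ σ → |xx β b (s / β) 0 / 2| ≤ d) : |log (ke β b σ)| ≤ d := by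
  have i1 : Integrable (fun s => exp s * exp ((fun _ => (0 : ℝ)) s)) m0 := by
    simpa using int_exp1
  have e1 : ∫ s, exp s * exp ((fun _ => (0 : ℝ)) s) ∂m0 = 1 := by
    simpa using integral_exp0 one_pos
  have a1 := Dist_avg (d := d) (Dist_ke_int hβ b hσ) i1 (ke_pos hβ b hσ) (by rw [e1]; norm_num)
    fun s hs => by linarith [(abs_le.1 (h (σ + s) (by linarith))).2]
  have a2 := Dist_avg (d := d) i1 (Dist_ke_int hβ b hσ) (by rw [e1]; norm_num) (ke_pos hβ b hσ)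
    fun s hs => by linarith [(abs_le.1 (h (σ + s) (by linarith))).1]
  rw [e1, log_one] at a1 a2
  exact abs_le.2 ⟨by rw [ke]; unfold he; linarith, by rw [ke]; unfold he; linarith⟩

theorem Dist_Ps {β : ℝ} (hβ : 0 < β) (c b : ℝ) {σ : ℝ} (hσ : σ < 0) :
    Ps φ c β b σ = φ (σ + (c + log (ke β b σ))) *
      exp (xx β b (σ / β) 0 / 2 - log (ke β b σ)) := by
  rw [Ps, SS, exp_sub, exp_log (ke_pos hβ b hσ), he]
  congr 2; ring

theorem Dist_exp_sub {r r' : ℝ} (h' : |r'| ≤ 1) (h : |r - r'| ≤ 1) :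
    |exp r - exp r'| ≤ 6 * |r - r'| := by
  have e : exp r - exp r' = exp r' * (exp (r - r') - 1) := by
    rw [mul_sub, ← exp_add]; simp
  rw [e, abs_mul, abs_of_pos (exp_pos _)]
  calc _ ≤ 3 * (2 * |r - r'|) :=
        mul_le_mul (Dist_exp_le h') (abs_exp_sub_one_le h) (abs_nonneg _) (by norm_num)
    _ = _ := by ring

theorem Dist_two {f f' : ℝ → ℝ} {B : ℝ} (hd : ∀ x, HasDerivAt f (f' x) x)
    (hb : ∀ s, |f' s| ≤ K * exp (2 * s)) (hB : ∀ s, |f s| ≤ B * exp (2 * s))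
    {x y r r' d : ℝ} (hy : |y| ≤ 1 / 2) (hr : |r| ≤ 1 / 2) (hr' : |r'| ≤ 1 / 2) (hd2 : d ≤ 1 / 2)
    (hxy : |x - y| ≤ d) (hrr : |r - r'| ≤ 2 * d) (σ : ℝ) :
    |f (σ + x) * exp r - f (σ + y) * exp r'| ≤ (27 * K + 36 * B) * d * exp (2 * σ) := by
  have K0 : 0 ≤ K := by simpa using (abs_nonneg _).trans (hb 0)
  have B0 : 0 ≤ B := by simpa using (abs_nonneg _).trans (hB 0)
  have d0 : 0 ≤ d := (abs_nonneg _).trans hxy
  have a1 := Dist_shift hd hb (hxy.trans hd2) (σ + y)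
  rw [show σ + y + (x - y) = σ + x by ring] at a1
  have a2 := Dist_exp_shift hy σ
  have a3 : |f (σ + x) - f (σ + y)| ≤ 3 * K * d * (3 * exp (2 * σ)) := a1.trans (by gcongr)
  have a4 : |f (σ + y)| ≤ B * (3 * exp (2 * σ)) := (hB _).trans (by gcongr)
  have a5 : |exp r - exp r'| ≤ 6 * (2 * d) :=
    (Dist_exp_sub (by linarith) (by linarith)).trans (by gcongr)
  have e : f (σ + x) * exp r - f (σ + y) * exp r' =
      (f (σ + x) - f (σ + y)) * exp r + f (σ + y) * (exp r - exp r') := by ring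
  rw [e]
  refine (abs_add_le _ _).trans ?_
  rw [abs_mul, abs_mul, abs_of_pos (exp_pos r)]
  calc _ ≤ 3 * K * d * (3 * exp (2 * σ)) * 3 + B * (3 * exp (2 * σ)) * (6 * (2 * d)) :=
        add_le_add (mul_le_mul a3 (Dist_exp_le (by linarith)) (exp_pos _).le (by positivity))
          (mul_le_mul a4 a5 (abs_nonneg _) (by positivity))
    _ = _ := by ring

theorem Dist_three (h : Wt u0 K φ φ' φ'') {c L r η : ℝ} (hc : |c| ≤ 1 / 2) (hη : η ≤ 1 / 4)
    (hL : |L| ≤ η) (hr : |r| ≤ 2 * η) (σ : ℝ) :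
    |φ (σ + (c + L)) * exp r - φ (σ + (0 + L)) * exp r - c * φ' σ| ≤
      63 * K * ((|c| + η) * |c|) * exp (2 * σ) := by
  have K0 : 0 ≤ K := by simpa using (abs_nonneg _).trans (h.b1 0)
  have η0 : 0 ≤ η := (abs_nonneg _).trans hL
  have a1 := (shift_est h hc (σ + L)).2
  have a2 := Dist_exp_shift (x := L) (by linarith) σ
  have a3 : |φ (σ + L + c) - φ (σ + L) - c * φ' (σ + L)| ≤ 3 * K * c ^ 2 * (3 * exp (2 * σ)) :=
    a1.trans (by gcongr)
  have a4 := Dist_two h.der2 h.b2 h.b1 (x := L) (y := 0) (r := r) (r' := 0) (d := η) (by simp)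
    (by linarith) (by simp) (by linarith) (by simpa using hL) (by simpa using hr) σ
  have e : φ (σ + (c + L)) * exp r - φ (σ + (0 + L)) * exp r - c * φ' σ =
      (φ (σ + L + c) - φ (σ + L) - c * φ' (σ + L)) * exp r +
        c * (φ' (σ + L) * exp r - φ' (σ + 0) * exp 0) := by
    rw [zero_add, add_zero, exp_zero, show σ + (c + L) = σ + L + c by ring]; ring
  rw [e]
  refine (abs_add_le _ _).trans ?_
  rw [abs_mul, abs_mul, abs_of_pos (exp_pos r)]
  have c0 := abs_nonneg c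
  calc _ ≤ 3 * K * c ^ 2 * (3 * exp (2 * σ)) * 3 + |c| * ((27 * K + 36 * K) * η * exp (2 * σ)) :=
        add_le_add (mul_le_mul a3 (Dist_exp_le (by linarith)) (exp_pos _).le (by positivity))
          (mul_le_mul_of_nonneg_left a4 c0)
    _ = 63 * K * ((|c| + η) * |c|) * exp (2 * σ) - 36 * K * c ^ 2 * exp (2 * σ) := by
        rw [← sq_abs c]; ring
    _ ≤ _ := sub_le_self _ (by positivity)

theorem Dist_SS_mono {β : ℝ} (hβ : 0 < β) (b : ℝ) : MonotoneOn (SS β b) (Iio 0) := by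
  refine monotoneOn_of_deriv_nonneg (convex_Iio 0) (Dist_SS_cont hβ b) (fun x hx => ?_)
    fun x hx => ?_
  · rw [interior_Iio] at hx
    exact (SS_der hβ b hx).differentiableAt.differentiableWithinAt
  · rw [interior_Iio] at hx
    rw [(SS_der hβ b hx).deriv]
    exact div_nonneg (exp_pos _).le (ke_pos hβ b hx).le

theorem Dist_xx (h0 : 0 < u0) : ∃ A : ℝ, 1 ≤ A ∧ ∀ M β b s : ℝ, M ≤ 1 / 64 → 0 < β → β ≤ M →
    |b| ≤ 1 / 64 → s ≤ -(u0 / 2) → |xx β b (s / β) 0 / 2| ≤ A * M ^ 4 ∧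
      ∀ β₀ : ℝ, 0 < β₀ → β₀ ≤ M →
        |xx β b (s / β) 0 / 2 - xx β₀ 0 (s / β₀) 0 / 2| ≤ A * (M ^ 4 * (|β - β₀| + |b|)) / 2 := by
  obtain ⟨Kw, k1, hw⟩ := weight_est
  refine ⟨1 + Kw * ((u0 / 2) ^ 4)⁻¹, le_add_of_nonneg_right (by positivity),
    fun M β b s hM hβ hβM hb hs => ?_⟩
  have s0 : s < 0 := by linarith
  have hO : ∀ m : ℝ, 0 ≤ m → m ≤ M → Om m s ≤ M ^ 4 * ((u0 / 2) ^ 4)⁻¹ := fun m m0 m1 => by
    refine (Om_mono m0 m1 s).trans ((Om_le_four M s).trans ?_)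
    have : (u0 / 2) ^ 4 ≤ s ^ 4 := by
      rw [← Even.neg_pow (by decide) s]
      exact pow_le_pow_left₀ (by positivity) (by linarith) 4
    gcongr
  obtain ⟨-, -, a3, -, a5⟩ := hw β b s 0 hβ (hβM.trans hM) hb s0
  have b0 := abs_nonneg b
  have q0 : 0 ≤ ((u0 / 2) ^ 4)⁻¹ := by positivity
  have M4 : 0 ≤ M ^ 4 := by positivity
  refine ⟨?_, fun β₀ g0 g1 => ?_⟩
  · have : |xx β b (s / β) 0| ≤ Kw * 1 * (M ^ 4 * ((u0 / 2) ^ 4)⁻¹) :=
      a3.trans (mul_le_mul (mul_le_mul_of_nonneg_left (by linarith) (by linarith))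
        (hO β hβ.le hβM) (Om_nonneg _ _) (by positivity))
    rw [abs_div, abs_two]
    have := abs_nonneg (xx β b (s / β) 0)
    generalize ((u0 / 2) ^ 4)⁻¹ = q at *
    linarith
  · have : |xx β b (s / β) 0 - xx β₀ 0 (s / β₀) 0| ≤
        Kw * (|β - β₀| + |b|) * (M ^ 4 * ((u0 / 2) ^ 4)⁻¹) :=
      (a5 β₀ g0 (g1.trans hM)).2.trans (mul_le_mul_of_nonneg_left
        (hO _ (le_max_of_le_left hβ.le) (max_le hβM g1)) (by positivity))
    rw [← sub_div, abs_div, abs_two]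
    have p : 0 ≤ M ^ 4 * (|β - β₀| + |b|) := by positivity
    generalize ((u0 / 2) ^ 4)⁻¹ = q at *
    linarith

theorem Dist_subst (h : Wt u0 K φ φ' φ'') (h0 : 0 < u0) {β b c B : ℝ} (hβ : 0 < β)
    (hB : ∀ σ, σ < 0 → |Ps φ c β b σ| ≤ B * exp (2 * σ))
    (hz : ∀ σ, -(u0 / 2) ≤ σ → σ < 0 → -u0 ≤ c + SS β b σ)
    (hl : ∀ σ, σ ≤ -(u0 / 2) → SS β b σ ≤ σ + 1)
    {U : ℝ → ℝ} (hU : Continuous U) {C : ℝ} (hC : ∀ s, |U s| ≤ C) :
    ∫ σ, U (c + SS β b σ) * Ps φ c β b σ ∂m0 = ∫ s, U s * φ s ∂m0 := by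
  have C0 : 0 ≤ C := (abs_nonneg _).trans (hC 0)
  have fc : Continuous fun s => U s * φ s := hU.mul h.cont
  have fi : Integrable (fun s => U s * φ s) m0 :=
    int_of_cont fc.continuousOn (K := C * 11) two_pos fun s _ => by
      rw [abs_mul, mul_assoc]
      exact mul_le_mul (hC s) (h.abs_le h0 s) (abs_nonneg _) C0
  have key := ftc0 (Φ := fun σ => ∫ x in (0 : ℝ)..(c + SS β b σ), U x * φ x)
    (Φ' := fun σ => U (c + SS β b σ) * Ps φ c β b σ) (l₀ := -∫ s, U s * φ s ∂m0) (l₁ := 0)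
    (fun σ hσ => by
      have := (fc.integral_hasStrictDerivAt 0 (c + SS β b σ)).hasDerivAt.comp σ
        ((SS_der hβ b hσ).const_add c)
      rw [mul_assoc] at this
      exact this)
    (int_of_cont ((hU.comp_continuousOn (continuousOn_const.add (Dist_SS_cont hβ b))).mul
      (Ps_cont h c hβ b)) (K := C * B) two_pos fun σ hσ => by
        rw [abs_mul, mul_assoc]
        exact mul_le_mul (hC _) (hB σ hσ) (abs_nonneg _) C0)
    (by
      have t1 : Tendsto (fun σ => c + SS β b σ) atBot atBot := by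
        refine tendsto_atBot_mono' _ ?_ (tendsto_atBot_add_const_right _ (c + 1) tendsto_id)
        filter_upwards [Iic_mem_atBot (-(u0 / 2))] with σ hσ
        have := hl σ hσ
        simp only [id]
        linarith
      have i1 : IntegrableOn (fun s => U s * φ s) (Iic 0) :=
        (integrableOn_Iic_iff_integrableOn_Iio).2 fi
      have t2 := (intervalIntegral_tendsto_integral_Iic 0 i1 t1).neg
      rw [integral_Iic_eq_integral_Iio] at t2
      refine t2.congr fun σ => ?_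
      rw [intervalIntegral.integral_symm, neg_neg])
    (by
      refine tendsto_const_nhds.congr' ?_
      filter_upwards [Ioo_mem_nhdsLT (show -(u0 / 2) < 0 by linarith)] with σ hσ
      symm
      rw [intervalIntegral.integral_congr (g := fun _ => 0), intervalIntegral.integral_zero]
      intro x hx
      have h1 := hz σ hσ.1.le hσ.2
      have h2 : -u0 ≤ x := le_trans (le_min (by linarith) h1) hx.1
      simp only [h.zero x h2, mul_zero])
  rw [key]; ring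

theorem dist_est (h : Wt u0 K φ φ' φ'') (h0 : 0 < u0) (h1 : u0 ≤ 1 / 4) :
    ∃ K' δ : ℝ, 1 ≤ K' ∧ 0 < δ ∧ δ ≤ u0 / 4 ∧ δ ≤ 1 / 64 ∧
      ∀ M β b c : ℝ, M ≤ δ → 0 < β → β ≤ M → |b| ≤ 1 / 64 → |c| ≤ δ →
      (∀ σ : ℝ, σ < 0 →
        |Ps φ c β b σ - φ σ| ≤ K' * (|c| + M ^ 4) * exp (2 * σ) ∧
        |Ps φ c β b σ - Ps φ c β (-b) σ| ≤ K' * (M ^ 4 * |b|) * exp (2 * σ) ∧
        ∀ β₀ : ℝ, 0 < β₀ → β₀ ≤ M → |Ps φ c β b σ - Ps φ 0 β₀ 0 σ - c * φ' σ| ≤
          K' * ((|c| + M ^ 4) * |c| + M ^ 4 * (|β - β₀| + |b|)) * exp (2 * σ)) ∧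
      ∀ U : ℝ → ℝ, Continuous U → (∃ C, ∀ s, |U s| ≤ C) →
        ∫ σ, U (c + SS β b σ) * Ps φ c β b σ ∂m0 = ∫ s, U s * φ s ∂m0 := by
  have K0 : 0 ≤ K := by simpa using (abs_nonneg _).trans (h.b1 0)
  obtain ⟨A, A1, hA⟩ := Dist_xx h0
  have A0 : 0 < A := by linarith
  refine ⟨(63 * K + 396) * A, min (min (u0 / 4) (1 / 64)) (1 / A),
    one_le_mul_of_one_le_of_one_le (by linarith) A1,
    lt_min (lt_min (by positivity) (by norm_num)) (by positivity),
    (min_le_left _ _).trans (min_le_left _ _), (min_le_left _ _).trans (min_le_right _ _),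
    fun M β b c hM hβ hβM hb hc => ?_⟩
  have M1 : M ≤ u0 / 4 := hM.trans ((min_le_left _ _).trans (min_le_left _ _))
  have M2 : M ≤ 1 / 64 := hM.trans ((min_le_left _ _).trans (min_le_right _ _))
  have M3 : A * M ≤ 1 := by
    have := hM.trans (min_le_right _ _)
    rwa [le_div_iff₀ A0, mul_comm] at this
  have c1 : |c| ≤ u0 / 4 := hc.trans ((min_le_left _ _).trans (min_le_left _ _))
  have c2 : |c| ≤ 1 / 64 := hc.trans ((min_le_left _ _).trans (min_le_right _ _))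
  clear hM hc
  have M0 : 0 < M := hβ.trans_le hβM
  have c0 := abs_nonneg c
  have b0 := abs_nonneg b
  have M4 : 0 ≤ M ^ 4 := by positivity
  have hη : A * M ^ 4 ≤ M := by
    have : M ^ 2 ≤ 1 := pow_le_one₀ M0.le (by linarith)
    calc A * M ^ 4 = A * M * M ^ 2 * M := by ring
      _ ≤ 1 * 1 * M := by gcongr
      _ = M := by ring
  have η0 : 0 ≤ A * M ^ 4 := by positivity
  have hτ : -(u0 / 2) < 0 := by linarith
  -- the logarithm of the distortion
  have L1 : ∀ β' b' σ : ℝ, 0 < β' → β' ≤ M → |b'| ≤ 1 / 64 → σ ≤ -(u0 / 2) →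
      |log (ke β' b' σ)| ≤ A * M ^ 4 ∧
        |xx β' b' (σ / β') 0 / 2 - log (ke β' b' σ)| ≤ 2 * (A * M ^ 4) := by
    intro β' b' σ p1 p2 p3 p4
    have q := Dist_log_one (b := b') p1 (p4.trans_lt hτ)
      fun s hs => (hA M β' b' s M2 p1 p2 p3 (hs.trans p4)).1
    exact ⟨q, (abs_sub _ _).trans (by linarith [(hA M β' b' σ M2 p1 p2 p3 p4).1])⟩
  have L2 : ∀ β' b' σ d : ℝ, 0 < β' → β' ≤ M → |b'| ≤ 1 / 64 → σ ≤ -(u0 / 2) → d ≤ 1 / 2 →
      (∀ s, s ≤ σ → |xx β b (s / β) 0 / 2 - xx β' b' (s / β') 0 / 2| ≤ d) →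
      |Ps φ c β b σ - Ps φ c β' b' σ| ≤ (27 * K + 36 * 11) * d * exp (2 * σ) := by
    intro β' b' σ d p1 p2 p3 p4 p5 p6
    have s0 := p4.trans_lt hτ
    have q := Dist_log_two hβ p1 s0 p6
    obtain ⟨q1, q2⟩ := L1 β' b' σ p1 p2 p3 p4
    obtain ⟨-, q3⟩ := L1 β b σ hβ hβM hb p4
    rw [Dist_Ps hβ c b s0, Dist_Ps p1 c b' s0]
    refine Dist_two h.der h.b1 (h.abs_le h0) ((abs_add_le _ _).trans (by linarith)) (by linarith)
      (by linarith) p5 (by rwa [add_sub_add_left_eq_sub]) ?_ σ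
    rw [sub_sub_sub_comm]
    exact (abs_sub _ _).trans (by linarith [p6 σ le_rfl])
  have Z : ∀ β' b' c' σ : ℝ, 0 < β' → β' ≤ M → |b'| ≤ 1 / 64 → |c'| ≤ u0 / 4 → -(u0 / 2) ≤ σ →
      σ < 0 → -u0 ≤ c' + SS β' b' σ := by
    intro β' b' c' σ p1 p2 p3 p4 p5 p6
    have q1 := Dist_SS_mono p1 b' hτ p6 p5
    have q2 := (abs_le.1 (L1 β' b' _ p1 p2 p3 le_rfl).1).1
    rw [SS] at q1
    linarith [(abs_le.1 p4).1]
  have main : ∀ σ : ℝ, σ < 0 →
      |Ps φ c β b σ - φ σ| ≤ (63 * K + 396) * A * (|c| + M ^ 4) * exp (2 * σ) ∧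
      |Ps φ c β b σ - Ps φ c β (-b) σ| ≤ (63 * K + 396) * A * (M ^ 4 * |b|) * exp (2 * σ) ∧
      ∀ β₀ : ℝ, 0 < β₀ → β₀ ≤ M → |Ps φ c β b σ - Ps φ 0 β₀ 0 σ - c * φ' σ| ≤
        (63 * K + 396) * A * ((|c| + M ^ 4) * |c| + M ^ 4 * (|β - β₀| + |b|)) * exp (2 * σ) := by
    intro σ hσ
    have E0 := exp_pos (2 * σ)
    have cA : |c| + A * M ^ 4 ≤ A * (|c| + M ^ 4) := by
      rw [mul_add]
      exact add_le_add (le_mul_of_one_le_left c0 A1) le_rfl
    rcases le_total σ (-(u0 / 2)) with hs | hs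
    · obtain ⟨q1, q2⟩ := L1 β b σ hβ hβM hb hs
      refine ⟨?_, ?_, fun β₀ g0 g1 => ?_⟩
      · have := Dist_two h.der h.b1 (h.abs_le h0) (x := c + log (ke β b σ)) (y := 0)
          (r := xx β b (σ / β) 0 / 2 - log (ke β b σ)) (r' := 0) (d := |c| + A * M ^ 4) (by simp)
          (by linarith) (by simp) (by linarith)
          (by rw [sub_zero]; exact (abs_add_le _ _).trans (by linarith))
          (by rw [sub_zero]; linarith) σ
        rw [add_zero, exp_zero, mul_one, ← Dist_Ps hβ c b hσ] at this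
        refine this.trans ?_
        rw [mul_assoc _ A]
        gcongr
        · linarith
        · norm_num
      · have := L2 β (-b) σ (A * (M ^ 4 * |b|)) hβ hβM (by rwa [abs_neg]) hs
          (by
            rw [← mul_assoc]
            exact (mul_le_mul (hη.trans M2) hb b0 (by norm_num)).trans (by norm_num))
          fun s hs' => by
            have r1 := (hA M β b s M2 hβ hβM hb (hs'.trans hs)).2 β hβ hβM
            have r2 := (hA M β (-b) s M2 hβ hβM (by rwa [abs_neg]) (hs'.trans hs)).2 β hβ hβM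
            rw [sub_self, abs_zero, zero_add] at r1 r2
            rw [abs_neg, abs_sub_comm] at r2
            exact (abs_sub_le _ _ _).trans (by linarith)
        refine this.trans ?_
        rw [mul_assoc _ A]
        gcongr
        · linarith
        · norm_num
      · have d1 : |β - β₀| ≤ 1 / 64 := abs_sub_le_iff.2 ⟨by linarith, by linarith⟩
        have d0 := abs_nonneg (β - β₀)
        have p0 : 0 ≤ A * (M ^ 4 * (|β - β₀| + |b|)) := by positivity
        have r1 := L2 β₀ 0 σ (A * (M ^ 4 * (|β - β₀| + |b|))) g0 g1 (by simp) hs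
          (by
            rw [← mul_assoc]
            exact (mul_le_mul (hη.trans M2) (add_le_add d1 hb) (by positivity)
              (by norm_num)).trans (by norm_num))
          fun s hs' =>
            ((hA M β b s M2 hβ hβM hb (hs'.trans hs)).2 β₀ g0 g1).trans (by linarith)
        obtain ⟨q3, q4⟩ := L1 β₀ 0 σ g0 g1 (by simp) hs
        have r2 := Dist_three h (c := c) (by linarith) (by linarith) q3 q4 σ
        rw [← Dist_Ps g0 c 0 hσ, ← Dist_Ps g0 0 0 hσ] at r2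
        have e : Ps φ c β b σ - Ps φ 0 β₀ 0 σ - c * φ' σ =
            (Ps φ c β₀ 0 σ - Ps φ 0 β₀ 0 σ - c * φ' σ) + (Ps φ c β b σ - Ps φ c β₀ 0 σ) := by ring
        rw [e]
        refine (abs_add_le _ _).trans ((add_le_add r2 r1).trans ?_)
        have r3 : 63 * K * ((|c| + A * M ^ 4) * |c|) * exp (2 * σ) ≤
            (63 * K + 396) * (A * (|c| + M ^ 4) * |c|) * exp (2 * σ) := by
          gcongr; linarith
        have r4 : (27 * K + 36 * 11) * (A * (M ^ 4 * (|β - β₀| + |b|))) * exp (2 * σ) ≤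
            (63 * K + 396) * (A * (M ^ 4 * (|β - β₀| + |b|))) * exp (2 * σ) := by
          gcongr
          · linarith
          · norm_num
        linarith
    · have z0 : φ σ = 0 := h.zero σ (by linarith)
      have z1 : φ' σ = 0 := by
        refine (h.der σ).unique ((hasDerivAt_const σ (0 : ℝ)).congr_of_eventuallyEq ?_)
        filter_upwards [Ioi_mem_nhds (show -u0 < σ by linarith)] with x hx
        exact h.zero x (le_of_lt hx)
      have z2 : Ps φ c β b σ = 0 := by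
        rw [Ps, h.zero _ (Z β b c σ hβ hβM hb c1 hs hσ), zero_mul]
      have z3 : Ps φ c β (-b) σ = 0 := by
        rw [Ps, h.zero _ (Z β (-b) c σ hβ hβM (by rwa [abs_neg]) c1 hs hσ), zero_mul]
      refine ⟨?_, ?_, fun β₀ g0 g1 => ?_⟩
      · rw [z2, z0, sub_zero, abs_zero]; positivity
      · rw [z2, z3, sub_zero, abs_zero]; positivity
      · have z4 : Ps φ 0 β₀ 0 σ = 0 := by
          rw [Ps, h.zero _ (Z β₀ 0 0 σ g0 g1 (by simp) (by simpa using by positivity) hs hσ),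
            zero_mul]
        rw [z2, z4, z1, mul_zero, sub_zero, sub_zero, abs_zero]; positivity
  refine ⟨main, fun U hU ⟨C, hC⟩ => ?_⟩
  refine Dist_subst h h0 hβ (B := (63 * K + 396) * A * (|c| + M ^ 4) + 11) (fun σ hσ => ?_)
    (fun σ p1 p2 => Z β b c σ hβ hβM hb c1 p1 p2) (fun σ hσ => ?_) hU hC
  · have := abs_add_le (Ps φ c β b σ - φ σ) (φ σ)
    rw [sub_add_cancel] at this
    linarith [(main σ hσ).1, h.abs_le h0 σ]
  · have := (abs_le.1 (L1 β b σ hβ hβM hb hσ).1).2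
    rw [SS]
    linarith

end Pool.Agent.Work.MP_267827_an
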