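import Pool.Agent.Work.MP_267827_an.Split
import Pool.Agent.Work.MP_267827_an.Reg
import Pool.Agent.Work.MP_267827_an.Dist

/-! Transplantation of a test function from a good triangle to the half strip. -/

set_option autoImplicit false

namespace Pool.Agent.Work.MP_267827_an

open MeasureTheory Set Filter Topology Metric Real

theorem GoodGeo_ang {β b t : ℝ} (hβ : 0 < β) (hβ1 : β ≤ 1 / 64) (hb : |b| ≤ 1 / 64)
    (ht : t ∈ Icc 0 (π * β)) : |t - π * (β + b) / 2| ≤ π / 3 := by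
  have hb' := abs_le.1 hb
  have := pi_pos
  exact abs_le.2 ⟨by nlinarith [ht.1], by nlinarith [ht.2]⟩

theorem GoodGeo_cos {x : ℝ} (hx : |x| ≤ π / 3) : 1 / 2 ≤ cos x := by
  rw [← cos_abs x, ← cos_pi_div_three]
  exact cos_le_cos_of_nonneg_of_le_pi (abs_nonneg _) (by linarith [pi_pos]) hx

/-- polar form of a point in a closed sector -/
theorem GoodGeo_sector {θ : ℝ} (hθ : 0 < θ) {z : ℂ} (h0 : z ≠ 0) (h1 : 0 ≤ z.im)
    (h2 : (z * ei (-θ)).im ≤ 0) : ∃ ρ t : ℝ, t ∈ Icc 0 θ ∧ z = ρ * ei t := by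
  refine ⟨‖z‖, z.arg, ⟨Complex.arg_nonneg_iff.2 h1, ?_⟩, Reg_arg z⟩
  by_contra c
  rw [Reg_arg z, Reg_im] at h2
  have h3 := sin_pos_of_pos_of_lt_pi (x := z.arg - θ) (by linarith)
    (by linarith [Complex.arg_le_pi z])
  exact absurd h2 (not_le.2 (mul_pos (norm_pos_iff.2 h0) h3))

/-- near the edge of the half strip the image avoids the support -/
theorem GoodGeo_near {Γ S : Set ℂ} (hΓ : IsClosed Γ) (hc : IsCompact S) (hd : Disjoint S Γ)
    (O : ℂ) {β b a h : ℝ} (hβ : 0 < β) (hβ1 : β ≤ 1 / 64) (hb : |b| ≤ 1 / 64) (hh0 : 0 < h)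
    (hit : ∀ x ∈ Ioo a (a + π * β),
      O + ((h / cos (x - (a + π * (β + b) / 2)) : ℝ) : ℂ) * ei x ∈ Γ) :
    ∃ σ₀ : ℝ, σ₀ < 0 ∧ ∀ w : ℂ, σ₀ < w.re → w.re < 0 → 0 ≤ w.im → w.im ≤ π * β →
      O + ((h / hh β b : ℝ) * ei a) * FF β b w ∉ S := by
  have hθ : 0 < π * β := mul_pos pi_pos hβ
  have b1 : β ≤ 1 / 16 := by linarith
  have b2 : |b| ≤ 1 / 16 := by linarith
  have H0 := hh_pos hβ b1 b2
  obtain ⟨δ, hδ, hth⟩ := hc.exists_thickening_subset_open hΓ.isOpen_compl hd.subset_compl_right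
  have hit' : ∀ t ∈ Icc 0 (π * β),
      O + ((h / cos (t - π * (β + b) / 2) : ℝ) : ℂ) * ei (a + t) ∈ Γ := by
    intro t ht
    have c0 := GoodGeo_cos (GoodGeo_ang hβ hβ1 hb ht)
    have h1 : ContinuousAt (fun t : ℝ => h / cos (t - π * (β + b) / 2)) t :=
      continuousAt_const.div (by fun_prop) (by linarith)
    have h2 : ContinuousAt
        (fun t : ℝ => O + ((h / cos (t - π * (β + b) / 2) : ℝ) : ℂ) * ei (a + t)) t :=
      continuousAt_const.add ((Complex.continuous_ofReal.continuousAt.comp h1).mul (by fun_prop))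
    rw [← hΓ.closure_eq]
    refine h2.continuousWithinAt.mem_closure (s := Ioo 0 (π * β))
      (by rwa [closure_Ioo hθ.ne]) fun s hs => ?_
    have h3 := hit (a + s) ⟨by linarith [hs.1], by linarith [hs.2]⟩
    rwa [show a + s - (a + π * (β + b) / 2) = s - π * (β + b) / 2 by ring] at h3
  obtain ⟨k, hk⟩ : ∃ k, k = h / hh β b := ⟨_, rfl⟩
  have k0 : 0 < k := hk ▸ div_pos hh0 H0
  have hk' : h = k * hh β b := by rw [hk, div_mul_cancel₀ _ H0.ne']
  obtain ⟨σ₀, h0, hσ⟩ := FF_edge hβ b1 b2 (η := min (hh β b / 2) (δ / (4 * k)))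
    (lt_min (half_pos H0) (by positivity))
  refine ⟨σ₀, h0, fun w w0 w1 w2 w3 hS => ?_⟩
  have e1 := hσ w w0 w1 w2 w3
  obtain ⟨f1, f2, f3⟩ := FF_lt hβ b1 b2 w1 w2 w3
  have m1 := min_le_left (hh β b / 2) (δ / (4 * k))
  have m2 := min_le_right (hh β b / 2) (δ / (4 * k))
  have z0 : FF β b w ≠ 0 := fun c => by
    rw [c, zero_mul, Complex.zero_re] at e1
    linarith
  obtain ⟨ρ, t, ht, hz⟩ := GoodGeo_sector hθ z0 f1 f2
  rw [hz, Reg_re] at e1 f3
  have c0 := GoodGeo_cos (GoodGeo_ang hβ hβ1 hb ht)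
  refine hth (mem_thickening_iff.2 ⟨_, hS, ?_⟩) (hit' t ht)
  rw [← hk, hz, dist_eq_norm]
  obtain ⟨c, hc⟩ : ∃ c, c = cos (t - π * (β + b) / 2) := ⟨_, rfl⟩
  rw [← hc] at e1 f3 c0 ⊢
  have c1 : 0 < c := by linarith
  have e2 : O + ((h / c : ℝ) : ℂ) * ei (a + t) - (O + (k : ℂ) * ei a * ((ρ : ℂ) * ei t)) =
      ((h / c - k * ρ : ℝ) : ℂ) * ei (a + t) := by
    rw [ei_add]; push_cast; ring
  have e3 : h / c - k * ρ = k * (hh β b - ρ * c) / c := by
    rw [hk']; field_simp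
  rw [e2, norm_mul, norm_ei, mul_one, Complex.norm_real, e3,
    Real.norm_of_nonneg (div_nonneg (mul_nonneg k0.le (by linarith)) c1.le), div_lt_iff₀ c1]
  have e4 : k * (hh β b - ρ * c) ≤ k * (δ / (4 * k)) :=
    mul_le_mul_of_nonneg_left (by linarith) k0.le
  have e5 : k * (δ / (4 * k)) = δ / 4 := by field_simp
  nlinarith

theorem GoodGeo_der {β : ℝ} (hβ : 0 < β) (b : ℝ) (O A : ℂ) {w : ℂ} (hw : w.re < 0) :
    HasDerivAt (fun w => O + A * FF β b w) (A * GG β b w) w :=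
  ((FF_der hβ b hw).const_mul A).const_add O

theorem GoodGeo_chain {u : ℂ → ℝ} (hu : ContDiff ℝ 1 u) {β : ℝ} (hβ : 0 < β) (b : ℝ) (O A : ℂ)
    {p : ℝ × ℝ} (hp : p.1 < 0) :
    ds (fun p => u (O + A * FF β b (pt 1 (π * β) p))) p =
      fderiv ℝ u (O + A * FF β b (pt 1 (π * β) p)) (A * GG β b (pt 1 (π * β) p)) ∧
    dt (fun p => u (O + A * FF β b (pt 1 (π * β) p))) p = π * β *
      fderiv ℝ u (O + A * FF β b (pt 1 (π * β) p))
        (Complex.I * (A * GG β b (pt 1 (π * β) p))) := by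
  have h := chain (u := u) (F := fun w => O + A * FF β b w) (a := 1) (q := π * β) (p := p)
    (GoodGeo_der hβ b O A (by simpa using hp)) (hu.differentiable one_ne_zero _)
  rw [one_mul] at h
  exact h

theorem GoodGeo_VV {u : ℂ → ℝ} (hu : ContDiff ℝ 1 u) (hc : HasCompactSupport u) (O A : ℂ)
    {β b σ₀ : ℝ} (hβ : 0 < β) (hβ1 : β ≤ 1 / 64) (hb : |b| ≤ 1 / 64) (h0 : σ₀ < 0)
    (hσ : ∀ w : ℂ, σ₀ < w.re → w.re < 0 → 0 ≤ w.im → w.im ≤ π * β →
      O + A * FF β b w ∉ tsupport u) :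
    VV fun p => u (O + A * FF β b (pt 1 (π * β) p)) := by
  have hθ : 0 < π * β := mul_pos pi_pos hβ
  have hθ1 : π * β ≤ 1 := by nlinarith [pi_lt_four]
  have ho : IsOpen {w : ℂ | w.re < 0} := isOpen_lt Complex.continuous_re continuous_const
  constructor
  · have h1 : ContDiffOn ℂ 1 (fun w => O + A * FF β b w) {w : ℂ | w.re < 0} :=
      DifferentiableOn.contDiffOn
        (fun w hw => (GoodGeo_der hβ b O A hw).differentiableAt.differentiableWithinAt) ho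
    exact hu.comp_contDiffOn ((h1.restrict_scalars ℝ).comp (contDiff_pt 1 (π * β)).contDiffOn
      fun p hp => by simpa using hp)
  obtain ⟨C0, hC0⟩ := hu.continuous.bounded_above_of_compact_support hc
  obtain ⟨C1, hC1⟩ := (hu.continuous_fderiv one_ne_zero).bounded_above_of_compact_support
    (hc.fderiv ℝ)
  have c0 : 0 ≤ C0 := (norm_nonneg _).trans (hC0 0)
  have c1 : 0 ≤ C1 := (norm_nonneg _).trans (hC1 0)
  obtain ⟨m, hm⟩ : ∃ m, m = min (1 / 2) (1 - exp (σ₀ / β)) := ⟨_, rfl⟩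
  have m0 : 0 < m := hm ▸ lt_min (by norm_num)
    (sub_pos.2 (exp_lt_one_iff.2 (div_neg_of_neg_of_pos h0 hβ)))
  have m1 : m ≤ 1 / 2 := hm ▸ min_le_left _ _
  have m2 : m ≤ 1 - exp (σ₀ / β) := hm ▸ min_le_right _ _
  obtain ⟨C2, hC2⟩ : ∃ C2, C2 = C1 * (‖A‖ * exp (-(log m / 2))) := ⟨_, rfl⟩
  have c2 : 0 ≤ C2 := hC2 ▸ by positivity
  have c3 : 0 ≤ C0 / -σ₀ := div_nonneg c0 (by linarith)
  refine ⟨C0 + C0 / -σ₀ + C2, fun p hp ht => ?_⟩
  obtain ⟨e1, e2⟩ := GoodGeo_chain hu hβ b O A hp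
  have ex := exp_pos p.1
  rw [e1, e2]
  rcases lt_or_ge σ₀ p.1 with h1 | h1
  · have h2 := hσ (pt 1 (π * β) p) (by simpa using h1) (by simpa using hp)
      (by rw [pt_im]; exact mul_nonneg hθ.le ht.1)
      (by rw [pt_im]; exact mul_le_of_le_one_right hθ.le ht.2)
    rw [image_eq_zero_of_notMem_tsupport h2, fderiv_of_notMem_tsupport ℝ h2]
    simp only [ContinuousLinearMap.zero_apply, mul_zero, abs_zero]
    refine ⟨?_, ?_, ?_, ?_⟩ <;> positivity
  · have h2 : ‖GG β b (pt 1 (π * β) p)‖ ≤ exp (-(log m / 2)) * exp p.1 := by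
      have h3 := Conf_norm_le hβ (by linarith) (hb.trans (by norm_num)) (w := pt 1 (π * β) p)
        m0 m1 (by
          rw [pt_re, one_mul]
          have := exp_le_exp.2 (div_le_div_of_nonneg_right h1 hβ.le)
          linarith)
      rwa [pt_re, one_mul, sub_eq_neg_add, exp_add] at h3
    have h3 : ∀ z v : ℂ, ‖v‖ = ‖A‖ * ‖GG β b (pt 1 (π * β) p)‖ →
        |fderiv ℝ u z v| ≤ C2 * exp p.1 := by
      intro z v hv
      calc |fderiv ℝ u z v| ≤ ‖fderiv ℝ u z‖ * ‖v‖ := (fderiv ℝ u z).le_opNorm v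
        _ ≤ C1 * (‖A‖ * (exp (-(log m / 2)) * exp p.1)) := by
            rw [hv]
            exact mul_le_mul (hC1 z) (mul_le_mul_of_nonneg_left h2 (norm_nonneg _))
              (by positivity) c1
        _ = _ := by rw [hC2]; ring
    have h4 : C2 * exp p.1 ≤ (C0 + C0 / -σ₀ + C2) * exp p.1 :=
      mul_le_mul_of_nonneg_right (by linarith) ex.le
    have h5 : |u (O + A * FF β b (pt 1 (π * β) p))| ≤ C0 := hC0 _
    refine ⟨by linarith, h5.trans ?_, (h3 _ _ (norm_mul _ _)).trans h4, ?_⟩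
    · rw [abs_of_neg hp]
      have h6 : C0 / -σ₀ * -σ₀ = C0 := div_mul_cancel₀ _ (by linarith)
      have h7 : C0 / -σ₀ * -σ₀ ≤ C0 / -σ₀ * -p.1 := mul_le_mul_of_nonneg_left (by linarith) c3
      have h8 : 0 ≤ (C0 + C2) * -p.1 := mul_nonneg (by linarith) (by linarith)
      linarith
    · rw [abs_mul, abs_of_pos hθ]
      refine (mul_le_of_le_one_left (abs_nonneg _) hθ1).trans ((h3 _ _ ?_).trans h4)
      rw [norm_mul, norm_mul, Complex.norm_I, one_mul]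

/-- the two parametrisations have the same image -/
theorem GoodGeo_image (O : ℂ) {β b a h : ℝ} (hβ : 0 < β) (hβ1 : β ≤ 1 / 64) (hb : |b| ≤ 1 / 64)
    (hh0 : 0 < h) :
    (fun p : ℝ × ℝ => O + Complex.exp (pt 1 1 p)) ''
        {p | p.2 ∈ Ioo a (a + π * β) ∧ p.1 < log (h / cos (p.2 - (a + π * (β + b) / 2)))} =
      (fun p : ℝ × ℝ => O + ((h / hh β b : ℝ) * ei a) * FF β b (pt 1 (π * β) p)) ''
        (Iio 0 ×ˢ Ioo 0 1) := by
  have hθ : 0 < π * β := mul_pos pi_pos hβ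
  have b1 : β ≤ 1 / 16 := by linarith
  have b2 : |b| ≤ 1 / 16 := by linarith
  have H0 := hh_pos hβ b1 b2
  have hcos : ∀ t ∈ Ioo 0 (π * β), 0 < cos (t - π * (β + b) / 2) := fun t ht => by
    linarith [GoodGeo_cos (GoodGeo_ang hβ hβ1 hb (Ioo_subset_Icc_self ht))]
  have hT := (FF_image hβ b1 b2).trans (tri_polar hθ (by nlinarith [pi_pos]) H0 fun t ht =>
    (GoodGeo_ang hβ hβ1 hb (Ioo_subset_Icc_self ht)).trans_lt (by linarith [pi_pos]))
  have hl : ∀ t ∈ Ioo 0 (π * β), log (h / cos (t - π * (β + b) / 2)) =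
      log (h / hh β b) + log (hh β b / cos (t - π * (β + b) / 2)) := fun t ht => by
    have := hcos t ht
    rw [← log_mul (by positivity) (by positivity)]
    congr 1
    field_simp
  have he : ∀ s t : ℝ, Complex.exp (pt 1 1 (log (h / hh β b) + s, a + t)) =
      ((h / hh β b : ℝ) * ei a) * Complex.exp (pt 1 1 (s, t)) := fun s t => by
    rw [Reg_exp, Reg_exp, ei_add, exp_add, exp_log (div_pos hh0 H0)]
    push_cast
    ring
  ext z
  constructor
  · rintro ⟨⟨s, x⟩, ⟨h1, h2⟩, rfl⟩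
    obtain ⟨t, rfl⟩ : ∃ t, x = a + t := ⟨x - a, by ring⟩
    obtain ⟨r, rfl⟩ : ∃ r, s = log (h / hh β b) + r := ⟨s - log (h / hh β b), by ring⟩
    have ht : t ∈ Ioo 0 (π * β) := ⟨by linarith [h1.1], by linarith [h1.2]⟩
    simp only [show a + t - (a + π * (β + b) / 2) = t - π * (β + b) / 2 by ring] at h2
    rw [hl t ht] at h2
    obtain ⟨w, ⟨w0, w1, w2⟩, hw⟩ : Complex.exp (pt 1 1 (r, t)) ∈
        FF β b '' {w | w.re < 0 ∧ 0 < w.im ∧ w.im < π * β} :=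
      hT ▸ ⟨(r, t), ⟨ht, by linarith⟩, rfl⟩
    refine ⟨(w.re, w.im / (π * β)), ⟨w0, div_pos w1 hθ, (div_lt_one hθ).2 w2⟩, ?_⟩
    have e : pt 1 (π * β) (w.re, w.im / (π * β)) = w :=
      Complex.ext (by rw [pt_re, one_mul]) (by rw [pt_im, mul_div_cancel₀ _ hθ.ne'])
    simp only [e, hw, he]
  · rintro ⟨p, ⟨h1, h2⟩, rfl⟩
    obtain ⟨⟨r, t⟩, ⟨ht, hr⟩, hw⟩ : FF β b (pt 1 (π * β) p) ∈
        (fun p : ℝ × ℝ => Complex.exp (pt 1 1 p)) '' {p | p.2 ∈ Ioo 0 (π * β) ∧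
          p.1 < log (hh β b / cos (p.2 - π * (β + b) / 2))} :=
      hT ▸ ⟨_, ⟨by simpa using h1, by rw [pt_im]; exact mul_pos hθ h2.1,
        by rw [pt_im]; exact mul_lt_of_lt_one_right hθ h2.2⟩, rfl⟩
    refine ⟨(log (h / hh β b) + r, a + t), ⟨⟨by linarith [ht.1], by linarith [ht.2]⟩, ?_⟩, ?_⟩
    · simp only [show a + t - (a + π * (β + b) / 2) = t - π * (β + b) / 2 by ring]
      rw [hl t ht]
      exact add_lt_add_right hr _
    · simp only [he]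
      rw [← hw]

theorem GoodGeo_left {u : ℂ → ℝ} (hu : ContDiff ℝ 1 u) (O : ℂ) (lam : ℝ) {D : Set (ℝ × ℝ)}
    (hD : MeasurableSet D) {a θ : ℝ} (hθ : θ ≤ 1) (hD' : ∀ p ∈ D, p.2 ∈ Ioo a (a + θ)) :
    ∫ p in D, den u O lam p = ∫ z in (fun p : ℝ × ℝ => O + Complex.exp (pt 1 1 p)) '' D,
      (‖fderiv ℝ u z‖ ^ 2 - lam * u z ^ 2) := by
  have hF : ∀ w : ℂ, HasDerivAt (fun w => O + Complex.exp w) (Complex.exp w) w := fun w =>
    (Complex.hasDerivAt_exp w).const_add O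
  have inj : InjOn (fun p : ℝ × ℝ => O + Complex.exp (pt 1 1 p)) D := by
    intro p hp q hq e
    obtain ⟨n, hn⟩ := Complex.exp_eq_exp_iff_exists_int.1 (add_left_cancel e)
    have e1 := congrArg Complex.re hn
    have e2 := congrArg Complex.im hn
    simp at e1 e2
    have p1 := hD' p hp
    have q1 := hD' q hq
    have n0 : n = 0 := by
      have a1 : (n : ℝ) < 1 := by nlinarith [p1.1, p1.2, q1.1, q1.2, pi_gt_three]
      have a2 : (-1 : ℝ) < n := by nlinarith [p1.1, p1.2, q1.1, q1.2, pi_gt_three]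
      have a3 : n < 1 := by exact_mod_cast a1
      have a4 : -1 < n := by exact_mod_cast a2
      omega
    rw [n0] at e2
    exact Prod.ext e1 (by simpa using e2)
  rw [(cov (F := fun w => O + Complex.exp w) (F' := Complex.exp) hD one_pos one_pos
    (fun p _ => hF _) inj _).2.2]
  refine setIntegral_congr_fun hD fun p _ => ?_
  obtain ⟨e1, e2⟩ := chain (u := u) (F := fun w => O + Complex.exp w) (a := 1) (q := 1) (p := p)
    (hF _) (hu.differentiable one_ne_zero _)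
  have e3 := norm_sq_dual (fderiv ℝ u (O + Complex.exp (pt 1 1 p))) (Complex.exp (pt 1 1 p))
  have e4 : ‖Complex.exp (pt 1 1 p)‖ ^ 2 = exp (2 * p.1) := by
    rw [Complex.norm_exp, pt_re, one_mul, ← exp_nat_mul]
    norm_num
  have e5 : ds (UU u O) p = _ := e1
  have e6 : dt (UU u O) p = _ := e2
  simp only [den, e5, e6, UU, smul_eq_mul, one_mul]
  rw [e3, e4]
  ring

theorem GoodGeo_int {f : ℂ → ℝ} (hf : Continuous f) (hc : HasCompactSupport f) :
    Integrable fun z => f z ^ 2 := by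
  have h1 : Continuous fun z => f z ^ 2 := by fun_prop
  refine h1.integrable_of_hasCompactSupport (hc.mono fun z hz c => hz ?_)
  simp [c]

theorem GoodGeo_right {u : ℂ → ℝ} (hu : ContDiff ℝ 1 u) (hc : HasCompactSupport u) (O : ℂ)
    {A : ℂ} {β b c : ℝ} (hβ : 0 < β) (hβ1 : β ≤ 1 / 64) (hb : |b| ≤ 1 / 64)
    (hA : ‖A‖ = exp c) (hV : VV fun p => u (O + A * FF β b (pt 1 (π * β) p))) (lam : ℝ) :
    ∫ z in (fun p : ℝ × ℝ => O + A * FF β b (pt 1 (π * β) p)) '' (Iio 0 ×ˢ Ioo 0 1),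
      (‖fderiv ℝ u z‖ ^ 2 - lam * u z ^ 2) =
      QQ β b c lam fun p => u (O + A * FF β b (pt 1 (π * β) p)) := by
  have hθ : 0 < π * β := mul_pos pi_pos hβ
  have A0 : A ≠ 0 := norm_pos_iff.1 (hA ▸ exp_pos c)
  have hD : MeasurableSet (Iio (0 : ℝ) ×ˢ Ioo (0 : ℝ) 1) := measurableSet_Iio.prod measurableSet_Ioo
  have inj : InjOn (fun p : ℝ × ℝ => O + A * FF β b (pt 1 (π * β) p)) (Iio 0 ×ˢ Ioo 0 1) := by
    have hm : ∀ p : ℝ × ℝ, p ∈ Iio (0 : ℝ) ×ˢ Ioo (0 : ℝ) 1 →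
        pt 1 (π * β) p ∈ {w : ℂ | w.re < 0 ∧ 0 ≤ w.im ∧ w.im ≤ π * β} := fun p hp =>
      ⟨by simpa using hp.1, by rw [pt_im]; exact mul_nonneg hθ.le hp.2.1.le,
        by rw [pt_im]; exact mul_le_of_le_one_right hθ.le hp.2.2.le⟩
    intro p hp q hq e
    have e1 := FF_inj hβ (by linarith) (hb.trans (by norm_num)) (hm p hp) (hm q hq)
      (mul_left_cancel₀ A0 (add_left_cancel e))
    have e2 := congrArg Complex.re e1
    have e3 := congrArg Complex.im e1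
    rw [pt_re, pt_re, one_mul, one_mul] at e2
    rw [pt_im, pt_im] at e3
    exact Prod.ext e2 (mul_left_cancel₀ hθ.ne' e3)
  have hcov := fun g : ℂ → ℝ => cov (F := fun w => O + A * FF β b w)
    (F' := fun w => A * GG β b w) hD one_pos hθ
    (fun p hp => GoodGeo_der hβ b O A (by simpa using hp.1)) inj g
  have hnu : nu = volume.restrict (Iio (0 : ℝ) ×ˢ Ioo (0 : ℝ) 1) := by
    rw [nu, Measure.prod_restrict, ← Measure.volume_eq_prod]
  have hn : ∀ p : ℝ × ℝ, ‖A * GG β b (pt 1 (π * β) p)‖ ^ 2 =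
      exp (2 * c) * (exp (2 * p.1) * WW β b p) := fun p => by
    rw [norm_mul, mul_pow, norm_GG_sq hβ, hA, ← exp_nat_mul]
    norm_num
  obtain ⟨V, hVe⟩ : ∃ V : ℝ × ℝ → ℝ, V = fun p => u (O + A * FF β b (pt 1 (π * β) p)) := ⟨_, rfl⟩
  have hV' : ∀ p, u (O + A * FF β b (pt 1 (π * β) p)) = V p := fun p => by rw [hVe]
  have hE : ∀ p : ℝ × ℝ, p.1 < 0 → 1 * (π * β) * ‖A * GG β b (pt 1 (π * β) p)‖ ^ 2 *
      ‖fderiv ℝ u (O + A * FF β b (pt 1 (π * β) p))‖ ^ 2 =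
        π * β * ds V p ^ 2 + dt V p ^ 2 / (π * β) := fun p hp => by
    obtain ⟨e1, e2⟩ := GoodGeo_chain hu hβ b O A hp
    rw [hVe, e1, e2, mul_assoc _ (‖A * GG β b (pt 1 (π * β) p)‖ ^ 2), ← norm_sq_dual]
    field_simp
  rw [← hVe] at hV ⊢
  have ho : IsOpen {p : ℝ × ℝ | p.1 < 0} := isOpen_lt continuous_fst continuous_const
  have hm : ∀ v : ℝ × ℝ, AEStronglyMeasurable (fun p => fderiv ℝ V p v ^ 2)
      (volume.restrict (Iio (0 : ℝ) ×ˢ Ioo (0 : ℝ) 1)) := fun v =>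
    ((((hV.c1.continuousOn_fderiv_of_isOpen ho le_rfl).clm_apply continuousOn_const).pow 2).mono
      fun p hp => hp.1).aestronglyMeasurable hD
  have i0 : IntegrableOn (fun p => π * β * ds V p ^ 2 + dt V p ^ 2 / (π * β))
      (Iio (0 : ℝ) ×ˢ Ioo (0 : ℝ) 1) := by
    have h1 : Integrable fun z => ‖fderiv ℝ u z‖ ^ 2 :=
      GoodGeo_int (hu.continuous_fderiv one_ne_zero).norm (hc.fderiv ℝ).norm
    exact ((hcov _).2.1.1 h1.integrableOn).congr_fun (fun p hp => hE p hp.1) hD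
  have i1 : IntegrableOn (fun p => π * β * ds V p ^ 2) (Iio (0 : ℝ) ×ˢ Ioo (0 : ℝ) 1) :=
    i0.mono' ((hm (1, 0)).const_mul _) (ae_of_all _ fun p => by
      rw [Real.norm_of_nonneg (by positivity)]
      exact le_add_of_nonneg_right (by positivity))
  have i2 : IntegrableOn (fun p => dt V p ^ 2 / (π * β)) (Iio (0 : ℝ) ×ˢ Ioo (0 : ℝ) 1) :=
    (i0.sub i1).congr (ae_of_all _ fun p => by simp)
  have i3 : IntegrableOn (fun p => lam * exp (2 * c) * (π * β) *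
      (exp (2 * p.1) * WW β b p * V p ^ 2)) (Iio (0 : ℝ) ×ˢ Ioo (0 : ℝ) 1) := by
    have h1 : Integrable fun z => lam * u z ^ 2 := (GoodGeo_int hu.continuous hc).const_mul lam
    refine ((hcov _).2.1.1 h1.integrableOn).congr_fun (fun p _ => ?_) hD
    simp only [smul_eq_mul, hn, hV']
    ring
  rw [(hcov _).2.2, QQ, Ds, Dt, NW, hnu, ← integral_const_mul, ← integral_div,
    ← integral_const_mul, ← integral_add i1 i2, ← integral_sub i0 i3]
  refine setIntegral_congr_fun hD fun p hp => ?_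
  simp only [smul_eq_mul]
  rw [mul_sub, hE p hp.1, hn, hV']
  ring

theorem good_geo {Γ : Set ℂ} (hΓ : IsClosed Γ) {u : ℂ → ℝ} (hu : ContDiff ℝ 1 u)
    (hc : HasCompactSupport u) (hd : Disjoint (tsupport u) Γ) (O : ℂ) {β b a h s₁ : ℝ}
    (hβ : 0 < β) (hβ1 : β ≤ 1 / 64) (hb : |b| ≤ 1 / 64) (hh0 : 0 < h)
    (hit : ∀ x ∈ Ioo a (a + π * β),
      O + ((h / cos (x - (a + π * (β + b) / 2)) : ℝ) : ℂ) * ei x ∈ Γ)
    (hs : ∀ x ∈ Ioo a (a + π * β), log (h / cos (x - (a + π * (β + b) / 2))) ≤ s₁) :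
    ∃ V : ℝ × ℝ → ℝ, VV V ∧
      (∀ lam : ℝ, ∫ p in In s₁ a (a + π * β) (a + π * (β + b) / 2) h, den u O lam p =
        QQ β b (log (h / hh β b)) lam V) ∧
      (∀ σ, σ < 0 → V (σ, 0) = UU u O (log (h / hh β b) + SS β b σ, a)) ∧
      ∀ σ, σ < 0 → V (σ, 1) = UU u O (log (h / hh β b) + SS β (-b) σ, a + π * β) := by
  have H0 := hh_pos hβ (by linarith) (hb.trans (by norm_num))
  have k0 := div_pos hh0 H0
  obtain ⟨σ₀, h0, hσ⟩ := GoodGeo_near hΓ hc.isCompact hd O hβ hβ1 hb hh0 hit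
  have hV := GoodGeo_VV hu hc O _ hβ hβ1 hb h0 hσ
  refine ⟨_, hV, fun lam => ?_, fun σ h1 => ?_, fun σ h1 => ?_⟩
  · have e : In s₁ a (a + π * β) (a + π * (β + b) / 2) h = {p | p.2 ∈ Ioo a (a + π * β) ∧
        p.1 < log (h / cos (p.2 - (a + π * (β + b) / 2)))} := by
      ext p
      exact and_congr_right fun hp => by rw [s0, min_eq_left (hs _ hp)]
    rw [GoodGeo_left hu O lam (In_meas _ _ _ _ _) (θ := π * β) (by nlinarith [pi_lt_four])
      (fun p hp => hp.1), e, GoodGeo_image O hβ hβ1 hb hh0]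
    refine GoodGeo_right hu hc O hβ hβ1 hb ?_ hV lam
    rw [norm_mul, norm_ei, mul_one, Complex.norm_real, Real.norm_of_nonneg k0.le, exp_log k0]
  · have e : pt 1 (π * β) (σ, 0) = σ := by simp [pt]
    simp only [UU, e, FF_bot hβ b h1, Reg_exp, exp_add, exp_log k0]
    congr 2
    push_cast
    ring
  · have e : pt 1 (π * β) (σ, 1) = σ + (π * β : ℝ) * Complex.I := by simp [pt]
    simp only [UU, e, FF_top hβ b h1, Reg_exp, exp_add, exp_log k0, ei_add]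
    congr 2
    push_cast
    ring

end Pool.Agent.Work.MP_267827_an
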