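import Pool.Agent.Work.MP_267827_an.Moment

/-! The first moment over an arbitrary arc. -/

set_option autoImplicit false

namespace Pool.Agent.Work.MP_267827_an

open MeasureTheory Set Filter Topology Metric Real

theorem mg_nonneg (c₁ β₀ s₁ : ℝ) {a a' : ℝ} (ha : a ≤ a') (γ h : ℝ) :
    0 ≤ mg c₁ β₀ s₁ a a' γ h := by
  have : 0 ≤ a' - a := sub_nonneg.2 ha
  unfold mg Mg
  split_ifs <;> positivity

theorem cf_cont (c₁ β₀ s₁ : ℝ) {a a' γ h : ℝ} (hh : 0 < h)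
    (hγ : ∀ x ∈ Ioo a a', |x - γ| < π / 2) :
    ContinuousOn (cf c₁ β₀ s₁ a a' γ h) (Ioo a a') ∧
      ∃ K, ∀ x ∈ Ioo a a', |cf c₁ β₀ s₁ a a' γ h x| ≤ K := by
  by_cases g : Gd c₁ β₀ s₁ a a' γ h
  · have e : cf c₁ β₀ s₁ a a' γ h = fun _ => sc a a' γ h := funext fun x => if_pos g
    rw [e]
    exact ⟨continuousOn_const, _, fun _ _ => le_rfl⟩
  · have e : cf c₁ β₀ s₁ a a' γ h = s0 s₁ γ h := funext fun x => if_neg g
    rw [e]
    refine ⟨s0_cont s₁ hh hγ, |log h| + |s₁|, fun x hx => ?_⟩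
    have hx' := abs_lt.1 (hγ x hx)
    have hc : 0 < cos (x - γ) := cos_pos_of_mem_Ioo ⟨hx'.1, hx'.2⟩
    have h1 : log h ≤ log (h / cos (x - γ)) :=
      log_le_log hh ((le_div_iff₀ hc).2 (mul_le_of_le_one_right hh.le (cos_le_one _)))
    have a1 := neg_abs_le (log h)
    have a2 := neg_abs_le s₁
    have a3 := le_abs_self s₁
    have a4 := abs_nonneg (log h)
    have a5 := abs_nonneg s₁
    refine abs_le.2 ⟨le_min (by linarith) (by linarith), (min_le_right _ _).trans (by linarith)⟩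

theorem MomArc_good {η K β β₀ s₁ c M d b N : ℝ} (hη : 0 < η) (hβ : 0 < β) (hN : 0 ≤ N)
    (h0 : 0 < β₀) (hc : |c| ≤ 2 * s₁) (hs : s₁ ≤ 1 / 8) (hs' : 400 * K ^ 2 * s₁ ≤ η)
    (h1 : β₀ ≤ 1) (h2 : 4 * K ^ 2 * β₀ ≤ η) (h3 : 4 * K ^ 2 * β ≤ η)
    (h : N ≤ K * β * (c ^ 2 + β₀ * |c| + M * |d| + β * |b|)) :
    N ^ 2 ≤ η * (π * β) * (M ^ 2 * d ^ 2 + β ^ 2 * b ^ 2 + π * β * c ^ 2 + π * β * c ^ 2) := by
  have hπ : 3 ≤ π := pi_gt_three.le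
  have c0 := abs_nonneg c
  have hK := sq_nonneg K
  have e1 : c ^ 2 ≤ s₁ / 2 := by
    rw [← sq_abs]
    nlinarith
  have e2 : (c ^ 2 + β₀ * |c| + M * |d| + β * |b|) ^ 2 ≤
      4 * ((c ^ 2 + β₀ ^ 2) * c ^ 2 + (M ^ 2 * d ^ 2 + β ^ 2 * b ^ 2)) := by
    have four : ∀ w x y z : ℝ, (w + x + y + z) ^ 2 ≤ 4 * (w ^ 2 + x ^ 2 + y ^ 2 + z ^ 2) := by
      intro w x y z
      nlinarith [sq_nonneg (w - x), sq_nonneg (w - y), sq_nonneg (w - z), sq_nonneg (x - y),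
        sq_nonneg (x - z), sq_nonneg (y - z)]
    refine (four _ _ _ _).trans (le_of_eq ?_)
    simp only [mul_pow, sq_abs]
    ring
  have e3 : 4 * K ^ 2 * (c ^ 2 + β₀ ^ 2) ≤ 2 * η := by
    have : K ^ 2 * c ^ 2 ≤ K ^ 2 * (s₁ / 2) := mul_le_mul_of_nonneg_left e1 hK
    have : K ^ 2 * β₀ ^ 2 ≤ K ^ 2 * β₀ := mul_le_mul_of_nonneg_left (by nlinarith) hK
    nlinarith
  have e4 : N ^ 2 ≤ (K * β) ^ 2 *
      (4 * ((c ^ 2 + β₀ ^ 2) * c ^ 2 + (M ^ 2 * d ^ 2 + β ^ 2 * b ^ 2))) := by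
    refine (pow_le_pow_left₀ hN h 2).trans ?_
    rw [mul_pow (K * β)]
    exact mul_le_mul_of_nonneg_left e2 (sq_nonneg _)
  have p1 : 0 ≤ β ^ 2 * c ^ 2 := by positivity
  have p2 : 0 ≤ β * (M ^ 2 * d ^ 2 + β ^ 2 * b ^ 2) := by positivity
  have e5 := mul_le_mul_of_nonneg_right e3 p1
  have e6 := mul_le_mul_of_nonneg_right h3 p2
  have e7 : η * (β * (M ^ 2 * d ^ 2 + β ^ 2 * b ^ 2)) ≤
      π * (η * (β * (M ^ 2 * d ^ 2 + β ^ 2 * b ^ 2))) :=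
    le_mul_of_one_le_left (mul_nonneg hη.le p2) (by linarith)
  have e8 : η * (β ^ 2 * c ^ 2) ≤ π ^ 2 * (η * (β ^ 2 * c ^ 2)) :=
    le_mul_of_one_le_left (mul_nonneg hη.le p1) (by nlinarith)
  nlinarith

theorem MomArc_bad {η K θ β₀ s₁ I N : ℝ} (hη : 0 < η) (hK : 1 ≤ K) (hθ : 0 < θ) (hN : 0 ≤ N)
    (h0 : 0 < β₀) (hI0 : 0 ≤ I) (hI : I ≤ s₁ ^ 2 * θ) (hs0 : 0 < s₁) (hs : s₁ ≤ 1 / 8)
    (hs' : 400 * K ^ 2 * s₁ ≤ η) (h2 : 4 * K ^ 2 * β₀ ≤ η)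
    (h3 : 2 * K ^ 2 * θ ≤ η ∨ β₀ ^ 3 * θ ≤ I) (h : N ≤ 9 * I + K * β₀ ^ 2 * θ) :
    N ^ 2 ≤ η * θ * (β₀ ^ 4 + I) := by
  have e1 : N ^ 2 ≤ 162 * (I * I) + 2 * K ^ 2 * (β₀ ^ 4 * θ ^ 2) := by
    refine (pow_le_pow_left₀ hN h 2).trans ?_
    nlinarith [sq_nonneg (9 * I - K * β₀ ^ 2 * θ)]
  have e2 : 162 * s₁ ^ 2 ≤ η / 2 := by
    have : s₁ ≤ K ^ 2 * s₁ := le_mul_of_one_le_left hs0.le (by nlinarith)
    nlinarith
  have p1 : 0 ≤ θ * I := by positivity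
  have p2 : 0 ≤ θ * β₀ ^ 4 := by positivity
  have e3 : I * I ≤ s₁ ^ 2 * θ * I := mul_le_mul_of_nonneg_right hI hI0
  have e4 := mul_le_mul_of_nonneg_right e2 p1
  have q1 := mul_nonneg hη.le p1
  have q2 := mul_nonneg hη.le p2
  rcases h3 with h3 | h3
  · have e5 := mul_le_mul_of_nonneg_right h3 p2
    nlinarith
  · have e5 := mul_le_mul_of_nonneg_right h2 p1
    have e6 := mul_le_mul_of_nonneg_left h3 (show 0 ≤ 2 * K ^ 2 * β₀ * θ by positivity)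
    nlinarith

theorem mom_arc {η : ℝ} (hη : 0 < η) : ∃ δ : ℝ, 0 < δ ∧ ∀ s₁ c₁ : ℝ, 0 < s₁ → s₁ ≤ δ → 0 < c₁ →
    ∀ᶠ β₀ in 𝓝[>] (0 : ℝ), ∃ m₀ : ℝ, ∀ a a' γ h : ℝ, a < a' → 0 < h →
      (∀ x ∈ Ioo a a', |x - γ| < π / 2) → (∀ x ∈ Ioo a a', -s₁ ≤ log (h / cos (x - γ))) →
      ‖∫ x in Ioo a a', ((exp (3 * s0 s₁ γ h x) - m₀ - 3 * cf c₁ β₀ s₁ a a' γ h x : ℝ) : ℂ) *
          ei x‖ ^ 2 ≤
        η * (a' - a) * (mg c₁ β₀ s₁ a a' γ h + ∫ x in Ioo a a', cf c₁ β₀ s₁ a a' γ h x ^ 2) := by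
  obtain ⟨K, hK, hM⟩ := good_moment
  have K2 : 0 < K ^ 2 := by positivity
  refine ⟨min (1 / 8) (η / (400 * K ^ 2)), by positivity, fun s₁ c₁ hs hδ hc => ?_⟩
  have s1 : s₁ ≤ 1 / 8 := hδ.trans (min_le_left _ _)
  have s2 : 400 * K ^ 2 * s₁ ≤ η := by
    have := (le_div_iff₀ (by positivity)).1 (hδ.trans (min_le_right _ _))
    linarith
  filter_upwards [hM c₁ hc, good_c hs, three_point hs hc 1, ev_le one_pos, ev_small (4 * K ^ 2) hη,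
    ev_small ((4 * K ^ 2) ^ 2) (show 0 < η ^ 2 by positivity),
    ev_small (2 * K ^ 2 * (π * c₁)) hη] with β₀ H1 H2 H3 H4 H5 H6 H7
  obtain ⟨m₀, hm, H1⟩ := H1
  refine ⟨m₀, fun a a' γ h ha hh0 hγ hl => ?_⟩
  have hθ : 0 < a' - a := sub_pos.2 ha
  by_cases g : Gd c₁ β₀ s₁ a a' γ h
  · have e : cf c₁ β₀ s₁ a a' γ h = fun _ => sc a a' γ h := funext fun x => if_pos g
    have e' : mg c₁ β₀ s₁ a a' γ h = _ := if_pos g
    rw [e, e']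
    obtain ⟨g1, g2, g3, g4⟩ := g
    unfold sc
    obtain ⟨β, hβ⟩ : ∃ β, β = (a' - a) / π := ⟨_, rfl⟩
    obtain ⟨b, hb⟩ : ∃ b, b = 2 * (γ - a) / π - β := ⟨_, rfl⟩
    rw [← hβ] at g1 g2 g3 ⊢
    rw [← hb] at g3 ⊢
    have β0 : 0 < β := hβ ▸ div_pos hθ pi_pos
    obtain rfl : a' = a + π * β := by rw [hβ]; field_simp; ring
    obtain rfl : γ = a + π * (β + b) / 2 := by rw [hb]; field_simp; ring
    have c1 := H2 β b a h β0 g2 g3 hh0 fun x hx => abs_le.2 ⟨hl x hx, g4 x hx⟩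
    have c2 := H1 β b a h s₁ g1 g2 g3 hh0 (by linarith) g4
    have c3 : 4 * K ^ 2 * β ≤ η := by
      refine abs_le_of_sq_le_sq' ?_ hη.le |>.2
      rw [mul_pow]
      exact (mul_le_mul_of_nonneg_left g2 (sq_nonneg _)).trans H6
    have := MomArc_good hη β0 (norm_nonneg _) H4.1 c1 s1 s2 H4.2 H5 c3 c2
    refine this.trans (le_of_eq ?_)
    rw [setIntegral_const, Real.volume_real_Ioo_of_le ha.le, add_sub_cancel_left, smul_eq_mul, Mg]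
  · have e : cf c₁ β₀ s₁ a a' γ h = s0 s₁ γ h := funext fun x => if_neg g
    have e' : mg c₁ β₀ s₁ a a' γ h = _ := if_neg g
    rw [e, e']
    have hs0 : ∀ x ∈ Ioo a a', |s0 s₁ γ h x| ≤ s₁ := fun x hx =>
      abs_le.2 ⟨le_min (hl x hx) (by linarith), min_le_right _ _⟩
    have hsq : ∀ x ∈ Ioo a a', s0 s₁ γ h x ^ 2 ≤ s₁ ^ 2 := fun x hx => by
      rw [← sq_abs]
      exact pow_le_pow_left₀ (abs_nonneg _) (hs0 x hx) 2
    have ic : ∀ r : ℝ, IntegrableOn (fun _ => r) (Ioo a a') := fun r =>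
      integrableOn_const (by simp)
    have i2 : IntegrableOn (fun x => s0 s₁ γ h x ^ 2) (Ioo a a') :=
      (ic (s₁ ^ 2)).mono' (((s0_cont s₁ hh0 hγ).pow 2).aestronglyMeasurable measurableSet_Ioo)
        ((ae_restrict_iff' measurableSet_Ioo).2 (Eventually.of_forall fun x hx => by
          rw [Real.norm_of_nonneg (sq_nonneg _)]; exact hsq x hx))
    have cI : ∀ r : ℝ, ∫ _ in Ioo a a', r = r * (a' - a) := fun r => by
      rw [setIntegral_const, Real.volume_real_Ioo_of_le ha.le, smul_eq_mul, mul_comm]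
    refine MomArc_bad hη hK hθ (norm_nonneg _) H4.1 (integral_nonneg fun x => sq_nonneg _) ?_ hs s1
      s2 H5 ?_ ?_
    · rw [← cI]
      exact setIntegral_mono_on i2 (ic _) measurableSet_Ioo hsq
    · by_cases c : c₁ * β₀ ≤ (a' - a) / π
      · rcases H3 a a' γ h hh0 c hγ with h3 | h3
        · exact absurd ⟨c, h3⟩ g
        · exact Or.inr (by linarith)
      · have := (div_lt_iff₀ pi_pos).1 (not_le.1 c)
        have := mul_le_mul_of_nonneg_left this.le (show 0 ≤ 2 * K ^ 2 by positivity)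
        exact Or.inl (by linarith)
    · rw [← cI, ← integral_const_mul, ← integral_add (i2.const_mul 9) (ic _)]
      refine norm_integral_le_of_norm_le ((i2.const_mul 9).add (ic _))
        ((ae_restrict_iff' measurableSet_Ioo).2 (Eventually.of_forall fun x hx => ?_))
      have n1 : ‖ei x‖ = 1 := Complex.norm_exp_ofReal_mul_I x
      rw [norm_mul, n1, mul_one, Complex.norm_real, Real.norm_eq_abs]
      have b1 := abs_le.1 (hs0 x hx)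
      have b2 := abs_le.1 (Real.abs_exp_sub_one_sub_id_le (x := 3 * s0 s₁ γ h x)
        (abs_le.2 ⟨by linarith, by linarith⟩))
      have b3 := abs_le.1 hm
      exact abs_le.2 ⟨by linarith, by linarith⟩

end Pool.Agent.Work.MP_267827_an
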