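import Pool.Agent.Work.MP_267827_an.Good
import Pool.Agent.Work.MP_267827_an.GoodGeo
import Pool.Agent.Work.MP_267827_an.BadArc
import Pool.Agent.Work.MP_267827_an.MomArc

/-! The lower bound for the energy over an arbitrary arc. -/

set_option autoImplicit false

namespace Pool.Agent.Work.MP_267827_an

open MeasureTheory Set Filter Topology Metric Real

theorem arc_scale (F : ℝ → ℝ) (a : ℝ) {θ : ℝ} (hθ : 0 < θ) :
    ∫ x in Ioo a (a + θ), F ((x - a) / θ) = θ * ∫ t, F t ∂m1 := by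
  rw [← integral_Ioc_eq_integral_Ioo, ← integral_Ioc_eq_integral_Ioo,
    ← intervalIntegral.integral_of_le (by linarith), ← intervalIntegral.integral_of_le zero_le_one]
  have := intervalIntegral.integral_comp_div_sub (a := a) (b := a + θ) F hθ.ne' (a / θ)
  simp only [← sub_div, sub_self, add_sub_cancel_left, div_self hθ.ne',
    smul_eq_mul] at this
  exact this

theorem arc_mem {a θ x : ℝ} (hθ : 0 < θ) (hx : x ∈ Icc a (a + θ)) : (x - a) / θ ∈ Icc (0 : ℝ) 1 :=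
  ⟨div_nonneg (by linarith [hx.1]) hθ.le, (div_le_one hθ).2 (by linarith [hx.2])⟩

theorem arc_mem' {a θ x : ℝ} (hθ : 0 < θ) (hx : x ∈ Ioo a (a + θ)) : (x - a) / θ ∈ Ioo (0 : ℝ) 1 :=
  ⟨div_pos (by linarith [hx.1]) hθ, (div_lt_one hθ).2 (by linarith [hx.2])⟩

theorem arc_const (a : ℝ) {θ : ℝ} (hθ : 0 < θ) (c : ℝ) : ∫ _ in Ioo a (a + θ), c = θ * c := by
  simp [Real.volume_real_Ioo, hθ.le]

theorem arc_om {u0 K : ℝ} {φ φ' φ'' : ℝ → ℝ} (h : Wt u0 K φ φ' φ'') (h0 : 0 < u0)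
    (h1 : u0 ≤ 1 / 4) : ∃ C : ℝ, 0 ≤ C ∧ ∀ᶠ β₀ in 𝓝[>] (0 : ℝ),
      AEStronglyMeasurable (Ps φ 0 β₀ 0) m0 ∧ ∀ σ, σ < 0 → |Ps φ 0 β₀ 0 σ| ≤ C * exp (2 * σ) := by
  obtain ⟨K', δ, K1, δ0, -, δ1, hd⟩ := dist_est h h0 h1
  refine ⟨11 + K', by positivity, ?_⟩
  filter_upwards [ev_le δ0] with β₀ ⟨b0, b1⟩
  refine ⟨(Ps_cont h 0 b0 0).aestronglyMeasurable measurableSet_Iio, fun σ hσ => ?_⟩
  have a1 := ((hd β₀ β₀ 0 0 b1 b0 le_rfl (by norm_num) (by simpa using δ0.le)).1 σ hσ).1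
  have a2 := h.abs_le h0 σ
  have a3 : β₀ ^ 4 ≤ 1 := pow_le_one₀ b0.le (by linarith)
  have a4 : K' * (|(0 : ℝ)| + β₀ ^ 4) * exp (2 * σ) ≤ K' * exp (2 * σ) := by
    rw [abs_zero, zero_add]
    exact mul_le_mul_of_nonneg_right (mul_le_of_le_one_right (by linarith) a3) (exp_pos _).le
  have a5 := abs_add_le (Ps φ 0 β₀ 0 σ - φ σ) (φ σ)
  rw [sub_add_cancel] at a5
  linarith

theorem arc_good {u0 K : ℝ} {φ φ' φ'' : ℝ → ℝ} (h : Wt u0 K φ φ' φ'') (h0 : 0 < u0)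
    (h1 : u0 ≤ 1 / 4) {c0 δ₁ K₀ K₁ c' : ℝ} (ray : RayP φ c0 801 δ₁) (hc0 : 0 < c0) (hδ₁ : 0 < δ₁)
    (hK : 1 ≤ K₀) (hc' : 0 < c') : ∃ δ cg : ℝ, 0 < δ ∧ 0 < cg ∧ ∀ c₁ s₁ : ℝ, 0 < c₁ → 0 < s₁ →
    s₁ ≤ δ → ∀ᶠ β₀ in 𝓝[>] (0 : ℝ), ∀ (lam ε : ℝ) (v : ℝ × ℝ → ℝ) (bh al K0 : ℝ), 0 ≤ ε → ε ≤ 1 →
      Ref φ K₀ β₀ lam ε v → Mult K₁ c' β₀ lam v bh al K0 → ∀ μ cm Km Mb : ℝ, 0 ≤ μ → μ ≤ cg →
      cm ≤ cg → 8 * K₀ ≤ Km → 0 ≤ Mb → ∀ Γ : Set ℂ, IsClosed Γ → ∀ u : ℂ → ℝ, ContDiff ℝ 1 u →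
      HasCompactSupport u → Disjoint (tsupport u) Γ → ∀ (O : ℂ) (a a' γ h : ℝ), 0 < h →
      (∀ x ∈ Ioo a a', -s₁ ≤ log (h / cos (x - γ))) →
      (∀ x ∈ Ioo a a', O + ((h / cos (x - γ) : ℝ) : ℂ) * ei x ∈ Γ) → Gd c₁ β₀ s₁ a a' γ h →
      ∃ G G' G₂ G₂', ArcP φ cm Km Mb c₁ s₁ β₀ lam ε μ bh al K0
        (∫ σ, v (σ, 0) * Ps φ 0 β₀ 0 σ ∂m0) u O a a' γ h G G' G₂ G₂' := by
  obtain ⟨δg, cg, g0, cg0, hg⟩ := good (K₁ := K₁) h h0 h1 ray hc0 hδ₁ hK hc'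
  obtain ⟨K', δ, -, δ0, -, -, hd⟩ := dist_est h h0 h1
  obtain ⟨C, -, hC⟩ := arc_om h h0 h1
  refine ⟨min δg δ / 2, cg, by positivity, cg0, fun c₁ s₁ hc₁ s0' s1 => ?_⟩
  filter_upwards [hg c₁ hc₁, good_c s0', hC, ev_le (show 0 < δ ^ 2 by positivity),
    ev_le (show (0 : ℝ) < (1 / 64) ^ 4 by norm_num)]
    with β₀ kg kc ⟨m0', kC⟩ ⟨b0, b1⟩ ⟨_, b2⟩ lam ε v bh al K0 e0 e1 R M μ cm Km Mb μ0 μ1 cm1 Km1 Mb0
      Γ hΓ u hu hc hd' O a a' γ hh' h0' low hit gd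
  have pi0 := pi_pos
  obtain ⟨β, rfl⟩ : ∃ β, a' = a + π * β := ⟨(a' - a) / π, by field_simp; ring⟩
  obtain ⟨b, rfl⟩ : ∃ b, γ = a + π * (β + b) / 2 := ⟨2 * (γ - a) / π - β, by field_simp; ring⟩
  have eβ : (a + π * β - a) / π = β := by field_simp; ring
  have eb : 2 * (a + π * (β + b) / 2 - a) / π - β = b := by field_simp; ring
  have gd' := gd
  obtain ⟨g1, g2, g3, g4⟩ := gd'
  rw [eβ] at g1 g2 g3
  rw [eb] at g3
  have esc : sc a (a + π * β) (a + π * (β + b) / 2) hh' = log (hh' / hh β b) := by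
    rw [sc, eβ, eb]
  have β0 : 0 < β := lt_of_lt_of_le (by positivity) g1
  have β1 : β ≤ 1 / 64 := by nlinarith
  have β2 : β ≤ δ := (abs_le_of_sq_le_sq' (g2.trans b1) δ0.le).2
  have bb : |b| ≤ 1 / 64 := by
    refine le_of_pow_le_pow_left₀ (n := 4) (by norm_num) (by norm_num) ?_
    rw [pow_abs, abs_of_nonneg (by positivity)]
    exact g3.trans b2
  have θ0 : 0 < π * β := by positivity
  have hcs := kc β b a hh' β0 g2 g3 h0' fun x hx => abs_le.2 ⟨low x hx, g4 x hx⟩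
  set c := log (hh' / hh β b) with hcd
  have c1 : |c| ≤ δg := by linarith [min_le_left δg δ]
  have c2 : |c| ≤ δ := by linarith [min_le_right δg δ]
  obtain ⟨V, hV, en, v0, v1⟩ := good_geo hΓ hu hc hd' O β0 β1 bb h0' hit g4
  rw [← hcd] at en v0 v1
  obtain ⟨k1, k2⟩ := kg lam ε v bh al K0 e0 e1 R M β b c ⟨g1, g2, g3, c1⟩ V hV
  obtain ⟨CU, -, hU⟩ := UU_bd hu hc O
  have sub : ∀ b' x : ℝ, |b'| ≤ 1 / 64 →
      ∫ σ, UU u O (c + SS β b' σ, x) * Ps φ c β b' σ ∂m0 = Gp φ u O x := fun b' x hb' =>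
    (hd β β b' c β2 β0 le_rfl hb' c2).2 (fun s => UU u O (s, x))
      ((UU_contDiff hu O).continuous.comp (by fun_prop)) ⟨CU, fun s => (hU _).1⟩
  have τc : ContinuousOn (fun x => (x - a) / (π * β)) (Icc a (a + π * β)) := by fun_prop
  have cc : ∀ {F : ℝ → ℝ}, ContinuousOn F (Icc 0 1) →
      ContinuousOn (fun x => F ((x - a) / (π * β))) (Icc a (a + π * β)) := fun hF =>
    hF.comp τc fun x hx => arc_mem θ0 hx
  have dd : ∀ y, ∀ x ∈ Ioo a (a + π * β),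
      HasDerivAt (fun x => HG φ β₀ β b c y v V ((x - a) / (π * β)))
        (HG' φ β₀ β b c y v V ((x - a) / (π * β)) / (π * β)) x := fun y x hx => by
    have := ((k1 y).2.2 _ (arc_mem' θ0 hx)).comp x
      (((hasDerivAt_id' x).sub_const a).div_const (π * β))
    exact this.congr_deriv (by ring)
  refine ⟨fun x => HG φ β₀ β b c 0 v V ((x - a) / (π * β)),
    fun x => HG' φ β₀ β b c 0 v V ((x - a) / (π * β)) / (π * β),
    fun x => HG φ β₀ β b c 0 v V ((x - a) / (π * β)) - HG φ β₀ β b c 1 v V ((x - a) / (π * β)),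
    fun x => HG' φ β₀ β b c 0 v V ((x - a) / (π * β)) / (π * β) -
      HG' φ β₀ β b c 1 v V ((x - a) / (π * β)) / (π * β),
    ⟨cc (k1 0).1, (cc (k1 0).1).sub (cc (k1 1).1)⟩,
    fun x hx => ⟨dd 0 x hx, (dd 0 x hx).sub (dd 1 x hx)⟩, ?_, ?_, ?_, ?_, fun y => ?_⟩
  · obtain ⟨A, hA⟩ := isCompact_Icc.exists_bound_of_continuousOn
      ((cc (k1 0).2.1).div_const (π * β))
    obtain ⟨B, hB⟩ := isCompact_Icc.exists_bound_of_continuousOn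
      (((cc (k1 0).2.1).div_const (π * β)).sub ((cc (k1 1).2.1).div_const (π * β)))
    exact ⟨max A B, fun x hx => ⟨(hA x (Ioo_subset_Icc_self hx)).trans (le_max_left _ _),
      (hB x (Ioo_subset_Icc_self hx)).trans (le_max_right _ _)⟩⟩
  · simp only [HG, sub_self, zero_div, zero_mul, sub_zero, one_mul, add_zero, sub_sub_cancel,
      and_true]
    rw [← sub b a bb]
    exact integral_congr_ae (ae_m0 fun σ hσ => by simp only [v0 σ hσ])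
  · have e : (a + π * β - a) / (π * β) = 1 := by field_simp; ring
    have ev : ∀ σ, v (σ, 1) = v (σ, 0) := fun σ => by simpa using R.even σ 0
    simp only [HG, e, sub_self, zero_mul, sub_zero, one_mul, zero_add, sub_sub_cancel, ev, and_true]
    rw [← sub (-b) (a + π * β) (by rwa [abs_neg])]
    exact integral_congr_ae (ae_m0 fun σ hσ => by simp only [v1 σ hσ])
  · have e := arc_scale (fun t => ∫ σ, v (σ, t) * Ps φ 0 β₀ 0 σ ∂m0) a θ0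
    simp only [HG, zero_mul, sub_zero, one_mul, sub_sub_cancel]
    rw [e, ← (nu_fub (R.vv.int_ip m0' kC)).2, R.norm]
    exact mul_pos θ0 (phiJ_pos h h0)
  · have eH : ∀ t, HG φ β₀ β b c 0 v V t - y * (HG φ β₀ β b c 0 v V t - HG φ β₀ β b c 1 v V t) =
        HG φ β₀ β b c y v V t := fun t => by simp only [HG]; ring
    have eH' : ∀ t, (HG' φ β₀ β b c 0 v V t / (π * β) - y * (HG' φ β₀ β b c 0 v V t / (π * β) -
        HG' φ β₀ β b c 1 v V t / (π * β))) ^ 2 =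
        ((π * β) ^ 2)⁻¹ * HG' φ β₀ β b c y v V t ^ 2 := fun t => by
      simp only [HG']; field_simp; ring
    simp only [eH, eH', cf, mg, if_pos gd, esc, eβ, eb, integral_const_mul, arc_const a θ0]
    rw [arc_scale (fun t => HG' φ β₀ β b c y v V t ^ 2) a θ0,
      arc_scale (fun t => HG φ β₀ β b c y v V t ^ 2) a θ0, arc_scale (HG φ β₀ β b c y v V) a θ0,
      good_area β0 β1 bb h0' g4, en, add_sub_cancel_left]
    have k3 := k2 y μ μ0 μ1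
    have p1 : 0 ≤ Mb * ∫ x in Ioo a (a + π * β), UU u O (s₁, x) ^ 2 :=
      mul_nonneg Mb0 (integral_nonneg fun x => sq_nonneg _)
    have p2 : 0 ≤ y ^ 2 * ((cg - cm) * (Mg β₀ β b + π * β * c ^ 2)) :=
      mul_nonneg (sq_nonneg _) (mul_nonneg (by linarith) (add_nonneg (Mg_nonneg _ _ _)
        (by positivity)))
    have p3 : 0 ≤ y ^ 2 * ((Km - 8 * K₀) * μ * (π * β)) :=
      mul_nonneg (sq_nonneg _) (mul_nonneg (mul_nonneg (by linarith) μ0) θ0.le)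
    have e3 : ∀ I : ℝ, kap * (((π * β) ^ 2)⁻¹ * (π * β * I)) = kap / (π * β) * I := fun I => by
      field_simp
    rw [e3, ← hcd]
    linarith

theorem arc_all {u0 K : ℝ} {φ φ' φ'' : ℝ → ℝ} (h : Wt u0 K φ φ' φ'') (h0 : 0 < u0)
    (h1 : u0 ≤ 1 / 4) {c0 δ₁ K₀ K₁ c' : ℝ} (ray : RayP φ c0 801 δ₁) (hc0 : 0 < c0) (hδ₁ : 0 < δ₁)
    (hK : 1 ≤ K₀) (hK₁ : 1 ≤ K₁) (hc' : 0 < c') : ∃ δ cm Km Kb c₁ cμ : ℝ, 0 < δ ∧ 0 < cm ∧
    cm ≤ c' ∧ 0 < Km ∧ 0 < Kb ∧ 0 < c₁ ∧ 0 < cμ ∧ ∀ s₁ : ℝ, 0 < s₁ → s₁ ≤ δ →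
    ∀ᶠ β₀ in 𝓝[>] (0 : ℝ), ∀ (lam ε : ℝ) (v : ℝ × ℝ → ℝ) (bh al K0 : ℝ), 0 ≤ ε → ε ≤ 1 →
      Ref φ K₀ β₀ lam ε v → Mult K₁ c' β₀ lam v bh al K0 → ∀ μ : ℝ, 0 ≤ μ → μ ≤ cμ →
      ∃ ω : ℝ, ∀ Γ : Set ℂ, IsClosed Γ → ∀ u : ℂ → ℝ, ContDiff ℝ 1 u →
      HasCompactSupport u → Disjoint (tsupport u) Γ → ∀ (O : ℂ) (a a' γ h : ℝ), a < a' → 0 < h →
      (∀ x ∈ Ioo a a', |x - γ| < π / 2) → (∀ x ∈ Ioo a a', -s₁ ≤ log (h / cos (x - γ))) →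
      (∀ x ∈ Ioo a a', O + ((h / cos (x - γ) : ℝ) : ℂ) * ei x ∈ Γ) →
      ∃ G G' G₂ G₂', ArcP φ cm Km (Kb / s₁ ^ 2) c₁ s₁ β₀ lam ε μ bh al K0 ω u O a a' γ h
        G G' G₂ G₂' := by
  obtain ⟨δg, cg, g0, cg0, hg⟩ := arc_good (K₁ := K₁) h h0 h1 ray hc0 hδ₁ hK hc'
  obtain ⟨C, -, hC⟩ := arc_om h h0 h1
  have q0 : 0 ≤ C ^ 2 * K₀ := by positivity
  obtain ⟨δb, Kb, cb, δb0, Kb1, cb0, hb⟩ := bad_arc (K₁ := K₀ + K₁ + C ^ 2 * K₀) h h0 ray hc0 hδ₁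
    (by linarith)
  have pi0 := pi_pos
  have D0 := DD_pos
  have J0 := phiJ_pos h h0
  refine ⟨min δg δb, min cg (c' / 2), max Kb (8 * K₀), Kb, c' / (2 * π * Kb), min cg cb,
    by positivity, by positivity, (min_le_right _ _).trans (by linarith), by positivity,
    by positivity, by positivity, by positivity, fun s₁ s0' s1 => ?_⟩
  have c₁0 : 0 < c' / (2 * π * Kb) := by positivity
  filter_upwards [hg _ s₁ c₁0 s0' (s1.trans (min_le_left _ _)), hb, hC, ev_le one_pos,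
    three_point s0' c₁0 (100 * Kb / DD ^ 2),
    ev_small (C ^ 2 * K₀) (show 0 < (∫ σ, φ σ * JJ σ ∂m0) ^ 2 / 4 by positivity)]
    with β₀ kg kb ⟨m0', kC⟩ ⟨b0, b1⟩ k3 k4 lam ε v bh al K0 e0 e1 R M μ μ0 μ1
  refine ⟨∫ σ, v (σ, 0) * Ps φ 0 β₀ 0 σ ∂m0, fun Γ hΓ u hu hc hd O a a' γ hh' aa h0' ang low hit => ?_⟩
  by_cases gd : Gd (c' / (2 * π * Kb)) β₀ s₁ a a' γ hh'
  · exact kg lam ε v bh al K0 e0 e1 R M μ _ _ _ μ0 (μ1.trans (min_le_left _ _)) (min_le_left _ _)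
      (le_max_right _ _) (by positivity) Γ hΓ u hu hc hd O a a' γ hh' h0' low hit gd
  set ω := ∫ σ, v (σ, 0) * Ps φ 0 β₀ 0 σ ∂m0
  have b3 : 0 < β₀ ^ 3 := by positivity
  have w1 : (ω - ∫ σ, φ σ * JJ σ ∂m0) ^ 2 ≤ C ^ 2 * K₀ * β₀ ^ 3 := by
    have a1 := ((R.vv.proj m0' kC).2.2.2 0 ⟨le_rfl, zero_le_one⟩).2.2.2
    rw [R.norm] at a1
    have a2 : β₀ ^ 8 ≤ β₀ ^ 3 := pow_le_pow_of_le_one b0.le b1 (by norm_num)
    have a3 := mul_le_mul_of_nonneg_left R.dt_le (sq_nonneg C)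
    have a4 := mul_le_mul_of_nonneg_left a2 q0
    linarith
  have w2 : 0 < ω := by
    have a2 : β₀ ^ 3 ≤ β₀ ^ 1 := pow_le_pow_of_le_one b0.le b1 (by norm_num)
    have a4 := mul_le_mul_of_nonneg_left a2 q0
    by_contra hn
    nlinarith
  have K00 : 0 ≤ K₀ * β₀ ^ 3 := by positivity
  have K10 : 0 ≤ K₁ * β₀ ^ 3 := by positivity
  have K20 : 0 ≤ C ^ 2 * K₀ * β₀ ^ 3 := by positivity
  obtain ⟨d1, d2⟩ := Gp_der h h0 hu hc O
  refine ⟨Gp φ u O, Gp' φ u O, fun _ => ω, fun _ => 0,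
    ⟨fun x _ => (d1 x).continuousAt.continuousWithinAt, continuousOn_const⟩,
    fun x _ => ⟨d1 x, hasDerivAt_const _ _⟩, ?_, ⟨rfl, rfl⟩, ⟨rfl, rfl⟩, ?_, fun y => ?_⟩
  · obtain ⟨A, hA⟩ := isCompact_Icc.exists_bound_of_continuousOn (d2.continuousOn (s := Icc a a'))
    exact ⟨max A 0, fun x hx => ⟨(hA x (Ioo_subset_Icc_self hx)).trans (le_max_left _ _),
      by simp⟩⟩
  · simp only [setIntegral_const, smul_eq_mul, Real.volume_real_Ioo_of_le aa.le]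
    exact mul_pos (by linarith) w2
  have k5 := kb lam bh al ω μ (by linarith [R.le_lam]) R.lam_le (by linarith [M.bh_J])
    (by linarith [M.al_le]) (by linarith) μ0 (μ1.trans (min_le_right _ _)) u hu hc O a a' γ hh' s₁ y
    s0' (s1.trans (min_le_right _ _)) aa h0' ang low fun x hx =>
      image_eq_zero_of_notMem_tsupport fun c => disjoint_left.1 hd c (hit x hx)
  simp only [cf, mg, if_neg gd, mul_zero, sub_zero]
  have S0 : 0 ≤ ∫ x in Ioo a a', s0 s₁ γ hh' x ^ 2 := integral_nonneg fun x => sq_nonneg _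
  have θ0 : 0 < a' - a := by linarith
  have key : Kb * β₀ ^ 3 * (a' - a) ≤
      c' / 2 * β₀ ^ 4 + DD ^ 2 / 100 * ∫ x in Ioo a a', s0 s₁ γ hh' x ^ 2 := by
    have p1 : 0 ≤ DD ^ 2 / 100 * ∫ x in Ioo a a', s0 s₁ γ hh' x ^ 2 := by positivity
    have p2 : 0 ≤ c' / 2 * β₀ ^ 4 := by positivity
    by_cases t : c' / (2 * π * Kb) * β₀ ≤ (a' - a) / π
    · rcases k3 a a' γ hh' h0' t ang with g | g
      · exact absurd ⟨t, g⟩ gd
      · have := mul_le_mul_of_nonneg_left g (show 0 ≤ DD ^ 2 / 100 by positivity)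
        have e : DD ^ 2 / 100 * (100 * Kb / DD ^ 2 * β₀ ^ 3 * (a' - a)) =
            Kb * β₀ ^ 3 * (a' - a) := by field_simp
        linarith
    · have t1 := (div_lt_iff₀ pi0).1 (not_le.1 t)
      have t2 := mul_le_mul_of_nonneg_left t1.le (show 0 ≤ Kb * β₀ ^ 3 by positivity)
      have e : Kb * β₀ ^ 3 * (c' / (2 * π * Kb) * β₀ * π) = c' / 2 * β₀ ^ 4 := by field_simp
      linarith
  have p1 := mul_le_mul_of_nonneg_right (min_le_right cg (c' / 2))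
    (show 0 ≤ β₀ ^ 4 by positivity)
  have p2 := mul_le_mul_of_nonneg_right (le_max_left Kb (8 * K₀)) (mul_nonneg μ0 θ0.le)
  have p3 := mul_nonneg e0 θ0.le
  have p4 := mul_le_mul_of_nonneg_left (show K0 + min cg (c' / 2) * β₀ ^ 4 -
      (ε + max Kb (8 * K₀) * μ) * (a' - a) ≤ -(Kb * (β₀ ^ 3 + μ) * (a' - a)) +
      DD ^ 2 / 100 * ∫ x in Ioo a a', s0 s₁ γ hh' x ^ 2 by linarith [M.K0_le]) (sq_nonneg y)
  linarith

end Pool.Agent.Work.MP_267827_an
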