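import Pool.Agent.Work.MP_267827_an.Three

/-! Area and first moment of the visible part. -/

set_option autoImplicit false

namespace Pool.Agent.Work.MP_267827_an

open MeasureTheory Set Filter Topology Metric Real

theorem Area_diff {Q V : Set ℂ} (hQ : MeasurableSet Q) (hV : MeasurableSet V) (h : V ⊆ Q)
    (hf : volume Q ≠ ⊤) {O : ℂ} {R : ℝ} (hR : ∀ z ∈ Q, ‖z - O‖ ≤ R) :
    IntegrableOn (fun z => z - O) Q ∧
      ‖(∫ z in Q, (z - O)) - ∫ z in V, (z - O)‖ ≤ R * (volume.real Q - volume.real V) := by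
  have hi : IntegrableOn (fun z => z - O) Q :=
    Measure.integrableOn_of_bounded hf (by fun_prop) (ae_restrict_of_forall_mem hQ hR)
  refine ⟨hi, ?_⟩
  rw [← setIntegral_sdiff hV hi h, ← measureReal_sdiff h hV hf]
  exact norm_setIntegral_le_of_norm_le_const ((measure_mono sdiff_subset).trans_lt hf.lt_top)
    fun z hz => hR z hz.1

theorem Area_ball (O : ℂ) (r : ℝ) : ∫ z in ball O r, (z - O) = 0 := by
  rw [← integral_indicator measurableSet_ball]
  have h := integral_sub_left_eq_self ((ball O r).indicator fun z => z - O) volume (2 * O)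
  have e : ∀ z, (ball O r).indicator (fun z => z - O) (2 * O - z) =
      -(ball O r).indicator (fun z => z - O) z := fun z => by
    have : 2 * O - z ∈ ball O r ↔ z ∈ ball O r := by
      rw [mem_ball_iff_norm, mem_ball_iff_norm, ← norm_neg]
      ring_nf
    by_cases c : z ∈ ball O r
    · rw [indicator_of_mem c, indicator_of_mem (this.2 c)]; ring
    · rw [indicator_of_notMem c, indicator_of_notMem (mt this.1 c), neg_zero]
  simp only [e, integral_neg] at h
  linear_combination -h / 2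

theorem exists_centroid {P : Set ℂ} (hP : IsOpen P) {O₀ : ℂ} {δ : ℝ} (hδ : 0 < δ)
    (hδ1 : δ ≤ 1 / 20) (hb : closedBall O₀ (1 - δ) ⊆ P)
    (hvol : volume P ≤ ENNReal.ofReal (π * (1 + δ))) :
    ∃ O : ℂ, ‖O - O₀‖ ≤ 10 * δ ∧ ∫ z in P ∩ ball O₀ 2, (z - O) = 0 := by
  have hf : volume (P ∩ ball O₀ 2) ≠ ⊤ :=
    ((measure_mono inter_subset_right).trans_lt measure_ball_lt_top).ne
  have hB : ball O₀ (1 - δ) ⊆ P ∩ ball O₀ 2 :=
    subset_inter (ball_subset_closedBall.trans hb) (ball_subset_ball (by linarith))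
  obtain ⟨hi, hd⟩ := Area_diff (hP.inter isOpen_ball).measurableSet measurableSet_ball hB hf
    (O := O₀) (R := 2) fun z hz => (mem_ball_iff_norm.1 hz.2).le
  have h1 : volume.real (ball O₀ (1 - δ)) = (1 - δ) ^ 2 * π := by
    rw [measureReal_def, Complex.volume_ball]
    simp [ENNReal.toReal_ofReal (show 0 ≤ 1 - δ by linarith)]
  have h2 := measureReal_mono hB hf
  have h3 : volume.real (P ∩ ball O₀ 2) ≤ π * (1 + δ) :=
    ENNReal.toReal_le_of_le_ofReal (by positivity) ((measure_mono inter_subset_left).trans hvol)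
  rw [Area_ball, sub_zero, h1] at hd
  rw [h1] at h2
  set V := volume.real (P ∩ ball O₀ 2) with hV
  set I := ∫ z in P ∩ ball O₀ 2, (z - O₀) with hI
  have h4 : 9 / 10 * π ≤ V := le_trans (by gcongr; nlinarith) h2
  have V0 : 0 < V := by have := pi_pos; linarith
  refine ⟨O₀ + V⁻¹ • I, ?_, ?_⟩
  · rw [add_sub_cancel_left, norm_smul, norm_inv, Real.norm_of_nonneg V0.le, inv_mul_le_iff₀ V0]
    nlinarith [mul_pos pi_pos hδ, mul_pos pi_pos (mul_pos hδ hδ),
      mul_le_mul_of_nonneg_right h4 hδ.le]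
  · simp only [← sub_sub]
    rw [integral_sub hi (integrableOn_const hf), setIntegral_const, ← hV, ← hI, smul_smul,
      mul_inv_cancel₀ V0.ne', one_smul, sub_self]

theorem Area_fub {B : Type*} [NormedAddCommGroup B] [NormedSpace ℝ B] [CompleteSpace B]
    (s₁ a a' γ h : ℝ) {c : ℝ} (hc : 0 < c) {φ : ℝ → B} (hφ : Continuous φ) :
    IntegrableOn (fun p : ℝ × ℝ => exp (c * p.1) • φ p.2) (In s₁ a a' γ h) ∧
      ∫ p in In s₁ a a' γ h, exp (c * p.1) • φ p.2 =
        c⁻¹ • ∫ x in Ioo a a', exp (c * s0 s₁ γ h x) • φ x := by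
  have hi : IntegrableOn (fun p : ℝ × ℝ => exp (c * p.1) • φ p.2) (In s₁ a a' γ h) := by
    refine IntegrableOn.mono_set (t := Iic s₁ ×ˢ Icc a a') ?_ fun p hp =>
      ⟨hp.2.le.trans (min_le_right _ _), Ioo_subset_Icc_self hp.1⟩
    rw [IntegrableOn, Measure.volume_eq_prod, ← Measure.prod_restrict]
    exact (integrableOn_exp_mul_Iic hc s₁).smul_prod hφ.integrableOn_Icc
  refine ⟨hi, ?_⟩
  rw [← integral_indicator (In_meas _ _ _ _ _), Measure.volume_eq_prod,
    integral_prod_symm _ ((integrable_indicator_iff (In_meas _ _ _ _ _)).2 hi),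
    ← integral_smul, ← integral_indicator measurableSet_Ioo]
  refine integral_congr_ae (Eventually.of_forall fun x => ?_)
  by_cases hx : x ∈ Ioo a a'
  · have e : (fun s => (In s₁ a a' γ h).indicator (fun p : ℝ × ℝ => exp (c * p.1) • φ p.2) (s, x)) =
        (Iio (s0 s₁ γ h x)).indicator fun s => exp (c * s) • φ x := by
      funext s
      by_cases hs : s ∈ Iio (s0 s₁ γ h x)
      · rw [indicator_of_mem (show (s, x) ∈ In s₁ a a' γ h from ⟨hx, hs⟩), indicator_of_mem hs]
      · rw [indicator_of_notMem (show (s, x) ∉ In s₁ a a' γ h from fun k => hs k.2),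
          indicator_of_notMem hs]
    simp only [e, indicator_of_mem hx]
    rw [integral_indicator measurableSet_Iio, integral_smul_const, ← integral_Iic_eq_integral_Iio,
      integral_exp_mul_Iic hc, smul_smul, div_eq_inv_mul]
  · simp only [indicator_of_notMem hx]
    rw [← integral_zero ℝ B (μ := volume)]
    exact integral_congr_ae (Eventually.of_forall fun s =>
      indicator_of_notMem (show (s, x) ∉ In s₁ a a' γ h from fun k => hx k.1) _)

theorem Area_exp (p : ℝ × ℝ) : Complex.exp (pt 1 1 p) = (exp p.1 : ℝ) * ei p.2 := by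
  simp [pt, ei, Complex.exp_add]

theorem area_moment {n : ℕ} {v : Fin n → ℂ} {O : ℂ} {m : ℕ} {ϑ γ h : ℕ → ℝ} {e : ℕ → Fin n}
    (hA : Arcs v O m ϑ γ h e) {s₁ A : ℝ} (hs1 : s₁ ≤ 1 / 4) (hA0 : 0 ≤ A)
    (hvol : volume (Ins (Gam v)) = ENNReal.ofReal A) {O₀ : ℂ} (hO : ‖O - O₀‖ ≤ 1 / 2)
    (hcen : ∫ z in Ins (Gam v) ∩ ball O₀ 2, (z - O) = 0) :
    ∑ k ∈ Finset.range m, ∫ x in Ioo (ϑ k) (ϑ (k + 1)), exp (2 * s0 s₁ (γ k) (h k) x) ≤ 2 * A ∧
    ‖∑ k ∈ Finset.range m, ∫ x in Ioo (ϑ k) (ϑ (k + 1)),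
        (exp (3 * s0 s₁ (γ k) (h k) x) : ℝ) * ei x‖ ≤
      5 * (2 * A - ∑ k ∈ Finset.range m,
        ∫ x in Ioo (ϑ k) (ϑ (k + 1)), exp (2 * s0 s₁ (γ k) (h k) x)) := by
  have mono : ∀ j k, j ≤ k → k ≤ m → ϑ j ≤ ϑ k := fun j k hjk => by
    induction k, hjk using Nat.le_induction with
    | base => exact fun _ => le_rfl
    | succ k _ ih => exact fun hk => (ih (by omega)).trans (hA.mono k hk).le
  set D := ⋃ k ∈ Finset.range m, In s₁ (ϑ k) (ϑ (k + 1)) (γ k) (h k) with hD
  have hDm : MeasurableSet D := Finset.measurableSet_biUnion _ fun k _ => In_meas _ _ _ _ _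
  have mem : ∀ p ∈ D, ∃ k < m, p ∈ In s₁ (ϑ k) (ϑ (k + 1)) (γ k) (h k) := fun p hp => by
    simpa [hD] using hp
  have ang : ∀ p ∈ D, ϑ 0 < p.2 ∧ p.2 < ϑ 0 + 2 * π := fun p hp => by
    obtain ⟨k, hk, h1, -⟩ := mem p hp
    exact ⟨(mono 0 k k.zero_le hk.le).trans_lt h1.1, hA.per ▸ h1.2.trans_le (mono _ m hk le_rfl)⟩
  have inj : InjOn (fun p => (fun w => O + Complex.exp w) (pt 1 1 p)) D := fun p hp q hq e => by
    obtain ⟨j, hj⟩ := Complex.exp_eq_exp_iff_exists_int.1 (add_left_cancel e)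
    have e1 := congrArg Complex.re hj
    have e2 := congrArg Complex.im hj
    simp at e1 e2
    obtain ⟨a1, a2⟩ := ang p hp
    obtain ⟨a3, a4⟩ := ang q hq
    have j1 : (j : ℝ) < 1 := by nlinarith [pi_pos]
    have j2 : (-1 : ℝ) < j := by nlinarith [pi_pos]
    have : j = 0 := by
      have : j < 1 := by exact_mod_cast j1
      have : -1 < j := by exact_mod_cast j2
      omega
    exact Prod.ext e1 (by simpa [this] using e2)
  have der : ∀ p ∈ D, HasDerivAt (fun w => O + Complex.exp w) (Complex.exp (pt 1 1 p))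
      (pt 1 1 p) := fun p _ => (Complex.hasDerivAt_exp _).const_add O
  have split : ∀ {B : Type} [NormedAddCommGroup B] [NormedSpace ℝ B] [CompleteSpace B] {c : ℝ},
      0 < c → ∀ {φ : ℝ → B}, Continuous φ → ∫ p in D, exp (c * p.1) • φ p.2 =
        c⁻¹ • ∑ k ∈ Finset.range m,
          ∫ x in Ioo (ϑ k) (ϑ (k + 1)), exp (c * s0 s₁ (γ k) (h k) x) • φ x := by
    intro B _ _ _ c hc φ hφ
    rw [hD, integral_biUnion_finset _ (fun k _ => In_meas _ _ _ _ _) ?_
      fun k _ => (Area_fub _ _ _ _ _ hc hφ).1, Finset.smul_sum]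
    · exact Finset.sum_congr rfl fun k _ => (Area_fub _ _ _ _ _ hc hφ).2
    · intro j hj k hk ne
      have hj : j < m := by simpa using hj
      have hk : k < m := by simpa using hk
      refine disjoint_left.2 fun p h1 h2 => ?_
      rcases lt_or_gt_of_ne ne with c | c
      · linarith [mono _ _ c hk.le, h1.1.2, h2.1.1]
      · linarith [mono _ _ c hj.le, h1.1.1, h2.1.2]
  have nrm : ∀ p, ‖Complex.exp (pt 1 1 p)‖ = exp p.1 := fun p => by simp [Complex.norm_exp]
  obtain ⟨hVm, -, c1⟩ := cov hDm one_pos one_pos der inj fun _ => (1 : ℝ)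
  obtain ⟨-, -, c2⟩ := cov hDm one_pos one_pos der inj fun z => z - O
  set V := (fun p => (fun w => O + Complex.exp w) (pt 1 1 p)) '' D
  have e1 : volume.real V = 2⁻¹ * ∑ k ∈ Finset.range m,
      ∫ x in Ioo (ϑ k) (ϑ (k + 1)), exp (2 * s0 s₁ (γ k) (h k) x) := by
    have := split two_pos (continuous_const (y := (1 : ℝ)))
    simp only [smul_eq_mul, mul_one] at this c1
    rw [setIntegral_const, smul_eq_mul, mul_one] at c1
    rw [c1, ← this]
    refine integral_congr_ae (Eventually.of_forall fun p => ?_)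
    simp only [nrm, one_mul, two_mul, exp_add, sq]
  have e2 : ∫ z in V, (z - O) = (3 : ℝ)⁻¹ • ∑ k ∈ Finset.range m,
      ∫ x in Ioo (ϑ k) (ϑ (k + 1)), (exp (3 * s0 s₁ (γ k) (h k) x) : ℝ) * ei x := by
    have := split three_pos continuous_ei
    simp only [← Complex.real_smul]
    rw [c2, ← this]
    refine integral_congr_ae (Eventually.of_forall fun p => ?_)
    simp only [nrm, add_sub_cancel_left]
    rw [Area_exp, ← Complex.real_smul, smul_smul, show 3 * p.1 = p.1 + p.1 + p.1 by ring, exp_add,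
      exp_add]
    congr 1
    ring
  have sub : V ⊆ Ins (Gam v) ∩ ball O₀ 2 := by
    rintro _ ⟨p, hp, rfl⟩
    obtain ⟨k, hk, h1, h2⟩ := mem p hp
    obtain ⟨h2, h3⟩ := lt_min_iff.1 h2
    have hc : 0 < cos (p.2 - γ k) := cos_pos_of_mem_Ioo (abs_lt.1 (hA.ang k hk _ h1))
    refine ⟨?_, ?_⟩
    · simp only [Area_exp]
      exact hA.free k hk _ h1 _ (exp_pos _).le
        ((lt_log_iff_exp_lt (div_pos (hA.hpos k hk) hc)).1 h2)
    · rw [mem_ball_iff_norm, add_sub_right_comm]
      refine (norm_add_le _ _).trans_lt ?_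
      have b1 := add_one_le_exp (-p.1)
      have b2 : exp p.1 * exp (-p.1) = 1 := by rw [← exp_add]; simp
      rw [nrm]
      nlinarith [exp_pos p.1]
  have hf : volume (Ins (Gam v)) ≠ ⊤ := hvol ▸ ENNReal.ofReal_ne_top
  have hf' := measure_ne_top_of_subset (inter_subset_left (t := ball O₀ 2)) hf
  obtain ⟨-, hd⟩ := Area_diff ((isOpen_Ins (isClosed_Gam v)).inter isOpen_ball).measurableSet hVm
    sub hf' (O := O) (R := 5 / 2) fun z hz => by
      rw [show z - O = (z - O₀) - (O - O₀) by ring]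
      linarith [norm_sub_le (z - O₀) (O - O₀), mem_ball_iff_norm.1 hz.2]
  have b1 := measureReal_mono sub hf'
  have b2 := measureReal_mono (inter_subset_left (t := ball O₀ 2)) hf
  rw [measureReal_def (s := Ins (Gam v)), hvol, ENNReal.toReal_ofReal hA0] at b2
  rw [hcen, zero_sub, norm_neg, e2, norm_smul, e1, Real.norm_of_nonneg (by norm_num)] at hd
  rw [e1] at b1
  constructor <;> linarith

end Pool.Agent.Work.MP_267827_an
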