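import Pool.Agent.Work.MP_267827_an.PS.Final

/-! Polygons with at most `n` vertices, straight angles allowed. -/

set_option autoImplicit false

namespace Pool.Agent.Work.MP_267827_an

open MeasureTheory Set Filter Topology Metric Real

/-- distinct vertices, two different sides meet only in the common end of consecutive sides -/
def SimpleW {E : Type*} [NormedAddCommGroup E] [NormedSpace ℝ E] {m : ℕ} (v : Fin m → E) : Prop :=
  Function.Injective v ∧ ∀ i j : Fin m, i ≠ j → ∀ z ∈ edge v i, z ∈ edge v j →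
    (j = finRotate m i ∧ z = v j) ∨ (i = finRotate m j ∧ z = v i)

/-- the normalised statement in the complex plane -/
def CoreW (n : ℕ) : Prop :=
  ∃ r lam : ℝ, 0 < r ∧
    (∀ η : ℝ, 0 < η → ∃ u : ℂ → ℝ, Test (Ins (Gam (reg n r))) u ∧ u ≠ 0 ∧
      EE u ≤ (lam + η) * NN u) ∧
    ∀ m : ℕ, 3 ≤ m → m ≤ n → ∀ v : Fin m → ℂ, SimpleW v →
      volume (Ins (Gam v)) = volume (Ins (Gam (reg n r))) →
      (∃ (O : ℂ) (ϑ₀ : ℝ), Gam v = (fun z => O + ei ϑ₀ * z) '' Gam (reg n r)) ∨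
        ∃ μ : ℝ, 0 < μ ∧ ∀ u : ℂ → ℝ, Test (Ins (Gam v)) u → (lam + μ) * NN u ≤ EE u

namespace PS

theorem edges_simpW {m : ℕ} {v : Fin m → ℂ} (hm : 3 ≤ m) (hv : SimpleW v) : Simp (edges v) := by
  have h2 := hv.1
  have h1 : ∀ i, v i ≠ v (finRotate m i) := fun i e => Equal_rot_ne hm i (h2 e).symm
  refine ⟨?_, ?_, ?_⟩
  · rw [edges, List.map_ofFn]
    exact List.nodup_ofFn.2 h2
  · simp only [GFinal_mem]
    rintro _ ⟨i, rfl⟩ _ ⟨j, rfl⟩ h
    obtain rfl | h3 := eq_or_ne i j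
    · exact h1 i (left_mem_openSegment_iff.1 h)
    obtain ⟨rfl, -⟩ | ⟨-, e⟩ := hv.2 i j h3 _ (openSegment_subset_segment ℝ _ _ h)
      (left_mem_segment ℝ _ _)
    · exact h1 i (right_mem_openSegment_iff.1 h)
    · exact h3 (h2 e).symm
  · simp only [GFinal_mem]
    rintro _ ⟨i, rfl⟩ _ ⟨j, rfl⟩ h
    refine disjoint_left.2 fun z hi hj => ?_
    obtain ⟨-, rfl⟩ | ⟨-, rfl⟩ := hv.2 i j (fun e => h (by rw [e])) z
      (openSegment_subset_segment ℝ _ _ hi) (openSegment_subset_segment ℝ _ _ hj)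
    · exact h1 j (left_mem_openSegment_iff.1 hj)
    · exact h1 i (left_mem_openSegment_iff.1 hi)

theorem SP.pad {es : List (ℂ × ℂ)} (h : SP es) (k : ℕ) :
    ∃ es', SP es' ∧ GC es' = GC es ∧ es'.length = es.length + k := by
  induction k with
  | zero => exact ⟨es, h, rfl, rfl⟩
  | succ k ih =>
    obtain ⟨es', h1, h2, h3⟩ := ih
    rcases es' with _ | ⟨⟨p, q⟩, l⟩
    · exact absurd rfl h1.loop.ne_nil
    have hx := midpoint_mem_openSegment (𝕜 := ℝ) p q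
    refine ⟨_, h1.insert hx, (GC_insert (openSegment_subset_segment ℝ _ _ hx)).trans h2, ?_⟩
    simp only [List.length_cons] at h3 ⊢
    omega

theorem core_ofW {n : ℕ} (hn : 5 ≤ n) {g κ lam r : ℝ} (hg : 0 < g) (hκ : 0 < κ) (hl : 0 < lam)
    (hr : 0 < r) (hlam : lam * (n * (r ^ 2 * sin (2 * π / n) / 2)) = 2 * π * g - 2 * n * κ)
    (h1 : RIGHT n g κ) (h2 : OBT g κ)
    (hup : ∀ η : ℝ, 0 < η → ∃ u : ℂ → ℝ, Test (Ins (Gam (reg n r))) u ∧ u ≠ 0 ∧
      EE u ≤ (lam + η) * NN u) : CoreW n := by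
  have hn0 : (0 : ℝ) < n := by exact_mod_cast (by omega : 0 < n)
  obtain ⟨a1, a2⟩ := Reg_ang hn
  have hs : 0 < sin (π / n) := sin_pos_of_pos_of_lt_pi a1 (by linarith only [a1, a2, pi_pos])
  have hc : 0 < cos (π / n) := cos_pos_of_mem_Ioo ⟨by linarith only [a1, a2], a2⟩
  have h3 : sin (2 * π / n) = 2 * sin (π / n) * cos (π / n) := by
    rw [mul_div_assoc, sin_two_mul]
  have hC : Cst n g κ lam (2 * r * sin (π / n)) := by
    refine ⟨hn, hg, hκ, hl, by positivity, ?_, h1, h2⟩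
    have h4 : g * (π / n) - κ = lam * (r ^ 2 * (sin (π / n) * cos (π / n)) / 2) := by
      rw [h3] at hlam
      generalize sin (π / n) = x at *
      generalize cos (π / n) = y at *
      field_simp
      linear_combination -hlam
    rw [h4, tan_eq_sin_div_cos]
    field_simp
    ring
  refine ⟨r, lam, hr, hup, fun m hm hmn v hv hvol => ?_⟩
  obtain ⟨es₀, h₀, hG₀, hlen₀⟩ : ∃ es, SP es ∧ GC es = Gam v ∧ es.length = m := by
    obtain h | h := jordan (edges_loop (by omega) v) (edges_simpW hm hv)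
    · exact ⟨_, h, edges_GC v, edges_length v⟩
    · exact ⟨_, h, (GC_swap _).trans (edges_GC v), (List.length_map _).trans (edges_length v)⟩
  obtain ⟨es, h, hG, hlen⟩ := SP.pad h₀ (n - m)
  rw [hG₀] at hG
  rw [hlen₀, Nat.add_sub_cancel' hmn] at hlen
  have hI : IL es = Ins (Gam v) := hG ▸ h.ins
  have hA : sh es = n * (r ^ 2 * sin (2 * π / n) / 2) := by
    rw [← h.vol_real, Measure.real, hI, hvol, reg_vol hn hr, ENNReal.toReal_ofReal]
    rw [h3]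
    positivity
  obtain h4 | ⟨ϑ, a, l, h4, h5⟩ := top hC h (by rw [hA, hlam, hlen]; ring)
  · exact Or.inr (hI ▸ strict hl.le h.loop.isOpen_IL h.conn h.loop.bdd_IL (IL_disjoint es) h4)
  · have h6 := h4.length_eq
    rw [Ed_length, hlen] at h6
    rw [← hG, GC_perm h4]
    exact Or.inl (rig_regular hn hr (by simpa using h6.symm) h5 (sh_perm h4 ▸ hA))

theorem core_allW {n : ℕ} (hn : 5 ≤ n) : CoreW n := by
  obtain ⟨g, κ, lam, r, hg, hκ, hl, hr, h1, h2, h3⟩ := analysis hn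
  have hn' : (5 : ℝ) ≤ n := by exact_mod_cast hn
  have hs := sin_pos_of_pos_of_lt_pi (x := 2 * π / n) (by positivity)
    (by rw [div_lt_iff₀ (by linarith only [hn'])]; nlinarith only [hn', pi_pos])
  rw [Measure.real, reg_vol hn hr, ENNReal.toReal_ofReal (by positivity)] at h2
  refine core_ofW hn hg hκ hl hr h2 h1 (Srt.obt_of (fun a b ha ha' hb hb' hab => ?_) tri_cell
    fun _ _ _ h => h.symm) h3
  obtain ⟨Λ, k1, -, k2⟩ := acute hκ h1 ha ha' hb hb' hab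
  exact (k2.mono' k1).tri (by linarith only [ha, hb])

end PS

theorem TransferSim.simpleW {E F : Type*} [NormedAddCommGroup E] [InnerProductSpace ℝ E]
    [NormedAddCommGroup F] [InnerProductSpace ℝ F] {Φ : E ≃ₜ F} {s : ℝ} (h : TransferSim Φ s)
    {m : ℕ} {v : Fin m → E} (hv : SimpleW v) : SimpleW (Φ ∘ v) := by
  refine ⟨Φ.injective.comp hv.1, fun i j hij z hi hj => ?_⟩
  rw [h.edge] at hi hj
  obtain ⟨x, hx, rfl⟩ := hi
  exact (hv.2 i j hij x hx (Φ.injective.mem_set_image.1 hj)).imp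
    (fun k => ⟨k.1, congrArg Φ k.2⟩) fun k => ⟨k.1, congrArg Φ k.2⟩

theorem transfer_coreW {n m : ℕ} {r lam : ℝ}
    (h1 : ∀ η : ℝ, 0 < η → ∃ u : ℂ → ℝ, Test (Ins (Gam (reg n r))) u ∧ u ≠ 0 ∧
      EE u ≤ (lam + η) * NN u) {v : Fin m → ℂ}
    (hv : volume (Ins (Gam v)) = volume (Ins (Gam (reg n r))))
    (h2 : (∃ (O : ℂ) (ϑ₀ : ℝ), Gam v = (fun z => O + ei ϑ₀ * z) '' Gam (reg n r)) ∨
      ∃ μ : ℝ, 0 < μ ∧ ∀ u : ℂ → ℝ, Test (Ins (Gam v)) u → (lam + μ) * NN u ≤ EE u) :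
    sInf (TransferQ (Ins (Gam (reg n r)))) ≤ sInf (TransferQ (Ins (Gam v))) ∧
      (sInf (TransferQ (Ins (Gam v))) = sInf (TransferQ (Ins (Gam (reg n r)))) →
        ∃ Ψ : ℂ ≃ₜ ℂ, TransferSim Ψ 1 ∧ Ins (Gam v) = Ψ '' Ins (Gam (reg n r))) := by
  rcases h2 with ⟨O, ϑ, h2⟩ | ⟨μ, hμ, h2⟩
  · obtain ⟨Ψ, h3, h4⟩ := transfer_exists O one_pos (rotation (Circle.exp ϑ))
    have h5 : Ins (Gam v) = Ψ '' Ins (Gam (reg n r)) := by
      rw [← h3.ins, h2]
      congr 1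
      refine image_congr fun z _ => ?_
      rw [h4, one_smul, rotation_apply, Circle.coe_exp, ei]
    refine ⟨?_, fun _ => ⟨Ψ, h3, h5⟩⟩
    rw [h3.inf Complex.finrank_real_complex, h5]
    simp
  · have h3 : sInf (TransferQ (Ins (Gam (reg n r)))) ≤ lam := by
      refine le_of_forall_pos_le_add fun η hη => ?_
      obtain ⟨u, k1, k2, k3⟩ := h1 η hη
      exact (csInf_le (transfer_bdd _) ⟨u, k1, k2, rfl⟩).trans
        ((div_le_iff₀ (transfer_nn_pos k1 k2)).2 k3)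
    have h4 : (Ins (Gam v)).Nonempty := by
      obtain ⟨u, k1, k2, -⟩ := h1 1 one_pos
      obtain ⟨x, hx⟩ := Function.ne_iff.1 k2
      refine nonempty_of_measure_ne_zero (μ := volume) ?_
      rw [hv]
      exact ((isOpen_Ins (isClosed_Gam _)).measure_pos volume
        ⟨x, k1.2.2 (subset_closure hx)⟩).ne'
    have h5 : lam + μ ≤ sInf (TransferQ (Ins (Gam v))) := by
      refine le_csInf (transfer_ne (isOpen_Ins (isClosed_Gam _)) h4) ?_
      rintro _ ⟨u, k1, k2, rfl⟩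
      exact (le_div_iff₀ (transfer_nn_pos k1 k2)).2 (h2 u k1)
    exact ⟨by linarith, fun k => by linarith⟩

theorem transferW (n : ℕ) (h : CoreW n) (m : ℕ) (hm : 3 ≤ m) (hmn : m ≤ n) (r : ℝ) (hr : 0 < r)
    (v : Fin m → EuclideanSpace ℝ (Fin 2)) (hv : SimpleW v) (w : Fin n → EuclideanSpace ℝ (Fin 2))
    (hw : ∀ k : Fin n, w k = !₂[r * Real.cos (2 * Real.pi * ((k : ℕ) : ℝ) / (n : ℝ)),
      r * Real.sin (2 * Real.pi * ((k : ℕ) : ℝ) / (n : ℝ))])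
    (P R : Set (EuclideanSpace ℝ (Fin 2))) (hP' : P = Ins (Gam v)) (hR' : R = Ins (Gam w))
    (hvol : volume P = volume R) (lP lR : ℝ)
    (hlP : lP = sInf {q : ℝ | ∃ u : EuclideanSpace ℝ (Fin 2) → ℝ, ContDiff ℝ 1 u ∧
      HasCompactSupport u ∧ tsupport u ⊆ P ∧ u ≠ 0 ∧
      q = (∫ x, ‖fderiv ℝ u x‖ ^ 2) / (∫ x, u x ^ 2)})
    (hlR : lR = sInf {q : ℝ | ∃ u : EuclideanSpace ℝ (Fin 2) → ℝ, ContDiff ℝ 1 u ∧
      HasCompactSupport u ∧ tsupport u ⊆ R ∧ u ≠ 0 ∧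
      q = (∫ x, ‖fderiv ℝ u x‖ ^ 2) / (∫ x, u x ^ 2)}) :
    lR ≤ lP ∧
      (lP = lR → ∃ e : EuclideanSpace ℝ (Fin 2) ≃ᵢ EuclideanSpace ℝ (Fin 2), e '' P = R) := by
  obtain ⟨r₀, lam, hr₀, h1, h2⟩ := h
  have hs : 0 < r₀ / r := div_pos hr₀ hr
  obtain ⟨Φ, h3, h4⟩ := transfer_exists (0 : ℂ) hs Complex.orthonormalBasisOneI.repr.symm
  have hF := Complex.finrank_real_complex
  have h5 : Φ ∘ w = reg n r₀ := by
    funext k
    rw [Function.comp_apply, h4, hw k, Complex.orthonormalBasisOneI_repr_symm_apply, reg]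
    apply Complex.ext <;> simp [-Complex.ofReal_cos, -Complex.ofReal_sin] <;> field_simp
  have h6 : Ins (Gam (Φ ∘ v)) = Φ '' P := by rw [h3.gam, h3.ins, hP']
  have h7 : Ins (Gam (reg n r₀)) = Φ '' R := by rw [← h5, h3.gam, h3.ins, hR']
  have h8 : volume (Ins (Gam (Φ ∘ v))) = volume (Ins (Gam (reg n r₀))) := by
    rw [h6, h7, h3.vol hF, h3.vol hF, hvol]
  obtain ⟨h9, h10⟩ := transfer_coreW h1 h8 (h2 m hm hmn _ (h3.simpleW hv) h8)
  have hQ : ∀ A : Set (EuclideanSpace ℝ (Fin 2)),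
      {q : ℝ | ∃ u : EuclideanSpace ℝ (Fin 2) → ℝ, ContDiff ℝ 1 u ∧
        HasCompactSupport u ∧ tsupport u ⊆ A ∧ u ≠ 0 ∧
        q = (∫ x, ‖fderiv ℝ u x‖ ^ 2) / (∫ x, u x ^ 2)} = TransferQ A := by
    intro A
    ext q
    simp only [TransferQ, Test, EE, NN, mem_ofPred_eq, and_assoc]
  rw [hQ, h3.inf hF] at hlP hlR
  rw [h6, h7] at h9 h10
  refine ⟨?_, fun k => ?_⟩
  · rw [hlP, hlR]
    exact mul_le_mul_of_nonneg_left h9 (sq_nonneg _)
  · rw [hlP, hlR] at k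
    obtain ⟨Ψ, h11, h12⟩ := h10 (mul_left_cancel₀ (pow_pos hs 2).ne' k)
    refine ⟨⟨(Φ.trans (Ψ.symm.trans Φ.symm)).toEquiv, Isometry.of_dist_eq fun x y => ?_⟩, ?_⟩
    · change dist (Φ.symm (Ψ.symm (Φ x))) (Φ.symm (Ψ.symm (Φ y))) = _
      rw [h3.symm.dist_eq, h11.symm.dist_eq, h3.dist_eq]
      field_simp
    · change (fun x => Φ.symm (Ψ.symm (Φ x))) '' P = R
      rw [← image_image (fun z => Φ.symm (Ψ.symm z)) Φ, h12, image_image, image_image]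
      simp

end Pool.Agent.Work.MP_267827_an
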