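import Pool.Agent.Work.MP_267827_an.Defs

/-! The Brunn-Minkowski inequality for a set and a disc. -/

set_option autoImplicit false

namespace Pool.Agent.Work.MP_267827_an

open MeasureTheory Set Filter Topology Metric Real

theorem BM_one {S T U : Set ℝ} (hT : MeasurableSet T) (bS : Bornology.IsBounded S)
    (bT : Bornology.IsBounded T) (nS : S.Nonempty) (nT : T.Nonempty)
    (h : ∀ x ∈ S, ∀ y ∈ T, x + y ∈ U) : volume S + volume T ≤ volume U := by
  refine ENNReal.le_of_forall_pos_le_add fun δ hδ _ => ?_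
  have hδ' : (0 : ℝ) < δ / 2 := by positivity
  obtain ⟨s, hs, h1⟩ := exists_lt_of_lt_csSup nS (sub_lt_self (sSup S) hδ')
  obtain ⟨t, ht, h2⟩ := exists_lt_of_csInf_lt nT (lt_add_of_pos_right (sInf T) hδ')
  have e1 : volume ((fun z => z + -t) ⁻¹' S) = volume S := measure_preimage_add_right _ _ _
  have e2 : volume ((fun z => z + -s) ⁻¹' T) = volume T := measure_preimage_add_right _ _ _
  have m2 : MeasurableSet ((fun z => z + -s) ⁻¹' T) := (measurable_add_const _) hT
  rw [← e1, ← e2, ← measure_union_add_inter _ m2]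
  refine add_le_add (measure_mono ?_) ?_
  · rintro z (hz | hz)
    · simpa using h _ hz t ht
    · simpa using h s hs _ hz
  · refine (measure_mono (t := Icc (s + sInf T) (sSup S + t)) fun z hz => ?_).trans ?_
    · have h3 := le_csSup bS.bddAbove hz.1
      have h4 := csInf_le bT.bddBelow hz.2
      exact ⟨by linarith, by linarith⟩
    · rw [Real.volume_Icc, ← ENNReal.ofReal_coe_nnreal]
      exact ENNReal.ofReal_le_ofReal (by linarith)

theorem BM_fun {f g h : ℝ → ℝ} (mf : Measurable f) (mg : Measurable g) (mh : Measurable h)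
    (f0 : ∀ x, 0 ≤ f x) (g0 : ∀ x, 0 ≤ g x) (h0 : ∀ x, 0 ≤ h x) (f1 : ∀ x, f x ≤ 1)
    (g1 : ∀ x, g x ≤ 1) (f2 : ∀ t < 1, ∃ x, t < f x) (g2 : ∀ t < 1, ∃ x, t < g x)
    (bf : Bornology.IsBounded {x | 0 < f x}) (bg : Bornology.IsBounded {x | 0 < g x})
    (H : ∀ t x y, 0 < t → t < f x → t < g y → t < h (x + y)) :
    (∫⁻ x, ENNReal.ofReal (f x)) + (∫⁻ x, ENNReal.ofReal (g x)) ≤ ∫⁻ x, ENNReal.ofReal (h x) := by
  rw [lintegral_eq_lintegral_meas_lt _ (Eventually.of_forall f0) mf.aemeasurable,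
    lintegral_eq_lintegral_meas_lt _ (Eventually.of_forall g0) mg.aemeasurable,
    lintegral_eq_lintegral_meas_lt _ (Eventually.of_forall h0) mh.aemeasurable,
    ← lintegral_add_left]
  · refine setLIntegral_mono' measurableSet_Ioi fun t ht => ?_
    rcases lt_or_ge t 1 with h1 | h1
    · exact BM_one (S := {x | t < f x}) (T := {x | t < g x}) (measurableSet_lt measurable_const mg)
        (bf.subset fun x hx => lt_trans (mem_Ioi.1 ht) hx)
        (bg.subset fun x hx => lt_trans (mem_Ioi.1 ht) hx)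
        (f2 t h1) (g2 t h1) fun x hx y hy => H t x y ht hx hy
    · have e1 : {x | t < f x} = ∅ := eq_empty_of_forall_notMem fun x hx =>
        absurd ((f1 x).trans h1) (not_le.2 hx)
      have e2 : {x | t < g x} = ∅ := eq_empty_of_forall_notMem fun x hx =>
        absurd ((g1 x).trans h1) (not_le.2 hx)
      simp [e1, e2]
  · exact Antitone.measurable fun s t hst => measure_mono fun x hx => lt_of_le_of_lt hst hx

/-- The vertical section. -/
def BM_sec (S : Set ℂ) (x : ℝ) : Set ℝ := {y | (⟨x, y⟩ : ℂ) ∈ S}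

theorem BM_cont (x : ℝ) : Continuous fun y : ℝ => (⟨x, y⟩ : ℂ) := by
  have : (fun y : ℝ => (⟨x, y⟩ : ℂ)) = fun y : ℝ => (x : ℂ) + y * Complex.I := by
    funext y; apply Complex.ext <;> simp
  rw [this]; fun_prop

theorem BM_sec_bdd {S : Set ℂ} (hb : Bornology.IsBounded S) :
    ∃ R : ℝ, ∀ x y, y ∈ BM_sec S x → x ∈ Icc (-R) R ∧ y ∈ Icc (-R) R := by
  obtain ⟨R, hR⟩ := hb.exists_norm_le
  exact ⟨R, fun x y hy => ⟨abs_le.1 ((Complex.abs_re_le_norm ⟨x, y⟩).trans (hR _ hy)),
    abs_le.1 ((Complex.abs_im_le_norm ⟨x, y⟩).trans (hR _ hy))⟩⟩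

theorem BM_data {S : Set ℂ} (hS : IsOpen S) (hb : Bornology.IsBounded S) :
    (Measurable fun x => volume.real (BM_sec S x)) ∧ (∀ x, volume (BM_sec S x) ≠ ⊤) ∧
      (∀ x, Bornology.IsBounded (BM_sec S x)) ∧
      BddAbove (range fun x => volume.real (BM_sec S x)) ∧
      Bornology.IsBounded {x | 0 < volume.real (BM_sec S x)} ∧
      ∀ c : ℝ, 0 < c → ∫⁻ x, ENNReal.ofReal (volume.real (BM_sec S x) / c) =
        ENNReal.ofReal (volume.real S / c) := by
  obtain ⟨R, hR⟩ := BM_sec_bdd hb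
  have m : MeasurableSet (Complex.measurableEquivRealProd.symm ⁻¹' S) :=
    Complex.measurableEquivRealProd.symm.measurable hS.measurableSet
  have m1 : Measurable fun x => volume (BM_sec S x) := measurable_measure_prodMk_left m
  have hs : ∀ x, BM_sec S x ⊆ Icc (-R) R := fun x y hy => (hR x y hy).2
  have ht : ∀ x, volume (BM_sec S x) ≠ ⊤ := fun x =>
    ne_top_of_le_ne_top measure_Icc_lt_top.ne (measure_mono (hs x))
  refine ⟨m1.ennreal_toReal, ht, fun x => (isBounded_Icc _ _).subset (hs x),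
    ⟨volume.real (Icc (-R) R), ?_⟩, (isBounded_Icc (-R) R).subset fun x hx => ?_, fun c hc => ?_⟩
  · rintro _ ⟨x, rfl⟩
    exact measureReal_mono (hs x) measure_Icc_lt_top.ne
  · obtain ⟨y, hy⟩ := nonempty_of_measureReal_ne_zero (ne_of_gt hx)
    exact (hR x y hy).1
  · have e : volume S = ∫⁻ x, volume (BM_sec S x) := by
      rw [← (Complex.volume_preserving_equiv_real_prod.symm _).measure_preimage
        hS.measurableSet.nullMeasurableSet, Measure.volume_eq_prod, Measure.prod_apply m]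
      rfl
    simp only [ENNReal.ofReal_div_of_pos hc, ofReal_measureReal (ht _),
      ofReal_measureReal hb.measure_lt_top.ne, e]
    simp only [div_eq_mul_inv]
    rw [lintegral_mul_const _ m1]

theorem BM_gen {A B C : Set ℂ} (hA : IsOpen A) (hB : IsOpen B) (hC : IsOpen C)
    (bA : Bornology.IsBounded A) (bB : Bornology.IsBounded B) (bC : Bornology.IsBounded C)
    (nA : A.Nonempty) (nB : B.Nonempty) (H : ∀ x ∈ A, ∀ y ∈ B, x + y ∈ C) :
    (√(volume.real A) + √(volume.real B)) ^ 2 ≤ volume.real C := by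
  obtain ⟨a1, a2, a3, a4, a5, a6⟩ := BM_data hA bA
  obtain ⟨b1, b2, b3, b4, b5, b6⟩ := BM_data hB bB
  obtain ⟨c1, c2, -, -, -, c6⟩ := BM_data hC bC
  have pos : ∀ {S : Set ℂ}, IsOpen S → S.Nonempty → (∀ x, volume (BM_sec S x) ≠ ⊤) →
      BddAbove (range fun x => volume.real (BM_sec S x)) →
      0 < sSup (range fun x => volume.real (BM_sec S x)) := fun {S} h1 ⟨z, hz⟩ h2 h3 =>
    lt_of_lt_of_le (ENNReal.toReal_pos
      ((h1.preimage (BM_cont z.re)).measure_pos volume ⟨z.im, hz⟩).ne' (h2 z.re))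
      (le_csSup h3 ⟨z.re, rfl⟩)
  have hα := pos hA nA a2 a4
  have hβ := pos hB nB b2 b4
  set α := sSup (range fun x => volume.real (BM_sec A x))
  set β := sSup (range fun x => volume.real (BM_sec B x))
  have ex : ∀ {f : ℝ → ℝ}, 0 < sSup (range f) → ∀ t < 1, ∃ x, t < f x / sSup (range f) :=
    fun {f} h t ht => by
      obtain ⟨_, ⟨x, rfl⟩, hx⟩ := exists_lt_of_lt_csSup (range_nonempty f)
        (show t * sSup (range f) < sSup (range f) by nlinarith)
      exact ⟨x, (lt_div_iff₀ h).2 hx⟩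
  have key := BM_fun (f := fun x => volume.real (BM_sec A x) / α)
    (g := fun x => volume.real (BM_sec B x) / β) (h := fun x => volume.real (BM_sec C x) / (α + β))
    (a1.div_const _) (b1.div_const _) (c1.div_const _) (fun x => by positivity)
    (fun x => by positivity) (fun x => by positivity)
    (fun x => (div_le_one hα).2 (le_csSup a4 ⟨x, rfl⟩))
    (fun x => (div_le_one hβ).2 (le_csSup b4 ⟨x, rfl⟩)) (ex hα) (ex hβ)
    (a5.subset fun x hx => (div_pos_iff_of_pos_right hα).1 hx)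
    (b5.subset fun x hx => (div_pos_iff_of_pos_right hβ).1 hx) (fun t x y ht h1 h2 => by
      rw [lt_div_iff₀ hα] at h1
      rw [lt_div_iff₀ hβ] at h2
      rw [lt_div_iff₀ (add_pos hα hβ)]
      have h3 := BM_one (T := BM_sec B y) (U := BM_sec C (x + y))
        (hB.preimage (BM_cont y)).measurableSet (a3 x) (b3 y)
        (nonempty_of_measureReal_ne_zero (ne_of_gt ((mul_pos ht hα).trans h1)))
        (nonempty_of_measureReal_ne_zero (ne_of_gt ((mul_pos ht hβ).trans h2)))
        fun u hu v hv => H _ hu _ hv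
      have h4 := ENNReal.toReal_mono (c2 _) h3
      rw [ENNReal.toReal_add (a2 x) (b2 y)] at h4
      simp only [Measure.real] at h1 h2 ⊢
      linarith)
  rw [a6 _ hα, b6 _ hβ, c6 _ (add_pos hα hβ), ← ENNReal.ofReal_add (by positivity) (by positivity),
    ENNReal.ofReal_le_ofReal_iff (by positivity), le_div_iff₀ (add_pos hα hβ)] at key
  refine le_trans ?_ key
  rw [← sq_sqrt (measureReal_nonneg (μ := volume) (s := A)),
    ← sq_sqrt (measureReal_nonneg (μ := volume) (s := B)), sqrt_sq (sqrt_nonneg _),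
    sqrt_sq (sqrt_nonneg _)]
  set p := √(volume.real A)
  set q := √(volume.real B)
  have e : (p ^ 2 / α + q ^ 2 / β) * (α + β) - (p + q) ^ 2 = (p * β - q * α) ^ 2 / (α * β) := by
    field_simp; ring
  have : 0 ≤ (p * β - q * α) ^ 2 / (α * β) := by positivity
  linarith

theorem bm {A : Set ℂ} (hA : IsOpen A) (hb : Bornology.IsBounded A) (ne : A.Nonempty) {ε : ℝ}
    (hε : 0 < ε) : (√(volume.real A) + ε * √π) ^ 2 ≤ volume.real (thickening ε A) := by
  have h := BM_gen (B := ball (0 : ℂ) ε) (C := thickening ε A) hA isOpen_ball isOpen_thickening hb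
    isBounded_ball hb.thickening ne (nonempty_ball.2 hε) fun x hx y hy =>
      mem_thickening_iff.2 ⟨x, hx, by simpa [dist_eq_norm] using hy⟩
  have e : √(volume.real (ball (0 : ℂ) ε)) = ε * √π := by
    rw [Measure.real, Complex.volume_ball]
    simp [hε.le, sqrt_mul (sq_nonneg ε), sqrt_sq hε.le]
  rwa [e] at h

end Pool.Agent.Work.MP_267827_an
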