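import Pool.Agent.Work.MP_267827_an.TwoD
import Pool.Agent.Work.MP_267827_an.Dist

/-! The radial inequality on a single ray. -/

set_option autoImplicit false

namespace Pool.Agent.Work.MP_267827_an

open MeasureTheory Set Filter Topology Metric Real

theorem bad_young (x z : ℝ) {e : ℝ} (he : 0 < e) : 2 * (|x| * |z|) ≤ e * x ^ 2 + z ^ 2 / e := by
  have h : 0 ≤ (e * |x| - |z|) ^ 2 / e := by positivity
  have e1 : (e * |x| - |z|) ^ 2 / e = e * |x| ^ 2 + |z| ^ 2 / e - 2 * (|x| * |z|) := by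
    field_simp
    ring
  rw [e1, sq_abs, sq_abs] at h
  linarith

theorem bad_alg1 {D t u v c : ℝ} (D0 : 0 < D) (hu : u ^ 2 ≤ t) (hv : |v| ≤ 4 * |c|) :
    -(D ^ 2 / 1000 * c ^ 2 + 4000 / D ^ 2 * t) ≤ u * v := by
  have h1 := bad_young c u (e := D ^ 2 / 2000) (by positivity)
  have h2 : |u * v| ≤ |u| * (4 * |c|) := by
    rw [abs_mul]
    exact mul_le_mul_of_nonneg_left hv (abs_nonneg _)
  have h3 : u ^ 2 / (D ^ 2 / 2000) ≤ 2000 / D ^ 2 * t := by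
    rw [div_div_eq_mul_div, mul_comm, mul_div_right_comm]
    exact mul_le_mul_of_nonneg_left hu (by positivity)
  have h4 : 4000 / D ^ 2 * t = 2 * (2000 / D ^ 2 * t) := by ring
  have := neg_abs_le (u * v)
  linarith

theorem bad_alg2 {s t y P d : ℝ} (s0 : 0 ≤ s) (s1 : s ≤ t) (hP : |P| ≤ d) :
    -(t * (y ^ 2 + d ^ 2)) ≤ 2 * y * s * P := by
  have h1 : -(y ^ 2 + d ^ 2) ≤ 2 * y * P := by
    have := abs_le.1 hP
    nlinarith [sq_nonneg (y + P)]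
  have h2 := mul_le_mul_of_nonneg_left h1 s0
  have h3 : s * (y ^ 2 + d ^ 2) ≤ t * (y ^ 2 + d ^ 2) :=
    mul_le_mul_of_nonneg_right s1 (by positivity)
  linarith

theorem bad_alg4 {D c0 L y c b g Q d : ℝ} (D0 : 0 < D) (hc0 : 0 < c0) (hL : |L| ≤ 24)
    (hQ : |Q| ≤ |y| + |d|) (hb : b ^ 2 ≤ g ^ 2) (hy : |b| * |y| ≤ |g| * |y * c|) :
    L * (2 * b * Q + b ^ 2 / 2) ≤ c0 / 5 * d ^ 2 + D ^ 2 / 1000 * (y * c) ^ 2 +
      (12 + 2880 / c0 + 576000 / D ^ 2) * g ^ 2 := by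
  have h1 := bad_young d (24 * b) (e := c0 / 5) (by positivity)
  have h2 := bad_young (y * c) (24 * g) (e := D ^ 2 / 1000) (by positivity)
  have e1 : (24 * b) ^ 2 / (c0 / 5) = 2880 / c0 * b ^ 2 := by field_simp; ring
  have e2 : (24 * g) ^ 2 / (D ^ 2 / 1000) = 576000 / D ^ 2 * g ^ 2 := by field_simp; ring
  have h3 : 2880 / c0 * b ^ 2 ≤ 2880 / c0 * g ^ 2 := mul_le_mul_of_nonneg_left hb (by positivity)
  rw [e1, abs_mul 24, abs_of_pos (by norm_num : (0 : ℝ) < 24)] at h1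
  rw [e2, abs_mul 24, abs_of_pos (by norm_num : (0 : ℝ) < 24)] at h2
  have h4 : |2 * b * Q + b ^ 2 / 2| ≤ 2 * (|b| * (|y| + |d|)) + b ^ 2 / 2 := by
    refine (abs_add_le _ _).trans (add_le_add ?_ (abs_of_nonneg (by positivity)).le)
    rw [abs_mul, abs_mul, abs_two, mul_assoc]
    gcongr
  have h5 : |L * (2 * b * Q + b ^ 2 / 2)| ≤ 24 * (2 * (|b| * (|y| + |d|)) + b ^ 2 / 2) := by
    rw [abs_mul]
    gcongr
  have := le_abs_self (L * (2 * b * Q + b ^ 2 / 2))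
  nlinarith

theorem bad_alg5 {K s t c y b d A1 A2 A3 A4 : ℝ} (hs : K ^ 2 * c ^ 2 ≤ s)
    (h1 : |A1| ≤ 3 * K * |c| * d) (h2 : |A2| ≤ 3 * K * c ^ 2) (h3 : A3 ^ 2 ≤ t)
    (h4 : |A4| ≤ 33) :
    (A1 + y * A2 + y * A3 + b * A4) ^ 2 ≤
      36 * s * d ^ 2 + 36 * s * (y * c) ^ 2 + 4 * (t * y ^ 2) + 4356 * b ^ 2 := by
  have k1 : A1 ^ 2 ≤ 9 * s * d ^ 2 := by
    have := sq_le_sq' (abs_le.1 h1).1 (abs_le.1 h1).2
    have e : (3 * K * |c| * d) ^ 2 = 9 * (K ^ 2 * c ^ 2) * d ^ 2 := by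
      rw [mul_pow, mul_pow, sq_abs]; ring
    rw [e] at this
    exact this.trans (by gcongr)
  have k2 : (y * A2) ^ 2 ≤ 9 * s * (y * c) ^ 2 := by
    have := mul_le_mul_of_nonneg_left (sq_le_sq' (abs_le.1 h2).1 (abs_le.1 h2).2) (sq_nonneg y)
    have e : y ^ 2 * (3 * K * c ^ 2) ^ 2 = 9 * (K ^ 2 * c ^ 2) * (y * c) ^ 2 := by ring
    rw [e, ← mul_pow] at this
    exact this.trans (by gcongr)
  have k3 : (y * A3) ^ 2 ≤ t * y ^ 2 := by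
    rw [mul_pow, mul_comm]
    exact mul_le_mul_of_nonneg_right h3 (sq_nonneg y)
  have k4 : (b * A4) ^ 2 ≤ 1089 * b ^ 2 := by
    have := mul_le_mul_of_nonneg_left (sq_le_sq' (abs_le.1 h4).1 (abs_le.1 h4).2) (sq_nonneg b)
    rw [mul_pow]
    linarith
  generalize y * A2 = B2 at *
  generalize y * A3 = B3 at *
  generalize b * A4 = B4 at *
  nlinarith [sq_nonneg (A1 - B2), sq_nonneg (A1 - B3), sq_nonneg (A1 - B4), sq_nonneg (B2 - B3),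
    sq_nonneg (B2 - B4), sq_nonneg (B3 - B4)]

theorem bad_alg {j2 N D c0 K₁ Kb s t β μ lam bh al E c y b g P Q Nr d H Y : ℝ} (D0 : 0 < D)
    (hc0 : 0 < c0) (N0 : 0 ≤ N) (N1 : N ≤ 1 / 2) (j6 : j2 ≤ 6.0025) (j0 : 0 ≤ j2) (β0 : 0 ≤ β)
    (ht : t = K₁ * β) (t1 : t ≤ 1) (t2 : t ≤ c0 / 5) (l1 : j2 - t ≤ lam) (l2 : lam ≤ j2)
    (hb : (bh - lam * N) ^ 2 ≤ t) (ha : al - bh ≤ t) (μ0 : 0 ≤ μ) (μ1 : μ ≤ 1) (μ2 : μ ≤ c0 / 30)
    (E0 : 0 < E) (E1 : E ≤ 3) (E2 : |E - 1| ≤ 4 * |c|) (hP : |P| ≤ d) (hN : Nr ≤ d ^ 2)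
    (hQ : |Q| ≤ |y| + |d|) (hg : b ^ 2 ≤ g ^ 2) (hy : |b| * |y| ≤ |g| * |y * c|)
    (s1 : 28836 * s ≤ c0 / 5) (s2 : 28836 * s ≤ D ^ 2 / 1000)
    (hY : Y ^ 2 ≤ 36 * s * d ^ 2 + 36 * s * (y * c) ^ 2 + 4 * (t * y ^ 2) + 4356 * b ^ 2)
    (K1 : K₁ * (3206 + 4000 / D ^ 2) ≤ Kb) (K2 : 6 ≤ Kb)
    (K3 : 12 + 2880 / c0 + 576000 / D ^ 2 + 3489156 ≤ Kb)
    (ray : -(2 * (y * c * D) * H) + (y * c * D) ^ 2 * (4 + j2 / 6 - 1 / 200) - 1 / 200 * H ^ 2 +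
      c0 * d ^ 2 - 801 * Y ^ 2 ≤ d ^ 2 - lam * E * Nr - 2 * y * lam * (E - 1) * P) :
    y ^ 2 * (al - bh * E - Kb * (β + μ)) + (y * D) ^ 2 * (4 + j2 / 6 - 1 / 100) * c ^ 2 -
        1 / 200 * H ^ 2 - 2 * (y * D * c * H) - Kb * g ^ 2 ≤
      (y ^ 2 * (j2 * N) + 2 * y * (j2 * P) + d ^ 2) -
        (lam + μ) * E * (b ^ 2 / 2 + 2 * b * Q + (y ^ 2 * N + 2 * y * P + Nr)) := by
  have y2 := sq_nonneg y
  have h1 := mul_le_mul_of_nonneg_left (bad_alg1 D0 hb E2) y2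
  have h2 := bad_alg2 (y := y) (sub_nonneg.2 l2) (by linarith : j2 - lam ≤ t) hP
  have h3 : μ * E * (y ^ 2 * N + 2 * y * P + Nr) ≤ μ * 3 * (2 * y ^ 2 + 2 * d ^ 2) := by
    have k1 : y ^ 2 * N + 2 * y * P + Nr ≤ 2 * y ^ 2 + 2 * d ^ 2 := by
      have := sq_le_sq' (abs_le.1 hP).1 (abs_le.1 hP).2
      have := mul_le_mul_of_nonneg_left N1 y2
      have := two_mul_le_add_sq y P
      linarith
    exact (mul_le_mul_of_nonneg_left k1 (by positivity)).trans (by gcongr)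
  have h4 := bad_alg4 (L := (lam + μ) * E) D0 hc0 (by
    rw [abs_mul, abs_of_pos E0]
    have : |lam + μ| ≤ 8 := abs_le.2 ⟨by linarith, by linarith⟩
    exact (mul_le_mul this E1 E0.le (by norm_num)).trans (by norm_num)) hQ hg hy
  have d2 := sq_nonneg d
  have h5 := mul_le_mul_of_nonneg_right s1 d2
  have h6 := mul_le_mul_of_nonneg_right s2 (sq_nonneg (y * c))
  have h7 := mul_le_mul_of_nonneg_right t2 d2
  have h8 := mul_le_mul_of_nonneg_right μ2 d2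
  have h9 := mul_le_mul_of_nonneg_right ha y2
  have h10 : 0 ≤ y ^ 2 * (N * (j2 - lam)) := mul_nonneg y2 (mul_nonneg N0 (sub_nonneg.2 l2))
  have h11 := mul_le_mul_of_nonneg_right K1 (mul_nonneg β0 y2)
  have h12 := mul_le_mul_of_nonneg_right K2 (mul_nonneg μ0 y2)
  have h13 := mul_le_mul_of_nonneg_right K3 (sq_nonneg g)
  have h14 : 0 ≤ c0 * d ^ 2 := by positivity
  have h15 : 0 ≤ D ^ 2 * (y * c) ^ 2 := by positivity
  subst ht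
  generalize 4000 / D ^ 2 = a1 at *
  generalize 2880 / c0 = a2 at *
  generalize 576000 / D ^ 2 = a3 at *
  linarith

theorem bad_sqrt {x : ℝ} (h : x ≤ 1 / 2) : √x ≤ 1 := sqrt_le_one.2 (by linarith)

theorem bad_ray {u0 K : ℝ} {φ φ' φ'' : ℝ → ℝ} (h : Wt u0 K φ φ' φ'') (h0 : 0 < u0)
    {c0 δ₁ K₁ : ℝ} (ray : RayP φ c0 801 δ₁) (hc0 : 0 < c0) (hδ₁ : 0 < δ₁) (hK : 1 ≤ K₁) :
    ∃ δ Kb cb : ℝ, 0 < δ ∧ 1 ≤ Kb ∧ 0 < cb ∧ ∀ᶠ β₀ in 𝓝[>] (0 : ℝ), ∀ lam bh al ω μ : ℝ,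
      jj ^ 2 - K₁ * β₀ ^ 3 ≤ lam → lam ≤ jj ^ 2 → (bh - lam * NJ) ^ 2 ≤ K₁ * β₀ ^ 3 →
      al - bh ≤ K₁ * β₀ ^ 3 → (ω - ∫ σ, φ σ * JJ σ ∂m0) ^ 2 ≤ K₁ * β₀ ^ 3 → 0 ≤ μ → μ ≤ cb →
      ∀ f f' : ℝ → ℝ, V1 f f' → ∀ y c b₀ δ₂ H : ℝ, |c| ≤ δ → 0 < δ₂ → δ₂ ≤ 1 →
      (b₀ = 0 ∨ δ₂ ≤ |c|) → H = (∫ σ, (f σ + b₀) * φ (σ + c) ∂m0) - y * ω →
        y ^ 2 * (al - bh * exp (2 * c) - Kb * (β₀ ^ 3 + μ)) +
          (y * DD) ^ 2 * (4 + jj ^ 2 / 6 - 1 / 100) * c ^ 2 - 1 / 200 * H ^ 2 -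
          2 * (y * DD * c * H) - Kb / δ₂ ^ 2 * b₀ ^ 2 ≤
        (∫ σ, f' σ ^ 2 ∂m0) -
          (lam + μ) * exp (2 * c) * ∫ σ, exp (2 * σ) * (f σ + b₀) ^ 2 ∂m0 := by
  have D0 := DD_pos
  have K0 : 0 ≤ K := nonneg_of_mul_nonneg_left ((abs_nonneg _).trans (h.b1 0)) (exp_pos _)
  obtain ⟨δ, ⟨⟨δ0, δ1⟩, -, δ2⟩, δ3, δ4⟩ := (((ev_le hδ₁).and (ev_le (B := 1 / 2) (by norm_num))).and
    ((ev_small (28836 * K ^ 2) (B := c0 / 5) (by positivity)).and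
      (ev_small (28836 * K ^ 2) (B := DD ^ 2 / 1000) (by positivity)))).exists
  refine ⟨δ, K₁ * (3206 + 4000 / DD ^ 2) + (12 + 2880 / c0 + 576000 / DD ^ 2 + 3489156),
    min 1 (c0 / 30), δ0, ?_, by positivity, ?_⟩
  · have : 0 ≤ K₁ * (3206 + 4000 / DD ^ 2) := by positivity
    have : 0 ≤ 2880 / c0 + 576000 / DD ^ 2 := by positivity
    linarith
  filter_upwards [ev_le one_pos, ev_small K₁ hδ₁, ev_small K₁ one_pos,
    ev_small K₁ (B := c0 / 5) (by positivity)] with β₀ ⟨b0, b1⟩ b2 b3 b4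
  intro lam bh al ω μ l1 l2 hb ha hω μ0 μ1 f f' hf y c b₀ δ₂ H hc d0 d1 hd hH
  have b5 : K₁ * β₀ ^ 3 ≤ K₁ * β₀ := by
    refine mul_le_mul_of_nonneg_left ?_ (by linarith)
    exact pow_le_of_le_one b0.le b1 (by norm_num)
  obtain ⟨r, r', hr, ef, ef'⟩ : ∃ r r' : ℝ → ℝ, V1 r r' ∧ (∀ σ, f σ = y * JJ σ + r σ) ∧
      ∀ σ, f' σ = y * ZZ σ + r' σ :=
    ⟨_, _, V1.lin (-y) v1_JJ hf, fun σ => by ring, fun σ => by ring⟩
  have c1 : |c| ≤ 1 / 2 := hc.trans δ2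
  have c2 : |2 * c| ≤ 1 := by rw [abs_mul, abs_two]; linarith
  have E1 : exp (2 * c) ≤ 3 :=
    (exp_le_exp.2 (abs_le.1 c2).2).trans (exp_one_lt_d9.le.trans (by norm_num))
  have Dr0 : 0 ≤ ∫ σ, r' σ ^ 2 ∂m0 := integral_nonneg fun _ => sq_nonneg _
  have hd2 := sq_sqrt Dr0
  have R := ray r r' hr y c lam H (hc.trans δ1) (by linarith) l2
  have e2 := int_exp two_pos
  have eD : ∫ σ, f' σ ^ 2 ∂m0 = y ^ 2 * (jj ^ 2 * NJ) +
      2 * y * (jj ^ 2 * ∫ σ, exp (2 * σ) * (JJ σ * r σ) ∂m0) + ∫ σ, r' σ ^ 2 ∂m0 := by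
    simp only [ef']
    rw [int_sq_add' y v1_JJ.intD (v1_JJ.intDD hr) hr.intD, DJ_eq, ← hr.B_JJ]
    simp only [mul_comm (ZZ _)]
  have eN : ∫ σ, exp (2 * σ) * f σ ^ 2 ∂m0 = y ^ 2 * NJ +
      2 * y * (∫ σ, exp (2 * σ) * (JJ σ * r σ) ∂m0) + ∫ σ, exp (2 * σ) * r σ ^ 2 ∂m0 := by
    simp only [ef]
    rw [int_sq_add y v1_JJ.intN (v1_JJ.intNN hr) hr.intN, NJ]
  have eB : ∫ σ, exp (2 * σ) * (f σ + b₀) ^ 2 ∂m0 = b₀ ^ 2 / 2 +
      2 * b₀ * (∫ σ, exp (2 * σ) * f σ ∂m0) + ∫ σ, exp (2 * σ) * f σ ^ 2 ∂m0 := by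
    have := int_sq_add (μ := m0) (w := fun σ => exp (2 * σ)) (f := fun _ => 1) (g := f) b₀
      (by simpa using e2) (by simpa using hf.b0.int_mul e2) hf.intN
    simp only [mul_one, one_mul, one_pow, integral_exp0 two_pos, add_comm b₀] at this
    rw [this]
    ring
  have one2 : √(∫ σ, exp (2 * σ) * (1 : ℝ) ^ 2 ∂m0) ≤ 1 := bad_sqrt (by
    simp only [one_pow, mul_one, integral_exp0 two_pos, le_refl])
  have hP : |∫ σ, exp (2 * σ) * (JJ σ * r σ) ∂m0| ≤ √(∫ σ, r' σ ^ 2 ∂m0) := by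
    have := hr.ip_le (w := fun σ => exp (2 * σ) * JJ σ) (C := 1) fun σ _ => by
      rw [abs_mul, abs_of_pos (exp_pos _), mul_comm]
      exact mul_le_mul_of_nonneg_right (abs_JJ_le σ) (exp_pos _).le
    simpa only [mul_assoc, one_mul] using this
  have hQ : |∫ σ, exp (2 * σ) * f σ ∂m0| ≤ |y| + |√(∫ σ, r' σ ^ 2 ∂m0)| := by
    have k1 := hr.ip_le (w := fun σ => exp (2 * σ)) (C := 1) fun σ _ => by
      rw [abs_of_pos (exp_pos _), one_mul]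
    have k2 := ip_le_N b0_JJ (w := fun σ => exp (2 * σ)) (C := 1) fun σ _ => by
      rw [abs_of_pos (exp_pos _), one_mul]
    have k3 : ∫ σ, exp (2 * σ) * f σ ∂m0 =
        y * (∫ σ, exp (2 * σ) * JJ σ ∂m0) + ∫ σ, exp (2 * σ) * r σ ∂m0 := by
      rw [← integral_const_mul, ← integral_add ((b0_JJ.int_mul e2).const_mul _)
        (hr.b0.int_mul e2)]
      exact integral_congr_ae (Eventually.of_forall fun σ => by simp only [ef σ]; ring)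
    have k4 := mul_le_mul_of_nonneg_left (k2.trans ((one_mul _).le.trans (bad_sqrt NJ_le)))
      (abs_nonneg y)
    rw [k3]
    refine (abs_add_le _ _).trans ?_
    rw [abs_mul, abs_of_nonneg (sqrt_nonneg _)]
    linarith
  have φc : ∀ σ, |φ (σ + c)| ≤ 33 * exp (2 * σ) := fun σ => by
    refine (h.abs_le h0 _).trans ?_
    rw [mul_add, exp_add]
    linarith [mul_le_mul_of_nonneg_left E1 (exp_pos (2 * σ)).le]
  have iφ : Integrable (fun σ => φ (σ + c)) m0 :=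
    int_of_cont (h.cont.comp (by fun_prop)).continuousOn two_pos fun σ _ => φc σ
  have i1 := hr.b0.int_mul (isub iφ (h.int h0))
  have i2 := b0_JJ.int_mul (isub (isub iφ (h.int h0)) (h.int'.const_mul c))
  have i3 := b0_JJ.int_mul (h.int h0)
  have i4 := b0_JJ.int_mul h.int'
  have i5 := hr.b0.int_mul (h.int h0)
  have eY : H - ((∫ σ, φ σ * r σ ∂m0) - y * c * ∫ σ, φ σ * ZZ σ ∂m0) =
      (∫ σ, (φ (σ + c) - φ σ) * r σ ∂m0) +
        y * (∫ σ, (φ (σ + c) - φ σ - c * φ' σ) * JJ σ ∂m0) +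
        y * -(ω - ∫ σ, φ σ * JJ σ ∂m0) + b₀ * ∫ σ, φ (σ + c) * 1 ∂m0 := by
    have k : ∫ σ, (f σ + b₀) * φ (σ + c) ∂m0 = (∫ σ, (φ (σ + c) - φ σ) * r σ ∂m0) +
        y * (∫ σ, (φ (σ + c) - φ σ - c * φ' σ) * JJ σ ∂m0) + y * (∫ σ, φ σ * JJ σ ∂m0) +
        b₀ * (∫ σ, φ (σ + c) ∂m0) + (∫ σ, φ σ * r σ ∂m0) +
        y * c * ∫ σ, φ' σ * JJ σ ∂m0 := by
      rw [← integral_const_mul, ← integral_const_mul, ← integral_const_mul, ← integral_const_mul,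
        ← integral_add i1 (i2.const_mul _), ← integral_add (iadd i1 (i2.const_mul _))
          (i3.const_mul _), ← integral_add (iadd (iadd i1 (i2.const_mul _)) (i3.const_mul _))
          (iφ.const_mul _), ← integral_add (iadd (iadd (iadd i1 (i2.const_mul _))
          (i3.const_mul _)) (iφ.const_mul _)) i5, ← integral_add (iadd (iadd (iadd (iadd i1
          (i2.const_mul _)) (i3.const_mul _)) (iφ.const_mul _)) i5) (i4.const_mul _)]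
      exact integral_congr_ae (Eventually.of_forall fun σ => by simp only [ef σ]; ring)
    rw [hH, k, h.ibp h0]
    simp only [mul_one]
    ring
  have hY := bad_alg5 (y := y) (b := b₀) (s := K ^ 2 * δ) (K := K) (c := c)
    (mul_le_mul_of_nonneg_left (by
      rw [← sq_abs, pow_two]
      exact (mul_le_of_le_one_right (abs_nonneg c) (by linarith)).trans hc) (sq_nonneg K))
    (hr.ip_le fun σ _ => (shift_est h c1 σ).1)
    ((ip_le_N b0_JJ fun σ _ => (shift_est h c1 σ).2).trans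
      (mul_le_of_le_one_right (by positivity) (bad_sqrt NJ_le)))
    ((neg_sq _).trans_le hω)
    ((ip_le_N (B0.const 1) fun σ _ => φc σ).trans (mul_le_of_le_one_right (by norm_num) one2))
  rw [← eY] at hY
  rw [← hd2] at R
  have hg : b₀ ^ 2 ≤ (b₀ / δ₂) ^ 2 := by
    rw [div_pow, le_div_iff₀ (by positivity)]
    exact mul_le_of_le_one_right (sq_nonneg _) (pow_le_one₀ d0.le d1)
  have hy : |b₀| * |y| ≤ |b₀ / δ₂| * |y * c| := by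
    rcases hd with rfl | hd
    · simp
    · rw [abs_div, abs_mul, abs_of_pos d0, div_mul_eq_mul_div, le_div_iff₀ d0, mul_assoc]
      gcongr
  have p1 : 0 ≤ K₁ * (3206 + 4000 / DD ^ 2) := by positivity
  have p2 : 0 ≤ 2880 / c0 + 576000 / DD ^ 2 := by positivity
  have := bad_alg (Kb := K₁ * (3206 + 4000 / DD ^ 2) +
      (12 + 2880 / c0 + 576000 / DD ^ 2 + 3489156)) D0 hc0 NJ_pos.le NJ_le jj_sq_le (sq_nonneg _)
    (pow_pos b0 3).le rfl (b5.trans b3) (b5.trans b4) l1 l2 hb ha μ0 (μ1.trans (min_le_left _ _))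
    (μ1.trans (min_le_right _ _)) (exp_pos _) E1
    ((abs_exp_sub_one_le c2).trans (by rw [abs_mul, abs_two]; linarith)) hP
    (hr.N_le_D.trans hd2.ge) hQ hg hy (by linarith) (by linarith) hY (by linarith) (by linarith)
    (by linarith) R
  rw [hd2, ← eD, ← eN, ← eB, div_pow, ← mul_div_assoc, mul_div_right_comm] at this
  exact this

end Pool.Agent.Work.MP_267827_an
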