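import Pool.Agent.Work.MP_267827_an.Bessel

/-! The calibration inequality behind the Faber-Krahn inequality. -/

set_option autoImplicit false

namespace Pool.Agent.Work.MP_267827_an

open MeasureTheory Set Filter Topology Metric Real

/-- the numerator of the derivative of the logarithmic derivative -/
noncomputable def CalT (σ : ℝ) : ℝ := ZZ σ * JJ σ + ZZ σ ^ 2 + jj ^ 2 * exp (2 * σ) * JJ σ ^ 2

lemma Cal_exp2 (σ : ℝ) : HasDerivAt (fun x : ℝ => exp (2 * x)) (exp (2 * σ) * 2) σ := by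
  simpa using ((hasDerivAt_id σ).const_mul 2).exp

lemma CalT_der (σ : ℝ) :
    HasDerivAt CalT (ZZ σ ^ 2 + jj ^ 2 * exp (2 * σ) * JJ σ ^ 2) σ := by
  have h := (((ZZ_der σ).mul (JJ_der σ)).add ((ZZ_der σ).pow 2)).add
    (((Cal_exp2 σ).const_mul (jj ^ 2)).mul ((JJ_der σ).pow 2))
  convert! h using 1
  simp only [Pi.pow_apply, Nat.cast_ofNat, Nat.add_one_sub_one, pow_one]
  ring

lemma CalT_nonneg (σ : ℝ) : 0 ≤ CalT σ := by
  have hm : Monotone CalT := monotone_of_hasDerivAt_nonneg CalT_der fun x => by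
    simp only [Pi.zero_apply]
    positivity
  have he : Tendsto (fun x : ℝ => jj ^ 2 * exp (2 * x)) atBot (𝓝 0) := by
    have := (tendsto_exp_atBot.comp (tendsto_id.const_mul_atBot (show (0 : ℝ) < 2 by norm_num))).const_mul
      (jj ^ 2)
    simpa using this
  have hl : Tendsto (fun x : ℝ => -(jj ^ 2 * exp (2 * x))) atBot (𝓝 0) := by simpa using he.neg
  refine le_of_tendsto hl ?_
  filter_upwards [eventually_le_atBot σ] with x hx
  refine le_trans ?_ (hm hx)
  have h1 := abs_ZZ_le x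
  have h2 := abs_JJ_le x
  have h3 : |ZZ x * JJ x| ≤ jj ^ 2 * exp (2 * x) := by
    rw [abs_mul]
    exact (mul_le_of_le_one_right (abs_nonneg _) h2).trans h1
  have h4 := neg_abs_le (ZZ x * JJ x)
  have h5 : 0 ≤ ZZ x ^ 2 + jj ^ 2 * exp (2 * x) * JJ x ^ 2 := by positivity
  unfold CalT
  linarith

/-- the normalised logarithmic derivative -/
noncomputable def Calw (σ : ℝ) : ℝ := -(exp (-σ) * ZZ σ / JJ σ)

lemma Calw_der {σ : ℝ} (h : σ < 0) : HasDerivAt Calw (exp (-σ) * CalT σ / JJ σ ^ 2) σ := by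
  have hJ := (JJ_pos h).ne'
  have h1 : HasDerivAt (fun x : ℝ => exp (-x)) (-exp (-σ)) σ := by
    simpa using (hasDerivAt_neg σ).exp
  have h2 := ((h1.mul (ZZ_der σ)).div (JJ_der σ) hJ).neg
  convert! h2 using 1
  simp only [Pi.mul_apply, CalT]
  field_simp
  ring

lemma Calw_mono : MonotoneOn Calw (Iio 0) := by
  refine monotoneOn_of_hasDerivWithinAt_nonneg (f' := fun σ => exp (-σ) * CalT σ / JJ σ ^ 2)
    (convex_Iio 0) (fun x hx => (Calw_der hx).continuousAt.continuousWithinAt)
    (fun x hx => (Calw_der (mem_Iio.1 (interior_subset hx))).hasDerivWithinAt) fun x _ => ?_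
  have := CalT_nonneg x
  positivity

lemma Calw_pos {σ : ℝ} (h : σ < 0) : 0 < Calw σ := by
  have h1 := ZZ_neg h.le
  have h2 := JJ_pos h
  unfold Calw
  rw [neg_pos]
  exact div_neg_of_neg_of_pos (mul_neg_of_pos_of_neg (exp_pos _) h1) h2

lemma Cal_sig_neg {m₀ m : ℝ} (h₀ : 0 < m₀) (h1 : 0 < m) (h : m < m₀) : log (m / m₀) / 2 < 0 := by
  have := log_neg (div_pos h1 h₀) ((div_lt_one h₀).2 h)
  linarith

lemma Cal_om_eq {m₀ m : ℝ} (h₀ : 0 < m₀) (h1 : 0 < m) :
    om m₀ m = √(π / m₀) * Calw (log (m / m₀) / 2) := by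
  have h2 : √(π / m) = √(π / m₀) * exp (-(log (m / m₀) / 2)) := by
    have h3 : exp (-(log (m / m₀) / 2)) ^ 2 = m₀ / m := by
      rw [← exp_nat_mul, show ((2 : ℕ) : ℝ) * -(log (m / m₀) / 2) = -log (m / m₀) by
        push_cast; ring, exp_neg, exp_log (div_pos h1 h₀), inv_div]
    rw [sqrt_eq_iff_mul_self_eq (by positivity) (by positivity)]
    have h4 := mul_self_sqrt (show 0 ≤ π / m₀ by positivity)
    symm
    calc _ = (√(π / m₀) * √(π / m₀)) * exp (-(log (m / m₀) / 2)) ^ 2 := by ring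
      _ = π / m := by
        rw [h3, h4]
        field_simp
  rw [om, if_neg (not_le.2 h1), h2, Calw]
  ring

theorem om_nonneg {m₀ m : ℝ} (h₀ : 0 < m₀) (h : m < m₀) : 0 ≤ om m₀ m := by
  by_cases h1 : m ≤ 0
  · rw [om, if_pos h1]
  · rw [Cal_om_eq h₀ (not_le.1 h1)]
    exact mul_nonneg (sqrt_nonneg _) (Calw_pos (Cal_sig_neg h₀ (not_le.1 h1) h)).le

theorem om_mono {m₀ : ℝ} (h₀ : 0 < m₀) : MonotoneOn (om m₀) (Iio m₀) := by
  intro a ha b hb hab
  by_cases h1 : a ≤ 0
  · rw [om, if_pos h1]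
    exact om_nonneg h₀ hb
  · have h2 := not_le.1 h1
    have h3 := h2.trans_le hab
    rw [Cal_om_eq h₀ h2, Cal_om_eq h₀ h3]
    refine mul_le_mul_of_nonneg_left (Calw_mono (Cal_sig_neg h₀ h2 ha) (Cal_sig_neg h₀ h3 hb) ?_)
      (sqrt_nonneg _)
    have := log_le_log (div_pos h2 h₀) (div_le_div_of_nonneg_right hab h₀.le)
    linarith

theorem om_low : ∃ γ₀ : ℝ, 0 < γ₀ ∧ ∀ m₀ m : ℝ, 0 < m₀ → m₀ ≤ 2 * π → m₀ / 2 ≤ m → m < m₀ →
    γ₀ ≤ om m₀ m := by
  have h0 : log (1 / 2) / 2 < 0 := Cal_sig_neg two_pos one_pos one_lt_two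
  refine ⟨√(1 / 2) * Calw (log (1 / 2) / 2), mul_pos (sqrt_pos.2 (by norm_num)) (Calw_pos h0),
    fun m₀ m h₀ h1 h2 h3 => ?_⟩
  have h4 : 0 < m := by linarith
  rw [Cal_om_eq h₀ h4]
  refine mul_le_mul (sqrt_le_sqrt ?_) (Calw_mono h0 (Cal_sig_neg h₀ h4 h3) ?_) (Calw_pos h0).le
    (sqrt_nonneg _)
  · rw [le_div_iff₀ h₀]
    linarith
  · have := log_le_log (show (0 : ℝ) < 1 / 2 by norm_num)
      (show 1 / 2 ≤ m / m₀ by rw [le_div_iff₀ h₀]; linarith)
    linarith

/-- the primitive of the calibration density -/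
noncomputable def CalO (m₀ m : ℝ) : ℝ := om m₀ m * (2 * √(π * m))

/-- the calibration density -/
noncomputable def Calg (m₀ m : ℝ) : ℝ := om m₀ m ^ 2 + π * jj ^ 2 / m₀

lemma CalO_eq {m₀ m : ℝ} (h1 : 0 < m) :
    CalO m₀ m = -(2 * π * (ZZ (log (m / m₀) / 2) / JJ (log (m / m₀) / 2))) := by
  have h2 : √(π / m) * √(π * m) = π := by
    rw [← sqrt_mul (by positivity), show π / m * (π * m) = π * π by field_simp,
      sqrt_mul_self pi_pos.le]
  rw [CalO, om, if_neg (not_le.2 h1)]
  linear_combination (-2 * (ZZ (log (m / m₀) / 2) / JJ (log (m / m₀) / 2))) * h2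

lemma CalO_der {m₀ m : ℝ} (h₀ : 0 < m₀) (h1 : 0 < m) (h : m < m₀) :
    HasDerivAt (CalO m₀) (Calg m₀ m) m := by
  have hs := Cal_sig_neg h₀ h1 h
  have hJ := (JJ_pos hs).ne'
  have h2 : HasDerivAt (fun x : ℝ => log (x / m₀) / 2) (1 / (2 * m)) m := by
    have := (((hasDerivAt_id m).div_const m₀).log (div_pos h1 h₀).ne').div_const 2
    convert! this using 1
    simp only [id]
    field_simp
  have h3 := ((((ZZ_der _).div (JJ_der _) hJ).comp m h2).const_mul (2 * π)).neg
  have h4 : exp (2 * (log (m / m₀) / 2)) = m / m₀ := by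
    rw [show 2 * (log (m / m₀) / 2) = log (m / m₀) by ring, exp_log (div_pos h1 h₀)]
  have h5 : HasDerivAt (fun x : ℝ => -(2 * π * (ZZ (log (x / m₀) / 2) / JJ (log (x / m₀) / 2))))
      (Calg m₀ m) m := by
    convert! h3 using 1
    rw [Calg, om, if_neg (not_le.2 h1), h4, neg_sq, div_pow, mul_pow, sq_sqrt (by positivity)]
    field_simp
    ring
  refine h5.congr_of_eventuallyEq ?_
  filter_upwards [lt_mem_nhds h1] with x hx
  exact CalO_eq hx

lemma Calg_mono {m₀ : ℝ} (h₀ : 0 < m₀) : MonotoneOn (Calg m₀) (Iio m₀) := fun a ha b hb hab => by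
  have := pow_le_pow_left₀ (om_nonneg h₀ ha) (om_mono h₀ ha hb hab) 2
  unfold Calg
  linarith

lemma Calg_nonneg {m₀ : ℝ} (h₀ : 0 < m₀) (m : ℝ) : 0 ≤ Calg m₀ m := by
  unfold Calg
  positivity

lemma Cal_ftc {m₀ m : ℝ} (h₀ : 0 < m₀) (h1 : 0 ≤ m) (h : m < m₀) :
    ∫⁻ y in Ioo 0 m, ENNReal.ofReal (Calg m₀ y) = ENNReal.ofReal (CalO m₀ m) := by
  rcases h1.eq_or_lt with rfl | h1
  · simp [CalO]
  have hi : IntervalIntegrable (Calg m₀) volume 0 m :=
    ((Calg_mono h₀).mono fun x hx => by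
      rw [uIcc_of_le h1.le] at hx
      exact hx.2.trans_lt h).intervalIntegrable
  have ha : Tendsto (CalO m₀) (𝓝[>] 0) (𝓝 0) := by
    have h2 : Tendsto (fun x : ℝ => om m₀ m * (2 * √(π * x))) (𝓝[>] 0) (𝓝 0) := by
      have : Continuous fun x : ℝ => om m₀ m * (2 * √(π * x)) := by fun_prop
      simpa using (this.tendsto 0).mono_left nhdsWithin_le_nhds
    refine tendsto_of_tendsto_of_tendsto_of_le_of_le' tendsto_const_nhds h2 ?_ ?_
    · filter_upwards [Ioo_mem_nhdsGT h1] with x hx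
      exact mul_nonneg (om_nonneg h₀ (hx.2.trans h)) (by positivity)
    · filter_upwards [Ioo_mem_nhdsGT h1] with x hx
      exact mul_le_mul_of_nonneg_right (om_mono h₀ (hx.2.trans h) h hx.2.le) (by positivity)
  have h3 := intervalIntegral.integral_eq_sub_of_hasDerivAt_of_tendsto h1
    (fun x hx => CalO_der h₀ hx.1 (hx.2.trans h)) hi ha
    ((CalO_der h₀ h1 h).continuousAt.tendsto.mono_left nhdsWithin_le_nhds)
  rw [sub_zero, intervalIntegral.integral_of_le h1.le, integral_Ioc_eq_integral_Ioo] at h3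
  rw [← h3, ofReal_integral_eq_lintegral_ofReal
    ((intervalIntegrable_iff_integrableOn_Ioo_of_le h1.le).1 hi)
    (Eventually.of_forall fun x => Calg_nonneg h₀ x)]

section level

variable {u : ℂ → ℝ}

lemma Cal_lev_anti {a b : ℝ} (h : a ≤ b) : lev u b ⊆ lev u a := fun _ hx => h.trans_lt hx

lemma Cal_lev_meas (hu : Continuous u) (t : ℝ) : MeasurableSet (lev u t) :=
  (isOpen_lt continuous_const hu.abs).measurableSet

lemma Cal_lev_fin (hc : HasCompactSupport u) {t : ℝ} (ht : 0 ≤ t) : volume (lev u t) ≠ ⊤ :=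
  ((measure_mono fun x (hx : x ∈ lev u t) => subset_tsupport u
    (abs_pos.1 (ht.trans_lt hx))).trans_lt hc.isCompact.measure_lt_top).ne

lemma Cal_mu_anti (hc : HasCompactSupport u) {a b : ℝ} (ha : 0 ≤ a) (h : a ≤ b) :
    mu u b ≤ mu u a := measureReal_mono (Cal_lev_anti h) (Cal_lev_fin hc ha)

lemma Cal_diff (hu : Continuous u) (hc : HasCompactSupport u) {t r a : ℝ} (ht : 0 ≤ t)
    (hr : t ≤ r) (ha : a ≤ mu u r) :
    volume (lev u t \ lev u r) ≤ ENNReal.ofReal (mu u t - a) := by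
  rw [measure_sdiff (Cal_lev_anti hr) (Cal_lev_meas hu r).nullMeasurableSet
    (Cal_lev_fin hc (ht.trans hr)), ← ofReal_measureReal (Cal_lev_fin hc ht),
    ← ofReal_measureReal (Cal_lev_fin hc (ht.trans hr)),
    ← ENNReal.ofReal_sub _ measureReal_nonneg]
  exact ENNReal.ofReal_le_ofReal (sub_le_sub_left ha _)

lemma Cal_key (hu : Continuous u) (hc : HasCompactSupport u) {t a : ℝ} (ht : 0 ≤ t) {C : Set ℂ}
    (hC : ∀ x ∈ C, x ∈ lev u t ∧ a ≤ mu u |u x|) (hn : C.Nonempty) :
    volume C ≤ ENNReal.ofReal (mu u t - a) := by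
  obtain ⟨B, hB⟩ := hu.bounded_above_of_compact_support hc
  have hb : BddAbove ((fun x => |u x|) '' C) := ⟨B, by
    rintro _ ⟨x, -, rfl⟩
    exact hB x⟩
  have hle : ∀ x ∈ C, |u x| ≤ sSup ((fun x => |u x|) '' C) := fun x hx =>
    le_csSup hb ⟨x, hx, rfl⟩
  by_cases h : sSup ((fun x => |u x|) '' C) ∈ (fun x => |u x|) '' C
  · obtain ⟨x, hx, hx'⟩ := h
    refine (measure_mono fun y hy => ?_).trans (Cal_diff hu hc ht (hC x hx).1.le (hC x hx).2)
    refine ⟨(hC y hy).1, fun k => ?_⟩
    have k1 : |u x| < |u y| := k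
    have k2 := hle y hy
    simp only at hx'
    linarith
  · obtain ⟨v, h1, h2, h3⟩ := exists_seq_tendsto_sSup (hn.image _) hb
    have h4 : C ⊆ ⋃ n, lev u t \ lev u (v n) := fun y hy => by
      have k : |u y| < sSup ((fun x => |u x|) '' C) :=
        (hle y hy).lt_of_ne fun k => h ⟨y, hy, k⟩
      obtain ⟨n, hn⟩ := (h2.eventually (lt_mem_nhds k)).exists
      exact mem_iUnion.2 ⟨n, (hC y hy).1, fun k1 => lt_asymm hn k1⟩
    have h5 : Monotone fun n => lev u t \ lev u (v n) := fun a b hab =>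
      sdiff_subset_sdiff_right (Cal_lev_anti (h1 hab))
    refine (measure_mono h4).trans ?_
    rw [h5.measure_iUnion]
    refine iSup_le fun n => ?_
    obtain ⟨x, hx, hx'⟩ := h3 n
    simp only at hx'
    rw [← hx']
    exact Cal_diff hu hc ht (hC x hx).1.le (hC x hx).2

lemma Cal_gam_anti (hc : HasCompactSupport u) {s : ℝ} (hs : 0 ≤ s) :
    Antitone fun t => mu u (max t s) := fun _ _ hab =>
  Cal_mu_anti hc (hs.trans (le_max_right _ _)) (max_le_max_right s hab)

lemma Cal_level (hu : Continuous u) (hc : HasCompactSupport u) {s m₀ t : ℝ} (hs : 0 ≤ s)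
    (hm : mu u s < m₀) (ht : s ≤ t) :
    ∫⁻ x in lev u t, ENNReal.ofReal (Calg m₀ (mu u (max |u x| s))) ≤
      ENNReal.ofReal (CalO m₀ (mu u t)) := by
  have h₀ : 0 < m₀ := measureReal_nonneg.trans_lt hm
  have hlt : ∀ r, mu u (max r s) < m₀ := fun r =>
    (Cal_mu_anti hc hs (le_max_right _ _)).trans_lt hm
  have hA : Antitone fun r => Calg m₀ (mu u (max r s)) := fun a b hab =>
    Calg_mono h₀ (hlt b) (hlt a) (Cal_gam_anti hc hs hab)
  have hmt : mu u t < m₀ := (Cal_mu_anti hc hs ht).trans_lt hm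
  rw [← Cal_ftc (m := mu u t) h₀ measureReal_nonneg hmt,
    lintegral_eq_lintegral_meas_lt _ (Eventually.of_forall fun x => Calg_nonneg h₀ _)
      (hA.measurable.comp hu.abs.measurable).aemeasurable,
    lintegral_eq_lintegral_meas_lt _ (Eventually.of_forall fun x => Calg_nonneg h₀ _)
      (aemeasurable_restrict_of_monotoneOn measurableSet_Ioo
        ((Calg_mono h₀).mono fun x hx => hx.2.trans hmt))]
  refine lintegral_mono fun τ => ?_
  rw [Measure.restrict_apply' (Cal_lev_meas hu t), Measure.restrict_apply' measurableSet_Ioo]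
  rcases ({x | τ < Calg m₀ (mu u (max |u x| s))} ∩ lev u t).eq_empty_or_nonempty with k | k
  · rw [k, measure_empty]
    exact bot_le
  set S := {m | 0 ≤ m ∧ m < m₀ ∧ τ < Calg m₀ m} with hS
  have hb : BddBelow S := ⟨0, fun m hm => hm.1⟩
  have hne : S.Nonempty := by
    obtain ⟨x, hx, -⟩ := k
    exact ⟨_, measureReal_nonneg, hlt _, hx⟩
  refine (Cal_key hu hc (hs.trans ht) (a := sInf S) (fun x hx => ⟨hx.2, ?_⟩) k).trans ?_
  · have k1 : s ≤ |u x| := ht.trans (le_of_lt hx.2)
    have k2 : mu u (max |u x| s) ∈ S := ⟨measureReal_nonneg, hlt _, hx.1⟩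
    rw [max_eq_left k1] at k2
    exact csInf_le hb k2
  · rw [← Real.volume_Ioo]
    refine measure_mono fun y hy => ⟨?_, (le_csInf hne fun m hm => hm.1).trans_lt hy.1, hy.2⟩
    obtain ⟨m, h1, h2⟩ := exists_lt_of_csInf_lt hne hy.1
    exact h1.2.2.trans_le (Calg_mono h₀ h1.2.1 (hy.2.trans hmt) h2.le)

end level

lemma Cal_prim {s y : ℝ} (hs : 0 ≤ s) (hy : 0 ≤ y) :
    ∫ t in (0 : ℝ)..y, 2 * max (t - s) 0 = max (y - s) 0 ^ 2 := by
  have h0 : ∀ z, 0 ≤ z → z ≤ s → ∫ t in (0 : ℝ)..z, 2 * max (t - s) 0 = 0 := fun z h1 h2 => by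
    rw [intervalIntegral.integral_congr (g := fun _ => 0) fun t ht => ?_,
      intervalIntegral.integral_zero]
    rw [uIcc_of_le h1] at ht
    simp only
    rw [max_eq_right (by linarith [ht.2]), mul_zero]
  rcases le_total y s with h | h
  · rw [h0 y hy h, max_eq_right (by linarith)]
    ring
  · have hc : Continuous fun t : ℝ => 2 * max (t - s) 0 := by fun_prop
    rw [← intervalIntegral.integral_add_adjacent_intervals (b := s) (hc.intervalIntegrable _ _)
      (hc.intervalIntegrable _ _), h0 s hs le_rfl, zero_add, max_eq_left (by linarith),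
      intervalIntegral.integral_congr (g := fun t => 2 * t - 2 * s) fun t ht => ?_]
    · rw [intervalIntegral.integral_sub ((by fun_prop : Continuous fun t : ℝ => 2 * t).intervalIntegrable _ _)
        (continuous_const.intervalIntegrable _ _), intervalIntegral.integral_const_mul, integral_id,
        intervalIntegral.integral_const, smul_eq_mul]
      ring
    · rw [uIcc_of_le h] at ht
      simp only
      rw [max_eq_left (by linarith [ht.1])]
      ring

theorem cal {u : ℂ → ℝ} (hu : Continuous u) (hc : HasCompactSupport u) {s m₀ : ℝ} (hs : 0 ≤ s)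
    (hm : mu u s < m₀) :
    (∫ x, (max (|u x| - s) 0 * om m₀ (mu u (max |u x| s))) ^ 2) +
        π * jj ^ 2 / m₀ * ∫ x, (max (|u x| - s) 0) ^ 2 ≤
      2 * ∫ t in Ioi (0 : ℝ), max (t - s) 0 * om m₀ (mu u (max t s)) * (2 * √(π * mu u t)) := by
  have h₀ : 0 < m₀ := measureReal_nonneg.trans_lt hm
  have hle : ∀ r, mu u (max r s) ≤ mu u s := fun r => Cal_mu_anti hc hs (le_max_right _ _)
  have hlt : ∀ r, mu u (max r s) < m₀ := fun r => (hle r).trans_lt hm
  have hA : Antitone fun r => om m₀ (mu u (max r s)) := fun a b hab =>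
    om_mono h₀ (hlt b) (hlt a) (Cal_gam_anti hc hs hab)
  have hG : Antitone fun r => Calg m₀ (mu u (max r s)) := fun a b hab =>
    Calg_mono h₀ (hlt b) (hlt a) (Cal_gam_anti hc hs hab)
  have h0 : ∀ r, 0 ≤ om m₀ (mu u (max r s)) := fun r => om_nonneg h₀ (hlt r)
  have h1 : ∀ r, om m₀ (mu u (max r s)) ≤ om m₀ (mu u s) := fun r =>
    om_mono h₀ (hlt r) hm (hle r)
  have c2 : Continuous fun x => max (|u x| - s) 0 ^ 2 := by fun_prop
  have i2 : Integrable fun x => max (|u x| - s) 0 ^ 2 := by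
    refine c2.integrable_of_hasCompactSupport (hc.mono fun x hx k => hx ?_)
    simp only [k, abs_zero, zero_sub]
    rw [max_eq_right (by linarith)]
    ring
  have i1 : Integrable fun x => (max (|u x| - s) 0 * om m₀ (mu u (max |u x| s))) ^ 2 := by
    refine (i2.mul_const (om m₀ (mu u s) ^ 2)).mono' ?_ (Eventually.of_forall fun x => ?_)
    · exact ((((by fun_prop : Continuous fun x => max (|u x| - s) 0).measurable).mul
        (hA.measurable.comp hu.abs.measurable)).pow_const 2).aestronglyMeasurable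
    · rw [Real.norm_of_nonneg (sq_nonneg _), mul_pow]
      exact mul_le_mul_of_nonneg_left (pow_le_pow_left₀ (h0 _) (h1 _) 2) (sq_nonneg _)
  obtain ⟨B, hB⟩ := hu.bounded_above_of_compact_support hc
  have e3 : ∀ t, max (t - s) 0 * om m₀ (mu u (max t s)) * (2 * √(π * mu u t)) =
      max (t - s) 0 * om m₀ (mu u (max t s)) * (2 * √(π * mu u (max t s))) := fun t => by
    rcases le_total t s with h | h
    · rw [max_eq_right (show t - s ≤ 0 by linarith), zero_mul, zero_mul, zero_mul]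
    · rw [max_eq_left h]
  have i3 : IntegrableOn (fun t => max (t - s) 0 * om m₀ (mu u (max t s)) *
      (2 * √(π * mu u t))) (Ioi 0) := by
    simp only [e3]
    have k1 : IntegrableOn ((Ioc (0 : ℝ) B).indicator fun _ =>
        B * om m₀ (mu u s) * (2 * √(π * mu u s))) (Ioi 0) :=
      ((integrable_indicator_iff measurableSet_Ioc).2
        (integrableOn_const (by simp))).integrableOn
    refine k1.mono' ?_ ?_
    · exact ((((by fun_prop : Continuous fun t : ℝ => max (t - s) 0).measurable).mul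
        hA.measurable).mul ((((Cal_gam_anti hc hs).measurable.const_mul π).sqrt).const_mul
          2)).aestronglyMeasurable
    · refine (ae_restrict_iff' measurableSet_Ioi).2 (Eventually.of_forall fun t ht => ?_)
      have k2 := h0 t
      rw [Real.norm_of_nonneg (by positivity)]
      by_cases k : t ≤ B
      · rw [indicator_of_mem (show t ∈ Ioc 0 B from ⟨ht, k⟩)]
        have k3 : (0 : ℝ) < t := ht
        refine mul_le_mul (mul_le_mul (max_le (by linarith) (by linarith)) (h1 t) k2 (by linarith))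
          (mul_le_mul_of_nonneg_left (sqrt_le_sqrt
            (mul_le_mul_of_nonneg_left (hle t) pi_pos.le)) zero_le_two) (by positivity)
          (mul_nonneg (by linarith) (k2.trans (h1 t)))
      · rw [indicator_of_notMem fun k1 => k k1.2]
        have k3 : lev u (max t s) = ∅ := eq_empty_of_forall_notMem fun x hx => by
          have k4 : max t s < |u x| := hx
          have k5 : |u x| ≤ B := hB x
          have k6 := le_max_left t s
          exact k (by linarith)
        simp [mu, k3]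
  have n3 : ∀ t, 0 ≤ max (t - s) 0 * om m₀ (mu u (max t s)) * (2 * √(π * mu u t)) := fun t => by
    have := h0 t
    positivity
  have mF : Measurable fun x => ENNReal.ofReal (Calg m₀ (mu u (max |u x| s))) :=
    (hG.measurable.comp hu.abs.measurable).ennreal_ofReal
  have lc := lintegral_comp_eq_lintegral_meas_lt_mul
    (volume.withDensity fun x => ENNReal.ofReal (Calg m₀ (mu u (max |u x| s))))
    (f := fun x => |u x|) (g := fun t => 2 * max (t - s) 0)
    (Eventually.of_forall fun x => abs_nonneg _) hu.abs.measurable.aemeasurable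
    (fun t _ => (by fun_prop : Continuous fun t : ℝ => 2 * max (t - s) 0).intervalIntegrable _ _)
    (Eventually.of_forall fun t => by positivity)
  simp only [Cal_prim hs (abs_nonneg _)] at lc
  rw [lintegral_withDensity_eq_lintegral_mul _ mF c2.measurable.ennreal_ofReal] at lc
  have i4 : Integrable fun x => (max (|u x| - s) 0 * om m₀ (mu u (max |u x| s))) ^ 2 +
      π * jj ^ 2 / m₀ * max (|u x| - s) 0 ^ 2 := i1.add (i2.const_mul _)
  rw [← integral_const_mul, ← integral_add i1 (i2.const_mul _), ← integral_const_mul,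
    ← ENNReal.ofReal_le_ofReal_iff (integral_nonneg fun t => mul_nonneg zero_le_two (n3 t)),
    ofReal_integral_eq_lintegral_ofReal i4
      (Eventually.of_forall fun x => by
        simp only [Pi.zero_apply]
        positivity),
    ofReal_integral_eq_lintegral_ofReal (i3.const_mul 2)
      (Eventually.of_forall fun t => mul_nonneg zero_le_two (n3 t))]
  refine le_trans (le_of_eq (lintegral_congr fun x => ?_)) (lc.le.trans (lintegral_mono fun t => ?_))
  · rw [Pi.mul_apply, ← ENNReal.ofReal_mul (Calg_nonneg h₀ _), Calg]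
    congr 1
    ring
  · rcases le_total t s with h | h
    · rw [max_eq_right (show t - s ≤ 0 by linarith), mul_zero, ENNReal.ofReal_zero, mul_zero]
      exact bot_le
    · have k := Cal_level hu hc hs hm h
      rw [← withDensity_apply _ (Cal_lev_meas hu t)] at k
      refine (mul_le_mul_left k _).trans (le_of_eq ?_)
      have k1 := h0 t
      rw [max_eq_left h] at k1 ⊢
      rw [CalO, ← ENNReal.ofReal_mul (mul_nonneg k1 (by positivity))]
      congr 1
      ring

end Pool.Agent.Work.MP_267827_an
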