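import Pool.Agent.Work.MP_267827_an.Defs

/-! A coarea inequality. -/

set_option autoImplicit false

namespace Pool.Agent.Work.MP_267827_an

open MeasureTheory Set Filter Topology Metric Real

/-- the region between the graph of `|u|` and the graph of its sup-convolution -/
def CoareaS (u : ℂ → ℝ) (ε : ℝ) : Set (ℝ × ℂ) :=
  {q | q.2 ∈ thickening ε (lev u q.1) \ lev u q.1}

theorem Coarea_meas {u : ℂ → ℝ} (hu : Continuous u) (ε : ℝ) : MeasurableSet (CoareaS u ε) := by
  have h1 : IsOpen {q : ℝ × ℂ | q.2 ∈ thickening ε (lev u q.1)} := by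
    have : {q : ℝ × ℂ | q.2 ∈ thickening ε (lev u q.1)} =
        ⋃ y : ℂ, {q : ℝ × ℂ | q.1 < |u y|} ∩ {q : ℝ × ℂ | dist q.2 y < ε} := by
      ext q
      simp only [mem_setOf_eq, mem_thickening_iff, lev, mem_iUnion, mem_inter_iff]
    rw [this]
    exact isOpen_iUnion fun y => (isOpen_lt continuous_fst continuous_const).inter
      (isOpen_lt (continuous_snd.dist continuous_const) continuous_const)
  have h2 : IsOpen {q : ℝ × ℂ | q.2 ∈ lev u q.1} :=
    isOpen_lt continuous_fst (hu.comp continuous_snd).abs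
  exact h1.measurableSet.diff h2.measurableSet

theorem Coarea_swap {u : ℂ → ℝ} (hu : Continuous u) (ε : ℝ) {φ : ℝ → ENNReal}
    (hφ : Measurable φ) :
    ∫⁻ t in Ioi (0 : ℝ), φ t * volume (thickening ε (lev u t) \ lev u t) =
      ∫⁻ x : ℂ, ∫⁻ t in Ioi (0 : ℝ), (CoareaS u ε).indicator (fun q => φ q.1) (t, x) := by
  have hm : Measurable ((CoareaS u ε).indicator fun q : ℝ × ℂ => φ q.1) :=
    (hφ.comp measurable_fst).indicator (Coarea_meas hu ε)
  rw [← lintegral_lintegral_swap (f := fun t x => (CoareaS u ε).indicator (fun q => φ q.1) (t, x))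
    hm.aemeasurable]
  refine lintegral_congr fun t => ?_
  have hs : MeasurableSet (thickening ε (lev u t) \ lev u t) :=
    measurable_prodMk_left (Coarea_meas hu ε)
  rw [← lintegral_indicator_const hs]
  rfl

theorem coarea {u : ℂ → ℝ} (hu : ContDiff ℝ 1 u) (hc : HasCompactSupport u) {ψ γ p : ℝ → ℝ}
    (hψ : Continuous ψ) (ψ0 : ∀ t, 0 ≤ ψ t) (hγ : Antitone γ) (γ0 : ∀ t, 0 ≤ γ t)
    (p0 : ∀ t, 0 ≤ p t) {ε₁ : ℝ} (hε₁ : 0 < ε₁)
    (hp : ∀ ε, 0 < ε → ε < ε₁ → ∀ t, 0 < t → ψ t ≠ 0 →
      mu u t + ε * p t ≤ volume.real (thickening ε (lev u t))) :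
    ∫ t in Ioi (0 : ℝ), ψ t * γ t * p t ≤ ∫ x, ‖fderiv ℝ u x‖ * (ψ |u x| * γ |u x|) := by
  have uc := hu.continuous
  have dc : Continuous (fderiv ℝ u) := hu.continuous_fderiv one_ne_zero
  have ds : HasCompactSupport (fderiv ℝ u) := hc.fderiv ℝ
  have hR0 : 0 ≤ ∫ x, ‖fderiv ℝ u x‖ * (ψ |u x| * γ |u x|) :=
    integral_nonneg fun x => mul_nonneg (norm_nonneg _) (mul_nonneg (ψ0 _) (γ0 _))
  by_cases hI : IntegrableOn (fun t => ψ t * γ t * p t) (Ioi 0)
  swap
  · rw [integral_undef hI]
    exact hR0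
  obtain ⟨M, hM⟩ := uc.bounded_above_of_compact_support hc
  obtain ⟨L, hL⟩ := dc.bounded_above_of_compact_support ds
  have M0 : 0 ≤ M := (norm_nonneg _).trans (hM 0)
  have L0 : 0 ≤ L := (norm_nonneg _).trans (hL 0)
  obtain ⟨P, hP⟩ := (isCompact_Icc (a := (0 : ℝ)) (b := M + L + 1)).exists_bound_of_continuousOn
    hψ.continuousOn
  have P0 : 0 ≤ P := (norm_nonneg _).trans (hP 0 ⟨le_rfl, by positivity⟩)
  have hP' : ∀ x, ψ |u x| ≤ P := fun x => (le_abs_self _).trans
    (hP _ ⟨abs_nonneg _, by have := hM x; rw [Real.norm_eq_abs] at this; linarith⟩)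
  have hγ' : ∀ x, γ |u x| ≤ γ 0 := fun x => hγ (abs_nonneg _)
  set B : Set ℂ := cthickening 1 (tsupport u) with hB
  have Bc : IsCompact B := IsCompact.cthickening hc
  have Bm : MeasurableSet B := Bc.measurableSet
  have sub : ∀ ε t, ε ≤ 1 → 0 < t → thickening ε (lev u t) ⊆ B := by
    intro ε t h1 h2
    refine (thickening_subset_cthickening_of_le h1 _).trans (cthickening_subset_of_subset _ ?_)
    intro x hx
    refine subset_tsupport _ fun h0 => ?_
    have h3 : t < |u x| := hx
    rw [h0, abs_zero] at h3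
    linarith
  have mF : Measurable fun x => ‖fderiv ℝ u x‖ * (ψ |u x| * γ |u x|) :=
    dc.norm.measurable.mul ((hψ.comp uc.abs).measurable.mul
      (hγ.measurable.comp uc.abs.measurable))
  have iF : Integrable fun x => ‖fderiv ℝ u x‖ * (ψ |u x| * γ |u x|) := by
    refine ((dc.norm.integrable_of_hasCompactSupport ds.norm).mul_const (P * γ 0)).mono'
      mF.aestronglyMeasurable (ae_of_all _ fun x => ?_)
    rw [Real.norm_of_nonneg (mul_nonneg (norm_nonneg _) (mul_nonneg (ψ0 _) (γ0 _)))]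
    exact mul_le_mul_of_nonneg_left (mul_le_mul (hP' x) (hγ' x) (γ0 _) P0) (norm_nonneg _)
  set K : ℝ := (L + P + 1) * γ 0 with hK
  have K0 : 0 ≤ K := mul_nonneg (by positivity) (γ0 0)
  have key : ∀ k, 0 < k → k ≤ 1 → ∫ t in Ioi (0 : ℝ), ψ t * γ t * p t ≤
      (∫ x, ‖fderiv ℝ u x‖ * (ψ |u x| * γ |u x|)) + k * K * volume.real B := by
    intro k k0 k1
    obtain ⟨δ₁, d1, h1⟩ := Metric.uniformContinuous_iff.1
      (ds.uniformContinuous_of_continuous dc) k k0
    obtain ⟨δ₂, d2, h2⟩ := Metric.uniformContinuousOn_iff.1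
      ((isCompact_Icc (a := (0 : ℝ)) (b := M + L + 1)).uniformContinuousOn_of_continuous
        hψ.continuousOn) k k0
    obtain ⟨ε, e0, e1, e2, e3, e4⟩ : ∃ ε : ℝ, 0 < ε ∧ ε < ε₁ ∧ ε ≤ 1 ∧ ε ≤ δ₁ ∧
        ε * (L + 1) ≤ δ₂ := by
      refine ⟨min (min (ε₁ / 2) 1) (min δ₁ (δ₂ / (L + 1))), by positivity, ?_, ?_, ?_, ?_⟩
      · exact ((min_le_left _ _).trans (min_le_left _ _)).trans_lt (by linarith)
      · exact (min_le_left _ _).trans (min_le_right _ _)
      · exact (min_le_right _ _).trans (min_le_left _ _)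
      · rw [← le_div_iff₀ (by positivity)]
        exact (min_le_right _ _).trans (min_le_right _ _)
    have mφ : Measurable fun t => ENNReal.ofReal (ψ t * γ t) :=
      (hψ.measurable.mul hγ.measurable).ennreal_ofReal
    have s1 : ENNReal.ofReal ε * ∫⁻ t in Ioi (0 : ℝ), ENNReal.ofReal (ψ t * γ t * p t) ≤
        ∫⁻ t in Ioi (0 : ℝ), ENNReal.ofReal (ψ t * γ t) *
          volume (thickening ε (lev u t) \ lev u t) := by
      rw [← lintegral_const_mul' _ _ ENNReal.ofReal_ne_top]
      refine setLIntegral_mono' measurableSet_Ioi fun t ht => ?_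
      by_cases h0 : ψ t = 0
      · simp [h0]
      have fin : volume (thickening ε (lev u t)) ≠ ⊤ :=
        ((measure_mono (sub ε t e2 ht)).trans_lt Bc.measure_lt_top).ne
      have lm : MeasurableSet (lev u t) := (isOpen_lt continuous_const uc.abs).measurableSet
      have h3 := hp ε e0 e1 t ht h0
      have h4 := measureReal_diff (self_subset_thickening e0 (lev u t)) lm fin
      rw [← ENNReal.ofReal_mul e0.le, show ε * (ψ t * γ t * p t) = ψ t * γ t * (ε * p t) by ring,
        ENNReal.ofReal_mul (mul_nonneg (ψ0 _) (γ0 _))]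
      refine mul_le_mul_right ?_ _
      rw [← ofReal_measureReal (μ := volume) (s := thickening ε (lev u t) \ lev u t)
        ((measure_mono diff_subset).trans_lt fin.lt_top).ne]
      refine ENNReal.ofReal_le_ofReal ?_
      rw [h4]
      unfold mu at h3
      linarith
    have s2 : ∀ x : ℂ, ∫⁻ t in Ioi (0 : ℝ), (CoareaS u ε).indicator
        (fun q => ENNReal.ofReal (ψ q.1 * γ q.1)) (t, x) ≤ ENNReal.ofReal ε *
          (ENNReal.ofReal (‖fderiv ℝ u x‖ * (ψ |u x| * γ |u x|)) +
            B.indicator (fun _ => ENNReal.ofReal (k * K)) x) := by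
      intro x
      by_cases hx : x ∈ B
      swap
      · refine le_of_eq_of_le (setLIntegral_eq_zero measurableSet_Ioi fun t ht => ?_) bot_le
        exact indicator_of_notMem (fun h => hx (sub ε t e2 ht h.1)) _
      have hMx : |u x| ≤ M := hM x
      have hLx := hL x
      have n0 := norm_nonneg (fderiv ℝ u x)
      have s3 : ∀ t, (CoareaS u ε).indicator (fun q => ENNReal.ofReal (ψ q.1 * γ q.1)) (t, x) ≤
          (Ico |u x| (|u x| + ε * (‖fderiv ℝ u x‖ + k))).indicator
            (fun _ => ENNReal.ofReal ((ψ |u x| + k) * γ |u x|)) t := by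
        intro t
        by_cases ht : (t, x) ∈ CoareaS u ε
        swap
        · rw [indicator_of_notMem ht]
          exact bot_le
        obtain ⟨y, y1, y2⟩ := mem_thickening_iff.1 ht.1
        have t1 : |u x| ≤ t := not_lt.1 ht.2
        have y1' : t < |u y| := y1
        have mv : ‖u y - u x‖ ≤ (‖fderiv ℝ u x‖ + k) * ‖y - x‖ := by
          refine (convex_ball x ε).norm_image_sub_le_of_norm_fderiv_le
            (fun z _ => (hu.differentiable one_ne_zero) z) (fun z hz => ?_) (mem_ball_self e0)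
            (by rwa [mem_ball, dist_comm])
          have h5 := h1 ((mem_ball.1 hz).trans_le e3)
          rw [dist_eq_norm] at h5
          linarith [norm_sub_norm_le (fderiv ℝ u z) (fderiv ℝ u x)]
        have y3 : ‖y - x‖ ≤ ε := by
          rw [← dist_eq_norm, dist_comm]
          exact y2.le
        have t2 : t < |u x| + ε * (‖fderiv ℝ u x‖ + k) := by
          have h5 := abs_sub_abs_le_abs_sub (u y) (u x)
          rw [Real.norm_eq_abs] at mv
          have h6 := mul_le_mul_of_nonneg_left y3 (show 0 ≤ ‖fderiv ℝ u x‖ + k by positivity)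
          linarith
        have t3 : ε * (‖fderiv ℝ u x‖ + k) ≤ ε * (L + 1) :=
          mul_le_mul_of_nonneg_left (by linarith) e0.le
        have t4 : ε * (L + 1) ≤ L + 1 := mul_le_of_le_one_left (by positivity) e2
        rw [indicator_of_mem ht, indicator_of_mem (show t ∈ Ico _ _ from ⟨t1, t2⟩)]
        refine ENNReal.ofReal_le_ofReal (mul_le_mul ?_ (hγ t1) (γ0 _)
          (add_nonneg (ψ0 _) k0.le))
        have h5 := h2 t ⟨(abs_nonneg _).trans t1, by linarith⟩ |u x|
          ⟨abs_nonneg _, by linarith⟩ (by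
            rw [Real.dist_eq, abs_of_nonneg (by linarith)]
            linarith)
        rw [Real.dist_eq] at h5
        linarith [le_abs_self (ψ t - ψ |u x|)]
      refine ((setLIntegral_le_lintegral _ _).trans (lintegral_mono s3)).trans ?_
      rw [lintegral_indicator_const measurableSet_Ico, Real.volume_Ico, indicator_of_mem hx,
        ← ENNReal.ofReal_mul (mul_nonneg (add_nonneg (ψ0 _) k0.le) (γ0 _)),
        ← ENNReal.ofReal_add (mul_nonneg n0 (mul_nonneg (ψ0 _) (γ0 _))) (mul_nonneg k0.le K0),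
        ← ENNReal.ofReal_mul e0.le]
      refine ENNReal.ofReal_le_ofReal ?_
      have h5 : (‖fderiv ℝ u x‖ + ψ |u x| + k) * γ |u x| ≤ K :=
        mul_le_mul (by linarith [hP' x]) (hγ' x) (γ0 _) (by positivity)
      have h6 := mul_le_mul_of_nonneg_left h5 (mul_nonneg e0.le k0.le)
      nlinarith [h6]
    have s4 := (s1.trans_eq (Coarea_swap uc ε mφ)).trans (lintegral_mono s2)
    rw [lintegral_const_mul' _ _ ENNReal.ofReal_ne_top,
      ENNReal.mul_le_mul_iff_right (ENNReal.ofReal_pos.2 e0).ne' ENNReal.ofReal_ne_top,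
      lintegral_add_left mF.ennreal_ofReal, lintegral_indicator_const Bm,
      ← ofReal_integral_eq_lintegral_ofReal iF
        (ae_of_all _ fun x => mul_nonneg (norm_nonneg _) (mul_nonneg (ψ0 _) (γ0 _))),
      ← ofReal_integral_eq_lintegral_ofReal hI
        (ae_of_all _ fun t => mul_nonneg (mul_nonneg (ψ0 _) (γ0 _)) (p0 _)),
      ← ofReal_measureReal (μ := volume) (s := B) Bc.measure_lt_top.ne,
      ← ENNReal.ofReal_mul (mul_nonneg k0.le K0),
      ← ENNReal.ofReal_add hR0 (mul_nonneg (mul_nonneg k0.le K0) measureReal_nonneg)] at s4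
    exact (ENNReal.ofReal_le_ofReal_iff
      (add_nonneg hR0 (mul_nonneg (mul_nonneg k0.le K0) measureReal_nonneg))).1 s4
  refine le_of_forall_pos_le_add fun η hη => ?_
  have C0 : 0 ≤ K * volume.real B := mul_nonneg K0 measureReal_nonneg
  refine (key (min 1 (η / (K * volume.real B + 1))) (by positivity) (min_le_left _ _)).trans ?_
  have h1 : min 1 (η / (K * volume.real B + 1)) * (K * volume.real B + 1) ≤ η := by
    rw [← le_div_iff₀ (by positivity)]
    exact min_le_right _ _
  have h2 : 0 < min 1 (η / (K * volume.real B + 1)) := by positivity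
  nlinarith [h1, h2]

end Pool.Agent.Work.MP_267827_an
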