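import Pool.Agent.Work.MP_267827_an.Topo

/-! A Crofton inequality with circles. -/

set_option autoImplicit false

namespace Pool.Agent.Work.MP_267827_an

open MeasureTheory Set Filter Topology Metric Real

lemma crofton_var {f f' : ℝ → ℝ} (hf : ∀ a, HasDerivAt f (f' a) a) (hc : Continuous f')
    {T a b : ℝ} (hT : f T = f 0) (h0 : 0 ≤ a) (hab : a ≤ b) (hb : b ≤ T) :
    2 * |f b - f a| ≤ ∫ x in (0 : ℝ)..T, |f' x| := by
  have k : ∀ x y, x ≤ y → |f y - f x| ≤ ∫ t in x..y, |f' t| := fun x y hxy => by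
    rw [← intervalIntegral.integral_eq_sub_of_hasDerivAt (fun t _ => hf t)
      (hc.intervalIntegrable _ _)]
    exact intervalIntegral.abs_integral_le_integral_abs hxy
  have i : ∀ x y, IntervalIntegrable (fun t => |f' t|) volume x y := fun x y =>
    hc.abs.intervalIntegrable _ _
  rw [← intervalIntegral.integral_add_adjacent_intervals (i 0 b) (i b T),
    ← intervalIntegral.integral_add_adjacent_intervals (i 0 a) (i a b)]
  have h1 := k 0 a h0
  have h2 := k a b hab
  have h3 := k b T hb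
  rw [hT] at h3
  have h4 : |f b - f a| ≤ |f a - f 0| + |f 0 - f b| := by
    rw [abs_sub_comm]
    exact abs_sub_le _ _ _
  linarith

lemma crofton_cos (θ : ℝ) : ∫ a in (0 : ℝ)..2 * π, |cos (a - θ)| = 4 := by
  have hp : Function.Periodic (fun a => |cos a|) (2 * π) := fun a => by simp
  rw [intervalIntegral.integral_comp_sub_right (fun a => |cos a|)]
  have h1 := hp.intervalIntegral_add_eq (0 - θ) (-(π / 2))
  rw [show 0 - θ + 2 * π = 2 * π - θ by ring] at h1
  rw [h1, ← intervalIntegral.integral_add_adjacent_intervals (b := π / 2)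
    (continuous_cos.abs.intervalIntegrable _ _) (continuous_cos.abs.intervalIntegrable _ _)]
  have e1 : ∫ a in -(π / 2)..π / 2, |cos a| = ∫ a in -(π / 2)..π / 2, cos a :=
    intervalIntegral.integral_congr fun a ha => by
      rw [uIcc_of_le (by linarith [pi_pos])] at ha
      exact abs_of_nonneg (cos_nonneg_of_mem_Icc ha)
  have e2 : ∫ a in π / 2..-(π / 2) + 2 * π, |cos a| = ∫ a in π / 2..-(π / 2) + 2 * π, -cos a :=
    intervalIntegral.integral_congr fun a ha => by
      rw [uIcc_of_le (by linarith [pi_pos])] at ha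
      exact abs_of_nonpos (cos_nonpos_of_pi_div_two_le_of_le ha.1 (by linarith [ha.2]))
  rw [e1, e2, intervalIntegral.integral_neg, integral_cos, integral_cos]
  simp
  norm_num

lemma crofton_lin (L : ℂ →L[ℝ] ℝ) {r : ℝ} (hr : 0 ≤ r) :
    ∫ a in (0 : ℝ)..2 * π, |L (circleMap 0 r a * Complex.I)| ≤ 4 * r * ‖L‖ := by
  set w : ℂ := ⟨L Complex.I, -L 1⟩ with hw
  have h1 : ‖w‖ * cos (Complex.arg w) = L Complex.I := Complex.norm_mul_cos_arg w
  have h2 : ‖w‖ * sin (Complex.arg w) = -L 1 := Complex.norm_mul_sin_arg w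
  have h3 : ∀ ρ a : ℝ, L (circleMap 0 ρ a * Complex.I) = ρ * ‖w‖ * cos (a - Complex.arg w) := by
    intro ρ a
    have e : circleMap 0 ρ a * Complex.I =
        (ρ * cos a) • Complex.I + (-(ρ * sin a)) • (1 : ℂ) := by
      apply Complex.ext <;> simp [circleMap, Complex.exp_mul_I, Complex.cos_ofReal_re,
        Complex.sin_ofReal_re]
    rw [e, map_add, map_smul, map_smul, cos_sub, smul_eq_mul, smul_eq_mul]
    linear_combination -(ρ * cos a) * h1 - (ρ * sin a) * h2
  have h4 : ‖w‖ ≤ ‖L‖ := by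
    have := L.le_opNorm (circleMap 0 1 (Complex.arg w) * Complex.I)
    rw [h3] at this
    simpa using this
  simp only [h3, abs_mul]
  rw [intervalIntegral.integral_const_mul, crofton_cos, abs_of_nonneg hr, abs_norm]
  nlinarith

theorem crofton {u : ℂ → ℝ} (hu : ContDiff ℝ 1 u) (hc : HasCompactSupport u) {ψ : ℝ → ℝ}
    (hψ : Continuous ψ) (ψ0 : ∀ t, 0 ≤ ψ t) {t₀ s : ℝ} (ht₀ : 0 < t₀) (hs : 0 ≤ s) {Z : Set ℂ}
    (hZ : MeasurableSet Z)
    (h : ∀ x ∈ Z, (∃ y ∈ sphere x t₀, s ≤ |u y|) ∧ ∃ y ∈ sphere x t₀, u y = 0) :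
    (∫ t in (0 : ℝ)..s, ψ t) * volume.real Z ≤ 2 * t₀ * ∫ x, ‖fderiv ℝ u x‖ * ψ |u x| := by
  have cψ : Continuous fun t : ℝ => ψ |t| := hψ.comp continuous_abs
  set Ψ : ℝ → ℝ := fun y => ∫ t in (0 : ℝ)..y, ψ |t| with hΨ
  have dΨ : ∀ y, HasDerivAt Ψ (ψ |y|) y := fun y => (cψ.integral_hasStrictDerivAt 0 y).hasDerivAt
  have mΨ : Monotone Ψ := monotone_of_deriv_nonneg (fun y => (dΨ y).differentiableAt)
    fun y => by rw [(dΨ y).deriv]; exact ψ0 _
  have oΨ : ∀ y, Ψ (-y) = -Ψ y := fun y => by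
    have := intervalIntegral.integral_comp_neg (a := 0) (b := y) fun t : ℝ => ψ |t|
    simp only [abs_neg, neg_zero] at this
    simp only [hΨ]
    rw [this, intervalIntegral.integral_symm]
  set P := ∫ t in (0 : ℝ)..s, ψ t with hP
  have eP : P = Ψ s := intervalIntegral.integral_congr fun t ht => by
    rw [uIcc_of_le hs] at ht
    simp only [abs_of_nonneg ht.1]
  have P0 : 0 ≤ P := intervalIntegral.integral_nonneg hs fun t _ => ψ0 t
  have lΨ : ∀ y, s ≤ |y| → P ≤ |Ψ y| := fun y hy => by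
    rw [eP]
    rcases le_abs.1 hy with k | k
    · exact (mΨ k).trans (le_abs_self _)
    · exact (mΨ k).trans (by rw [oΨ]; exact neg_le_abs _)
  have cu := hu.continuous
  have cD : Continuous (fderiv ℝ u) := hu.continuous_fderiv one_ne_zero
  have du : ∀ x, HasFDerivAt u (fderiv ℝ u x) x := fun x =>
    (hu.differentiable one_ne_zero x).hasFDerivAt
  set G : ℂ → ℝ → ℝ := fun x a => |ψ |u x| * fderiv ℝ u x (circleMap 0 t₀ a * Complex.I)| with hG
  have cG : Continuous (Function.uncurry G) := by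
    have c1 : Continuous fun p : ℂ × ℝ => circleMap 0 t₀ p.2 :=
      (continuous_circleMap 0 t₀).comp continuous_snd
    exact ((cψ.comp (cu.comp continuous_fst)).mul
      ((cD.comp continuous_fst).clm_apply (c1.mul continuous_const))).abs
  have cF : Continuous (Function.uncurry fun x a => G (x + circleMap 0 t₀ a) a) :=
    cG.comp ((continuous_fst.add ((continuous_circleMap 0 t₀).comp continuous_snd)).prodMk
      continuous_snd)
  have conv : ∀ f : ℝ → ℝ, Continuous f → (∀ a, 0 ≤ f a) →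
      ENNReal.ofReal (∫ a in (0 : ℝ)..2 * π, f a) =
        ∫⁻ a in Ioc 0 (2 * π), ENNReal.ofReal (f a) := fun f hf f0 => by
    rw [intervalIntegral.integral_of_le (by positivity)]
    exact ofReal_integral_eq_lintegral_ofReal (hf.integrableOn_Icc.mono_set Ioc_subset_Icc_self)
      (ae_of_all _ f0)
  have low : ∀ x ∈ Z, ENNReal.ofReal (2 * P) ≤
      ∫⁻ a in Ioc 0 (2 * π), ENNReal.ofReal (G (x + circleMap 0 t₀ a) a) := by
    intro x hx
    have cx : Continuous fun a => G (x + circleMap 0 t₀ a) a :=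
      cF.comp (continuous_const.prodMk continuous_id)
    rw [← conv _ cx fun a => abs_nonneg _]
    refine ENNReal.ofReal_le_ofReal ?_
    obtain ⟨⟨y, y1, y2⟩, y', y3, y4⟩ := h x hx
    rw [← abs_of_pos ht₀, ← image_circleMap_Ioc] at y1 y3
    obtain ⟨a, a1, rfl⟩ := y1
    obtain ⟨b, b1, b2⟩ := y3
    have ec : ∀ a, circleMap x t₀ a = x + circleMap 0 t₀ a := fun a => by simp [circleMap]
    have df : ∀ a, HasDerivAt (fun a => Ψ (u (circleMap x t₀ a)))
        (ψ |u (x + circleMap 0 t₀ a)| *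
          fderiv ℝ u (x + circleMap 0 t₀ a) (circleMap 0 t₀ a * Complex.I)) a := fun a => by
      rw [← ec]
      exact (dΨ _).comp a ((du _).comp_hasDerivAt a (hasDerivAt_circleMap x t₀ a))
    have cf : Continuous fun a => ψ |u (x + circleMap 0 t₀ a)| *
        fderiv ℝ u (x + circleMap 0 t₀ a) (circleMap 0 t₀ a * Complex.I) := by
      have c1 := continuous_circleMap 0 t₀
      have c2 : Continuous fun a => x + circleMap 0 t₀ a := continuous_const.add c1
      exact (cψ.comp (cu.comp c2)).mul ((cD.comp c2).clm_apply (c1.mul continuous_const))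
    have per : Ψ (u (circleMap x t₀ (2 * π))) = Ψ (u (circleMap x t₀ 0)) := by
      have := periodic_circleMap x t₀ 0
      rw [zero_add] at this
      rw [this]
    have z : Ψ (u (circleMap x t₀ b)) = 0 := by
      rw [b2, y4]
      simp [hΨ]
    have l := lΨ _ y2
    rcases le_total a b with k | k
    · have := crofton_var df cf per a1.1.le k b1.2
      simp only [z, zero_sub, abs_neg] at this
      exact le_trans (by linarith) this
    · have := crofton_var df cf per b1.1.le k a1.2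
      simp only [z, sub_zero] at this
      exact le_trans (by linarith) this
  have up : ∀ x, ∫⁻ a in Ioc 0 (2 * π), ENNReal.ofReal (G x a) ≤
      ENNReal.ofReal (4 * t₀ * (‖fderiv ℝ u x‖ * ψ |u x|)) := by
    intro x
    rw [← conv (G x) (cG.comp (continuous_const.prodMk continuous_id)) fun a => abs_nonneg _]
    refine ENNReal.ofReal_le_ofReal ?_
    simp only [hG, abs_mul]
    rw [intervalIntegral.integral_const_mul, abs_of_nonneg (ψ0 _)]
    have := mul_le_mul_of_nonneg_left (crofton_lin (fderiv ℝ u x) ht₀.le) (ψ0 |u x|)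
    linarith
  have n0 : ∀ x, 0 ≤ ‖fderiv ℝ u x‖ * ψ |u x| := fun x => mul_nonneg (norm_nonneg _) (ψ0 _)
  have int : Integrable fun x => ‖fderiv ℝ u x‖ * ψ |u x| :=
    (cD.norm.mul (cψ.comp cu)).integrable_of_hasCompactSupport
      ((hc.fderiv ℝ).norm.mul_right)
  have I0 : 0 ≤ ∫ x, ‖fderiv ℝ u x‖ * ψ |u x| := integral_nonneg n0
  have main : ENNReal.ofReal (2 * P) * volume Z ≤
      ENNReal.ofReal (4 * t₀ * ∫ x, ‖fderiv ℝ u x‖ * ψ |u x|) := by
    calc ENNReal.ofReal (2 * P) * volume Z = ∫⁻ x in Z, ENNReal.ofReal (2 * P) :=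
          (setLIntegral_const _ _).symm
      _ ≤ ∫⁻ x in Z, ∫⁻ a in Ioc 0 (2 * π), ENNReal.ofReal (G (x + circleMap 0 t₀ a) a) :=
          setLIntegral_mono' hZ low
      _ ≤ ∫⁻ x, ∫⁻ a in Ioc 0 (2 * π), ENNReal.ofReal (G (x + circleMap 0 t₀ a) a) :=
          setLIntegral_le_lintegral _ _
      _ = ∫⁻ a in Ioc 0 (2 * π), ∫⁻ x, ENNReal.ofReal (G (x + circleMap 0 t₀ a) a) :=
          lintegral_lintegral_swap cF.measurable.ennreal_ofReal.aemeasurable
      _ = ∫⁻ a in Ioc 0 (2 * π), ∫⁻ x, ENNReal.ofReal (G x a) :=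
          lintegral_congr fun a =>
            lintegral_add_right_eq_self (fun x => ENNReal.ofReal (G x a)) _
      _ = ∫⁻ x, ∫⁻ a in Ioc 0 (2 * π), ENNReal.ofReal (G x a) :=
          (lintegral_lintegral_swap cG.measurable.ennreal_ofReal.aemeasurable).symm
      _ ≤ ∫⁻ x, ENNReal.ofReal (4 * t₀ * (‖fderiv ℝ u x‖ * ψ |u x|)) := lintegral_mono up
      _ = ENNReal.ofReal (4 * t₀ * ∫ x, ‖fderiv ℝ u x‖ * ψ |u x|) := by
          rw [← integral_const_mul]
          exact (ofReal_integral_eq_lintegral_ofReal (int.const_mul _)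
            (ae_of_all _ fun x => mul_nonneg (by positivity) (n0 x))).symm
  have fin := ENNReal.toReal_mono ENNReal.ofReal_ne_top main
  rw [ENNReal.toReal_mul, ENNReal.toReal_ofReal (by positivity),
    ENNReal.toReal_ofReal (by positivity)] at fin
  rw [Measure.real]
  linarith

end Pool.Agent.Work.MP_267827_an
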