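import Pool.Agent.Work.MP_267827_an.TwoD
import Pool.Agent.Work.MP_267827_an.Dist

/-! The radial inequality on a good triangle. -/

set_option autoImplicit false

namespace Pool.Agent.Work.MP_267827_an

open MeasureTheory Set Filter Topology Metric Real

theorem GoodB_int {H Dw Dv De N P : ℝ → ℝ} (iH : Integrable H m1)
    (iH2 : Integrable (fun t => H t ^ 2) m1) (iw : Integrable Dw m1) (iv : Integrable Dv m1)
    (ie : Integrable De m1) (iN : Integrable N m1) (iP : Integrable P m1)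
    {a k0 c0 A B C l1 l2 : ℝ}
    (h : ∀ t ∈ Ioo (0 : ℝ) 1, -(a * H t) + k0 - 1 / 200 * H t ^ 2 + c0 * Dw t -
      (A * Dw t + B * Dv t + C * De t) ≤ Dw t - l1 * N t - l2 * P t) :
    -(a * ∫ t, H t ∂m1) + k0 - 1 / 200 * (∫ t, H t ^ 2 ∂m1) + c0 * (∫ t, Dw t ∂m1) -
      (A * (∫ t, Dw t ∂m1) + B * (∫ t, Dv t ∂m1) + C * ∫ t, De t ∂m1) ≤
      (∫ t, Dw t ∂m1) - l1 * (∫ t, N t ∂m1) - l2 * ∫ t, P t ∂m1 := by
  have : IsProbabilityMeasure m1 := ⟨by simp [m1]⟩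
  have i1 := iadd (ineg (iH.const_mul a)) (integrable_const k0)
  have i2 := isub i1 (iH2.const_mul (1 / 200))
  have i3 := iadd i2 (iw.const_mul c0)
  have i4 := iadd (iw.const_mul A) (iv.const_mul B)
  have i5 := iadd i4 (ie.const_mul C)
  have i6 := isub iw (iN.const_mul l1)
  have key := integral_mono_ae (isub i3 i5) (isub i6 (iP.const_mul l2))
    ((ae_restrict_iff' measurableSet_Ioo).2 (Eventually.of_forall h))
  rw [integral_sub i3 i5, integral_add i2 (iw.const_mul c0),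
    integral_sub i1 (iH2.const_mul (1 / 200)),
    integral_add (ineg (iH.const_mul a)) (integrable_const k0), integral_neg,
    integral_add i4 (ie.const_mul C), integral_add (iw.const_mul A) (iv.const_mul B),
    integral_sub i6 (iP.const_mul l2), integral_sub iw (iN.const_mul l1)] at key
  simpa only [integral_const_mul, integral_const, probReal_univ, one_smul] using key

theorem GoodB_ip {f f' w : ℝ → ℝ} (h : V1 f f') {C : ℝ}
    (hw : ∀ σ, σ < 0 → |w σ| ≤ C * exp (2 * σ)) :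
    (∫ σ, w σ * f σ ∂m0) ^ 2 ≤ C ^ 2 * ∫ σ, f' σ ^ 2 ∂m0 := by
  have h1 := pow_le_pow_left₀ (abs_nonneg _) (h.ip_le hw) 2
  rwa [sq_abs, mul_pow, sq_sqrt (integral_nonneg fun _ => sq_nonneg _)] at h1

theorem GoodB_conv {x x' z t C : ℝ} (ht : t ∈ Icc (0 : ℝ) 1) (h : |x - z| ≤ C)
    (h' : |x' - z| ≤ C) : |(1 - t) * x + t * x' - z| ≤ C := by
  obtain ⟨a1, a2⟩ := abs_le.1 h
  obtain ⟨b1, b2⟩ := abs_le.1 h'
  obtain ⟨t0, t1⟩ := ht
  rw [abs_le]
  constructor <;> nlinarith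

theorem GoodB_sq {e1 e2 e3 y c a1 a2 a3 : ℝ} (h1 : e1 ^ 2 ≤ a1) (h2 : e2 ^ 2 ≤ a2)
    (h3 : e3 ^ 2 ≤ a3) :
    (e1 + y * e2 + y * c * e3) ^ 2 ≤ 3 * (a1 + y ^ 2 * a2 + (y * c) ^ 2 * a3) := by
  have b2 := mul_le_mul_of_nonneg_left h2 (sq_nonneg y)
  have b3 := mul_le_mul_of_nonneg_left h3 (sq_nonneg (y * c))
  nlinarith [sq_nonneg (e1 - y * e2), sq_nonneg (e1 - y * c * e3), sq_nonneg (y * e2 - y * c * e3)]

theorem GoodB_alg {K' K K₀ η δ c M β β₀ b c₁ d : ℝ} (hK : 1 ≤ K₀) (hη : 0 < η) (δ0 : 0 < δ)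
    (δ1 : δ ≤ 1) (hδ : 2403 * 16 * K₀ * K' ^ 2 * δ ≤ η) (hc : |c| ≤ δ) (b0 : 0 < β₀)
    (b1 : β₀ ≤ δ) (hM : M ^ 2 ≤ β₀) (h2 : 2403 * 2 * K ^ 2 * K₀ * β₀ ≤ η)
    (h3 : 2403 * 4 * K₀ * K' ^ 2 * β₀ ≤ η * c₁ ^ 2) (c0 : 0 < c₁) (h4 : c₁ * β₀ ≤ β) :
    2403 * (K' * (|c| + M ^ 4)) ^ 2 ≤ η ∧
    2403 * (K' * ((|c| + M ^ 4) * |c| + M ^ 4 * (|d| + |b|))) ^ 2 * K₀ +
      2403 * (c ^ 2 * K ^ 2) * (K₀ * β₀ ^ 3) ≤ η * (c ^ 2 + (M ^ 2 * d ^ 2 + β ^ 2 * b ^ 2)) := by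
  have M0 := sq_nonneg M
  have b2 : β₀ ≤ 1 := b1.trans δ1
  have M4 : M ^ 4 ≤ β₀ ^ 2 := by
    have := pow_le_pow_left₀ M0 hM 2
    rwa [← pow_mul] at this
  have M40 : 0 ≤ M ^ 4 := by positivity
  have bb : β₀ ^ 2 ≤ β₀ := by nlinarith
  have s1 : (|c| + M ^ 4) ^ 2 ≤ 4 * δ := by
    have := pow_le_pow_left₀ (by positivity) (show |c| + M ^ 4 ≤ 2 * δ by linarith) 2
    nlinarith
  have k0 : 0 ≤ K₀ * K' ^ 2 := by positivity
  have k1 : K' ^ 2 ≤ K₀ * K' ^ 2 := le_mul_of_one_le_left (sq_nonneg _) hK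
  have s2 : K₀ * K' ^ 2 * (|c| + M ^ 4) ^ 2 ≤ K₀ * K' ^ 2 * (4 * δ) :=
    mul_le_mul_of_nonneg_left s1 k0
  constructor
  · have := mul_le_mul_of_nonneg_right k1 (sq_nonneg (|c| + M ^ 4))
    rw [mul_pow]
    nlinarith
  · have s3 : ((|c| + M ^ 4) * |c| + M ^ 4 * (|d| + |b|)) ^ 2 ≤
        2 * ((|c| + M ^ 4) ^ 2 * c ^ 2) + 4 * ((M ^ 4) ^ 2 * d ^ 2) + 4 * ((M ^ 4) ^ 2 * b ^ 2) := by
      rw [← sq_abs c, ← sq_abs d, ← sq_abs b]
      nlinarith [sq_nonneg ((|c| + M ^ 4) * |c| - M ^ 4 * (|d| + |b|)),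
        sq_nonneg (M ^ 4 * |d| - M ^ 4 * |b|)]
    have s4 := mul_le_mul_of_nonneg_left s3 k0
    have s5 := mul_le_mul_of_nonneg_right s2 (sq_nonneg c)
    have s6 := mul_le_mul_of_nonneg_right hδ (sq_nonneg c)
    have t1 : (M ^ 4) ^ 2 ≤ δ * M ^ 2 := by
      have e : (M ^ 4) ^ 2 = M ^ 4 * M ^ 2 * M ^ 2 := by ring
      rw [e]
      refine mul_le_mul_of_nonneg_right ?_ M0
      nlinarith
    have t2 : K₀ * K' ^ 2 * ((M ^ 4) ^ 2 * d ^ 2) ≤ K₀ * K' ^ 2 * (δ * M ^ 2 * d ^ 2) :=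
      mul_le_mul_of_nonneg_left (mul_le_mul_of_nonneg_right t1 (sq_nonneg d)) k0
    have t3 := mul_le_mul_of_nonneg_right hδ (mul_nonneg M0 (sq_nonneg d))
    have t4 : 0 ≤ η * (M ^ 2 * d ^ 2) := by positivity
    have u1 : (M ^ 4) ^ 2 ≤ β₀ * β₀ ^ 2 := by
      have := pow_le_pow_left₀ M40 M4 2
      nlinarith [mul_le_mul_of_nonneg_right bb (sq_nonneg β₀)]
    have u2 : 2403 * 4 * (K₀ * K' ^ 2 * (M ^ 4) ^ 2) ≤ η * β ^ 2 := by
      have a1 := mul_le_mul_of_nonneg_left u1 k0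
      have a2 := mul_le_mul_of_nonneg_right h3 (sq_nonneg β₀)
      have a3 := mul_le_mul_of_nonneg_left (pow_le_pow_left₀ (by positivity) h4 2) hη.le
      nlinarith
    have u3 := mul_le_mul_of_nonneg_right u2 (sq_nonneg b)
    have v1 : β₀ ^ 3 ≤ β₀ := by nlinarith
    have v2 : K ^ 2 * K₀ * β₀ ^ 3 ≤ K ^ 2 * K₀ * β₀ :=
      mul_le_mul_of_nonneg_left v1 (by positivity)
    have v3 := mul_le_mul_of_nonneg_right v2 (sq_nonneg c)
    have v4 := mul_le_mul_of_nonneg_right h2 (sq_nonneg c)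
    rw [mul_pow]
    nlinarith

theorem goodB {u0 K : ℝ} {φ φ' φ'' : ℝ → ℝ} (h : Wt u0 K φ φ' φ'') (h0 : 0 < u0)
    (h1 : u0 ≤ 1 / 4) {c0 δ₁ K₀ η : ℝ} (ray : RayP φ c0 801 δ₁) (hδ₁ : 0 < δ₁) (hK : 1 ≤ K₀)
    (hη : 0 < η) : ∃ δ : ℝ, 0 < δ ∧ ∀ c₁ : ℝ, 0 < c₁ →
    ∀ᶠ β₀ in 𝓝[>] (0 : ℝ), ∀ (lam ε : ℝ) (v : ℝ × ℝ → ℝ),
      Ref φ K₀ β₀ lam ε v → ∀ β b c : ℝ, Par c₁ δ β₀ β b c → ∀ w, VV w → ∀ y : ℝ,
        -(2 * (y * c * DD) * ∫ t, HG φ β₀ β b c y v (fun p => y * v p + w p) t ∂m1) +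
          (y * c * DD) ^ 2 * (4 + jj ^ 2 / 6 - 1 / 200) -
          1 / 200 * (∫ t, HG φ β₀ β b c y v (fun p => y * v p + w p) t ^ 2 ∂m1) +
          (c0 - η) * Ds w - η * y ^ 2 * (c ^ 2 + Mg β₀ β b) ≤ RR c lam y w := by
  obtain ⟨K', δ0, hK', δ00, -, δ01, hd⟩ := dist_est h h0 h1
  obtain ⟨δ, e1, ⟨δp, e2⟩, -, e3⟩ := ((ev_small (2403 * 16 * K₀ * K' ^ 2) hη).and
    ((ev_le δ00).and (ev_le hδ₁))).exists
  refine ⟨δ, δp, fun c₁ hc₁ => ?_⟩
  filter_upwards [ev_le (sq_pos_of_pos δp), ev_le (show (0 : ℝ) < (1 / 64) ^ 4 by positivity),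
    ev_small (2403 * 2 * K ^ 2 * K₀) hη,
    ev_small (2403 * 4 * K₀ * K' ^ 2) (show 0 < η * c₁ ^ 2 by positivity), ev_small K₀ hδ₁]
    with β₀ ⟨b0, b1⟩ ⟨_, b2⟩ b3 b4 b5 lam ε v hv β b c par w hw y
  have δ1 : δ ≤ 1 := by linarith
  have b6 : β₀ ≤ δ := by nlinarith
  have β0 : 0 < β := lt_of_lt_of_le (by positivity) par.low
  have β1 : β ≤ δ := by
    have := par.up
    exact abs_le_of_sq_le_sq' (par.up.trans b1) δp.le |>.2
  have hb : |b| ≤ 1 / 64 := by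
    have a1 : |b| ^ 4 ≤ (1 / 64) ^ 4 := by
      rw [show (4 : ℕ) = 2 * 2 from rfl, pow_mul, sq_abs, ← pow_mul]
      exact par.bb.trans b2
    exact (pow_le_pow_iff_left₀ (abs_nonneg _) (by norm_num) (by norm_num)).1 a1
  have hM : max β β₀ ^ 2 ≤ β₀ := by
    rcases le_total β β₀ with c1 | c1
    · rw [max_eq_right c1]; nlinarith
    · rw [max_eq_left c1]; exact par.up
  have hMd : max β β₀ ≤ δ0 := (max_le β1 b6).trans e2
  have d1 := (hd _ β b c hMd β0 (le_max_left _ _) hb (par.cc.trans e2)).1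
  have d2 := (hd _ β (-b) c hMd β0 (le_max_left _ _) (by rwa [abs_neg]) (par.cc.trans e2)).1
  have d3 := (hd _ β₀ 0 0 hMd b0 (le_max_right _ _) (by simp) (by simpa using δ00.le)).1
  obtain ⟨g1, g2⟩ := GoodB_alg (K := K) (b := b) (d := β - β₀) hK hη δp δ1 e1 par.cc b0 b6 hM b3 b4
    hc₁ par.low
  set A := K' * (|c| + max β β₀ ^ 4) with hA
  set B := K' * ((|c| + max β β₀ ^ 4) * |c| + max β β₀ ^ 4 * (|β - β₀| + |b|)) with hB
  have hJ := v1_JJ.toVV.1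
  have he : VV fun p => -1 * JJ p.1 + v p := hJ.lin (-1) hv.vv
  have hV : VV fun p => y * v p + w p := hv.vv.lin y hw
  have bd : ∀ {x C : ℝ} {σ : ℝ}, |x - φ σ| ≤ C * exp (2 * σ) → |x| ≤ (C + 11) * exp (2 * σ) :=
    fun {x C σ} hx => by
      have a1 := h.abs_le h0 σ
      have a2 := abs_add_le (x - φ σ) (φ σ)
      rw [sub_add_cancel] at a2
      linarith
  have m1' := (Ps_cont h c β0 b).aestronglyMeasurable (μ := volume) measurableSet_Iio
  have m2' := (Ps_cont h c β0 (-b)).aestronglyMeasurable (μ := volume) measurableSet_Iio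
  have m3' := (Ps_cont h 0 b0 0).aestronglyMeasurable (μ := volume) measurableSet_Iio
  have p1 := hV.proj m1' fun σ hσ => bd (d1 σ hσ).1
  have p2 := hV.proj m2' fun σ hσ => bd (d2 σ hσ).1
  have p3 := hv.vv.proj m3' fun σ hσ => bd (d3 σ hσ).1
  have hH : ContinuousOn (HG φ β₀ β b c y v fun p => y * v p + w p) (Icc 0 1) := by
    refine (((((continuousOn_const (c := (1 : ℝ))).sub continuousOn_id).mul p1.1).add
      (continuousOn_id.mul p2.1)).sub ((continuousOn_const (c := y)).mul p3.1)).congr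
      fun t ht => ?_
    simp only [HG, id, Pi.add_apply, Pi.sub_apply, Pi.mul_apply]
    rw [← integral_const_mul (1 - t), ← integral_const_mul t,
      ← integral_add ((p1.2.2.2 t ht).1.const_mul _) ((p2.2.2.2 t ht).1.const_mul _)]
    congr 1
    exact integral_congr_ae (Eventually.of_forall fun σ => by simp only; ring)
  have iH : Integrable (HG φ β₀ β b c y v fun p => y * v p + w p) m1 :=
    (hH.integrableOn_compact isCompact_Icc).mono_set Ioo_subset_Icc_self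
  have iH2 : Integrable (fun t => HG φ β₀ β b c y v (fun p => y * v p + w p) t ^ 2) m1 :=
    ((hH.pow 2).integrableOn_compact isCompact_Icc).mono_set Ioo_subset_Icc_self
  have fw := nu_fub hw.int_s
  have fv := nu_fub hv.vv.int_s
  have fe := nu_fub he.int_s
  have fN := nu_fub hw.int_N2
  have fP := nu_fub (hJ.int_N hw)
  have hlam : jj ^ 2 - δ₁ ≤ lam := by
    have a1 := hv.le_lam
    have a2 : β₀ ^ 3 ≤ β₀ := by
      have : β₀ ≤ 1 := b6.trans δ1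
      nlinarith [mul_pos b0 b0]
    nlinarith
  have key := GoodB_int iH iH2 fw.1 fv.1 fe.1 fN.1 fP.1 (a := 2 * (y * c * DD))
    (k0 := (y * c * DD) ^ 2 * (4 + jj ^ 2 / 6 - 1 / 200)) (c0 := c0) (A := 2403 * A ^ 2)
    (B := 2403 * (y ^ 2 * B ^ 2)) (C := 2403 * ((y * c) ^ 2 * K ^ 2)) (l1 := lam * exp (2 * c))
    (l2 := 2 * y * lam * (exp (2 * c) - 1)) fun t ht => by
      have ht' := Ioo_subset_Icc_self ht
      have sw := hw.slice ht'
      have sv := hv.vv.slice ht'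
      have se := he.slice ht'
      have r := ray _ _ sw y c lam (HG φ β₀ β b c y v (fun p => y * v p + w p) t)
        (par.cc.trans e3) hlam hv.lam_le
      have q1 := GoodB_ip sw (C := A) (w := fun σ =>
        (1 - t) * Ps φ c β b σ + t * Ps φ c β (-b) σ - φ σ) fun σ hσ =>
          GoodB_conv ht' (d1 σ hσ).1 (d2 σ hσ).1
      have q2 := GoodB_ip sv (C := B) (w := fun σ =>
        (1 - t) * Ps φ c β b σ + t * Ps φ c β (-b) σ - (Ps φ 0 β₀ 0 σ + c * φ' σ)) fun σ hσ => by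
          have a1 := (d1 σ hσ).2.2 β₀ b0 (le_max_right _ _)
          have a2 := (d2 σ hσ).2.2 β₀ b0 (le_max_right _ _)
          rw [abs_neg, sub_sub] at a2
          rw [sub_sub] at a1
          exact GoodB_conv ht' a1 a2
      have q3 := GoodB_ip se (C := K) (w := φ') fun σ _ => h.b1 σ
      have q4 := GoodB_sq (y := y) (c := c) q1 q2 q3
      have iΨ : Integrable (fun σ => (1 - t) * Ps φ c β b σ + t * Ps φ c β (-b) σ) m0 :=
        iadd ((int_of_cont (Ps_cont h c β0 b) two_pos fun σ hσ => bd (d1 σ hσ).1).const_mul _)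
          ((int_of_cont (Ps_cont h c β0 (-b)) two_pos fun σ hσ => bd (d2 σ hσ).1).const_mul _)
      have i0 : Integrable (Ps φ 0 β₀ 0) m0 :=
        int_of_cont (Ps_cont h 0 b0 0) two_pos fun σ hσ => bd (d3 σ hσ).1
      have iφ := h.int h0
      have iφ' := h.int'
      have eq : HG φ β₀ β b c y v (fun p => y * v p + w p) t -
          ((∫ σ, φ σ * w (σ, t) ∂m0) - y * c * ∫ σ, φ σ * ZZ σ ∂m0) =
          (∫ σ, ((1 - t) * Ps φ c β b σ + t * Ps φ c β (-b) σ - φ σ) * w (σ, t) ∂m0) +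
          y * (∫ σ, ((1 - t) * Ps φ c β b σ + t * Ps φ c β (-b) σ -
            (Ps φ 0 β₀ 0 σ + c * φ' σ)) * v (σ, t) ∂m0) +
          y * c * ∫ σ, φ' σ * (-1 * JJ σ + v (σ, t)) ∂m0 := by
        have j1 := sw.b0.int_mul iΨ
        have j2 := sv.b0.int_mul iΨ
        have j3 := sw.b0.int_mul iφ
        have j4 := sv.b0.int_mul i0
        have j5 := sv.b0.int_mul iφ'
        have j6 := b0_JJ.int_mul iφ'
        have a1 : ∫ σ, (y * v (σ, t) + w (σ, t)) *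
            ((1 - t) * Ps φ c β b σ + t * Ps φ c β (-b) σ) ∂m0 =
            y * (∫ σ, ((1 - t) * Ps φ c β b σ + t * Ps φ c β (-b) σ) * v (σ, t) ∂m0) +
            ∫ σ, ((1 - t) * Ps φ c β b σ + t * Ps φ c β (-b) σ) * w (σ, t) ∂m0 := by
          rw [← integral_const_mul, ← integral_add (j2.const_mul _) j1]
          exact integral_congr_ae (Eventually.of_forall fun σ => by simp only; ring)
        have a2 : ∫ σ, ((1 - t) * Ps φ c β b σ + t * Ps φ c β (-b) σ - φ σ) * w (σ, t) ∂m0 =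
            (∫ σ, ((1 - t) * Ps φ c β b σ + t * Ps φ c β (-b) σ) * w (σ, t) ∂m0) -
            ∫ σ, φ σ * w (σ, t) ∂m0 := by
          rw [← integral_sub j1 j3]
          exact integral_congr_ae (Eventually.of_forall fun σ => by simp only; ring)
        have a3 : ∫ σ, ((1 - t) * Ps φ c β b σ + t * Ps φ c β (-b) σ -
            (Ps φ 0 β₀ 0 σ + c * φ' σ)) * v (σ, t) ∂m0 =
            (∫ σ, ((1 - t) * Ps φ c β b σ + t * Ps φ c β (-b) σ) * v (σ, t) ∂m0) -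
            (∫ σ, Ps φ 0 β₀ 0 σ * v (σ, t) ∂m0) - c * ∫ σ, φ' σ * v (σ, t) ∂m0 := by
          rw [← integral_const_mul, ← integral_sub j2 j4,
            ← integral_sub (isub j2 j4) (j5.const_mul _)]
          exact integral_congr_ae (Eventually.of_forall fun σ => by simp only; ring)
        have a4 : ∫ σ, φ' σ * (-1 * JJ σ + v (σ, t)) ∂m0 =
            (∫ σ, φ' σ * v (σ, t) ∂m0) - ∫ σ, φ' σ * JJ σ ∂m0 := by
          rw [← integral_sub j5 j6]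
          exact integral_congr_ae (Eventually.of_forall fun σ => by simp only; ring)
        have a5 : ∫ σ, v (σ, t) * Ps φ 0 β₀ 0 σ ∂m0 = ∫ σ, Ps φ 0 β₀ 0 σ * v (σ, t) ∂m0 :=
          integral_congr_ae (Eventually.of_forall fun σ => mul_comm _ _)
        simp only [HG]
        rw [a1, a2, a3, a4, a5, h.ibp h0]
        ring
      rw [eq] at r
      simp only at q4 r ⊢
      linarith
  rw [← fw.2, ← fv.2, ← fe.2, ← fN.2, ← fP.2] at key
  have w0 := Ds_nonneg w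
  have k1 := mul_le_mul_of_nonneg_right g1 w0
  have k2 := mul_le_mul_of_nonneg_left hv.ds_le (show 0 ≤ 2403 * (y ^ 2 * B ^ 2) by positivity)
  have k3 := mul_le_mul_of_nonneg_left hv.e_le
    (show 0 ≤ 2403 * ((y * c) ^ 2 * K ^ 2) by positivity)
  have k4 := mul_le_mul_of_nonneg_left g2 (sq_nonneg y)
  simp only [RR, Mg, Ds, N0] at k1 k2 k3 key ⊢
  nlinarith

end Pool.Agent.Work.MP_267827_an
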