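import Pool.Agent.Work.MP_267827_an.TwoD
import Pool.Agent.Work.MP_267827_an.Dist

/-! The derivative of the coupling function on a good triangle. -/

set_option autoImplicit false

namespace Pool.Agent.Work.MP_267827_an

open MeasureTheory Set Filter Topology Metric Real

/-- continuous weights with decay -/
structure GoodC_W (g : ℝ → ℝ) (C : ℝ) : Prop where
  c : ContinuousOn g (Iio 0)
  b : ∀ σ, σ < 0 → |g σ| ≤ C * exp (2 * σ)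

theorem GoodC_W.m {g : ℝ → ℝ} {C : ℝ} (h : GoodC_W g C) : AEStronglyMeasurable g m0 :=
  h.c.aestronglyMeasurable measurableSet_Iio

theorem GoodC_W.sq {g : ℝ → ℝ} {C : ℝ} (h : GoodC_W g C) (σ : ℝ) (hσ : σ < 0) :
    g σ ^ 2 ≤ C ^ 2 * exp (4 * σ) := by
  have h1 := pow_le_pow_left₀ (abs_nonneg _) (h.b σ hσ) 2
  rwa [sq_abs, mul_pow, exp_sq, show 2 * (2 * σ) = 4 * σ by ring] at h1

theorem GoodC_W.int {g : ℝ → ℝ} {C : ℝ} (h : GoodC_W g C) : Integrable (fun σ => g σ ^ 2) m0 :=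
  int_of_cont (h.c.pow 2) (K := C ^ 2) (a := 4) (by norm_num) fun σ hσ => by
    rw [abs_of_nonneg (sq_nonneg _)]; exact h.sq σ hσ

theorem GoodC_W.le {g : ℝ → ℝ} {C : ℝ} (h : GoodC_W g C) : ∫ σ, g σ ^ 2 ∂m0 ≤ C ^ 2 := by
  have h1 := integral_mono_ae h.int ((int_exp (a := 4) (by norm_num)).const_mul (C ^ 2))
    (ae_m0 h.sq)
  rw [integral_const_mul, integral_exp0 (by norm_num)] at h1
  nlinarith [sq_nonneg C]

theorem GoodC_der {V v : ℝ × ℝ → ℝ} (hV : VV V) (hv : VV v) {P Q R : ℝ → ℝ} {L : ℝ}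
    (hP : GoodC_W P L) (hQ : GoodC_W Q L) (hR : GoodC_W R L) (y : ℝ) {G G' : ℝ → ℝ}
    (hG : ∀ t, G t = (∫ σ, V (σ, t) * ((1 - t) * P σ + t * Q σ) ∂m0) -
      y * ∫ σ, v (σ, t) * R σ ∂m0)
    (hG' : ∀ t, G' t = (∫ σ, dt V (σ, t) * ((1 - t) * P σ + t * Q σ) ∂m0) +
      (∫ σ, V (σ, t) * (Q σ - P σ) ∂m0) - y * ∫ σ, dt v (σ, t) * R σ ∂m0) :
    ContinuousOn G (Icc 0 1) ∧ ContinuousOn G' (Icc 0 1) ∧
      ∀ t ∈ Ioo (0 : ℝ) 1, HasDerivAt G (G' t) t := by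
  obtain ⟨a1, a2, a3, a4⟩ := hV.proj hP.m hP.b
  obtain ⟨b1, b2, b3, b4⟩ := hV.proj hQ.m hQ.b
  obtain ⟨c1, c2, c3, -⟩ := hv.proj hR.m hR.b
  have lin : ∀ (f : ℝ → ℝ) (s t : ℝ), Integrable (fun σ => f σ * P σ) m0 →
      Integrable (fun σ => f σ * Q σ) m0 → ∫ σ, f σ * (s * P σ + t * Q σ) ∂m0 =
        s * (∫ σ, f σ * P σ ∂m0) + t * ∫ σ, f σ * Q σ ∂m0 := fun f s t h1 h2 => by
    rw [← integral_const_mul, ← integral_const_mul, ← integral_add (h1.const_mul _) (h2.const_mul _)]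
    exact integral_congr_ae (Eventually.of_forall fun σ => by ring)
  have e1 : ∀ t ∈ Icc (0 : ℝ) 1, G t = (1 - t) * (∫ σ, V (σ, t) * P σ ∂m0) +
      t * (∫ σ, V (σ, t) * Q σ ∂m0) - y * ∫ σ, v (σ, t) * R σ ∂m0 := fun t ht => by
    rw [hG, lin _ _ _ (a4 t ht).1 (b4 t ht).1]
  have e2 : ∀ t ∈ Icc (0 : ℝ) 1, G' t = (1 - t) * (∫ σ, dt V (σ, t) * P σ ∂m0) +
      t * (∫ σ, dt V (σ, t) * Q σ ∂m0) +
      ((∫ σ, V (σ, t) * Q σ ∂m0) - ∫ σ, V (σ, t) * P σ ∂m0) -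
      y * ∫ σ, dt v (σ, t) * R σ ∂m0 := fun t ht => by
    rw [hG', lin _ _ _ (a4 t ht).2.1 (b4 t ht).2.1, ← integral_sub (b4 t ht).1 (a4 t ht).1]
    simp only [mul_sub]
  refine ⟨ContinuousOn.congr ?_ e1, ContinuousOn.congr ?_ e2, fun t ht => ?_⟩
  · exact (((continuousOn_const.sub continuousOn_id).mul a1).add (continuousOn_id.mul b1)).sub
      (continuousOn_const.mul c1)
  · exact ((((continuousOn_const.sub continuousOn_id).mul a2).add (continuousOn_id.mul b2)).add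
      (b1.sub a1)).sub (continuousOn_const.mul c2)
  · have h1 := (((((hasDerivAt_id t).const_sub 1).mul (a3 t ht)).add
      ((hasDerivAt_id t).mul (b3 t ht))).sub ((c3 t ht).const_mul y))
    rw [e2 t (Ioo_subset_Icc_self ht)]
    refine (h1.congr_deriv ?_).congr_of_eventuallyEq ?_
    · simp only [id]; ring
    · filter_upwards [Icc_mem_nhds ht.1 ht.2] with s hs
      rw [e1 s hs]; rfl

theorem GoodC_kap : kap ≤ 1 := by
  unfold kap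
  rw [div_le_one (by positivity)]
  have : 0 ≤ 4 * jj ^ 2 / 3 + jj ^ 4 / 8 := by positivity
  linarith

theorem GoodC_psi {u0 K : ℝ} {φ φ' φ'' : ℝ → ℝ} (h : Wt u0 K φ φ' φ'') (h0 : 0 < u0)
    {g : ℝ → ℝ} {L : ℝ} (hg : GoodC_W g L) (hb : GoodC_W (fun σ => g σ - φ σ) (1 / 100)) :
    kap * ∫ σ, g σ ^ 2 ∂m0 ≤ 92 / 100 := by
  obtain ⟨h1, h2⟩ := kap_phi h h0
  have h3 := integral_mono hg.int ((h1.const_mul (101 / 100)).add (hb.int.const_mul 101))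
    fun σ => by
      simp only [Pi.add_apply]
      nlinarith [sq_nonneg (φ σ - 100 * (g σ - φ σ))]
  simp only [Pi.add_apply] at h3
  rw [integral_add (h1.const_mul _) (hb.int.const_mul _), integral_const_mul,
    integral_const_mul] at h3
  have h4 := hb.le
  have h5 := mul_le_mul_of_nonneg_left h3 kap_pos.le
  have h6 := mul_le_mul GoodC_kap h4 (integral_nonneg fun σ => sq_nonneg _) zero_le_one
  nlinarith

theorem GoodC_pt {v w : ℝ × ℝ → ℝ} (hv : VV v) (hw : VV w) {g1 g2 g0 : ℝ → ℝ} {L a A : ℝ}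
    (h1 : GoodC_W g1 L) (h2 : GoodC_W g2 a) (h0 : GoodC_W g0 L)
    (h3 : GoodC_W (fun σ => g1 σ - g0 σ) A) (h4 : kap * ∫ σ, g1 σ ^ 2 ∂m0 ≤ 92 / 100) (y : ℝ)
    {t : ℝ} (ht : t ∈ Icc (0 : ℝ) 1) :
    kap * ((∫ σ, dt (fun p => y * v p + w p) (σ, t) * g1 σ ∂m0) +
      (∫ σ, (y * v (σ, t) + w (σ, t)) * g2 σ ∂m0) - y * ∫ σ, dt v (σ, t) * g0 σ ∂m0) ^ 2 ≤
      19 / 20 * (∫ σ, dt w (σ, t) ^ 2 ∂m0) + 303 * a ^ 2 * (∫ σ, ds w (σ, t) ^ 2 ∂m0) +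
        303 * y ^ 2 * A ^ 2 * (∫ σ, dt v (σ, t) ^ 2 ∂m0) +
        303 * y ^ 2 * a ^ 2 * ∫ σ, ds v (σ, t) ^ 2 ∂m0 := by
  obtain ⟨-, w1, w2, -⟩ := (hw.proj h1.m h1.b).2.2.2 t ht
  obtain ⟨-, v1, v2, -⟩ := (hv.proj h1.m h1.b).2.2.2 t ht
  obtain ⟨-, v0, -⟩ := (hv.proj h0.m h0.b).2.2.2 t ht
  obtain ⟨-, v3, -⟩ := (hv.proj h3.m h3.b).2.2.2 t ht
  have w4 := ((hw.proj h2.m h2.b).2.2.2 t ht).1
  have v4 := ((hv.proj h2.m h2.b).2.2.2 t ht).1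
  have e1 : ∫ σ, dt (fun p => y * v p + w p) (σ, t) * g1 σ ∂m0 =
      y * (∫ σ, dt v (σ, t) * g1 σ ∂m0) + ∫ σ, dt w (σ, t) * g1 σ ∂m0 := by
    rw [← integral_const_mul, ← integral_add (v1.const_mul _) w1]
    refine integral_congr_ae (ae_m0 fun σ hσ => ?_)
    simp only [(hv.d_lin y hw (p := (σ, t)) hσ).2]
    ring
  have e2 : ∫ σ, (y * v (σ, t) + w (σ, t)) * g2 σ ∂m0 =
      y * (∫ σ, g2 σ * v (σ, t) ∂m0) + ∫ σ, g2 σ * w (σ, t) ∂m0 := by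
    simp only [mul_comm (g2 _)]
    rw [← integral_const_mul, ← integral_add (v4.const_mul _) w4]
    exact integral_congr_ae (Eventually.of_forall fun σ => by ring)
  have e3 : ∫ σ, dt v (σ, t) * g1 σ ∂m0 =
      (∫ σ, dt v (σ, t) * (g1 σ - g0 σ) ∂m0) + ∫ σ, dt v (σ, t) * g0 σ ∂m0 := by
    rw [← integral_add v3 v0]
    exact integral_congr_ae (Eventually.of_forall fun σ => by ring)
  have ip : ∀ u : ℝ × ℝ → ℝ, VV u → (∫ σ, g2 σ * u (σ, t) ∂m0) ^ 2 ≤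
      a ^ 2 * ∫ σ, ds u (σ, t) ^ 2 ∂m0 := fun u hu => by
    have := pow_le_pow_left₀ (abs_nonneg _) ((hu.slice ht).ip_le h2.b) 2
    rwa [sq_abs, mul_pow, sq_sqrt (integral_nonneg fun σ => sq_nonneg _)] at this
  have t1 := cs w2 h1.int w1
  have t2 := ip w hw
  have t3 := (cs v2 h3.int v3).trans
    (mul_le_mul_of_nonneg_left h3.le (integral_nonneg fun σ => sq_nonneg _))
  have t4 := ip v hv
  have n1 : 0 ≤ ∫ σ, dt w (σ, t) ^ 2 ∂m0 := integral_nonneg fun σ => sq_nonneg _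
  rw [e1, e2, e3]
  generalize ∫ σ, dt w (σ, t) * g1 σ ∂m0 = T1 at *
  generalize ∫ σ, g2 σ * w (σ, t) ∂m0 = T2 at *
  generalize ∫ σ, dt v (σ, t) * (g1 σ - g0 σ) ∂m0 = T3 at *
  generalize ∫ σ, g2 σ * v (σ, t) ∂m0 = T4 at *
  generalize ∫ σ, dt v (σ, t) * g0 σ ∂m0 = T0 at *
  have s1 : (y * (T3 + T0) + T1 + (y * T4 + T2) - y * T0) ^ 2 ≤
      101 / 100 * T1 ^ 2 + 303 * (T2 ^ 2 + y ^ 2 * T3 ^ 2 + y ^ 2 * T4 ^ 2) := by
    nlinarith [sq_nonneg (T1 - 100 * (T2 + y * T3 + y * T4)), sq_nonneg (T2 - y * T3),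
      sq_nonneg (T2 - y * T4), sq_nonneg (y * T3 - y * T4)]
  have s2 := mul_le_mul_of_nonneg_left s1 kap_pos.le
  have s3 := mul_le_mul_of_nonneg_left t1 kap_pos.le
  have s4 := mul_le_mul_of_nonneg_left h4 n1
  have s5 := mul_le_mul_of_nonneg_right GoodC_kap
    (show 0 ≤ T2 ^ 2 + y ^ 2 * T3 ^ 2 + y ^ 2 * T4 ^ 2 by positivity)
  have s6 := mul_le_mul_of_nonneg_left t3 (sq_nonneg y)
  have s7 := mul_le_mul_of_nonneg_left t4 (sq_nonneg y)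
  nlinarith

theorem GoodC_int {v w : ℝ × ℝ → ℝ} (hv : VV v) (hw : VV w) {F : ℝ → ℝ} {a1 a2 a3 a4 : ℝ}
    (h : ∀ t ∈ Ioo (0 : ℝ) 1, kap * F t ^ 2 ≤ a1 * (∫ σ, dt w (σ, t) ^ 2 ∂m0) +
      a2 * (∫ σ, ds w (σ, t) ^ 2 ∂m0) + a3 * (∫ σ, dt v (σ, t) ^ 2 ∂m0) +
      a4 * ∫ σ, ds v (σ, t) ^ 2 ∂m0) :
    kap * ∫ t, F t ^ 2 ∂m1 ≤ a1 * Dt w + a2 * Ds w + a3 * Dt v + a4 * Ds v := by
  obtain ⟨i1, e1⟩ := nu_fub hw.int_t
  obtain ⟨i2, e2⟩ := nu_fub hw.int_s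
  obtain ⟨i3, e3⟩ := nu_fub hv.int_t
  obtain ⟨i4, e4⟩ := nu_fub hv.int_s
  have j1 := i1.const_mul a1
  have j2 := iadd j1 (i2.const_mul a2)
  have j3 := iadd j2 (i3.const_mul a3)
  rw [Dt, Ds, Dt, Ds, e1, e2, e3, e4, ← integral_const_mul, ← integral_const_mul,
    ← integral_const_mul, ← integral_const_mul, ← integral_const_mul,
    ← integral_add j1 (i2.const_mul a2), ← integral_add j2 (i3.const_mul a3),
    ← integral_add j3 (i4.const_mul a4)]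
  exact integral_mono_of_nonneg (Eventually.of_forall fun t => mul_nonneg kap_pos.le (sq_nonneg _))
    (iadd j3 (i4.const_mul a4)) ((ae_restrict_iff' measurableSet_Ioo).2 (Eventually.of_forall h))

theorem GoodC_alg {η K₀ K K' θ β β₀ M b c d y I Dw Sw Dv Sv : ℝ} (hη : 0 < η) (hK₀ : 1 ≤ K₀)
    (hK : 0 ≤ K) (hK' : 1 ≤ K') (hβ : 0 < β) (hθ : β ≤ θ) (hM : β ≤ M) (hM0 : β₀ ≤ M)
    (hβ₀ : 0 < β₀) (hM1 : M ≤ 1) (hb : |b| ≤ 1) (hd0 : 0 ≤ d) (hd : d ≤ 1)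
    (hS : 1212 * K₀ * (K' + K) ^ 2 * M ^ 8 ≤ η * β ^ 3) (h1 : 0 ≤ Sw) (h2 : Dv ≤ K₀ * β₀ ^ 8)
    (h3 : Sv ≤ K₀)
    (h : I ≤ 19 / 20 * Dw + 303 * (K' * (M ^ 4 * |b|)) ^ 2 * Sw +
      303 * y ^ 2 * (K' * (d * |c| + M ^ 4 * (|β - β₀| + |b|)) + K * |c|) ^ 2 * Dv +
      303 * y ^ 2 * (K' * (M ^ 4 * |b|)) ^ 2 * Sv) :
    I / θ ≤ 19 / 20 * (Dw / θ) + η * (θ * Sw) +
      η * y ^ 2 * (θ * c ^ 2 + (M ^ 2 * (β - β₀) ^ 2 + β ^ 2 * b ^ 2)) := by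
  have hθ0 : 0 < θ := hβ.trans_le hθ
  have hM0' : 0 < M := hβ.trans_le hM
  obtain ⟨X, hX⟩ : ∃ X, X = K₀ * (K' + K) ^ 2 * M ^ 8 := ⟨_, rfl⟩
  have hX0 : 0 ≤ X := by rw [hX]; positivity
  have hS' : 1212 * X ≤ η * β ^ 3 := by rw [hX]; linarith
  have b2 : b ^ 2 ≤ 1 := by rw [← sq_abs]; exact pow_le_one₀ (abs_nonneg _) hb
  have k1 : K' ^ 2 ≤ (K' + K) ^ 2 := by gcongr; linarith
  have m8 : M ^ 8 ≤ 1 := pow_le_one₀ hM0'.le hM1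
  have a1 : (K' * (M ^ 4 * |b|)) ^ 2 * K₀ ≤ X * b ^ 2 := by
    rw [hX, mul_pow, mul_pow, sq_abs]
    calc K' ^ 2 * ((M ^ 4) ^ 2 * b ^ 2) * K₀ = K₀ * K' ^ 2 * M ^ 8 * b ^ 2 := by ring
      _ ≤ _ := by gcongr
  have a2 : (K' * (d * |c| + M ^ 4 * (|β - β₀| + |b|)) + K * |c|) ^ 2 ≤
      3 * (K' + K) ^ 2 * (c ^ 2 + (β - β₀) ^ 2 + b ^ 2) := by
    have m4 : M ^ 4 ≤ 1 := pow_le_one₀ hM0'.le hM1
    have : K' * (d * |c| + M ^ 4 * (|β - β₀| + |b|)) + K * |c| ≤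
        (K' + K) * (|c| + |β - β₀| + |b|) := by
      calc _ ≤ K' * (1 * |c| + 1 * (|β - β₀| + |b|)) + K * (|c| + (|β - β₀| + |b|)) := by
            gcongr
            exact le_add_of_nonneg_right (by positivity)
        _ = _ := by ring
    refine (pow_le_pow_left₀ (by positivity) this 2).trans ?_
    rw [mul_pow, ← sq_abs c, ← sq_abs (β - β₀), ← sq_abs b, mul_comm 3, mul_assoc]
    refine mul_le_mul_of_nonneg_left ?_ (sq_nonneg _)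
    nlinarith [sq_nonneg (|c| - |β - β₀|), sq_nonneg (|c| - |b|), sq_nonneg (|β - β₀| - |b|)]
  have a3 : (K' * (d * |c| + M ^ 4 * (|β - β₀| + |b|)) + K * |c|) ^ 2 * Dv ≤
      3 * X * (c ^ 2 + (β - β₀) ^ 2 + b ^ 2) := by
    calc _ ≤ (K' * (d * |c| + M ^ 4 * (|β - β₀| + |b|)) + K * |c|) ^ 2 * (K₀ * β₀ ^ 8) := by gcongr
      _ ≤ 3 * (K' + K) ^ 2 * (c ^ 2 + (β - β₀) ^ 2 + b ^ 2) * (K₀ * M ^ 8) := by gcongr
      _ = _ := by rw [hX]; ring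
  have a4 : (K' * (M ^ 4 * |b|)) ^ 2 * Sv ≤ X * b ^ 2 :=
    (mul_le_mul_of_nonneg_left h3 (sq_nonneg _)).trans a1
  have a5 : (K' * (M ^ 4 * |b|)) ^ 2 ≤ X :=
    (le_mul_of_one_le_right (sq_nonneg _) hK₀).trans (a1.trans (mul_le_of_le_one_right hX0 b2))
  have β1 : β ≤ 1 := hM.trans hM1
  have c1 : 1212 * X ≤ η * (θ * θ) := hS'.trans (mul_le_mul_of_nonneg_left (by
    calc β ^ 3 = β * β * β := by ring
      _ ≤ θ * θ * 1 := by gcongr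
      _ = _ := mul_one _) hη.le)
  have c2 : 1212 * X ≤ η * (θ * β ^ 2) := hS'.trans (mul_le_mul_of_nonneg_left (by
    calc β ^ 3 = β * β ^ 2 := by ring
      _ ≤ _ := by gcongr) hη.le)
  have c3 : 1212 * X ≤ η * (θ * M ^ 2) := c2.trans (by gcongr)
  have d1 := mul_le_mul_of_nonneg_right (show 303 * (K' * (M ^ 4 * |b|)) ^ 2 ≤ η * (θ * θ) by
    linarith) h1
  have d2 := mul_le_mul_of_nonneg_left a3 (sq_nonneg y)
  have d3 := mul_le_mul_of_nonneg_left a4 (sq_nonneg y)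
  have d4 := mul_le_mul_of_nonneg_right c1 (show 0 ≤ y ^ 2 * c ^ 2 by positivity)
  have d5 := mul_le_mul_of_nonneg_right c2 (show 0 ≤ y ^ 2 * b ^ 2 by positivity)
  have d6 := mul_le_mul_of_nonneg_right c3 (show 0 ≤ y ^ 2 * (β - β₀) ^ 2 by positivity)
  have d7 : 0 ≤ X * (y ^ 2 * c ^ 2) := by positivity
  have d8 : 0 ≤ X * (y ^ 2 * (β - β₀) ^ 2) := by positivity
  rw [div_le_iff₀ hθ0, add_mul, add_mul, mul_assoc (19 / 20), div_mul_cancel₀ _ hθ0.ne']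
  generalize (K' * (d * |c| + M ^ 4 * (|β - β₀| + |b|)) + K * |c|) ^ 2 = A at *
  generalize (K' * (M ^ 4 * |b|)) ^ 2 = a at *
  generalize (β - β₀) ^ 2 = e at *
  linarith

theorem goodC {u0 K : ℝ} {φ φ' φ'' : ℝ → ℝ} (h : Wt u0 K φ φ' φ'') (h0 : 0 < u0)
    (h1 : u0 ≤ 1 / 4) {K₀ η : ℝ} (hK : 1 ≤ K₀) (hη : 0 < η) : ∃ δ : ℝ, 0 < δ ∧ ∀ c₁ : ℝ, 0 < c₁ →
    ∀ᶠ β₀ in 𝓝[>] (0 : ℝ), ∀ (lam ε : ℝ) (v : ℝ × ℝ → ℝ),
      Ref φ K₀ β₀ lam ε v → ∀ β b c : ℝ, Par c₁ δ β₀ β b c →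
      (∀ V, VV V → ∀ y : ℝ, ContinuousOn (HG φ β₀ β b c y v V) (Icc 0 1) ∧
        ContinuousOn (HG' φ β₀ β b c y v V) (Icc 0 1) ∧
        ∀ t ∈ Ioo (0 : ℝ) 1, HasDerivAt (HG φ β₀ β b c y v V) (HG' φ β₀ β b c y v V t) t) ∧
      ∀ w, VV w → ∀ y : ℝ,
        kap / (π * β) * ∫ t, HG' φ β₀ β b c y v (fun p => y * v p + w p) t ^ 2 ∂m1 ≤
          19 / 20 * (Dt w / (π * β)) + η * (π * β * Ds w) +
            η * y ^ 2 * (π * β * c ^ 2 + Mg β₀ β b) := by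
  obtain ⟨K', δ', hK', hδ', -, hδ1, hD⟩ := dist_est h h0 h1
  have K0 : 0 ≤ K := by simpa using (abs_nonneg _).trans (h.b1 0)
  have hδ : 0 < min δ' (1 / (200 * K')) := lt_min hδ' (by positivity)
  refine ⟨_, hδ, fun c₁ hc₁ => ?_⟩
  filter_upwards [ev_le (pow_pos hδ 2), ev_le (show (0 : ℝ) < (1 / 64) ^ 4 by positivity),
    ev_small (1212 * K₀ * (K' + K) ^ 2) hη,
    ev_small (1212 * K₀ * (K' + K) ^ 2) (mul_pos hη (pow_pos hc₁ 3))] with β₀ e1 e2 e3 e4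
  intro lam ε v hv β b c hp
  have d1 := min_le_left δ' (1 / (200 * K'))
  have d2 := min_le_right δ' (1 / (200 * K'))
  generalize min δ' (1 / (200 * K')) = δ at *
  have hβ₀ := e1.1
  have hβ : 0 < β := (mul_pos hc₁ hβ₀).trans_le hp.low
  have hM : max β β₀ ≤ δ := max_le (le_of_pow_le_pow_left₀ two_ne_zero hδ.le (hp.up.trans e1.2))
    (e1.2.trans (by nlinarith))
  have hb : |b| ≤ 1 / 64 := by
    refine le_of_pow_le_pow_left₀ (n := 4) (by norm_num) (by norm_num) ?_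
    rw [Even.pow_abs (by decide)]
    exact hp.bb.trans e2.2
  have hS : 1212 * K₀ * (K' + K) ^ 2 * max β β₀ ^ 8 ≤ η * β ^ 3 := by
    have b1 : β₀ ≤ 1 := by linarith [le_max_right β β₀]
    have b2 : β ≤ 1 := by linarith [le_max_left β β₀]
    rcases le_total β β₀ with c1 | c1
    · rw [max_eq_right c1]
      calc _ = 1212 * K₀ * (K' + K) ^ 2 * β₀ * β₀ ^ 3 * β₀ ^ 4 := by ring
        _ ≤ η * c₁ ^ 3 * β₀ ^ 3 * 1 := by gcongr; exact pow_le_one₀ hβ₀.le b1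
        _ = η * (c₁ * β₀) ^ 3 := by ring
        _ ≤ _ := by gcongr; exact hp.low
    · rw [max_eq_left c1]
      calc _ = 1212 * K₀ * (K' + K) ^ 2 * β ^ 2 * β ^ 3 * β ^ 3 := by ring
        _ ≤ 1212 * K₀ * (K' + K) ^ 2 * β₀ * β ^ 3 * 1 := by
          gcongr
          · exact hp.up
          · exact pow_le_one₀ hβ.le b2
        _ ≤ η * β ^ 3 * 1 := by gcongr
        _ = _ := mul_one _
  unfold Mg
  have m1 := le_max_left β β₀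
  have m2 := le_max_right β β₀
  generalize max β β₀ = M at *
  have M0 : 0 < M := hβ.trans_le m1
  have M4 : M ^ 4 ≤ δ := le_trans (pow_le_of_le_one M0.le (by linarith) (by norm_num)) hM
  have hc := hp.cc
  have hd : K' * (|c| + M ^ 4) ≤ 1 / 100 := by
    rw [le_div_iff₀ (by positivity)] at d2
    nlinarith
  have hd' : |c| + M ^ 4 ≤ 1 := by linarith
  have hP := (hD M β b c (hM.trans d1) hβ m1 hb (hc.trans d1)).1
  have hQ := (hD M β (-b) c (hM.trans d1) hβ m1 (by rwa [abs_neg]) (hc.trans d1)).1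
  have hR := (hD M β₀ 0 0 (hM.trans d1) hβ₀ m2 (by norm_num) (by simpa using hδ'.le)).1
  have bd : ∀ g : ℝ → ℝ, ContinuousOn g (Iio 0) → (∀ σ, σ < 0 → |g σ - φ σ| ≤
      K' * (|c| + M ^ 4) * exp (2 * σ)) →
      GoodC_W g 12 ∧ GoodC_W (fun σ => g σ - φ σ) (1 / 100) := fun g hg hg' => by
    have a1 : ∀ σ, σ < 0 → |g σ - φ σ| ≤ 1 / 100 * exp (2 * σ) := fun σ hσ =>
      (hg' σ hσ).trans (mul_le_mul_of_nonneg_right hd (exp_pos _).le)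
    refine ⟨⟨hg, fun σ hσ => ?_⟩, hg.sub h.cont.continuousOn, a1⟩
    have a2 := abs_sub_abs_le_abs_sub (g σ) (φ σ)
    linarith [a1 σ hσ, h.abs_le h0 σ, exp_pos (2 * σ)]
  have cP := Ps_cont h c hβ b
  have cQ := Ps_cont h c hβ (-b)
  have wP := (bd _ cP fun σ hσ => (hP σ hσ).1).1
  have wQ := (bd _ cQ fun σ hσ => (hQ σ hσ).1).1
  have wR := (bd _ (Ps_cont h 0 hβ₀ 0) fun σ hσ => (hR σ hσ).1.trans (by
    rw [abs_zero]; gcongr; exact abs_nonneg _)).1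
  refine ⟨fun V hV y => GoodC_der hV hv.vv wP wQ wR y (fun _ => rfl) fun _ => rfl,
    fun w hw y => ?_⟩
  rw [div_mul_eq_mul_div]
  refine GoodC_alg hη hK K0 hK' hβ (le_mul_of_one_le_left hβ.le (by linarith [pi_gt_three])) m1 m2
    hβ₀ (by linarith) (by linarith) (by positivity) hd' hS (Ds_nonneg w) hv.dt_le hv.ds_le
    (GoodC_int hv.vv hw fun t ht => ?_)
  have conv : ∀ x z r C : ℝ, |x - r| ≤ C → |z - r| ≤ C → |(1 - t) * x + t * z - r| ≤ C :=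
    fun x z r C a1 a2 => by
      rw [abs_le] at *
      constructor <;> nlinarith [ht.1, ht.2]
  have cΨ : ContinuousOn (fun σ => (1 - t) * Ps φ c β b σ + t * Ps φ c β (-b) σ) (Iio 0) :=
    (continuousOn_const.mul cP).add (continuousOn_const.mul cQ)
  obtain ⟨w1, w2⟩ := bd _ cΨ fun σ hσ => conv _ _ _ _ (hP σ hσ).1 (hQ σ hσ).1
  refine GoodC_pt hv.vv hw w1 ⟨cQ.sub cP, fun σ hσ => ?_⟩ wR ⟨cΨ.sub wR.c, fun σ hσ => ?_⟩
    (GoodC_psi h h0 w1 w2) y (Ioo_subset_Icc_self ht)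
  · exact (abs_sub_comm _ _).trans_le (hP σ hσ).2.1
  · have a1 := (hP σ hσ).2.2 β₀ hβ₀ m2
    have a2 := (hQ σ hσ).2.2 β₀ hβ₀ m2
    have a3 : |c * φ' σ| ≤ K * |c| * exp (2 * σ) := by
      rw [abs_mul, mul_comm K, mul_assoc]
      exact mul_le_mul_of_nonneg_left (h.b1 σ) (abs_nonneg _)
    rw [abs_neg] at a2
    rw [sub_sub] at a1 a2
    have a4 := conv _ _ _ _ a1 a2
    rw [← sub_sub] at a4
    have a5 := abs_sub_abs_le_abs_sub ((1 - t) * Ps φ c β b σ + t * Ps φ c β (-b) σ -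
      Ps φ 0 β₀ 0 σ) (c * φ' σ)
    rw [add_mul]
    linarith

end Pool.Agent.Work.MP_267827_an
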