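import Pool.Agent.Work.MP_267827_an.GoodA
import Pool.Agent.Work.MP_267827_an.GoodB
import Pool.Agent.Work.MP_267827_an.GoodC

/-! The lower bound for the form of a good triangle. -/

set_option autoImplicit false

namespace Pool.Agent.Work.MP_267827_an

open MeasureTheory Set Filter Topology Metric Real

theorem good_alg {y c D j θ η c0 c' M Ds Dt R Q Qv base e I1 I2 I3 r : ℝ} (θ0 : 0 < θ) (θ1 : θ ≤ 1)
    (η0 : 0 < η) (η1 : η ≤ 1 / 20) (η2 : η ≤ c0 / 3) (η3 : η ≤ c' / 5) (η4 : η ≤ 3 * D ^ 2 / 1000)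
    (M0 : 0 ≤ M) (Ds0 : 0 ≤ Ds) (Dt0 : 0 ≤ Dt)
    (A : y ^ 2 * (Qv - e - η * (M + θ * c ^ 2)) + (1 - η) * Dt + θ * (R - η * Ds) ≤ Q)
    (B : -(2 * (y * c * D) * I1) + (y * c * D) ^ 2 * (4 + j - 1 / 200) - 1 / 200 * I2 +
      (c0 - η) * Ds - η * y ^ 2 * (c ^ 2 + M) ≤ R)
    (C : I3 ≤ 19 / 20 * Dt + η * (θ * Ds) + η * y ^ 2 * (θ * c ^ 2 + M))
    (P : base + c' * M - r ≤ Qv) (hr : r ≤ η * (θ * c ^ 2) + η * M) :
    y ^ 2 * (base + η / 32 * (M + θ * c ^ 2) - e) + (y * D) ^ 2 * (4 + j - 1 / 50) * (θ * c ^ 2) +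
      (I3 - 1 / 200 * (θ * I2) - 2 * (y * D * c * (θ * I1))) ≤ Q := by
  have y2 := sq_nonneg y
  have B' := mul_le_mul_of_nonneg_left B θ0.le
  have P' := mul_le_mul_of_nonneg_left (show base + c' * M - (η * (θ * c ^ 2) + η * M) ≤ Qv by
    linarith) y2
  have yM : 0 ≤ y ^ 2 * M := mul_nonneg y2 M0
  have yc : 0 ≤ y ^ 2 * (θ * c ^ 2) := by positivity
  have h1 : θ * (η * (y ^ 2 * M)) ≤ η * (y ^ 2 * M) :=
    mul_le_of_le_one_left (mul_nonneg η0.le yM) θ1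
  have h2 := mul_le_mul_of_nonneg_right η3 yM
  have h3 := mul_le_mul_of_nonneg_right η4 yc
  have h4 := mul_le_mul_of_nonneg_right η2 (mul_nonneg θ0.le Ds0)
  have h5 := mul_le_mul_of_nonneg_right η1 Dt0
  have h6 := mul_nonneg η0.le yM
  have h7 := mul_nonneg η0.le yc
  nlinarith

theorem Mg_nonneg (β₀ β b : ℝ) : 0 ≤ Mg β₀ β b := by unfold Mg; positivity

theorem good_err {K η c₁ : ℝ} (hη : 0 < η) (hc : 0 < c₁) : ∀ᶠ β₀ in 𝓝[>] (0 : ℝ), ∀ β b c : ℝ,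
    c₁ * β₀ ≤ β → K * |c| * β₀ ^ 3 * |β - β₀| ≤ η * (π * β * c ^ 2) + η * Mg β₀ β b := by
  filter_upwards [ev_small (K ^ 2) (show 0 < η ^ 2 * c₁ by positivity), ev_le one_pos]
    with β₀ h1 ⟨h0, h2⟩ β b c hβ
  have β0 : 0 < β := lt_of_lt_of_le (by positivity) hβ
  have a1 : β₀ ^ 2 * (β - β₀) ^ 2 ≤ Mg β₀ β b := by
    have : β₀ ^ 2 ≤ max β β₀ ^ 2 := pow_le_pow_left₀ h0.le (le_max_right _ _) 2
    have := mul_le_mul_of_nonneg_right this (sq_nonneg (β - β₀))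
    unfold Mg
    nlinarith [sq_nonneg (β * b)]
  have a2 : c₁ * β₀ * c ^ 2 ≤ π * β * c ^ 2 :=
    mul_le_mul_of_nonneg_right (by nlinarith [pi_gt_three]) (sq_nonneg c)
  have a3 : (K * |c| * β₀ ^ 3 * |β - β₀|) ^ 2 ≤
      (η * (c₁ * β₀ * c ^ 2)) * (η * (β₀ ^ 2 * (β - β₀) ^ 2)) := by
    have e : (K * |c| * β₀ ^ 3 * |β - β₀|) ^ 2 =
        (K ^ 2 * β₀) * β₀ ^ 2 * (β₀ ^ 3 * c ^ 2 * (β - β₀) ^ 2) := by
      simp only [mul_pow, sq_abs]; ring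
    have b2 : β₀ ^ 2 ≤ 1 := pow_le_one₀ h0.le h2
    have : (K ^ 2 * β₀) * β₀ ^ 2 ≤ η ^ 2 * c₁ := by
      have : 0 ≤ K ^ 2 * β₀ := by positivity
      nlinarith
    rw [e]
    refine (mul_le_mul_of_nonneg_right this (by positivity)).trans_eq (by ring)
  have p1 : 0 ≤ η * (c₁ * β₀ * c ^ 2) := by positivity
  have p2 : 0 ≤ η * (β₀ ^ 2 * (β - β₀) ^ 2) := by positivity
  have a4 : K * |c| * β₀ ^ 3 * |β - β₀| ≤ η * (c₁ * β₀ * c ^ 2) + η * (β₀ ^ 2 * (β - β₀) ^ 2) := by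
    refine (abs_le_of_sq_le_sq' ?_ (by positivity)).2
    nlinarith [mul_nonneg p1 p2, sq_nonneg (η * (c₁ * β₀ * c ^ 2)),
      sq_nonneg (η * (β₀ ^ 2 * (β - β₀) ^ 2))]
  nlinarith [mul_le_mul_of_nonneg_left a1 hη.le, mul_le_mul_of_nonneg_left a2 hη.le]

theorem good {u0 K : ℝ} {φ φ' φ'' : ℝ → ℝ} (h : Wt u0 K φ φ' φ'') (h0 : 0 < u0)
    (h1 : u0 ≤ 1 / 4) {c0 δ₁ K₀ K₁ c' : ℝ} (ray : RayP φ c0 801 δ₁) (hc0 : 0 < c0) (hδ₁ : 0 < δ₁)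
    (hK : 1 ≤ K₀) (hc' : 0 < c') : ∃ δ cg : ℝ, 0 < δ ∧ 0 < cg ∧ ∀ c₁ : ℝ, 0 < c₁ →
    ∀ᶠ β₀ in 𝓝[>] (0 : ℝ), ∀ (lam ε : ℝ) (v : ℝ × ℝ → ℝ) (bh al K0 : ℝ), 0 ≤ ε → ε ≤ 1 →
      Ref φ K₀ β₀ lam ε v → Mult K₁ c' β₀ lam v bh al K0 → ∀ β b c : ℝ, Par c₁ δ β₀ β b c →
      ∀ V, VV V → (∀ y : ℝ, ContinuousOn (HG φ β₀ β b c y v V) (Icc 0 1) ∧
        ContinuousOn (HG' φ β₀ β b c y v V) (Icc 0 1) ∧
        ∀ t ∈ Ioo (0 : ℝ) 1, HasDerivAt (HG φ β₀ β b c y v V) (HG' φ β₀ β b c y v V t) t) ∧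
      ∀ y μ : ℝ, 0 ≤ μ → μ ≤ cg →
        y ^ 2 * (-(bh * (exp (2 * c) * (π * β + LL β b))) + al * (π * β) + K0 +
            cg * (Mg β₀ β b + π * β * c ^ 2) - (ε + 8 * K₀ * μ) * (π * β)) +
          (y * DD) ^ 2 * (4 + jj ^ 2 / 6 - 1 / 50) * (π * β * c ^ 2) +
          (kap / (π * β) * (∫ t, HG' φ β₀ β b c y v V t ^ 2 ∂m1) -
            1 / 200 * (π * β * ∫ t, HG φ β₀ β b c y v V t ^ 2 ∂m1) -
            2 * (y * DD * c * (π * β * ∫ t, HG φ β₀ β b c y v V t ∂m1))) ≤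
        QQ β b c (lam + μ) V := by
  have D0 := DD_pos
  obtain ⟨η, η0, η1, η2, η3, η4⟩ : ∃ η : ℝ, 0 < η ∧ η ≤ 1 / 20 ∧ η ≤ c0 / 3 ∧ η ≤ c' / 5 ∧
      η ≤ 3 * DD ^ 2 / 1000 :=
    ⟨min (min (1 / 20) (c0 / 3)) (min (c' / 5) (3 * DD ^ 2 / 1000)), by positivity,
      (min_le_left _ _).trans (min_le_left _ _), (min_le_left _ _).trans (min_le_right _ _),
      (min_le_right _ _).trans (min_le_left _ _), (min_le_right _ _).trans (min_le_right _ _)⟩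
  obtain ⟨δB, B0, hB⟩ := goodB h h0 h1 ray hδ₁ hK η0
  obtain ⟨δC, C0, hC⟩ := goodC h h0 h1 hK η0
  refine ⟨min (1 / 4) (min δB δC), η / 32, by positivity, by positivity, fun c₁ hc₁ => ?_⟩
  filter_upwards [goodA φ hK η0 hc₁, hB c₁ hc₁, hC c₁ hc₁, good_err (K := K₁) η0 hc₁,
    ev_le (show (0 : ℝ) < 1 / 16 by norm_num)]
    with β₀ kA kB kC kE ⟨b0, b1⟩ lam ε v bh al K0 e0 e1 R M β b c P V hV
  have PA : Par c₁ (1 / 4) β₀ β b c := ⟨P.low, P.up, P.bb, P.cc.trans (min_le_left _ _)⟩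
  have PB : Par c₁ δB β₀ β b c :=
    ⟨P.low, P.up, P.bb, P.cc.trans ((min_le_right _ _).trans (min_le_left _ _))⟩
  have PC : Par c₁ δC β₀ β b c :=
    ⟨P.low, P.up, P.bb, P.cc.trans ((min_le_right _ _).trans (min_le_right _ _))⟩
  have β0 : 0 < β := lt_of_lt_of_le (by positivity) P.low
  have β1 : β ≤ 1 / 4 := by nlinarith [P.up]
  obtain ⟨c1, c2⟩ := kC lam ε v R β b c PC
  refine ⟨c1 V hV, fun y μ μ0 μ1 => ?_⟩
  have hw := R.vv.lin (-y) hV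
  have eV : V = fun p => y * v p + (-y * v p + V p) := by funext p; ring
  have A := kA lam ε v e0 e1 R β b c PA _ hw y μ μ0 μ1
  have B := kB lam ε v R β b c PB _ hw y
  have C := c2 _ hw y
  rw [← eV] at A B C
  exact good_alg (by positivity) (by nlinarith [pi_le_four]) η0 η1 η2 η3 η4 (Mg_nonneg _ _ _)
    (Ds_nonneg _) (div_nonneg (Dt_nonneg _) (by positivity)) A B C
    (M.piece β b c β0 P.up P.bb PA.cc) (kE β b c P.low)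

end Pool.Agent.Work.MP_267827_an
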