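import Pool.Agent.Work.MP_267827_an.TwoD

/-! Expansion of the form of a good triangle around the reference function. -/

set_option autoImplicit false

namespace Pool.Agent.Work.MP_267827_an

open MeasureTheory Set Filter Topology Metric Real

theorem goodA_young {X G R s : ℝ} (y : ℝ) (hs : 0 ≤ s) (hR : 0 ≤ R) (hG : 0 ≤ G)
    (h : X ^ 2 ≤ s * G * R) : -(y ^ 2 * G + s * R) ≤ 2 * y * X ∧ 2 * y * X ≤ y ^ 2 * G + s * R := by
  refine abs_le_of_sq_le_sq' ?_ (by positivity)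
  have := mul_le_mul_of_nonneg_left h (sq_nonneg y)
  nlinarith [sq_nonneg (y ^ 2 * G - s * R)]

theorem goodA_sq {x C a b A B : ℝ} (ha : 0 ≤ a) (hb : 0 ≤ b) (h : |x| ≤ C * (√a * √b))
    (hA : a ≤ A) (hB : b ≤ B) : x ^ 2 ≤ C ^ 2 * (A * B) := by
  have h1 : x ^ 2 ≤ (C * (√a * √b)) ^ 2 := by
    rw [← sq_abs]
    exact pow_le_pow_left₀ (abs_nonneg _) h 2
  rw [mul_pow, mul_pow, sq_sqrt ha, sq_sqrt hb] at h1
  exact h1.trans (mul_le_mul_of_nonneg_left (mul_le_mul hA hB hb (ha.trans hA)) (sq_nonneg _))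

theorem goodA_e1 {B ε β β₀ D T s : ℝ} (hβ : 0 < β) (h0 : 0 < β₀) (hβ1 : β ≤ 1) (h1 : β₀ ≤ 1)
    (hε : 0 ≤ ε) (hD : 0 ≤ D) (hT : 0 ≤ T) (hs : β₀ ≤ s)
    (h : B ^ 2 ≤ ε * β₀ ^ 10 * (π * β₀ * D + T / (π * β₀))) :
    (β / β₀ * B) ^ 2 ≤ s * (ε * (π * β)) * (π * β * D + T / (π * β)) := by
  have hπ := pi_gt_three
  have a1 : β₀ ^ 8 ≤ 1 := pow_le_one₀ h0.le h1
  have a2 : β ^ 2 * β₀ ^ 6 ≤ 1 :=
    mul_le_one₀ (pow_le_one₀ hβ.le hβ1) (by positivity) (pow_le_one₀ h0.le h1)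
  calc (β / β₀ * B) ^ 2 = (β / β₀) ^ 2 * B ^ 2 := mul_pow _ _ _
    _ ≤ (β / β₀) ^ 2 * (ε * β₀ ^ 10 * (π * β₀ * D + T / (π * β₀))) := by gcongr
    _ = β₀ * (ε * (1 * β)) * (β₀ ^ 8 * (π * β * D) + β ^ 2 * β₀ ^ 6 * (T / (π * β))) := by
      field_simp
    _ ≤ s * (ε * (π * β)) * (1 * (π * β * D) + 1 * (T / (π * β))) := by
      have : 0 ≤ s := h0.le.trans hs
      gcongr
      linarith
    _ = _ := by rw [one_mul, one_mul]

theorem goodA_e2 {X K β β₀ c₁ D T s M : ℝ} (hβ : 0 < β) (h0 : 0 < β₀) (h1 : β₀ ≤ 1)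
    (hK : 0 ≤ K) (hD : 0 ≤ D) (hT : 0 ≤ T) (hc : 0 < c₁) (hl : c₁ * β₀ ≤ β) (hM : β ≤ M)
    (hM0 : β₀ ≤ M) (hs : 4 * K / c₁ * β₀ ≤ s) (h : X ^ 2 ≤ 1 ^ 2 * (K * β₀ ^ 8 * T)) :
    ((1 / (π * β) - π * β / (π * β₀) ^ 2) * X) ^ 2 ≤
      s * (M ^ 2 * (β - β₀) ^ 2) * (π * β * D + T / (π * β)) := by
  have hπ := pi_gt_three
  have a1 : (β + β₀) ^ 2 ≤ 4 * M ^ 2 := by nlinarith
  have a2 : β₀ ^ 4 / (π * β) ≤ β₀ / c₁ := by
    rw [div_le_div_iff₀ (by positivity) hc]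
    have b1 : β₀ ^ 2 ≤ 1 := pow_le_one₀ h0.le h1
    have b2 : c₁ * β₀ ≤ π * β := by nlinarith
    calc β₀ ^ 4 * c₁ = β₀ ^ 2 * (β₀ * (c₁ * β₀)) := by ring
      _ ≤ 1 * (β₀ * (π * β)) := by gcongr
      _ = _ := one_mul _
  have a3 : 0 ≤ s := le_trans (by positivity) hs
  calc ((1 / (π * β) - π * β / (π * β₀) ^ 2) * X) ^ 2
      = (1 / (π * β) - π * β / (π * β₀) ^ 2) ^ 2 * X ^ 2 := mul_pow _ _ _
    _ ≤ (1 / (π * β) - π * β / (π * β₀) ^ 2) ^ 2 * (1 ^ 2 * (K * β₀ ^ 8 * T)) := by gcongr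
    _ = K * (β₀ ^ 4 / (π * β)) * ((β + β₀) ^ 2 * (β - β₀) ^ 2) * (T / (π * β)) := by
      field_simp
      ring
    _ ≤ K * (β₀ / c₁) * (4 * M ^ 2 * (β - β₀) ^ 2) * (T / (π * β)) := by gcongr
    _ = 4 * K / c₁ * β₀ * (M ^ 2 * (β - β₀) ^ 2) * (0 + T / (π * β)) := by ring
    _ ≤ _ := by
      gcongr
      positivity

theorem goodA_e3 {X A lam θ e c D T s : ℝ} (hθ : 0 < θ) (hl0 : 0 ≤ lam) (hl : lam ≤ 7)
    (he : |e - 1| ≤ 4 * |c|) (hD : 0 ≤ D) (hT : 0 ≤ T) (hA : 0 ≤ A) (hs : 784 * A ≤ s)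
    (h : X ^ 2 ≤ A * D) : (lam * θ * (e - 1) * X) ^ 2 ≤ s * (θ * c ^ 2) * (θ * D + T / θ) := by
  have a1 : (e - 1) ^ 2 ≤ (4 * |c|) ^ 2 := by
    rw [← sq_abs]
    exact pow_le_pow_left₀ (abs_nonneg _) he 2
  rw [mul_pow, sq_abs] at a1
  have a3 : 0 ≤ s := le_trans (by positivity) hs
  calc (lam * θ * (e - 1) * X) ^ 2 = lam ^ 2 * θ ^ 2 * (e - 1) ^ 2 * X ^ 2 := by ring
    _ ≤ 7 ^ 2 * θ ^ 2 * (4 ^ 2 * c ^ 2) * (A * D) := by gcongr
    _ = 784 * A * (θ * c ^ 2) * (θ * D + 0) := by ring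
    _ ≤ _ := by
      gcongr
      positivity

theorem goodA_e5 {X K Kw lam β β₀ b c₁ D T s M : ℝ} (hβ : 0 < β) (h0 : 0 < β₀) (h1 : β₀ ≤ 1)
    (hl0 : 0 ≤ lam) (hl : lam ≤ 7) (hK : 0 ≤ K) (hD : 0 ≤ D) (hT : 0 ≤ T) (hc : 0 < c₁)
    (hM : β ≤ M) (hM2 : M ^ 2 ≤ β₀) (hM3 : M ≤ (1 + 1 / c₁) * β)
    (hs : 400000 * Kw ^ 2 * K * (1 + 1 / c₁) * β₀ ≤ s)
    (h : X ^ 2 ≤ (Kw * (|β - β₀| + |b|)) ^ 2 * (208 * K * M ^ 3 * (4 * M ^ 2 * D))) :
    (lam * (π * β) * X) ^ 2 ≤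
      s * (M ^ 2 * (β - β₀) ^ 2 + β ^ 2 * b ^ 2) * (π * β * D + T / (π * β)) := by
  have hπ := pi_gt_three
  have hπ4 := pi_le_four
  have M0 : 0 < M := hβ.trans_le hM
  have a1 : (|β - β₀| + |b|) ^ 2 ≤ 2 * ((β - β₀) ^ 2 + b ^ 2) := by
    rw [← sq_abs (β - β₀), ← sq_abs b]
    nlinarith [sq_nonneg (|β - β₀| - |b|)]
  have a2 : M ^ 4 ≤ β₀ := by nlinarith [sq_nonneg M]
  have c1 : 0 < 1 / c₁ := by positivity
  have a3 : β * M ^ 5 ≤ (1 + 1 / c₁) * β₀ * M ^ 2 := by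
    calc β * M ^ 5 ≤ M * M ^ 5 := by gcongr
      _ = 1 * M ^ 4 * M ^ 2 := by ring
      _ ≤ _ := by gcongr; linarith
  have a4 : β * M ^ 5 ≤ (1 + 1 / c₁) * β₀ * β ^ 2 := by
    calc β * M ^ 5 = β * M ^ 4 * M := by ring
      _ ≤ β * β₀ * ((1 + 1 / c₁) * β) := by gcongr
      _ = _ := by ring
  have a5 : β * M ^ 5 * ((β - β₀) ^ 2 + b ^ 2) ≤
      (1 + 1 / c₁) * β₀ * (M ^ 2 * (β - β₀) ^ 2 + β ^ 2 * b ^ 2) := by
    have := mul_le_mul_of_nonneg_right a3 (sq_nonneg (β - β₀))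
    have := mul_le_mul_of_nonneg_right a4 (sq_nonneg b)
    linarith
  have a6 : 0 ≤ s := le_trans (by positivity) hs
  rw [mul_pow Kw] at h
  calc (lam * (π * β) * X) ^ 2 = lam ^ 2 * (π * β) ^ 2 * X ^ 2 := by ring
    _ ≤ 7 ^ 2 * (π * β) ^ 2 * (Kw ^ 2 * (2 * ((β - β₀) ^ 2 + b ^ 2)) *
          (208 * K * M ^ 3 * (4 * M ^ 2 * D))) := by
      gcongr ?_ ^ 2 * _ * ?_
      exact h.trans (by gcongr)
    _ = 81536 * π * Kw ^ 2 * K * (β * M ^ 5 * ((β - β₀) ^ 2 + b ^ 2)) * (π * β * D + 0) := by ring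
    _ ≤ 81536 * 4 * Kw ^ 2 * K * ((1 + 1 / c₁) * β₀ * (M ^ 2 * (β - β₀) ^ 2 + β ^ 2 * b ^ 2)) *
          (π * β * D + T / (π * β)) := by
      gcongr
      positivity
    _ = 326144 * Kw ^ 2 * K * (1 + 1 / c₁) * β₀ * (M ^ 2 * (β - β₀) ^ 2 + β ^ 2 * b ^ 2) *
          (π * β * D + T / (π * β)) := by ring
    _ ≤ _ := by
      gcongr ?_ * _ * _
      refine le_trans ?_ hs
      gcongr
      norm_num

theorem goodA (φ : ℝ → ℝ) {K₀ η c₁ : ℝ} (hK : 1 ≤ K₀) (hη : 0 < η) (hc : 0 < c₁) :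
    ∀ᶠ β₀ in 𝓝[>] (0 : ℝ), ∀ (lam ε : ℝ) (v : ℝ × ℝ → ℝ), 0 ≤ ε → ε ≤ 1 →
      Ref φ K₀ β₀ lam ε v → ∀ β b c : ℝ, Par c₁ (1 / 4) β₀ β b c → ∀ w, VV w →
      ∀ y μ : ℝ, 0 ≤ μ → μ ≤ η / 32 →
        y ^ 2 * (QQ β b c lam v - (ε + 8 * K₀ * μ) * (π * β) - η * (Mg β₀ β b + π * β * c ^ 2)) +
          (1 - η) * (Dt w / (π * β)) + π * β * (RR c lam y w - η * Ds w) ≤
        QQ β b c (lam + μ) fun p => y * v p + w p := by
  obtain ⟨KN, KN1, hN⟩ := NW_est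
  obtain ⟨Kw, Kw1, hW⟩ := weight_est
  have s0 : 0 < η / 10 := by positivity
  have s1 : 0 < η / 10 * (η / 2) := by positivity
  filter_upwards [ev_le (B := (1 / 64) ^ 4) (by norm_num), ev_le s0,
    ev_small K₀ (pow_pos jj_pos 2), ev_small (4 * KN) one_pos, ev_small (224 * KN) hη,
    ev_small (4 * K₀ / c₁) s1, ev_small (784 * K₀) s1, ev_small (784 * (16 * Kw ^ 2 * K₀)) s1,
    ev_small (400000 * Kw ^ 2 * K₀ * (1 + 1 / c₁)) s1] with β₀ ⟨h0, h1⟩ ⟨_, z1⟩ z0 z2 z3 z4 z5 z6 z7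
  intro lam ε v hε _ hv β b c hp w hw y μ hμ0 hμ
  have K0 : 0 ≤ K₀ := zero_le_one.trans hK
  have h64 : β₀ ≤ 1 / 64 := h1.trans (by norm_num)
  have h01 : β₀ ≤ 1 := h64.trans (by norm_num)
  have hβ : 0 < β := lt_of_lt_of_le (mul_pos hc h0) hp.low
  have hβ1 : β ≤ 1 / 64 :=
    le_of_sq_le_sq (hp.up.trans (h1.trans (by norm_num))) (by norm_num)
  have hb : |b| ≤ 1 / 64 := by
    refine le_of_pow_le_pow_left₀ (n := 4) (by norm_num) (by norm_num) ?_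
    rw [pow_abs, abs_of_nonneg (by positivity)]
    exact hp.bb.trans h1
  have hb0 : |(0 : ℝ)| ≤ 1 / 64 := by norm_num
  have hθ : 0 < π * β := mul_pos pi_pos hβ
  have p3 : β₀ ^ 3 ≤ β₀ := pow_le_of_le_one h0.le h01 (by norm_num)
  have l0 : 0 ≤ lam := by
    have := hv.le_lam
    have := mul_le_mul_of_nonneg_left p3 K0
    linarith
  have l7 : lam ≤ 7 := hv.lam_le.trans (jj_sq_le.trans (by norm_num))
  have hcc := abs_le.1 hp.cc
  have e1 : |exp (2 * c) - 1| ≤ 4 * |c| := by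
    have := abs_exp_sub_one_le (x := 2 * c) (by rw [abs_le]; constructor <;> linarith [hcc.1, hcc.2])
    rw [abs_mul, abs_two] at this
    linarith
  have e2 : exp (2 * c) ≤ 2 := by
    have := (abs_le.1 e1).2
    have := hp.cc
    linarith
  have e0 := exp_pos (2 * c)
  have hD := Ds_nonneg w
  have hT := Dt_nonneg w
  have hbb : β + |b| ≤ 1 := by linarith
  have nw : ∀ V, VV V → |NW β b V - N0 V| ≤ 4 * KN * β₀ * Ds V := fun V hV => by
    have a1 := hV.O_le β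
    have a2 := Ds_nonneg V
    have a3 := OI_nonneg β V
    have a4 := hp.up
    refine (hN β b hβ hβ1 hb V hV).trans ?_
    calc KN * (β + |b|) * OI β V ≤ KN * 1 * (4 * β₀ * Ds V) := by
          gcongr
          exact a1.trans (by gcongr)
      _ = _ := by ring
  have vJ : VV fun p : ℝ × ℝ => JJ p.1 := v1_JJ.toVV.1
  have ve : VV fun p : ℝ × ℝ => -1 * JJ p.1 + v p := vJ.lin (-1) hv.vv
  have hV := hv.vv.lin y hw
  have q1 : QQ β b c (lam + μ) (fun p => y * v p + w p) = QQ β b c lam (fun p => y * v p + w p) -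
      μ * exp (2 * c) * (π * β) * NW β b (fun p => y * v p + w p) := by
    unfold QQ
    ring
  have q2 : μ * exp (2 * c) * (π * β) * NW β b (fun p => y * v p + w p) ≤
      y ^ 2 * (8 * K₀ * μ * (π * β)) + η / 4 * (π * β * Ds w) := by
    have a1 := (abs_le.1 (nw _ hV)).2
    have a2 := hV.N_le
    have a3 := hv.vv.Ds_add_le y hw
    have a4 := mul_le_mul_of_nonneg_right z2 (Ds_nonneg fun p => y * v p + w p)
    have a5 := mul_le_mul_of_nonneg_left hv.ds_le (sq_nonneg y)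
    have a6 : NW β b (fun p => y * v p + w p) ≤ 4 * (y ^ 2 * K₀) + 4 * Ds w := by linarith
    have a7 := NW_nonneg β b fun p => y * v p + w p
    have a8 := mul_le_mul_of_nonneg_right hμ (mul_nonneg hθ.le hD)
    calc μ * exp (2 * c) * (π * β) * NW β b (fun p => y * v p + w p)
        ≤ μ * 2 * (π * β) * (4 * (y ^ 2 * K₀) + 4 * Ds w) := by gcongr
      _ ≤ _ := by linarith
  have q3 : π * β * Ds w + Dt w / (π * β) - lam * exp (2 * c) * (π * β) * N0 w -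
      η / 4 * (π * β * Ds w) ≤ QQ β b c lam w := by
    have a1 := (abs_le.1 (nw _ hw)).2
    have a2 : lam * exp (2 * c) * (π * β) * (NW β b w - N0 w) ≤
        7 * 2 * (π * β) * (4 * KN * β₀ * Ds w) :=
      (mul_le_mul_of_nonneg_left a1 (by positivity)).trans (by gcongr)
    have a3 := mul_le_mul_of_nonneg_right z3 (mul_nonneg hθ.le hD)
    unfold QQ
    linarith
  have i1 := hv.vv.int_W hw hβ hβ1 hb
  have i0 := hv.vv.int_W hw h0 h64 hb0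
  have iN := hv.vv.int_N hw
  have iJ := vJ.int_N hw
  have j1 : ∫ p, exp (2 * p.1) * (WW β b p - WW β₀ 0 p) * (v p * w p) ∂nu =
      (∫ p, exp (2 * p.1) * WW β b p * (v p * w p) ∂nu) -
        ∫ p, exp (2 * p.1) * WW β₀ 0 p * (v p * w p) ∂nu := by
    rw [← integral_sub i1 i0]
    exact integral_congr_ae (Eventually.of_forall fun p => by simp only; ring)
  have j2 : ∫ p, exp (2 * p.1) * (WW β b p - 1) * (v p * w p) ∂nu =
      (∫ p, exp (2 * p.1) * WW β b p * (v p * w p) ∂nu) -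
        ∫ p, exp (2 * p.1) * (v p * w p) ∂nu := by
    rw [← integral_sub i1 iN]
    exact integral_congr_ae (Eventually.of_forall fun p => by simp only; ring)
  have j3 : ∫ p, exp (2 * p.1) * ((-1 * JJ p.1 + v p) * w p) ∂nu =
      (∫ p, exp (2 * p.1) * (v p * w p) ∂nu) - ∫ p, exp (2 * p.1) * (JJ p.1 * w p) ∂nu := by
    rw [← integral_sub iN iJ]
    exact integral_congr_ae (Eventually.of_forall fun p => by simp only; ring)
  have q4 : BB β b c lam v w = β / β₀ * BB β₀ 0 0 lam v w +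
      (1 / (π * β) - π * β / (π * β₀) ^ 2) * (∫ p, dt v p * dt w p ∂nu) -
      lam * (π * β) * (exp (2 * c) - 1) * (∫ p, exp (2 * p.1) * ((-1 * JJ p.1 + v p) * w p) ∂nu) -
      lam * (π * β) * (exp (2 * c) - 1) *
        (∫ p, exp (2 * p.1) * (WW β b p - 1) * (v p * w p) ∂nu) -
      lam * (π * β) * (∫ p, exp (2 * p.1) * (WW β b p - WW β₀ 0 p) * (v p * w p) ∂nu) -
      lam * (π * β) * (exp (2 * c) - 1) * ∫ p, exp (2 * p.1) * (JJ p.1 * w p) ∂nu := by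
    rw [j1, j2, j3]
    unfold BB
    rw [mul_zero, exp_zero]
    have := pi_pos
    field_simp
    ring
  have hR : 0 ≤ π * β * Ds w + Dt w / (π * β) := by positivity
  have m1 : β ≤ max β β₀ := le_max_left _ _
  have m2 : β₀ ≤ max β β₀ := le_max_right _ _
  have m3 : max β β₀ ^ 2 ≤ β₀ := by
    rcases max_choice β β₀ with h | h <;> rw [h]
    · exact hp.up
    · exact pow_le_of_le_one h0.le h01 two_ne_zero
  have m4 : max β β₀ ≤ (1 + 1 / c₁) * β := by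
    have a1 : β₀ ≤ 1 / c₁ * β := by
      rw [one_div, ← div_eq_inv_mul, le_div_iff₀' hc]
      exact hp.low
    refine max_le ?_ ?_ <;> linarith
  have y1 := (goodA_young y s0.le hR (by positivity) (goodA_e1 (B := BB β₀ 0 0 lam v w) hβ h0
    (by linarith) h01 hε hD hT z1 (by
      have a1 := hv.vv.BB_sq hw h0 h64 hb0 hv.pos
      have a2 : QQ β₀ 0 0 lam w ≤ π * β₀ * Ds w + Dt w / (π * β₀) := by
        have := NW_nonneg β₀ 0 w
        have := pi_pos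
        exact sub_le_self _ (by positivity)
      exact a1.trans (mul_le_mul hv.near a2 (hv.pos w hw) (by positivity))))).1
  have y2 := goodA_e2 hβ h0 h01 K0 hD hT hc hp.low m1 m2 z4
    (goodA_sq (Dt_nonneg v) hT (by rw [one_mul]; exact hv.vv.cs_t hw) hv.dt_le le_rfl)
  rw [mul_assoc (η / 10)] at y2
  replace y2 := (goodA_young y s0.le hR (by positivity) y2).1
  have y3 := goodA_e3 (A := K₀ * β₀) hθ l0 l7 e1 hD hT (by positivity)
    ((mul_assoc _ _ _).symm.trans_le z5) (by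
    have := goodA_sq (C := 1) (Ds_nonneg _) hD (by rw [one_mul]; exact ve.cs_N hw)
      (hv.e_le.trans (mul_le_mul_of_nonneg_left p3 K0)) le_rfl
    rwa [one_pow, one_mul] at this)
  rw [mul_assoc (η / 10)] at y3
  replace y3 := (goodA_young y s0.le hR (by positivity) y3).2
  have y4 := goodA_e3 (A := 16 * Kw ^ 2 * K₀ * β₀) hθ l0 l7 e1 hD hT (by positivity)
    ((mul_assoc _ _ _).symm.trans_le z6) (by
      have a1 := goodA_sq (OI_nonneg _ _) (OI_nonneg _ _)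
        (hv.vv.cs_O hw (w := fun p => WW β b p - 1) (C := Kw * (β + |b|)) (M := β) (by positivity)
          fun p h _ => (hW β b p.1 p.2 hβ hβ1 hb h).1) (hv.vv.O_le β) (hw.O_le β)
      have a2 := hv.ds_le
      have a3 := hp.up
      have a4 := Ds_nonneg v
      have a5 : β ^ 2 ≤ 1 := a3.trans h01
      refine a1.trans ?_
      calc (Kw * (β + |b|)) ^ 2 * (4 * β ^ 2 * Ds v * (4 * β ^ 2 * Ds w))
          ≤ (Kw * 1) ^ 2 * (4 * β₀ * K₀ * (4 * 1 * Ds w)) := by gcongr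
        _ = _ := by ring)
  rw [mul_assoc (η / 10)] at y4
  replace y4 := (goodA_young y s0.le hR (by positivity) y4).2
  have y5 := goodA_e5 hβ h0 h01 l0 l7 K0 hD hT hc m1 m3 m4 z7
    (goodA_sq (OI_nonneg _ _) (OI_nonneg _ _)
      (hv.vv.cs_O hw (w := fun p => WW β b p - WW β₀ 0 p) (C := Kw * (|β - β₀| + |b|))
        (M := max β β₀) (by positivity)
        fun p h _ => ((hW β b p.1 p.2 hβ hβ1 hb h).2.2.2.2 β₀ h0 h64).1)
      (by
        have a0 : 0 ≤ max β β₀ := hβ.le.trans m1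
        have a1 := hv.vv.O_le_J a0
        have a2 : Ds (fun p : ℝ × ℝ => -1 * JJ p.1 + v p) ≤ K₀ * max β β₀ :=
          hv.e_le.trans (mul_le_mul_of_nonneg_left (p3.trans m2) K0)
        have a3 := mul_le_mul_of_nonneg_left a2 (sq_nonneg (max β β₀))
        have a4 := mul_le_mul_of_nonneg_right hK (pow_nonneg a0 3)
        linarith)
      (hw.O_le _))
  rw [mul_assoc (η / 10)] at y5
  replace y5 := (goodA_young y s0.le hR (by positivity) y5).2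
  have f1 : 0 ≤ η * (Dt w / (π * β)) := by positivity
  have f2 : 0 ≤ y ^ 2 * (η * (β ^ 2 * b ^ 2)) := by positivity
  rw [q1, hv.vv.QQ_add y hw hβ hβ1 hb, q4]
  unfold RR Mg
  linarith

end Pool.Agent.Work.MP_267827_an
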