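import Pool.Agent.Work.MP_267827_an.Transfer

/-! The ground state inequality on the half line, its coercive form and the radial certificate. -/

set_option autoImplicit false

namespace Pool.Agent.Work.MP_267827_an

open MeasureTheory Set Filter Topology Metric Real

theorem jj_sq_le : jj ^ 2 ≤ 6.0025 := by linarith only [jj_pos, jj_le, mul_nonneg_of_nonpos_of_nonpos (le_of_lt (Mathlib.Tactic.Linarith.sub_neg_of_lt jj_pos)) (Mathlib.Tactic.Linarith.sub_nonpos_of_le jj_le)]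

@[fun_prop] theorem continuous_JJ : Continuous JJ :=
  continuous_iff_continuousAt.2 fun x => (JJ_der x).continuousAt

@[fun_prop] theorem continuous_ZZ : Continuous ZZ :=
  continuous_iff_continuousAt.2 fun x => (ZZ_der x).continuousAt

theorem exp2_le {σ : ℝ} (h : σ ≤ 0) : exp (2 * σ) ≤ exp σ := exp_le_exp.2 (by linarith)

theorem abs_ZZ_le' (σ : ℝ) : |ZZ σ| ≤ 7 * exp (2 * σ) :=
  (abs_ZZ_le σ).trans (mul_le_mul_of_nonneg_right (by linarith only [jj_sq_le]) (exp_pos _).le)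

theorem abs_ZZ_le1 {σ : ℝ} (h : σ ≤ 0) : |ZZ σ| ≤ 7 * exp σ :=
  (abs_ZZ_le' σ).trans (by linarith only [h, exp2_le h])

theorem v1_JJ : V1 JJ ZZ :=
  V1.of_der (fun σ _ => JJ_der σ) continuous_ZZ.continuousOn JJ_zero (K := 7)
    fun _ h => abs_ZZ_le1 h

theorem JJ_nonneg {σ : ℝ} (h : σ ≤ 0) : 0 ≤ JJ σ := by
  rcases h.eq_or_lt with rfl | h
  · exact JJ_zero.ge
  · exact (JJ_pos h).le

theorem JJ_le_mul {σ : ℝ} (h : σ ≤ 0) : JJ σ ≤ 7 * |σ| := by
  have := (convex_Iic (0 : ℝ)).norm_image_sub_le_of_norm_hasDerivWithin_le (f := JJ) (f' := ZZ)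
    (C := 7) (fun x _ => (JJ_der x).hasDerivWithinAt) (fun x hx => (abs_ZZ_le1 hx).trans
      (by linarith only [hx, exp_le_one_iff.2 (mem_Iic.1 hx)])) (mem_Iic.2 le_rfl) h
  rw [JJ_zero, sub_zero, sub_zero] at this
  exact (le_abs_self _).trans this

theorem JJ_low : ∃ c : ℝ, 0 < c ∧ ∀ σ, σ < 0 → c * |σ| ≤ JJ σ * (1 + |σ|) := by
  have aZ : AntitoneOn ZZ (Iic 0) := by
    refine antitoneOn_of_deriv_nonpos (convex_Iic _) continuous_ZZ.continuousOn
      (fun s _ => (ZZ_der s).differentiableAt.differentiableWithinAt) fun s hs => ?_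
    rw [(ZZ_der s).deriv, neg_nonpos]
    have := JJ_nonneg (mem_Iic.1 (interior_subset hs))
    positivity
  have aJ : AntitoneOn JJ (Iic 0) := by
    refine antitoneOn_of_deriv_nonpos (convex_Iic _) continuous_JJ.continuousOn
      (fun s _ => (JJ_der s).differentiableAt.differentiableWithinAt) fun s hs => ?_
    rw [(JJ_der s).deriv]
    exact (ZZ_neg (mem_Iic.1 (interior_subset hs))).le
  have a2 : AntitoneOn (fun s => JJ s - ZZ (-1) * s) (Icc (-1) 0) := by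
    have hd : ∀ s, HasDerivAt (fun s => JJ s - ZZ (-1) * s) (ZZ s - ZZ (-1) * 1) s :=
      fun s => (JJ_der s).sub ((hasDerivAt_id s).const_mul _)
    refine antitoneOn_of_deriv_nonpos (convex_Icc _ _) (by fun_prop)
      (fun s _ => (hd s).differentiableAt.differentiableWithinAt) fun s hs => ?_
    have hs' := interior_subset hs
    rw [(hd s).deriv]
    have := aZ (mem_Iic.2 (by norm_num)) (mem_Iic.2 hs'.2) hs'.1
    linarith
  have p1 := JJ_pos (show (-1 : ℝ) < 0 by norm_num)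
  have p2 := ZZ_neg (show (-1 : ℝ) ≤ 0 by norm_num)
  refine ⟨min (JJ (-1)) (-ZZ (-1)), lt_min p1 (by linarith), fun σ hσ => ?_⟩
  have m1 := min_le_left (JJ (-1)) (-ZZ (-1))
  have m2 := min_le_right (JJ (-1)) (-ZZ (-1))
  have := JJ_pos hσ
  rw [abs_of_neg hσ]
  rcases le_total σ (-1) with c | c
  · have := aJ (mem_Iic.2 hσ.le) (mem_Iic.2 (by norm_num)) c
    nlinarith
  · have := a2 ⟨c, hσ.le⟩ (right_mem_Icc.2 (by norm_num)) hσ.le
    simp only [JJ_zero] at this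
    nlinarith

theorem mul_exp_le (σ : ℝ) (h : σ ≤ 0) : (1 + |σ|) * exp σ ≤ 1 := by
  have := add_one_le_exp (-σ)
  have e : exp σ * exp (-σ) = 1 := by rw [← exp_add]; simp
  rw [abs_of_nonpos h]
  (refine le_of_not_gt fun h_nl => ?_; linarith only [h_nl, this, e, h, exp_pos σ, Mathlib.Tactic.Linarith.mul_zero_eq (Mathlib.Tactic.Linarith.sub_nonpos_of_le h) (sub_eq_zero_of_eq e), mul_nonneg_of_nonpos_of_nonpos (Mathlib.Tactic.Linarith.sub_nonpos_of_le h) (le_of_lt (Mathlib.Tactic.Linarith.sub_neg_of_lt h_nl)), mul_nonneg_of_nonpos_of_nonpos (Mathlib.Tactic.Linarith.sub_nonpos_of_le this) (le_of_lt (Mathlib.Tactic.Linarith.sub_neg_of_lt h_nl))])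

theorem V1.ground_id {f f' : ℝ → ℝ} (h : V1 f f') :
    Integrable (fun σ => (f' σ - ZZ σ / JJ σ * f σ) ^ 2) m0 ∧
    ∫ σ, (f' σ - ZZ σ / JJ σ * f σ) ^ 2 ∂m0 =
      (∫ σ, f' σ ^ 2 ∂m0) - jj ^ 2 * ∫ σ, exp (2 * σ) * f σ ^ 2 ∂m0 := by
  obtain ⟨c, c0, hc⟩ := JJ_low
  have i1 := h.intN.const_mul (jj ^ 2)
  simp only [← mul_assoc] at i1
  have := h.riccati (g := fun σ => ZZ σ / JJ σ) (p := fun σ => jj ^ 2 * exp (2 * σ))
    (fun σ hσ => ((ZZ_der σ).div (JJ_der σ) (JJ_pos hσ).ne').congr_deriv (by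
      have := (JJ_pos hσ).ne'; field_simp)) i1 (C := 7 / c) fun σ hσ => by
      have p := JJ_pos hσ
      rw [abs_div, abs_of_pos p, div_mul_eq_mul_div, div_le_div_iff₀ p c0, mul_assoc,
        mul_comm _ c]
      calc _ ≤ 7 * exp σ * (JJ σ * (1 + |σ|)) :=
            mul_le_mul (abs_ZZ_le1 hσ.le) (hc σ hσ) (by positivity) (by positivity)
        _ = 7 * JJ σ * ((1 + |σ|) * exp σ) := by ring
        _ ≤ _ := mul_le_of_le_one_right (by positivity) (mul_exp_le σ hσ.le)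
  simpa only [mul_assoc, integral_const_mul] using this

/-- the ground state inequality -/
theorem V1.ground {f f' : ℝ → ℝ} (h : V1 f f') :
    jj ^ 2 * ∫ σ, exp (2 * σ) * f σ ^ 2 ∂m0 ≤ ∫ σ, f' σ ^ 2 ∂m0 := by
  have := h.ground_id.2
  have n : 0 ≤ ∫ σ, (f' σ - ZZ σ / JJ σ * f σ) ^ 2 ∂m0 := integral_nonneg fun _ => sq_nonneg _
  linarith only [this, n]

/-- the weight of the certificate -/
noncomputable def ph0 (s : ℝ) : ℝ := 4 * exp (2 * s) + jj ^ 2 * exp (4 * s)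

@[fun_prop] theorem continuous_ph0 : Continuous ph0 := by unfold ph0; fun_prop

theorem ph0_ge (s : ℝ) : 4 * exp (2 * s) ≤ ph0 s := by
  have : 0 ≤ jj ^ 2 * exp (4 * s) := by positivity
  simp only [ph0]; linarith

theorem ph0_pos (s : ℝ) : 0 < ph0 s := lt_of_lt_of_le (by positivity) (ph0_ge s)

theorem ph0_le {s : ℝ} (h : s ≤ 0) : ph0 s ≤ 11 * exp (2 * s) := by
  have : exp (4 * s) ≤ exp (2 * s) := exp_le_exp.2 (by linarith)
  have := jj_sq_le
  have := exp_pos (4 * s)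
  simp only [ph0]; nlinarith

theorem abs_ph0_le (s : ℝ) (h : s < 0) : |ph0 s| ≤ 11 * exp (2 * s) := by
  rw [abs_of_pos (ph0_pos s)]; exact ph0_le h.le

theorem int_ph0 : Integrable ph0 m0 :=
  int_of_cont continuous_ph0.continuousOn two_pos abs_ph0_le

theorem b0_JJ : B0 m0 JJ := v1_JJ.b0

theorem b0_ZZ : B0 m0 ZZ := v1_JJ.b0'

theorem int_pos_m0 {f : ℝ → ℝ} (hi : Integrable f m0)
    (h : ∀ σ, σ < 0 → 0 < f σ) : 0 < ∫ σ, f σ ∂m0 := by
  rw [integral_pos_iff_support_of_nonneg_ae (ae_m0 fun σ hσ => (h σ hσ).le) hi,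
    Measure.restrict_apply' measurableSet_Iio]
  refine lt_of_lt_of_le ?_ (measure_mono (s := Iio 0) fun σ hσ => ⟨(h σ hσ).ne', hσ⟩)
  simp

/-- coercivity of the ground state inequality -/
theorem coercive : ∃ K : ℝ, 0 < K ∧ ∀ f f' : ℝ → ℝ, V1 f f' →
    ∫ σ, f' σ ^ 2 ∂m0 ≤ K * (((∫ σ, f' σ ^ 2 ∂m0) - jj ^ 2 * ∫ σ, exp (2 * σ) * f σ ^ 2 ∂m0) +
      (∫ σ, ph0 σ * f σ ∂m0) ^ 2) := by
  obtain ⟨c, c0, hc⟩ := JJ_low
  set x₀ := ∫ σ, ph0 σ * JJ σ ∂m0 with hx₀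
  have x0 : 0 < x₀ := int_pos_m0 (b0_JJ.int_mul int_ph0)
    fun σ hσ => mul_pos (ph0_pos σ) (JJ_pos hσ)
  set K₁ := 100 / c ^ 2 with hK₁
  have K10 : 0 < K₁ := by positivity
  refine ⟨1 + 7 * (2 / x₀ ^ 2 * (1 + 121 * K₁) + 2 * K₁), by positivity, fun f f' h => ?_⟩
  obtain ⟨iR, eR⟩ := h.ground_id
  rw [← eR]
  set q := ∫ σ, (f' σ - ZZ σ / JJ σ * f σ) ^ 2 ∂m0 with hq
  have q0 : 0 ≤ q := integral_nonneg fun _ => sq_nonneg _
  set ρ := f (-1) / JJ (-1) with hρ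
  have pt : ∀ σ, σ < 0 → (f σ - ρ * JJ σ) ^ 2 ≤ K₁ * q * exp (-σ) := by
    clear * - f' f h c q iR c0 hc ρ q0 K₁ hK₁
    intro σ hσ
    have sub : ∀ x ∈ uIcc (-1) σ, x < 0 := fun x hx => by
      rcases mem_uIcc.1 hx with h | h <;> linarith only [hσ, h, h.2]
    have sub' : uIoc (-1) σ ⊆ Iio 0 := fun x hx => sub x (uIoc_subset_uIcc hx)
    have cR : ContinuousOn (fun x => f' x - ZZ x / JJ x * f x) (uIcc (-1) σ) :=
      (h.cont.mono sub).sub (((continuous_ZZ.continuousOn).div continuous_JJ.continuousOn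
        fun x hx => (JJ_pos (sub x hx)).ne').mul (h.contf.mono sub))
    have cJ : ContinuousOn (fun x => (JJ x)⁻¹) (uIcc (-1) σ) :=
      continuous_JJ.continuousOn.inv₀ fun x hx => (JJ_pos (sub x hx)).ne'
    have cI : ContinuousOn (fun x : ℝ => 2 / c ^ 2 * (1 + (x ^ 2)⁻¹)) (uIcc (-1) σ) :=
      continuousOn_const.mul (continuousOn_const.add ((continuousOn_pow 2).inv₀
        fun x hx => pow_ne_zero 2 (sub x hx).ne))
    have h1 := intervalIntegral.integral_eq_sub_of_hasDerivAt (f := fun x => f x / JJ x)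
      (f' := fun x => (f' x - ZZ x / JJ x * f x) * (JJ x)⁻¹) (a := -1) (b := σ)
      (fun x hx => ((h.der x (sub x hx)).div (JJ_der x) (JJ_pos (sub x hx)).ne').congr_deriv (by
        have := (JJ_pos (sub x hx)).ne'; field_simp)) (cR.mul cJ).intervalIntegrable
    have h2 := intervalIntegral.integral_eq_sub_of_hasDerivAt
      (f := fun x => 2 / c ^ 2 * (x - x⁻¹))
      (f' := fun x => 2 / c ^ 2 * (1 + (x ^ 2)⁻¹)) (a := -1) (b := σ)
      (fun x hx => (((hasDerivAt_id x).sub (hasDerivAt_inv (sub x hx).ne)).const_mul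
        _).congr_deriv (by ring)) cI.intervalIntegrable
    have h3 := cs (μ := volume.restrict (uIoc (-1) σ)) (f := fun x => f' x - ZZ x / JJ x * f x)
      (g := fun x => (JJ x)⁻¹) (intervalIntegrable_iff.1 (cR.pow 2).intervalIntegrable)
      (intervalIntegrable_iff.1 (cJ.pow 2).intervalIntegrable)
      (intervalIntegrable_iff.1 (cR.mul cJ).intervalIntegrable)
    have h4 : ∫ x in uIoc (-1) σ, (f' x - ZZ x / JJ x * f x) ^ 2 ≤ q :=
      setIntegral_mono_set iR (Eventually.of_forall fun _ => sq_nonneg _) sub'.eventuallyLE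
    have h5 : ∫ x in uIoc (-1) σ, (JJ x)⁻¹ ^ 2 ≤ 2 / c ^ 2 * (|σ| + |σ|⁻¹) := by
      clear * - σ c cJ cI sub' c0 hc h2
      refine (setIntegral_mono_on (intervalIntegrable_iff.1 (cJ.pow 2).intervalIntegrable)
        (intervalIntegrable_iff.1 cI.intervalIntegrable) measurableSet_uIoc
        fun x hx => ?_).trans ?_
      · have hx0 : x < 0 := sub' hx
        have k := pow_le_pow_left₀ (by positivity) (hc x hx0) 2
        have p := JJ_pos hx0
        have s0 : 0 < x ^ 2 := by have := hx0.ne; positivity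
        rw [mul_pow, mul_pow, sq_abs] at k
        have k2 : (1 + |x|) ^ 2 ≤ 2 * (1 + x ^ 2) := by linarith only [sq_abs x, sq_nonneg (|x| - 1), sq_nonneg (|x| - (1 : ℝ))]
        rw [Pi.pow_apply, inv_pow, inv_le_iff_one_le_mul₀ (by positivity)]
        have : 2 / c ^ 2 * (1 + (x ^ 2)⁻¹) * JJ x ^ 2 =
            JJ x ^ 2 * (2 * (1 + x ^ 2)) / (c ^ 2 * x ^ 2) := by
          have := hx0.ne; field_simp; ring
        rw [this, one_le_div (by positivity)]
        linarith only [k, k2, sq_nonneg (JJ x), mul_nonneg_of_nonpos_of_nonpos (Mathlib.Tactic.Linarith.sub_nonpos_of_le (sq_nonneg (JJ x))) (Mathlib.Tactic.Linarith.sub_nonpos_of_le k2)]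
      · refine (le_abs_self _).trans ?_
        rw [← intervalIntegral.abs_integral_eq_abs_integral_uIoc, h2]
        simp only [inv_neg, inv_one, sub_self, mul_zero, sub_zero]
        rw [abs_mul, abs_of_pos (by positivity : 0 < 2 / c ^ 2), ← abs_inv]
        exact mul_le_mul_of_nonneg_left (abs_sub _ _) (by positivity)
    rw [← sq_abs, ← intervalIntegral.abs_integral_eq_abs_integral_uIoc, h1, sq_abs] at h3
    have h6 : (f σ / JJ σ - ρ) ^ 2 ≤ q * (2 / c ^ 2 * (|σ| + |σ|⁻¹)) :=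
      h3.trans (mul_le_mul h4 h5 (integral_nonneg fun _ => sq_nonneg _) q0)
    have p := JJ_pos hσ
    have s0 := abs_pos.2 hσ.ne
    have e : (f σ - ρ * JJ σ) ^ 2 = (f σ / JJ σ - ρ) ^ 2 * JJ σ ^ 2 := by field_simp
    have j1 : JJ σ ^ 2 ≤ 1 := by clear * - σ; rw [← sq_abs]; linarith only [abs_JJ_le σ, abs_nonneg (JJ σ), mul_nonneg_of_nonpos_of_nonpos (Mathlib.Tactic.Linarith.sub_nonpos_of_le (abs_JJ_le σ)) (Mathlib.Tactic.Linarith.sub_nonpos_of_le (abs_nonneg (JJ σ)))]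
    have j2 : |σ|⁻¹ * JJ σ ^ 2 ≤ 49 * |σ| := by
      clear * - σ s0 p hσ
      rw [inv_mul_le_iff₀ s0]
      linarith only [p, hσ, s0, JJ_le_mul hσ.le, mul_nonneg_of_nonpos_of_nonpos (le_of_lt (Mathlib.Tactic.Linarith.sub_neg_of_lt p)) (Mathlib.Tactic.Linarith.sub_nonpos_of_le (JJ_le_mul (LT.lt.le hσ))), mul_nonneg_of_nonpos_of_nonpos (le_of_lt (Mathlib.Tactic.Linarith.sub_neg_of_lt s0)) (Mathlib.Tactic.Linarith.sub_nonpos_of_le (JJ_le_mul (LT.lt.le hσ)))]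
    have j3 : |σ| ≤ exp (-σ) := by rw [abs_of_neg hσ]; linarith only [add_one_le_exp (-σ)]
    rw [e]
    calc _ ≤ q * (2 / c ^ 2 * (|σ| + |σ|⁻¹)) * JJ σ ^ 2 :=
          mul_le_mul_of_nonneg_right h6 (sq_nonneg _)
      _ = q * (2 / c ^ 2) * (|σ| * JJ σ ^ 2 + |σ|⁻¹ * JJ σ ^ 2) := by ring
      _ ≤ q * (2 / c ^ 2) * (50 * exp (-σ)) :=
          mul_le_mul_of_nonneg_left (by clear * - σ j2 j3 s0 j1; linarith only [j2, j3, s0, j1, mul_nonneg_of_nonpos_of_nonpos (le_of_lt (Mathlib.Tactic.Linarith.sub_neg_of_lt s0)) (Mathlib.Tactic.Linarith.sub_nonpos_of_le j1)]) (by positivity)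
      _ = _ := by rw [hK₁]; ring
  have be : B0 m0 fun σ => f σ - ρ * JJ σ := h.b0.sub ((B0.const ρ).mul b0_JJ)
  have Ne : ∫ σ, exp (2 * σ) * (f σ - ρ * JJ σ) ^ 2 ∂m0 ≤ K₁ * q := by
    clear * - f ρ K₁ q be c pt
    calc _ ≤ ∫ σ, K₁ * q * exp (1 * σ) ∂m0 := by
          refine integral_mono_ae (be.sq.int_mul (int_exp two_pos))
            ((int_exp one_pos).const_mul _) (ae_m0 fun σ hσ => ?_)
          have e : exp (1 * σ) = exp (2 * σ) * exp (-σ) := by rw [← exp_add]; congr 1; ring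
          simp only [e]
          linarith only [pt, hσ, pt σ hσ, exp_pos (2 * σ), mul_nonneg_of_nonpos_of_nonpos (Mathlib.Tactic.Linarith.sub_nonpos_of_le (pt σ hσ)) (le_of_lt (Mathlib.Tactic.Linarith.sub_neg_of_lt (exp_pos ((2 : ℝ) * σ))))]
      _ = _ := by rw [integral_const_mul, integral_exp0 one_pos]; ring
  have Ne0 : 0 ≤ ∫ σ, exp (2 * σ) * (f σ - ρ * JJ σ) ^ 2 ∂m0 :=
    integral_nonneg fun _ => by positivity
  have Xe := ip_le_N be abs_ph0_le
  have Xe2 : (∫ σ, ph0 σ * (f σ - ρ * JJ σ) ∂m0) ^ 2 ≤ 121 * (K₁ * q) := by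
    have := pow_le_pow_left₀ (abs_nonneg _) Xe 2
    rw [sq_abs, mul_pow, sq_sqrt Ne0] at this
    linarith only [Ne, this]
  have X1 : ∫ σ, ph0 σ * (f σ - ρ * JJ σ) ∂m0 = (∫ σ, ph0 σ * f σ ∂m0) - ρ * x₀ := by
    rw [hx₀, ← integral_const_mul, ← integral_sub (h.b0.int_mul int_ph0)
      ((b0_JJ.int_mul int_ph0).const_mul ρ)]
    exact integral_congr_ae (Eventually.of_forall fun _ => by simp only; ring)
  have N1 : ∫ σ, exp (2 * σ) * f σ ^ 2 ∂m0 ≤ ρ ^ 2 + 2 * (K₁ * q) := by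
    clear * - f ρ K₁ q f' h be c Ne
    calc _ ≤ ∫ σ, (2 * ρ ^ 2 * exp (2 * σ) + 2 * (exp (2 * σ) * (f σ - ρ * JJ σ) ^ 2)) ∂m0 := by
          refine integral_mono_ae h.intN (iadd ((int_exp two_pos).const_mul _)
            ((be.sq.int_mul (int_exp two_pos)).const_mul _)) (ae_m0 fun σ hσ => ?_)
          have j1 : JJ σ ^ 2 ≤ 1 := by rw [← sq_abs]; linarith only [abs_JJ_le σ, abs_nonneg (JJ σ), mul_nonneg_of_nonpos_of_nonpos (Mathlib.Tactic.Linarith.sub_nonpos_of_le (abs_JJ_le σ)) (Mathlib.Tactic.Linarith.sub_nonpos_of_le (abs_nonneg (JJ σ)))]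
          have : f σ ^ 2 ≤ 2 * ρ ^ 2 + 2 * (f σ - ρ * JJ σ) ^ 2 := by
            linarith only [j1, sq_nonneg (f σ - 2 * ρ * JJ σ), sq_nonneg ρ, sq_nonneg (f σ - (2 : ℝ) * ρ * JJ σ), mul_nonneg_of_nonpos_of_nonpos (Mathlib.Tactic.Linarith.sub_nonpos_of_le (sq_nonneg ρ)) (Mathlib.Tactic.Linarith.sub_nonpos_of_le j1)]
          simp only
          linarith only [this, exp_pos (2 * σ), mul_nonneg_of_nonpos_of_nonpos (Mathlib.Tactic.Linarith.sub_nonpos_of_le this) (le_of_lt (Mathlib.Tactic.Linarith.sub_neg_of_lt (exp_pos ((2 : ℝ) * σ))))]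
      _ ≤ _ := by
          rw [integral_add ((int_exp two_pos).const_mul _)
            ((be.sq.int_mul (int_exp two_pos)).const_mul _), integral_const_mul,
            integral_const_mul, integral_exp0 two_pos]
          linarith only [Ne]
  set X := ∫ σ, ph0 σ * f σ ∂m0
  set N := ∫ σ, exp (2 * σ) * f σ ^ 2 ∂m0
  rw [X1] at Xe2
  have r1 : ρ ^ 2 ≤ 2 / x₀ ^ 2 * (X ^ 2 + 121 * (K₁ * q)) := by
    clear * - ρ x₀ X K₁ q x0 f c Xe2
    rw [div_mul_eq_mul_div, le_div_iff₀ (by positivity)]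
    linarith only [Xe2, sq_nonneg (2 * X - ρ * x₀), sq_nonneg ((2 : ℝ) * X - ρ * x₀)]
  have N0 : 0 ≤ N := integral_nonneg fun _ => by positivity
  have j7 : jj ^ 2 * N ≤ 7 * N := mul_le_mul_of_nonneg_right (by linarith only [jj_sq_le]) N0
  have t1 : 0 ≤ 2 / x₀ ^ 2 * q := by positivity
  have t2 : 0 ≤ 2 / x₀ ^ 2 * K₁ * X ^ 2 := by positivity
  have t3 : 0 ≤ K₁ * X ^ 2 := by positivity
  clear * - f' x₀ K₁ q X N ρ c f eR N1 r1 j7 t1 t2 t3
  linarith only [eR, N1, r1, j7, t1, t2, t3, sq_nonneg X, sq_nonneg X]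

end Pool.Agent.Work.MP_267827_an
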