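import Pool.Agent.Work.MP_267827_an.Weight
import Pool.Agent.Work.MP_267827_an.Reg

/-! The area excess of a triangle over the sector of the same conformal radius. -/

set_option autoImplicit false

namespace Pool.Agent.Work.MP_267827_an

open MeasureTheory Set Filter Topology Metric Real

theorem Lam_taylor (x : ℝ) (n : ℕ) :
    |exp x - ∑ m ∈ Finset.range n, x ^ m / m.factorial| ≤ |x| ^ n * exp |x| := by
  have h := Complex.norm_exp_sub_sum_le_norm_mul_exp (x : ℂ) n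
  rw [Complex.norm_real, Real.norm_eq_abs] at h
  refine le_of_eq_of_le ?_ h
  rw [← Real.norm_eq_abs, ← Complex.norm_real]
  congr 1
  push_cast
  rfl

theorem Lam_e1 (x : ℝ) : |exp x - 1| ≤ |x| * exp |x| := by simpa using Lam_taylor x 1

theorem Lam_e2 (x : ℝ) : exp x - 1 - x ≤ x ^ 2 * exp |x| := by
  have := Lam_taylor x 2
  simp only [Finset.sum_range_succ, Finset.sum_range_zero, sq_abs] at this
  norm_num at this
  linarith [(abs_le.1 this).2]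

theorem Lam_e3 (x : ℝ) : x ^ 2 / 2 - |x| ^ 3 * exp |x| ≤ exp x - 1 - x := by
  have := Lam_taylor x 3
  simp only [Finset.sum_range_succ, Finset.sum_range_zero] at this
  norm_num [Nat.factorial] at this
  linarith [(abs_le.1 this).1]

theorem Lam_e0 (x : ℝ) : 0 ≤ exp x - 1 - x := by linarith [add_one_le_exp x]

theorem Lam_xe (x : ℝ) : 0 ≤ x * (exp x - 1) ∧ x * (exp x - 1) ≤ x ^ 2 * exp |x| := by
  refine ⟨?_, ?_⟩
  · rcases le_total 0 x with h | h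
    · exact mul_nonneg h (by linarith [add_one_le_exp x])
    · exact mul_nonneg_of_nonpos_of_nonpos h (by linarith [exp_le_one_iff.2 h])
  · refine (le_abs_self _).trans ?_
    rw [abs_mul, ← sq_abs, sq, mul_assoc]
    exact mul_le_mul_of_nonneg_left (Lam_e1 x) (abs_nonneg x)

theorem Lam_cosh (z : ℝ) : z ^ 2 / 4 ≤ (exp z + exp (-z)) / 2 - 1 ∧
    (exp z + exp (-z)) / 2 - 1 ≤ z ^ 2 * exp |z| := by
  refine ⟨?_, ?_⟩
  · rcases le_total 0 z with h | h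
    · have := quadratic_le_exp_of_nonneg h
      linarith [add_one_le_exp (-z)]
    · have := quadratic_le_exp_of_nonneg (neg_nonneg.2 h)
      linarith [add_one_le_exp z]
  · have h1 := Lam_e2 z
    have h2 := Lam_e2 (-z)
    rw [abs_neg, neg_sq] at h2
    linarith

/-- the integrand of the area excess -/
noncomputable def Lam_r (a s β : ℝ) : ℝ :=
  β ^ 2 * (exp (2 * β * a) * (exp (2 * β * s) - 1 - 2 * β * s))

/-- its derivative -/
noncomputable def Lam_r1 (a s β : ℝ) : ℝ :=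
  β * (exp (2 * β * a) * ((2 + 2 * β * a) * (exp (2 * β * s) - 1 - 2 * β * s) +
    2 * β * s * (exp (2 * β * s) - 1)))

/-- its second derivative -/
noncomputable def Lam_r2 (a s β : ℝ) : ℝ :=
  exp (2 * β * a) * ((2 + 4 * (2 * β * a) + (2 * β * a) ^ 2) * (exp (2 * β * s) - 1 - 2 * β * s) +
    (4 + 2 * (2 * β * a)) * (2 * β * s * (exp (2 * β * s) - 1)) +
    (2 * β * s) ^ 2 * exp (2 * β * s))

theorem Lam_lin (c β : ℝ) : HasDerivAt (fun β : ℝ => 2 * β * c) (2 * c) β := by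
  simpa using ((hasDerivAt_id β).const_mul 2).mul_const c

theorem Lam_r_der (a s β : ℝ) : HasDerivAt (Lam_r a s) (Lam_r1 a s β) β := by
  have h := (hasDerivAt_pow 2 β).mul ((Lam_lin a β).exp.mul
    (((Lam_lin s β).exp.sub_const 1).sub (Lam_lin s β)))
  refine HasDerivAt.congr_deriv h ?_
  simp only [Lam_r1, Pi.mul_apply, Pi.sub_apply]
  push_cast
  ring

theorem Lam_r1_der (a s β : ℝ) : HasDerivAt (Lam_r1 a s) (Lam_r2 a s β) β := by
  have h := (hasDerivAt_id' β).mul ((Lam_lin a β).exp.mul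
    ((((Lam_lin a β).const_add 2).mul (((Lam_lin s β).exp.sub_const 1).sub (Lam_lin s β))).add
      ((Lam_lin s β).mul ((Lam_lin s β).exp.sub_const 1))))
  refine HasDerivAt.congr_deriv h ?_
  simp only [Lam_r2, Pi.mul_apply, Pi.sub_apply, Pi.add_apply]
  ring

theorem Lam_psi {x y : ℝ} (hy : y ≤ 0) :
    6 * x ^ 2 - 12 * (x ^ 2 * exp |x| * (|x| + |y|)) ≤
      exp y * ((2 + 4 * y + y ^ 2) * (exp x - 1 - x) + (4 + 2 * y) * (x * (exp x - 1)) +
        x ^ 2 * exp x) := by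
  have h0 := Lam_e0 x
  have h2 := Lam_e2 x
  have h3 := Lam_e3 x
  have h4 := Lam_xe x
  have hX : 1 ≤ exp |x| := one_le_exp (abs_nonneg x)
  have hA : exp y ≤ 1 := exp_le_one_iff.2 hy
  have hA' := add_one_le_exp y
  have hA0 := exp_pos y
  have e3 : |x| ^ 3 = x ^ 2 * |x| := by rw [← sq_abs x]; ring
  rw [abs_of_nonpos hy]
  rw [e3] at h3
  have hx0 := abs_nonneg x
  have hx1 := neg_abs_le x
  have hx2 := sq_nonneg x
  set X := exp |x|
  set E := exp x - 1 - x with hE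
  have e1 : exp x = 1 + x + E := by rw [hE]; ring
  have p1 : 0 ≤ x ^ 2 * X := by positivity
  have a1 : -(x ^ 2 * X * |x|) ≤ x * E := by nlinarith
  have a2 : x ^ 2 - x ^ 2 * X * |x| ≤ x ^ 2 * exp x := by
    have : x ^ 2 * |x| ≤ x ^ 2 * X * |x| := by nlinarith [mul_nonneg hx2 hx0]
    rw [e1]; nlinarith [mul_nonneg hx2 h0]
  have a3 : y * (x ^ 2 * X) ≤ y * E := by nlinarith
  have a4 : y * (x ^ 2 * X) ≤ y * (x * (exp x - 1)) := by nlinarith
  have a5 : x * (exp x - 1) = x ^ 2 + x * E := by rw [e1]; ring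
  have b1 : 6 * x ^ 2 - (7 * (x ^ 2 * X * |x|) - 6 * (y * (x ^ 2 * X))) ≤
      (2 + 4 * y + y ^ 2) * E + (4 + 2 * y) * (x * (exp x - 1)) + x ^ 2 * exp x := by
    nlinarith [mul_nonneg (sq_nonneg y) h0]
  have b2 : 0 ≤ 7 * (x ^ 2 * X * |x|) - 6 * (y * (x ^ 2 * X)) := by
    nlinarith [mul_nonneg p1 hx0]
  have b3 := mul_le_mul_of_nonneg_left b1 hA0.le
  have b4 : y * (x ^ 2 * X) ≤ y * x ^ 2 := by nlinarith [mul_nonneg hx2 (sub_nonneg.2 hX)]
  nlinarith [mul_nonneg hx2 (sub_nonneg.2 hA'), mul_nonneg (sub_nonneg.2 hA) b2,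
    mul_nonneg p1 hx0]

section point
variable {a s l m β : ℝ}

theorem Lam_x (hs : |s| ≤ 2 * l) (h0 : 0 ≤ β) (h1 : β ≤ 1 / 64) :
    |2 * β * s| ≤ 4 * β * l ∧ (2 * β * s) ^ 2 * exp |2 * β * s| ≤
      16 * β ^ 2 * (l ^ 2 * exp (l / 4)) := by
  have hl : 0 ≤ l := by linarith [abs_nonneg s]
  have h2 : |2 * β * s| ≤ 4 * β * l := by
    rw [abs_mul, abs_of_nonneg (by positivity : 0 ≤ 2 * β)]; nlinarith
  refine ⟨h2, ?_⟩
  have h3 : exp |2 * β * s| ≤ exp (l / 4) := exp_le_exp.2 (by nlinarith)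
  have h4 : (2 * β * s) ^ 2 ≤ (4 * β * l) ^ 2 := by
    rw [← sq_abs]; exact pow_le_pow_left₀ (abs_nonneg _) h2 2
  calc _ ≤ (4 * β * l) ^ 2 * exp (l / 4) := mul_le_mul h4 h3 (exp_pos _).le (sq_nonneg _)
    _ = _ := by ring

theorem Lam_r_bd (ha : a ≤ 0) (hs : |s| ≤ 2 * l) (hm : l ^ 2 * exp (l / 4) ≤ m) (h0 : 0 ≤ β)
    (h1 : β ≤ 1 / 64) : 0 ≤ Lam_r a s β ∧ Lam_r a s β ≤ 16 * β ^ 4 * m := by
  have hA : exp (2 * β * a) ≤ 1 := exp_le_one_iff.2 (by nlinarith)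
  have e0 := Lam_e0 (2 * β * s)
  refine ⟨mul_nonneg (sq_nonneg _) (mul_nonneg (exp_pos _).le e0), ?_⟩
  have h2 := (Lam_e2 (2 * β * s)).trans (Lam_x hs h0 h1).2
  have h3 : exp (2 * β * a) * (exp (2 * β * s) - 1 - 2 * β * s) ≤ 16 * β ^ 2 * m := by
    nlinarith [mul_le_mul_of_nonneg_left hm (sq_nonneg β)]
  calc _ ≤ β ^ 2 * (16 * β ^ 2 * m) := mul_le_mul_of_nonneg_left h3 (sq_nonneg _)
    _ = _ := by ring

theorem Lam_r1_bd (ha : a ≤ 0) (hs : |s| ≤ 2 * l) (hm : l ^ 2 * exp (l / 4) ≤ m) (h0 : 0 ≤ β)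
    (h1 : β ≤ 1 / 64) : |Lam_r1 a s β| ≤ 64 * β ^ 3 * m := by
  have hy : 2 * β * a ≤ 0 := by nlinarith
  have hA : exp (2 * β * a) ≤ 1 := exp_le_one_iff.2 hy
  have hA0 := exp_pos (2 * β * a)
  have hy1 : -1 ≤ exp (2 * β * a) * (2 * β * a) := by
    have h2 := add_one_le_exp (-(2 * β * a))
    have h3 : exp (2 * β * a) * exp (-(2 * β * a)) = 1 := by rw [← exp_add]; simp
    nlinarith
  have e0 := Lam_e0 (2 * β * s)
  have e2 := Lam_e2 (2 * β * s)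
  have e3 := Lam_xe (2 * β * s)
  have h2 := (Lam_x hs h0 h1).2
  have h4 := mul_le_mul_of_nonneg_left hm (sq_nonneg β)
  rw [Lam_r1, abs_mul, abs_of_nonneg h0]
  have hy2 : exp (2 * β * a) * (2 * β * a) ≤ 0 := mul_nonpos_of_nonneg_of_nonpos hA0.le hy
  generalize exp (2 * β * s) - 1 - 2 * β * s = E at *
  generalize 2 * β * s * (exp (2 * β * s) - 1) = G at *
  generalize 2 * β * a = y at *
  have h3 : |exp y * ((2 + y) * E + G)| ≤ 64 * β ^ 2 * m := by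
    rw [abs_le]
    constructor
    · nlinarith [mul_nonneg hA0.le e0, mul_nonneg hA0.le e3.1]
    · nlinarith [mul_nonneg (sub_nonneg.2 hA) e0, mul_nonneg (sub_nonneg.2 hA) e3.1]
  calc _ ≤ β * (64 * β ^ 2 * m) := mul_le_mul_of_nonneg_left h3 h0
    _ = _ := by ring

theorem Lam_r2_bd (ha : a ≤ 0) (hs : |s| ≤ 2 * l)
    (hm : l ^ 2 * exp (l / 4) * (1 + |a| + l) ≤ m) (h0 : 0 ≤ β) (h1 : β ≤ 1 / 64) :
    24 * s ^ 2 * β ^ 2 - 800 * m * β ^ 3 ≤ Lam_r2 a s β := by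
  have hl : 0 ≤ l := by linarith [abs_nonneg s]
  have hy : 2 * β * a ≤ 0 := by nlinarith
  refine le_trans ?_ (Lam_psi (x := 2 * β * s) hy)
  obtain ⟨h2, h3⟩ := Lam_x hs h0 h1
  have h4 : |2 * β * a| = 2 * β * |a| := by
    rw [abs_mul, abs_of_nonneg (by positivity : 0 ≤ 2 * β)]
  have h5 : |2 * β * s| + |2 * β * a| ≤ 4 * β * (1 + |a| + l) := by
    rw [h4]; nlinarith [abs_nonneg a]
  have h6 := mul_le_mul h3 h5 (by positivity) (by positivity)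
  have h7 := mul_le_mul_of_nonneg_left hm (pow_nonneg h0 3)
  have h8 : 0 ≤ l ^ 2 * exp (l / 4) * (1 + |a| + l) := by positivity
  nlinarith [mul_nonneg (pow_nonneg h0 3) h8]

theorem Lam_tangent {h h' h'' : ℝ → ℝ} (d1 : ∀ x, HasDerivAt h (h' x) x)
    (d2 : ∀ x, HasDerivAt h' (h'' x) x) {B : ℝ} (pos : ∀ x, 0 ≤ x → x ≤ B → 0 ≤ h'' x) {x y : ℝ}
    (hx : x ∈ Icc 0 B) (hy : y ∈ Icc 0 B) : h x + h' x * (y - x) ≤ h y := by
  have mono : MonotoneOn h' (Icc 0 B) := by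
    refine monotoneOn_of_deriv_nonneg (convex_Icc 0 B)
      (fun z _ => (d2 z).continuousAt.continuousWithinAt)
      (fun z _ => (d2 z).differentiableAt.differentiableWithinAt) fun z hz => ?_
    rw [(d2 z).deriv]
    exact pos z (interior_subset hz).1 (interior_subset hz).2
  rcases lt_trichotomy x y with c | rfl | c
  · obtain ⟨z, hz, e⟩ := exists_hasDerivAt_eq_slope h h' c
      (fun z _ => (d1 z).continuousAt.continuousWithinAt) (fun z _ => d1 z)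
    have h1 := mono hx ⟨hx.1.trans hz.1.le, hz.2.le.trans hy.2⟩ hz.1.le
    rw [e, le_div_iff₀ (sub_pos.2 c)] at h1
    linarith
  · simp
  · obtain ⟨z, hz, e⟩ := exists_hasDerivAt_eq_slope h h' c
      (fun z _ => (d1 z).continuousAt.continuousWithinAt) (fun z _ => d1 z)
    have h1 := mono ⟨hy.1.trans hz.1.le, hz.2.le.trans hx.2⟩ hx hz.2.le
    rw [e, div_le_iff₀ (sub_pos.2 c)] at h1
    linarith

theorem Lam_conv {β₀ : ℝ} (ha : a ≤ 0) (hs : |s| ≤ 2 * l)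
    (hm : l ^ 2 * exp (l / 4) * (1 + |a| + l) ≤ m) (h0 : 0 ≤ β) (h1 : β ≤ 1 / 64) (h0' : 0 ≤ β₀)
    (h1' : β₀ ≤ 1 / 64) :
    Lam_r a s β₀ + Lam_r1 a s β₀ * (β - β₀) + max β β₀ ^ 2 * (β - β₀) ^ 2 * (2 * s ^ 2) -
      400 * max β β₀ * (max β β₀ ^ 2 * (β - β₀) ^ 2) * m ≤ Lam_r a s β := by
  have hl : 0 ≤ l := by linarith [abs_nonneg s]
  have hm0 : 0 ≤ m := le_trans (by positivity) hm
  have key := Lam_tangent (h := fun x => Lam_r a s x - 2 * s ^ 2 * x ^ 4 + 40 * m * x ^ 5)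
    (h' := fun x => Lam_r1 a s x - 8 * s ^ 2 * x ^ 3 + 200 * m * x ^ 4)
    (h'' := fun x => Lam_r2 a s x - 24 * s ^ 2 * x ^ 2 + 800 * m * x ^ 3)
    (fun x => (((Lam_r_der a s x).sub ((hasDerivAt_pow 4 x).const_mul (2 * s ^ 2))).add
      ((hasDerivAt_pow 5 x).const_mul (40 * m))).congr_deriv (by push_cast; ring))
    (fun x => (((Lam_r1_der a s x).sub ((hasDerivAt_pow 3 x).const_mul (8 * s ^ 2))).add
      ((hasDerivAt_pow 4 x).const_mul (200 * m))).congr_deriv (by push_cast; ring))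
    (B := 1 / 64) (fun x x0 x1 => by linarith [Lam_r2_bd ha hs hm x0 x1]) ⟨h0', h1'⟩ ⟨h0, h1⟩
  have m1 := le_max_left β β₀
  have m2 := le_max_right β β₀
  have c1 : max β β₀ ^ 2 ≤ β ^ 2 + 2 * β * β₀ + 3 * β₀ ^ 2 := by
    rcases max_choice β β₀ with e | e <;> rw [e] <;> nlinarith [mul_nonneg h0 h0']
  have c2 : β ^ 3 + 2 * β ^ 2 * β₀ + 3 * β * β₀ ^ 2 + 4 * β₀ ^ 3 ≤ 10 * max β β₀ ^ 3 := by
    generalize max β β₀ = M at *
    have M0 : 0 ≤ M := h0.trans m1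
    have q1 : β ^ 3 ≤ M ^ 3 := by gcongr
    have q2 : β ^ 2 * β₀ ≤ M ^ 2 * M := by gcongr
    have q3 : β * β₀ ^ 2 ≤ M * M ^ 2 := by gcongr
    have q4 : β₀ ^ 3 ≤ M ^ 3 := by gcongr
    nlinarith
  have c3 := mul_le_mul_of_nonneg_left c1 (mul_nonneg (sq_nonneg (β - β₀)) (sq_nonneg s))
  have c4 := mul_le_mul_of_nonneg_left c2 (mul_nonneg (sq_nonneg (β - β₀)) hm0)
  nlinarith

theorem Lam_lip {β₀ : ℝ} (ha : a ≤ 0) (hs : |s| ≤ 2 * l) (hm : l ^ 2 * exp (l / 4) ≤ m)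
    (h0 : 0 ≤ β) (h1 : β ≤ 1 / 64) (h0' : 0 ≤ β₀) (h1' : β₀ ≤ 1 / 64) :
    |Lam_r a s β - Lam_r a s β₀| ≤ 64 * (max β β₀ ^ 3 * |β - β₀|) * m := by
  have hm0 : 0 ≤ m := le_trans (by positivity) hm
  have := (convex_Icc 0 (max β β₀)).norm_image_sub_le_of_norm_hasDerivWithin_le
    (f := Lam_r a s) (f' := Lam_r1 a s) (C := 64 * max β β₀ ^ 3 * m)
    (fun x _ => (Lam_r_der a s x).hasDerivWithinAt)
    (fun x hx => (Lam_r1_bd ha hs hm hx.1 (hx.2.trans (max_le h1 h1'))).trans (by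
      have := hx.1
      have := hx.2
      gcongr))
    (x := β₀) (y := β) ⟨h0', le_max_right _ _⟩ ⟨h0, le_max_left _ _⟩
  rw [Real.norm_eq_abs, Real.norm_eq_abs] at this
  exact this.trans (le_of_eq (by ring))

end point

/-- the logarithmic singularity -/
noncomputable def Lam_l (a : ℝ) : ℝ := -log (1 - exp a)

/-- the majorant -/
noncomputable def Lam_m (a : ℝ) : ℝ :=
  log (1 - exp a) ^ 2 * (1 + |a| - log (1 - exp a)) * exp (-log (1 - exp a) / 4)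

/-- the even part -/
noncomputable def Lam_s (p : ℝ × ℝ) : ℝ := u1 p.1 p.2 + u2 p.1 p.2

/-- the odd part -/
noncomputable def Lam_d (p : ℝ × ℝ) : ℝ := u1 p.1 p.2 - u2 p.1 p.2

theorem Lam_xx (β b : ℝ) (p : ℝ × ℝ) : xx β b p.1 p.2 = 2 * β * Lam_s p + 2 * b * Lam_d p := by
  simp only [xx, Lam_s, Lam_d]; ring

theorem Lam_pt {p : ℝ × ℝ} (hp : p.1 < 0) : 0 ≤ Lam_l p.1 ∧ |Lam_s p| ≤ 2 * Lam_l p.1 ∧
    |Lam_d p| ≤ 2 * Lam_l p.1 ∧ Lam_l p.1 ^ 2 * exp (Lam_l p.1 / 4) ≤ Lam_m p.1 ∧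
    Lam_l p.1 ^ 2 * exp (Lam_l p.1 / 4) * (1 + |p.1| + Lam_l p.1) ≤ Lam_m p.1 := by
  obtain ⟨h1, h2⟩ := u_abs_le hp p.2
  have h0 : 0 ≤ Lam_l p.1 := (abs_nonneg _).trans h1
  have h3 : Lam_l p.1 ^ 2 * exp (Lam_l p.1 / 4) * (1 + |p.1| + Lam_l p.1) = Lam_m p.1 := by
    simp only [Lam_l, Lam_m]; ring
  refine ⟨h0, (abs_add_le _ _).trans (by rw [Lam_l]; linarith),
    (abs_sub _ _).trans (by rw [Lam_l]; linarith), ?_, h3.le⟩
  rw [← h3]
  exact le_mul_of_one_le_right (by positivity) (by linarith [abs_nonneg p.1])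

theorem Lam_nu : nu = volume.restrict (Iio (0 : ℝ) ×ˢ Ioo (0 : ℝ) 1) := by
  rw [nu, Measure.prod_restrict]; rfl

theorem Lam_ae {P : ℝ × ℝ → Prop} (h : ∀ p : ℝ × ℝ, p.1 < 0 → P p) : ∀ᵐ p ∂nu, P p := by
  rw [Lam_nu]
  filter_upwards [ae_restrict_mem (measurableSet_Iio.prod measurableSet_Ioo)] with p hp
  exact h p hp.1

theorem Lam_fst {f : ℝ → ℝ} (h : Integrable f m0) : Integrable (fun p : ℝ × ℝ => f p.1) nu :=
  h.comp_fst _

theorem Lam_s_meas : Measurable Lam_s := u_meas.1.add u_meas.2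

theorem Lam_d_meas : Measurable Lam_d := u_meas.1.sub u_meas.2

theorem Lam_m_int : Integrable (fun p : ℝ × ℝ => Lam_m p.1) nu := Lam_fst ell_int

theorem Lam_int {f : ℝ × ℝ → ℝ} (hf : Measurable f) (C : ℝ)
    (h : ∀ p : ℝ × ℝ, p.1 < 0 → |f p| ≤ C * Lam_m p.1) : Integrable f nu :=
  (Lam_m_int.const_mul C).mono' hf.aestronglyMeasurable (Lam_ae h)

theorem Lam_int' {f : ℝ × ℝ → ℝ} (hf : Measurable f) {c : ℝ} (hc : 0 < c)
    (h : ∀ p : ℝ × ℝ, p.1 < 0 → |f p| ≤ 4 * exp (c * p.1) + Lam_m p.1) : Integrable f nu :=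
  (((Lam_fst (int_exp hc)).const_mul 4).add Lam_m_int).mono' hf.aestronglyMeasurable (Lam_ae h)

theorem Lam_refl (F : ℝ × ℝ → ℝ) : ∫ p, F (p.1, 1 - p.2) ∂nu = ∫ p, F p ∂nu := by
  have h1 : MeasurePreserving (fun t : ℝ => 1 - t) (volume.restrict (Ioo 0 1))
      (volume.restrict (Ioo 0 1)) := by
    have := (Measure.measurePreserving_sub_left volume (1 : ℝ)).restrict_preimage
      (s := Ioo 0 1) measurableSet_Ioo
    rwa [preimage_const_sub_Ioo, sub_self, sub_zero] at this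
  have h2 := (MeasurePreserving.id (volume.restrict (Iio (0 : ℝ)))).prod h1
  exact h2.integral_comp (MeasurableEmbedding.id.prodMap (measurableEmbedding_subLeft 1)) F

theorem Lam_pos {f : ℝ × ℝ → ℝ} (hc : ContinuousOn f {p | p.1 < 0}) (hi : Integrable f nu)
    (h0 : ∀ p, 0 ≤ f p) {t : ℝ} (ht : t ∈ Ioo (0 : ℝ) 1) (hp : f (-1, t) ≠ 0) :
    0 < ∫ p, f p ∂nu := by
  rw [integral_pos_iff_support_of_nonneg h0 hi, Lam_nu,
    Measure.restrict_apply' (measurableSet_Iio.prod measurableSet_Ioo)]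
  have ho : IsOpen (Iio (0 : ℝ) ×ˢ Ioo (0 : ℝ) 1) := isOpen_Iio.prod isOpen_Ioo
  have h1 : IsOpen ((Iio (0 : ℝ) ×ˢ Ioo (0 : ℝ) 1) ∩ f ⁻¹' {0}ᶜ) :=
    (hc.mono fun p hp => hp.1).isOpen_inter_preimage ho isOpen_compl_singleton
  rw [inter_comm]
  exact h1.measure_pos volume ⟨(-1, t), ⟨by simp, ht⟩, hp⟩

theorem Lam_exp_bd {l m x : ℝ} (hl : 0 ≤ l) (hm : l ^ 2 * exp (l / 4) ≤ m) (hx : x ≤ l / 4) :
    |exp x - 1| ≤ 4 + m ∧ 2 * l ≤ 4 + m := by
  have h1 : exp x ≤ exp (l / 4) := exp_le_exp.2 hx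
  have h2 : 1 ≤ exp (l / 4) := one_le_exp (by linarith)
  have h3 : exp (l / 4) ≤ 3 + m := by
    rcases le_total l 1 with c | c
    · have : exp (l / 4) ≤ exp 1 := exp_le_exp.2 (by linarith)
      linarith [exp_one_lt_three, mul_nonneg (sq_nonneg l) (exp_pos (l / 4)).le]
    · nlinarith [mul_nonneg (sub_nonneg.2 (one_le_pow₀ c : 1 ≤ l ^ 2)) (exp_pos (l / 4)).le]
  refine ⟨abs_le.2 ⟨by linarith [exp_pos x], by linarith⟩, ?_⟩
  nlinarith [mul_nonneg (sq_nonneg l) (sub_nonneg.2 h2), sq_nonneg (l - 1)]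

theorem Lam_wt {c a v m : ℝ} (hc : 0 < c) (ha : a < 0) (hm : 0 ≤ m) (h : |v| ≤ 4 + m) :
    |exp (c * a) * v| ≤ 4 * exp (c * a) + m := by
  have h1 : exp (c * a) ≤ 1 := exp_le_one_iff.2 (by nlinarith)
  have h2 := exp_pos (c * a)
  rw [abs_mul, abs_of_pos h2]
  nlinarith

theorem Lam_LL_int {β b : ℝ} (hβ : 0 < β) (hβ1 : β ≤ 1 / 64) (hb : |b| ≤ 1 / 64) :
    Integrable (fun p : ℝ × ℝ => exp (2 * β * p.1) * (exp (xx β b p.1 p.2) - 1)) nu := by
  simp only [Lam_xx]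
  have := Lam_s_meas
  have := Lam_d_meas
  refine Lam_int' (by fun_prop) (c := 2 * β) (by positivity) fun p hp => ?_
  obtain ⟨h0, h1, h2, h3, -⟩ := Lam_pt hp
  refine Lam_wt (by positivity) hp (le_trans (by positivity) h3) (Lam_exp_bd h0 h3 ?_).1
  have a1 : β * Lam_s p ≤ 1 / 64 * (2 * Lam_l p.1) :=
    (mul_le_mul_of_nonneg_left (le_abs_self _) hβ.le).trans
      (mul_le_mul hβ1 h1 (abs_nonneg _) (by norm_num))
  have a2 : b * Lam_d p ≤ 1 / 64 * (2 * Lam_l p.1) :=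
    (le_abs_self _).trans (by rw [abs_mul]; exact mul_le_mul hb h2 (abs_nonneg _) (by norm_num))
  linarith

theorem Lam_r_int {β : ℝ} (hβ : 0 ≤ β) (hβ1 : β ≤ 1 / 64) :
    Integrable (fun p : ℝ × ℝ => Lam_r p.1 (Lam_s p) β) nu := by
  have := Lam_s_meas
  refine Lam_int (by unfold Lam_r; fun_prop) (16 * β ^ 4) fun p hp => ?_
  obtain ⟨-, h1, -, h3, -⟩ := Lam_pt hp
  have := Lam_r_bd hp.le h1 h3 hβ hβ1
  rw [abs_of_nonneg this.1]
  exact this.2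

theorem Lam_LL_zero {β : ℝ} (hβ : 0 < β) (hβ1 : β ≤ 1 / 64) :
    LL β 0 = 2 * π * ∫ p, Lam_r p.1 (Lam_s p) β ∂nu := by
  have := Lam_s_meas
  have i1 : Integrable (fun p : ℝ × ℝ => exp (2 * β * p.1) * Lam_s p) nu := by
    refine Lam_int' (by fun_prop) (c := 2 * β) (by positivity) fun p hp => ?_
    obtain ⟨h0, h1, -, h3, -⟩ := Lam_pt hp
    exact Lam_wt (by positivity) hp (le_trans (by positivity) h3)
      (h1.trans (Lam_exp_bd h0 h3 le_rfl).2)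
  have e1 : ∫ p, exp (2 * β * p.1) * Lam_s p ∂nu = 0 := by
    rw [nu, integral_prod _ i1]
    refine integral_eq_zero_of_ae (ae_m0 fun a ha => ?_)
    have c : ∀ {u : ℝ → ℝ → ℝ}, ContinuousOn (fun p : ℝ × ℝ => u p.1 p.2) {p | p.1 < 0} →
        IntegrableOn (u a) (Ioo 0 1) := fun hu =>
      ((hu.comp_continuous (f := fun t : ℝ => (a, t)) (by fun_prop)
        fun _ => ha).integrableOn_Icc).mono_set Ioo_subset_Icc_self
    simp only [Lam_s, Pi.zero_apply]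
    rw [integral_const_mul, integral_add (c u_cont.1) (c u_cont.2), (u_mean ha).1, (u_mean ha).2]
    simp
  have e2 : ∫ p, Lam_r p.1 (Lam_s p) β ∂nu =
      β ^ 2 * ((∫ p, exp (2 * β * p.1) * (exp (xx β 0 p.1 p.2) - 1) ∂nu) -
        2 * β * ∫ p, exp (2 * β * p.1) * Lam_s p ∂nu) := by
    rw [← integral_const_mul, ← integral_sub (Lam_LL_int hβ hβ1 (by simp)) (i1.const_mul _),
      ← integral_const_mul]
    refine integral_congr_ae (Eventually.of_forall fun p => ?_)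
    simp only [Lam_r, Lam_xx, mul_zero, zero_mul, add_zero]
    ring
  rw [e2, e1, LL]
  ring

theorem Lam_LL_diff {β b : ℝ} (hβ : 0 < β) (hβ1 : β ≤ 1 / 64) (hb : |b| ≤ 1 / 64) :
    Integrable (fun p : ℝ × ℝ => exp (2 * β * p.1) * exp (2 * β * Lam_s p) *
      ((exp (2 * b * Lam_d p) + exp (-(2 * b * Lam_d p))) / 2 - 1)) nu ∧
    LL β b - LL β 0 = 2 * π * β ^ 2 * ∫ p, exp (2 * β * p.1) * exp (2 * β * Lam_s p) *
      ((exp (2 * b * Lam_d p) + exp (-(2 * b * Lam_d p))) / 2 - 1) ∂nu := by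
  have i1 := Lam_LL_int hβ hβ1 hb
  have i2 := Lam_LL_int hβ hβ1 (b := -b) (by rwa [abs_neg])
  have i3 := Lam_LL_int hβ hβ1 (b := 0) (by simp)
  have e1 : ∫ p, exp (2 * β * p.1) * (exp (xx β (-b) p.1 p.2) - 1) ∂nu =
      ∫ p, exp (2 * β * p.1) * (exp (xx β b p.1 p.2) - 1) ∂nu := by
    rw [← Lam_refl]
    refine integral_congr_ae (Eventually.of_forall fun p => ?_)
    simp only [xx, u1_symm, u2_symm]
    congr 3
    ring
  have e2 : (fun p : ℝ × ℝ => exp (2 * β * p.1) * exp (2 * β * Lam_s p) *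
      ((exp (2 * b * Lam_d p) + exp (-(2 * b * Lam_d p))) / 2 - 1)) = fun p =>
      (exp (2 * β * p.1) * (exp (xx β b p.1 p.2) - 1) +
        exp (2 * β * p.1) * (exp (xx β (-b) p.1 p.2) - 1)) / 2 -
        exp (2 * β * p.1) * (exp (xx β 0 p.1 p.2) - 1) := by
    funext p
    simp only [Lam_xx, exp_add, mul_zero, zero_mul, exp_zero, mul_neg, neg_mul]
    ring
  rw [e2]
  have i4 := (i1.add i2).div_const 2
  simp only [Pi.add_apply] at i4
  refine ⟨i4.sub i3, ?_⟩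
  rw [integral_sub i4 i3, integral_div, integral_add i1 i2, e1, LL, LL]
  ring

theorem Lam_norm_sq (c a t : ℝ) :
    ‖1 + (c : ℂ) * Complex.exp (a + π * t * Complex.I)‖ ^ 2 =
      1 + 2 * c * (exp a * cos (π * t)) + c ^ 2 * exp a ^ 2 := by
  have h : (a : ℂ) + π * t * Complex.I = a + (π * t : ℝ) * Complex.I := by push_cast; rfl
  rw [h, Complex.sq_norm, Complex.normSq_apply]
  simp only [Complex.add_re, Complex.add_im, Complex.one_re, Complex.one_im, Complex.re_ofReal_mul,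
    Complex.im_ofReal_mul, Complex.exp_re, Complex.exp_im, Complex.ofReal_re, Complex.ofReal_im,
    Complex.I_re, Complex.I_im, mul_zero, mul_one, add_zero, zero_add]
  have := sin_sq_add_cos_sq (π * t)
  linear_combination c ^ 2 * exp a ^ 2 * this

theorem Lam_u (a t : ℝ) : 2 * u1 a t = -log (1 - 2 * (exp a * cos (π * t)) + exp a ^ 2) ∧
    2 * u2 a t = -log (1 + 2 * (exp a * cos (π * t)) + exp a ^ 2) := by
  have h1 := Lam_norm_sq (-1) a t
  have h2 := Lam_norm_sq 1 a t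
  simp only [Complex.ofReal_neg, Complex.ofReal_one, neg_mul, one_mul, mul_one, one_pow,
    mul_neg, even_two, Even.neg_pow, ← sub_eq_add_neg] at h1 h2
  rw [← h1, ← h2, log_pow, log_pow, u1, u2]
  constructor <;> push_cast <;> ring

theorem Lam_s_ne : Lam_s (-1, 1 / 2) ≠ 0 := by
  obtain ⟨h1, h2⟩ := Lam_u (-1) (1 / 2)
  rw [show π * (1 / 2) = π / 2 by ring, cos_pi_div_two] at h1 h2
  simp only [mul_zero, sub_zero, add_zero] at h1 h2
  have h3 : 0 < log (1 + exp (-1) ^ 2) := log_pos (by linarith [pow_pos (exp_pos (-1)) 2])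
  simp only [Lam_s]
  linarith

theorem Lam_d_ne : Lam_d (-1, 1 / 3) ≠ 0 := by
  obtain ⟨h1, h2⟩ := Lam_u (-1) (1 / 3)
  rw [show π * (1 / 3) = π / 3 by ring, cos_pi_div_three] at h1 h2
  have h0 := exp_pos (-1)
  have h3 : log (1 - 2 * (exp (-1) * (1 / 2)) + exp (-1) ^ 2) <
      log (1 + 2 * (exp (-1) * (1 / 2)) + exp (-1) ^ 2) :=
    log_lt_log (by nlinarith [sq_nonneg (exp (-1) - 1 / 2)]) (by linarith)
  simp only [Lam_d]
  linarith

theorem Lam_l_cont : ContinuousOn (fun p : ℝ × ℝ => Lam_l p.1) {p | p.1 < 0} := by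
  refine ContinuousOn.neg (ContinuousOn.log (by fun_prop) fun p hp => ?_)
  exact (sub_pos.2 (exp_lt_one_iff.2 hp)).ne'

theorem Lam_sq_le {v l m : ℝ} (hl : 0 ≤ l) (hv : |v| ≤ 2 * l) (hm : l ^ 2 * exp (l / 4) ≤ m) :
    v ^ 2 ≤ 4 * m := by
  have h1 : v ^ 2 ≤ (2 * l) ^ 2 := by
    rw [← sq_abs]; exact pow_le_pow_left₀ (abs_nonneg _) hv 2
  have h2 : 1 ≤ exp (l / 4) := one_le_exp (by linarith)
  nlinarith [mul_nonneg (sq_nonneg l) (sub_nonneg.2 h2)]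

theorem tri_area {β b : ℝ} (hβ : 0 < β) (hβ1 : β ≤ 1 / 64) (hb : |b| ≤ 1 / 64) :
    hh β b ^ 2 * (tan (π * (β + b) / 2) + tan (π * β - π * (β + b) / 2)) = π * β + LL β b := by
  have hθ : 0 < π * β := mul_pos pi_pos hβ
  have hβ2 : β ≤ 1 / 16 := by linarith
  have hb2 : |b| ≤ 1 / 16 := by linarith
  have hD : MeasurableSet (Iio (0 : ℝ) ×ˢ Ioo (0 : ℝ) 1) :=
    measurableSet_Iio.prod measurableSet_Ioo
  have hre : ∀ p ∈ Iio (0 : ℝ) ×ˢ Ioo (0 : ℝ) 1, (pt β (π * β) p).re < 0 ∧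
      0 < (pt β (π * β) p).im ∧ (pt β (π * β) p).im < π * β := fun p hp => by
    rw [pt_re, pt_im]
    exact ⟨mul_neg_of_pos_of_neg hβ hp.1, mul_pos hθ hp.2.1, mul_lt_of_lt_one_right hθ hp.2.2⟩
  have hinj : InjOn (fun p => FF β b (pt β (π * β) p)) (Iio (0 : ℝ) ×ˢ Ioo (0 : ℝ) 1) := by
    intro p hp q hq e
    have h1 := hre p hp
    have h2 := hre q hq
    have h3 := FF_inj hβ hβ2 hb2 ⟨h1.1, h1.2.1.le, h1.2.2.le⟩ ⟨h2.1, h2.2.1.le, h2.2.2.le⟩ e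
    have h4 := congrArg Complex.re h3
    have h5 := congrArg Complex.im h3
    rw [pt_re, pt_re] at h4
    rw [pt_im, pt_im] at h5
    exact Prod.ext (mul_left_cancel₀ hβ.ne' h4) (mul_left_cancel₀ hθ.ne' h5)
  have him : (fun p => FF β b (pt β (π * β) p)) '' (Iio (0 : ℝ) ×ˢ Ioo (0 : ℝ) 1) =
      Tri (π * β) (π * (β + b) / 2) (hh β b) := by
    rw [← FF_image hβ hβ2 hb2]
    refine Subset.antisymm ?_ ?_
    · rintro _ ⟨p, hp, rfl⟩
      exact ⟨_, hre p hp, rfl⟩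
    · rintro _ ⟨w, hw, rfl⟩
      refine ⟨(w.re / β, w.im / (π * β)), ⟨div_neg_of_neg_of_pos hw.1 hβ, div_pos hw.2.1 hθ,
        (div_lt_one hθ).2 hw.2.2⟩, ?_⟩
      refine congrArg (FF β b) (Complex.ext ?_ ?_)
      · rw [pt_re]; field_simp
      · rw [pt_im]; field_simp
  have key := (cov hD hβ hθ (F := FF β b) (F' := GG β b)
    (fun p hp => FF_der hβ b (hre p hp).1) hinj (fun _ => (1 : ℝ))).2.2
  have hb' := abs_le.1 hb
  have hpi := pi_pos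
  have g1 : |π * (β + b) / 2| < π / 2 := abs_lt.2 ⟨by nlinarith, by nlinarith⟩
  have g2 : |π * β - π * (β + b) / 2| < π / 2 := abs_lt.2 ⟨by nlinarith, by nlinarith⟩
  have hv := tri_vol hθ (hh_pos hβ hβ2 hb2) g1 g2
  have hpos : 0 ≤ tan (π * (β + b) / 2) + tan (π * β - π * (β + b) / 2) := by
    have := tan_lt_tan_of_lt_of_lt_pi_div_two (x := -(π * (β + b) / 2))
      (y := π * β - π * (β + b) / 2) (by linarith [(abs_lt.1 g1).2]) (abs_lt.1 g2).2 (by linarith)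
    rw [tan_neg] at this
    linarith
  rw [him, integral_const, measureReal_restrict_apply_univ, Measure.real, hv,
    ENNReal.toReal_ofReal (by positivity), ← Lam_nu] at key
  have i1 := Lam_LL_int hβ hβ1 hb
  have i2 := Lam_fst (int_exp (a := 2 * β) (by positivity))
  have e1 : ∫ p, (β * (π * β) * ‖GG β b (pt β (π * β) p)‖ ^ 2) • (1 : ℝ) ∂nu =
      π * β ^ 2 * ((∫ p, exp (2 * β * p.1) * (exp (xx β b p.1 p.2) - 1) ∂nu) +
        ∫ p, exp (2 * β * p.1) ∂nu) := by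
    rw [← integral_add i1 i2, ← integral_const_mul]
    refine integral_congr_ae (Eventually.of_forall fun p => ?_)
    simp only [norm_GG_sq' hβ, smul_eq_mul]
    ring
  have e2 : ∫ p, exp (2 * β * p.1) ∂nu = 1 / (2 * β) := by
    rw [nu, integral_fun_fst (fun a => exp (2 * β * a)), integral_exp0 (by positivity)]
    simp
  rw [e1, e2, smul_eq_mul] at key
  have e3 : π * β ^ 2 * (1 / (2 * β)) = π * β / 2 := by field_simp
  rw [LL]
  linarith

theorem lam_est : ∃ K c βm : ℝ, 1 ≤ K ∧ 0 < c ∧ 0 < βm ∧ βm ≤ 1 / 64 ∧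
    (∀ β b : ℝ, 0 < β → β ≤ βm → |b| ≤ 1 / 64 →
      LL β 0 + c * (β ^ 2 * b ^ 2) ≤ LL β b ∧ LL β b ≤ LL β 0 + K * (β ^ 2 * b ^ 2) ∧
      0 ≤ LL β 0 ∧ LL β 0 ≤ K * β ^ 4) ∧
    (∀ β₀ : ℝ, 0 < β₀ → β₀ ≤ βm → ∃ γ : ℝ, |γ| ≤ K * β₀ ^ 3 ∧ ∀ β : ℝ, 0 < β → β ≤ βm →
      LL β₀ 0 + γ * (β - β₀) + c * (max β β₀ ^ 2 * (β - β₀) ^ 2) ≤ LL β 0) ∧
    ∀ β β₀ : ℝ, 0 < β → β ≤ βm → 0 < β₀ → β₀ ≤ βm →
      |LL β 0 - LL β₀ 0| ≤ K * (max β β₀ ^ 3 * |β - β₀|) := by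
  have ms := Lam_s_meas
  have md := Lam_d_meas
  have ml : Measurable Lam_l := by unfold Lam_l; fun_prop
  have i1 : Integrable (fun p => Lam_s p ^ 2) nu := by
    refine Lam_int (by fun_prop) 4 fun p hp => ?_
    obtain ⟨h0, h1, -, h3, -⟩ := Lam_pt hp
    rw [abs_of_nonneg (sq_nonneg _)]
    exact Lam_sq_le h0 h1 h3
  have i2 : Integrable (fun p : ℝ × ℝ => exp (p.1 - Lam_l p.1) * Lam_d p ^ 2) nu := by
    refine Lam_int (by fun_prop) 4 fun p hp => ?_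
    obtain ⟨h0, -, h2, h3, -⟩ := Lam_pt hp
    rw [abs_of_nonneg (by positivity)]
    exact (mul_le_of_le_one_left (sq_nonneg _) (exp_le_one_iff.2 (by linarith))).trans
      (Lam_sq_le h0 h2 h3)
  have p1 : 0 < ∫ p, Lam_s p ^ 2 ∂nu :=
    Lam_pos ((u_cont.1.add u_cont.2).pow 2) i1 (fun _ => sq_nonneg _) (t := 1 / 2)
      (by norm_num) (pow_ne_zero 2 Lam_s_ne)
  have p2 : 0 < ∫ p, exp (p.1 - Lam_l p.1) * Lam_d p ^ 2 ∂nu :=
    Lam_pos ((continuousOn_fst.sub Lam_l_cont).rexp.mul ((u_cont.1.sub u_cont.2).pow 2)) i2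
      (fun _ => by positivity) (t := 1 / 3) (by norm_num)
      (mul_ne_zero (exp_pos _).ne' (pow_ne_zero 2 Lam_d_ne))
  have p3 : 0 ≤ ∫ p, Lam_m p.1 ∂nu :=
    integral_nonneg_of_ae (Lam_ae fun p hp => le_trans (by positivity) (Lam_pt hp).2.2.2.1)
  set I1 := ∫ p, Lam_s p ^ 2 ∂nu with hI1
  set I2 := ∫ p, exp (p.1 - Lam_l p.1) * Lam_d p ^ 2 ∂nu with hI2
  set I3 := ∫ p, Lam_m p.1 ∂nu with hI3
  have hpi := pi_pos
  have hpi3 := pi_gt_three
  have hK : ∀ C x : ℝ, C ≤ 64 → 0 ≤ x → 2 * π * (C * x * I3) ≤ (1 + 128 * π * I3) * x := by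
    intro C x hC hx
    nlinarith [mul_nonneg (mul_nonneg hpi.le p3) hx]
  obtain ⟨βm, ⟨m0', m1'⟩, m2'⟩ := ((ev_le (B := 1 / 64) (by norm_num)).and
    (ev_small (400 * I3) p1)).exists
  refine ⟨1 + 128 * π * I3, min I1 I2, βm, by nlinarith [mul_nonneg hpi.le p3], lt_min p1 p2,
    m0', m1', fun β b hβ hβm hb => ?_, fun β₀ hβ₀ hβ₀m => ?_, fun β β₀ hβ hβm hβ₀ hβ₀m => ?_⟩
  · have hβ1 := hβm.trans m1'
    obtain ⟨j1, j2⟩ := Lam_LL_diff hβ hβ1 hb
    have lo : b ^ 2 * I2 ≤ ∫ p, exp (2 * β * p.1) * exp (2 * β * Lam_s p) *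
        ((exp (2 * b * Lam_d p) + exp (-(2 * b * Lam_d p))) / 2 - 1) ∂nu := by
      rw [hI2, ← integral_const_mul]
      refine integral_mono_ae (i2.const_mul _) j1 (Lam_ae fun p hp => ?_)
      obtain ⟨h0, h1, -⟩ := Lam_pt hp
      have a1 : exp (p.1 - Lam_l p.1) ≤ exp (2 * β * p.1) * exp (2 * β * Lam_s p) := by
        rw [← exp_add]
        refine exp_le_exp.2 ?_
        nlinarith [neg_abs_le (Lam_s p)]
      have a2 := mul_le_mul a1 (Lam_cosh (2 * b * Lam_d p)).1 (by positivity) (by positivity)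
      exact le_of_eq_of_le (by ring) a2
    have hi : ∫ p, exp (2 * β * p.1) * exp (2 * β * Lam_s p) *
        ((exp (2 * b * Lam_d p) + exp (-(2 * b * Lam_d p))) / 2 - 1) ∂nu ≤ 16 * b ^ 2 * I3 := by
      rw [hI3, ← integral_const_mul]
      refine integral_mono_ae j1 (Lam_m_int.const_mul _) (Lam_ae fun p hp => ?_)
      obtain ⟨h0, h1, h2, h3, -⟩ := Lam_pt hp
      have a0 : |2 * b * Lam_d p| ≤ 4 * |b| * Lam_l p.1 := by
        rw [abs_mul, abs_mul, abs_two]; nlinarith [abs_nonneg b]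
      have a1 : exp (2 * β * p.1) * exp (2 * β * Lam_s p) * exp |2 * b * Lam_d p| ≤
          exp (Lam_l p.1 / 4) := by
        rw [← exp_add, ← exp_add]
        refine exp_le_exp.2 ?_
        nlinarith [le_abs_self (Lam_s p)]
      have a2 : (2 * b * Lam_d p) ^ 2 ≤ (4 * |b| * Lam_l p.1) ^ 2 := by
        rw [← sq_abs]; exact pow_le_pow_left₀ (abs_nonneg _) a0 2
      have a3 := mul_le_mul a2 a1 (by positivity) (sq_nonneg _)
      have a4 := mul_le_mul_of_nonneg_left (Lam_cosh (2 * b * Lam_d p)).2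
        (show 0 ≤ exp (2 * β * p.1) * exp (2 * β * Lam_s p) by positivity)
      have a5 := mul_le_mul_of_nonneg_left h3 (sq_nonneg b)
      rw [mul_pow, mul_pow, mul_pow (4 * |b|), mul_pow 4, sq_abs] at a3
      simp only
      nlinarith
    have z := Lam_LL_zero hβ hβ1
    have hi0 : ∫ p, Lam_r p.1 (Lam_s p) β ∂nu ≤ 16 * β ^ 4 * I3 := by
      rw [hI3, ← integral_const_mul]
      exact integral_mono_ae (Lam_r_int hβ.le hβ1) (Lam_m_int.const_mul _) (Lam_ae fun p hp =>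
        (Lam_r_bd hp.le (Lam_pt hp).2.1 (Lam_pt hp).2.2.2.1 hβ.le hβ1).2)
    have lo0 : 0 ≤ ∫ p, Lam_r p.1 (Lam_s p) β ∂nu :=
      integral_nonneg_of_ae (Lam_ae fun p hp =>
        (Lam_r_bd hp.le (Lam_pt hp).2.1 (Lam_pt hp).2.2.2.1 hβ.le hβ1).1)
    have q0 : 0 ≤ β ^ 2 * b ^ 2 := by positivity
    have q1 := mul_le_mul_of_nonneg_left lo (show 0 ≤ 2 * π * β ^ 2 by positivity)
    have q2 := mul_le_mul_of_nonneg_left hi (show 0 ≤ 2 * π * β ^ 2 by positivity)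
    have q3 := hK 16 _ (by norm_num) q0
    have q4 := hK 16 (β ^ 4) (by norm_num) (by positivity)
    have q5 := mul_le_mul_of_nonneg_left hi0 (show 0 ≤ 2 * π by positivity)
    have q6 := mul_le_mul_of_nonneg_right (min_le_right I1 I2) q0
    refine ⟨?_, by nlinarith, by rw [z]; positivity, by linarith⟩
    nlinarith [mul_nonneg (mul_nonneg q0 p2.le) (sub_nonneg.2 hpi3.le), mul_nonneg q0 p2.le]
  · have hβ₀1 := hβ₀m.trans m1'
    have bd : ∀ p : ℝ × ℝ, p.1 < 0 → |Lam_r1 p.1 (Lam_s p) β₀| ≤ 64 * β₀ ^ 3 * Lam_m p.1 :=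
      fun p hp => Lam_r1_bd hp.le (Lam_pt hp).2.1 (Lam_pt hp).2.2.2.1 hβ₀.le hβ₀1
    have j1 : Integrable (fun p : ℝ × ℝ => Lam_r1 p.1 (Lam_s p) β₀) nu :=
      Lam_int (by unfold Lam_r1; fun_prop) _ bd
    refine ⟨2 * π * ∫ p, Lam_r1 p.1 (Lam_s p) β₀ ∂nu, ?_, fun β hβ hβm => ?_⟩
    · have := norm_integral_le_of_norm_le (f := fun p : ℝ × ℝ => Lam_r1 p.1 (Lam_s p) β₀)
        (Lam_m_int.const_mul (64 * β₀ ^ 3)) (Lam_ae bd)
      rw [integral_const_mul, Real.norm_eq_abs] at this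
      rw [abs_mul, abs_of_pos (by positivity : 0 < 2 * π)]
      exact (mul_le_mul_of_nonneg_left this (by positivity)).trans
        (hK 64 _ le_rfl (by positivity))
    · have hβ1 := hβm.trans m1'
      have j2 := (Lam_r_int hβ₀.le hβ₀1).add (j1.mul_const (β - β₀))
      have j3 := (i1.const_mul 2).const_mul (max β β₀ ^ 2 * (β - β₀) ^ 2)
      have j4 := Lam_m_int.const_mul (400 * max β β₀ * (max β β₀ ^ 2 * (β - β₀) ^ 2))
      have key := integral_mono_ae ((j2.add j3).sub j4) (Lam_r_int hβ.le hβ1) (Lam_ae fun p hp =>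
        Lam_conv hp.le (Lam_pt hp).2.1 (Lam_pt hp).2.2.2.2 hβ.le hβ1 hβ₀.le hβ₀1)
      rw [integral_sub' (j2.add j3) j4, integral_add' j2 j3,
        integral_add' (Lam_r_int hβ₀.le hβ₀1) (j1.mul_const (β - β₀)), integral_const_mul,
        integral_const_mul, integral_const_mul, integral_mul_const] at key
      rw [Lam_LL_zero hβ hβ1, Lam_LL_zero hβ₀ hβ₀1]
      have q0 : 0 ≤ max β β₀ ^ 2 * (β - β₀) ^ 2 := by positivity
      have q1 : 400 * I3 * max β β₀ ≤ I1 :=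
        (mul_le_mul_of_nonneg_left (max_le hβm hβ₀m) (by positivity)).trans m2'
      have q2 := mul_le_mul_of_nonneg_right q1 q0
      have q3 := mul_le_mul_of_nonneg_right (min_le_left I1 I2) q0
      have q4 := mul_le_mul_of_nonneg_left key (show 0 ≤ 2 * π by positivity)
      have q5 := mul_le_mul_of_nonneg_left q2 (show 0 ≤ 2 * π by positivity)
      nlinarith [mul_nonneg (mul_nonneg q0 p1.le) (sub_nonneg.2 hpi3.le), mul_nonneg q0 p1.le]
  · have hβ1 := hβm.trans m1'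
    have hβ₀1 := hβ₀m.trans m1'
    have := norm_integral_le_of_norm_le
      (f := fun p : ℝ × ℝ => Lam_r p.1 (Lam_s p) β - Lam_r p.1 (Lam_s p) β₀)
      (Lam_m_int.const_mul (64 * (max β β₀ ^ 3 * |β - β₀|)))
      (Lam_ae fun p hp => Lam_lip hp.le (Lam_pt hp).2.1 (Lam_pt hp).2.2.2.1 hβ.le hβ1 hβ₀.le hβ₀1)
    rw [integral_const_mul, Real.norm_eq_abs,
      integral_sub (Lam_r_int hβ.le hβ1) (Lam_r_int hβ₀.le hβ₀1)] at this
    rw [Lam_LL_zero hβ hβ1, Lam_LL_zero hβ₀ hβ₀1, ← mul_sub, abs_mul,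
      abs_of_pos (by positivity : 0 < 2 * π)]
    exact (mul_le_mul_of_nonneg_left this (by positivity)).trans (hK 64 _ le_rfl (by positivity))

end Pool.Agent.Work.MP_267827_an
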