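import Pool.Agent.Work.MP_267827_an.TwoD
import Pool.Agent.Work.MP_267827_an.Lam

/-! The multipliers. -/

set_option autoImplicit false

namespace Pool.Agent.Work.MP_267827_an

open MeasureTheory Set Filter Topology Metric Real

theorem MultE_sym : ∃ K : ℝ, 1 ≤ K ∧ ∀ β b : ℝ, 0 < β → β ≤ 1 / 64 → |b| ≤ 1 / 64 →
    ∀ V : ℝ × ℝ → ℝ, VV V → (∀ σ t, V (σ, 1 - t) = V (σ, t)) →
      NW β b V ≤ NW β 0 V + K * b ^ 2 * OI β V := by
  obtain ⟨K, K1, hK⟩ := weight_est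
  refine ⟨K, K1, fun β b hβ hβ1 hb V hV ev => ?_⟩
  have e : NW β (-b) V = NW β b V := by
    have := nu_refl fun p : ℝ × ℝ => exp (2 * p.1) * WW β b p * V p ^ 2
    simp only [WW_symm, ev] at this
    exact this
  have i1 := hV.int_W2 hβ hβ1 hb
  have i2 := hV.int_W2 hβ hβ1 (b := -b) (by rwa [abs_neg])
  have i3 := hV.int_W2 hβ hβ1 (b := 0) (by norm_num)
  have i4 := hV.int_O β
  have le : ∫ p, (exp (2 * p.1) * WW β b p * V p ^ 2 + exp (2 * p.1) * WW β (-b) p * V p ^ 2) ∂nu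
      ≤ ∫ p, (2 * (exp (2 * p.1) * WW β 0 p * V p ^ 2) +
        2 * K * b ^ 2 * (Om β p.1 * V p ^ 2)) ∂nu := by
    refine integral_mono_ae (i1.add i2) ((i3.const_mul _).add (i4.const_mul _))
      (ae_nu fun p h1 _ => ?_)
    have h := (hK β b p.1 p.2 hβ hβ1 hb h1).2.2.2.1
    have e1 : exp (2 * p.1) ≤ 1 := exp_le_one' (by norm_num) h1
    have e0 := exp_pos (2 * p.1)
    have o : 0 ≤ K * b ^ 2 * Om β p.1 :=
      mul_nonneg (mul_nonneg (by linarith) (sq_nonneg _)) (Om_nonneg _ _)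
    have a1 : exp (2 * p.1) * ((WW β b p + WW β (-b) p) / 2 - WW β 0 p) ≤ K * b ^ 2 * Om β p.1 :=
      (mul_le_mul_of_nonneg_left h e0.le).trans (mul_le_of_le_one_left o e1)
    have a2 := mul_le_mul_of_nonneg_right a1 (sq_nonneg (V p))
    show exp (2 * p.1) * WW β b p * V p ^ 2 + exp (2 * p.1) * WW β (-b) p * V p ^ 2 ≤
      2 * (exp (2 * p.1) * WW β 0 p * V p ^ 2) + 2 * K * b ^ 2 * (Om β p.1 * V p ^ 2)
    linarith
  rw [integral_add i1 i2, integral_add (i3.const_mul _) (i4.const_mul _), integral_const_mul,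
    integral_const_mul] at le
  have le' : NW β b V + NW β (-b) V ≤ 2 * NW β 0 V + 2 * K * b ^ 2 * OI β V := le
  linarith

theorem MultE_taylor : ∃ K : ℝ, 1 ≤ K ∧ ∀ β₀ : ℝ, 0 < β₀ → β₀ ≤ 1 / 64 →
    ∀ V : ℝ × ℝ → ℝ, VV V → ∃ I : ℝ, |I| ≤ K * β₀ * OI β₀ V ∧ ∀ β : ℝ, 0 < β → β ≤ 1 / 64 →
      β * (NW β 0 V - N0 V) ≤ β₀ * (NW β₀ 0 V - N0 V) + I * (β - β₀) +
        K * (β - β₀) ^ 2 * OI (max β β₀) V := by
  obtain ⟨K, K1, hK⟩ := weight_taylor
  refine ⟨K, K1, fun β₀ h0 h1 V hV => ?_⟩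
  obtain ⟨g, gm, gb, hg⟩ := hK β₀ h0 h1
  have K0 : 0 ≤ K * β₀ := mul_nonneg (by linarith) h0.le
  have ig : Integrable (fun p : ℝ × ℝ => exp (2 * p.1) * g p * (V p * V p)) nu := by
    refine hV.int_w hV gm.aestronglyMeasurable (C := K * β₀ * β₀ ^ 2) fun p hp _ => ?_
    refine (gb p hp).trans ?_
    have := mul_le_mul_of_nonneg_left (Om_le_two β₀ p.1) K0
    have q : 0 ≤ K * β₀ * β₀ ^ 2 := by positivity
    nlinarith
  refine ⟨∫ p, exp (2 * p.1) * g p * (V p * V p) ∂nu, ?_, fun β hβ hβ1 => ?_⟩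
  · have := hV.cs_O hV K0 (w := g) (M := β₀) fun p hp _ => gb p hp
    rwa [mul_self_sqrt (OI_nonneg _ _)] at this
  · have i1 := hV.int_W2 hβ hβ1 (b := 0) (by norm_num)
    have i2 := hV.int_W2 h0 h1 (b := 0) (by norm_num)
    have i3 := hV.int_N2
    have i4 := hV.int_O (max β β₀)
    have le : ∫ p, (β * (exp (2 * p.1) * WW β 0 p * V p ^ 2 - exp (2 * p.1) * V p ^ 2)) ∂nu ≤
        ∫ p, (β₀ * (exp (2 * p.1) * WW β₀ 0 p * V p ^ 2 - exp (2 * p.1) * V p ^ 2) +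
          (β - β₀) * (exp (2 * p.1) * g p * (V p * V p)) +
          K * (β - β₀) ^ 2 * (Om (max β β₀) p.1 * V p ^ 2)) ∂nu := by
      refine integral_mono_ae ((i1.sub i3).const_mul _)
        ((((i2.sub i3).const_mul _).add (ig.const_mul _)).add (i4.const_mul _))
        (ae_nu fun p hp _ => ?_)
      have h := (abs_le.1 (hg β hβ hβ1 p hp)).2
      have e1 : exp (2 * p.1) ≤ 1 := exp_le_one' (by norm_num) hp
      have e0 := exp_pos (2 * p.1)
      have o : 0 ≤ K * (β - β₀) ^ 2 * Om (max β β₀) p.1 :=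
        mul_nonneg (mul_nonneg (by linarith) (sq_nonneg _)) (Om_nonneg _ _)
      have a1 := (mul_le_mul_of_nonneg_left h e0.le).trans (mul_le_of_le_one_left o e1)
      have a2 := mul_le_mul_of_nonneg_right a1 (sq_nonneg (V p))
      show β * (exp (2 * p.1) * WW β 0 p * V p ^ 2 - exp (2 * p.1) * V p ^ 2) ≤
        β₀ * (exp (2 * p.1) * WW β₀ 0 p * V p ^ 2 - exp (2 * p.1) * V p ^ 2) +
          (β - β₀) * (exp (2 * p.1) * g p * (V p * V p)) +
          K * (β - β₀) ^ 2 * (Om (max β β₀) p.1 * V p ^ 2)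
      nlinarith
    rw [integral_add (iadd ((isub i2 i3).const_mul _) (ig.const_mul _)) (i4.const_mul _),
      integral_add ((isub i2 i3).const_mul _) (ig.const_mul _), integral_const_mul,
      integral_const_mul, integral_const_mul, integral_const_mul, integral_sub i1 i3,
      integral_sub i2 i3] at le
    have le' : β * (NW β 0 V - N0 V) ≤ β₀ * (NW β₀ 0 V - N0 V) +
      (β - β₀) * (∫ p, exp (2 * p.1) * g p * (V p * V p) ∂nu) +
      K * (β - β₀) ^ 2 * OI (max β β₀) V := le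
    linarith

theorem MultE_N {v : ℝ × ℝ → ℝ} (hv : VV v) {D : ℝ} (hD : Ds (fun p => -1 * JJ p.1 + v p) ≤ D)
    (D1 : D ≤ 1) : (N0 v - NJ) ^ 2 ≤ 34 * D := by
  have hJ := v1_JJ.toVV.1
  have he := hJ.lin (-1) hv
  have a := hJ.N0_add 1 he
  have e : (fun p : ℝ × ℝ => 1 * JJ p.1 + (-1 * JJ p.1 + v p)) = v := by
    funext p; ring
  rw [e] at a
  have n : N0 (fun p => JJ p.1) = NJ := nu_fst fun σ => exp (2 * σ) * JJ σ ^ 2
  have dJ : Ds (fun p => JJ p.1) ≤ 4 := by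
    rw [v1_JJ.Ds_eq.1, DJ_eq]
    nlinarith [jj_sq_le, NJ_le, NJ_pos]
  have c := hJ.cs_N he
  have n1 := he.N_le
  have n0 := N0_nonneg fun p : ℝ × ℝ => -1 * JJ p.1 + v p
  have d0 := Ds_nonneg fun p : ℝ × ℝ => -1 * JJ p.1 + v p
  have dJ0 := Ds_nonneg fun p : ℝ × ℝ => JJ p.1
  set X := ∫ p, exp (2 * p.1) * (JJ p.1 * (-1 * JJ p.1 + v p)) ∂nu
  set E := Ds fun p : ℝ × ℝ => -1 * JJ p.1 + v p
  set F := N0 fun p : ℝ × ℝ => -1 * JJ p.1 + v p
  have x2 : X ^ 2 ≤ 4 * E := by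
    have := pow_le_pow_left₀ (abs_nonneg X) c 2
    rw [sq_abs, mul_pow, sq_sqrt dJ0, sq_sqrt d0] at this
    nlinarith
  have f2 : F ^ 2 ≤ E := by nlinarith
  have : N0 v - NJ = 2 * X + F := by rw [a, n]; ring
  rw [this]
  nlinarith [sq_nonneg (2 * X - F)]

theorem MultE_small {A c : ℝ} (hc : 0 < c) : ∀ᶠ x in 𝓝[>] (0 : ℝ), A * x ≤ c := by
  have : Tendsto (fun x : ℝ => A * x) (𝓝[>] 0) (𝓝 0) := by
    have : Tendsto (fun x : ℝ => A * x) (𝓝 0) (𝓝 (A * 0)) :=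
      (continuous_const.mul continuous_id).tendsto 0
    rw [mul_zero] at this
    exact this.mono_left nhdsWithin_le_nhds
  exact this.eventually (ge_mem_nhds hc)

theorem MultE_lim {g c C β₀ : ℝ} (h0 : 0 < β₀)
    (h : ∀ β, 0 < β → β ≤ β₀ → g * (β - β₀) + c * (β₀ ^ 2 * (β - β₀) ^ 2) ≤ C * β) :
    c * β₀ ^ 4 ≤ g * β₀ := by
  have ct : Continuous fun β : ℝ => C * β - (g * (β - β₀) + c * (β₀ ^ 2 * (β - β₀) ^ 2)) := by
    fun_prop
  have := ge_of_tendsto ((ct.tendsto 0).mono_left (nhdsWithin_le_nhds (s := Ioi 0))) (b := 0) (by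
    filter_upwards [Ioo_mem_nhdsGT h0] with β hβ
    linarith [h β hβ.1 hβ.2.le])
  nlinarith

theorem MultE_piece {β β₀ D T G g c M x Gc : ℝ} (hβ : 0 < β) (h0 : 0 < β₀) (T0 : 0 ≤ T)
    (hG : g * (β - β₀) + c * M ≤ G) (hc : 0 ≤ c * M) (hg : |g| ≤ Gc) (hx : |x| ≤ 1 / 4) :
    (D - T / (π * β₀) ^ 2 + g / π) * (π * β) + (2 * T / (π * β₀) - g * β₀) + c / 2 * M -
      4 * Gc * |x| * |β - β₀| ≤ π * β * D + T / (π * β) + exp (2 * x) * G := by
  have p := pi_pos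
  have a1 : 2 * T / (π * β₀) - T / (π * β₀) ^ 2 * (π * β) ≤ T / (π * β) := by
    have : T / (π * β) - (2 * T / (π * β₀) - T / (π * β₀) ^ 2 * (π * β)) =
        T * (β - β₀) ^ 2 / (π * β * β₀ ^ 2) := by field_simp; ring
    have : 0 ≤ T * (β - β₀) ^ 2 / (π * β * β₀ ^ 2) := by positivity
    linarith
  have a2 : g / π * (π * β) = g * β := by field_simp
  have e1 : |exp (2 * x) - 1| ≤ 4 * |x| := by
    have := Real.abs_exp_sub_one_le (x := 2 * x) (by rw [abs_mul, abs_two]; linarith)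
    rw [abs_mul, abs_two] at this
    linarith
  have e2 : 1 / 2 ≤ exp (2 * x) := by
    have := add_one_le_exp (2 * x)
    have := (abs_le.1 hx).1
    linarith
  have a3 : exp (2 * x) * (g * (β - β₀) + c * M) ≤ exp (2 * x) * G :=
    mul_le_mul_of_nonneg_left hG (exp_pos _).le
  have a4 : |(exp (2 * x) - 1) * (g * (β - β₀))| ≤ 4 * |x| * (Gc * |β - β₀|) := by
    rw [abs_mul, abs_mul]
    exact mul_le_mul e1 (mul_le_mul_of_nonneg_right hg (abs_nonneg _)) (by positivity)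
      (by positivity)
  have a5 := (abs_le.1 a4).1
  have a6 : 1 / 2 * (c * M) ≤ exp (2 * x) * (c * M) := mul_le_mul_of_nonneg_right e2 hc
  nlinarith

theorem MultE_OI {v : ℝ × ℝ → ℝ} (hv : VV v) {K₀ β₀ M : ℝ} (hK : 1 ≤ K₀) (h0 : 0 < β₀)
    (h1 : β₀ ≤ 1) (he : Ds (fun p => -1 * JJ p.1 + v p) ≤ K₀ * β₀ ^ 3) (hM : 0 ≤ M) (M1 : M ≤ 1) :
    OI M v ≤ (200 + 8 * K₀) * M ^ 2 ∧ (β₀ ≤ M → OI M v ≤ (200 + 8 * K₀) * M ^ 3) := by
  have h := hv.O_le_J hM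
  have a := mul_le_mul_of_nonneg_left he (show 0 ≤ 8 * M ^ 2 by positivity)
  have b3 : β₀ ^ 3 ≤ β₀ := pow_le_of_le_one h0.le h1 (by norm_num)
  have q : 0 ≤ 8 * K₀ * M ^ 2 := by positivity
  have m3 : M ^ 3 ≤ M ^ 2 := pow_le_pow_of_le_one hM M1 (by norm_num)
  refine ⟨?_, fun hb => ?_⟩
  · have := mul_le_mul_of_nonneg_left (b3.trans h1) q
    nlinarith
  · have := mul_le_mul_of_nonneg_left (b3.trans hb) q
    nlinarith

/-- the lower bound for the area term -/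
theorem MultE_G {β β₀ b M s A K2 K3 cL c1 bh lam γ I N W W0 Wb L L0 Lb O OM : ℝ}
    (hβ : 0 < β) (hβs : β ≤ s) (hMs : M ≤ s) (A0 : 0 ≤ A) (k2 : 1 ≤ K2)
    (k3 : 1 ≤ K3) (cL0 : 0 < cL) (c0 : 0 < c1) (hb : c1 ≤ bh) (l0 : 0 ≤ lam) (l7 : lam ≤ 7)
    (hs : 28 * (K2 + K3) * A * s ≤ c1 * cL / 2)
    (z : bh * (π * β₀ + L0) = lam * (π * β₀) * W0)
    (h1 : L + cL * (β ^ 2 * b ^ 2) ≤ Lb) (h2 : L0 + γ * (β - β₀) + cL * (M ^ 2 * (β - β₀) ^ 2) ≤ L)
    (h3 : Wb ≤ W + K2 * b ^ 2 * O)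
    (h4 : β * (W - N) ≤ β₀ * (W0 - N) + I * (β - β₀) + K3 * (β - β₀) ^ 2 * OM)
    (h5 : O ≤ A * β ^ 2) (h6 : OM ≤ A * M ^ 3) :
    (π * (bh - lam * N) + bh * γ - lam * π * I) * (β - β₀) +
      c1 * cL / 2 * (M ^ 2 * (β - β₀) ^ 2 + β ^ 2 * b ^ 2) ≤
      bh * (π * β + Lb) - lam * (π * β) * Wb := by
  have p0 := pi_pos
  have p4 : π ≤ 4 := pi_le_four
  have lp0 : 0 ≤ lam * π := by positivity
  have lp : lam * π ≤ 28 := by nlinarith
  have b0 : 0 ≤ bh := by linarith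
  have s0 : 0 ≤ s := by linarith
  set X := M ^ 2 * (β - β₀) ^ 2 with hX
  set Y := β ^ 2 * b ^ 2 with hY
  have X0 : 0 ≤ X := by positivity
  have Y0 : 0 ≤ Y := by positivity
  have a1 : β * (K2 * b ^ 2 * O) ≤ K2 * A * s * Y := by
    have : K2 * b ^ 2 * O ≤ K2 * b ^ 2 * (A * β ^ 2) :=
      mul_le_mul_of_nonneg_left h5 (by positivity)
    calc β * (K2 * b ^ 2 * O) ≤ β * (K2 * b ^ 2 * (A * β ^ 2)) :=
          mul_le_mul_of_nonneg_left this hβ.le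
      _ ≤ s * (K2 * b ^ 2 * (A * β ^ 2)) := mul_le_mul_of_nonneg_right hβs (by positivity)
      _ = _ := by rw [hY]; ring
  have a2 : K3 * (β - β₀) ^ 2 * OM ≤ K3 * A * s * X := by
    calc K3 * (β - β₀) ^ 2 * OM ≤ K3 * (β - β₀) ^ 2 * (A * M ^ 3) :=
          mul_le_mul_of_nonneg_left h6 (by positivity)
      _ = M * (K3 * A * X) := by rw [hX]; ring
      _ ≤ s * (K3 * A * X) := mul_le_mul_of_nonneg_right hMs (by positivity)
      _ = _ := by ring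
  have a3 : β * Wb ≤ β * N + β₀ * (W0 - N) + I * (β - β₀) + (K2 + K3) * A * s * (X + Y) := by
    have t1 := mul_le_mul_of_nonneg_left h3 hβ.le
    have t2 : 0 ≤ K2 * A * s * X := by positivity
    have t3 : 0 ≤ K3 * A * s * Y := by positivity
    linarith
  have a4 := mul_le_mul_of_nonneg_left a3 lp0
  have a5 : lam * π * ((K2 + K3) * A * s * (X + Y)) ≤ c1 * cL / 2 * (X + Y) := by
    calc lam * π * ((K2 + K3) * A * s * (X + Y)) ≤ 28 * ((K2 + K3) * A * s * (X + Y)) :=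
          mul_le_mul_of_nonneg_right lp (by positivity)
      _ = 28 * (K2 + K3) * A * s * (X + Y) := by ring
      _ ≤ _ := mul_le_mul_of_nonneg_right hs (by positivity)
  have a6 : L0 + γ * (β - β₀) + cL * (X + Y) ≤ Lb := by linarith
  have a7 := mul_le_mul_of_nonneg_left a6 b0
  have a8 : c1 * (cL * (X + Y)) ≤ bh * (cL * (X + Y)) :=
    mul_le_mul_of_nonneg_right hb (by positivity)
  linarith

theorem exists_mult (φ : ℝ → ℝ) {K₀ : ℝ} (hK : 1 ≤ K₀) : ∃ K c : ℝ, 1 ≤ K ∧ 0 < c ∧ c ≤ 1 ∧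
    ∀ᶠ β₀ in 𝓝[>] (0 : ℝ), ∀ (lam ε : ℝ) (v : ℝ × ℝ → ℝ), 0 ≤ ε → ε ≤ 1 →
      Ref φ K₀ β₀ lam ε v → ∃ bh al K0 : ℝ, Mult K c β₀ lam v bh al K0 := by
  obtain ⟨K1, k1, hNW⟩ := NW_est
  obtain ⟨K2, k2, hS⟩ := MultE_sym
  obtain ⟨K3, k3, hT⟩ := MultE_taylor
  obtain ⟨KL, cL, βm, kL, cL0, m0', m1', L1, L2, -⟩ := lam_est
  have j0 : 0 < jj ^ 2 := pow_pos jj_pos 2
  have NJ0 := NJ_pos
  have K00 : 0 < K₀ := one_pos.trans_le hK
  have k10 : 0 < K1 := one_pos.trans_le k1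
  have k30 : 0 < K3 := one_pos.trans_le k3
  have kL0 : 0 < KL := one_pos.trans_le kL
  obtain ⟨A, hA⟩ : ∃ A, A = 200 + 8 * K₀ := ⟨_, rfl⟩
  have A0 : 0 < A := by rw [hA]; positivity
  obtain ⟨B, hB⟩ : ∃ B, B = 7 * KL + 7 * (K1 * A) := ⟨_, rfl⟩
  have B0' : 0 < B := by rw [hB]; positivity
  obtain ⟨Gc, hGc⟩ : ∃ G, G = 4 * B + 7 * KL + 28 * (K3 * A) := ⟨_, rfl⟩
  have G0 : 0 < Gc := by rw [hGc]; positivity
  obtain ⟨c1, hc1⟩ : ∃ c, c = jj ^ 2 * NJ / 8 := ⟨_, rfl⟩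
  have c10 : 0 < c1 := by rw [hc1]; positivity
  obtain ⟨c2, hc2⟩ : ∃ c, c = c1 * cL / 2 := ⟨_, rfl⟩
  have c20 : 0 < c2 := by rw [hc2]; positivity
  obtain ⟨s, s0, sm, hs⟩ : ∃ s : ℝ, 0 < s ∧ s ≤ βm ∧ 28 * (K2 + K3) * A * s ≤ c2 := by
    obtain ⟨s, h1, h2, h3⟩ := ((MultE_small (A := 1) m0').and
      ((MultE_small (A := 28 * (K2 + K3) * A) c20).and self_mem_nhdsWithin)).exists
    exact ⟨s, h3, by linarith only [h1], h2⟩
  obtain ⟨K, hKK⟩ : ∃ K, K = 1 + (2 * B ^ 2 + 3332 * K₀) + (7 * KL + 1 + Gc) + 4 * Gc :=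
    ⟨_, rfl⟩
  have q1 : 0 ≤ 2 * B ^ 2 + 3332 * K₀ := by positivity
  have q2 : 0 ≤ 7 * KL + 1 + Gc := by positivity
  have r0 : 1 ≤ K := by linarith only [hKK, q1, q2, G0]
  have r1 : 2 * B ^ 2 + 3332 * K₀ ≤ K := by linarith only [hKK, q2, G0]
  have r2 : 7 * KL + 1 + Gc ≤ K := by linarith only [hKK, q1, G0]
  have r3 : 4 * Gc ≤ K := by linarith only [hKK, q1, q2]
  refine ⟨K, min c1 (min (c2 / 2) 1), r0, lt_min c10 (lt_min (by positivity) one_pos),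
    (min_le_right _ _).trans (min_le_right _ _), ?_⟩
  have cc1 : min c1 (min (c2 / 2) 1) ≤ c1 := min_le_left _ _
  have cc2 : min c1 (min (c2 / 2) 1) ≤ c2 / 2 := (min_le_right _ _).trans (min_le_left _ _)
  generalize min c1 (min (c2 / 2) 1) = c at cc1 cc2
  filter_upwards [self_mem_nhdsWithin, MultE_small (A := 1) (pow_pos s0 2),
    MultE_small (A := 1) (show (0 : ℝ) < (1 / 64) ^ 4 by norm_num),
    MultE_small (A := K₀) (half_pos j0), MultE_small (A := K₀) one_pos,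
    MultE_small (A := 34 * K₀) (show 0 < (NJ / 2) ^ 2 by positivity),
    MultE_small (A := K1 * A) (show (0 : ℝ) < 1 / 4 by norm_num), MultE_small (A := B) c10,
    MultE_small (A := K₀) (half_pos c20)] with β₀ h0 e1 e2 e3 e4 e5 e6 e7 e8 lam ε v ε0 ε1 hR
  have h0 : 0 < β₀ := h0
  rw [one_mul] at e1 e2
  have s64 : s ≤ 1 / 64 := sm.trans m1'
  have s1 : s ≤ 1 := s64.trans (by norm_num)
  have bs : β₀ ≤ s := e1.trans (pow_le_of_le_one s0.le s1 (by norm_num))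
  have b64 : β₀ ≤ 1 / 64 := bs.trans s64
  have b1 : β₀ ≤ 1 := bs.trans s1
  have p0 := pi_pos
  have p3 : 3 ≤ π := pi_gt_three.le
  have p1 : 1 ≤ π := le_trans (by norm_num) p3
  have p4 : π ≤ 4 := pi_le_four
  have θ0 : 0 < π * β₀ := by positivity
  obtain ⟨t, ht⟩ : ∃ t, t = β₀ ^ 3 := ⟨_, rfl⟩
  have t0 : 0 < t := by rw [ht]; positivity
  have tb : t ≤ β₀ := by rw [ht]; exact pow_le_of_le_one h0.le b1 (by norm_num)
  have hv := hR.vv
  have small : ∀ {a c : ℝ}, 0 ≤ a → a * β₀ ≤ c → a * t ≤ c := fun a0 h =>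
    (mul_le_mul_of_nonneg_left tb a0).trans h
  have shr : ∀ {a : ℝ}, 0 ≤ a → a * β₀ ≤ a := fun a0 => mul_le_of_le_one_right a0 b1
  have l7 : lam ≤ 7 := by linarith only [hR.lam_le, jj_sq_le]
  have l1 : jj ^ 2 / 2 ≤ lam := by
    have := hR.le_lam
    rw [← ht] at this
    linarith only [small K00.le e3, this]
  have l0 : 0 ≤ lam := (half_pos j0).le.trans l1
  have he := hR.e_le
  have n1 : (N0 v - NJ) ^ 2 ≤ 34 * (K₀ * t) := by
    rw [← ht] at he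
    exact MultE_N hv he (small K00.le e4)
  have n2 : |N0 v - NJ| ≤ NJ / 2 :=
    abs_le_of_sq_le_sq' (n1.trans (by linarith only [small (a := 34 * K₀) (by positivity) e5]))
      (by positivity) |> abs_le.2
  have n3 : NJ / 2 ≤ N0 v := by linarith only [(abs_le.1 n2).1]
  have n4 : N0 v ≤ 3 / 4 := by linarith only [(abs_le.1 n2).2, NJ_le]
  have hO : ∀ M : ℝ, 0 ≤ M → M ≤ 1 → OI M v ≤ A * M ^ 2 ∧ (β₀ ≤ M → OI M v ≤ A * M ^ 3) :=
    fun M hM M1 => by rw [hA]; exact MultE_OI hv hK h0 b1 he hM M1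
  have O0 : OI β₀ v ≤ A * t := by rw [ht]; exact (hO β₀ h0.le b1).2 le_rfl
  have w1 : |NW β₀ 0 v - N0 v| ≤ K1 * A * t := by
    have := hNW β₀ 0 h0 b64 (by norm_num) v hv
    rw [abs_zero, add_zero] at this
    refine this.trans ?_
    calc K1 * β₀ * OI β₀ v ≤ K1 * OI β₀ v :=
          mul_le_mul_of_nonneg_right (shr k10.le) (OI_nonneg _ _)
      _ ≤ K1 * (A * t) := mul_le_mul_of_nonneg_left O0 k10.le
      _ = _ := by ring
  have w0 : 0 ≤ NW β₀ 0 v := NW_nonneg _ _ _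
  have w2 : NW β₀ 0 v ≤ 1 := by
    linarith only [(abs_le.1 w1).2, small (a := K1 * A) (by positivity) e6, n4]
  obtain ⟨-, -, LL0, LL1⟩ := L1 β₀ 0 h0 (bs.trans sm) (by norm_num)
  obtain ⟨γ, hγ, hL2⟩ := L2 β₀ h0 (bs.trans sm)
  obtain ⟨I, hI, hT2⟩ := hT β₀ h0 b64 v hv
  rw [← ht] at hγ
  obtain ⟨bh, hbh⟩ : ∃ x, x = lam * (π * β₀) * NW β₀ 0 v / (π * β₀ + LL β₀ 0) := ⟨_, rfl⟩
  have z : bh * (π * β₀ + LL β₀ 0) = lam * (π * β₀) * NW β₀ 0 v := by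
    rw [hbh]; exact div_mul_cancel₀ _ (by positivity)
  have bh0 : 0 ≤ bh := by rw [hbh]; positivity
  have lw : lam * NW β₀ 0 v ≤ 7 := (mul_le_of_le_one_right l0 w2).trans l7
  have d0 : bh ≤ lam * NW β₀ 0 v := by
    refine le_of_mul_le_mul_right ?_ θ0
    linarith only [mul_nonneg bh0 LL0, z]
  have bh7 : bh ≤ 7 := d0.trans lw
  have d1 : lam * NW β₀ 0 v - bh ≤ 7 * KL * t := by
    refine le_of_mul_le_mul_right ?_ θ0
    have a1 : bh * LL β₀ 0 ≤ 7 * (KL * β₀ ^ 4) := mul_le_mul bh7 LL1 LL0 (by norm_num)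
    have a2 : 7 * (KL * β₀ ^ 4) = 7 * KL * t * β₀ := by rw [ht]; ring
    have a3 : 7 * KL * t * β₀ ≤ 7 * KL * t * (π * β₀) :=
      mul_le_mul_of_nonneg_left (le_mul_of_one_le_left h0.le p1) (by positivity)
    linarith only [a1, a2, a3, z]
  have d2 : |bh - lam * N0 v| ≤ B * t := by
    have a1 : |lam * (NW β₀ 0 v - N0 v)| ≤ 7 * (K1 * A * t) := by
      rw [abs_mul, abs_of_nonneg l0]
      exact mul_le_mul l7 w1 (abs_nonneg _) (by norm_num)
    have a2 := abs_le.1 a1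
    have a3 : 0 ≤ 7 * KL * t := by positivity
    rw [abs_le, hB]
    constructor <;> linarith only [a2.1, a2.2, a3, d0, d1]
  have low : c1 ≤ bh := by
    have a1 : jj ^ 2 / 2 * (NJ / 2) ≤ lam * N0 v := mul_le_mul l1 n3 (by positivity) l0
    linarith only [(abs_le.1 d2).1, small B0'.le e7, a1, hc1]
  obtain ⟨g, hg⟩ : ∃ x, x = π * (bh - lam * N0 v) + bh * γ - lam * π * I := ⟨_, rfl⟩
  have gb : |g| ≤ Gc * t := by
    have a1 : |π * (bh - lam * N0 v)| ≤ 4 * (B * t) := by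
      rw [abs_mul, abs_of_pos p0]
      exact mul_le_mul p4 d2 (abs_nonneg _) (by norm_num)
    have a2 : |bh * γ| ≤ 7 * (KL * t) := by
      rw [abs_mul, abs_of_nonneg bh0]
      exact mul_le_mul bh7 hγ (abs_nonneg _) (by norm_num)
    have a3 : |I| ≤ K3 * A * t := by
      refine hI.trans ?_
      calc K3 * β₀ * OI β₀ v ≤ K3 * OI β₀ v :=
            mul_le_mul_of_nonneg_right (shr k30.le) (OI_nonneg _ _)
        _ ≤ K3 * (A * t) := mul_le_mul_of_nonneg_left O0 k30.le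
        _ = _ := by ring
    have a4 : |lam * π * I| ≤ 28 * (K3 * A * t) := by
      rw [abs_mul, abs_of_nonneg (by positivity : 0 ≤ lam * π)]
      exact mul_le_mul ((mul_le_mul l7 p4 p0.le (by norm_num)).trans (by norm_num)) a3
        (abs_nonneg _) (by norm_num)
    have b1 := abs_le.1 a1
    have b2 := abs_le.1 a2
    have b3 := abs_le.1 a4
    rw [abs_le, hg, hGc]
    constructor <;> linarith only [b1.1, b1.2, b2.1, b2.2, b3.1, b3.2]
  have hG : ∀ β b : ℝ, 0 < β → β ^ 2 ≤ β₀ → b ^ 4 ≤ β₀ → g * (β - β₀) + c2 * Mg β₀ β b ≤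
      bh * (π * β + LL β b) - lam * (π * β) * NW β b v := by
    intro β b hβ u1 u2
    have βs : β ≤ s := (pow_le_pow_iff_left₀ hβ.le s0.le two_ne_zero).1 (u1.trans e1)
    have bb : |b| ≤ 1 / 64 := by
      refine (pow_le_pow_iff_left₀ (abs_nonneg b) (by norm_num) (n := 4) (by norm_num)).1 ?_
      rw [show |b| ^ 4 = b ^ 4 from Even.pow_abs (by norm_num) b]
      exact u2.trans e2
    have β64 : β ≤ 1 / 64 := βs.trans s64
    have Ms : max β β₀ ≤ s := max_le βs bs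
    have M0 : 0 ≤ max β β₀ := le_max_of_le_left hβ.le
    rw [hc2] at hs
    rw [hg, hc2, Mg]
    exact MultE_G hβ βs Ms A0.le k2 k3 cL0 c10 low l0 l7 hs z
      (L1 β b hβ (βs.trans sm) bb).1 (hL2 β hβ (βs.trans sm)) (hS β b hβ β64 bb v hv hR.even)
      (hT2 β hβ β64) (hO β hβ.le (βs.trans s1)).1
      ((hO _ M0 (Ms.trans s1)).2 (le_max_right _ _))
  have glow : c2 * β₀ ^ 4 ≤ g * β₀ := by
    refine MultE_lim (C := 7 * (4 + KL)) h0 fun β hβ hb => ?_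
    have β1 : β ≤ 1 := hb.trans b1
    have a1 := hG β 0 hβ ((pow_le_of_le_one hβ.le β1 (by norm_num)).trans hb)
      (by simpa using h0.le)
    have a2 : Mg β₀ β 0 = β₀ ^ 2 * (β - β₀) ^ 2 := by
      rw [Mg, max_eq_right hb]; ring
    obtain ⟨-, -, a3, a4⟩ := L1 β 0 hβ (hb.trans (bs.trans sm)) (by norm_num)
    have a5 : 0 ≤ lam * (π * β) * NW β 0 v := mul_nonneg (by positivity) (NW_nonneg _ _ _)
    have a6 : KL * β ^ 4 ≤ KL * β :=
      mul_le_mul_of_nonneg_left (pow_le_of_le_one hβ.le β1 (by norm_num)) kL0.le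
    have a7 : π * β ≤ 4 * β := mul_le_mul_of_nonneg_right p4 hβ.le
    have a8 : bh * (π * β + LL β 0) ≤ 7 * (4 * β + KL * β) :=
      mul_le_mul bh7 (add_le_add a7 (a4.trans a6)) (by positivity) (by norm_num)
    rw [a2] at a1
    linarith only [a1, a5, a8]
  have T0 := Dt_nonneg v
  have b4 : 0 < β₀ ^ 4 := by positivity
  refine ⟨bh, Ds v - Dt v / (π * β₀) ^ 2 + g / π, 2 * Dt v / (π * β₀) - g * β₀,
    cc1.trans low, ?_, ?_, ?_, ?_, fun β b x hβ u1 u2 hx => ?_⟩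
  · have a1 : (bh - lam * N0 v) ^ 2 ≤ B ^ 2 * t := by
      have := pow_le_pow_left₀ (abs_nonneg _) d2 2
      rw [sq_abs, mul_pow] at this
      exact this.trans (mul_le_mul_of_nonneg_left
        (pow_le_of_le_one t0.le (tb.trans b1) (by norm_num)) (sq_nonneg _))
    have a2 : (lam * (N0 v - NJ)) ^ 2 ≤ 49 * (34 * (K₀ * t)) := by
      rw [mul_pow]
      exact mul_le_mul ((pow_le_pow_left₀ l0 l7 2).trans (by norm_num)) n1 (sq_nonneg _)
        (by norm_num)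
    have a3 : (2 * B ^ 2 + 3332 * K₀) * t ≤ K * t := mul_le_mul_of_nonneg_right r1 t0.le
    rw [← ht]
    linarith only [sq_nonneg ((bh - lam * N0 v) - lam * (N0 v - NJ)), a1, a2, a3]
  · have a1 : Ds v ≤ lam * NW β₀ 0 v + t := by
      refine le_of_mul_le_mul_right ?_ θ0
      have a := hR.near
      simp only [QQ, mul_zero, exp_zero, mul_one] at a
      have b : 0 ≤ Dt v / (π * β₀) := by positivity
      have c : ε * β₀ ^ 10 ≤ t * (π * β₀) := by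
        calc ε * β₀ ^ 10 ≤ β₀ ^ 10 := mul_le_of_le_one_left (by positivity) ε1
          _ ≤ β₀ ^ 4 := pow_le_pow_of_le_one h0.le b1 (by norm_num)
          _ = t * β₀ := by rw [ht]; ring
          _ ≤ _ := mul_le_mul_of_nonneg_left (le_mul_of_one_le_left h0.le p1) t0.le
      linarith only [a, b, c]
    have a2 : g / π ≤ Gc * t := by
      rw [div_le_iff₀ p0]
      exact (le_abs_self g).trans (gb.trans (le_mul_of_one_le_right (by positivity) p1))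
    have a3 : 0 ≤ Dt v / (π * β₀) ^ 2 := by positivity
    have a4 : (7 * KL + 1 + Gc) * t ≤ K * t := mul_le_mul_of_nonneg_right r2 t0.le
    rw [← ht]
    linarith only [a1, a2, a3, a4, d1]
  · have a1 : 2 * Dt v / (π * β₀) ≤ K₀ * t * β₀ ^ 4 := by
      rw [div_le_iff₀ θ0]
      have a := hR.dt_le
      have b : K₀ * t * β₀ ^ 4 * (π * β₀) = π * (K₀ * β₀ ^ 8) := by rw [ht]; ring
      have c : 2 * (K₀ * β₀ ^ 8) ≤ π * (K₀ * β₀ ^ 8) :=
        mul_le_mul_of_nonneg_right (le_trans (by norm_num) p3) (by positivity)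
      linarith only [a, b, c]
    have a2 : K₀ * t * β₀ ^ 4 ≤ c2 / 2 * β₀ ^ 4 :=
      mul_le_mul_of_nonneg_right (small K00.le e8) b4.le
    have a3 : c * β₀ ^ 4 ≤ c2 / 2 * β₀ ^ 4 := mul_le_mul_of_nonneg_right cc2 b4.le
    linarith only [a1, a2, a3, glow]
  · have a := hR.pos v hv
    simp only [QQ, mul_zero, exp_zero, mul_one] at a
    have b : (Ds v - Dt v / (π * β₀) ^ 2 + g / π) * (π * β₀) + (2 * Dt v / (π * β₀) - g * β₀) =
        π * β₀ * Ds v + Dt v / (π * β₀) := by field_simp; ring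
    linarith only [a, b, z]
  · have M0 : 0 ≤ Mg β₀ β b := by unfold Mg; positivity
    have a := MultE_piece (D := Ds v) hβ h0 T0 (hG β b hβ u1 u2) (mul_nonneg c20.le M0) gb hx
    have a1 : c * Mg β₀ β b ≤ c2 / 2 * Mg β₀ β b := mul_le_mul_of_nonneg_right cc2 M0
    have a2 : 4 * (Gc * t) * |x| * |β - β₀| ≤ K * |x| * β₀ ^ 3 * |β - β₀| := by
      have : 4 * Gc * (t * |x| * |β - β₀|) ≤ K * (t * |x| * |β - β₀|) :=
        mul_le_mul_of_nonneg_right r3 (by positivity)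
      rw [← ht]
      linarith only [this]
    unfold QQ
    linarith only [a, a1, a2]

end Pool.Agent.Work.MP_267827_an
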