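import Pool.Agent.Work.MP_267827_an.TwoD
import Pool.Agent.Work.MP_267827_an.Dist

/-! Almost minimisers of the reference problem. -/

set_option autoImplicit false

namespace Pool.Agent.Work.MP_267827_an

open MeasureTheory Set Filter Topology Metric Real

theorem RefN_ae {q : ℝ → Prop} (h : ∀ t ∈ Ioo (0 : ℝ) 1, q t) : ∀ᵐ t ∂m1, q t :=
  (ae_restrict_iff' measurableSet_Ioo).2 (Eventually.of_forall h)

theorem RefN_const (c : ℝ) : ∫ _t, c ∂m1 = c := by simp [m1]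

theorem RefN_int {g : ℝ → ℝ} (h : Continuous g) : Integrable g m1 :=
  (h.continuousOn.integrableOn_Icc (a := 0) (b := 1)).mono_set Ioo_subset_Icc_self

/-- a weight of mean zero only sees the oscillation -/
theorem RefN_osc {g g' w : ℝ → ℝ} (hd : ∀ t, HasDerivAt g (g' t) t) (hc : Continuous g')
    (hw : Integrable w m1) (h0 : ∫ t, w t ∂m1 = 0) {B a : ℝ} (hB : ∀ t ∈ Ioo (0 : ℝ) 1, |w t| ≤ B)
    (ha : 0 < a) :
    ∫ t, w t * g t ^ 2 ∂m1 ≤ B * ∫ t, (a * g t ^ 2 + a⁻¹ * g' t ^ 2) ∂m1 := by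
  have gc : Continuous g := continuous_iff_continuousAt.2 fun x => (hd x).continuousAt
  set I := ∫ t, (a * g t ^ 2 + a⁻¹ * g' t ^ 2) ∂m1 with hI
  have cI : Continuous fun t => a * g t ^ 2 + a⁻¹ * g' t ^ 2 := by fun_prop
  have key : ∀ t ∈ Ioo (0 : ℝ) 1, |g t ^ 2 - g 0 ^ 2| ≤ I := by
    intro t ht
    have h1 := intervalIntegral.integral_eq_sub_of_hasDerivAt (a := 0) (b := t)
      (f := fun t => g t ^ 2) (f' := fun t => 2 * g t * g' t)
      (fun x _ => ((hd x).pow 2).congr_deriv (by simp)) (Continuous.intervalIntegrable (by fun_prop) _ _)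
    have h2 : ‖∫ x in (0 : ℝ)..t, 2 * g x * g' x‖ ≤
        ∫ x in (0 : ℝ)..t, (a * g x ^ 2 + a⁻¹ * g' x ^ 2) :=
      intervalIntegral.norm_integral_le_of_norm_le ht.1.le (Eventually.of_forall fun x _ => by
        have e : a * g x ^ 2 + a⁻¹ * g' x ^ 2 - 2 * |g x| * |g' x| =
            a⁻¹ * (a * |g x| - |g' x|) ^ 2 := by
          rw [← sq_abs (g x), ← sq_abs (g' x)]; field_simp; ring
        have : 0 ≤ a⁻¹ * (a * |g x| - |g' x|) ^ 2 := by positivity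
        rw [Real.norm_eq_abs, abs_mul, abs_mul, abs_two]
        linarith) (cI.intervalIntegrable _ _)
    rw [h1, Real.norm_eq_abs] at h2
    refine h2.trans ?_
    rw [hI, intervalIntegral.integral_of_le ht.1.le]
    refine setIntegral_mono_set (RefN_int cI) (Eventually.of_forall fun x => by positivity)
      (Eventually.of_forall fun x hx => ⟨hx.1, lt_of_le_of_lt hx.2 ht.2⟩)
  have b1 : B0 m1 fun t => g t ^ 2 - g 0 ^ 2 :=
    ⟨Continuous.aestronglyMeasurable (by fun_prop), I, RefN_ae key⟩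
  have i1 := b1.int_mul hw
  have e : ∫ t, w t * g t ^ 2 ∂m1 = ∫ t, w t * (g t ^ 2 - g 0 ^ 2) ∂m1 := by
    have : ∫ t, w t * g t ^ 2 ∂m1 = ∫ t, (w t * (g t ^ 2 - g 0 ^ 2) + w t * g 0 ^ 2) ∂m1 :=
      integral_congr_ae (Eventually.of_forall fun t => by simp only; ring)
    rw [this, integral_add i1 (hw.mul_const _), integral_mul_const, h0, zero_mul, add_zero]
  rw [e, ← RefN_const (B * I)]
  refine integral_mono_ae i1 (integrable_const _) (RefN_ae fun t ht => ?_)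
  refine (le_abs_self _).trans ?_
  rw [abs_mul]
  exact mul_le_mul (hB t ht) (key t ht) (abs_nonneg _) ((abs_nonneg _).trans (hB t ht))

/-- the mean of the weight -/
noncomputable def RefN_Wb (β σ : ℝ) : ℝ := ∫ t, WW β 0 (σ, t) ∂m1

theorem RefN_Wb_meas (β : ℝ) : Measurable (RefN_Wb β) :=
  ((WW_meas β 0).stronglyMeasurable.integral_prod_right' (ν := m1)).measurable

theorem RefN_NW_fst {β : ℝ} (hβ : 0 < β) (hβ1 : β ≤ 1 / 64) {f f' : ℝ → ℝ} (h : V1 f f') :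
    Integrable (fun σ => exp (2 * σ) * RefN_Wb β σ * f σ ^ 2) m0 ∧
    NW β 0 (fun p => f p.1) = ∫ σ, exp (2 * σ) * RefN_Wb β σ * f σ ^ 2 ∂m0 := by
  have h1 := nu_fub' (h.toVV.1.int_W2 hβ hβ1 (b := 0) (by norm_num))
  simp only [integral_mul_const, integral_const_mul] at h1
  exact h1

theorem RefN_lam_le {β lam : ℝ} (hβ : 0 < β) (hβ1 : β ≤ 1 / 64)
    (pos : ∀ V, VV V → 0 ≤ QQ β 0 0 lam V) : lam ≤ jj ^ 2 := by
  rcases le_total lam 0 with c | c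
  · exact c.trans (sq_nonneg _)
  have h1 := pos _ v1_JJ.toVV.1
  obtain ⟨i1, e1⟩ := RefN_NW_fst hβ hβ1 v1_JJ
  have h2 : NJ ≤ NW β 0 fun p => JJ p.1 := by
    rw [e1, NJ]
    refine integral_mono_ae v1_JJ.intN i1 (ae_m0 fun σ hσ => ?_)
    have := (WW_mean hβ 0 hσ).2
    exact mul_le_mul_of_nonneg_right (le_mul_of_one_le_right (exp_pos _).le this) (sq_nonneg _)
  rw [QQ, v1_JJ.Ds_eq.1, v1_JJ.Ds_eq.2, DJ_eq, zero_div, mul_zero, exp_zero] at h1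
  have p : 0 < π * β := mul_pos pi_pos hβ
  have h3 := mul_le_mul_of_nonneg_left h2 (mul_nonneg c p.le)
  have h4 := mul_pos p NJ_pos
  by_contra hc
  push Not at hc
  nlinarith

/-- the angular dependence can lower the quotient only a little -/
theorem RefN_dt : ∃ K : ℝ, 1 ≤ K ∧ ∀ β lam : ℝ, 0 < β → β ≤ 1 / 64 → lam ≤ 7 →
    (∀ V, VV V → 0 ≤ QQ β 0 0 lam V) → ∀ V, VV V → ∀ a : ℝ, 0 < a →
    lam * NW β 0 V - Ds V ≤ 14 * K * β ^ 2 * (a * (4 * Ds V) + a⁻¹ * Dt V) := by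
  obtain ⟨K, K1, hK⟩ := weight_est
  refine ⟨K, K1, fun β lam hβ hβ1 l7 pos V hV a ha => ?_⟩
  have D0 := Ds_nonneg V
  have T0 := Dt_nonneg V
  have K0 : 0 < K := by linarith
  rcases le_total lam 0 with c | c
  · have := mul_nonpos_of_nonpos_of_nonneg c (NW_nonneg β 0 V)
    have : 0 ≤ 14 * K * β ^ 2 * (a * (4 * Ds V) + a⁻¹ * Dt V) := by positivity
    linarith
  have w1 : ∀ σ t, σ < 0 → |WW β 0 (σ, t) - 1| ≤ K * β ^ 2 * |σ|⁻¹ := fun σ t hσ => by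
    have := (hK β 0 σ t hβ hβ1 (by norm_num) hσ).2.1
    rw [abs_zero, add_zero] at this
    rw [← div_eq_mul_inv, le_div_iff₀ (abs_pos.2 hσ.ne)]
    linarith
  have w2 : ∀ σ, σ < 0 → |RefN_Wb β σ - 1| ≤ K * β ^ 2 * |σ|⁻¹ := fun σ hσ => by
    have i1 : Integrable (fun t => WW β 0 (σ, t)) m1 := (WW_mean hβ 0 hσ).1
    have x1 : ‖∫ t, (WW β 0 (σ, t) - 1) ∂m1‖ ≤ ∫ _t, K * β ^ 2 * |σ|⁻¹ ∂m1 :=
      norm_integral_le_of_norm_le (integrable_const _) (RefN_ae fun t _ => w1 σ t hσ)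
    rwa [integral_sub i1 (integrable_const _), RefN_const, RefN_const] at x1
  have iB : Integrable (fun p : ℝ × ℝ => exp (2 * p.1) * RefN_Wb β p.1 * V p ^ 2) nu := by
    have := hV.int_w hV (w := fun p => RefN_Wb β p.1)
      ((RefN_Wb_meas β).comp measurable_fst).aestronglyMeasurable (C := 1 + K * β ^ 2)
      fun p hp _ => by
        have h1 := w2 p.1 hp
        have h2 : |p.1|⁻¹ ≤ 1 + (p.1 ^ 2)⁻¹ := by
          rw [← sq_abs, ← inv_pow]; nlinarith [sq_nonneg (|p.1|⁻¹ - 1)]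
        have h3 := mul_le_mul_of_nonneg_left h2 (by positivity : 0 ≤ K * β ^ 2)
        have h4 : |RefN_Wb β p.1| ≤ |RefN_Wb β p.1 - 1| + 1 := by
          simpa using abs_add_le (RefN_Wb β p.1 - 1) 1
        have h5 : 0 ≤ (p.1 ^ 2)⁻¹ := by positivity
        nlinarith
    simpa only [pow_two] using this
  have iW := hV.int_W2 hβ hβ1 (b := 0) (by norm_num)
  have p : 0 < π * β := mul_pos pi_pos hβ
  have s1 : lam * ∫ p, exp (2 * p.1) * RefN_Wb β p.1 * V p ^ 2 ∂nu ≤ Ds V := by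
    obtain ⟨i1, e1⟩ := nu_fub iB
    obtain ⟨i2, e2⟩ := nu_fub hV.int_s
    rw [e1, Ds, e2, ← integral_const_mul]
    refine integral_mono_ae (i1.const_mul _) i2 (RefN_ae fun t ht => ?_)
    have h1 := hV.slice (Ioo_subset_Icc_self ht)
    have h2 := pos _ h1.toVV.1
    rw [QQ, h1.Ds_eq.1, h1.Ds_eq.2, (RefN_NW_fst hβ hβ1 h1).2, zero_div, mul_zero, exp_zero] at h2
    refine le_of_mul_le_mul_left ?_ p
    simp only
    linarith
  have s2 : NW β 0 V - ∫ p, exp (2 * p.1) * RefN_Wb β p.1 * V p ^ 2 ∂nu ≤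
      2 * K * β ^ 2 * (a * (4 * Ds V) + a⁻¹ * Dt V) := by
    have iR : Integrable (fun p : ℝ × ℝ => 2 * K * β ^ 2 *
        (a * ((p.1 ^ 2)⁻¹ * V p ^ 2) + a⁻¹ * dt V p ^ 2)) nu :=
      (iadd (hV.int_H.const_mul a) (hV.int_t.const_mul _)).const_mul _
    have r1 : ∫ p, 2 * K * β ^ 2 * (a * ((p.1 ^ 2)⁻¹ * V p ^ 2) + a⁻¹ * dt V p ^ 2) ∂nu ≤
        2 * K * β ^ 2 * (a * (4 * Ds V) + a⁻¹ * Dt V) := by
      rw [integral_const_mul, integral_add (hV.int_H.const_mul a) (hV.int_t.const_mul _),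
        integral_const_mul, integral_const_mul]
      have := mul_le_mul_of_nonneg_left hV.hardy ha.le
      exact mul_le_mul_of_nonneg_left (add_le_add this le_rfl) (by positivity)
    refine le_trans ?_ r1
    obtain ⟨i1, e1⟩ := nu_fub' (isub iW iB)
    obtain ⟨i2, e2⟩ := nu_fub' iR
    rw [NW, ← integral_sub iW iB, e1, e2]
    refine integral_mono_ae i1 i2 (ae_m0 fun σ hσ => ?_)
    have j1 : Integrable (fun t => WW β 0 (σ, t)) m1 := (WW_mean hβ 0 hσ).1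
    have s0 := abs_pos.2 hσ.ne
    have x1 := RefN_osc (g := fun t => V (σ, t)) (g' := fun t => dt V (σ, t))
      (w := fun t => exp (2 * σ) * (WW β 0 (σ, t) - RefN_Wb β σ)) (hV.der_t hσ)
      (hV.cont_dt.comp_continuous (by fun_prop) fun _ => hσ)
      ((isub j1 (integrable_const _)).const_mul _)
      (by rw [integral_const_mul, integral_sub j1 (integrable_const _), RefN_const, RefN_Wb,
        sub_self, mul_zero]) (B := 2 * K * β ^ 2 * |σ|⁻¹) (a := a * |σ|⁻¹) (fun t _ => by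
        have h1 := abs_le.1 (w1 σ t hσ)
        have h2 := abs_le.1 (w2 σ hσ)
        rw [abs_mul, abs_of_pos (exp_pos _)]
        refine (mul_le_of_le_one_left (abs_nonneg _) (exp_le_one' zero_le_two hσ)).trans ?_
        rw [abs_le]
        constructor <;> linarith) (by positivity)
    rw [← integral_const_mul] at x1
    refine le_of_eq_of_le ?_ (x1.trans_eq ?_)
    · exact integral_congr_ae (Eventually.of_forall fun t => by simp only; ring)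
    · refine integral_congr_ae (Eventually.of_forall fun t => ?_)
      simp only
      rw [← sq_abs σ]
      field_simp
  have s3 : 0 ≤ 2 * K * β ^ 2 * (a * (4 * Ds V) + a⁻¹ * Dt V) := by positivity
  have s4 := mul_le_mul_of_nonneg_left s2 c
  have s5 := mul_le_mul_of_nonneg_right l7 s3
  linarith

theorem RefN_ip {V : ℝ × ℝ → ℝ} (h : VV V) {w : ℝ → ℝ} {C : ℝ}
    (hw : ∀ σ, σ < 0 → |w σ| ≤ C * exp (2 * σ)) :
    (∫ p, V p * w p.1 ∂nu) ^ 2 ≤ C ^ 2 * Ds V := by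
  have C0 : 0 ≤ C := nonneg_of_mul_nonneg_left ((abs_nonneg _).trans (hw (-1) (by norm_num)))
    (exp_pos _)
  have i0 : Integrable (fun p : ℝ × ℝ => exp (2 * p.1)) nu := int_fst (int_exp two_pos)
  have i1 : Integrable (fun p : ℝ × ℝ => exp p.1 * (exp p.1 * |V p|)) nu := by
    simpa only [← mul_assoc, ← sq, exp_sq] using h.b0.abs.int_mul i0
  have h1 := cs (μ := nu) (f := fun p => exp p.1) (g := fun p => exp p.1 * |V p|)
    (by simpa only [exp_sq] using i0)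
    (by simpa only [mul_pow, exp_sq, sq_abs] using h.int_N2) i1
  simp only [mul_pow, exp_sq, sq_abs] at h1
  rw [nu_fst fun σ => exp (2 * σ), integral_exp0 two_pos] at h1
  have h2 : ‖∫ p, V p * w p.1 ∂nu‖ ≤ ∫ p, C * (exp p.1 * (exp p.1 * |V p|)) ∂nu :=
    norm_integral_le_of_norm_le (i1.const_mul C) (ae_nu fun p hp _ => by
      rw [norm_mul, ← mul_assoc (exp p.1), ← sq, exp_sq, ← mul_assoc, mul_comm]
      exact mul_le_mul_of_nonneg_right (hw p.1 hp) (abs_nonneg _))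
  rw [integral_const_mul, Real.norm_eq_abs] at h2
  have h3 := pow_le_pow_left₀ (abs_nonneg _) h2 2
  rw [sq_abs, mul_pow] at h3
  refine h3.trans (mul_le_mul_of_nonneg_left (h1.trans ?_) (sq_nonneg _))
  have h4 := h.N_le
  have h5 := N0_nonneg V
  unfold N0 at h4 h5
  linarith

theorem RefN_lin {V : ℝ × ℝ → ℝ} (h : VV V) {w : ℝ → ℝ} (hm : AEStronglyMeasurable w m0) {C : ℝ}
    (hw : ∀ σ, σ < 0 → |w σ| ≤ C * exp (2 * σ)) (a : ℝ) :
    ∫ p, (a * JJ p.1 + V p) * w p.1 ∂nu = a * (∫ σ, w σ * JJ σ ∂m0) + ∫ p, V p * w p.1 ∂nu := by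
  have i1 := v1_JJ.toVV.1.int_ip hm hw
  have i2 := h.int_ip hm hw
  rw [← nu_fst fun σ => w σ * JJ σ, ← integral_const_mul,
    ← integral_add (by simpa only [mul_comm (JJ _)] using i1.const_mul a) i2]
  exact integral_congr_ae (Eventually.of_forall fun p => by simp only; ring)

theorem RefN_coer0 : ∃ K : ℝ, 0 < K ∧ ∀ U, VV U → ∫ p, U p * ph0 p.1 ∂nu = 0 →
    Ds U ≤ K * (Ds U - jj ^ 2 * N0 U + 121 * Dt U) := by
  obtain ⟨K, K0, hK⟩ := coercive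
  refine ⟨K, K0, fun U hU z => ?_⟩
  have pr := (hU.proj continuous_ph0.aestronglyMeasurable abs_ph0_le).2.2.2
  rw [z] at pr
  obtain ⟨i1, e1⟩ := nu_fub hU.int_s
  obtain ⟨i2, e2⟩ := nu_fub hU.int_N2
  rw [Ds, N0, e1, e2, ← RefN_const (121 * Dt U), ← integral_const_mul,
    ← integral_sub i1 (i2.const_mul _),
    ← integral_add (isub i1 (i2.const_mul _)) (integrable_const _), ← integral_const_mul]
  refine integral_mono_ae i1 ((iadd (isub i1 (i2.const_mul _)) (integrable_const _)).const_mul _)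
    (RefN_ae fun t ht => ?_)
  have h1 := hK _ _ (hU.slice (Ioo_subset_Icc_self ht))
  have h2 := (pr t (Ioo_subset_Icc_self ht)).2.2.2
  simp only [sub_zero, mul_comm (U _)] at h2
  refine h1.trans (mul_le_mul_of_nonneg_left ?_ K0.le)
  simp only
  linarith

/-- coercivity on the strip -/
theorem RefN_coer : ∃ K : ℝ, 0 < K ∧ ∀ V, VV V → ∃ ρ : ℝ,
    Ds (fun p => ρ * JJ p.1 + V p) ≤ K * (Ds V - jj ^ 2 * N0 V + 121 * Dt V) := by
  obtain ⟨K, K0, hK⟩ := RefN_coer0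
  refine ⟨K, K0, fun V hV => ?_⟩
  have x0 : 0 < ∫ σ, ph0 σ * JJ σ ∂m0 := int_pos_m0 (b0_JJ.int_mul int_ph0)
    fun σ hσ => mul_pos (ph0_pos σ) (JJ_pos hσ)
  set ρ := -(∫ p, V p * ph0 p.1 ∂nu) / ∫ σ, ph0 σ * JJ σ ∂m0 with hρ
  refine ⟨ρ, ?_⟩
  obtain ⟨hJ, dJ⟩ := v1_JJ.toVV
  have hU := VV.lin ρ hJ hV
  have pm := continuous_ph0.aestronglyMeasurable (μ := m0)
  have z : ∫ p, (ρ * JJ p.1 + V p) * ph0 p.1 ∂nu = 0 := by
    rw [RefN_lin hV pm abs_ph0_le, hρ, div_mul_cancel₀ _ x0.ne', neg_add_cancel]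
  have eT : Dt (fun p => ρ * JJ p.1 + V p) = Dt V :=
    integral_congr_ae (ae_nu fun p hp _ => by
      simp only [(VV.d_lin ρ hJ hV hp).2, (dJ p hp).2, mul_zero, zero_add])
  have eB : ∫ p, ds (fun p => JJ p.1) p * ds V p ∂nu =
      jj ^ 2 * ∫ p, exp (2 * p.1) * (JJ p.1 * V p) ∂nu := by
    rw [(nu_fub (hJ.int_ss hV)).2, (nu_fub (hJ.int_N hV)).2, ← integral_const_mul]
    refine integral_congr_ae (RefN_ae fun t ht => ?_)
    simp only
    rw [← (hV.slice (Ioo_subset_Icc_self ht)).B_JJ]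
    exact integral_congr_ae (ae_m0 fun σ hσ => by simp only [(dJ (σ, t) hσ).1, mul_comm])
  have eN : N0 (fun p => JJ p.1) = NJ := nu_fst fun σ => exp (2 * σ) * JJ σ ^ 2
  have eQ : Ds (fun p => ρ * JJ p.1 + V p) - jj ^ 2 * N0 (fun p => ρ * JJ p.1 + V p) =
      Ds V - jj ^ 2 * N0 V := by
    rw [VV.Ds_add ρ hJ hV, VV.N0_add ρ hJ hV, eB, eN, v1_JJ.Ds_eq.1, DJ_eq]; ring
  rw [← eQ, ← eT]
  exact hK _ hU z

theorem RefN_N_le {V : ℝ × ℝ → ℝ} (h : VV V) (a : ℝ) :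
    N0 V ≤ a ^ 2 + 2 * Ds fun p => a * JJ p.1 + V p := by
  have hU := VV.lin a v1_JJ.toVV.1 h
  have i0 : Integrable (fun p : ℝ × ℝ => exp (2 * p.1)) nu := int_fst (int_exp two_pos)
  have h1 : N0 V ≤ ∫ p, (2 * a ^ 2 * exp (2 * p.1) +
      2 * (exp (2 * p.1) * (a * JJ p.1 + V p) ^ 2)) ∂nu := by
    refine integral_mono_ae h.int_N2 (iadd (i0.const_mul _) (hU.int_N2.const_mul _))
      (Eventually.of_forall fun p => ?_)
    have j1 : JJ p.1 ^ 2 ≤ 1 := by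
      rw [← sq_abs]; nlinarith [abs_JJ_le p.1, abs_nonneg (JJ p.1)]
    have : V p ^ 2 ≤ 2 * a ^ 2 + 2 * (a * JJ p.1 + V p) ^ 2 := by
      nlinarith [sq_nonneg (V p + 2 * a * JJ p.1), sq_nonneg a]
    simp only
    nlinarith [exp_pos (2 * p.1)]
  rw [integral_add (i0.const_mul _) (hU.int_N2.const_mul _), integral_const_mul,
    integral_const_mul, nu_fst fun σ => exp (2 * σ), integral_exp0 two_pos] at h1
  have h2 := hU.N_le
  unfold N0 at h2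
  linarith

theorem RefN_alg1 {β θ e D T lam : ℝ} (hβ : 0 < β) (h1 : β ≤ θ) (T0 : 0 ≤ T)
    (e1 : e ≤ β ^ 10) (h : θ * D + T / θ - lam * θ ≤ e) : D ≤ lam + β ^ 9 := by
  have θ0 : 0 < θ := by linarith
  have : 0 ≤ T / θ := by positivity
  have h2 : β ^ 10 ≤ θ * β ^ 9 := by
    rw [pow_succ']
    exact mul_le_mul_of_nonneg_right h1 (by positivity)
  refine le_of_mul_le_mul_left ?_ θ0
  linarith

theorem RefN_alg2 {β θ e D T lam K : ℝ} (hβ : 0 < β) (hβ1 : β ≤ 1) (θ0 : 0 < θ) (h1 : θ ≤ 4 * β)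
    (D8 : D ≤ 8) (D0 : 0 ≤ D) (T0 : 0 ≤ T) (K1 : 1 ≤ K) (e1 : e ≤ β ^ 10)
    (h : θ * D + T / θ - lam * θ ≤ e)
    (k : ∀ a : ℝ, 0 < a → lam - D ≤ 14 * K * β ^ 2 * (a * (4 * D) + a⁻¹ * T)) :
    T ≤ (8 + 10 ^ 7 * K ^ 2) * β ^ 8 := by
  have K0 : 0 < K := by linarith
  have k1 := k (448 * K * β ^ 4) (by positivity)
  have k2 : 14 * K * β ^ 2 * (448 * K * β ^ 4 * (4 * D) + (448 * K * β ^ 4)⁻¹ * T) =
      (25088 * K ^ 2 * β ^ 8 * D + T / 32) / β ^ 2 := by field_simp; ring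
  rw [k2, le_div_iff₀ (by positivity)] at k1
  have h2 : T ≤ θ * e + θ ^ 2 * (lam - D) := by
    have := mul_le_mul_of_nonneg_left h θ0.le
    have e2 : θ * (θ * D + T / θ - lam * θ) = T - θ ^ 2 * (lam - D) := by field_simp; ring
    linarith
  have h3 : θ * e ≤ 4 * β ^ 8 := by
    have a1 : β ^ 11 ≤ β ^ 8 := pow_le_pow_of_le_one hβ.le hβ1 (by norm_num)
    have a2 := mul_le_mul_of_nonneg_left e1 θ0.le
    have a3 := mul_le_mul_of_nonneg_right h1 (by positivity : 0 ≤ β ^ 10)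
    nlinarith
  have p1 : 0 ≤ K ^ 2 * β ^ 8 := by positivity
  have p2 : K ^ 2 * β ^ 8 * D ≤ K ^ 2 * β ^ 8 * 8 := mul_le_mul_of_nonneg_left D8 p1
  have p3 : 0 ≤ K ^ 2 * β ^ 8 * D := by positivity
  have h4 : θ ^ 2 * (lam - D) ≤ 16 * (25088 * K ^ 2 * β ^ 8 * D + T / 32) := by
    rcases le_total (lam - D) 0 with c | c
    · nlinarith [mul_nonneg (sq_nonneg θ) (neg_nonneg.2 c)]
    · have a1 : θ ^ 2 ≤ (4 * β) ^ 2 := pow_le_pow_left₀ θ0.le h1 2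
      have a2 := mul_le_mul_of_nonneg_right a1 c
      nlinarith
  nlinarith

theorem exists_ref {u0 K : ℝ} {φ φ' φ'' : ℝ → ℝ} (h : Wt u0 K φ φ' φ'') (h0 : 0 < u0)
    (h1 : u0 ≤ 1 / 4) : ∃ K₀ : ℝ, 1 ≤ K₀ ∧ ∀ᶠ β in 𝓝[>] (0 : ℝ), ∀ lam : ℝ, Bot β lam →
      ∀ ε : ℝ, 0 < ε → ε ≤ 1 → ∃ v, Ref φ K₀ β lam ε v := by
  obtain ⟨Kn, Kn1, hKn⟩ := NW_est
  obtain ⟨Kw, Kw1, hKw⟩ := RefN_dt
  obtain ⟨Kc, Kc0, hKc⟩ := RefN_coer
  obtain ⟨K', δ, K'1, δ0, -, δ1, hK'⟩ := dist_est h h0 h1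
  have ω0 := phiJ_pos h h0
  set ω := ∫ σ, φ σ * JJ σ ∂m0 with hω
  obtain ⟨C1, hC1⟩ : ∃ C, C = 32 * Kn := ⟨_, rfl⟩
  obtain ⟨C2, hC2⟩ : ∃ C, C = 8 + 10 ^ 7 * Kw ^ 2 := ⟨_, rfl⟩
  obtain ⟨C3, hC3⟩ : ∃ C, C = Kc * (7 * C1 + 1 + 121 * C2) := ⟨_, rfl⟩
  obtain ⟨C4, hC4⟩ : ∃ C, C = (242 * C3 + 16 * K' ^ 2) / ω ^ 2 := ⟨_, rfl⟩
  obtain ⟨C5, hC5⟩ : ∃ C, C = 7 * C4 + 2 * C3 := ⟨_, rfl⟩
  have c1 : 0 ≤ C1 := by rw [hC1]; positivity
  have c2 : 0 ≤ C2 := by rw [hC2]; positivity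
  have c3 : 0 ≤ C3 := by rw [hC3]; positivity
  have c4 : 0 ≤ C4 := by rw [hC4]; positivity
  have c5 : 0 ≤ C5 := by rw [hC5]; positivity
  refine ⟨16 + 7 * C1 + 2 * C2 + 2 * C5, by linarith, ?_⟩
  filter_upwards [ev_le δ0, ev_small (C1 + 2 * C5) (by norm_num : (0 : ℝ) < 1 / 2)] with β
    ⟨hβ, βδ⟩ hs lam hb ε ε0 ε1
  have β1 : β ≤ 1 / 64 := βδ.trans δ1
  have β2 : β ≤ 1 := by linarith
  have pw : ∀ {m n : ℕ}, m ≤ n → β ^ n ≤ β ^ m := fun hmn => pow_le_pow_of_le_one hβ.le β2 hmn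
  have b3 : 0 < β ^ 3 := by positivity
  have b8 : 0 < β ^ 8 := by positivity
  have b10 : 0 < β ^ 10 := by positivity
  have j7 := jj_sq_le
  have j0 := sq_nonneg jj
  have l1 := RefN_lam_le hβ β1 hb.pos
  obtain ⟨V, hC, nV, qV⟩ := hb.near (ε * β ^ 10 / 2) (by positivity)
  have hV := hC.vv
  have hJ := v1_JJ.toVV.1
  have D0 := Ds_nonneg V
  have T0 := Dt_nonneg V
  have q1 : π * β * Ds V + Dt V / (π * β) - lam * (π * β) ≤ ε * β ^ 10 / 2 := by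
    have := qV
    rwa [QQ, nV, mul_zero, exp_zero, mul_one, mul_one] at this
  have e1 : ε * β ^ 10 / 2 ≤ β ^ 10 := by nlinarith
  have d1 : Ds V ≤ lam + β ^ 9 :=
    RefN_alg1 hβ (le_mul_of_one_le_left hβ.le (by linarith [pi_gt_three])) T0 e1 q1
  have b9 : β ^ 9 ≤ β ^ 3 := pw (by norm_num)
  have b0 : β ^ 3 ≤ β := by simpa using pw (m := 1) (n := 3) (by norm_num)
  have d8 : Ds V ≤ 8 := by linarith
  have n1 : 1 - C1 * β ^ 3 ≤ N0 V := by
    have x1 := hKn β 0 hβ β1 (by norm_num) V hV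
    rw [nV, abs_zero, add_zero] at x1
    have x2 : OI β V ≤ 4 * β ^ 2 * 8 :=
      (hV.O_le β).trans (mul_le_mul_of_nonneg_left d8 (by positivity))
    have x3 := mul_le_mul_of_nonneg_left x2 (by positivity : 0 ≤ Kn * β)
    have x4 := le_abs_self (1 - N0 V)
    rw [hC1]; linarith
  have g1 := hV.ground
  have g2 := mul_le_mul_of_nonneg_left n1 j0
  have g3 : jj ^ 2 * (C1 * β ^ 3) ≤ 7 * (C1 * β ^ 3) :=
    mul_le_mul_of_nonneg_right (by linarith) (by positivity)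
  have t1 : Dt V ≤ C2 * β ^ 8 := by
    rw [hC2]
    refine RefN_alg2 hβ β2 (mul_pos pi_pos hβ) (mul_le_mul_of_nonneg_right pi_le_four hβ.le)
      d8 D0 T0 Kw1 e1 q1 fun a ha => ?_
    have := hKw β lam hβ β1 (by linarith) hb.pos V hV a ha
    rwa [nV, mul_one] at this
  obtain ⟨ρ, hρ⟩ := hKc V hV
  have hU := VV.lin ρ hJ hV
  have u1 : Ds (fun p => ρ * JJ p.1 + V p) ≤ C3 * β ^ 3 := by
    refine hρ.trans ?_
    rw [hC3, mul_assoc]
    refine mul_le_mul_of_nonneg_left ?_ Kc0.le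
    have := mul_le_mul_of_nonneg_left (pw (m := 3) (n := 8) (by norm_num)) c2
    linarith
  have P1 : ∀ σ, σ < 0 → |Ps φ 0 β 0 σ - φ σ| ≤ K' * β ^ 4 * exp (2 * σ) := fun σ hσ => by
    simpa using ((hK' β β 0 0 βδ hβ le_rfl (by norm_num) (by simpa using δ0.le)).1 σ hσ).1
  have P2 : ∀ σ, σ < 0 → |φ σ| ≤ 11 * exp (2 * σ) := fun σ _ => h.abs_le h0 σ
  have m1 : AEStronglyMeasurable φ m0 := h.cont.aestronglyMeasurable
  have m2 : AEStronglyMeasurable (fun σ => Ps φ 0 β 0 σ - φ σ) m0 :=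
    ((Ps_cont h 0 hβ 0).aestronglyMeasurable measurableSet_Iio).sub m1
  obtain ⟨κ, hκ⟩ : ∃ κ, κ * ω = ∫ p, V p * Ps φ 0 β 0 p.1 ∂nu :=
    ⟨_, div_mul_cancel₀ _ ω0.ne'⟩
  have k1 : (κ + ρ) * ω = (∫ p, (ρ * JJ p.1 + V p) * φ p.1 ∂nu) +
      ∫ p, V p * (Ps φ 0 β 0 p.1 - φ p.1) ∂nu := by
    rw [RefN_lin hV m1 P2, add_mul, hκ, add_assoc,
      ← integral_add (hV.int_ip m1 P2) (hV.int_ip m2 P1), add_comm]
    congr 1
    exact integral_congr_ae (Eventually.of_forall fun p => by simp only; ring)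
  have k2 : (κ + ρ) ^ 2 ≤ C4 * β ^ 3 := by
    have x1 := RefN_ip hU P2
    have x2 := RefN_ip hV P1
    have x3 : (K' * β ^ 4) ^ 2 * Ds V ≤ K' ^ 2 * β ^ 3 * 8 := by
      rw [mul_pow, ← pow_mul]
      exact mul_le_mul (mul_le_mul_of_nonneg_left (pw (by norm_num)) (sq_nonneg _)) d8 D0
        (by positivity)
    rw [hC4, div_mul_eq_mul_div, le_div_iff₀ (by positivity), ← mul_pow, k1]
    beta_reduce at x1 x2
    generalize (∫ p, (ρ * JJ p.1 + V p) * φ p.1 ∂nu) = A at x1 ⊢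
    generalize (∫ p, V p * (Ps φ 0 β 0 p.1 - φ p.1) ∂nu) = B at x2 ⊢
    nlinarith [sq_nonneg (A - B)]
  have hE := VV.lin (-κ) hJ hV
  have k3 : Ds (fun p => -κ * JJ p.1 + V p) ≤ C5 * β ^ 3 := by
    have x1 := VV.Ds_add_le (-(κ + ρ)) hJ hU
    have x2 : (fun p : ℝ × ℝ => -(κ + ρ) * JJ p.1 + (ρ * JJ p.1 + V p)) =
        fun p => -κ * JJ p.1 + V p := by funext p; ring
    rw [x2, v1_JJ.Ds_eq.1, DJ_eq, neg_sq] at x1
    have x3 : jj ^ 2 * NJ ≤ 7 * (1 / 2) :=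
      mul_le_mul (by linarith) NJ_le NJ_pos.le (by norm_num)
    have x4 := mul_le_mul k2 x3 (mul_nonneg j0 NJ_pos.le) (by positivity)
    rw [hC5]; linarith
  have k4 : 1 / 2 ≤ κ ^ 2 := by
    have x1 := RefN_N_le hV (-κ)
    rw [neg_sq] at x1
    have x2 := mul_le_mul_of_nonneg_left b0 (by positivity : 0 ≤ C1 + 2 * C5)
    linarith
  have κ0 : κ ≠ 0 := by
    rintro rfl
    norm_num at k4
  have k5 : κ⁻¹ ^ 2 ≤ 2 := by
    rw [inv_pow, inv_le_comm₀ (by positivity) two_pos]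
    linarith
  obtain ⟨v1, v2, v3, v4⟩ := VV.smul κ⁻¹ hV
  refine ⟨fun p => κ⁻¹ * V p, v1, fun σ t => by simp only [hC.even], hb.pos, ?_, ?_, l1, ?_, ?_,
    ?_, ?_⟩
  · rw [v4]
    have := mul_le_mul k5 qV (hb.pos V hV) zero_le_two
    linarith
  · simp only [mul_assoc]
    rw [integral_const_mul, ← hκ, ← hω, ← mul_assoc, inv_mul_cancel₀ κ0, one_mul]
  · nlinarith [mul_nonneg c2 b3.le, mul_nonneg c5 b3.le]
  · rw [v2]
    have := mul_le_mul k5 d8 D0 zero_le_two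
    linarith
  · rw [v3]
    have := mul_le_mul k5 t1 T0 zero_le_two
    nlinarith [mul_nonneg c1 b8.le, mul_nonneg c5 b8.le]
  · have x1 := (VV.smul κ⁻¹ hE).2.1
    have x2 : (fun p : ℝ × ℝ => κ⁻¹ * (-κ * JJ p.1 + V p)) =
        fun p => -1 * JJ p.1 + κ⁻¹ * V p := by funext p; field_simp
    rw [x2] at x1
    rw [x1]
    have := mul_le_mul k5 k3 (Ds_nonneg _) zero_le_two
    nlinarith [mul_nonneg c1 b3.le, mul_nonneg c2 b3.le]

end Pool.Agent.Work.MP_267827_an
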