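import Pool.Agent.Work.MP_267827_an.BM
import Pool.Agent.Work.MP_267827_an.Coarea
import Pool.Agent.Work.MP_267827_an.Cal
import Pool.Agent.Work.MP_267827_an.Crofton

/-! Stability in the Faber-Krahn inequality: a large inscribed disc. -/

set_option autoImplicit false

namespace Pool.Agent.Work.MP_267827_an

open MeasureTheory Set Filter Topology Metric Real

theorem Stab_open {u : ℂ → ℝ} (hu : Continuous u) (t : ℝ) : IsOpen (lev u t) :=
  isOpen_lt continuous_const hu.abs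

theorem Stab_sub {u : ℂ → ℝ} {t : ℝ} (ht : 0 ≤ t) : lev u t ⊆ tsupport u := by
  intro x hx
  refine subset_tsupport u fun h => ?_
  have : t < |u x| := hx
  rw [h, abs_zero] at this
  linarith

theorem Stab_bdd {u : ℂ → ℝ} (hc : HasCompactSupport u) {t : ℝ} (ht : 0 ≤ t) :
    Bornology.IsBounded (lev u t) := hc.isCompact.isBounded.subset (Stab_sub ht)

theorem Stab_anti {u : ℂ → ℝ} (hc : HasCompactSupport u) {s t : ℝ} (hs : 0 ≤ s) (h : s ≤ t) :
    mu u t ≤ mu u s :=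
  measureReal_mono (fun _ hx => lt_of_le_of_lt h hx) (Stab_bdd hc hs).measure_lt_top.ne

theorem Stab_iso {A : Set ℂ} (hA : IsOpen A) (hb : Bornology.IsBounded A) {ε : ℝ} (hε : 0 < ε) :
    volume.real A + ε * (2 * √(π * volume.real A)) ≤ volume.real (thickening ε A) := by
  rcases A.eq_empty_or_nonempty with rfl | ne
  · simp
  have h := bm hA hb ne hε
  have h0 : 0 ≤ volume.real A := measureReal_nonneg
  rw [Real.sqrt_mul pi_pos.le]
  have h1 := Real.sq_sqrt h0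
  nlinarith [sq_nonneg (ε * √π)]

theorem Stab_intx {u : ℂ → ℝ} (hu : Continuous u) {g : ℂ → ℝ} (hg : Continuous g)
    (hgc : HasCompactSupport g) {γ : ℝ → ℝ} (hγ : Antitone γ) (γ0 : ∀ t, 0 ≤ γ t) :
    Integrable (fun x => g x * γ |u x|) := by
  refine (hg.integrable_of_hasCompactSupport hgc).mul_bdd (c := γ 0)
    (hγ.measurable.comp hu.abs.measurable).aestronglyMeasurable (Eventually.of_forall fun x => ?_)
  rw [Real.norm_of_nonneg (γ0 _)]
  exact hγ (abs_nonneg _)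

theorem Stab_intI {u : ℂ → ℝ} (hu : ContDiff ℝ 1 u) (hc : HasCompactSupport u) {ψ γ : ℝ → ℝ}
    (hψ : Continuous ψ) (hγ : Antitone γ) (γ0 : ∀ t, 0 ≤ γ t) :
    Integrable (fun x => ‖fderiv ℝ u x‖ * (ψ |u x| * γ |u x|)) := by
  have := Stab_intx hu.continuous (g := fun x => ‖fderiv ℝ u x‖ * ψ |u x|)
    ((hu.continuous_fderiv one_ne_zero).norm.mul (hψ.comp hu.continuous.abs))
    ((hc.fderiv (𝕜 := ℝ)).norm.mul_right) hγ γ0
  simpa only [mul_assoc] using this

theorem Stab_intt {ψ γ q : ℝ → ℝ} (hψ : Continuous ψ) (hγ : Antitone γ) (γ0 : ∀ t, 0 ≤ γ t)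
    (hq : AEStronglyMeasurable q (volume.restrict (Ioi 0))) {C M : ℝ}
    (hb : ∀ t, 0 < t → |q t| ≤ C) (hM : ∀ t, M < t → q t = 0) :
    IntegrableOn (fun t => ψ t * γ t * q t) (Ioi 0) := by
  have h1 : IntegrableOn (fun t => ψ t * γ t * q t) (Ioc 0 M) := by
    have h2 : IntegrableOn (fun t => ψ t * γ t) (Ioc 0 M) := by
      refine Integrable.mul_bdd (c := γ 0) (hψ.integrableOn_Icc.mono_set Ioc_subset_Icc_self)
        hγ.measurable.aestronglyMeasurable ?_
      filter_upwards [ae_restrict_mem measurableSet_Ioc] with t ht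
      rw [Real.norm_of_nonneg (γ0 _)]
      exact hγ ht.1.le
    refine Integrable.mul_bdd (c := C) h2
      (hq.mono_measure (Measure.restrict_mono Ioc_subset_Ioi_self le_rfl)) ?_
    filter_upwards [ae_restrict_mem measurableSet_Ioc] with t ht
    exact hb t ht.1
  refine h1.of_forall_sdiff_eq_zero measurableSet_Ioi fun t ht => ?_
  have : M < t := by
    by_contra c
    exact ht.2 ⟨ht.1, not_lt.1 c⟩
  rw [hM t this, mul_zero]

theorem Stab_intP {u : ℂ → ℝ} (hu : Continuous u) (hc : HasCompactSupport u) {ψ γ : ℝ → ℝ}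
    (hψ : Continuous ψ) (hγ : Antitone γ) (γ0 : ∀ t, 0 ≤ γ t) :
    IntegrableOn (fun t => ψ t * γ t * (2 * √(π * mu u t))) (Ioi 0) := by
  obtain ⟨M, hM⟩ := hu.bounded_above_of_compact_support hc
  refine Stab_intt hψ hγ γ0 ?_ (C := 2 * √(π * mu u 0)) (M := M) (fun t ht => ?_) (fun t ht => ?_)
  · have h1 : Antitone fun t => mu u (max t 0) := fun a b hab =>
      Stab_anti hc (le_max_right _ _) (max_le_max_right _ hab)
    have h2 : Measurable fun t => 2 * √(π * mu u (max t 0)) :=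
      (h1.measurable.const_mul π).sqrt.const_mul 2
    refine h2.aestronglyMeasurable.congr ?_
    filter_upwards [ae_restrict_mem measurableSet_Ioi] with t ht
    rw [max_eq_left (le_of_lt ht)]
  · rw [abs_of_nonneg (by positivity)]
    gcongr
    exact Stab_anti hc le_rfl ht.le
  · have : lev u t = ∅ := by
      refine eq_empty_of_forall_notMem fun x hx => ?_
      have h1 : t < |u x| := hx
      have h2 := hM x
      rw [Real.norm_eq_abs] at h2
      linarith
    simp [mu, this]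

theorem Stab_co {u : ℂ → ℝ} (hu : ContDiff ℝ 1 u) (hc : HasCompactSupport u) {ψ γ : ℝ → ℝ}
    (hψ : Continuous ψ) (ψ0 : ∀ t, 0 ≤ ψ t) (hγ : Antitone γ) (γ0 : ∀ t, 0 ≤ γ t) :
    ∫ t in Ioi (0 : ℝ), ψ t * γ t * (2 * √(π * mu u t)) ≤
      ∫ x, ‖fderiv ℝ u x‖ * (ψ |u x| * γ |u x|) :=
  coarea hu hc hψ ψ0 hγ γ0 (fun t => by positivity) one_pos fun _ hε _ t ht _ =>
    Stab_iso (Stab_open hu.continuous t) (Stab_bdd hc ht.le) hε

theorem Stab_gam {u : ℂ → ℝ} (hc : HasCompactSupport u) {s m₀ : ℝ} (hs : 0 ≤ s) (h₀ : 0 < m₀)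
    (hm : mu u s < m₀) :
    Antitone (fun t => om m₀ (mu u (max t s))) ∧ ∀ t, 0 ≤ om m₀ (mu u (max t s)) := by
  have h1 : ∀ t, mu u (max t s) < m₀ := fun t =>
    (Stab_anti hc hs (le_max_right _ _)).trans_lt hm
  exact ⟨fun a b hab => om_mono h₀ (h1 b) (h1 a)
    (Stab_anti hc (hs.trans (le_max_right _ _)) (max_le_max_right _ hab)),
    fun t => om_nonneg h₀ (h1 t)⟩

theorem Stab_base {u : ℂ → ℝ} (hu : ContDiff ℝ 1 u) (hc : HasCompactSupport u) {s m₀ : ℝ}
    (hs : 0 ≤ s) (h₀ : 0 < m₀) (hm : mu u s < m₀) :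
    π * jj ^ 2 / m₀ * (∫ x, (max (|u x| - s) 0) ^ 2) +
      2 * ((∫ x, ‖fderiv ℝ u x‖ * (max (|u x| - s) 0 * om m₀ (mu u (max |u x| s)))) -
        ∫ t in Ioi (0 : ℝ), max (t - s) 0 * om m₀ (mu u (max t s)) * (2 * √(π * mu u t))) ≤
      EE u := by
  obtain ⟨hγ, γ0⟩ := Stab_gam hc hs h₀ hm
  have h1 := cal hu.continuous hc hs hm
  have hψ : Continuous fun t : ℝ => max (t - s) 0 := by fun_prop
  have i1 := Stab_intI hu hc hψ hγ γ0
  have i2 : Integrable fun x => (max (|u x| - s) 0 * om m₀ (mu u (max |u x| s))) ^ 2 := by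
    have hγ2 : Antitone fun t => om m₀ (mu u (max t s)) ^ 2 := fun a b hab =>
      pow_le_pow_left₀ (γ0 b) (hγ hab) 2
    have := Stab_intx hu.continuous (g := fun x => (max (|u x| - s) 0) ^ 2)
      ((hψ.comp hu.continuous.abs).pow 2)
      (hc.comp_left (g := fun t : ℝ => (max (|t| - s) 0) ^ 2) (by simp [hs])) hγ2
      (fun t => sq_nonneg _)
    simpa only [mul_pow] using this
  have i3 : Integrable fun x => ‖fderiv ℝ u x‖ ^ 2 :=
    (show Continuous fun x => ‖fderiv ℝ u x‖ ^ 2 from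
      (hu.continuous_fderiv one_ne_zero).norm.pow 2).integrable_of_hasCompactSupport
      ((hc.fderiv (𝕜 := ℝ)).comp_left (g := fun L : ℂ →L[ℝ] ℝ => ‖L‖ ^ 2) (by simp))
  have h2 := integral_mono ((i1.const_mul 2).sub i2) i3 (fun x => by
    simp only [Pi.sub_apply]
    nlinarith [sq_nonneg (‖fderiv ℝ u x‖ - max (|u x| - s) 0 * om m₀ (mu u (max |u x| s)))])
  simp only [Pi.sub_apply] at h2
  rw [integral_sub (i1.const_mul 2) i2, integral_const_mul] at h2
  rw [EE]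
  linarith

theorem Stab_trunc {u : ℂ → ℝ} (hu : Continuous u) (hc : HasCompactSupport u) {s k : ℝ}
    (hs : 0 ≤ s) (hk : 0 < k) (hk1 : k ≤ 1) :
    (1 - k) * NN u - s ^ 2 / k * mu u 0 ≤ ∫ x, (max (|u x| - s) 0) ^ 2 := by
  have i1 : Integrable fun x => u x ^ 2 :=
    (show Continuous fun x => u x ^ 2 from hu.pow 2).integrable_of_hasCompactSupport
      (hc.comp_left (g := fun t : ℝ => t ^ 2) (by simp))
  have i2 : Integrable fun x => (max (|u x| - s) 0) ^ 2 :=
    (show Continuous fun x => (max (|u x| - s) 0) ^ 2 by fun_prop).integrable_of_hasCompactSupport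
      (hc.comp_left (g := fun t : ℝ => (max (|t| - s) 0) ^ 2) (by simp [hs]))
  have hm := (Stab_open hu 0).measurableSet
  have i3 : Integrable ((lev u 0).indicator fun _ => s ^ 2 / k) :=
    (integrable_indicator_iff hm).2 (integrableOn_const (Stab_bdd hc le_rfl).measure_lt_top.ne)
  have h := integral_mono ((i1.const_mul (1 - k)).sub i3) i2 (fun x => by
    simp only [Pi.sub_apply]
    by_cases hx : x ∈ lev u 0
    · rw [indicator_of_mem hx, ← sq_abs (u x)]
      have ha := abs_nonneg (u x)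
      generalize |u x| = a at ha
      have e1 : 2 * a * s ≤ k * a ^ 2 + s ^ 2 / k := by
        have : k * a ^ 2 + s ^ 2 / k - 2 * a * s = (k * a - s) ^ 2 / k := by
          field_simp
          ring
        have h2 : 0 ≤ (k * a - s) ^ 2 / k := by positivity
        linarith
      rcases le_total s a with h | h
      · rw [max_eq_left (by linarith)]
        nlinarith [sq_nonneg s]
      · rw [max_eq_right (by linarith)]
        have e2 : s ^ 2 ≤ s ^ 2 / k := le_div_self (sq_nonneg s) hk hk1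
        have e3 : a ^ 2 ≤ s ^ 2 := pow_le_pow_left₀ ha h 2
        nlinarith [sq_nonneg a]
    · have h0 : u x = 0 := by
        have : ¬ (0 < |u x|) := hx
        simpa using this
      rw [indicator_of_notMem hx, h0]
      simp)
  simp only [Pi.sub_apply] at h
  rw [integral_sub (i1.const_mul _) i3, integral_const_mul, integral_indicator_const _ hm,
    smul_eq_mul] at h
  rw [NN, mu]
  linarith

theorem Stab_fin {ι : Type} (P : ι → Set ℂ) {κ : ℝ} (hP : ∀ i, volume.real (P i) < κ)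
    (hκ : 0 < κ) (F : Finset ι) (hF : κ ≤ volume.real (⋃ i ∈ F, P i)) :
    ∃ G : Finset ι, G ⊆ F ∧ κ ≤ volume.real (⋃ i ∈ G, P i) ∧ volume.real (⋃ i ∈ G, P i) ≤ 2 * κ := by
  classical
  induction F using Finset.induction_on with
  | empty => simp at hF; linarith
  | insert a F ha ih =>
    by_cases h : κ ≤ volume.real (⋃ i ∈ F, P i)
    · obtain ⟨G, h1, h2⟩ := ih h
      exact ⟨G, h1.trans (Finset.subset_insert _ _), h2⟩
    · refine ⟨insert a F, Subset.rfl, hF, ?_⟩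
      rw [Finset.set_biUnion_insert]
      have := measureReal_union_le (μ := volume) (P a) (⋃ i ∈ F, P i)
      linarith [hP a]

theorem Stab_dich {A : Set ℂ} (hA : IsOpen A) (hb : Bornology.IsBounded A) {t₀ κ : ℝ}
    (ht₀ : 0 < t₀) (hκ : 0 < κ) (h1 : π * t₀ ^ 2 + κ ≤ volume.real A)
    (h2 : 3 * κ ≤ volume.real A) :
    (∃ U, U ⊆ A ∧ IsOpen U ∧ volume.real A - κ ≤ volume.real U ∧
        ∀ x ∈ thickening t₀ U, ∃ y ∈ sphere x t₀, y ∈ A) ∨
      ∃ U, U ⊆ A ∧ IsOpen U ∧ IsOpen (A \ U) ∧ κ ≤ volume.real U ∧ κ ≤ volume.real (A \ U) := by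
  have hfin : volume A ≠ ⊤ := hb.measure_lt_top.ne
  let ι := {x : ℂ // ∀ y ∈ sphere x t₀, y ∉ A}
  let P : ι → Set ℂ := fun x => A ∩ ball x.1 t₀
  have hPo : ∀ i, IsOpen (P i) := fun i => hA.inter isOpen_ball
  have hsplit : ∀ S : Set ι, IsOpen (A \ ⋃ i ∈ S, P i) := by
    intro S
    rw [Metric.isOpen_iff]
    intro a ha
    obtain ⟨r, hr, hrA⟩ := Metric.isOpen_iff.1 hA a ha.1
    refine ⟨r, hr, fun b hb => ⟨hrA hb, fun hbS => ha.2 ?_⟩⟩
    obtain ⟨i, hi, hbi⟩ := mem_iUnion₂.1 hbS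
    refine mem_iUnion₂.2 ⟨i, hi, ha.1, ?_⟩
    refine (convex_ball a r).isPreconnected.subset_left_of_subset_union isOpen_ball
      isClosed_closedBall.isOpen_compl (disjoint_compl_right_iff_subset.2 ball_subset_closedBall)
      (fun z hz => ?_) ⟨b, hb, hbi.2⟩ (mem_ball_self hr)
    rcases lt_trichotomy (dist z i.1) t₀ with h | h | h
    · exact Or.inl h
    · exact absurd (hrA hz) (i.2 z h)
    · exact Or.inr (not_le.2 h)
  have hdiff : ∀ U, U ⊆ A → IsOpen U → volume.real (A \ U) = volume.real A - volume.real U := by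
    intro U hU hUo
    have := measureReal_inter_add_sdiff (μ := volume) (s := A) hUo.measurableSet hfin
    rw [inter_eq_self_of_subset_right hU] at this
    linarith
  have hsub : ∀ S : Set ι, (⋃ i ∈ S, P i) ⊆ A := fun S =>
    iUnion₂_subset fun i _ => inter_subset_left
  have hop : ∀ S : Set ι, IsOpen (⋃ i ∈ S, P i) := fun S => isOpen_biUnion fun i _ => hPo i
  by_cases hB : volume.real (⋃ i ∈ (univ : Set ι), P i) ≤ κ
  · left
    refine ⟨A \ ⋃ i ∈ (univ : Set ι), P i, sdiff_subset, hsplit _, ?_, fun x hx => ?_⟩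
    · rw [hdiff _ (hsub _) (hop _)]
      linarith
    · by_contra c
      push Not at c
      obtain ⟨a, ha, hxa⟩ := mem_thickening_iff.1 hx
      exact ha.2 (mem_iUnion₂.2 ⟨⟨x, c⟩, mem_univ _, ha.1, by rwa [mem_ball, dist_comm]⟩)
  right
  by_cases hP : ∃ i, κ ≤ volume.real (P i)
  · obtain ⟨i, hi⟩ := hP
    have e : (⋃ j ∈ ({i} : Set ι), P j) = P i := by simp
    refine ⟨P i, inter_subset_left, hPo i, e ▸ hsplit {i}, hi, ?_⟩
    rw [hdiff _ inter_subset_left (hPo i)]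
    have h3 : volume.real (P i) ≤ volume.real (ball i.1 t₀) :=
      measureReal_mono inter_subset_right isBounded_ball.measure_lt_top.ne
    have h4 : volume.real (ball i.1 t₀) = π * t₀ ^ 2 := by
      simp [Measure.real, ENNReal.toReal_ofReal ht₀.le, mul_comm]
    linarith
  push Not at hP hB
  have hB' : ENNReal.ofReal κ < volume (⋃ i ∈ (univ : Set ι), P i) :=
    (ENNReal.ofReal_lt_iff_lt_toReal hκ.le (measure_ne_top_of_subset (hsub _) hfin)).2 hB
  obtain ⟨K, hK1, hK2, hK3⟩ := (hop univ).exists_lt_isCompact hB'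
  obtain ⟨F, hF⟩ := hK2.elim_finite_subcover P hPo (by simpa using hK1)
  have hF2 : κ ≤ volume.real (⋃ i ∈ F, P i) := by
    have e1 := (ENNReal.ofReal_lt_iff_lt_toReal hκ.le hK2.measure_lt_top.ne).1 hK3
    have e2 : volume.real K ≤ volume.real (⋃ i ∈ F, P i) :=
      measureReal_mono hF (measure_ne_top_of_subset (hsub (F : Set ι)) hfin)
    exact e1.le.trans e2
  obtain ⟨G, -, hG1, hG2⟩ := Stab_fin P hP hκ F hF2
  refine ⟨⋃ i ∈ G, P i, hsub (G : Set ι), hop (G : Set ι), hsplit (G : Set ι), hG1, ?_⟩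
  rw [hdiff (⋃ i ∈ G, P i) (hsub (G : Set ι)) (hop (G : Set ι))]
  linarith

theorem Stab_add3 {α : Type} [MeasurableSpace α] {μ : Measure α} {f g h : α → ℝ}
    (hf : Integrable f μ) (hg : Integrable g μ) (hh : Integrable h μ) :
    ∫ x, f x + g x + h x ∂μ = (∫ x, f x ∂μ) + (∫ x, g x ∂μ) + ∫ x, h x ∂μ := by
  rw [← integral_add hf hg]
  exact integral_add (hf.add hg) hh

theorem Stab_gain1 {u : ℂ → ℝ} (hu : ContDiff ℝ 1 u) (hc : HasCompactSupport u) {γ : ℝ → ℝ}
    (hγ : Antitone γ) (γ0 : ∀ t, 0 ≤ γ t) {γ₀ sa t₀ pm : ℝ} (hγ₀ : 0 < γ₀) (hsa : 0 < sa)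
    (ht₀ : 0 < t₀) (hlow : γ₀ ≤ γ sa) {Z : Set ℂ} (hZ : MeasurableSet Z)
    (h : ∀ x ∈ Z, (∃ y ∈ sphere x t₀, sa ≤ |u y|) ∧ ∃ y ∈ sphere x t₀, u y = 0)
    (hp : 2 * √(π * mu u 0) ≤ pm) :
    γ₀ * (sa ^ 2 / 6) * (volume.real Z / (2 * t₀) - pm) ≤
      (∫ x, ‖fderiv ℝ u x‖ * (max |u x| 0 * γ |u x|)) -
        ∫ t in Ioi (0 : ℝ), max t 0 * γ t * (2 * √(π * mu u t)) := by
  set τ : ℝ → ℝ := fun t => max 0 (t * (sa - t) / sa) with hτ
  have τc : Continuous τ := by simp only [hτ]; fun_prop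
  have τ0 : ∀ t, 0 ≤ τ t := fun t => le_max_left _ _
  have τz : ∀ t, sa ≤ t → τ t = 0 := fun t ht => max_eq_left
    (div_nonpos_of_nonpos_of_nonneg (mul_nonpos_of_nonneg_of_nonpos (by linarith) (by linarith))
      hsa.le)
  have τle : ∀ t, τ t ≤ max t 0 := fun t => by
    refine max_le (le_max_right _ _) (le_trans ?_ (le_max_left _ _))
    rw [div_le_iff₀ hsa]
    nlinarith [sq_nonneg t]
  have dec : ∀ t, max t 0 * γ t =
      τ t * γ₀ + τ t * max (γ t - γ₀) 0 + (max t 0 - τ t) * γ t := by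
    intro t
    rcases le_total sa t with h | h
    · rw [τz t h]; ring
    · rw [max_eq_left (sub_nonneg.2 (hlow.trans (hγ h)))]; ring
  have a1 : Antitone fun _ : ℝ => γ₀ := antitone_const
  have n1 : ∀ _ : ℝ, 0 ≤ γ₀ := fun _ => hγ₀.le
  have a2 : Antitone fun t => max (γ t - γ₀) 0 := fun a b hab =>
    max_le_max_right _ (sub_le_sub_right (hγ hab) _)
  have n2 : ∀ t, 0 ≤ max (γ t - γ₀) 0 := fun t => le_max_right _ _
  have c3 : Continuous fun t => max t 0 - τ t := by fun_prop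
  have n3 : ∀ t, 0 ≤ max t 0 - τ t := fun t => sub_nonneg.2 (τle t)
  have eI : ∫ x, ‖fderiv ℝ u x‖ * (max |u x| 0 * γ |u x|) =
      (∫ x, ‖fderiv ℝ u x‖ * (τ |u x| * γ₀)) +
        (∫ x, ‖fderiv ℝ u x‖ * (τ |u x| * max (γ |u x| - γ₀) 0)) +
        ∫ x, ‖fderiv ℝ u x‖ * ((max |u x| 0 - τ |u x|) * γ |u x|) := by
    rw [← Stab_add3 (Stab_intI hu hc τc a1 n1) (Stab_intI hu hc τc a2 n2)
      (Stab_intI hu hc c3 hγ γ0)]
    refine integral_congr_ae (Eventually.of_forall fun x => ?_)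
    simp only
    rw [dec]; ring
  have eP : ∫ t in Ioi (0 : ℝ), max t 0 * γ t * (2 * √(π * mu u t)) =
      (∫ t in Ioi (0 : ℝ), τ t * γ₀ * (2 * √(π * mu u t))) +
        (∫ t in Ioi (0 : ℝ), τ t * max (γ t - γ₀) 0 * (2 * √(π * mu u t))) +
        ∫ t in Ioi (0 : ℝ), (max t 0 - τ t) * γ t * (2 * √(π * mu u t)) := by
    rw [← Stab_add3 (Stab_intP hu.continuous hc τc a1 n1) (Stab_intP hu.continuous hc τc a2 n2)
      (Stab_intP hu.continuous hc c3 hγ γ0)]
    refine integral_congr_ae (Eventually.of_forall fun x => ?_)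
    simp only
    rw [dec]; ring
  have b2 := Stab_co hu hc τc τ0 a2 n2
  have b3 := Stab_co hu hc c3 n3 hγ γ0
  have T : ∫ t in (0 : ℝ)..sa, τ t = sa ^ 2 / 6 := by
    have : ∫ t in (0 : ℝ)..sa, τ t = ∫ t in (0 : ℝ)..sa, (t - t ^ 2 / sa) := by
      refine intervalIntegral.integral_congr fun t ht => ?_
      rw [uIcc_of_le hsa.le] at ht
      simp only [hτ]
      rw [max_eq_right (div_nonneg (mul_nonneg ht.1 (sub_nonneg.2 ht.2)) hsa.le)]
      field_simp
    rw [this, intervalIntegral.integral_sub (by simp) (Continuous.intervalIntegrable (by fun_prop) _ _),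
      intervalIntegral.integral_div, integral_id, integral_pow]
    field_simp
    ring
  have b1 := crofton hu hc τc τ0 ht₀ hsa.le hZ h
  rw [T] at b1
  have e1 : ∫ x, ‖fderiv ℝ u x‖ * (τ |u x| * γ₀) = γ₀ * ∫ x, ‖fderiv ℝ u x‖ * τ |u x| := by
    rw [← integral_const_mul]
    exact integral_congr_ae (Eventually.of_forall fun x => by ring)
  have hz : ∀ t ∈ Ioi (0 : ℝ) \ Ioc 0 sa, τ t = 0 := fun t ht => τz t (by
    by_contra c
    exact ht.2 ⟨ht.1, (not_le.1 c).le⟩)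
  have iτ : IntegrableOn τ (Ioi 0) :=
    (τc.integrableOn_Icc.mono_set Ioc_subset_Icc_self).of_forall_sdiff_eq_zero measurableSet_Ioi hz
  have T' : ∫ t in Ioi (0 : ℝ), τ t = sa ^ 2 / 6 := by
    rw [setIntegral_eq_of_subset_of_forall_sdiff_eq_zero measurableSet_Ioi Ioc_subset_Ioi_self hz,
      ← intervalIntegral.integral_of_le hsa.le, T]
  have e2 : ∫ t in Ioi (0 : ℝ), τ t * γ₀ * (2 * √(π * mu u t)) ≤ sa ^ 2 / 6 * (γ₀ * pm) := by
    rw [← T', ← integral_mul_const]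
    refine setIntegral_mono_on (Stab_intP hu.continuous hc τc a1 n1) (iτ.mul_const _)
      measurableSet_Ioi fun t ht => ?_
    rw [mul_assoc]
    refine mul_le_mul_of_nonneg_left (mul_le_mul_of_nonneg_left (le_trans ?_ hp) hγ₀.le) (τ0 t)
    gcongr
    exact Stab_anti hc le_rfl (le_of_lt ht)
  have e3 : sa ^ 2 / 6 * (volume.real Z / (2 * t₀)) ≤ ∫ x, ‖fderiv ℝ u x‖ * τ |u x| := by
    rw [← mul_div_assoc, div_le_iff₀ (by positivity)]
    linarith
  have e4 := mul_le_mul_of_nonneg_left e3 hγ₀.le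
  rw [eI, eP, e1]
  linarith

theorem Stab_gain2 {u : ℂ → ℝ} (hu : ContDiff ℝ 1 u) (hc : HasCompactSupport u) {γ : ℝ → ℝ}
    (hγ : Antitone γ) (γ0 : ∀ t, 0 ≤ γ t) {γ₀ a b g ε₁ : ℝ} (hγ₀ : 0 < γ₀) (ha : 0 < a)
    (hab : a ≤ b) (hlow : γ₀ ≤ γ b) (hg : 0 ≤ g) (hε₁ : 0 < ε₁)
    (hp : ∀ ε, 0 < ε → ε < ε₁ → ∀ t ∈ Icc a b,
      mu u t + ε * (2 * √(π * mu u t) + g) ≤ volume.real (thickening ε (lev u t))) :
    a * γ₀ * g * (b - a) ≤
      (∫ x, ‖fderiv ℝ u x‖ * (max |u x| 0 * γ |u x|)) -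
        ∫ t in Ioi (0 : ℝ), max t 0 * γ t * (2 * √(π * mu u t)) := by
  have c0 : Continuous fun t : ℝ => max t 0 := by fun_prop
  have q0 : ∀ t, 0 ≤ (Icc a b).indicator (fun _ => g) t := fun t =>
    indicator_nonneg (fun _ _ => hg) t
  have h1 := coarea hu hc c0 (fun t => le_max_right _ _) hγ γ0
    (p := fun t => 2 * √(π * mu u t) + (Icc a b).indicator (fun _ => g) t)
    (fun t => add_nonneg (by positivity) (q0 t)) hε₁ (fun ε hε hε' t ht _ => by
      by_cases h : t ∈ Icc a b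
      · rw [indicator_of_mem h]
        exact hp ε hε hε' t h
      · rw [indicator_of_notMem h, add_zero]
        exact Stab_iso (Stab_open hu.continuous t) (Stab_bdd hc ht.le) hε)
  have i2 : IntegrableOn (fun t => max t 0 * γ t * (Icc a b).indicator (fun _ => g) t) (Ioi 0) :=
    Stab_intt c0 hγ γ0 (C := g) (M := b)
      (measurable_const.indicator measurableSet_Icc).aestronglyMeasurable
      (fun t _ => by
        rw [abs_of_nonneg (q0 t)]
        exact indicator_le' (fun _ _ => le_rfl) (fun _ _ => hg) t)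
      (fun t ht => indicator_of_notMem (fun h => not_le.2 ht h.2) _)
  simp only [mul_add] at h1
  rw [integral_add (Stab_intP hu.continuous hc c0 hγ γ0) i2] at h1
  have i3 : Integrable ((Icc a b).indicator fun _ => a * γ₀ * g) :=
    (integrable_indicator_iff measurableSet_Icc).2 (integrableOn_const measure_Icc_lt_top.ne)
  have h2 : ∫ t in Ioi (0 : ℝ), (Icc a b).indicator (fun _ => a * γ₀ * g) t ≤
      ∫ t in Ioi (0 : ℝ), max t 0 * γ t * (Icc a b).indicator (fun _ => g) t := by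
    refine setIntegral_mono_on i3.integrableOn i2 measurableSet_Ioi fun t _ => ?_
    by_cases h : t ∈ Icc a b
    · rw [indicator_of_mem h, indicator_of_mem h]
      exact mul_le_mul_of_nonneg_right (mul_le_mul (h.1.trans (le_max_left _ _))
        (hlow.trans (hγ h.2)) hγ₀.le (le_max_right _ _)) hg
    · rw [indicator_of_notMem h, indicator_of_notMem h, mul_zero]
  have h3 : ∫ t in Ioi (0 : ℝ), (Icc a b).indicator (fun _ => a * γ₀ * g) t =
      a * γ₀ * g * (b - a) := by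
    rw [setIntegral_indicator measurableSet_Icc,
      inter_eq_self_of_subset_right (show Icc a b ⊆ Ioi 0 from fun t ht => ha.trans_le ht.1),
      setIntegral_const,
      Real.volume_real_Icc_of_le hab, smul_eq_mul, mul_comm]
  linarith

theorem Stab_two {u : ℂ → ℝ} (hu : Continuous u) (hc : HasCompactSupport u) {U : Set ℂ} {sa a : ℝ}
    (hsa : 0 ≤ sa) (h : sa < a) (hU : IsOpen U) (hW : IsOpen (lev u sa \ U)) :
    ∃ ε₁ : ℝ, 0 < ε₁ ∧ ∀ ε, 0 < ε → ε < ε₁ → ∀ t, a ≤ t →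
      volume.real (lev u t ∩ U) + ε * (2 * √(π * volume.real (lev u t ∩ U))) +
        (volume.real (lev u t \ U) + ε * (2 * √(π * volume.real (lev u t \ U)))) ≤
          volume.real (thickening ε (lev u t)) := by
  have hK : IsClosed {x | a ≤ |u x|} := isClosed_le continuous_const hu.abs
  have hKs : {x | a ≤ |u x|} ⊆ lev u sa := fun x hx => lt_of_lt_of_le h hx
  have hKc : IsCompact {x | a ≤ |u x|} :=
    hc.isCompact.of_isClosed_subset hK (hKs.trans (Stab_sub hsa))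
  have hd : Disjoint ({x | a ≤ |u x|} ∩ (lev u sa \ U)ᶜ) ({x | a ≤ |u x|} ∩ Uᶜ) :=
    disjoint_left.2 fun x hx hx' => hx.2 ⟨hKs hx.1, hx'.2⟩
  obtain ⟨ε₁, hε₁, hdj⟩ := hd.exists_thickenings (hKc.inter_right hW.isClosed_compl)
    (hK.inter hU.isClosed_compl)
  refine ⟨ε₁, hε₁, fun ε hε hε' t ht => ?_⟩
  have ht0 : 0 ≤ t := by linarith
  have hl : lev u t ⊆ {x | a ≤ |u x|} := fun x hx => ht.trans (le_of_lt hx)
  have b1 : Bornology.IsBounded (lev u t ∩ U) := (Stab_bdd hc ht0).subset inter_subset_left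
  have b2 : Bornology.IsBounded (lev u t \ U) := (Stab_bdd hc ht0).subset sdiff_subset
  have o2 : IsOpen (lev u t \ U) := by
    have : lev u t \ U = lev u t ∩ (lev u sa \ U) :=
      Subset.antisymm (fun x hx => ⟨hx.1, hKs (hl hx.1), hx.2⟩) fun x hx => ⟨hx.1, hx.2.2⟩
    rw [this]
    exact (Stab_open hu t).inter hW
  have h1 := Stab_iso ((Stab_open hu t).inter hU) b1 hε
  have h2 := Stab_iso o2 b2 hε
  have h3 : thickening ε (lev u t) = thickening ε (lev u t ∩ U) ∪ thickening ε (lev u t \ U) := by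
    rw [← thickening_union, inter_union_sdiff]
  have h4 : Disjoint (thickening ε (lev u t ∩ U)) (thickening ε (lev u t \ U)) := by
    refine hdj.mono ((thickening_mono hε'.le _).trans (thickening_subset_of_subset _ ?_))
      ((thickening_mono hε'.le _).trans (thickening_subset_of_subset _ ?_))
    · exact fun x hx => ⟨hl hx.1, fun c => c.2 hx.2⟩
    · exact fun x hx => ⟨hl hx.1, hx.2⟩
  rw [h3, measureReal_union h4 isOpen_thickening.measurableSet b1.thickening.measure_lt_top.ne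
    b2.thickening.measure_lt_top.ne]
  linarith

theorem Stab_sq {a b e : ℝ} (he : 0 < e) (he1 : e ≤ 1) (ha : e ≤ a) (hb : e ≤ b)
    (hab : a + b ≤ 2 * π) : 2 * √(π * (a + b)) + e ≤ 2 * √(π * a) + 2 * √(π * b) := by
  have p3 := pi_gt_three
  have p4 := pi_lt_d2
  have ha0 : 0 ≤ π * a := by nlinarith
  have hb0 : 0 ≤ π * b := by nlinarith
  have hx := Real.sq_sqrt ha0
  have hy := Real.sq_sqrt hb0
  have hz := Real.sq_sqrt (show 0 ≤ π * (a + b) by nlinarith)
  have hz5 : √(π * (a + b)) ≤ 5 := Real.sqrt_le_iff.2 ⟨by norm_num, by nlinarith⟩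
  have hxy : 3 * e ≤ √(π * a) * √(π * b) := by
    rw [← Real.sqrt_mul ha0]
    refine Real.le_sqrt_of_sq_le ?_
    have e1 : 3 * e ≤ π * a := by nlinarith
    have e2 : 3 * e ≤ π * b := by nlinarith
    rw [sq]
    exact mul_le_mul e1 e2 (by positivity) ha0
  have hz0 := Real.sqrt_nonneg (π * (a + b))
  have : √(π * (a + b)) + e / 2 ≤ √(π * a) + √(π * b) := by
    refine le_of_sq_le_sq ?_ (by positivity)
    nlinarith
  linarith

theorem Stab_step1 {u : ℂ → ℝ} (hu1 : ContDiff ℝ 1 u) (hc : HasCompactSupport u) {e η s : ℝ}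
    (e0 : 0 < e) (e1 : e < 1) (η0 : 0 < η) (η1 : η ≤ e / 4) (m0 : mu u 0 ≤ π * (1 + η))
    (N0 : 0 < NN u) (s0 : 0 < s) (hs : s ^ 2 = (e / 8) ^ 2 / (2 * π) * NN u)
    (hE : EE u < jj ^ 2 * (1 + η) * NN u) : π * (1 - e) < mu u s := by
  have j2 : 0 < jj ^ 2 := pow_pos jj_pos 2
  have n1 : π * (1 - e) < π * (1 - e / 2) := mul_lt_mul_of_pos_left (by linarith) pi_pos
  have h0 : 0 < π * (1 - e / 2) := mul_pos pi_pos (by linarith)
  have n2 : (1 + η) * (1 - e / 2) ≤ 1 - e / 4 := by nlinarith [mul_pos η0 e0]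
  have n3 : mu u 0 ≤ 2 * π := by
    rw [mul_comm 2 π]
    exact m0.trans (mul_le_mul_of_nonneg_left (by linarith) pi_pos.le)
  by_contra c
  have hm : mu u s < π * (1 - e / 2) := (not_lt.1 c).trans_lt n1
  have h1 := Stab_base hu1 hc s0.le h0 hm
  obtain ⟨hγ, γ0⟩ := Stab_gam hc s0.le h0 hm
  have h2 := Stab_co hu1 hc (ψ := fun t => max (t - s) 0) (by fun_prop)
    (fun t => le_max_right _ _) hγ γ0
  have h3 := Stab_trunc hu1.continuous hc s0.le (show 0 < e / 8 by positivity) (by linarith)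
  have h4 : s ^ 2 / (e / 8) * mu u 0 ≤ e / 8 * NN u := by
    have : s ^ 2 / (e / 8) * (2 * π) = e / 8 * NN u := by
      rw [hs]; field_simp
    rw [← this]
    exact mul_le_mul_of_nonneg_left n3 (by positivity)
  have h5 : jj ^ 2 * (1 + η) * NN u ≤ π * jj ^ 2 / (π * (1 - e / 2)) * ((1 - e / 4) * NN u) := by
    rw [← mul_assoc]
    refine mul_le_mul_of_nonneg_right ?_ N0.le
    rw [mul_div_mul_left _ _ pi_pos.ne', div_mul_eq_mul_div, le_div_iff₀ (by linarith), mul_assoc]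
    exact mul_le_mul_of_nonneg_left n2 j2.le
  have h6 : π * jj ^ 2 / (π * (1 - e / 2)) * ((1 - e / 4) * NN u) ≤
      π * jj ^ 2 / (π * (1 - e / 2)) * ∫ x, (max (|u x| - s) 0) ^ 2 :=
    mul_le_mul_of_nonneg_left (by linarith) (by positivity)
  linarith

theorem Stab_num1 {δ e V : ℝ} (hδ : 0 < δ) (hδ1 : δ < 1) (he : e = δ ^ 2 / 48)
    (hZ : π * (1 - 5 * e + (1 - δ)) ^ 2 ≤ V) : 24 * e ≤ V / (2 * (1 - δ)) - 2 * (π * (1 + e)) := by
  have p3 := pi_gt_three
  have e0 : 0 < e := by rw [he]; positivity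
  have t0 : 0 < 1 - δ := by linarith
  rw [le_sub_iff_add_le, le_div_iff₀ (by positivity)]
  refine le_trans ?_ hZ
  have e2 : 4 * (1 + e) * (1 - δ) + 24 * e ≤ (1 - 5 * e + (1 - δ)) ^ 2 := by
    have : δ ^ 2 = 48 * e := by rw [he]; ring
    nlinarith [mul_pos e0 hδ, sq_nonneg e]
  have e3 : 48 * e * (1 - δ) ≤ π * (24 * e) := by nlinarith [mul_pos e0 hδ]
  have e4 := mul_le_mul_of_nonneg_left e2 pi_pos.le
  linarith

theorem Stab_case1 {u : ℂ → ℝ} (hu1 : ContDiff ℝ 1 u) (hc : HasCompactSupport u) {γ : ℝ → ℝ}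
    (hγ : Antitone γ) (γ0 : ∀ t, 0 ≤ γ t) {δ e γ₀ s : ℝ} (hδ : 0 < δ) (hδ1 : δ < 1)
    (he : e = δ ^ 2 / 48) (hγ₀ : 0 < γ₀) (s0 : 0 < s) (hl : γ₀ ≤ γ s)
    (m0 : mu u 0 ≤ π * (1 + e)) (hz : ∀ x, ∃ y ∈ sphere x (1 - δ), u y = 0) {U : Set ℂ}
    (hU1 : U ⊆ lev u (s / 2)) (hU2 : IsOpen U) (hU5 : π * (1 - 5 * e) ≤ volume.real U)
    (hU4 : ∀ x ∈ thickening (1 - δ) U, ∃ y ∈ sphere x (1 - δ), y ∈ lev u (s / 2)) :
    3 / 16 * γ₀ * e * s ^ 2 ≤ (∫ x, ‖fderiv ℝ u x‖ * (max |u x| 0 * γ |u x|)) -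
        ∫ t in Ioi (0 : ℝ), max t 0 * γ t * (2 * √(π * mu u t)) := by
  have e0 : 0 < e := by rw [he]; positivity
  have e1 : e < 1 / 48 := by rw [he]; nlinarith
  have e5 : 0 < 1 - 5 * e := by linarith
  have t0 : 0 < 1 - δ := by linarith
  have n1 : (1 - 5 * e) ^ 2 ≤ 1 - 5 * e := by nlinarith
  have n2 : 1 + e ≤ (1 + e) ^ 2 := by nlinarith
  have n3 : 3 / 16 * γ₀ * e * s ^ 2 ≤ γ₀ * ((s / 2) ^ 2 / 6) * (24 * e) := by
    have : 0 ≤ γ₀ * e * s ^ 2 := by positivity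
    linarith
  have hUne : U.Nonempty := by
    rcases U.eq_empty_or_nonempty with rfl | h
    · simp only [measureReal_empty] at hU5
      exact absurd (mul_pos pi_pos e5) (not_lt.2 hU5)
    · exact h
  have hb := bm hU2 ((Stab_bdd hc (half_pos s0).le).subset hU1) hUne t0
  have hsq : (1 - 5 * e) * √π ≤ √(volume.real U) := by
    refine Real.le_sqrt_of_sq_le ?_
    rw [mul_pow, Real.sq_sqrt pi_pos.le, mul_comm]
    exact (mul_le_mul_of_nonneg_left n1 pi_pos.le).trans hU5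
  have hZ : π * (1 - 5 * e + (1 - δ)) ^ 2 ≤ volume.real (thickening (1 - δ) U) := by
    refine le_trans ?_ hb
    have e2 : π * (1 - 5 * e + (1 - δ)) ^ 2 = ((1 - 5 * e) * √π + (1 - δ) * √π) ^ 2 := by
      rw [← add_mul, mul_pow, Real.sq_sqrt pi_pos.le, mul_comm]
    rw [e2]
    exact pow_le_pow_left₀ (by positivity) (by linarith) 2
  have hg := Stab_gain1 hu1 hc hγ γ0 hγ₀ (half_pos s0) t0
    (hl.trans (hγ (half_le_self s0.le))) (Z := thickening (1 - δ) U)
    isOpen_thickening.measurableSet (fun x hx => by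
      obtain ⟨y, hy, hy'⟩ := hU4 x hx
      exact ⟨⟨y, hy, le_of_lt hy'⟩, hz x⟩) (pm := 2 * (π * (1 + e))) (by
      refine mul_le_mul_of_nonneg_left (Real.sqrt_le_iff.2 ⟨by positivity, ?_⟩) (by norm_num)
      have : mu u 0 ≤ π * (1 + e) ^ 2 := m0.trans (mul_le_mul_of_nonneg_left n2 pi_pos.le)
      rw [mul_pow, sq π, mul_assoc]
      exact mul_le_mul_of_nonneg_left this pi_pos.le)
  exact (n3.trans (mul_le_mul_of_nonneg_left (Stab_num1 hδ hδ1 he hZ) (by positivity))).trans hg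

theorem Stab_case2 {u : ℂ → ℝ} (hu1 : ContDiff ℝ 1 u) (hc : HasCompactSupport u) {γ : ℝ → ℝ}
    (hγ : Antitone γ) (γ0 : ∀ t, 0 ≤ γ t) {e γ₀ s : ℝ} (e0 : 0 < e) (e1 : e ≤ 1)
    (hγ₀ : 0 < γ₀) (s0 : 0 < s) (hl : γ₀ ≤ γ s)
    (m0 : mu u 0 ≤ π * (1 + e)) (step1 : π * (1 - e) ≤ mu u s) {U : Set ℂ}
    (hU1 : U ⊆ lev u (s / 2)) (hU2 : IsOpen U) (hU3 : IsOpen (lev u (s / 2) \ U))
    (hU4 : 4 * π * e ≤ volume.real U) (hU5 : 4 * π * e ≤ volume.real (lev u (s / 2) \ U)) :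
    3 / 16 * γ₀ * e * s ^ 2 ≤ (∫ x, ‖fderiv ℝ u x‖ * (max |u x| 0 * γ |u x|)) -
        ∫ t in Ioi (0 : ℝ), max t 0 * γ t * (2 * √(π * mu u t)) := by
  have k6 : 3 * e ≤ π * e := mul_le_mul_of_nonneg_right pi_gt_three.le e0.le
  have k5 : π * e ≤ π * 1 := mul_le_mul_of_nonneg_left e1 pi_pos.le
  have hA2 : volume.real (lev u (s / 2)) ≤ π * (1 + e) :=
    (Stab_anti hc le_rfl (half_pos s0).le).trans m0
  obtain ⟨ε₁, hε₁, h2⟩ := Stab_two hu1.continuous hc (a := 3 * s / 4) (half_pos s0).le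
    (by linarith) hU2 hU3
  have hg := Stab_gain2 hu1 hc hγ γ0 hγ₀ (a := 3 * s / 4) (b := s) (by positivity)
    (by linarith) hl e0.le hε₁ (fun ε hε hε' t ht => by
      refine le_trans ?_ (h2 ε hε hε' t ht.1)
      have t0' : 0 ≤ t := by linarith [ht.1]
      have fin : volume (lev u t) ≠ ⊤ := (Stab_bdd hc t0').measure_lt_top.ne
      have finA : volume (lev u (s / 2)) ≠ ⊤ := (Stab_bdd hc (half_pos s0).le).measure_lt_top.ne
      have sum : volume.real (lev u t ∩ U) + volume.real (lev u t \ U) = mu u t :=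
        measureReal_inter_add_sdiff hU2.measurableSet fin
      have sumA : volume.real U + volume.real (lev u (s / 2) \ U) =
          volume.real (lev u (s / 2)) := by
        have := measureReal_inter_add_sdiff (μ := volume) (s := lev u (s / 2))
          hU2.measurableSet finA
        rwa [inter_eq_self_of_subset_right hU1] at this
      have hsub : lev u t ⊆ lev u (s / 2) := fun x hx =>
        lt_of_le_of_lt (show s / 2 ≤ t by linarith [ht.1]) hx
      have k1 : volume.real (lev u t ∩ U) ≤ volume.real U :=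
        measureReal_mono inter_subset_right (measure_ne_top_of_subset hU1 finA)
      have k2 : volume.real (lev u t \ U) ≤ volume.real (lev u (s / 2) \ U) :=
        measureReal_mono (sdiff_subset_sdiff_left hsub)
          (measure_ne_top_of_subset sdiff_subset finA)
      have k3 : π * (1 - e) ≤ mu u t := step1.trans (Stab_anti hc t0' ht.2)
      have k4 : mu u t ≤ π * (1 + e) := (Stab_anti hc le_rfl t0').trans m0
      have hq := Stab_sq (a := volume.real (lev u t ∩ U)) (b := volume.real (lev u t \ U))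
        e0 e1 (by linarith) (by linarith) (by linarith)
      rw [sum] at hq
      have := mul_le_mul_of_nonneg_left hq hε.le
      linarith)
  refine le_trans (le_of_eq ?_) hg
  ring

theorem stab {δ : ℝ} (hδ : 0 < δ) (hδ1 : δ < 1) : ∃ η : ℝ, 0 < η ∧ ∀ Γ : Set ℂ, IsPreconnected Γ →
    volume (Ins Γ) ≤ ENNReal.ofReal (π * (1 + η)) → ∀ u : ℂ → ℝ, Test (Ins Γ) u →
      EE u < jj ^ 2 * (1 + η) * NN u → ∃ O : ℂ, closedBall O (1 - δ) ⊆ Ins Γ := by
  obtain ⟨γ₀, hγ₀, hlow⟩ := om_low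
  obtain ⟨e, he⟩ : ∃ e : ℝ, e = δ ^ 2 / 48 := ⟨_, rfl⟩
  have e0 : 0 < e := by rw [he]; positivity
  have e1 : e < 1 / 48 := by rw [he]; nlinarith
  have n1 : π * (1 - δ) ^ 2 + 4 * π * e ≤ π * (1 - e) := by
    have : (1 - δ) ^ 2 + 4 * e ≤ 1 - e := by rw [he]; nlinarith
    have := mul_le_mul_of_nonneg_left this pi_pos.le
    linarith
  have n2 : 3 * (4 * π * e) ≤ π * (1 - e) := by
    have := mul_le_mul_of_nonneg_left (show 12 * e ≤ 1 - e by linarith) pi_pos.le
    linarith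
  obtain ⟨c2, hc2⟩ : ∃ c2 : ℝ, c2 = (e / 8) ^ 2 / (2 * π) := ⟨_, rfl⟩
  have c0 : 0 < c2 := by rw [hc2]; positivity
  refine ⟨min (e / 4) (3 / 8 * γ₀ * e * c2 / 19), by positivity, fun Γ hΓ hvol u hu hE => ?_⟩
  set η := min (e / 4) (3 / 8 * γ₀ * e * c2 / 19) with hη
  have η0 : 0 < η := by positivity
  have η1 : η ≤ e / 4 := min_le_left _ _
  have η2 : η ≤ 3 / 8 * γ₀ * e * c2 / 19 := min_le_right _ _
  clear_value η
  obtain ⟨hu1, hc, hsupp⟩ := id hu
  have j0 := jj_pos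
  have j2 : 0 < jj ^ 2 := by positivity
  have E0 : 0 ≤ EE u := integral_nonneg fun x => sq_nonneg _
  have N0 : 0 < NN u := by
    by_contra c
    have : jj ^ 2 * (1 + η) * NN u ≤ 0 :=
      mul_nonpos_of_nonneg_of_nonpos (by positivity) (not_lt.1 c)
    linarith
  have m0 : mu u 0 ≤ π * (1 + η) :=
    ENNReal.toReal_le_of_le_ofReal (by positivity)
      ((measure_mono ((Stab_sub le_rfl).trans hsupp)).trans hvol)
  have m1 : mu u 0 ≤ π * (1 + e) := m0.trans (mul_le_mul_of_nonneg_left (by linarith) pi_pos.le)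
  obtain ⟨s, s0, hs⟩ : ∃ s : ℝ, 0 < s ∧ s ^ 2 = c2 * NN u :=
    ⟨√(c2 * NN u), by positivity, Real.sq_sqrt (by positivity)⟩
  have step1 : π * (1 - e) < mu u s :=
    Stab_step1 hu1 hc e0 (by linarith) η0 η1 m0 N0 s0 (hc2 ▸ hs) hE
  by_contra hno
  push Not at hno
  have t0 : 0 < 1 - δ := by linarith
  have hz : ∀ x, ∃ y ∈ sphere x (1 - δ), u y = 0 := by
    intro x
    by_contra c
    push Not at c
    refine hno x (closedBall_subset_Ins hΓ t0 fun z hz => ?_)
    by_contra c'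
    exact c z hz (hu.eq_zero c')
  have h0 : 0 < π * (1 + 2 * η) := by positivity
  have hm : mu u 0 < π * (1 + 2 * η) := m0.trans_lt (mul_lt_mul_of_pos_left (by linarith) pi_pos)
  have hbase := Stab_base hu1 hc le_rfl h0 hm
  obtain ⟨hγ, γ0⟩ := Stab_gam hc le_rfl h0 hm
  have hl : γ₀ ≤ om (π * (1 + 2 * η)) (mu u (max s 0)) := by
    rw [max_eq_left s0.le]
    refine hlow _ _ h0 ?_ ?_ ((Stab_anti hc le_rfl s0.le).trans_lt hm)
    · rw [mul_comm 2 π]
      exact mul_le_mul_of_nonneg_left (by linarith) pi_pos.le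
    · refine le_trans ?_ step1.le
      rw [mul_div_assoc]
      exact mul_le_mul_of_nonneg_left (by linarith) pi_pos.le
  simp only [sub_zero] at hbase
  have hN : ∫ x, (max |u x| 0) ^ 2 = NN u :=
    integral_congr_ae (Eventually.of_forall fun x => by
      simp only [max_eq_left (abs_nonneg (u x)), sq_abs])
  rw [hN] at hbase
  have hA1 : π * (1 - e) ≤ volume.real (lev u (s / 2)) :=
    step1.le.trans (Stab_anti hc (half_pos s0).le (half_le_self s0.le))
  have gain : 3 / 16 * γ₀ * e * s ^ 2 ≤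
      (∫ x, ‖fderiv ℝ u x‖ * (max |u x| 0 * om (π * (1 + 2 * η)) (mu u (max |u x| 0)))) -
        ∫ t in Ioi (0 : ℝ), max t 0 * om (π * (1 + 2 * η)) (mu u (max t 0)) *
          (2 * √(π * mu u t)) := by
    rcases Stab_dich (Stab_open hu1.continuous (s / 2)) (Stab_bdd hc (half_pos s0).le) t0
      (κ := 4 * π * e) (by positivity) (n1.trans hA1) (n2.trans hA1) with
      ⟨U, hU1, hU2, hU3, hU4⟩ | ⟨U, hU1, hU2, hU3, hU4, hU5⟩
    · exact Stab_case1 hu1 hc hγ γ0 hδ hδ1 he hγ₀ s0 hl m1 hz hU1 hU2 (by linarith) hU4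
    · exact Stab_case2 hu1 hc hγ γ0 e0 (by linarith) hγ₀ s0 hl m1 step1.le hU1 hU2 hU3 hU4 hU5
  have f1 : jj ^ 2 * (1 - 2 * η) * NN u ≤ π * jj ^ 2 / (π * (1 + 2 * η)) * NN u := by
    refine mul_le_mul_of_nonneg_right ?_ N0.le
    rw [mul_div_mul_left _ _ pi_pos.ne', le_div_iff₀ (by positivity), mul_assoc]
    exact mul_le_of_le_one_right j2.le (by linarith [sq_nonneg η])
  have f2 : 19 * η * NN u ≤ 2 * (3 / 16 * γ₀ * e * s ^ 2) := by
    rw [hs]
    have := mul_le_mul_of_nonneg_right η2 N0.le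
    linarith
  have f3 : jj ^ 2 ≤ (49 / 20) ^ 2 := pow_le_pow_left₀ j0.le jj_le 2
  have f4 : 0 < η * NN u := by positivity
  have f5 := mul_le_mul_of_nonneg_right f3 f4.le
  linarith

end Pool.Agent.Work.MP_267827_an
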