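import Pool.Agent.Work.MP_267827_an.SumA
import Pool.Agent.Work.MP_267827_an.Area
import Pool.Agent.Work.MP_267827_an.Bot
import Pool.Agent.Work.MP_267827_an.RefN
import Pool.Agent.Work.MP_267827_an.MultE
import Pool.Agent.Work.MP_267827_an.Upper
import Pool.Agent.Work.MP_267827_an.Stab
import Pool.Agent.Work.MP_267827_an.Vis
import Pool.Agent.Work.MP_267827_an.Equal
import Pool.Agent.Work.MP_267827_an.Transfer

/-! The normalised statement for all large `n`. -/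

set_option autoImplicit false

namespace Pool.Agent.Work.MP_267827_an

open MeasureTheory Set Filter Topology Metric Real

theorem main_ang {n : ℕ} (hn : 128 ≤ n) : 0 < cos (π / n) ∧ 0 < (2 : ℝ) / n ∧
    (2 : ℝ) / n ≤ 1 / 64 := by
  have h := Reg_ang (n := n) (by omega)
  have hn' : (128 : ℝ) ≤ n := by exact_mod_cast hn
  refine ⟨cos_pos_of_mem_Ioo ⟨by linarith [h.1, pi_pos], h.2⟩, by positivity, ?_⟩
  rw [div_le_iff₀ (by linarith)]; linarith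

theorem main_vol {n : ℕ} (hn : 128 ≤ n) : 0 < rr n ∧ volume (Ins (Gam (reg n (rr n)))) =
    ENNReal.ofReal (π + n * LL (2 / n) 0 / 2) := by
  obtain ⟨c0, b0, b1⟩ := main_ang hn
  have hn' : (0 : ℝ) < n := by exact_mod_cast (by omega : 0 < n)
  have r0 : 0 < rr n := div_pos (hh_pos b0 (by linarith) (by norm_num)) c0
  refine ⟨r0, ?_⟩
  rw [reg_vol (by omega) r0]
  congr 1
  have t := tri_area b0 b1 (b := 0) (by norm_num)
  have e1 : π * (2 / n + 0) / 2 = π / n := by ring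
  have e2 : π * (2 / n) - π / n = π / n := by ring
  have e3 : 2 * π / n = 2 * (π / n) := by ring
  rw [e1, e2, tan_eq_sin_div_cos] at t
  have : rr n ^ 2 * sin (2 * π / n) = π * (2 / n) + LL (2 / n) 0 := by
    rw [← t, rr, e3, sin_two_mul]; field_simp; ring
  rw [this]; field_simp

theorem main_upper {n : ℕ} (hn : 128 ≤ n) {lam : ℝ} (h : Bot (2 / n) lam) (η : ℝ) (hη : 0 < η) :
    ∃ u : ℂ → ℝ, Test (Ins (Gam (reg n (rr n)))) u ∧ u ≠ 0 ∧ EE u ≤ (lam + η) * NN u := by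
  obtain ⟨-, b0, -⟩ := main_ang hn
  have hn' : (0 : ℝ) < n := by exact_mod_cast (by omega : 0 < n)
  have θ0 : 0 < π * (2 / n) := mul_pos pi_pos b0
  obtain ⟨V, hV, h1, h2⟩ := h.near (η * (π * (2 / n))) (by positivity)
  obtain ⟨A, B, hB, supp⟩ := hV.supp
  obtain ⟨u, t, e1, e2⟩ := upper (by omega : 32 ≤ n) hV.vv.c1 hV.per hB supp
  rw [h1] at e2
  refine ⟨u, t, fun c => ?_, ?_⟩
  · have : NN u = 0 := by simp [c, NN]
    have : 0 < n * (π * (2 / n) * 1) := by positivity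
    linarith
  · simp only [QQ, h1, mul_zero, exp_zero] at h2
    have := mul_le_mul_of_nonneg_left h2 hn'.le
    rw [e1, e2]
    linarith

theorem main_geo {n : ℕ} {v : Fin n → ℂ} {O O₀ : ℂ} {δ s₁ A : ℝ} (δ0 : 0 < δ) (δ1 : 22 * δ ≤ s₁)
    (s1 : s₁ ≤ 1 / 16) (hb : closedBall O₀ (1 - δ) ⊆ Ins (Gam v)) (hO : ‖O - O₀‖ ≤ 10 * δ)
    (hv : volume (Ins (Gam v)) = ENNReal.ofReal A) (hA : A ≤ π * (1 + δ)) :
    O ∈ Ins (Gam v) ∧ volume (Ins (Gam v)) < ENNReal.ofReal (π * exp (2 * s₁)) ∧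
    volume (Ins (Gam v) \ ball O 1) ≤ ENNReal.ofReal (100 * δ) ∧
    ∀ R x : ℝ, 0 < R → O + (R : ℂ) * ei x ∈ Gam v → -s₁ ≤ log R := by
  have sub : ball O (1 - 11 * δ) ⊆ Ins (Gam v) := fun z hz => hb (by
    have := dist_triangle z O O₀
    rw [mem_ball] at hz
    rw [mem_closedBall]
    rw [dist_eq_norm O O₀] at this
    linarith)
  have pi0 := pi_pos
  refine ⟨sub (mem_ball_self (by linarith)), ?_, ?_, fun R x R0 hR => ?_⟩
  · rw [hv, ENNReal.ofReal_lt_ofReal_iff (by positivity)]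
    have := add_one_le_exp (2 * s₁)
    nlinarith
  · have h1 : Ins (Gam v) \ ball O 1 ⊆ Ins (Gam v) \ ball O (1 - 11 * δ) :=
      diff_subset_diff_right (ball_subset_ball (by linarith))
    refine (measure_mono h1).trans ?_
    rw [measure_diff sub measurableSet_ball.nullMeasurableSet measure_ball_lt_top.ne, hv,
      Complex.volume_ball, ← ENNReal.ofReal_pow (by linarith), ← ENNReal.ofReal_coe_nnreal,
      ← ENNReal.ofReal_mul (by positivity), ← ENNReal.ofReal_sub _ (by positivity)]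
    refine ENNReal.ofReal_le_ofReal ?_
    rw [NNReal.coe_real_pi]
    nlinarith [pi_le_four, mul_pos pi0 (mul_pos δ0 δ0)]
  · have h1 : 1 - 11 * δ ≤ R := by
      by_contra c
      refine (sub (a := O + (R : ℂ) * ei x) ?_).1 hR
      simpa [abs_of_pos R0] using not_le.1 c
    rw [le_log_iff_exp_le R0]
    have h2 := add_one_le_exp s₁
    have h3 : exp (-s₁) * exp s₁ = 1 := by rw [← exp_add]; simp
    have h4 := exp_pos (-s₁)
    nlinarith

theorem main_eq {n : ℕ} (hn : 128 ≤ n) {v : Fin n → ℂ} (hv : Simple v) {O : ℂ} {m : ℕ}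
    {ϑ γ h : ℕ → ℝ} {e : ℕ → Fin n} (hA : Arcs v O m ϑ γ h e) {c₁ s₁ : ℝ}
    (h0 : (∑ k ∈ Finset.range m, mg c₁ (2 / n) s₁ (ϑ k) (ϑ (k + 1)) (γ k) (h k)) +
      (n - m) * (2 / n) ^ 4 ≤ 0) :
    Gam v = (fun z => O + ei (ϑ 0) * z) '' Gam (reg n (rr n)) := by
  obtain ⟨c0, b0, b1⟩ := main_ang hn
  have pi0 := pi_pos
  have nn : ∀ k ∈ Finset.range m, 0 ≤ mg c₁ (2 / n) s₁ (ϑ k) (ϑ (k + 1)) (γ k) (h k) :=
    fun k hk => mg_nonneg _ _ _ (hA.mono k (Finset.mem_range.1 hk)).le _ _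
  have p1 := Finset.sum_nonneg nn
  have p2 : (0 : ℝ) ≤ n - m := sub_nonneg.2 (Nat.cast_le.2 hA.le)
  have p3 : (0 : ℝ) < (2 / n) ^ 4 := by positivity
  have p4 := mul_nonneg p2 p3.le
  have mn : m = n := by
    have : (n : ℝ) - m = 0 := (mul_eq_zero.1 (le_antisymm (by linarith) p4)).resolve_right p3.ne'
    exact_mod_cast (by linarith : (m : ℝ) = n)
  have z := (Finset.sum_eq_zero_iff_of_nonneg nn).1 (le_antisymm (by linarith) p1)
  have key : ∀ k, k < m → ϑ (k + 1) = ϑ k + 2 * π / n ∧ γ k = ϑ k + π / n ∧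
      h k = rr n * cos (π / n) := by
    intro k hk
    have z1 := z k (Finset.mem_range.2 hk)
    have θ0 : 0 < ϑ (k + 1) - ϑ k := sub_pos.2 (hA.mono k hk)
    unfold mg at z1
    split_ifs at z1 with g
    swap
    · exact absurd z1 p3.ne'
    set β := (ϑ (k + 1) - ϑ k) / π with hβ
    set b := 2 * (γ k - ϑ k) / π - β with hb
    have β0 : 0 < β := by positivity
    have M0 : 0 < max β (2 / n) := lt_max_of_lt_left β0
    have q1 : 0 ≤ max β (2 / n) ^ 2 * (β - 2 / n) ^ 2 := by positivity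
    have q2 : 0 ≤ β ^ 2 * b ^ 2 := by positivity
    have q3 : 0 ≤ (ϑ (k + 1) - ϑ k) * sc (ϑ k) (ϑ (k + 1)) (γ k) (h k) ^ 2 := by positivity
    unfold Mg at z1
    have r1 : β = 2 / n := by
      have : max β (2 / n) ^ 2 * (β - 2 / n) ^ 2 = 0 := by linarith
      simpa [M0.ne', sub_eq_zero] using this
    have r2 : b = 0 := by
      have : β ^ 2 * b ^ 2 = 0 := by linarith
      simpa [β0.ne'] using this
    have r3 : sc (ϑ k) (ϑ (k + 1)) (γ k) (h k) = 0 := by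
      have : (ϑ (k + 1) - ϑ k) * sc (ϑ k) (ϑ (k + 1)) (γ k) (h k) ^ 2 = 0 := by linarith
      simpa [θ0.ne'] using this
    have H0 : 0 < hh (2 / n) 0 := hh_pos b0 (by linarith) (by norm_num)
    rw [sc, ← hβ, ← hb, r1, r2] at r3
    have r4 := eq_one_of_pos_of_log_eq_zero (div_pos (hA.hpos k hk) H0) r3
    rw [r2, r1] at hb
    rw [r1] at hβ
    refine ⟨?_, ?_, ?_⟩
    · have := (eq_div_iff pi0.ne').1 hβ
      rw [show 2 * π / n = 2 / n * π by ring]; linarith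
    · have := (eq_div_iff pi0.ne').1 (show 2 / (n : ℝ) = 2 * (γ k - ϑ k) / π by linarith)
      rw [show π / n = 2 / n * π / 2 by ring]; linarith
    · rw [rr, div_mul_cancel₀ _ c0.ne']; exact (div_eq_one_iff_eq H0.ne').1 r4
  have pos : ∀ k, k ≤ m → ϑ k = ϑ 0 + 2 * π * k / n := by
    intro k
    induction k with
    | zero => simp
    | succ k ih =>
      intro hk
      rw [(key k hk).1, ih (by omega)]; push_cast; ring
  refine equal_case (by omega) hv O (ϑ 0) (main_vol hn).1 e fun k hk x hx => ?_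
  have hk' : k < m := by omega
  have a1 := pos k hk'.le
  have a2 := pos (k + 1) hk'
  push_cast at a2
  rw [← a1, ← a2] at hx
  rw [← a1, ← (key k hk').2.1, ← (key k hk').2.2]
  exact hA.hit k hk' x hx

theorem main_S {m : ℕ} {ϑ γ h : ℕ → ℝ} (mono : ∀ k, k < m → ϑ k < ϑ (k + 1))
    (per : ϑ m = ϑ 0 + 2 * π) (hpos : ∀ k, k < m → 0 < h k)
    (ang : ∀ k, k < m → ∀ x ∈ Ioo (ϑ k) (ϑ (k + 1)), |x - γ k| < π / 2) {s₁ : ℝ} (s0' : 0 ≤ s₁)
    (low : ∀ k, k < m → ∀ x ∈ Ioo (ϑ k) (ϑ (k + 1)), -s₁ ≤ log (h k / cos (x - γ k))) :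
    (1 - 2 * s₁) * (2 * π) ≤
      ∑ k ∈ Finset.range m, ∫ x in Ioo (ϑ k) (ϑ (k + 1)), exp (2 * s0 s₁ (γ k) (h k) x) := by
  have tel : ∑ k ∈ Finset.range m, (ϑ (k + 1) - ϑ k) = 2 * π := by
    rw [Finset.sum_range_sub, per]; ring
  rw [← tel, Finset.mul_sum]
  refine Finset.sum_le_sum fun k hk => ?_
  have hk' := Finset.mem_range.1 hk
  have i1 : IntegrableOn (fun x => exp (2 * s0 s₁ (γ k) (h k) x)) (Ioo (ϑ k) (ϑ (k + 1))) :=
    sum_int (K := exp (2 * s₁)) (continuousOn_const.mul (s0_cont s₁ (hpos k hk') (ang k hk'))).rexp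
      fun x _ => by
        rw [Real.norm_eq_abs, abs_exp]
        exact exp_le_exp.2 (mul_le_mul_of_nonneg_left (min_le_right _ _) (by norm_num))
  have := setIntegral_mono_on (f := fun _ => 1 - 2 * s₁) (integrableOn_const (by simp)) i1
    measurableSet_Ioo fun x hx => by
      have a1 : -s₁ ≤ s0 s₁ (γ k) (h k) x := le_min (low k hk' x hx) (by linarith)
      linarith [add_one_le_exp (2 * s0 s₁ (γ k) (h k) x)]
  rw [setIntegral_const, smul_eq_mul, Real.volume_real_Ioo_of_le (mono k hk').le] at this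
  linarith

theorem core : ∃ n₀ : ℕ, ∀ n, n₀ ≤ n → CoreC n := by
  obtain ⟨u0, c0, δ₁, h0, h1, hc0, -, hδ₁, -, hray⟩ := ray_ex
  obtain ⟨K, φ, φ', φ'', -, h⟩ := exists_wt h0 h1
  have ray := hray K φ φ' φ'' h
  obtain ⟨K₀, hK₀, eR⟩ := exists_ref h h0 h1
  obtain ⟨K₁, c', hK₁, hc', -, eM⟩ := exists_mult φ hK₀
  obtain ⟨δa, cm, Km, Kb, c₁, cμ, a0, cm0, cm1, Km0, Kb0, c₁0, cμ0, eA⟩ :=
    arc_all h h0 h1 ray hc0 hδ₁ hK₀ hK₁ hc'
  obtain ⟨η, η0, η1, η2, η3⟩ : ∃ η : ℝ, 0 < η ∧ η ≤ c' / 2100 ∧ η ≤ cm / 1400 ∧ η ≤ 1 / 100 :=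
    ⟨min (c' / 2100) (min (cm / 1400) (1 / 100)), by positivity, min_le_left _ _,
      (min_le_right _ _).trans (min_le_left _ _), (min_le_right _ _).trans (min_le_right _ _)⟩
  obtain ⟨δm, m0', eM'⟩ := mom_arc η0
  obtain ⟨s₁, s0', s1, s2, s3⟩ : ∃ s₁ : ℝ, 0 < s₁ ∧ s₁ ≤ δa ∧ s₁ ≤ δm ∧ s₁ ≤ η / 20 :=
    ⟨min δa (min δm (η / 20)), by positivity, min_le_left _ _,
      (min_le_right _ _).trans (min_le_left _ _), (min_le_right _ _).trans (min_le_right _ _)⟩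
  have Mb0 : 0 < Kb / s₁ ^ 2 := by positivity
  obtain ⟨δ₀, d0, d1, d2⟩ : ∃ δ₀ : ℝ, 0 < δ₀ ∧ 22 * δ₀ ≤ s₁ ∧
      8 * (100 * δ₀) + 2 * (Kb / s₁ ^ 2) * √(100 * δ₀) ≤ 1 := by
    generalize Kb / s₁ ^ 2 = M at Mb0
    refine ⟨min (s₁ / 22) ((1 / (4 * (M + 1))) ^ 2 / 100), by positivity,
      by linarith [min_le_left (s₁ / 22) ((1 / (4 * (M + 1))) ^ 2 / 100)], ?_⟩
    have a1 : 100 * min (s₁ / 22) ((1 / (4 * (M + 1))) ^ 2 / 100) ≤ (1 / (4 * (M + 1))) ^ 2 := by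
      linarith [min_le_right (s₁ / 22) ((1 / (4 * (M + 1))) ^ 2 / 100)]
    have a2 := sqrt_le_iff.2 ⟨by positivity, a1⟩
    have a3 : 1 / (4 * (M + 1)) * (4 * (M + 1)) = 1 := by field_simp
    have a4 : 0 < 1 / (4 * (M + 1)) := by positivity
    generalize 1 / (4 * (M + 1)) = w at *
    have a5 : w ≤ 1 / 4 := by nlinarith
    have a6 := mul_le_mul_of_nonneg_left a2 Mb0.le
    nlinarith
  obtain ⟨ηs, ηs0, hst⟩ := stab d0 (by linarith)
  obtain ⟨KL, cL, βm, -, -, βm0, -, hL, -⟩ := lam_est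
  have j0 : 0 < jj ^ 2 := pow_pos jj_pos 2
  have ev : ∀ᶠ n : ℕ in atTop, _ := (show Tendsto (fun n : ℕ => (2 : ℝ) / n) atTop (𝓝[>] 0) from
    tendsto_nhdsWithin_iff.2 ⟨tendsto_const_div_atTop_nhds_zero_nat 2,
      (eventually_gt_atTop 0).mono fun n hn =>
        mem_Ioi.2 (div_pos two_pos (Nat.cast_pos.2 hn))⟩).eventually
    (eR.and (eM.and ((eA s₁ s0' s1).and ((eM' s₁ c₁ s0' s2 c₁0).and ((ev_le βm0).and
      ((ev_small K₀ j0).and (ev_small KL (show 0 < min (η / 10) (min δ₀ ηs) by positivity))))))))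
  obtain ⟨n₀, hn₀⟩ := eventually_atTop.1 (ev.and (eventually_ge_atTop 128))
  refine ⟨n₀, fun n hn' => ?_⟩
  obtain ⟨⟨kR, kM, kA, ⟨m₀, kM'⟩, ⟨b0, b2⟩, k6, k7⟩, hn⟩ := hn₀ n hn'
  obtain ⟨-, -, b1⟩ := main_ang hn
  obtain ⟨r0, vol⟩ := main_vol hn
  obtain ⟨lam, hB⟩ := exists_bot b0 b1
  have n0 : (0 : ℝ) < n := by exact_mod_cast (by omega : 0 < n)
  have pi0 := pi_pos
  have L0 := (hL _ 0 b0 b2 (by norm_num)).2.2
  have L1 : n * LL (2 / n) 0 / 2 ≤ min (η / 10) (min δ₀ ηs) := by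
    have a1 := mul_le_mul_of_nonneg_left L0.2 n0.le
    have a2 : (n : ℝ) * (KL * (2 / n) ^ 4) = 2 * (KL * (2 / n) * (2 / n) ^ 2) := by field_simp
    have a3 : KL * (2 / n) * (2 / n) ^ 2 ≤ min (η / 10) (min δ₀ ηs) * 1 :=
      mul_le_mul k7 (pow_le_one₀ b0.le (by linarith)) (by positivity) (by positivity)
    linarith
  have L2 := L1.trans (min_le_left _ _)
  have L3 := L1.trans ((min_le_right _ _).trans (min_le_left _ _))
  have L4 := L1.trans ((min_le_right _ _).trans (min_le_right _ _))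
  have L5 : 0 ≤ n * LL (2 / n) 0 / 2 := by have := L0.1; positivity
  obtain ⟨v₁, R₁⟩ := kR lam hB 1 one_pos le_rfl
  have l1 := R₁.lam_le
  have l0 : 0 ≤ lam := by
    have a1 : ((2 : ℝ) / n) ^ 3 ≤ (2 / n) ^ 1 := pow_le_pow_of_le_one b0.le (by linarith) (by norm_num)
    have a2 := mul_le_mul_of_nonneg_left a1 (show 0 ≤ K₀ by linarith)
    linarith [R₁.le_lam]
  refine ⟨rr n, lam, r0, main_upper hn hB, fun v hv hvol => ?_⟩
  rw [vol] at hvol
  by_cases far : ∀ u, Test (Ins (Gam v)) u → jj ^ 2 * (1 + ηs) * NN u ≤ EE u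
  · refine Or.inr ⟨jj ^ 2 * ηs, by positivity, fun u hu => le_trans ?_ (far u hu)⟩
    exact mul_le_mul_of_nonneg_right (by linarith) (integral_nonneg fun x => sq_nonneg _)
  push Not at far
  obtain ⟨u₀, t₀, f₀⟩ := far
  obtain ⟨O₀, hO₀⟩ := hst _ (isPreconnected_Gam v)
    (hvol.trans_le (ENNReal.ofReal_le_ofReal (by nlinarith [pi_gt_three]))) u₀ t₀ f₀
  have A1 : π + n * LL (2 / n) 0 / 2 ≤ π * (1 + δ₀) := by nlinarith [pi_gt_three]
  obtain ⟨O, hO, cen⟩ := exists_centroid (isOpen_Ins (isClosed_Gam v)) d0 (by linarith) hO₀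
    (hvol.trans_le (ENNReal.ofReal_le_ofReal A1))
  obtain ⟨g1, g2, g3, g4⟩ := main_geo d0 d1 (by linarith) hO₀ hO hvol A1
  obtain ⟨m, ϑ, γ, hh', e, hA⟩ := exists_arcs (by omega) hv g1
  have hit : ∀ k, k < m → ∀ x ∈ Ioo (ϑ k) (ϑ (k + 1)),
      O + ((hh' k / cos (x - γ k) : ℝ) : ℂ) * ei x ∈ Gam v := fun k hk x hx =>
    edge_subset_Gam v _ (hA.hit k hk x hx)
  have low : ∀ k, k < m → ∀ x ∈ Ioo (ϑ k) (ϑ (k + 1)), -s₁ ≤ log (hh' k / cos (x - γ k)) :=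
    fun k hk x hx => g4 _ x (div_pos (hA.hpos k hk) (cos_pos_of_mem_Ioo
      (abs_lt.1 (hA.ang k hk x hx)))) (hit k hk x hx)
  rcases le_or_gt ((∑ k ∈ Finset.range m, mg c₁ (2 / n) s₁ (ϑ k) (ϑ (k + 1)) (γ k) (hh' k)) +
      (n - m) * (2 / n) ^ 4) 0 with z | z
  · exact Or.inl ⟨O, ϑ 0, main_eq hn hv hA z⟩
  generalize hG : (∑ k ∈ Finset.range m, mg c₁ (2 / n) s₁ (ϑ k) (ϑ (k + 1)) (γ k) (hh' k)) +
      (n - m) * (2 / n) ^ 4 = G at z
  obtain ⟨ε, e0, e1, e2⟩ : ∃ ε : ℝ, 0 < ε ∧ ε ≤ 1 ∧ ε * (8 * π) ≤ cm * G :=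
    ⟨min 1 (cm * G / (8 * π)), by positivity, min_le_left _ _,
      (le_div_iff₀ (by positivity)).1 (min_le_right _ _)⟩
  obtain ⟨μ, μ0, μ1, μ2, μ3⟩ : ∃ μ : ℝ, 0 < μ ∧ μ ≤ 1 ∧ μ ≤ cμ ∧ μ * (8 * π * Km) ≤ cm * G :=
    ⟨min (min 1 cμ) (cm * G / (8 * π * Km)), by positivity,
      (min_le_left _ _).trans (min_le_left _ _), (min_le_left _ _).trans (min_le_right _ _),
      (le_div_iff₀ (by positivity)).1 (min_le_right _ _)⟩
  obtain ⟨w, R⟩ := kR lam hB ε e0 e1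
  obtain ⟨bh, al, K0, M⟩ := kM lam ε w e0.le e1 R
  obtain ⟨ω, hω⟩ := kA lam ε w bh al K0 e0.le e1 R M μ μ0.le μ2
  refine Or.inr ⟨μ, μ0, fun u hu => ?_⟩
  obtain ⟨S1, mom⟩ := area_moment hA (s₁ := s₁) (by linarith) (by positivity) hvol
    (hO.trans (by linarith)) cen
  have S2 := main_S hA.mono hA.per hA.hpos hA.ang s0'.le low
  have tot := mul_nonneg n0.le M.tot
  have et : (n : ℝ) * (-(bh * (π * (2 / n) + LL (2 / n) 0)) + al * (π * (2 / n)) + K0) =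
      -(bh * (2 * (π + n * LL (2 / n) 0 / 2))) + al * (2 * π) + n * K0 := by field_simp
  rw [et] at tot
  obtain ⟨y, hy⟩ := sum_arcs hA.pos hA.le hA.mono hA.per hA.hpos hA.ang
    (fun k hk => hω (Gam v) (isClosed_Gam v) u hu.1 hu.2.1
      (disjoint_left.2 fun z hz hz' => (hu.2.2 hz).1 hz') O _ _ _ _ (hA.mono k hk) (hA.hpos k hk)
      (hA.ang k hk) (low k hk) (hit k hk)) cm0.le η0.le η1 η2 η3 M.bh_low tot
    (M.K0_le.trans (neg_le_neg (mul_le_mul_of_nonneg_right cm1 (by positivity)))) S1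
    (by nlinarith [pi_le_four]) mom
    fun k hk => kM' _ _ _ _ (hA.mono k hk) (hA.hpos k hk) (hA.ang k hk) (low k hk)
  have sp := energy_split hA hu (lam := lam + μ) s0' (by linarith) (by linarith)
    (by linarith [jj_sq_le]) Mb0.le low g2 g3 (by positivity) d2
  rw [hG] at hy
  have p : 0 ≤ y ^ 2 * (cm / 2 * G - (ε + Km * μ) * (2 * π)) :=
    mul_nonneg (sq_nonneg _) (by linarith)
  linarith

end Pool.Agent.Work.MP_267827_an
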