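import Pool.Agent.Work.MP_267827_an.Defs2

/-! Arcs that are not good carry a definite oscillation of the radius. -/

set_option autoImplicit false

namespace Pool.Agent.Work.MP_267827_an

open MeasureTheory Set Filter Topology Metric Real

theorem three_cos {x γ : ℝ} (h : |x - γ| < π / 2) : 0 < cos (x - γ) :=
  cos_pos_of_mem_Ioo ⟨(abs_lt.1 h).1, (abs_lt.1 h).2⟩

theorem s0_cont (s₁ : ℝ) {a a' γ h : ℝ} (hh : 0 < h) (hγ : ∀ x ∈ Ioo a a', |x - γ| < π / 2) :
    ContinuousOn (s0 s₁ γ h) (Ioo a a') := by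
  refine ContinuousOn.inf (f := fun x => log (h / cos (x - γ))) (g := fun _ => s₁) ?_
    continuousOn_const
  exact (continuousOn_const.div (by fun_prop) fun x hx => (three_cos (hγ x hx)).ne').log
    fun x hx => (div_pos hh (three_cos (hγ x hx))).ne'

theorem three_meas (s₁ γ h : ℝ) : Measurable (s0 s₁ γ h) := by
  unfold s0
  fun_prop

theorem In_meas (s₁ a a' γ h : ℝ) : MeasurableSet (In s₁ a a' γ h) :=
  (measurableSet_Ioo.preimage measurable_snd).inter
    (measurableSet_lt measurable_fst ((three_meas s₁ γ h).comp measurable_snd))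

/-- The logarithm of the distance to a line is uniformly convex in the angle. -/
theorem three_mono {h u v : ℝ} (hh : 0 < h) (huv : |u| ≤ |v|) (hv : |v| < π / 2) :
    log (h / cos u) + (v ^ 2 - u ^ 2) / 2 ≤ log (h / cos v) := by
  have cp : ∀ t ∈ Ico 0 (π / 2), 0 < cos t := fun t ht =>
    cos_pos_of_mem_Ioo ⟨by linarith [ht.1, pi_pos], ht.2⟩
  have der : ∀ t ∈ Ico 0 (π / 2),
      HasDerivAt (fun t => -log (cos t) - t ^ 2 / 2) (tan t - t) t := fun t ht => by
    have h1 := ((hasDerivAt_cos t).log (cp t ht).ne').fun_neg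
    have h2 := ((hasDerivAt_id' t).fun_pow 2).div_const 2
    refine (h1.fun_sub h2).congr_deriv ?_
    rw [tan_eq_sin_div_cos]
    norm_num
    ring
  have mono : MonotoneOn (fun t => -log (cos t) - t ^ 2 / 2) (Ico 0 (π / 2)) := by
    refine monotoneOn_of_deriv_nonneg (convex_Ico _ _)
      (fun t ht => (der t ht).continuousAt.continuousWithinAt)
      (fun t ht => (der t (interior_subset ht)).differentiableAt.differentiableWithinAt)
      fun t ht => ?_
    have ht' := interior_subset ht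
    rw [(der t ht').deriv]
    exact sub_nonneg.2 (le_tan ht'.1 ht'.2)
  have hu' : |u| ∈ Ico 0 (π / 2) := ⟨abs_nonneg _, huv.trans_lt hv⟩
  have hv' : |v| ∈ Ico 0 (π / 2) := ⟨abs_nonneg _, hv⟩
  have h1 := mono hu' hv' huv
  have h2 := cp _ hu'
  have h3 := cp _ hv'
  simp only [cos_abs, sq_abs] at h1 h2 h3
  rw [log_div hh.ne' h2.ne', log_div hh.ne' h3.ne']
  linarith

theorem three_mono' {h u v : ℝ} (hh : 0 < h) (huv : |u| ≤ |v|) (hv : |v| < π / 2) :
    log (h / cos u) ≤ log (h / cos v) := by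
  have := three_mono hh huv hv
  have := sq_le_sq.2 huv
  linarith

theorem three_int (s₁ : ℝ) {a a' γ h : ℝ} (hh : 0 < h) (hγ : ∀ x ∈ Ioo a a', |x - γ| < π / 2) :
    IntegrableOn (fun x => s0 s₁ γ h x ^ 2) (Ioo a a') := by
  refine Measure.integrableOn_of_bounded (M := (|log h| + |s₁|) ^ 2) (by simp)
    ((three_meas s₁ γ h).pow_const 2).aestronglyMeasurable ?_
  filter_upwards [ae_restrict_mem measurableSet_Ioo] with x hx
  rw [norm_pow, Real.norm_eq_abs]
  have h1 := three_mono' (u := 0) hh (by simp) (hγ x hx)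
  rw [cos_zero, div_one] at h1
  gcongr
  have a1 := neg_abs_le (log h)
  have a2 := neg_abs_le s₁
  have a3 := le_abs_self s₁
  have a4 := abs_nonneg (log h)
  have a5 := abs_nonneg s₁
  exact abs_le.2 ⟨le_min (by linarith) (by linarith), (min_le_right _ _).trans (by linarith)⟩

theorem three_low (s₁ : ℝ) {a a' γ h : ℝ} (hh : 0 < h) (hγ : ∀ x ∈ Ioo a a', |x - γ| < π / 2)
    {p q c : ℝ} (h1 : a ≤ p) (h2 : p ≤ q) (h3 : q ≤ a') (hc : 0 ≤ c)
    (h4 : ∀ x ∈ Ioo p q, c ≤ |s0 s₁ γ h x|) :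
    (q - p) * c ^ 2 ≤ ∫ x in Ioo a a', s0 s₁ γ h x ^ 2 := by
  have sub : Ioo p q ⊆ Ioo a a' := Ioo_subset_Ioo h1 h3
  have hi := three_int s₁ hh hγ
  calc (q - p) * c ^ 2 = ∫ _ in Ioo p q, c ^ 2 := by
        rw [setIntegral_const, Real.volume_real_Ioo_of_le h2, smul_eq_mul]
    _ ≤ ∫ x in Ioo p q, s0 s₁ γ h x ^ 2 := by
        refine setIntegral_mono_on (by simp) (hi.mono_set sub) measurableSet_Ioo fun x hx => ?_
        rw [← sq_abs (s0 s₁ γ h x)]
        gcongr
        exact h4 x hx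
    _ ≤ _ := setIntegral_mono_set hi (Eventually.of_forall fun x => sq_nonneg _) sub.eventuallyLE

/-- The oscillation of the radius over an arc. -/
theorem three_gap {s₁ a a' γ h : ℝ} (hh : 0 < h) (ha : a < a')
    (hγ : ∀ x ∈ Ioo a a', |x - γ| < π / 2) {m : ℝ} (m0 : 0 ≤ m) (m1 : m ≤ s₁)
    (m2 : m ≤ (a' - a) * (4 * |γ - (a + a') / 2| + (a' - a)) / 32) :
    (a' - a) / 8 * m ^ 2 ≤ ∫ x in Ioo a a', s0 s₁ γ h x ^ 2 := by
  have up : ∀ x, m ≤ log (h / cos (x - γ)) → m ≤ |s0 s₁ γ h x| := fun x hx =>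
    (le_min hx m1).trans (le_abs_self _)
  have dn : ∀ x, log (h / cos (x - γ)) ≤ -m → m ≤ |s0 s₁ γ h x| := fun x hx => by
    have : s0 s₁ γ h x ≤ -m := (min_le_left _ _).trans hx
    linarith [neg_le_abs (s0 s₁ γ h x)]
  obtain ⟨θ, rfl⟩ : ∃ θ, a' = a + 8 * θ := ⟨(a' - a) / 8, by ring⟩
  have θ0 : 0 < θ := by linarith
  have e : (a + 8 * θ - a) / 8 = θ := by ring
  rw [e]
  rcases le_total γ (a + 4 * θ) with c | c
  · rw [abs_of_nonpos (by linarith)] at m2
    have g := three_mono (u := a + 5 * θ - γ) (v := a + 7 * θ - γ) hh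
      (by rw [abs_of_nonneg (by linarith), abs_of_nonneg (by linarith)]; linarith)
      (hγ _ ⟨by linarith, by linarith⟩)
    by_cases c' : m ≤ log (h / cos (a + 7 * θ - γ))
    · have := three_low s₁ hh hγ (p := a + 7 * θ) (q := a + 8 * θ) (by linarith) (by linarith)
        le_rfl m0 fun x hx => up x (c'.trans (three_mono' hh (by
          rw [abs_of_nonneg (by linarith), abs_of_nonneg (by linarith [hx.1])]; linarith [hx.1])
          (hγ x ⟨by linarith [hx.1], hx.2⟩)))
      rwa [show a + 8 * θ - (a + 7 * θ) = θ by ring] at this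
    · have := three_low s₁ hh hγ (p := a + 4 * θ) (q := a + 5 * θ) (by linarith) (by linarith)
        (by linarith) m0 fun x hx => dn x ((three_mono' (v := a + 5 * θ - γ) hh (by
          rw [abs_of_nonneg (by linarith [hx.1]), abs_of_nonneg (by linarith)]; linarith [hx.2])
          (hγ _ ⟨by linarith, by linarith⟩)).trans (by nlinarith))
      rwa [show a + 5 * θ - (a + 4 * θ) = θ by ring] at this
  · rw [abs_of_nonneg (by linarith)] at m2
    have g := three_mono (u := a + 3 * θ - γ) (v := a + θ - γ) hh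
      (by rw [abs_of_nonpos (by linarith), abs_of_nonpos (by linarith)]; linarith)
      (hγ _ ⟨by linarith, by linarith⟩)
    by_cases c' : m ≤ log (h / cos (a + θ - γ))
    · have := three_low s₁ hh hγ (p := a) (q := a + θ) le_rfl (by linarith)
        (by linarith) m0 fun x hx => up x (c'.trans (three_mono' hh (by
          rw [abs_of_nonpos (by linarith), abs_of_nonpos (by linarith [hx.2])]; linarith [hx.2])
          (hγ x ⟨hx.1, by linarith [hx.2]⟩)))
      rwa [show a + θ - a = θ by ring] at this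
    · have := three_low s₁ hh hγ (p := a + 3 * θ) (q := a + 4 * θ) (by linarith) (by linarith)
        (by linarith) m0 fun x hx => dn x ((three_mono' (v := a + 3 * θ - γ) hh (by
          rw [abs_of_nonpos (by linarith [hx.2]), abs_of_nonpos (by linarith)]; linarith [hx.1])
          (hγ _ ⟨by linarith, by linarith⟩)).trans (by nlinarith))
      rwa [show a + 4 * θ - (a + 3 * θ) = θ by ring] at this

theorem three_sq {b t A : ℝ} (t0 : 0 < t) (hA : A ^ 2 * t ≤ 1) (hb : t ≤ b ^ 4) :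
    A * t ≤ b ^ 2 := by
  refine (le_abs_self _).trans (abs_le_of_sq_le_sq ?_ (sq_nonneg b))
  nlinarith

theorem three_point {s₁ c₁ : ℝ} (hs : 0 < s₁) (hc : 0 < c₁) (K : ℝ) :
    ∀ᶠ β₀ in 𝓝[>] (0 : ℝ), ∀ a a' γ h : ℝ, 0 < h → c₁ * β₀ ≤ (a' - a) / π →
      (∀ x ∈ Ioo a a', |x - γ| < π / 2) →
      ((((a' - a) / π) ^ 2 ≤ β₀ ∧ (2 * (γ - a) / π - (a' - a) / π) ^ 4 ≤ β₀ ∧
          ∀ x ∈ Ioo a a', log (h / cos (x - γ)) ≤ s₁) ∨
        K * β₀ ^ 3 * (a' - a) ≤ ∫ x in Ioo a a', s0 s₁ γ h x ^ 2) := by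
  have hκ : 0 < 1 - exp (-(s₁ / 2)) := by
    have : exp (-(s₁ / 2)) < 1 := exp_lt_one_iff.2 (by linarith)
    linarith
  set κ := 1 - exp (-(s₁ / 2)) with hκd
  have K0 := abs_nonneg K
  filter_upwards [ev_le one_pos, ev_small (8 * |K|) (pow_pos hs 2), ev_small 16 hκ,
    ev_le (pow_pos (div_pos hκ (by norm_num : (0 : ℝ) < 16)) 2), ev_small (4 * |K|) (pow_pos hs 2),
    ev_small (128 * |K|) one_pos, ev_small ((128 * |K| / c₁ ^ 2) ^ 2) one_pos]
    with t ⟨t0, t1⟩ e1 e2 ⟨_, e3⟩ e4 e5 e6 a a' γ h hh hl hγ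
  have p0 := pi_pos
  have p3 := pi_gt_three
  have p4 := pi_le_four
  set β := (a' - a) / π with hβ
  set b := 2 * (γ - a) / π - β with hb
  have β0 : 0 < β := lt_of_lt_of_le (by positivity) hl
  have eθ : a' - a = π * β := by rw [hβ]; field_simp
  have θ0 : 0 < a' - a := by rw [eθ]; positivity
  have eb : γ - (a + a') / 2 = π * b / 2 := by rw [hb, hβ]; field_simp; ring
  have t3 : t ^ 3 ≤ t := by nlinarith [mul_pos t0 t0]
  have fin : ∀ X : ℝ, |K| * t ^ 3 ≤ X → (a' - a) * X ≤ ∫ x in Ioo a a', s0 s₁ γ h x ^ 2 →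
      K * t ^ 3 * (a' - a) ≤ ∫ x in Ioo a a', s0 s₁ γ h x ^ 2 := fun X h1 h2 => by
    refine le_trans ?_ h2
    rw [mul_comm]
    gcongr
    exact le_trans (by gcongr; exact le_abs_self K) h1
  have gap : ∀ m : ℝ, 0 ≤ m → 8 * (|K| * t ^ 3) ≤ m ^ 2 →
      m ≤ π * β * (2 * π * |b| + π * β) / 32 →
      K * t ^ 3 * (a' - a) ≤ ∫ x in Ioo a a', s0 s₁ γ h x ^ 2 := fun m m0 m1 m2 => by
    have g := three_gap hh (sub_pos.1 θ0) hγ (m := min m s₁) (le_min m0 hs.le)
      (min_le_right _ _) ((min_le_left _ _).trans (m2.trans_eq (by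
        rw [eb, eθ, abs_div, abs_mul, abs_of_pos p0, abs_two]; ring)))
    refine fin (min m s₁ ^ 2 / 8) ?_ (le_of_eq_of_le (by ring) g)
    rcases min_choice m s₁ with e | e <;> rw [e]
    · linarith
    · have : |K| * t ^ 3 ≤ |K| * t := by gcongr
      linarith
  have b0 := abs_nonneg b
  have pp : 8 ≤ π * π := by nlinarith
  by_cases c1 : β ^ 2 ≤ t
  · by_cases c2 : b ^ 4 ≤ t
    · by_cases c3 : ∀ x ∈ Ioo a a', log (h / cos (x - γ)) ≤ s₁
      · exact Or.inl ⟨c1, c2, c3⟩
      right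
      simp only [not_forall, not_le] at c3
      obtain ⟨x, hx, c3⟩ := c3
      have b2 : b ^ 2 ≤ κ / 16 := by
        refine (le_abs_self _).trans (abs_le_of_sq_le_sq ?_ (by positivity))
        nlinarith
      have u1 : |x - γ| ≤ 2 * (β + |b|) := by
        have a1 := le_abs_self b
        have a2 := neg_abs_le b
        have a3 : π * β ≤ 4 * β := by gcongr
        have a4 : π * |b| ≤ 4 * |b| := by gcongr
        have a5 : π * b ≤ π * |b| := by gcongr
        have a6 : π * -|b| ≤ π * b := by gcongr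
        exact abs_le.2 ⟨by linarith [hx.1], by linarith [hx.2]⟩
      have u2 : (x - γ) ^ 2 ≤ κ := by
        rw [← sq_abs]
        calc _ ≤ (2 * (β + |b|)) ^ 2 := by gcongr
          _ ≤ 8 * β ^ 2 + 8 * |b| ^ 2 := by nlinarith [sq_nonneg (β - |b|)]
          _ ≤ κ := by rw [sq_abs]; linarith
      have u3 : exp (-(s₁ / 2)) ≤ cos (x - γ) := by
        linarith [one_sub_sq_div_two_le_cos (x := x - γ)]
      have u4 : -(s₁ / 2) ≤ log (cos (x - γ)) := (le_log_iff_exp_le (three_cos (hγ x hx))).2 u3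
      rw [log_div hh.ne' (three_cos (hγ x hx)).ne'] at c3
      refine fin ((s₁ / 2) ^ 2) ?_ (three_low s₁ hh hγ le_rfl (sub_pos.1 θ0).le le_rfl
        (by positivity) fun y hy => le_trans (le_min ?_ (by linarith)) (le_abs_self _))
      · have : |K| * t ^ 3 ≤ |K| * t := by gcongr
        linarith
      · have h1 := three_mono' (u := 0) hh (by simp) (hγ y hy)
        rw [cos_zero, div_one] at h1
        linarith
    · right
      have h1 := three_sq t0 e6 (not_le.1 c2).le
      refine gap (c₁ * t * |b| / 4) (by positivity) ?_ ?_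
      · rw [div_mul_eq_mul_div, div_le_iff₀ (by positivity)] at h1
        have h2 := mul_le_mul_of_nonneg_left h1 (sq_nonneg t)
        rw [div_pow, mul_pow, sq_abs]
        nlinarith
      · have h2 : c₁ * t * |b| ≤ β * |b| := by gcongr
        have h3 : 8 * (β * |b|) ≤ π * π * (β * |b|) := by gcongr
        have h4 : 0 ≤ π * π * β ^ 2 := by positivity
        have h5 : 0 ≤ β * |b| := by positivity
        nlinarith
  · right
    have c1' := (not_le.1 c1).le
    refine gap (t / 4) (by positivity) ?_ ?_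
    · have h2 := mul_le_mul_of_nonneg_left e5 (sq_nonneg t)
      nlinarith
    · have h3 : 8 * β ^ 2 ≤ π * π * β ^ 2 := by gcongr
      have h4 : 0 ≤ π * π * (β * |b|) := by positivity
      nlinarith

end Pool.Agent.Work.MP_267827_an
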