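import Pool.Agent.Work.MP_267827_an.Lam
import Pool.Agent.Work.MP_267827_an.Three

/-! Area and first moment of a good triangle. -/

set_option autoImplicit false

namespace Pool.Agent.Work.MP_267827_an

open MeasureTheory Set Filter Topology Metric Real

theorem Moment_cos_pos {z : ℝ} (hz : |z| ≤ 1 / 10) : 0 < cos z := by
  have := pi_gt_three
  have := abs_le.1 hz
  exact cos_pos_of_mem_Ioo ⟨by linarith, by linarith⟩

theorem Moment_tan_bd {z : ℝ} (h0 : 0 ≤ z) (hz : z ≤ 1 / 10) : z ≤ tan z ∧ tan z ≤ z + z ^ 3 := by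
  have hp := pi_gt_three
  refine ⟨le_tan h0 (by linarith), ?_⟩
  have hc := Moment_cos_pos (z := z) (by rw [abs_of_nonneg h0]; exact hz)
  rw [tan_eq_sin_div_cos, div_le_iff₀ hc]
  have h1 := sin_le h0
  have h2 : 1 - z ^ 2 / 2 ≤ cos z := one_sub_sq_div_two_le_cos
  have h3 : (z + z ^ 3) * (1 - z ^ 2 / 2) ≤ (z + z ^ 3) * cos z :=
    mul_le_mul_of_nonneg_left h2 (by positivity)
  have h4 : z ^ 2 ≤ 1 := by nlinarith
  have h5 : 0 ≤ z ^ 3 * (1 - z ^ 2) := mul_nonneg (by positivity) (by linarith)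
  nlinarith

theorem Moment_abs_tan {y z : ℝ} (hy : |y| ≤ z) (hz : z ≤ 1 / 10) : |tan y| ≤ tan z := by
  have hp := pi_gt_three
  have h := abs_le.1 hy
  have h0 := (abs_nonneg y).trans hy
  rw [abs_le, ← tan_neg]
  exact ⟨strictMonoOn_tan.monotoneOn ⟨by linarith, by linarith⟩ ⟨by linarith, by linarith⟩ h.1,
    strictMonoOn_tan.monotoneOn ⟨by linarith, by linarith⟩ ⟨by linarith, by linarith⟩ h.2⟩

theorem Moment_tan_sub {x y : ℝ} (hx : cos x ≠ 0) (hy : cos y ≠ 0) (hxy : cos (x - y) ≠ 0) :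
    tan (x - y) * (1 + tan x * tan y) = tan x - tan y := by
  rw [tan_eq_sin_div_cos, tan_eq_sin_div_cos, tan_eq_sin_div_cos, sin_sub]
  field_simp
  rw [cos_sub]; ring

theorem Moment_sq_cos {y : ℝ} (hy : cos y ≠ 0) : cos y ^ 2 * (1 + tan y ^ 2) = 1 := by
  rw [tan_eq_sin_div_cos]
  field_simp
  exact cos_sq_add_sin_sq y

/-- the exact formula for the squared radius -/
theorem Moment_formula {z e y H A : ℝ} (hz : |z| ≤ 1 / 20) (he : |e| ≤ 1 / 20) (hy : |y| ≤ 1 / 20)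
    (h : H ^ 2 * (tan (z + e) + tan (z - e)) = A) :
    (H / cos (y - e)) ^ 2 * (2 * tan z * (1 + tan y * tan e) ^ 2) =
      A * (1 + tan y ^ 2) * (1 - tan z ^ 2 * tan e ^ 2) := by
  have hz' := abs_le.1 hz
  have he' := abs_le.1 he
  have hy' := abs_le.1 hy
  have c1 := (Moment_cos_pos (z := z) (by linarith)).ne'
  have c2 := (Moment_cos_pos (z := e) (by linarith)).ne'
  have c3 := (Moment_cos_pos (z := y) (by linarith)).ne'
  have c4 := (Moment_cos_pos (z := z + e) (abs_le.2 ⟨by linarith, by linarith⟩)).ne'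
  have c5 := (Moment_cos_pos (z := z - e) (abs_le.2 ⟨by linarith, by linarith⟩)).ne'
  have c6 := (Moment_cos_pos (z := y - e) (abs_le.2 ⟨by linarith, by linarith⟩)).ne'
  have t1 := Moment_tan_sub c1 c2 c5
  have t2 := Moment_tan_sub (x := z) (y := -e) c1 (by rwa [cos_neg]) (by rwa [sub_neg_eq_add])
  rw [sub_neg_eq_add, tan_neg] at t2
  have t3 : cos (y - e) = cos y * cos e * (1 + tan y * tan e) := by
    rw [tan_eq_sin_div_cos, tan_eq_sin_div_cos, cos_sub]; field_simp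
  have t4 := Moment_sq_cos c2
  have t5 := Moment_sq_cos c3
  have t6 : (tan (z + e) + tan (z - e)) * (1 - tan z ^ 2 * tan e ^ 2) =
      2 * tan z * (1 + tan e ^ 2) := by
    linear_combination (1 + tan z * tan e) * t2 + (1 - tan z * tan e) * t1
  have t7 : 1 + tan y * tan e ≠ 0 := fun h0 => c6 (by rw [t3, h0, mul_zero])
  have t8 : (H / cos (y - e)) ^ 2 * (1 + tan y * tan e) ^ 2 =
      H ^ 2 * (1 + tan y ^ 2) * (1 + tan e ^ 2) := by
    rw [t3]
    field_simp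
    linear_combination (-H ^ 2 * cos y ^ 2 * (1 + tan y ^ 2)) * t4 - H ^ 2 * t5
  rw [← h]
  linear_combination (2 * tan z) * t8 - H ^ 2 * (1 + tan y ^ 2) * t6

theorem Moment_alg {K β B t u τ P D S : ℝ} (hK : 1 ≤ K) (hβ : 0 < β) (hβ1 : β ≤ 1 / 64)
    (hB : 0 ≤ B) (hB1 : B ≤ 1 / 64) (hKβ : K * β ≤ 1) (ht : |t| ≤ 3 * β) (hu : |u| ≤ 3 * β)
    (hτ : |τ| ≤ 3 * B) (hP : |P - 1| ≤ 9 * β ^ 2) (hD0 : 0 ≤ D) (hD : D ≤ K * (β * B))
    (hS : S * (1 + u * τ) ^ 2 = (P + D) * (1 + u ^ 2) * (1 - t ^ 2 * τ ^ 2)) :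
    |S - P * (1 + u ^ 2)| ≤ 76 * K * (β * B) ∧ |P * (1 + u ^ 2) - 1| ≤ 27 * β ^ 2 := by
  have hδ : 0 ≤ β * B := by positivity
  have hδ1 : β * B ≤ 1 / 4096 := by nlinarith
  have hw : |u * τ| ≤ 9 * (β * B) := by
    rw [abs_mul]
    have := mul_le_mul hu hτ (abs_nonneg _) (by positivity)
    linarith
  have hv : |t * τ| ≤ 9 * (β * B) := by
    rw [abs_mul]
    have := mul_le_mul ht hτ (abs_nonneg _) (by positivity)
    linarith
  have hu2 : u ^ 2 ≤ 9 * β ^ 2 := by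
    have := pow_le_pow_left₀ (abs_nonneg _) hu 2
    rw [sq_abs] at this; linarith
  have hβ2 : β ^ 2 ≤ 1 / 4096 := by nlinarith
  have hP' := abs_le.1 hP
  have hD1 : D ≤ 1 / 64 := by nlinarith
  have hKδ : β * B ≤ K * (β * B) := by nlinarith
  have hu0 : 0 ≤ u ^ 2 := sq_nonneg u
  constructor
  · have e : t ^ 2 * τ ^ 2 = (t * τ) ^ 2 := by ring
    rw [e] at hS
    generalize u * τ = w at hw hS
    generalize t * τ = v at hv hS
    generalize β * B = δ at *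
    have hw' := abs_le.1 hw
    have hv2 : v ^ 2 ≤ δ / 40 := by
      have := pow_le_pow_left₀ (abs_nonneg _) hv 2
      rw [sq_abs] at this; nlinarith
    have hw2 : w ^ 2 ≤ δ / 40 := by
      have := pow_le_pow_left₀ (abs_nonneg _) hw 2
      rw [sq_abs] at this; nlinarith
    have hq : 9 / 10 ≤ (1 + w) ^ 2 := by nlinarith
    have e2 : (S - P * (1 + u ^ 2)) * (1 + w) ^ 2 =
        (1 + u ^ 2) * (D - (P + D) * v ^ 2 - P * (2 * w + w ^ 2)) := by
      linear_combination hS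
    have b1 : |D - (P + D) * v ^ 2 - P * (2 * w + w ^ 2)| ≤ 38 * (K * δ) := by
      have v0 := sq_nonneg v
      have w0 := sq_nonneg w
      have a1 : (P + D) * v ^ 2 ≤ 2 * (δ / 40) := mul_le_mul (by linarith) hv2 v0 (by norm_num)
      have a2 : 0 ≤ (P + D) * v ^ 2 := mul_nonneg (by linarith) v0
      have a3 : |P * (2 * w + w ^ 2)| ≤ 2 * (18 * δ + δ / 40) := by
        rw [abs_mul]
        exact mul_le_mul (abs_le.2 ⟨by linarith, by linarith⟩)
          (abs_le.2 ⟨by linarith, by linarith⟩) (abs_nonneg _) (by norm_num)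
      have a4 := abs_le.1 a3
      exact abs_le.2 ⟨by linarith, by linarith⟩
    have b2 : |S - P * (1 + u ^ 2)| * (1 + w) ^ 2 ≤ 11 / 10 * (38 * (K * δ)) := by
      rw [← abs_of_nonneg (sq_nonneg (1 + w)), ← abs_mul, e2, abs_mul]
      exact mul_le_mul (abs_le.2 ⟨by linarith, by linarith⟩) b1 (abs_nonneg _) (by norm_num)
    have b3 := mul_le_mul_of_nonneg_left hq (abs_nonneg (S - P * (1 + u ^ 2)))
    linarith
  · have a1 : P * u ^ 2 ≤ 2 * (9 * β ^ 2) := mul_le_mul (by linarith) hu2 hu0 (by norm_num)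
    have a2 : 0 ≤ P * u ^ 2 := mul_nonneg (by linarith) hu0
    exact abs_le.2 ⟨by linarith, by linarith⟩

theorem Moment_z {β : ℝ} (hβ : 0 < β) (hβ1 : β ≤ 1 / 64) :
    β ≤ π * β / 2 ∧ π * β / 2 ≤ 2 * β ∧ π * β / 2 ≤ tan (π * β / 2) ∧
      tan (π * β / 2) ≤ π * β / 2 + 8 * β ^ 3 ∧ tan (π * β / 2) ≤ 3 * β := by
  have h3 := pi_gt_three
  have h4 := pi_lt_four
  have a1 : β ≤ π * β / 2 := by nlinarith
  have a2 : π * β / 2 ≤ 2 * β := by nlinarith
  have a3 := Moment_tan_bd (z := π * β / 2) (by positivity) (by linarith)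
  have a4 : (π * β / 2) ^ 3 ≤ (2 * β) ^ 3 := pow_le_pow_left₀ (by positivity) a2 3
  have a5 : β ^ 3 ≤ β / 8 := by
    have : β ^ 2 ≤ 1 / 8 := by nlinarith
    nlinarith
  exact ⟨a1, a2, a3.1, by linarith [a3.2], by linarith [a3.2]⟩

theorem Moment_P {K β L : ℝ} (hβ : 0 < β) (hβ1 : β ≤ 1 / 64) (hKβ : K * β ≤ 1) (hL0 : 0 ≤ L)
    (hL : L ≤ K * β ^ 4) : |(π * β + L) / (2 * tan (π * β / 2)) - 1| ≤ 9 * β ^ 2 := by
  obtain ⟨a1, a2, a3, a4, a5⟩ := Moment_z hβ hβ1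
  have t0 : 0 < 2 * tan (π * β / 2) := by linarith
  have hL3 : L ≤ β ^ 3 := by
    have := mul_le_mul_of_nonneg_right hKβ (show 0 ≤ β ^ 3 by positivity)
    nlinarith
  rw [div_sub_one t0.ne', abs_div, abs_of_pos t0, div_le_iff₀ t0]
  have b1 : 9 * β ^ 2 * (2 * β) ≤ 9 * β ^ 2 * (2 * tan (π * β / 2)) :=
    mul_le_mul_of_nonneg_left (by linarith) (by positivity)
  have b2 : 0 ≤ β ^ 3 := by positivity
  exact abs_le.2 ⟨by nlinarith, by nlinarith⟩

theorem Moment_hh0 {β : ℝ} (hβ : 0 < β) (hβ1 : β ≤ 1 / 64) :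
    hh β 0 ^ 2 = (π * β + LL β 0) / (2 * tan (π * β / 2)) := by
  obtain ⟨a1, a2, a3, a4, a5⟩ := Moment_z hβ hβ1
  have t0 : 0 < 2 * tan (π * β / 2) := by linarith
  have := tri_area (b := 0) hβ hβ1 (by simp)
  rw [add_zero, show π * β - π * β / 2 = π * β / 2 by ring] at this
  rw [eq_div_iff t0.ne']
  linarith

/-- the two radii -/
theorem Moment_R {K β b y : ℝ} (hK : 1 ≤ K) (hβ : 0 < β) (hβ1 : β ≤ 1 / 64) (hb : |b| ≤ 1 / 64)
    (hKβ : K * β ≤ 1) (h1 : LL β 0 ≤ LL β b) (h2 : LL β b ≤ LL β 0 + K * (β ^ 2 * b ^ 2))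
    (h3 : 0 ≤ LL β 0) (h4 : LL β 0 ≤ K * β ^ 4) (hy : |y| ≤ π * β / 2) :
    |(hh β b / cos (y - π * b / 2)) ^ 2 - (hh β 0 / cos y) ^ 2| ≤ 76 * K * (β * |b|) ∧
      |(hh β 0 / cos y) ^ 2 - 1| ≤ 27 * β ^ 2 := by
  obtain ⟨a1, a2, a3, a4, a5⟩ := Moment_z hβ hβ1
  have p3 := pi_gt_three
  have p4 := pi_lt_four
  have t0 : 0 < 2 * tan (π * β / 2) := by linarith
  have b0 := abs_nonneg b
  have he : |π * b / 2| ≤ 2 * |b| := by
    rw [abs_div, abs_mul, abs_of_pos pi_pos, abs_two]; nlinarith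
  have hA := tri_area hβ hβ1 hb
  rw [show π * β - π * (β + b) / 2 = π * β / 2 - π * b / 2 by ring,
    show π * (β + b) / 2 = π * β / 2 + π * b / 2 by ring] at hA
  have hF := Moment_formula (y := y) (by rw [abs_of_pos (by positivity)]; linarith) (by linarith)
    (by linarith) hA
  have hτ : |tan (π * b / 2)| ≤ 3 * |b| := by
    have q1 := Moment_abs_tan he (by linarith)
    have q2 := (Moment_tan_bd (z := 2 * |b|) (by positivity) (by linarith)).2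
    have q3 : (2 * |b|) ^ 2 ≤ 1 / 2 := by nlinarith
    nlinarith
  have hu : |tan y| ≤ 3 * β := (Moment_abs_tan hy (by linarith)).trans a5
  have cy := (Moment_cos_pos (z := y) (by linarith)).ne'
  have e0 : (hh β 0 / cos y) ^ 2 = (π * β + LL β 0) / (2 * tan (π * β / 2)) * (1 + tan y ^ 2) := by
    rw [div_pow, Moment_hh0 hβ hβ1, div_eq_iff (pow_ne_zero 2 cy)]
    linear_combination (-((π * β + LL β 0) / (2 * tan (π * β / 2)))) * Moment_sq_cos cy
  rw [e0]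
  refine Moment_alg (t := tan (π * β / 2)) (τ := tan (π * b / 2))
    (D := (LL β b - LL β 0) / (2 * tan (π * β / 2))) hK hβ hβ1 b0 hb hKβ
    (by rw [abs_of_pos (by linarith)]; exact a5) hu hτ (Moment_P hβ hβ1 hKβ h3 h4)
    (div_nonneg (by linarith) t0.le) ?_ ?_
  · rw [div_le_iff₀ t0]
    have q1 : b ^ 2 ≤ |b| := by rw [← sq_abs]; nlinarith
    have q2 : K * (β ^ 2 * b ^ 2) ≤ K * (β ^ 2 * |b|) := by gcongr
    have q3 : K * (β * |b|) * β ≤ K * (β * |b|) * (2 * tan (π * β / 2)) :=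
      mul_le_mul_of_nonneg_left (by linarith) (by positivity)
    nlinarith
  · rw [← add_div, div_mul_eq_mul_div, div_mul_eq_mul_div, eq_div_iff t0.ne']
    linear_combination hF

theorem Moment_ev (K βm : ℝ) (hK : 0 < K) (hm : 0 < βm) : ∀ᶠ β₀ in 𝓝[>] (0 : ℝ),
    0 < β₀ ∧ β₀ ≤ βm ∧ K * β₀ ≤ 1 ∧ ∀ β b : ℝ, 0 < β → β ^ 2 ≤ β₀ → b ^ 4 ≤ β₀ →
      β ≤ βm ∧ K * β ≤ 1 ∧ |b| ≤ 1 / 64 := by
  have h1 : ∀ ε : ℝ, 0 < ε → ∀ᶠ β₀ in 𝓝[>] (0 : ℝ), β₀ ≤ ε := fun ε hε =>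
    mem_nhdsWithin_of_mem_nhds (Iic_mem_nhds hε)
  filter_upwards [self_mem_nhdsWithin, h1 βm hm, h1 (βm ^ 2) (by positivity), h1 K⁻¹ (by positivity),
    h1 (K⁻¹ ^ 2) (by positivity), h1 ((1 / 64) ^ 4) (by positivity)] with β₀ a0 a1 a2 a3 a4 a5
  have k : ∀ x : ℝ, x ≤ K⁻¹ → K * x ≤ 1 := fun x hx => by
    have := mul_le_mul_of_nonneg_left hx hK.le
    rwa [mul_inv_cancel₀ hK.ne'] at this
  refine ⟨a0, a1, k _ a3, fun β b hβ h2 h4 => ⟨?_, k _ ?_, ?_⟩⟩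
  · exact le_of_pow_le_pow_left₀ two_ne_zero hm.le (h2.trans a2)
  · exact le_of_pow_le_pow_left₀ two_ne_zero (by positivity) (h2.trans a4)
  · have : |b| ^ 4 ≤ (1 / 64) ^ 4 := by
      rw [show |b| ^ 4 = b ^ 4 from Even.pow_abs (by decide) b]; exact h4.trans a5
    exact le_of_pow_le_pow_left₀ (by norm_num) (by norm_num) this

theorem Moment_tan_lip {z z₀ : ℝ} (h0 : 0 ≤ z) (h : z ≤ z₀) (h1 : z₀ ≤ 1 / 20) :
    0 ≤ tan z₀ - tan z - (z₀ - z) ∧ tan z₀ - tan z - (z₀ - z) ≤ 9 * z₀ ^ 2 * (z₀ - z) := by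
  have hd : 0 ≤ z₀ - z := by linarith
  have c1 := (Moment_cos_pos (z := z₀) (abs_le.2 ⟨by linarith, by linarith⟩)).ne'
  have c2 := (Moment_cos_pos (z := z) (abs_le.2 ⟨by linarith, by linarith⟩)).ne'
  have c3 := (Moment_cos_pos (z := z₀ - z) (abs_le.2 ⟨by linarith, by linarith⟩)).ne'
  have e := Moment_tan_sub c1 c2 c3
  have a := Moment_tan_bd hd (by linarith)
  have b := Moment_tan_bd h0 (by linarith)
  have c := Moment_tan_bd (h0.trans h) (by linarith)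
  have z0 := h0.trans h
  have q : ∀ x : ℝ, 0 ≤ x → x ≤ 1 / 20 → x ^ 3 ≤ x := fun x x0 x1 => by
    have : x ^ 2 ≤ 1 := by nlinarith
    nlinarith
  have b' : tan z ≤ 2 * z₀ := by linarith [q z h0 (by linarith)]
  have c' : tan z₀ ≤ 2 * z₀ := by linarith [q z₀ z0 h1]
  have a' : tan (z₀ - z) ≤ 2 * (z₀ - z) := by linarith [q _ hd (by linarith)]
  have p0 : 0 ≤ tan z₀ * tan z := mul_nonneg (by linarith) (by linarith)
  have p1 : tan z₀ * tan z ≤ 2 * z₀ * (2 * z₀) := mul_le_mul c' b' (by linarith) (by linarith)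
  have p2 : tan (z₀ - z) * (tan z₀ * tan z) ≤ 2 * (z₀ - z) * (2 * z₀ * (2 * z₀)) :=
    mul_le_mul a' p1 p0 (by linarith)
  have p3 : 0 ≤ tan (z₀ - z) * (tan z₀ * tan z) := mul_nonneg (by linarith) p0
  have p4 : (z₀ - z) ^ 3 ≤ z₀ ^ 2 * (z₀ - z) := by
    have : (z₀ - z) ^ 2 ≤ z₀ ^ 2 := pow_le_pow_left₀ hd (by linarith) 2
    nlinarith
  constructor <;> nlinarith

theorem Moment_Plip {K β β₀ L L₀ : ℝ} (hK : 1 ≤ K) (hβ : 0 < β) (h : β ≤ β₀) (h1 : β₀ ≤ 1 / 64)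
    (hL0 : 0 ≤ L) (hL : L ≤ K * β ^ 4) (hLL : |L - L₀| ≤ K * (β₀ ^ 3 * (β₀ - β))) :
    |(π * β + L) / (2 * tan (π * β / 2)) - (π * β₀ + L₀) / (2 * tan (π * β₀ / 2))| ≤
      50 * K * (β₀ * (β₀ - β)) ∧
    |tan (π * β / 2) ^ 2 - tan (π * β₀ / 2) ^ 2| ≤ 24 * (β₀ * (β₀ - β)) := by
  have hβ₀ := hβ.trans_le h
  obtain ⟨a1, a2, a3, a4, a5⟩ := Moment_z hβ (h.trans h1)
  obtain ⟨b1, b2, b3, b4, b5⟩ := Moment_z hβ₀ h1
  have p3 := pi_gt_three
  have p4 := pi_lt_four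
  have hd : 0 ≤ β₀ - β := by linarith
  have d0 : 0 ≤ π * β₀ / 2 - π * β / 2 := by nlinarith
  have d1 : π * β₀ / 2 - π * β / 2 ≤ 2 * (β₀ - β) := by nlinarith
  have r := Moment_tan_lip (z := π * β / 2) (z₀ := π * β₀ / 2) (by linarith) (by linarith)
    (by linarith)
  have r1 := (Moment_tan_bd (z := π * β / 2) (by linarith) (by linarith)).2
  rw [show π * β + L = 2 * (π * β / 2) + L by ring,
    show π * β₀ + L₀ = 2 * (π * β₀ / 2) + L₀ by ring]
  generalize π * β / 2 = z at *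
  generalize π * β₀ / 2 = z₀ at *
  generalize tan z = t at *
  generalize tan z₀ = t₀ at *
  generalize hδ : β₀ - β = δ at *
  have z0 : 0 < z := by linarith
  have t0 : 0 < t := by linarith
  have t1 : 0 < t₀ := by linarith
  have zz : z ≤ z₀ := by linarith
  have q0 : z₀ ^ 2 ≤ (2 * β₀) ^ 2 := pow_le_pow_left₀ (by linarith) b2 2
  have q1 : 9 * z₀ ^ 2 * (z₀ - z) ≤ z₀ - z := by
    have : 9 * z₀ ^ 2 ≤ 1 := by nlinarith
    nlinarith
  have tt0 : 0 ≤ t₀ - t := by linarith [r.1]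
  have tt1 : t₀ - t ≤ 4 * δ := by linarith [r.2]
  constructor
  · have e : (2 * z + L) / (2 * t) - (2 * z₀ + L₀) / (2 * t₀) =
        (z * (t₀ - t - (z₀ - z)) - (z₀ - z) * (t - z)) / (t * t₀) +
          ((L - L₀) / (2 * t₀) + L * (t₀ - t) / (2 * (t * t₀))) := by
      field_simp; ring
    rw [e]
    have c1 : |(z * (t₀ - t - (z₀ - z)) - (z₀ - z) * (t - z)) / (t * t₀)| ≤ 40 * (β₀ * δ) := by
      rw [abs_div, abs_of_pos (mul_pos t0 t1), div_le_iff₀ (mul_pos t0 t1)]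
      have s1 : z * (t₀ - t - (z₀ - z)) ≤ z * (9 * z₀ ^ 2 * (z₀ - z)) :=
        mul_le_mul_of_nonneg_left r.2 z0.le
      have s2 : 0 ≤ z * (t₀ - t - (z₀ - z)) := mul_nonneg z0.le r.1
      have s3 : 0 ≤ (z₀ - z) * (t - z) := mul_nonneg d0 (by linarith)
      have s4 : z ^ 3 ≤ z * z₀ ^ 2 := by
        have : z ^ 2 ≤ z₀ ^ 2 := pow_le_pow_left₀ z0.le zz 2
        nlinarith
      have s5 : (z₀ - z) * (t - z) ≤ (z₀ - z) * (z * z₀ ^ 2) :=
        mul_le_mul_of_nonneg_left (by linarith) d0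
      have s6 : z * z₀ ≤ t * t₀ := mul_le_mul a3 b3 (by linarith) t0.le
      have s7 : z₀ * (z₀ - z) ≤ 2 * β₀ * (2 * δ) := mul_le_mul b2 d1 d0 (by linarith)
      have s8 : z₀ * (z₀ - z) * (z * z₀) ≤ 2 * β₀ * (2 * δ) * (t * t₀) :=
        mul_le_mul s7 s6 (by nlinarith) (by positivity)
      have s9 : 0 ≤ z₀ * (z₀ - z) * (z * z₀) := by
        have : 0 < z₀ := by linarith
        positivity
      exact abs_le.2 ⟨by nlinarith, by nlinarith⟩
    have k0 : 0 ≤ K * (β₀ * δ) := by positivity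
    have c2 : |(L - L₀) / (2 * t₀)| ≤ K * (β₀ * δ) := by
      rw [abs_div, abs_of_pos (show 0 < 2 * t₀ by linarith), div_le_iff₀ (by linarith)]
      have s1 : β₀ ^ 2 ≤ 2 * t₀ := by nlinarith
      have s2 := mul_le_mul_of_nonneg_left s1 k0
      linarith
    have c3 : |L * (t₀ - t) / (2 * (t * t₀))| ≤ 2 * (K * (β₀ * δ)) := by
      rw [abs_of_nonneg (by positivity), div_le_iff₀ (by positivity)]
      have s1 : L * (t₀ - t) ≤ K * β ^ 4 * (4 * δ) := mul_le_mul hL tt1 tt0 (by positivity)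
      have s2 : β * β₀ ≤ t * t₀ := mul_le_mul (by linarith) (by linarith) hβ₀.le t0.le
      have s3 : β ^ 3 ≤ β₀ ^ 2 := by
        have : β ^ 2 ≤ β₀ ^ 2 := pow_le_pow_left₀ hβ.le h 2
        nlinarith
      have s4 : K * β * δ * β ^ 3 ≤ K * β * δ * β₀ ^ 2 :=
        mul_le_mul_of_nonneg_left s3 (by positivity)
      have s5 := mul_le_mul_of_nonneg_left s2 k0
      nlinarith
    have k1 : β₀ * δ ≤ K * (β₀ * δ) := le_mul_of_one_le_left (by positivity) hK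
    refine (abs_add_le _ _).trans ?_
    have := abs_add_le ((L - L₀) / (2 * t₀)) (L * (t₀ - t) / (2 * (t * t₀)))
    linarith
  · have e : t ^ 2 - t₀ ^ 2 = -((t₀ + t) * (t₀ - t)) := by ring
    rw [e, abs_neg, abs_of_nonneg (by positivity)]
    have := mul_le_mul (show t₀ + t ≤ 6 * β₀ by linarith) tt1 tt0 (by positivity)
    linarith

theorem Moment_cube {x y : ℝ} (hx : |x| ≤ 2) (hy : |y| ≤ 2) : |x ^ 3 - y ^ 3| ≤ 12 * |x - y| := by
  have e : x ^ 3 - y ^ 3 = (x ^ 2 + x * y + y ^ 2) * (x - y) := by ring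
  rw [e, abs_mul]
  refine mul_le_mul_of_nonneg_right ?_ (abs_nonneg _)
  have h1 := abs_le.1 hx
  have h2 := abs_le.1 hy
  exact abs_le.2 ⟨by nlinarith, by nlinarith⟩

theorem Moment_root {x y : ℝ} (h : 1 ≤ x + y) : |x - y| ≤ |x ^ 2 - y ^ 2| := by
  rw [show x ^ 2 - y ^ 2 = (x + y) * (x - y) by ring, abs_mul, abs_of_pos (show 0 < x + y by linarith)]
  exact le_mul_of_one_le_left (abs_nonneg _) h

theorem Moment_near {x : ℝ} (h0 : 0 < x) (h : |x ^ 2 - 1| ≤ 1 / 2) : 1 / 2 ≤ x ∧ x ≤ 2 := by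
  have := abs_le.1 h
  constructor <;> nlinarith

/-- the normalised first moment of the symmetric triangle -/
noncomputable def Moment_m (β : ℝ) : ℝ := hh β 0 ^ 3 / cos (π * β / 2)

theorem Moment_m_sq {β : ℝ} (hβ : 0 < β) (hβ1 : β ≤ 1 / 64) : 0 < Moment_m β ∧ Moment_m β ^ 2 =
    ((π * β + LL β 0) / (2 * tan (π * β / 2))) ^ 3 * (1 + tan (π * β / 2) ^ 2) := by
  obtain ⟨a1, a2, a3, a4, a5⟩ := Moment_z hβ hβ1
  have c := Moment_cos_pos (z := π * β / 2) (abs_le.2 ⟨by linarith, by linarith⟩)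
  have hp := hh_pos (b := 0) hβ (by linarith) (by simp)
  refine ⟨div_pos (pow_pos hp 3) c, ?_⟩
  rw [← Moment_hh0 hβ hβ1, Moment_m, div_pow, div_eq_iff (pow_ne_zero 2 c.ne')]
  linear_combination (-(hh β 0 ^ 6)) * Moment_sq_cos c.ne'

theorem Moment_m_one {K β : ℝ} (hβ : 0 < β) (hβ1 : β ≤ 1 / 64) (hKβ : K * β ≤ 1)
    (h3 : 0 ≤ LL β 0) (h4 : LL β 0 ≤ K * β ^ 4) : |Moment_m β ^ 2 - 1| ≤ 200 * β ^ 2 := by
  obtain ⟨a1, a2, a3, a4, a5⟩ := Moment_z hβ hβ1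
  have hP := Moment_P hβ hβ1 hKβ h3 h4
  rw [(Moment_m_sq hβ hβ1).2]
  generalize (π * β + LL β 0) / (2 * tan (π * β / 2)) = P at hP
  have t2 : tan (π * β / 2) ^ 2 ≤ (3 * β) ^ 2 := pow_le_pow_left₀ (by linarith) a5 2
  have t3 := sq_nonneg (tan (π * β / 2))
  generalize tan (π * β / 2) ^ 2 = s at t2 t3
  have hβ2 : β ^ 2 ≤ 1 / 4096 := by nlinarith
  have hP' := abs_le.1 hP
  have c := Moment_cube (x := P) (y := 1) (abs_le.2 ⟨by linarith, by linarith⟩) (by norm_num)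
  have c' := abs_le.1 (c.trans (mul_le_mul_of_nonneg_left hP (by norm_num)))
  have d1 : P ^ 3 * s ≤ 2 * (3 * β) ^ 2 := mul_le_mul (by linarith) t2 t3 (by norm_num)
  have d2 : 0 ≤ P ^ 3 * s := mul_nonneg (by linarith) t3
  exact abs_le.2 ⟨by linarith, by linarith⟩

theorem Moment_m_lip {K β β₀ : ℝ} (hK : 1 ≤ K) (hβ : 0 < β) (h : β ≤ β₀) (h1 : β₀ ≤ 1 / 64)
    (hKβ : K * β₀ ≤ 1) (h3 : 0 ≤ LL β 0) (h4 : LL β 0 ≤ K * β ^ 4) (h3' : 0 ≤ LL β₀ 0)
    (h4' : LL β₀ 0 ≤ K * β₀ ^ 4) (hLL : |LL β 0 - LL β₀ 0| ≤ K * (β₀ ^ 3 * (β₀ - β))) :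
    |Moment_m β - Moment_m β₀| ≤ 1300 * K * (β₀ * (β₀ - β)) := by
  have hβ₀ := hβ.trans_le h
  have hKβ' : K * β ≤ 1 := (mul_le_mul_of_nonneg_left h (by linarith)).trans hKβ
  have hβ2 : β ^ 2 ≤ 1 / 4096 := by nlinarith
  have hβ3 : β₀ ^ 2 ≤ 1 / 4096 := by nlinarith
  have m1 := Moment_near (Moment_m_sq hβ (h.trans h1)).1
    ((Moment_m_one hβ (h.trans h1) hKβ' h3 h4).trans (by linarith))
  have m2 := Moment_near (Moment_m_sq hβ₀ h1).1
    ((Moment_m_one hβ₀ h1 hKβ h3' h4').trans (by linarith))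
  refine (Moment_root (by linarith)).trans ?_
  rw [(Moment_m_sq hβ (h.trans h1)).2, (Moment_m_sq hβ₀ h1).2]
  obtain ⟨l1, l2⟩ := Moment_Plip hK hβ h h1 h3 h4 hLL
  have hP := abs_le.1 (Moment_P hβ (h.trans h1) hKβ' h3 h4)
  have hP' := abs_le.1 (Moment_P hβ₀ h1 hKβ h3' h4')
  obtain ⟨a1, a2, a3, a4, a5⟩ := Moment_z hβ (h.trans h1)
  have t2 : tan (π * β / 2) ^ 2 ≤ (3 * β) ^ 2 := pow_le_pow_left₀ (by linarith) a5 2
  have t3 := sq_nonneg (tan (π * β / 2))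
  generalize (π * β + LL β 0) / (2 * tan (π * β / 2)) = P at *
  generalize (π * β₀ + LL β₀ 0) / (2 * tan (π * β₀ / 2)) = P₀ at *
  generalize tan (π * β / 2) ^ 2 = s at *
  generalize tan (π * β₀ / 2) ^ 2 = s₀ at *
  have k0 : 0 ≤ β₀ * (β₀ - β) := mul_nonneg hβ₀.le (by linarith)
  generalize β₀ * (β₀ - β) = δ at *
  have c := (Moment_cube (x := P) (y := P₀) (abs_le.2 ⟨by linarith, by linarith⟩)
    (abs_le.2 ⟨by linarith, by linarith⟩)).trans (mul_le_mul_of_nonneg_left l1 (by norm_num))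
  have c0 := abs_le.1 ((Moment_cube (x := P₀) (y := 1) (abs_le.2 ⟨by linarith, by linarith⟩)
    (by norm_num)).trans (mul_le_mul_of_nonneg_left (abs_le.2 hP') (by norm_num)))
  have e : P ^ 3 * (1 + s) - P₀ ^ 3 * (1 + s₀) = (P ^ 3 - P₀ ^ 3) * (1 + s) + P₀ ^ 3 * (s - s₀) := by
    ring
  rw [e]
  refine (abs_add_le _ _).trans ?_
  rw [abs_mul, abs_mul]
  have d1 : |P ^ 3 - P₀ ^ 3| * |1 + s| ≤ 12 * (50 * K * δ) * 2 :=
    mul_le_mul c (abs_le.2 ⟨by linarith, by linarith⟩) (abs_nonneg _) (by positivity)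
  have d2 : |P₀ ^ 3| * |s - s₀| ≤ 2 * (24 * δ) :=
    mul_le_mul (abs_le.2 ⟨by linarith, by linarith⟩) l2 (abs_nonneg _) (by norm_num)
  have k1 : δ ≤ K * δ := le_mul_of_one_le_left k0 hK
  linarith

theorem Moment_ang {β b y : ℝ} (hβ : 0 < β) (hβ1 : β ≤ 1 / 64) (hb : |b| ≤ 1 / 64)
    (hy : |y| ≤ π * β / 2) : 0 < cos (y - π * b / 2) := by
  have p4 := pi_lt_four
  have p0 := pi_pos
  have h1 := abs_le.1 hb
  have h2 := abs_le.1 hy
  exact Moment_cos_pos (abs_le.2 ⟨by nlinarith, by nlinarith⟩)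

theorem Moment_norm_ei (x : ℝ) : ‖ei x‖ = 1 := Complex.norm_exp_ofReal_mul_I x

theorem Moment_ei_cont : Continuous ei := by unfold ei; fun_prop

theorem Moment_sym {H m c z : ℝ} (h0 : 0 ≤ z) (hz : z ≤ 1 / 10) :
    ‖∫ x in (c - z)..(c + z), (((H / cos (x - c)) ^ 3 - m : ℝ) : ℂ) * ei x‖ ≤
      2 * z * |H ^ 3 / cos z - m| := by
  have cp : ∀ x ∈ uIcc (c - z) (c + z), 0 < cos (x - c) := fun x hx => by
    rw [uIcc_of_le (by linarith)] at hx
    exact Moment_cos_pos (abs_le.2 ⟨by linarith [hx.1], by linarith [hx.2]⟩)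
  have hd : ∀ x ∈ uIcc (c - z) (c + z), HasDerivAt (fun x : ℝ => ei c *
      (((H ^ 3 * tan (x - c) - m * sin (x - c) : ℝ) : ℂ) +
        ((H ^ 3 * tan (x - c) ^ 2 / 2 + m * cos (x - c) : ℝ) : ℂ) * Complex.I))
      ((((H / cos (x - c)) ^ 3 - m : ℝ) : ℂ) * ei x) x := fun x hx => by
    have hc := (cp x hx).ne'
    have d0 : HasDerivAt (fun x : ℝ => x - c) 1 x := (hasDerivAt_id x).sub_const c
    have d1 := (hasDerivAt_tan hc).comp x d0
    have d2 := (hasDerivAt_sin (x - c)).comp x d0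
    have d3 := (hasDerivAt_cos (x - c)).comp x d0
    have e1 : HasDerivAt (fun x : ℝ => H ^ 3 * tan (x - c) - m * sin (x - c))
        (((H / cos (x - c)) ^ 3 - m) * cos (x - c)) x := by
      refine ((d1.const_mul (H ^ 3)).sub (d2.const_mul m)).congr_deriv ?_
      field_simp
    have e2 : HasDerivAt (fun x : ℝ => H ^ 3 * tan (x - c) ^ 2 / 2 + m * cos (x - c))
        (((H / cos (x - c)) ^ 3 - m) * sin (x - c)) x := by
      refine ((((d1.pow 2).const_mul (H ^ 3)).div_const 2).add (d3.const_mul m)).congr_deriv ?_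
      simp only [Function.comp, tan_eq_sin_div_cos, Nat.add_one_sub_one, pow_one]
      field_simp
      ring
    refine ((e1.ofReal_comp.add (e2.ofReal_comp.mul_const Complex.I)).const_mul
      (ei c)).congr_deriv ?_
    have e3 : ei x = ei c * ((cos (x - c) : ℝ) + (sin (x - c) : ℝ) * Complex.I) := by
      rw [Complex.ofReal_cos, Complex.ofReal_sin, ← Complex.exp_mul_I, ei, ei, ← Complex.exp_add]
      congr 1
      push_cast
      ring
    rw [e3]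
    simp only [Complex.ofReal_mul]
    ring
  have hi : IntervalIntegrable (fun x : ℝ => (((H / cos (x - c)) ^ 3 - m : ℝ) : ℂ) * ei x) volume
      (c - z) (c + z) := by
    refine ContinuousOn.intervalIntegrable (ContinuousOn.mul ?_ Moment_ei_cont.continuousOn)
    refine Complex.continuous_ofReal.comp_continuousOn (ContinuousOn.sub (ContinuousOn.pow ?_ 3)
      continuousOn_const)
    exact continuousOn_const.div (by fun_prop) fun x hx => (cp x hx).ne'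
  rw [intervalIntegral.integral_eq_sub_of_hasDerivAt hd hi, add_sub_cancel_left,
    show c - z - c = -z by ring, tan_neg, sin_neg, cos_neg, neg_sq, ← mul_sub, norm_mul,
    Moment_norm_ei, one_mul, add_sub_add_right_eq_sub, ← Complex.ofReal_sub, Complex.norm_real,
    Real.norm_eq_abs]
  have cz := Moment_cos_pos (z := z) (by rwa [abs_of_nonneg h0])
  have e : H ^ 3 * tan z - m * sin z - (H ^ 3 * -tan z - m * -sin z) =
      2 * sin z * (H ^ 3 / cos z - m) := by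
    rw [tan_eq_sin_div_cos]; ring
  have s0 : 0 ≤ sin z := sin_nonneg_of_nonneg_of_le_pi h0 (by linarith [pi_gt_three])
  rw [e, abs_mul, abs_of_nonneg (by linarith)]
  exact mul_le_mul_of_nonneg_right (by linarith [sin_le h0]) (abs_nonneg _)

theorem Moment_G {K β β₀ B c R R₀ : ℝ} (hK : 1 ≤ K) (hβ : 0 < β) (hβ1 : β ≤ 1 / 64) (hB : 0 ≤ B)
    (hB1 : B ≤ 1 / 640) (hKβ : K * β ≤ 1) (h0 : β ^ 2 ≤ β₀) (hc : |c| ≤ 1 / 4) (hR : 0 < R)
    (hR₀ : 0 < R₀) (h1 : |R ^ 2 - R₀ ^ 2| ≤ 76 * K * (β * B)) (h2 : |R₀ ^ 2 - 1| ≤ 27 * β ^ 2) :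
    |exp (3 * c) * R ^ 3 - 3 * c - R₀ ^ 3| ≤ 1600 * K * (c ^ 2 + β₀ * |c| + β * B) := by
  have hβ2 : β ^ 2 ≤ 1 / 4096 := by nlinarith
  have k0 : 0 ≤ β * B := by positivity
  have k1 : K * (β * B) ≤ 1 / 640 := by nlinarith
  have h3 : |R ^ 2 - 1| ≤ 76 * K * (β * B) + 27 * β ^ 2 :=
    (abs_sub_le _ _ _).trans (add_le_add h1 h2)
  have n1 := Moment_near hR (h3.trans (by linarith))
  have n2 := Moment_near hR₀ (h2.trans (by linarith))
  have r1 : |R ^ 3 - R₀ ^ 3| ≤ 12 * (76 * K * (β * B)) :=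
    (Moment_cube (abs_le.2 ⟨by linarith, by linarith⟩) (abs_le.2 ⟨by linarith, by linarith⟩)).trans
      (mul_le_mul_of_nonneg_left ((Moment_root (by linarith)).trans h1) (by norm_num))
  have r2 : |R ^ 3 - 1 ^ 3| ≤ 12 * (76 * K * (β * B) + 27 * β ^ 2) :=
    (Moment_cube (abs_le.2 ⟨by linarith, by linarith⟩) (by norm_num)).trans
      (mul_le_mul_of_nonneg_left ((Moment_root (by linarith)).trans (by rwa [one_pow]))
        (by norm_num))
  have r3 : |exp (3 * c) - 1 - 3 * c| ≤ (3 * c) ^ 2 :=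
    abs_exp_sub_one_sub_id_le (by rw [abs_mul, abs_of_pos (show (0 : ℝ) < 3 by norm_num)]; linarith)
  have r4 : |R ^ 3| ≤ 2 ^ 3 := by
    rw [abs_of_pos (pow_pos hR 3)]; exact pow_le_pow_left₀ hR.le n1.2 3
  have e : exp (3 * c) * R ^ 3 - 3 * c - R₀ ^ 3 =
      (exp (3 * c) - 1 - 3 * c) * R ^ 3 + (3 * (c * (R ^ 3 - 1 ^ 3)) + (R ^ 3 - R₀ ^ 3)) := by ring
  rw [e]
  have c0 := abs_nonneg c
  have s1 : |(exp (3 * c) - 1 - 3 * c) * R ^ 3| ≤ (3 * c) ^ 2 * 2 ^ 3 := by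
    rw [abs_mul]; exact mul_le_mul r3 r4 (abs_nonneg _) (sq_nonneg _)
  have s2 : |3 * (c * (R ^ 3 - 1 ^ 3))| ≤ 3 * (|c| * (12 * (76 * K * (β * B) + 27 * β ^ 2))) := by
    rw [abs_mul, abs_mul, abs_of_pos (show (0 : ℝ) < 3 by norm_num)]
    exact mul_le_mul_of_nonneg_left (mul_le_mul_of_nonneg_left r2 c0) (by norm_num)
  have s3 : |c| * (K * (β * B)) ≤ 1 / 4 * (K * (β * B)) :=
    mul_le_mul_of_nonneg_right hc (by positivity)
  have s4 : |c| * β ^ 2 ≤ |c| * β₀ := mul_le_mul_of_nonneg_left h0 c0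
  have b0 : 0 ≤ β₀ := (sq_nonneg β).trans h0
  have s5 : β₀ * |c| ≤ K * (β₀ * |c|) := le_mul_of_one_le_left (by positivity) hK
  have s6 : c ^ 2 ≤ K * c ^ 2 := le_mul_of_one_le_left (sq_nonneg c) hK
  have s7 : 0 ≤ K * (β * B) := by positivity
  have s8 : 0 ≤ K * (β₀ * |c|) := by positivity
  have s9 : 0 ≤ K * c ^ 2 := by positivity
  refine (abs_add_le _ _).trans ?_
  have := abs_add_le (3 * (c * (R ^ 3 - 1 ^ 3))) (R ^ 3 - R₀ ^ 3)
  linarith

theorem Moment_small (ε : ℝ) (hε : 0 < ε) : ∀ᶠ β₀ in 𝓝[>] (0 : ℝ), ∀ β b : ℝ, 0 < β →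
    β ^ 2 ≤ β₀ → b ^ 4 ≤ β₀ → β ≤ ε ∧ |b| ≤ ε := by
  have h1 : ∀ ε : ℝ, 0 < ε → ∀ᶠ β₀ in 𝓝[>] (0 : ℝ), β₀ ≤ ε := fun ε hε =>
    mem_nhdsWithin_of_mem_nhds (Iic_mem_nhds hε)
  filter_upwards [h1 (ε ^ 2) (by positivity), h1 (ε ^ 4) (by positivity)] with β₀ a2 a4
  refine fun β b hβ h2 h4 => ⟨le_of_pow_le_pow_left₀ two_ne_zero hε.le (h2.trans a2), ?_⟩
  have : |b| ^ 4 ≤ ε ^ 4 := by
    rw [show |b| ^ 4 = b ^ 4 from Even.pow_abs (by decide) b]; exact h4.trans a4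
  exact le_of_pow_le_pow_left₀ (by norm_num) hε.le this

theorem good_area {β b a h s₁ : ℝ} (hβ : 0 < β) (hβ1 : β ≤ 1 / 64) (hb : |b| ≤ 1 / 64)
    (hh0 : 0 < h) (hs : ∀ x ∈ Ioo a (a + π * β), log (h / cos (x - (a + π * (β + b) / 2))) ≤ s₁) :
    ∫ x in Ioo a (a + π * β), exp (2 * s0 s₁ (a + π * (β + b) / 2) h x) =
      exp (2 * log (h / hh β b)) * (π * β + LL β b) := by
  have hp := hh_pos hβ (by linarith) (hb.trans (by norm_num))
  have hθ : 0 < π * β := mul_pos pi_pos hβ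
  have cp : ∀ x ∈ Icc a (a + π * β), 0 < cos (x - (a + π * (β + b) / 2)) := fun x hx => by
    have := Moment_ang (y := x - (a + π * β / 2)) hβ hβ1 hb
      (abs_le.2 ⟨by linarith [hx.1], by linarith [hx.2]⟩)
    rwa [show x - (a + π * β / 2) - π * b / 2 = x - (a + π * (β + b) / 2) by ring] at this
  have e1 : ∀ x ∈ Ioo a (a + π * β), exp (2 * s0 s₁ (a + π * (β + b) / 2) h x) =
      h ^ 2 * (1 / cos (x - (a + π * (β + b) / 2)) ^ 2) := fun x hx => by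
    rw [s0, min_eq_left (hs x hx), two_mul, exp_add,
      exp_log (div_pos hh0 (cp x (Ioo_subset_Icc_self hx)))]
    ring
  rw [setIntegral_congr_fun measurableSet_Ioo e1, ← integral_Ioc_eq_integral_Ioo,
    ← intervalIntegral.integral_of_le (by linarith), two_mul (log _), exp_add,
    exp_log (div_pos hh0 hp), ← tri_area hβ hβ1 hb]
  have u : uIcc a (a + π * β) = Icc a (a + π * β) := uIcc_of_le (by linarith)
  rw [intervalIntegral.integral_eq_sub_of_hasDerivAt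
    (f := fun x => h ^ 2 * tan (x - (a + π * (β + b) / 2)))]
  · rw [show a - (a + π * (β + b) / 2) = -(π * (β + b) / 2) by ring, tan_neg,
      show a + π * β - (a + π * (β + b) / 2) = π * β - π * (β + b) / 2 by ring]
    field_simp
    ring
  · intro x hx
    rw [u] at hx
    have := ((hasDerivAt_tan (cp x hx).ne').comp x
      ((hasDerivAt_id x).sub_const (a + π * (β + b) / 2))).const_mul (h ^ 2)
    rw [mul_one] at this
    exact this
  · refine ContinuousOn.intervalIntegrable (continuousOn_const.mul ?_)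
    rw [u]
    exact continuousOn_const.div (by fun_prop) fun x hx => pow_ne_zero 2 (cp x hx).ne'

theorem good_c {s₁ : ℝ} (hs : 0 < s₁) : ∀ᶠ β₀ in 𝓝[>] (0 : ℝ), ∀ β b a h : ℝ, 0 < β →
    β ^ 2 ≤ β₀ → b ^ 4 ≤ β₀ → 0 < h →
    (∀ x ∈ Ioo a (a + π * β), |log (h / cos (x - (a + π * (β + b) / 2)))| ≤ s₁) →
    |log (h / hh β b)| ≤ 2 * s₁ := by
  obtain ⟨K, c, βm, hK, hc, hm, hm1, hL, -, -⟩ := lam_est
  filter_upwards [Moment_ev K βm (by linarith) hm,
    Moment_small (min s₁ 1 / 250) (by positivity)] with β₀ ⟨_, _, _, H⟩ H'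
  intro β b a h hβ h2 h4 hh0 hx
  obtain ⟨a1, a2, a3⟩ := H β b hβ h2 h4
  obtain ⟨a4, a5⟩ := H' β b hβ h2 h4
  obtain ⟨l1, l2, l3, l4⟩ := hL β b hβ a1 a3
  have hβ1 := a1.trans hm1
  have hθ : 0 < π * β := mul_pos pi_pos hβ
  have hc0 : 0 ≤ c * (β ^ 2 * b ^ 2) := by positivity
  have hy : |(0 : ℝ)| ≤ π * β / 2 := by rw [abs_zero]; linarith
  obtain ⟨r1, r2⟩ := Moment_R hK hβ hβ1 a3 a2 (by linarith) l2 l3 l4 hy
  have hp := hh_pos hβ (by linarith) (a3.trans (by norm_num))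
  have cp := Moment_ang hβ hβ1 a3 hy
  have h1 := hx (a + π * β / 2) ⟨by linarith, by linarith⟩
  rw [show a + π * β / 2 - (a + π * (β + b) / 2) = 0 - π * b / 2 by ring] at h1
  have e : log (h / hh β b) =
      log (h / cos (0 - π * b / 2)) - log (hh β b / cos (0 - π * b / 2)) := by
    rw [log_div hh0.ne' hp.ne', log_div hh0.ne' cp.ne', log_div hp.ne' cp.ne']; ring
  have hR := div_pos hp cp
  generalize hh β b / cos (0 - π * b / 2) = R at *
  have m1 := min_le_left s₁ 1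
  have m2 := min_le_right s₁ 1
  have b0 := abs_nonneg b
  have r3 : |R ^ 2 - 1| ≤ min s₁ 1 / 2 := by
    refine (abs_sub_le _ _ _).trans ((add_le_add r1 r2).trans ?_)
    have q1 : K * β * |b| ≤ 1 * |b| := mul_le_mul_of_nonneg_right a2 b0
    have q2 : β ^ 2 ≤ β := by nlinarith
    linarith
  have n := Moment_near hR (by linarith)
  have r4 := abs_le.1 ((Moment_root (x := R) (y := 1) (by linarith)).trans
    (show |R ^ 2 - 1 ^ 2| ≤ min s₁ 1 / 2 by rwa [one_pow]))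
  have g1 := log_le_sub_one_of_pos hR
  have g2 := one_sub_inv_le_log_of_pos hR
  have g3 : R⁻¹ ≤ 1 + min s₁ 1 := by
    rw [inv_le_iff_one_le_mul₀ hR]
    have : 0 < min s₁ 1 := by positivity
    nlinarith
  have h1' := abs_le.1 h1
  rw [e]
  exact abs_le.2 ⟨by linarith, by linarith⟩

theorem good_moment : ∃ K : ℝ, 1 ≤ K ∧ ∀ c₁ : ℝ, 0 < c₁ → ∀ᶠ β₀ in 𝓝[>] (0 : ℝ), ∃ m₀ : ℝ,
    |m₀ - 1| ≤ K * β₀ ^ 2 ∧ ∀ β b a h s₁ : ℝ, c₁ * β₀ ≤ β → β ^ 2 ≤ β₀ → b ^ 4 ≤ β₀ → 0 < h →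
      |log (h / hh β b)| ≤ 1 / 4 →
      (∀ x ∈ Ioo a (a + π * β), log (h / cos (x - (a + π * (β + b) / 2))) ≤ s₁) →
      ‖∫ x in Ioo a (a + π * β), ((exp (3 * s0 s₁ (a + π * (β + b) / 2) h x) - m₀ -
          3 * log (h / hh β b) : ℝ) : ℂ) * ei x‖ ≤
        K * β * (log (h / hh β b) ^ 2 + β₀ * |log (h / hh β b)| + max β β₀ * |β - β₀| +
          β * |b|) := by
  obtain ⟨K, c, βm, hK, hc, hm, hm1, hL, -, hL'⟩ := lam_est
  refine ⟨6400 * K, by linarith, fun c₁ _ => ?_⟩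
  filter_upwards [Moment_ev K βm (by linarith) hm,
    Moment_small (1 / 640) (by positivity)] with β₀ ⟨hβ₀, k1, k2, H⟩ H'
  obtain ⟨-, -, n3, n4⟩ := hL β₀ 0 hβ₀ k1 (by simp)
  have hβ₀1 := k1.trans hm1
  refine ⟨Moment_m β₀, ?_, fun β b a h s₁ _hc h2 h4 hh0 hc4 hs => ?_⟩
  · have q := Moment_m_one hβ₀ hβ₀1 k2 n3 n4
    have q0 := (Moment_m_sq hβ₀ hβ₀1).1
    have q1 := (Moment_root (x := Moment_m β₀) (y := 1) (by linarith)).trans
      (show |Moment_m β₀ ^ 2 - 1 ^ 2| ≤ 200 * β₀ ^ 2 by rwa [one_pow])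
    have q2 : β₀ ^ 2 ≤ K * β₀ ^ 2 := le_mul_of_one_le_left (sq_nonneg _) hK
    nlinarith [sq_nonneg β₀]
  have hβ : 0 < β := lt_of_lt_of_le (by positivity) _hc
  obtain ⟨a1, a2, a3⟩ := H β b hβ h2 h4
  obtain ⟨-, a5⟩ := H' β b hβ h2 h4
  obtain ⟨l1, l2, l3, l4⟩ := hL β b hβ a1 a3
  have hβ1 := a1.trans hm1
  have hθ : 0 < π * β := mul_pos pi_pos hβ
  have hc0 : 0 ≤ c * (β ^ 2 * b ^ 2) := by positivity
  have hp := hh_pos hβ (by linarith) (a3.trans (by norm_num))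
  have hp0 := hh_pos (b := 0) hβ (by linarith) (by simp)
  obtain ⟨z1, z2, -, -, -⟩ := Moment_z hβ hβ1
  have hmm : |Moment_m β - Moment_m β₀| ≤ 1300 * K * (max β β₀ * |β - β₀|) := by
    have q := hL' β β₀ hβ a1 hβ₀ k1
    rcases le_total β β₀ with hle | hle
    · rw [max_eq_right hle, abs_sub_comm β, abs_of_nonneg (sub_nonneg.2 hle)] at q ⊢
      exact Moment_m_lip hK hβ hle hβ₀1 k2 l3 l4 n3 n4 q
    · rw [max_eq_left hle, abs_of_nonneg (sub_nonneg.2 hle), abs_sub_comm] at q ⊢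
      exact Moment_m_lip hK hβ₀ hle hβ1 a2 n3 n4 l3 l4 q
  have yb : ∀ x ∈ Icc a (a + π * β), |x - (a + π * β / 2)| ≤ π * β / 2 := fun x hx =>
    abs_le.2 ⟨by linarith [hx.1], by linarith [hx.2]⟩
  have ea : ∀ x, x - (a + π * (β + b) / 2) = x - (a + π * β / 2) - π * b / 2 := fun x => by ring
  have cp : ∀ x ∈ Icc a (a + π * β), 0 < cos (x - (a + π * β / 2) - π * b / 2) := fun x hx =>
    Moment_ang hβ hβ1 a3 (yb x hx)
  have cp0 : ∀ x ∈ Icc a (a + π * β), 0 < cos (x - (a + π * β / 2)) := fun x hx =>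
    Moment_cos_pos ((yb x hx).trans (by linarith))
  have eh : exp (log (h / hh β b)) = h / hh β b := exp_log (div_pos hh0 hp)
  generalize log (h / hh β b) = γ at eh hc4 ⊢
  have e1 : ∀ x ∈ Ioo a (a + π * β), ((exp (3 * s0 s₁ (a + π * (β + b) / 2) h x) - Moment_m β₀ -
      3 * γ : ℝ) : ℂ) * ei x =
      ((exp (3 * γ) * (hh β b / cos (x - (a + π * β / 2) - π * b / 2)) ^ 3 - 3 * γ -
        (hh β 0 / cos (x - (a + π * β / 2))) ^ 3 : ℝ) : ℂ) * ei x +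
      (((hh β 0 / cos (x - (a + π * β / 2))) ^ 3 - Moment_m β₀ : ℝ) : ℂ) * ei x := fun x hx => by
    have c1 := cp x (Ioo_subset_Icc_self hx)
    have e3 : ∀ t : ℝ, exp (3 * t) = exp t ^ 3 := fun t => by rw [← exp_nat_mul]; norm_num
    rw [← add_mul, ← Complex.ofReal_add, s0, min_eq_left (hs x hx), ea, e3, e3, eh,
      exp_log (div_pos hh0 c1)]
    congr 2
    field_simp
    ring
  have u : uIcc a (a + π * β) = Icc a (a + π * β) := uIcc_of_le (by linarith)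
  have k3 : ContinuousOn (fun x => (hh β 0 / cos (x - (a + π * β / 2))) ^ 3) (Icc a (a + π * β)) :=
    (continuousOn_const.div (by fun_prop) fun x hx => (cp0 x hx).ne').pow 3
  have k4 : ContinuousOn (fun x => (hh β b / cos (x - (a + π * β / 2) - π * b / 2)) ^ 3)
      (Icc a (a + π * β)) :=
    (continuousOn_const.div (by fun_prop) fun x hx => (cp x hx).ne').pow 3
  rw [setIntegral_congr_fun measurableSet_Ioo e1, ← integral_Ioc_eq_integral_Ioo,
    ← intervalIntegral.integral_of_le (by linarith), intervalIntegral.integral_add]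
  · refine (norm_add_le _ _).trans ?_
    have i1 := intervalIntegral.norm_integral_le_of_norm_le_const (a := a) (b := a + π * β)
      (C := 1600 * K * (γ ^ 2 + β₀ * |γ| + β * |b|))
      (f := fun x => ((exp (3 * γ) * (hh β b / cos (x - (a + π * β / 2) - π * b / 2)) ^ 3 - 3 * γ -
        (hh β 0 / cos (x - (a + π * β / 2))) ^ 3 : ℝ) : ℂ) * ei x) fun x hx => by
        rw [uIoc_of_le (by linarith)] at hx
        have hx' := Ioc_subset_Icc_self hx
        obtain ⟨r1, r2⟩ := Moment_R hK hβ hβ1 a3 a2 (by linarith) l2 l3 l4 (yb x hx')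
        rw [norm_mul, Moment_norm_ei, mul_one, Complex.norm_real, Real.norm_eq_abs]
        exact Moment_G hK hβ hβ1 (abs_nonneg b) a5 a2 h2 hc4 (div_pos hp (cp x hx'))
          (div_pos hp0 (cp0 x hx')) r1 r2
    have i2 := Moment_sym (H := hh β 0) (m := Moment_m β₀) (c := a + π * β / 2) (z := π * β / 2)
      (by linarith) (by linarith)
    rw [add_sub_cancel_right, show a + π * β / 2 + π * β / 2 = a + π * β by ring] at i2
    rw [add_sub_cancel_left, abs_of_pos hθ] at i1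
    refine (add_le_add i1 i2).trans ?_
    change _ + _ * |Moment_m β - Moment_m β₀| ≤ _
    have w1 : 0 ≤ 1600 * K * (γ ^ 2 + β₀ * |γ| + β * |b|) := by positivity
    have w2 : 0 ≤ K * (max β β₀ * |β - β₀|) := by
      have : 0 < max β β₀ := lt_max_of_lt_left hβ
      positivity
    have w3 := mul_le_mul_of_nonneg_left (show π * β ≤ 4 * β by linarith) w1
    have w4 : 2 * (π * β / 2) * |Moment_m β - Moment_m β₀| ≤
        4 * β * (1300 * K * (max β β₀ * |β - β₀|)) :=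
      mul_le_mul (by linarith) hmm (abs_nonneg _) (by linarith)
    have w5 := mul_nonneg hβ.le w2
    linarith
  · refine ContinuousOn.intervalIntegrable (ContinuousOn.mul ?_ Moment_ei_cont.continuousOn)
    rw [u]
    exact Complex.continuous_ofReal.comp_continuousOn
      (((continuousOn_const.mul k4).sub continuousOn_const).sub k3)
  · refine ContinuousOn.intervalIntegrable (ContinuousOn.mul ?_ Moment_ei_cont.continuousOn)
    rw [u]
    exact Complex.continuous_ofReal.comp_continuousOn (k3.sub continuousOn_const)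

end Pool.Agent.Work.MP_267827_an
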