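import Pool.Agent.Work.MP_267827_an.Topo

/-! An inequality of Wirtinger type for piecewise differentiable periodic functions. -/

set_option autoImplicit false

namespace Pool.Agent.Work.MP_267827_an

open MeasureTheory Set Filter Topology Metric Real

namespace Wirt

variable {m : ℕ} {ϑ : ℕ → ℝ}

lemma mono_le (mono : ∀ k, k < m → ϑ k < ϑ (k + 1)) {i j : ℕ} (hij : i ≤ j) (hj : j ≤ m) :
    ϑ i ≤ ϑ j := by
  induction j, hij using Nat.le_induction with
  | base => exact le_rfl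
  | succ j hij ih => exact (ih (by omega)).trans (mono j (by omega)).le

lemma glue_int {E : Type*} [NormedAddCommGroup E] [NormedSpace ℝ E]
    (mono : ∀ k, k < m → ϑ k < ϑ (k + 1)) {G : ℝ → E} {f : ℕ → ℝ → E}
    (hG : ∀ k, k < m → ∀ x ∈ Ioo (ϑ k) (ϑ (k + 1)), G x = f k x)
    (hf : ∀ k, k < m → IntegrableOn (f k) (Ioo (ϑ k) (ϑ (k + 1)))) :
    ∫ x in (ϑ 0)..(ϑ m), G x = ∑ k ∈ Finset.range m, ∫ x in Ioo (ϑ k) (ϑ (k + 1)), f k x := by
  rw [← intervalIntegral.sum_integral_adjacent_intervals (a := ϑ) (n := m)]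
  · refine Finset.sum_congr rfl fun k hk => ?_
    have hk := Finset.mem_range.1 hk
    rw [intervalIntegral.integral_of_le (mono k hk).le, integral_Ioc_eq_integral_Ioo]
    exact setIntegral_congr_fun measurableSet_Ioo (hG k hk)
  · intro k hk
    rw [intervalIntegrable_iff_integrableOn_Ioo_of_le (mono k hk).le]
    exact (hf k hk).congr_fun (fun x hx => (hG k hk x hx).symm) measurableSet_Ioo

/-- bounded and measurable on each arc -/
def Nice (m : ℕ) (ϑ : ℕ → ℝ) (f : ℕ → ℝ → ℝ) : Prop :=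
  ∀ k, k < m → AEStronglyMeasurable (f k) (volume.restrict (Ioo (ϑ k) (ϑ (k + 1)))) ∧
    ∃ K, ∀ x ∈ Ioo (ϑ k) (ϑ (k + 1)), |f k x| ≤ K

lemma Nice.memLp {f : ℕ → ℝ → ℝ} (h : Nice m ϑ f) {k : ℕ} (hk : k < m) (p : ENNReal) :
    MemLp (f k) p (volume.restrict (Ioo (ϑ k) (ϑ (k + 1)))) := by
  obtain ⟨h1, K, hK⟩ := h k hk
  refine MemLp.of_bound h1 K ?_
  filter_upwards [ae_restrict_mem measurableSet_Ioo] with x hx
  exact hK x hx

lemma Nice.int {f : ℕ → ℝ → ℝ} (h : Nice m ϑ f) {k : ℕ} (hk : k < m) :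
    IntegrableOn (f k) (Ioo (ϑ k) (ϑ (k + 1))) :=
  memLp_one_iff_integrable.1 (h.memLp hk 1)

lemma Nice.mul {f g : ℕ → ℝ → ℝ} (h : Nice m ϑ f) (h' : Nice m ϑ g) :
    Nice m ϑ (fun k x => f k x * g k x) := by
  intro k hk
  obtain ⟨h1, K, hK⟩ := h k hk
  obtain ⟨h2, L, hL⟩ := h' k hk
  refine ⟨h1.mul h2, K * L, fun x hx => ?_⟩
  rw [abs_mul]
  exact mul_le_mul (hK x hx) (hL x hx) (abs_nonneg _) ((abs_nonneg _).trans (hK x hx))

lemma Nice.add {f g : ℕ → ℝ → ℝ} (h : Nice m ϑ f) (h' : Nice m ϑ g) :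
    Nice m ϑ (fun k x => f k x + g k x) := by
  intro k hk
  obtain ⟨h1, K, hK⟩ := h k hk
  obtain ⟨h2, L, hL⟩ := h' k hk
  exact ⟨h1.add h2, K + L, fun x hx => (abs_add_le _ _).trans (add_le_add (hK x hx) (hL x hx))⟩

lemma Nice.sq {f : ℕ → ℝ → ℝ} (h : Nice m ϑ f) : Nice m ϑ (fun k x => f k x ^ 2) := by
  simpa only [_root_.sq] using h.mul h

/-- the oscillating factor -/
noncomputable def ee (l : ℤ) (x : ℝ) : ℂ := Complex.exp (-(l * x) * Complex.I)

lemma norm_ee (l : ℤ) (x : ℝ) : ‖ee l x‖ = 1 := by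
  have : ee l x = Complex.exp (((-(l * x) : ℝ) : ℂ) * Complex.I) := by
    simp [ee]
  rw [this, Complex.norm_exp_ofReal_mul_I]

lemma cont_ee (l : ℤ) : Continuous (ee l) := by
  unfold ee
  fun_prop

lemma der_ee (l : ℤ) (x : ℝ) : HasDerivAt (ee l) (-(l * Complex.I) * ee l x) x := by
  have h1 : HasDerivAt (fun y : ℝ => -((l : ℂ) * (y : ℂ)) * Complex.I) (-(l * Complex.I)) x := by
    have := (((hasDerivAt_id x).ofReal_comp.const_mul (l : ℂ)).neg).mul_const Complex.I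
    exact this.congr_deriv (by simp)
  exact h1.cexp.congr_deriv (by unfold ee; ring)

lemma ee_per (l : ℤ) (x : ℝ) : ee l (x + 2 * π) = ee l x := by
  unfold ee
  have : -((l : ℂ) * ((x + 2 * π : ℝ) : ℂ)) * Complex.I =
      -(l * x) * Complex.I + ((-l : ℤ) : ℂ) * (2 * π * Complex.I) := by
    push_cast
    ring
  rw [this, Complex.exp_add, Complex.exp_int_mul_two_pi_mul_I, mul_one]

lemma Nice.int_ee {f : ℕ → ℝ → ℝ} (h : Nice m ϑ f) {k : ℕ} (hk : k < m) (l : ℤ) :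
    IntegrableOn (fun x => (f k x : ℂ) * ee l x) (Ioo (ϑ k) (ϑ (k + 1))) := by
  refine Integrable.mul_bdd (c := 1) (h.int hk).ofReal (cont_ee l).aestronglyMeasurable ?_
  exact Eventually.of_forall fun x => (norm_ee l x).le

/-- the unnormalised Fourier coefficient -/
noncomputable def cf (m : ℕ) (ϑ : ℕ → ℝ) (f : ℕ → ℝ → ℝ) (l : ℤ) : ℂ :=
  ∑ k ∈ Finset.range m, ∫ x in Ioo (ϑ k) (ϑ (k + 1)), (f k x : ℂ) * ee l x

lemma parseval (mono : ∀ k, k < m → ϑ k < ϑ (k + 1)) (per : ϑ m = ϑ 0 + 2 * π)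
    {f : ℕ → ℝ → ℝ} (h : Nice m ϑ f) :
    HasSum (fun l : ℤ => ‖cf m ϑ f l‖ ^ 2)
      (2 * π * ∑ k ∈ Finset.range m, ∫ x in Ioo (ϑ k) (ϑ (k + 1)), f k x ^ 2) := by
  set G : ℝ → ℂ := fun x => ∑ k ∈ Finset.range m,
    indicator (Ioo (ϑ k) (ϑ (k + 1))) (fun x => (f k x : ℂ)) x with hGdef
  have hG : ∀ k, k < m → ∀ x ∈ Ioo (ϑ k) (ϑ (k + 1)), G x = f k x := by
    intro k hk x hx
    simp only [hGdef]
    rw [Finset.sum_eq_single k]
    · exact indicator_of_mem hx _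
    · intro j hj hjk
      have hj := Finset.mem_range.1 hj
      apply indicator_of_notMem
      intro hx'
      rcases lt_or_gt_of_ne hjk with h1 | h1
      · have := mono_le mono (i := j + 1) (j := k) h1 hk.le
        linarith [hx.1, hx'.2]
      · have := mono_le mono (i := k + 1) (j := j) h1 hj.le
        linarith [hx.2, hx'.1]
    · intro hk'
      exact absurd (Finset.mem_range.2 hk) hk'
  have hab : ϑ 0 < ϑ m := by rw [per]; linarith [pi_pos]
  have hL2 : MemLp G 2 (volume.restrict (Ioc (ϑ 0) (ϑ m))) := by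
    apply MemLp.restrict
    apply memLp_finsetSum
    intro k hk
    rw [memLp_indicator_iff_restrict measurableSet_Ioo]
    exact (h.memLp (Finset.mem_range.1 hk) 2).ofReal
  have hP := hasSum_sq_fourierCoeffOn hab hL2
  have hba : ϑ m - ϑ 0 = 2 * π := by rw [per]; ring
  have hπ : (π : ℂ) ≠ 0 := Complex.ofReal_ne_zero.2 pi_ne_zero
  have hc : ∀ l : ℤ, fourierCoeffOn hab G l = (1 / (2 * π) : ℝ) • cf m ϑ f l := by
    intro l
    rw [fourierCoeffOn_eq_integral]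
    congr 1
    · rw [hba]
    · refine glue_int mono (fun k hk x hx => ?_) (fun k hk => h.int_ee hk l)
      rw [hG k hk x hx, fourier_coe_apply, hba, smul_eq_mul, mul_comm, ee]
      congr 2
      push_cast
      field_simp
  have hI : ∫ x in (ϑ 0)..(ϑ m), ‖G x‖ ^ 2 =
      ∑ k ∈ Finset.range m, ∫ x in Ioo (ϑ k) (ϑ (k + 1)), f k x ^ 2 := by
    refine glue_int mono (fun k hk x hx => ?_) (fun k hk => h.sq.int hk)
    rw [hG k hk x hx, Complex.norm_real, Real.norm_eq_abs, sq_abs]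
  rw [hI, hba] at hP
  have := hP.mul_left ((2 * π) ^ 2)
  have e1 : (fun l : ℤ => ‖cf m ϑ f l‖ ^ 2) =
      fun i => (2 * π) ^ 2 * ‖fourierCoeffOn hab G i‖ ^ 2 := by
    ext l
    rw [hc l, norm_smul, Real.norm_eq_abs, mul_pow |1 / (2 * π)|, sq_abs]
    field_simp
  have e2 : ∀ S : ℝ, 2 * π * S = (2 * π) ^ 2 * (2 * π)⁻¹ • S := by
    intro S
    rw [smul_eq_mul]
    field_simp
  rw [e1, e2]
  exact this

lemma cf_add {f g : ℕ → ℝ → ℝ} (h : Nice m ϑ f) (h' : Nice m ϑ g) (l : ℤ) :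
    cf m ϑ (fun k x => f k x + g k x) l = cf m ϑ f l + cf m ϑ g l := by
  unfold cf
  rw [← Finset.sum_add_distrib]
  refine Finset.sum_congr rfl fun k hk => ?_
  have hk := Finset.mem_range.1 hk
  rw [← integral_add (h.int_ee hk l) (h'.int_ee hk l)]
  refine integral_congr_ae (Eventually.of_forall fun x => ?_)
  push_cast
  ring

lemma cf_der (mono : ∀ k, k < m → ϑ k < ϑ (k + 1)) (per : ϑ m = ϑ 0 + 2 * π) {g : ℕ → ℝ}
    {H H' : ℕ → ℝ → ℝ} (cont : ∀ k, k < m → ContinuousOn (H k) (Icc (ϑ k) (ϑ (k + 1))))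
    (der : ∀ k, k < m → ∀ x ∈ Ioo (ϑ k) (ϑ (k + 1)), HasDerivAt (H k) (H' k x) x)
    (h : Nice m ϑ H) (h' : Nice m ϑ H')
    (hl : ∀ k, k < m → H k (ϑ k) = g k) (hr : ∀ k, k < m → H k (ϑ (k + 1)) = g (k + 1))
    (hg : g m = g 0) (l : ℤ) : cf m ϑ H' l = (l * Complex.I) * cf m ϑ H l := by
  have key : ∀ k ∈ Finset.range m,
      (∫ x in Ioo (ϑ k) (ϑ (k + 1)), (H' k x : ℂ) * ee l x) -
        (l * Complex.I) * ∫ x in Ioo (ϑ k) (ϑ (k + 1)), (H k x : ℂ) * ee l x =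
      (g (k + 1) : ℂ) * ee l (ϑ (k + 1)) - (g k : ℂ) * ee l (ϑ k) := by
    intro k hk
    have hk := Finset.mem_range.1 hk
    have hi : IntegrableOn (fun x => (H' k x : ℂ) * ee l x - (l * Complex.I) *
        ((H k x : ℂ) * ee l x)) (Ioo (ϑ k) (ϑ (k + 1))) :=
      (h'.int_ee hk l).sub ((h.int_ee hk l).const_mul _)
    rw [← integral_const_mul, ← integral_sub (h'.int_ee hk l) ((h.int_ee hk l).const_mul _),
      ← integral_Ioc_eq_integral_Ioo, ← intervalIntegral.integral_of_le (mono k hk).le,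
      ← hl k hk, ← hr k hk]
    refine intervalIntegral.integral_eq_sub_of_hasDerivAt_of_le
      (f := fun x => (H k x : ℂ) * ee l x) (mono k hk).le ?_ ?_ ?_
    · exact (Complex.continuous_ofReal.comp_continuousOn (cont k hk)).mul
        (cont_ee l).continuousOn
    · intro x hx
      exact ((der k hk x hx).ofReal_comp.mul (der_ee l x)).congr_deriv (by ring)
    · rw [intervalIntegrable_iff_integrableOn_Ioo_of_le (mono k hk).le]
      exact hi
  have := Finset.sum_congr rfl key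
  rw [Finset.sum_range_sub (fun k => (g k : ℂ) * ee l (ϑ k)), per, ee_per, hg, sub_self,
    Finset.sum_sub_distrib, ← Finset.mul_sum] at this
  exact sub_eq_zero.1 this

lemma cf_neg (f : ℕ → ℝ → ℝ) (l : ℤ) : ‖cf m ϑ f (-l)‖ = ‖cf m ϑ f l‖ := by
  rw [← Complex.norm_conj (cf m ϑ f l)]
  congr 1
  unfold cf
  rw [map_sum]
  refine Finset.sum_congr rfl fun k _ => ?_
  rw [← integral_conj]
  refine integral_congr_ae (Eventually.of_forall fun x => ?_)
  simp [ee, ← Complex.exp_conj]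

lemma quad {c A B S : ℝ} (hc : 0 < c) (hS : S ≤ A + B) (h0 : 0 ≤ S) :
    -(A ^ 2 / c) ≤ c * B ^ 2 - (S ^ 2 - A ^ 2 - B ^ 2) := by
  have h1 : S ^ 2 ≤ (A + B) ^ 2 := pow_le_pow_left₀ h0 hS 2
  have h2 : 0 ≤ (A - c * B) ^ 2 / c := by positivity
  have h3 : (A - c * B) ^ 2 / c = A ^ 2 / c - 2 * A * B + c * B ^ 2 := by
    field_simp
    ring
  nlinarith

end Wirt

open Wirt in
theorem wirtinger {m : ℕ} {ϑ g : ℕ → ℝ} (mono : ∀ k, k < m → ϑ k < ϑ (k + 1))
    (per : ϑ m = ϑ 0 + 2 * π) {H H' a : ℕ → ℝ → ℝ}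
    (cont : ∀ k, k < m → ContinuousOn (H k) (Icc (ϑ k) (ϑ (k + 1))))
    (der : ∀ k, k < m → ∀ x ∈ Ioo (ϑ k) (ϑ (k + 1)), HasDerivAt (H k) (H' k x) x)
    (bd : ∀ k, k < m → ∃ K, ∀ x ∈ Ioo (ϑ k) (ϑ (k + 1)), |H' k x| ≤ K)
    (hl : ∀ k, k < m → H k (ϑ k) = g k) (hr : ∀ k, k < m → H k (ϑ (k + 1)) = g (k + 1))
    (hg : g m = g 0)
    (mean : ∑ k ∈ Finset.range m, ∫ x in Ioo (ϑ k) (ϑ (k + 1)), H k x = 0)
    (ha : ∀ k, k < m → ContinuousOn (a k) (Ioo (ϑ k) (ϑ (k + 1))))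
    (hab : ∀ k, k < m → ∃ K, ∀ x ∈ Ioo (ϑ k) (ϑ (k + 1)), |a k x| ≤ K)
    {κ η : ℝ} (hκ : η < κ) (hη : 0 ≤ η) :
    -(1 / (4 * κ - η) * ∑ k ∈ Finset.range m, ∫ x in Ioo (ϑ k) (ϑ (k + 1)), a k x ^ 2) -
        1 / (π * (κ - η)) *
          ‖∑ k ∈ Finset.range m, ∫ x in Ioo (ϑ k) (ϑ (k + 1)), (a k x : ℂ) * ei x‖ ^ 2 ≤
      ∑ k ∈ Finset.range m, (κ * (∫ x in Ioo (ϑ k) (ϑ (k + 1)), H' k x ^ 2) -
        η * (∫ x in Ioo (ϑ k) (ϑ (k + 1)), H k x ^ 2) -
        2 * ∫ x in Ioo (ϑ k) (ϑ (k + 1)), a k x * H k x) := by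
  have nH : Nice m ϑ H := by
    intro k hk
    refine ⟨((cont k hk).mono Ioo_subset_Icc_self).aestronglyMeasurable measurableSet_Ioo, ?_⟩
    obtain ⟨K, hK⟩ := isCompact_Icc.exists_bound_of_continuousOn (cont k hk)
    exact ⟨K, fun x hx => hK x (Ioo_subset_Icc_self hx)⟩
  have nH' : Nice m ϑ H' := by
    intro k hk
    refine ⟨?_, bd k hk⟩
    refine (measurable_deriv (H k)).aestronglyMeasurable.congr ?_
    filter_upwards [ae_restrict_mem measurableSet_Ioo] with x hx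
    exact (der k hk x hx).deriv
  have na : Nice m ϑ a := fun k hk =>
    ⟨(ha k hk).aestronglyMeasurable measurableSet_Ioo, hab k hk⟩
  have p1 := parseval mono per nH
  have p2 := parseval mono per nH'
  have p3 := parseval mono per na
  have p4 := parseval mono per (na.add nH)
  have h0 : cf m ϑ H 0 = 0 := by
    have : cf m ϑ H 0 = ((∑ k ∈ Finset.range m, ∫ x in Ioo (ϑ k) (ϑ (k + 1)), H k x : ℝ) : ℂ) := by
      unfold cf
      push_cast
      refine Finset.sum_congr rfl fun k _ => ?_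
      rw [← integral_complex_ofReal]
      refine integral_congr_ae (Eventually.of_forall fun x => ?_)
      simp [ee]
    rw [this, mean, Complex.ofReal_zero]
  have hI : (∑ k ∈ Finset.range m, ∫ x in Ioo (ϑ k) (ϑ (k + 1)), (a k x : ℂ) * ei x) =
      cf m ϑ a (-1) := by
    unfold cf
    refine Finset.sum_congr rfl fun k _ => ?_
    refine integral_congr_ae (Eventually.of_forall fun x => ?_)
    simp [ee, ei]
  rw [hI]
  have hc1 : 0 < κ - η := by linarith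
  have hc4 : 0 < 4 * κ - η := by linarith
  set J := ‖cf m ϑ a (-1)‖ with hJ
  have pδ : HasSum (fun l : ℤ => if l ∈ ({-1, 1} : Finset ℤ) then -(J ^ 2 / (κ - η)) else 0)
      (-(2 * (J ^ 2 / (κ - η)))) := by
    have := hasSum_sum_of_ne_finset_zero (s := ({-1, 1} : Finset ℤ))
      (f := fun l : ℤ => if l ∈ ({-1, 1} : Finset ℤ) then -(J ^ 2 / (κ - η)) else 0)
      (L := SummationFilter.unconditional ℤ) (fun b hb => if_neg hb)
    convert this using 1
    rw [Finset.sum_pair (by norm_num)]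
    simp
    ring
  have pT := (((p2.mul_left κ).sub (p1.mul_left η)).sub ((p4.sub p3).sub p1)).add
    (p3.div_const (4 * κ - η))
  have hle := hasSum_le (fun l => ?_) pδ pT
  · have e4 : ∑ k ∈ Finset.range m, ∫ x in Ioo (ϑ k) (ϑ (k + 1)), (a k x + H k x) ^ 2 =
        ∑ k ∈ Finset.range m, (∫ x in Ioo (ϑ k) (ϑ (k + 1)), a k x ^ 2) +
        ∑ k ∈ Finset.range m, (∫ x in Ioo (ϑ k) (ϑ (k + 1)), H k x ^ 2) +
        2 * ∑ k ∈ Finset.range m, ∫ x in Ioo (ϑ k) (ϑ (k + 1)), a k x * H k x := by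
      rw [Finset.mul_sum, ← Finset.sum_add_distrib, ← Finset.sum_add_distrib]
      refine Finset.sum_congr rfl fun k hk => ?_
      have hk := Finset.mem_range.1 hk
      rw [← integral_const_mul, ← integral_add (na.sq.int hk) (nH.sq.int hk),
        ← integral_add ((na.sq.add nH.sq).int hk) (((na.mul nH).int hk).const_mul 2)]
      refine integral_congr_ae (Eventually.of_forall fun x => ?_)
      simp only
      ring
    rw [e4] at hle
    rw [Finset.sum_sub_distrib, Finset.sum_sub_distrib, ← Finset.mul_sum, ← Finset.mul_sum,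
      ← Finset.mul_sum]
    set Sa := ∑ k ∈ Finset.range m, ∫ x in Ioo (ϑ k) (ϑ (k + 1)), a k x ^ 2
    set Sh := ∑ k ∈ Finset.range m, ∫ x in Ioo (ϑ k) (ϑ (k + 1)), H k x ^ 2
    set Sd := ∑ k ∈ Finset.range m, ∫ x in Ioo (ϑ k) (ϑ (k + 1)), H' k x ^ 2
    set Sx := ∑ k ∈ Finset.range m, ∫ x in Ioo (ϑ k) (ϑ (k + 1)), a k x * H k x
    have hπ := pi_pos
    refine le_of_mul_le_mul_left ?_ (show 0 < 2 * π by positivity)
    have e1 : 2 * π * (-(1 / (4 * κ - η) * Sa) - 1 / (π * (κ - η)) * J ^ 2) =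
        -(2 * π * Sa / (4 * κ - η)) - 2 * (J ^ 2 / (κ - η)) := by
      field_simp
    rw [e1]
    nlinarith
  · have hd : ‖cf m ϑ H' l‖ ^ 2 = (l : ℝ) ^ 2 * ‖cf m ϑ H l‖ ^ 2 := by
      rw [cf_der mono per cont der nH nH' hl hr hg l, norm_mul, norm_mul, Complex.norm_I, mul_one,
        Complex.norm_intCast, mul_pow, sq_abs]
    have hs : ‖cf m ϑ (fun k x => a k x + H k x) l‖ ≤ ‖cf m ϑ a l‖ + ‖cf m ϑ H l‖ := by
      rw [cf_add na nH]
      exact norm_add_le _ _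
    have hq1 := quad hc1 hs (norm_nonneg _)
    have hq4 := quad hc4 hs (norm_nonneg _)
    have hpos : 0 ≤ ‖cf m ϑ a l‖ ^ 2 / (4 * κ - η) := by positivity
    rw [hd]
    by_cases hl1 : l ∈ ({-1, 1} : Finset ℤ)
    · rw [if_pos hl1]
      have hJ' : ‖cf m ϑ a l‖ = J ∧ (l : ℝ) ^ 2 = 1 := by
        rcases Finset.mem_insert.1 hl1 with rfl | h1
        · exact ⟨rfl, by norm_num⟩
        · rw [Finset.mem_singleton.1 h1]
          exact ⟨(cf_neg a 1).symm, by norm_num⟩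
      rw [hJ'.2, ← hJ'.1]
      linarith
    · rw [if_neg hl1]
      by_cases hl0 : l = 0
      · subst hl0
        rw [cf_add na nH, h0]
        simpa using hpos
      · have h2 : (4 : ℝ) ≤ (l : ℝ) ^ 2 := by
          have : (4 : ℤ) ≤ l ^ 2 := by
            simp only [Finset.mem_insert, Finset.mem_singleton, not_or] at hl1
            rcases lt_or_gt_of_ne hl0 with h | h
            · have : l ≤ -2 := by omega
              nlinarith
            · have : 2 ≤ l := by omega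
              nlinarith
          exact_mod_cast this
        have : κ * (4 * ‖cf m ϑ H l‖ ^ 2) ≤ κ * ((l : ℝ) ^ 2 * ‖cf m ϑ H l‖ ^ 2) := by
          gcongr
          linarith
        linarith

end Pool.Agent.Work.MP_267827_an
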