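import Pool.Agent.Work.MP_267827_an.ArcAll
import Pool.Agent.Work.MP_267827_an.Wirt

/-! Summation over the arcs. -/

set_option autoImplicit false

namespace Pool.Agent.Work.MP_267827_an

open MeasureTheory Set Filter Topology Metric Real

theorem sum_num : 1 / (4 * kap - 1 / 200) ≤ 4 + jj ^ 2 / 6 - 1 / 50 - 1 / 5 ∧
    1 / (π * (kap - 1 / 200)) ≤ 7 ∧ 1 / 200 < kap := by
  have x0 := sq_nonneg jj
  have x1 := jj_sq_le
  have e : jj ^ 4 = (jj ^ 2) ^ 2 := by ring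
  unfold kap
  rw [e]
  generalize jj ^ 2 = x at *
  have q0 : 0 < 4 + 4 * x / 3 + x ^ 2 / 8 := by positivity
  have q1 : 4 + 4 * x / 3 + x ^ 2 / 8 ≤ 16.6 := by nlinarith
  have k1 : 0.054 ≤ 9 / 10 / (4 + 4 * x / 3 + x ^ 2 / 8) := by
    rw [le_div_iff₀ q0]; linarith
  refine ⟨?_, ?_, by linarith⟩
  · rw [div_le_iff₀ (by linarith)]
    have : 1 + (4 + x / 6 - 1 / 50 - 1 / 5) / 200 ≤ (4 + x / 6 - 1 / 50 - 1 / 5) * 4 *
        (9 / 10 / (4 + 4 * x / 3 + x ^ 2 / 8)) := by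
      rw [← mul_div_assoc, le_div_iff₀ q0]
      nlinarith
    linarith
  · rw [div_le_iff₀ (mul_pos pi_pos (by linarith))]
    nlinarith [pi_gt_three]

theorem sum_int {E : Type*} [NormedAddCommGroup E] {f : ℝ → E} {a a' K : ℝ}
    (hc : ContinuousOn f (Ioo a a')) (hb : ∀ x ∈ Ioo a a', ‖f x‖ ≤ K) :
    IntegrableOn f (Ioo a a') :=
  IntegrableOn.of_bound (by simp) (hc.aestronglyMeasurable measurableSet_Ioo) K
    ((ae_restrict_iff' measurableSet_Ioo).2 (ae_of_all _ hb))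

theorem sum_ei {a a' : ℝ} (h : a ≤ a') :
    ∫ x in Ioo a a', ei x = -Complex.I * ei a' - -Complex.I * ei a := by
  rw [← integral_Ioc_eq_integral_Ioo, ← intervalIntegral.integral_of_le h]
  refine intervalIntegral.integral_eq_sub_of_hasDerivAt (f := fun x => -Complex.I * ei x)
    (fun x _ => ((hasDerivAt_ei x).const_mul _).congr_deriv ?_)
    (continuous_ei.intervalIntegrable _ _)
  rw [← mul_assoc, neg_mul, Complex.I_mul_I]; simp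

theorem sum_mode {m : ℕ} {ϑ γ h : ℕ → ℝ} (mono : ∀ k, k < m → ϑ k < ϑ (k + 1))
    (per : ϑ m = ϑ 0 + 2 * π) (hpos : ∀ k, k < m → 0 < h k)
    (ang : ∀ k, k < m → ∀ x ∈ Ioo (ϑ k) (ϑ (k + 1)), |x - γ k| < π / 2) {c₁ β₀ s₁ m₀ η Δ : ℝ}
    (η0 : 0 ≤ η)
    (mom : ‖∑ k ∈ Finset.range m, ∫ x in Ioo (ϑ k) (ϑ (k + 1)),
      (exp (3 * s0 s₁ (γ k) (h k) x) : ℝ) * ei x‖ ≤ 5 * Δ)
    (marc : ∀ k, k < m → ‖∫ x in Ioo (ϑ k) (ϑ (k + 1)), ((exp (3 * s0 s₁ (γ k) (h k) x) - m₀ -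
        3 * cf c₁ β₀ s₁ (ϑ k) (ϑ (k + 1)) (γ k) (h k) x : ℝ) : ℂ) * ei x‖ ^ 2 ≤
      η * (ϑ (k + 1) - ϑ k) * (mg c₁ β₀ s₁ (ϑ k) (ϑ (k + 1)) (γ k) (h k) +
        ∫ x in Ioo (ϑ k) (ϑ (k + 1)), cf c₁ β₀ s₁ (ϑ k) (ϑ (k + 1)) (γ k) (h k) x ^ 2)) :
    ‖∑ k ∈ Finset.range m, ∫ x in Ioo (ϑ k) (ϑ (k + 1)),
        (cf c₁ β₀ s₁ (ϑ k) (ϑ (k + 1)) (γ k) (h k) x : ℂ) * ei x‖ ^ 2 ≤
      6 * Δ ^ 2 + 2 * η * ((∑ k ∈ Finset.range m, mg c₁ β₀ s₁ (ϑ k) (ϑ (k + 1)) (γ k) (h k)) +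
        ∑ k ∈ Finset.range m,
          ∫ x in Ioo (ϑ k) (ϑ (k + 1)), cf c₁ β₀ s₁ (ϑ k) (ϑ (k + 1)) (γ k) (h k) x ^ 2) := by
  have tel : ∑ k ∈ Finset.range m, (ϑ (k + 1) - ϑ k) = 2 * π := by
    rw [Finset.sum_range_sub, per]; ring
  have tel2 : ∑ k ∈ Finset.range m, ∫ x in Ioo (ϑ k) (ϑ (k + 1)), ei x = 0 := by
    rw [Finset.sum_congr rfl fun k hk => sum_ei (mono k (Finset.mem_range.1 hk)).le,
      Finset.sum_range_sub (fun k => -Complex.I * ei (ϑ k)), per, ei_add, ei_two_pi]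
    ring
  have cs := Finset.sum_sq_le_sum_mul_sum_of_sq_le_mul (Finset.range m)
    (f := fun k => η * (ϑ (k + 1) - ϑ k))
    (fun k hk => mul_nonneg η0 (sub_nonneg.2 (mono k (Finset.mem_range.1 hk)).le))
    (fun k hk => add_nonneg (mg_nonneg c₁ β₀ s₁ (mono k (Finset.mem_range.1 hk)).le _ _)
      (integral_nonneg fun x => sq_nonneg _)) fun k hk => marc k (Finset.mem_range.1 hk)
  rw [← Finset.mul_sum, tel, Finset.sum_add_distrib] at cs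
  have key : ∀ k ∈ Finset.range m, 3 * ∫ x in Ioo (ϑ k) (ϑ (k + 1)),
      (cf c₁ β₀ s₁ (ϑ k) (ϑ (k + 1)) (γ k) (h k) x : ℂ) * ei x =
      (∫ x in Ioo (ϑ k) (ϑ (k + 1)), (exp (3 * s0 s₁ (γ k) (h k) x) : ℝ) * ei x) -
        m₀ * (∫ x in Ioo (ϑ k) (ϑ (k + 1)), ei x) -
        ∫ x in Ioo (ϑ k) (ϑ (k + 1)), ((exp (3 * s0 s₁ (γ k) (h k) x) - m₀ -
          3 * cf c₁ β₀ s₁ (ϑ k) (ϑ (k + 1)) (γ k) (h k) x : ℝ) : ℂ) * ei x := by
    intro k hk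
    have hk' := Finset.mem_range.1 hk
    obtain ⟨c1, K, c2⟩ := cf_cont c₁ β₀ s₁ (hpos k hk') (ang k hk')
    have c3 := s0_cont s₁ (hpos k hk') (ang k hk')
    have i1 : IntegrableOn (fun x => (cf c₁ β₀ s₁ (ϑ k) (ϑ (k + 1)) (γ k) (h k) x : ℂ) * ei x)
        (Ioo (ϑ k) (ϑ (k + 1))) :=
      sum_int ((Complex.continuous_ofReal.comp_continuousOn c1).mul continuous_ei.continuousOn)
        fun x hx => by simpa using c2 x hx
    have i2 : IntegrableOn (fun x => ((exp (3 * s0 s₁ (γ k) (h k) x) : ℝ) : ℂ) * ei x)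
        (Ioo (ϑ k) (ϑ (k + 1))) :=
      sum_int (K := exp (3 * s₁)) ((Complex.continuous_ofReal.comp_continuousOn
        (continuousOn_const.mul c3).rexp).mul continuous_ei.continuousOn) fun x hx => by
          rw [norm_mul, norm_ei, mul_one, Complex.norm_real, Real.norm_eq_abs, abs_exp]
          exact exp_le_exp.2 (mul_le_mul_of_nonneg_left (min_le_right _ _) (by norm_num))
    have i3 : IntegrableOn ei (Ioo (ϑ k) (ϑ (k + 1))) :=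
      sum_int continuous_ei.continuousOn fun x _ => (norm_ei x).le
    have i4 : IntegrableOn (fun x => ((exp (3 * s0 s₁ (γ k) (h k) x) : ℝ) : ℂ) * ei x - m₀ * ei x)
        (Ioo (ϑ k) (ϑ (k + 1))) := i2.sub (i3.const_mul (m₀ : ℂ))
    rw [← integral_const_mul, ← integral_const_mul, ← integral_sub i2 (i3.const_mul _)]
    have e : ∀ x, ((exp (3 * s0 s₁ (γ k) (h k) x) - m₀ -
        3 * cf c₁ β₀ s₁ (ϑ k) (ϑ (k + 1)) (γ k) (h k) x : ℝ) : ℂ) * ei x =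
        (((exp (3 * s0 s₁ (γ k) (h k) x) : ℝ) : ℂ) * ei x - m₀ * ei x) -
          3 * ((cf c₁ β₀ s₁ (ϑ k) (ϑ (k + 1)) (γ k) (h k) x : ℂ) * ei x) := fun x => by
      simp only [Complex.ofReal_sub, Complex.ofReal_mul, Complex.ofReal_ofNat]; ring
    simp only [e]
    rw [integral_sub i4 (i1.const_mul 3)]
    ring
  have k2 := Finset.sum_congr rfl key
  rw [← Finset.mul_sum, Finset.sum_sub_distrib, Finset.sum_sub_distrib, ← Finset.mul_sum, tel2,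
    mul_zero, sub_zero] at k2
  have k3 := congrArg norm k2
  rw [norm_mul] at k3
  have k4 := (k3.le.trans (norm_sub_le _ _)).trans (add_le_add mom (norm_sum_le _ _))
  simp only [Complex.norm_ofNat] at k4
  have p0 := norm_nonneg (∑ k ∈ Finset.range m, ∫ x in Ioo (ϑ k) (ϑ (k + 1)),
    (cf c₁ β₀ s₁ (ϑ k) (ϑ (k + 1)) (γ k) (h k) x : ℂ) * ei x)
  have alg : ∀ X E Y : ℝ, 0 ≤ X → 3 * X ≤ 5 * Δ + E → E ^ 2 ≤ η * (2 * π) * Y → 0 ≤ η * Y →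
      X ^ 2 ≤ 6 * Δ ^ 2 + 2 * η * Y := fun X E Y a1 a2 a3 a4 => by
    have := pow_le_pow_left₀ (by positivity) a2 2
    nlinarith [sq_nonneg (5 * Δ - E), mul_le_mul_of_nonneg_left pi_le_four a4, sq_nonneg Δ]
  exact alg _ _ _ p0 k4 cs (mul_nonneg η0 (add_nonneg
    (Finset.sum_nonneg fun k hk => mg_nonneg c₁ β₀ s₁ (mono k (Finset.mem_range.1 hk)).le _ _)
    (Finset.sum_nonneg fun k hk => integral_nonneg fun x => sq_nonneg _)))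

theorem sum_alg {y D j bh S T al K0 cm G e A W Z R η c β4 r q n m : ℝ} (hm : m ≤ n)
    (D0 : 0 < D) (D1 : D ≤ 7) (cm0 : 0 ≤ cm) (G0 : 0 ≤ G) (A0 : 0 ≤ A) (β0 : 0 ≤ β4) (Z0 : 0 ≤ Z)
    (η0 : 0 ≤ η) (η1 : η ≤ c / 2100) (η2 : η ≤ cm / 1400) (η3 : η ≤ 1 / 100) (hb : c ≤ bh)
    (S1 : S ≤ T) (S2 : T - S ≤ η) (tot : 0 ≤ -(bh * T) + al * (2 * π) + n * K0)
    (hK : K0 ≤ -(cm * β4)) (r1 : r ≤ 4 + j - 1 / 50 - 1 / 5) (q1 : q ≤ 7)
    (hZ : Z ≤ 6 * (T - S) ^ 2 + 2 * η * (G + A))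
    (hW : -(r * ((y * D) ^ 2 * A)) - q * ((y * D) ^ 2 * Z) ≤ W)
    (hR : y ^ 2 * (-(bh * S) + al * (2 * π) + m * K0 + cm * G - e) +
      (y * D) ^ 2 * (4 + j - 1 / 50) * A + W ≤ R) :
    y ^ 2 * (cm / 2 * (G + (n - m) * β4) - e) ≤ R := by
  have D2 : D ^ 2 ≤ 49 := by nlinarith
  have Δ0 : 0 ≤ T - S := by linarith
  have a1 : (T - S) ^ 2 ≤ η * (T - S) := by nlinarith
  have a2 : Z ≤ 6 * (η * (T - S)) + 2 * (η * G) + 2 * (η * A) := by linarith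
  have a3 : D ^ 2 * Z ≤ 49 * (6 * (η * (T - S)) + 2 * (η * G)) + D ^ 2 * (2 * (η * A)) := by
    have := mul_le_mul_of_nonneg_left a2 (sq_nonneg D)
    have := mul_le_mul_of_nonneg_right D2
      (show 0 ≤ 6 * (η * (T - S)) + 2 * (η * G) by positivity)
    linarith
  have a4 := mul_le_mul_of_nonneg_right q1 (show 0 ≤ D ^ 2 * Z by positivity)
  have a5 := mul_le_mul_of_nonneg_right r1 (show 0 ≤ D ^ 2 * A by positivity)
  have a6 := mul_le_mul_of_nonneg_right η1 Δ0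
  have a7 := mul_le_mul_of_nonneg_right η2 G0
  have a8 := mul_le_mul_of_nonneg_right η3 (show 0 ≤ D ^ 2 * A by positivity)
  have a9 := mul_le_mul_of_nonneg_right hb Δ0
  have a10 := mul_le_mul_of_nonneg_left hK (sub_nonneg.2 hm)
  have a11 : 0 ≤ (n - m) * (cm * β4) := mul_nonneg (sub_nonneg.2 hm) (mul_nonneg cm0 β0)
  have a12 : 0 ≤ η * (T - S) := mul_nonneg η0 Δ0
  have a13 : 0 ≤ η * G := mul_nonneg η0 G0
  have a14 : 0 ≤ D ^ 2 * A := by positivity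
  have key : cm / 2 * (G + (n - m) * β4) - e ≤ -(bh * S) + al * (2 * π) + m * K0 + cm * G - e +
      D ^ 2 * (4 + j - 1 / 50) * A - r * (D ^ 2 * A) - q * (D ^ 2 * Z) := by linarith
  have := mul_le_mul_of_nonneg_left key (sq_nonneg y)
  linarith

theorem sum_arcs {m n : ℕ} {ϑ γ h : ℕ → ℝ} (m0 : 0 < m) (hm : m ≤ n)
    (mono : ∀ k, k < m → ϑ k < ϑ (k + 1))
    (per : ϑ m = ϑ 0 + 2 * π) (hpos : ∀ k, k < m → 0 < h k)
    (ang : ∀ k, k < m → ∀ x ∈ Ioo (ϑ k) (ϑ (k + 1)), |x - γ k| < π / 2) {φ : ℝ → ℝ}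
    {cm Km Mb c₁ s₁ β₀ lam ε μ bh al K0 ω : ℝ} {u : ℂ → ℝ} {O : ℂ}
    (hP : ∀ k, k < m → ∃ G G' G₂ G₂', ArcP φ cm Km Mb c₁ s₁ β₀ lam ε μ bh al K0 ω u O (ϑ k)
      (ϑ (k + 1)) (γ k) (h k) G G' G₂ G₂') {T c η m₀ : ℝ} (cm0 : 0 ≤ cm)
    (η0 : 0 ≤ η) (η1 : η ≤ c / 2100) (η2 : η ≤ cm / 1400) (η3 : η ≤ 1 / 100) (hb : c ≤ bh)
    (tot : 0 ≤ -(bh * T) + al * (2 * π) + n * K0) (hK : K0 ≤ -(cm * β₀ ^ 4))
    (S1 : ∑ k ∈ Finset.range m, ∫ x in Ioo (ϑ k) (ϑ (k + 1)), exp (2 * s0 s₁ (γ k) (h k) x) ≤ T)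
    (S2 : T - ∑ k ∈ Finset.range m,
      ∫ x in Ioo (ϑ k) (ϑ (k + 1)), exp (2 * s0 s₁ (γ k) (h k) x) ≤ η)
    (mom : ‖∑ k ∈ Finset.range m, ∫ x in Ioo (ϑ k) (ϑ (k + 1)),
      (exp (3 * s0 s₁ (γ k) (h k) x) : ℝ) * ei x‖ ≤ 5 * (T - ∑ k ∈ Finset.range m,
        ∫ x in Ioo (ϑ k) (ϑ (k + 1)), exp (2 * s0 s₁ (γ k) (h k) x)))
    (marc : ∀ k, k < m → ‖∫ x in Ioo (ϑ k) (ϑ (k + 1)), ((exp (3 * s0 s₁ (γ k) (h k) x) - m₀ -
        3 * cf c₁ β₀ s₁ (ϑ k) (ϑ (k + 1)) (γ k) (h k) x : ℝ) : ℂ) * ei x‖ ^ 2 ≤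
      η * (ϑ (k + 1) - ϑ k) * (mg c₁ β₀ s₁ (ϑ k) (ϑ (k + 1)) (γ k) (h k) +
        ∫ x in Ioo (ϑ k) (ϑ (k + 1)), cf c₁ β₀ s₁ (ϑ k) (ϑ (k + 1)) (γ k) (h k) x ^ 2)) :
    ∃ y : ℝ, y ^ 2 * (cm / 2 * ((∑ k ∈ Finset.range m, mg c₁ β₀ s₁ (ϑ k) (ϑ (k + 1)) (γ k) (h k)) +
        (n - m) * β₀ ^ 4) - (ε + Km * μ) * (2 * π)) ≤
      ∑ k ∈ Finset.range m, ((∫ p in In s₁ (ϑ k) (ϑ (k + 1)) (γ k) (h k), den u O (lam + μ) p) +
        Mb * ∫ x in Ioo (ϑ k) (ϑ (k + 1)), UU u O (s₁, x) ^ 2) := by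
  choose! G G' G₂ G₂' hP using hP
  have tel : ∑ k ∈ Finset.range m, (ϑ (k + 1) - ϑ k) = 2 * π := by
    rw [Finset.sum_range_sub, per]; ring
  have B0 : 0 < ∑ k ∈ Finset.range m, ∫ x in Ioo (ϑ k) (ϑ (k + 1)), G₂ k x :=
    Finset.sum_pos (fun k hk => (hP k (Finset.mem_range.1 hk)).pos) ⟨0, Finset.mem_range.2 m0⟩
  obtain ⟨y, hy⟩ : ∃ y : ℝ, (∑ k ∈ Finset.range m, ∫ x in Ioo (ϑ k) (ϑ (k + 1)), G k x) -
      y * ∑ k ∈ Finset.range m, ∫ x in Ioo (ϑ k) (ϑ (k + 1)), G₂ k x = 0 :=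
    ⟨_, by rw [div_mul_cancel₀ _ B0.ne', sub_self]⟩
  obtain ⟨n1, n2, n3⟩ := sum_num
  have W := wirtinger (g := fun k => Gp φ u O (ϑ k) - y * ω) mono per
    (H := fun k x => G k x - y * G₂ k x) (H' := fun k x => G' k x - y * G₂' k x)
    (a := fun k x => y * DD * cf c₁ β₀ s₁ (ϑ k) (ϑ (k + 1)) (γ k) (h k) x)
    (fun k hk => (hP k hk).cont.1.sub (continuousOn_const.mul (hP k hk).cont.2))
    (fun k hk x hx => ((hP k hk).der x hx).1.sub (((hP k hk).der x hx).2.const_mul y))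
    (fun k hk => by
      obtain ⟨K, hK⟩ := (hP k hk).bd
      refine ⟨K + |y| * K, fun x hx => (abs_sub _ _).trans (add_le_add (hK x hx).1 ?_)⟩
      rw [abs_mul]
      exact mul_le_mul_of_nonneg_left (hK x hx).2 (abs_nonneg y))
    (fun k hk => by simp only [(hP k hk).left.1, (hP k hk).left.2])
    (fun k hk => by simp only [(hP k hk).right.1, (hP k hk).right.2])
    (by simp only [per, Gp_per])
    (by
      rw [← hy, Finset.mul_sum, ← Finset.sum_sub_distrib]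
      refine Finset.sum_congr rfl fun k hk => ?_
      have c := (hP k (Finset.mem_range.1 hk)).cont
      rw [integral_sub (c.1.integrableOn_Icc.mono_set Ioo_subset_Icc_self)
        ((c.2.integrableOn_Icc.mono_set Ioo_subset_Icc_self).const_mul y), integral_const_mul])
    (fun k hk => continuousOn_const.mul (cf_cont c₁ β₀ s₁ (hpos k hk) (ang k hk)).1)
    (fun k hk => by
      obtain ⟨K, hK⟩ := (cf_cont c₁ β₀ s₁ (hpos k hk) (ang k hk)).2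
      refine ⟨|y * DD| * K, fun x hx => ?_⟩
      rw [abs_mul]
      exact mul_le_mul_of_nonneg_left (hK x hx) (abs_nonneg _))
    n3 (by norm_num)
  have e1 : ∀ a b : ℝ, ∀ z : ℂ, ((a * b : ℝ) : ℂ) * z = a * (b * z) := fun a b z => by
    push_cast; ring
  simp only [mul_pow (y * DD), e1 (y * DD), integral_const_mul ((y * DD) ^ 2),
    integral_const_mul ((y * DD : ℝ) : ℂ), ← Finset.mul_sum] at W
  rw [norm_mul, Complex.norm_real, Real.norm_eq_abs, mul_pow |y * DD|, sq_abs] at W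
  have hR := Finset.sum_le_sum fun k (hk : k ∈ Finset.range m) =>
    (hP k (Finset.mem_range.1 hk)).main y
  rw [Finset.sum_add_distrib, Finset.sum_add_distrib, ← Finset.mul_sum, ← Finset.mul_sum,
    Finset.sum_sub_distrib, Finset.sum_add_distrib, Finset.sum_add_distrib, Finset.sum_add_distrib,
    Finset.sum_neg_distrib, ← Finset.mul_sum, ← Finset.mul_sum, ← Finset.mul_sum, ← Finset.mul_sum,
    tel, Finset.sum_const, Finset.card_range, nsmul_eq_mul] at hR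
  exact ⟨y, sum_alg (Nat.cast_le.2 hm) DD_pos DD_le cm0
    (Finset.sum_nonneg fun k hk => mg_nonneg c₁ β₀ s₁ (mono k (Finset.mem_range.1 hk)).le _ _)
    (Finset.sum_nonneg fun k hk => integral_nonneg fun x => sq_nonneg _) (by positivity)
    (sq_nonneg _) η0 η1 η2 η3 hb S1 S2 tot hK n1 n2 (sum_mode mono per hpos ang η0 mom marc) W hR⟩

end Pool.Agent.Work.MP_267827_an
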