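import Pool.Agent.Work.MP_267827_an.Ground
import Pool.Agent.Work.MP_267827_an.PS.Barta

-- merged part: Pool.Agent.Work.MP_267827_an.Defs2
section
-- merged part: Pool.Agent.Work.MP_267827_an.Ray
section
/-! The radial certificate. -/

set_option autoImplicit false

namespace Pool.Agent.Work.MP_267827_an

open MeasureTheory Set Filter Topology Metric Real

/-- the normal derivative of the ground state -/
noncomputable def DD : ℝ := -ZZ 0

theorem DD_pos : 0 < DD := neg_pos.2 (ZZ_neg le_rfl)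

theorem DD_le : DD ≤ 7 := by
  have := abs_ZZ_le1 (le_refl (0 : ℝ))
  rw [exp_zero, mul_one] at this
  exact (neg_le_abs _).trans this

theorem hasDerivAt_exp_mul (a σ : ℝ) : HasDerivAt (fun σ => exp (a * σ)) (a * exp (a * σ)) σ :=
  (((hasDerivAt_id σ).const_mul a).exp).congr_deriv (by simp only [id]; ring)

theorem tendsto_left {Φ : ℝ → ℝ} (h : Continuous Φ) : Tendsto Φ (𝓝[<] 0) (𝓝 (Φ 0)) :=
  (h.tendsto 0).mono_left nhdsWithin_le_nhds

theorem tendsto_bot_exp {Φ : ℝ → ℝ} {K : ℝ} (K0 : 0 ≤ K) (h : ∀ σ, σ < 0 → |Φ σ| ≤ K * exp σ) :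
    Tendsto Φ atBot (𝓝 0) :=
  tendsto_bot_of_le (K := K) fun σ hσ => by
    have s0 : σ < 0 := by linarith
    rw [div_eq_mul_one_div]
    exact (h σ s0).trans (mul_le_mul_of_nonneg_left (exp_le_inv s0) K0)

/-- the auxiliary function of the certificate -/
noncomputable def gg (σ : ℝ) : ℝ := ZZ σ + DD * exp (2 * σ)

/-- its derivative -/
noncomputable def gg' (σ : ℝ) : ℝ := -(jj ^ 2 * exp (2 * σ) * JJ σ) + DD * (2 * exp (2 * σ))

theorem abs_gg'_le (σ : ℝ) (h : σ ≤ 0) : |gg' σ| ≤ 21 * exp σ := by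
  have h1 := abs_le.1 (abs_JJ_le σ)
  have h2 := exp2_le h
  have h3 := exp_pos (2 * σ)
  have h4 := JJ_nonneg h
  have h5 : jj ^ 2 * exp (2 * σ) * JJ σ ≤ 7 * exp (2 * σ) * 1 := by
    gcongr
    · linarith only [jj_sq_le]
    · exact h1.2
  have h6 : 0 ≤ jj ^ 2 * exp (2 * σ) * JJ σ := by positivity
  have h7 := DD_pos
  have h8 := DD_le
  rw [gg', abs_le]
  constructor <;> linarith only [h2, h3, h5, h7, h6, h8, mul_pos_of_neg_of_neg (Mathlib.Tactic.Linarith.sub_neg_of_lt h3) (Mathlib.Tactic.Linarith.sub_neg_of_lt h7), mul_nonneg_of_nonpos_of_nonpos (le_of_lt (Mathlib.Tactic.Linarith.sub_neg_of_lt h3)) (Mathlib.Tactic.Linarith.sub_nonpos_of_le h8)]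

theorem v1_gg : V1 gg gg' :=
  V1.of_der (fun σ _ => (ZZ_der σ).add ((hasDerivAt_exp_mul 2 σ).const_mul DD))
    (by unfold gg'; fun_prop) (by simp [gg, DD]) abs_gg'_le

theorem V1.B_JJ {f f' : ℝ → ℝ} (h : V1 f f') :
    ∫ σ, f' σ * ZZ σ ∂m0 = jj ^ 2 * ∫ σ, exp (2 * σ) * (JJ σ * f σ) ∂m0 := by
  rw [h.ibp (fun σ _ => ZZ_der σ) (C := 7) ?_ fun σ hσ => abs_ZZ_le1 hσ.le, ← integral_const_mul,
    ← integral_neg]
  · exact integral_congr_ae (Eventually.of_forall fun _ => by simp only; ring)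
  · exact (b0_JJ.int_mul ((int_exp two_pos).const_mul _)).neg

theorem V1.B_gg {f f' : ℝ → ℝ} (h : V1 f f') :
    (∫ σ, gg' σ * f' σ ∂m0) - jj ^ 2 * ∫ σ, exp (2 * σ) * (gg σ * f σ) ∂m0 =
      2 * jj ^ 2 * (∫ σ, exp (2 * σ) * (JJ σ * f σ) ∂m0) - DD * ∫ σ, ph0 σ * f σ ∂m0 := by
  have i2 : Integrable (fun σ => -(jj ^ 2 * (2 * exp (2 * σ)) * JJ σ +
      jj ^ 2 * exp (2 * σ) * ZZ σ) + DD * (2 * (2 * exp (2 * σ)))) m0 :=
    iadd (iadd (b0_JJ.int_mul (((int_exp two_pos).const_mul _).const_mul _))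
      (b0_ZZ.int_mul ((int_exp two_pos).const_mul _))).neg
      ((((int_exp two_pos).const_mul _).const_mul _).const_mul _)
  have := h.ibp (g1 := gg') (fun σ _ =>
    ((((hasDerivAt_exp_mul 2 σ).const_mul (jj ^ 2)).mul (JJ_der σ)).neg).add
      (((hasDerivAt_exp_mul 2 σ).const_mul 2).const_mul DD)) i2 fun σ hσ => abs_gg'_le σ hσ.le
  simp only [mul_comm (f' _)] at this
  rw [this, ← integral_neg, ← integral_const_mul, ← integral_const_mul, ← integral_const_mul,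
    ← integral_sub (ineg (h.b0.mul_int i2)) ((v1_gg.intNN h).const_mul _),
    ← integral_sub ((v1_JJ.intNN h).const_mul _) ((h.b0.int_mul int_ph0).const_mul _)]
  refine integral_congr_ae (Eventually.of_forall fun σ => ?_)
  have e : exp (4 * σ) = exp (2 * σ) * exp (2 * σ) := by rw [← exp_add]; congr 1; ring
  simp only [gg, ph0, e, Pi.neg_apply]
  ring

theorem X0_h : ∫ σ, ph0 σ * exp (2 * σ) ∂m0 = 1 + jj ^ 2 / 6 := by
  have : ∀ σ, ph0 σ * exp (2 * σ) = 4 * exp (4 * σ) + jj ^ 2 * exp (6 * σ) := fun σ => by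
    rw [ph0, add_mul, mul_assoc, mul_assoc, ← exp_add, ← exp_add]
    congr 3 <;> ring
  simp only [this]
  rw [integral_add ((int_exp (by norm_num)).const_mul _) ((int_exp (by norm_num)).const_mul _),
    integral_const_mul, integral_const_mul, integral_exp0 (by norm_num),
    integral_exp0 (by norm_num)]
  ring

theorem norm_ph0 : ∫ σ, ph0 σ ^ 2 ∂m0 = 4 + 4 * jj ^ 2 / 3 + jj ^ 4 / 8 := by
  have : ∀ σ, ph0 σ ^ 2 =
      16 * exp (4 * σ) + 8 * jj ^ 2 * exp (6 * σ) + jj ^ 4 * exp (8 * σ) := fun σ => by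
    have e4 : exp (4 * σ) = exp (2 * σ) ^ 2 := by rw [← exp_nat_mul]; congr 1; push_cast; ring
    have e6 : exp (6 * σ) = exp (2 * σ) ^ 3 := by rw [← exp_nat_mul]; congr 1; push_cast; ring
    have e8 : exp (8 * σ) = exp (2 * σ) ^ 4 := by rw [← exp_nat_mul]; congr 1; push_cast; ring
    rw [ph0, e4, e6, e8]; ring
  simp only [this]
  rw [integral_add (iadd ((int_exp (by norm_num)).const_mul _)
    ((int_exp (by norm_num)).const_mul _)) ((int_exp (by norm_num)).const_mul _),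
    integral_add ((int_exp (by norm_num)).const_mul _) ((int_exp (by norm_num)).const_mul _),
    integral_const_mul, integral_const_mul, integral_const_mul, integral_exp0 (by norm_num),
    integral_exp0 (by norm_num), integral_exp0 (by norm_num)]
  ring

theorem lommel : 2 * jj ^ 2 * ∫ σ, exp (2 * σ) * (JJ σ * ZZ σ) ∂m0 = -DD ^ 2 := by
  have := ftc0 (Φ := fun σ => -(ZZ σ * ZZ σ))
    (Φ' := fun σ => 2 * jj ^ 2 * (exp (2 * σ) * (JJ σ * ZZ σ)))
    (fun σ _ => ((ZZ_der σ).mul (ZZ_der σ)).neg.congr_deriv (by ring))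
    (((b0_JJ.mul b0_ZZ).int_mul (int_exp two_pos)).const_mul _)
    (tendsto_bot_exp (K := 49) (by norm_num) fun σ hσ => by
      have h1 := abs_ZZ_le1 hσ.le
      have h2 := exp_le_one_iff.2 hσ.le
      rw [abs_neg, abs_mul]
      linarith only [h1, h2, abs_nonneg (ZZ σ), exp_pos σ, mul_nonneg_of_nonpos_of_nonpos (Mathlib.Tactic.Linarith.sub_nonpos_of_le h1) (Mathlib.Tactic.Linarith.sub_nonpos_of_le (abs_nonneg (ZZ σ))), mul_nonneg_of_nonpos_of_nonpos (Mathlib.Tactic.Linarith.sub_nonpos_of_le h2) (Mathlib.Tactic.Linarith.sub_nonpos_of_le (abs_nonneg (ZZ σ)))])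
    (tendsto_left (by fun_prop))
  rw [integral_const_mul] at this
  rw [this, DD]; ring

theorem wronski : 2 * jj ^ 2 * (∫ σ, exp (2 * σ) * (JJ σ * exp (2 * σ)) ∂m0) +
    ∫ σ, ph0 σ * ZZ σ ∂m0 = -(2 * DD) := by
  have i1 := ((b0_JJ.mul (b0_exp zero_le_two)).int_mul (int_exp two_pos)).const_mul (2 * jj ^ 2)
  have i2 := b0_ZZ.int_mul int_ph0
  have := ftc0 (Φ := fun σ => 2 * (ZZ σ * exp (2 * σ)) + jj ^ 2 * (JJ σ * exp (4 * σ)))
    (Φ' := fun σ => 2 * jj ^ 2 * (exp (2 * σ) * (JJ σ * exp (2 * σ))) + ph0 σ * ZZ σ)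
    (fun σ _ => ((((ZZ_der σ).mul (hasDerivAt_exp_mul 2 σ)).const_mul 2).add
      (((JJ_der σ).mul (hasDerivAt_exp_mul 4 σ)).const_mul _)).congr_deriv (by
        have e : exp (4 * σ) = exp (2 * σ) * exp (2 * σ) := by rw [← exp_add]; congr 1; ring
        simp only [ph0, e]; ring))
    (iadd i1 i2)
    (tendsto_bot_exp (K := 21) (by norm_num) fun σ hσ => by
      have h1 := abs_ZZ_le1 hσ.le
      have h2 := exp_le_one' zero_le_two hσ
      have h3 : exp (4 * σ) ≤ exp σ := exp_le_exp.2 (by linarith)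
      have h4 := abs_JJ_le σ
      have h5 : jj ^ 2 * (|JJ σ| * exp (4 * σ)) ≤ 7 * (1 * exp σ) := by
        gcongr; linarith only [jj_sq_le]
      refine (abs_add_le _ _).trans ?_
      rw [abs_mul, abs_mul, abs_mul, abs_mul, abs_of_pos (exp_pos _), abs_of_pos (exp_pos _),
        abs_two, abs_of_nonneg (sq_nonneg jj)]
      linarith only [h1, h5, h2, abs_nonneg (ZZ σ), exp_pos (2 * σ), mul_nonneg_of_nonpos_of_nonpos (Mathlib.Tactic.Linarith.sub_nonpos_of_le h2) (Mathlib.Tactic.Linarith.sub_nonpos_of_le (abs_nonneg (ZZ σ)))])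
    (tendsto_left (by fun_prop))
  rw [integral_add i1 i2, integral_const_mul] at this
  rw [this, DD, JJ_zero]; simp

/-- the exact identity behind the certificate -/
theorem V1.cert {f f' : ℝ → ℝ} (h : V1 f f') (a : ℝ) :
    (∫ σ, f' σ ^ 2 ∂m0) - jj ^ 2 * (∫ σ, exp (2 * σ) * f σ ^ 2 ∂m0) -
        4 * jj ^ 2 * a * ∫ σ, exp (2 * σ) * (JJ σ * f σ) ∂m0 =
      ((∫ σ, (-a * gg' σ + f' σ) ^ 2 ∂m0) -
        jj ^ 2 * ∫ σ, exp (2 * σ) * (-a * gg σ + f σ) ^ 2 ∂m0) -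
      2 * (a * DD) * ((∫ σ, ph0 σ * f σ ∂m0) - a * ∫ σ, ph0 σ * ZZ σ ∂m0) +
      (a * DD) ^ 2 * (4 + jj ^ 2 / 6) := by
  have h1 := h.B_gg
  have h2 := v1_gg.B_gg
  have h3 : ∫ σ, exp (2 * σ) * (JJ σ * gg σ) ∂m0 = (∫ σ, exp (2 * σ) * (JJ σ * ZZ σ) ∂m0) +
      DD * ∫ σ, exp (2 * σ) * (JJ σ * exp (2 * σ)) ∂m0 := by
    rw [← integral_const_mul, ← integral_add ((b0_JJ.mul b0_ZZ).int_mul (int_exp two_pos))
      (((b0_JJ.mul (b0_exp zero_le_two)).int_mul (int_exp two_pos)).const_mul _)]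
    exact integral_congr_ae (Eventually.of_forall fun _ => by simp only [gg]; ring)
  have h4 : ∫ σ, ph0 σ * gg σ ∂m0 = (∫ σ, ph0 σ * ZZ σ ∂m0) +
      DD * ∫ σ, ph0 σ * exp (2 * σ) ∂m0 := by
    rw [← integral_const_mul, ← integral_add (b0_ZZ.int_mul int_ph0)
      (((b0_exp zero_le_two).int_mul int_ph0).const_mul _)]
    exact integral_congr_ae (Eventually.of_forall fun _ => by simp only [gg]; ring)
  rw [h3, h4, X0_h] at h2
  simp only [← pow_two] at h2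
  rw [int_sq_add' _ v1_gg.intD (v1_gg.intDD h) h.intD,
    int_sq_add _ v1_gg.intN (v1_gg.intNN h) h.intN]
  linear_combination (2 * a) * h1 - a ^ 2 * h2 - a ^ 2 * lommel - a ^ 2 * DD * wronski

/-- admissible weights -/
structure Wt (u0 K : ℝ) (φ φ' φ'' : ℝ → ℝ) : Prop where
  der : ∀ s, HasDerivAt φ (φ' s) s
  der2 : ∀ s, HasDerivAt φ' (φ'' s) s
  nn : ∀ s, 0 ≤ φ s
  le : ∀ s, φ s ≤ ph0 s
  eq : ∀ s, s ≤ -(2 * u0) → φ s = ph0 s
  zero : ∀ s, -u0 ≤ s → φ s = 0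
  b1 : ∀ s, |φ' s| ≤ K * exp (2 * s)
  b2 : ∀ s, |φ'' s| ≤ K * exp (2 * s)

theorem wt_aux {F G : ℝ → ℝ} (hF : Continuous F) {C : ℝ} (h1 : ∀ s, s < -1 → F s = G s)
    (h2 : ∀ s, s < -1 → |G s| ≤ C * exp (2 * s)) (h3 : ∀ s, 0 < s → F s = 0) :
    ∃ K, 0 ≤ K ∧ ∀ s, |F s| ≤ K * exp (2 * s) := by
  obtain ⟨M, hM⟩ := (isCompact_Icc (a := (-1 : ℝ)) (b := 0)).exists_bound_of_continuousOn
    hF.continuousOn
  refine ⟨|C| + |M| * exp 2, by positivity, fun s => ?_⟩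
  have p := exp_pos (2 * s)
  have p1 : 0 ≤ |M| * exp 2 * exp (2 * s) := by positivity
  have p2 : 0 ≤ |C| * exp (2 * s) := by positivity
  rcases lt_or_ge s (-1) with c | c
  · have := h2 s c
    rw [h1 s c]
    clear * - G s C M p1 this p
    linarith only [p1, this, p, le_abs_self C, mul_nonneg_of_nonpos_of_nonpos (le_of_lt (Mathlib.Tactic.Linarith.sub_neg_of_lt p)) (Mathlib.Tactic.Linarith.sub_nonpos_of_le (le_abs_self C))]
  rcases le_or_gt s 0 with c' | c'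
  · have h4 : |F s| ≤ M := hM s ⟨c, c'⟩
    have h5 : 1 ≤ exp 2 * exp (2 * s) := by rw [← exp_add]; exact one_le_exp (by linarith)
    clear * - F s C M p2 h4 p1 h5
    (refine le_of_not_gt fun h_nl => ?_; linarith only [h_nl, p2, h4, p1, h5, le_abs_self M, abs_nonneg M, mul_nonneg_of_nonpos_of_nonpos (Mathlib.Tactic.Linarith.sub_nonpos_of_le p1) (Mathlib.Tactic.Linarith.sub_nonpos_of_le h5), mul_nonneg_of_nonpos_of_nonpos (Mathlib.Tactic.Linarith.sub_nonpos_of_le p2) (Mathlib.Tactic.Linarith.sub_nonpos_of_le h5), mul_nonneg_of_nonpos_of_nonpos (Mathlib.Tactic.Linarith.sub_nonpos_of_le h4) (Mathlib.Tactic.Linarith.sub_nonpos_of_le h5), mul_nonneg_of_nonpos_of_nonpos (Mathlib.Tactic.Linarith.sub_nonpos_of_le h5) (le_of_lt (Mathlib.Tactic.Linarith.sub_neg_of_lt h_nl)), mul_nonneg_of_nonpos_of_nonpos (Mathlib.Tactic.Linarith.sub_nonpos_of_le h5) (Mathlib.Tactic.Linarith.sub_nonpos_of_le (le_abs_self M))])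
  · rw [h3 s c', abs_zero]; positivity

theorem exists_wt {u0 : ℝ} (h0 : 0 < u0) (h1 : u0 ≤ 1 / 4) :
    ∃ (K : ℝ) (φ φ' φ'' : ℝ → ℝ), 1 ≤ K ∧ Wt u0 K φ φ' φ'' := by
  let φ : ℝ → ℝ := fun s => ph0 s * smoothTransition ((-u0 - s) / u0)
  have cφ : ContDiff ℝ 2 φ := by
    refine ContDiff.mul (by unfold ph0; fun_prop) (smoothTransition.contDiff.comp (by fun_prop))
  have cφ' : ContDiff ℝ 1 (deriv φ) := cφ.deriv'
  have e1 : ∀ s, s ≤ -(2 * u0) → φ s = ph0 s := fun s hs => by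
    simp only [φ]
    rw [smoothTransition.one_of_one_le ((le_div_iff₀ h0).2 (by linarith only [hs])), mul_one]
  have e2 : ∀ s, -u0 ≤ s → φ s = 0 := fun s hs => by
    simp only [φ]
    rw [smoothTransition.zero_of_nonpos (div_nonpos_of_nonpos_of_nonneg (by linarith) h0.le),
      mul_zero]
  have d1 : ∀ s, s < -1 → deriv φ s = 4 * (2 * exp (2 * s)) + jj ^ 2 * (4 * exp (4 * s)) := by
    intro s hs
    refine HasDerivAt.deriv ((((hasDerivAt_exp_mul 2 s).const_mul 4).add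
      ((hasDerivAt_exp_mul 4 s).const_mul (jj ^ 2))).congr_of_eventuallyEq ?_)
    filter_upwards [Iio_mem_nhds hs] with x hx
    exact e1 x (by linarith only [h0, h1, hx, mem_Iio.1 hx])
  have d2 : ∀ s, s < -1 → deriv (deriv φ) s =
      4 * (2 * (2 * exp (2 * s))) + jj ^ 2 * (4 * (4 * exp (4 * s))) := by
    intro s hs
    refine HasDerivAt.deriv (((((hasDerivAt_exp_mul 2 s).const_mul 2).const_mul 4).add
      (((hasDerivAt_exp_mul 4 s).const_mul 4).const_mul (jj ^ 2))).congr_of_eventuallyEq ?_)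
    filter_upwards [Iio_mem_nhds hs] with x hx
    exact d1 x hx
  have z1 : ∀ s, 0 < s → deriv φ s = 0 := by
    intro s hs
    refine HasDerivAt.deriv ((hasDerivAt_const s (0 : ℝ)).congr_of_eventuallyEq ?_)
    filter_upwards [Ioi_mem_nhds hs] with x hx
    exact e2 x (by linarith [mem_Ioi.1 hx])
  have z2 : ∀ s, 0 < s → deriv (deriv φ) s = 0 := by
    intro s hs
    refine HasDerivAt.deriv ((hasDerivAt_const s (0 : ℝ)).congr_of_eventuallyEq ?_)
    filter_upwards [Ioi_mem_nhds hs] with x hx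
    exact z1 x hx
  have ee : ∀ s, s < -1 → jj ^ 2 * exp (4 * s) ≤ 7 * exp (2 * s) := fun s hs =>
    mul_le_mul (by linarith only [h0, h1, jj_sq_le]) (exp_le_exp.2 (by linarith only [h0, h1, hs])) (exp_pos _).le (by norm_num)
  obtain ⟨K₁, k1, hK₁⟩ := wt_aux cφ'.continuous (C := 36) d1 (fun s hs => by
    rw [abs_of_pos (by have := jj_pos; positivity)]; linarith [ee s hs]) z1
  obtain ⟨K₂, k2, hK₂⟩ := wt_aux (cφ'.continuous_deriv le_rfl) (C := 128) d2 (fun s hs => by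
    rw [abs_of_pos (by have := jj_pos; positivity)]; linarith [ee s hs]) z2
  refine ⟨1 + K₁ + K₂, φ, deriv φ, deriv (deriv φ), by linarith,
    fun s => (cφ.differentiable (by norm_num) s).hasDerivAt,
    fun s => (cφ'.differentiable (by norm_num) s).hasDerivAt,
    fun s => mul_nonneg (ph0_pos s).le (smoothTransition.nonneg _),
    fun s => mul_le_of_le_one_right (ph0_pos s).le (smoothTransition.le_one _), e1, e2,
    fun s => (hK₁ s).trans ?_, fun s => (hK₂ s).trans ?_⟩ <;>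
  exact mul_le_mul_of_nonneg_right (by linarith only [h0, h1, k2, k1]) (exp_pos _).le

namespace Wt

variable {u0 K : ℝ} {φ φ' φ'' : ℝ → ℝ}

theorem cont (h : Wt u0 K φ φ' φ'') : Continuous φ :=
  continuous_iff_continuousAt.2 fun x => (h.der x).continuousAt

theorem cont' (h : Wt u0 K φ φ' φ'') : Continuous φ' :=
  continuous_iff_continuousAt.2 fun x => (h.der2 x).continuousAt

theorem abs_le (h : Wt u0 K φ φ' φ'') (h0 : 0 < u0) (s : ℝ) : |φ s| ≤ 11 * exp (2 * s) := by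
  rw [abs_of_nonneg (h.nn s)]
  rcases le_total s 0 with c | c
  · exact (h.le s).trans (ph0_le c)
  · rw [h.zero s (by linarith)]; positivity

theorem int (h : Wt u0 K φ φ' φ'') (h0 : 0 < u0) : Integrable φ m0 :=
  int_of_cont h.cont.continuousOn two_pos fun s _ => h.abs_le h0 s

theorem int' (h : Wt u0 K φ φ' φ'') : Integrable φ' m0 :=
  int_of_cont h.cont'.continuousOn two_pos fun s _ => h.b1 s

theorem ibp (h : Wt u0 K φ φ' φ'') (h0 : 0 < u0) :
    ∫ σ, φ' σ * JJ σ ∂m0 = -∫ σ, φ σ * ZZ σ ∂m0 := by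
  have := v1_JJ.ibp (fun σ _ => h.der σ) h.int' (C := 11) fun σ hσ =>
    (h.abs_le h0 σ).trans (by linarith [exp2_le hσ.le])
  simp only [mul_comm (ZZ _), mul_comm (JJ _)] at this
  linarith

end Wt

/-- the conclusion of the radial certificate -/
def RayP (φ : ℝ → ℝ) (c0 K δ : ℝ) : Prop :=
  ∀ f f' : ℝ → ℝ, V1 f f' → ∀ y c lam H : ℝ, |c| ≤ δ → jj ^ 2 - δ ≤ lam → lam ≤ jj ^ 2 →
    -(2 * (y * c * DD) * H) + (y * c * DD) ^ 2 * (4 + jj ^ 2 / 6 - 1 / 200) - 1 / 200 * H ^ 2 +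
        c0 * (∫ σ, f' σ ^ 2 ∂m0) -
        K * (H - ((∫ σ, φ σ * f σ ∂m0) - y * c * ∫ σ, φ σ * ZZ σ ∂m0)) ^ 2 ≤
      (∫ σ, f' σ ^ 2 ∂m0) - lam * exp (2 * c) * (∫ σ, exp (2 * σ) * f σ ^ 2 ∂m0) -
        2 * y * lam * (exp (2 * c) - 1) * ∫ σ, exp (2 * σ) * (JJ σ * f σ) ∂m0

theorem ray_alg1 {j2 lam c s y P d Df : ℝ} (j6 : j2 ≤ 6.0025) (s0 : 0 < s) (s1 : s ≤ 1 / 4)
    (hc : |c| ≤ s) (l1 : j2 - s ≤ lam) (l2 : lam ≤ j2) (lam0 : |lam| ≤ 7) (P1 : |P| ≤ 1 * d)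
    (hd : d ^ 2 = Df) :
    -(30 * s * (Df + (y * c) ^ 2)) ≤ (4 * j2 * (y * c) - 2 * y * lam * (exp (2 * c) - 1)) * P := by
  have c2 : |2 * c| ≤ 1 := by clear * - c s s0 s1 hc; rw [abs_mul, abs_two]; linarith only [s0, s1, hc]
  have x2 := abs_exp_sub_one_sub_id_le c2
  have k1 : |4 * j2 * c - 2 * lam * (exp (2 * c) - 1)| ≤ 60 * s * |c| := by
    clear * - j2 c lam s l2 lam0 x2 hc l1
    have e : 4 * j2 * c - 2 * lam * (exp (2 * c) - 1) =
        4 * (j2 - lam) * c - 2 * (lam * (exp (2 * c) - 1 - 2 * c)) := by ring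
    rw [e]
    refine (abs_sub _ _).trans ?_
    rw [abs_mul, abs_mul, abs_mul, abs_mul, abs_two, abs_of_nonneg (by linarith : 0 ≤ j2 - lam),
      abs_of_pos (by norm_num : (0 : ℝ) < 4)]
    have k2 : |lam| * |exp (2 * c) - 1 - 2 * c| ≤ 7 * (2 * c) ^ 2 :=
      mul_le_mul lam0 x2 (abs_nonneg _) (by norm_num)
    have k3 : c ^ 2 ≤ s * |c| := by
      rw [← sq_abs, sq]; exact mul_le_mul_of_nonneg_right hc (abs_nonneg c)
    have k4 : (j2 - lam) * |c| ≤ s * |c| :=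
      mul_le_mul_of_nonneg_right (by linarith) (abs_nonneg c)
    linarith only [k2, k3, k4]
  have k2 : |(4 * j2 * (y * c) - 2 * y * lam * (exp (2 * c) - 1)) * P| ≤
      60 * s * (|y * c| * d) := by
    clear * - j2 y c lam P s d k1 P1 s0
    have e : (4 * j2 * (y * c) - 2 * y * lam * (exp (2 * c) - 1)) * P =
        (4 * j2 * c - 2 * lam * (exp (2 * c) - 1)) * (y * P) := by ring
    rw [e, abs_mul, abs_mul, abs_mul]
    calc _ ≤ 60 * s * |c| * (|y| * (1 * d)) := by gcongr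
      _ = _ := by ring
  have k3 := (abs_le.1 k2).1
  have k4 : 2 * (|y * c| * d) ≤ Df + (y * c) ^ 2 := by
    have := sq_nonneg (|y * c| - d)
    have := sq_abs (y * c)
    linarith
  have := mul_le_mul_of_nonneg_left k4 s0.le
  linarith only [k3, this]

theorem ray_alg2 {s d a' x z Df : ℝ} (s0 : 0 < s) (s1 : s ≤ 1 / 4) (R1 : |x| ≤ 2 * (44 * s) * d)
    (R2 : |z| ≤ 462 * s) (hd : d ^ 2 = Df) :
    (x - a' * z) ^ 2 ≤ 2 * 1386 ^ 2 * s * (Df + a' ^ 2) := by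
  have k1 : |x - a' * z| ≤ 462 * s * (|d| + |a'|) := by
    refine (abs_sub _ _).trans ?_
    rw [abs_mul]
    have := mul_le_mul_of_nonneg_left R2 (abs_nonneg a')
    have := mul_le_mul_of_nonneg_left (le_abs_self d) s0.le
    have := mul_nonneg s0.le (abs_nonneg d)
    linarith
  have k2 := pow_le_pow_left₀ (abs_nonneg _) k1 2
  have k3 : (|d| + |a'|) ^ 2 ≤ 2 * (Df + a' ^ 2) := by
    have := sq_nonneg (|d| - |a'|)
    have := sq_abs a'
    have := sq_abs d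
    linarith
  have k4 : s ^ 2 ≤ s := by clear * - s s0 s1; linarith only [s0, s1, mul_nonneg_of_nonpos_of_nonpos (le_of_lt (Mathlib.Tactic.Linarith.sub_neg_of_lt s0)) (Mathlib.Tactic.Linarith.sub_nonpos_of_le s1)]
  rw [sq_abs, mul_pow, mul_pow] at k2
  have k5 : 0 ≤ Df + a' ^ 2 := by rw [← hd]; positivity
  calc _ ≤ 462 ^ 2 * s ^ 2 * (|d| + |a'|) ^ 2 := k2
    _ ≤ 462 ^ 2 * s * (2 * (Df + a' ^ 2)) := by gcongr
    _ ≤ _ := by linarith only [s0, k5, mul_nonneg s0.le k5]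

theorem ray_alg {j2 D K' G μ c0 s y c lam H d Df Nf P Du Nu X0f X0z Xf Xz a' a : ℝ}
    (ha' : a' = y * c) (ha : a = a' * D) (K'0 : 0 < K') (D0 : 0 < D) (μ0 : 0 < μ)
    (μ1 : μ ≤ 1 / 800) (μ2 : (36 + G / (K' * D ^ 2)) * μ ≤ 1 / 800) (s0 : 0 < s) (s1 : s ≤ 1 / 4)
    (hc0 : c0 = 1 / (4 * K') * μ) (s2 : (801 * (2 * 1386 ^ 2) + 60) * s ≤ c0)
    (s3 : (801 * (2 * 1386 ^ 2) + 60) * s ≤ D ^ 2 / 800) (j6 : j2 ≤ 6.0025) (hc : |c| ≤ s)
    (l1 : j2 - s ≤ lam) (l2 : lam ≤ j2)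
    (cert : Df - j2 * Nf - 4 * j2 * a' * P =
      Du - j2 * Nu - 2 * a * (X0f - a' * X0z) + a ^ 2 * (4 + j2 / 6))
    (co : Du ≤ K' * (Du - j2 * Nu + (X0f - a' * X0z - a * (1 + j2 / 6)) ^ 2))
    (gr : j2 * Nu ≤ Du) (D1 : Df ≤ 2 * Du + 2 * a' ^ 2 * G)
    (R1 : |X0f - Xf| ≤ 2 * (44 * s) * d) (R2 : |X0z - Xz| ≤ 462 * s) (P1 : |P| ≤ 1 * d)
    (N1 : Nf ≤ Df) (N0 : 0 ≤ Nf) (hd : d ^ 2 = Df) (j0 : 0 ≤ j2) :
    -(2 * a * H) + a ^ 2 * (4 + j2 / 6 - 1 / 200) - 1 / 200 * H ^ 2 + c0 * Df -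
        801 * (H - (Xf - a' * Xz)) ^ 2 ≤
      Df - lam * exp (2 * c) * Nf - 2 * y * lam * (exp (2 * c) - 1) * P := by
  have lam0 : |lam| ≤ 7 := by clear * - lam μ s j2 μ0 μ1 s1 l1 j0 j6 l2; rw [abs_le]; constructor <;> linarith only [μ0, μ1, s1, l1, j0, j6, l2]
  have E2 := ray_alg1 (y := y) j6 s0 s1 hc l1 l2 lam0 P1 hd
  rw [← ha'] at E2
  have E3 := ray_alg2 (a' := a') s0 s1 R1 R2 hd
  obtain ⟨ξ, hξ⟩ : ∃ ξ, ξ = H - (Xf - a' * Xz) := ⟨_, rfl⟩
  obtain ⟨ρ, hρ⟩ : ∃ ρ, ρ = (X0f - Xf) - a' * (X0z - Xz) := ⟨_, rfl⟩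
  have eY : X0f - a' * X0z = H - ξ + ρ := by rw [hξ, hρ]; ring
  rw [eY] at cert co
  rw [← hρ] at E3
  rw [← hξ]
  have E1 : -(30 * s * Df) ≤ (j2 - lam * exp (2 * c)) * Nf := by
    clear * - c μ s μ0 μ1 s1 hc lam lam0 j2 s0 l2 Nf N0 Df N1
    have c2 : |2 * c| ≤ 1 := by rw [abs_mul, abs_two]; linarith only [μ0, μ1, s1, hc]
    have x1 := abs_exp_sub_one_le c2
    rw [abs_mul, abs_two] at x1
    have : |lam * (exp (2 * c) - 1)| ≤ 7 * (4 * s) := by
      clear * - lam c s lam0 hc x1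
      rw [abs_mul]; exact mul_le_mul lam0 (by linarith only [hc, x1]) (abs_nonneg _) (by norm_num)
    have h1 : -(30 * s) ≤ j2 - lam * exp (2 * c) := by linarith only [s0, l2, this, (abs_le.1 this).2]
    have h2 := mul_le_mul_of_nonneg_right h1 N0
    have h3 := mul_le_mul_of_nonneg_left N1 s0.le
    linarith only [h2, h3]
  have E4 : 2 * c0 * Df - μ * (G / (K' * D ^ 2)) * a ^ 2 -
      4 * μ * (H ^ 2 + ξ ^ 2 + ρ ^ 2 + 9 * a ^ 2) ≤ Du - j2 * Nu := by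
    clear * - H ξ ρ a j2 μ μ0 μ1 j0 j6 Df K' G D Du Nu a' ha D0 K'0 D1 co c0 hc0 gr
    have k1 : (H - ξ + ρ - a * (1 + j2 / 6)) ^ 2 ≤ 4 * (H ^ 2 + ξ ^ 2 + ρ ^ 2 + 9 * a ^ 2) := by
      clear * - a j2 μ μ0 μ1 j0 j6 H ξ ρ
      have k : (a * (1 + j2 / 6)) ^ 2 ≤ 9 * a ^ 2 := by
        rw [mul_pow, mul_comm]
        refine mul_le_mul_of_nonneg_right ?_ (sq_nonneg _)
        calc (1 + j2 / 6) ^ 2 ≤ 3 ^ 2 := pow_le_pow_left₀ (by linarith only [μ0, μ1, j0]) (by linarith only [μ0, μ1, j6]) 2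
          _ = 9 := by norm_num
      generalize a * (1 + j2 / 6) = z at k ⊢
      linarith only [k, sq_nonneg (H + ξ), sq_nonneg (H - ρ), sq_nonneg (H + z), sq_nonneg (ξ + ρ),
        sq_nonneg (ξ - z), sq_nonneg (ρ + z)]
    have k2 : Df / (2 * K') - G / (K' * D ^ 2) * a ^ 2 ≤
        Du - j2 * Nu + (H - ξ + ρ - a * (1 + j2 / 6)) ^ 2 := by
      clear * - Df K' G D a a' ha D0 K'0 Du j2 Nu H ξ ρ D1 co
      have e : Df / (2 * K') - G / (K' * D ^ 2) * a ^ 2 = (Df / 2 - a' ^ 2 * G) / K' := by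
        rw [ha]; field_simp
      rw [e, div_le_iff₀ K'0]
      linarith only [D1, co]
    have k3 := mul_le_mul_of_nonneg_left (k2.trans (add_le_add_right k1 _)) μ0.le
    have e : 2 * c0 * Df = μ * (Df / (2 * K')) := by rw [hc0]; field_simp; ring
    have k4 := mul_le_mul_of_nonneg_right μ1 (sub_nonneg.2 gr)
    clear * - c0 Df μ G K' D a H ξ ρ Du j2 Nu gr k3 e k4
    linarith only [gr, k3, e, k4]
  have E5 : -(2 * a * (H - ξ + ρ)) ≥ -(2 * a * H) - a ^ 2 / 400 - 800 * (ξ ^ 2 + ρ ^ 2) := by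
    clear * - a H ξ ρ
    linarith only [sq_nonneg (a / 800 + ξ), sq_nonneg (a / 800 - ρ)]
  have Df0 : 0 ≤ Df := by rw [← hd]; positivity
  have F1 := mul_le_mul_of_nonneg_right s2 Df0
  have F2 := mul_le_mul_of_nonneg_right s3 (sq_nonneg a')
  have F3 := mul_le_mul_of_nonneg_right μ2 (sq_nonneg a)
  have F4 := mul_le_mul_of_nonneg_right μ1 (sq_nonneg H)
  have F5 := mul_le_mul_of_nonneg_right μ1 (sq_nonneg ξ)
  have F6 := mul_le_mul_of_nonneg_right μ1 (sq_nonneg ρ)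
  have F7 : D ^ 2 / 800 * a' ^ 2 = a ^ 2 / 800 := by rw [ha]; ring
  have F8 := mul_nonneg s0.le (sq_nonneg a')
  clear * - a H j2 c0 Df ξ lam c Nf y P s a' ρ Du Nu μ G K' D E2 E3 cert E1 E4 E5 F1 F2 F3 F4 F5
    F6 F7 F8
  linarith only [E2, E3, cert, E1, E4, E5, F1, F2, F3, F4, F5, F6, F7, F8, sq_nonneg ξ, sq_nonneg ρ]

theorem ray_ex : ∃ u0 c0 δ : ℝ, 0 < u0 ∧ u0 ≤ 1 / 4 ∧ 0 < c0 ∧ c0 ≤ 1 ∧ 0 < δ ∧ δ ≤ 1 / 4 ∧
    ∀ (K : ℝ) (φ φ' φ'' : ℝ → ℝ), Wt u0 K φ φ' φ'' → RayP φ c0 801 δ := by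
  obtain ⟨K', K'0, hK'⟩ := coercive
  set G := ∫ σ, gg' σ ^ 2 ∂m0 with hG
  have G0 : 0 ≤ G := integral_nonneg fun _ => sq_nonneg _
  have D0 := DD_pos
  obtain ⟨μ, ⟨μ0, μ1⟩, μ2, μ3⟩ := ((ev_le (B := 1 / 800) (by norm_num)).and
    ((ev_small (36 + G / (K' * DD ^ 2)) (B := 1 / 800) (by norm_num)).and
    (ev_small (1 / (4 * K')) one_pos))).exists
  set c0 := 1 / (4 * K') * μ with hc0
  have c00 : 0 < c0 := by positivity
  obtain ⟨s, ⟨s0, s1⟩, s2, s3⟩ := ((ev_le (B := 1 / 4) (by norm_num)).and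
    ((ev_small (801 * (2 * 1386 ^ 2) + 60) c00).and
    (ev_small (801 * (2 * 1386 ^ 2) + 60) (B := DD ^ 2 / 800) (by positivity)))).exists
  refine ⟨s, c0, s, s0, s1, c00, μ3, s0, s1, fun K φ φ' φ'' hφ f f' h y c lam H hc l1 l2 => ?_⟩
  have cert := h.cert (y * c)
  have hu := V1.lin (-(y * c)) v1_gg h
  have co := hK' _ _ hu
  have gr := hu.ground
  have X1 : ∫ σ, ph0 σ * (-(y * c) * gg σ + f σ) ∂m0 = (∫ σ, ph0 σ * f σ ∂m0) -
      y * c * (∫ σ, ph0 σ * ZZ σ ∂m0) - y * c * DD * (1 + jj ^ 2 / 6) := by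
    rw [← X0_h, ← integral_const_mul, ← integral_const_mul,
      ← integral_sub (h.b0.int_mul int_ph0) ((b0_ZZ.int_mul int_ph0).const_mul _),
      ← integral_sub (isub (h.b0.int_mul int_ph0) ((b0_ZZ.int_mul int_ph0).const_mul _))
        (((b0_exp zero_le_two).int_mul int_ph0).const_mul _)]
    exact integral_congr_ae (Eventually.of_forall fun _ => by simp only [gg]; ring)
  have D1 : ∫ σ, f' σ ^ 2 ∂m0 ≤ 2 * (∫ σ, (-(y * c) * gg' σ + f' σ) ^ 2 ∂m0) +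
      2 * (y * c) ^ 2 * G := by
    clear * - f' y c G hG f hu h
    rw [hG, ← integral_const_mul, ← integral_const_mul,
      ← integral_add (hu.intD.const_mul _) (v1_gg.intD.const_mul _)]
    refine integral_mono h.intD (iadd (hu.intD.const_mul _) (v1_gg.intD.const_mul _)) fun σ => ?_
    simp only
    linarith only [sq_nonneg (f' σ - 2 * (y * c) * gg' σ), sq_nonneg (f' σ - (2 : ℝ) * (y * c) * gg' σ)]
  have w1 : ∀ σ, σ < 0 → |ph0 σ - φ σ| ≤ if -(2 * s) < σ then 11 else 0 := by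
    clear * - φ s K φ' φ'' hφ c
    intro σ hσ
    split_ifs with c
    · rw [abs_of_nonneg (by linarith [hφ.le σ])]
      linarith only [hφ, hσ, hφ.nn σ, ph0_le hσ.le, exp_le_one' zero_le_two hσ]
    · rw [hφ.eq σ (not_lt.1 c)]; simp
  have R1 : |(∫ σ, ph0 σ * f σ ∂m0) - ∫ σ, φ σ * f σ ∂m0| ≤
      2 * (44 * s) * √(∫ σ, f' σ ^ 2 ∂m0) := by
    clear * - f φ s f' h K φ' φ'' hφ s0 w1 c0 K' μ μ3 s2 c
    rw [← integral_sub (h.b0.int_mul int_ph0) (h.b0.int_mul (hφ.int s0))]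
    simp only [← sub_mul]
    refine h.ip_hardy fun σ hσ => ?_
    have := w1 σ hσ
    split_ifs at this with c
    · have e := add_one_le_exp σ
      rw [abs_of_neg hσ]
      clear * - σ φ s c0 K' μ c μ3 s0 hσ s2 e this
      (refine le_of_not_gt fun h_nl => ?_; linarith only [h_nl, c, μ3, s0, hσ, s2, e, this, abs_nonneg (ph0 σ - φ σ), mul_nonneg_of_nonpos_of_nonpos (Mathlib.Tactic.Linarith.sub_nonpos_of_le μ3) (le_of_lt (Mathlib.Tactic.Linarith.sub_neg_of_lt s0)), mul_nonneg_of_nonpos_of_nonpos (Mathlib.Tactic.Linarith.sub_nonpos_of_le μ3) (le_of_lt (Mathlib.Tactic.Linarith.sub_neg_of_lt hσ)), mul_nonneg_of_nonpos_of_nonpos (Mathlib.Tactic.Linarith.sub_nonpos_of_le μ3) (le_of_lt (Mathlib.Tactic.Linarith.sub_neg_of_lt h_nl)), mul_pos_of_neg_of_neg (Mathlib.Tactic.Linarith.sub_neg_of_lt s0) (Mathlib.Tactic.Linarith.sub_neg_of_lt s0), mul_nonneg_of_nonpos_of_nonpos (le_of_lt (Mathlib.Tactic.Linarith.sub_neg_of_lt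 s0)) (Mathlib.Tactic.Linarith.sub_nonpos_of_le s2), mul_nonneg_of_nonpos_of_nonpos (le_of_lt (Mathlib.Tactic.Linarith.sub_neg_of_lt s0)) (Mathlib.Tactic.Linarith.sub_nonpos_of_le e), mul_pos_of_neg_of_neg (Mathlib.Tactic.Linarith.sub_neg_of_lt s0) (Mathlib.Tactic.Linarith.sub_neg_of_lt h_nl), mul_nonneg_of_nonpos_of_nonpos (Mathlib.Tactic.Linarith.sub_nonpos_of_le s2) (le_of_lt (Mathlib.Tactic.Linarith.sub_neg_of_lt hσ)), mul_nonneg_of_nonpos_of_nonpos (Mathlib.Tactic.Linarith.sub_nonpos_of_le s2) (le_of_lt (Mathlib.Tactic.Linarith.sub_neg_of_lt h_nl)), mul_nonneg_of_nonpos_of_nonpos (le_of_lt (Mathlib.Tactic.Linarith.sub_neg_of_lt hσ)) (Mathlib.Tactic.Linarith.sub_nonpos_of_le this)])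
    · rw [le_antisymm this (abs_nonneg _), zero_mul]; positivity
  have R2 : |(∫ σ, ph0 σ * ZZ σ ∂m0) - ∫ σ, φ σ * ZZ σ ∂m0| ≤ 462 * s := by
    clear * - φ s K φ' φ'' hφ s0 w1 c0 K' μ μ3 s2 c f
    rw [← integral_sub (b0_ZZ.int_mul int_ph0) (b0_ZZ.int_mul (hφ.int s0))]
    have p : 0 < 1 / (2 * s) := by positivity
    refine (norm_integral_le_of_norm_le (f := fun σ => ph0 σ * ZZ σ - φ σ * ZZ σ)
      ((int_exp p).const_mul 231) (ae_m0 fun σ hσ => ?_)).trans ?_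
    · have := w1 σ hσ
      have z := (abs_ZZ_le1 hσ.le).trans
        (mul_le_of_le_one_right (by norm_num) (exp_le_one_iff.2 hσ.le))
      rw [← sub_mul, Real.norm_eq_abs, abs_mul]
      split_ifs at this with c
      · have e : exp (-1) ≤ exp (1 / (2 * s) * σ) := by
          refine exp_le_exp.2 ?_
          rw [one_div_mul_eq_div, le_div_iff₀ (by positivity)]; linarith
        have e2 := exp_neg_one_gt_d9
        clear * - σ φ s c0 K' μ μ3 s2 this e s0 e2 z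
        (refine le_of_not_gt fun h_nl => ?_; linarith only [h_nl, μ3, s2, this, e, s0, e2, z, abs_nonneg (ph0 σ - φ σ), abs_nonneg (ZZ σ), mul_nonneg_of_nonpos_of_nonpos (Mathlib.Tactic.Linarith.sub_nonpos_of_le μ3) (le_of_lt (Mathlib.Tactic.Linarith.sub_neg_of_lt s0)), mul_nonneg_of_nonpos_of_nonpos (Mathlib.Tactic.Linarith.sub_nonpos_of_le μ3) (le_of_lt (Mathlib.Tactic.Linarith.sub_neg_of_lt e2)), mul_nonneg_of_nonpos_of_nonpos (Mathlib.Tactic.Linarith.sub_nonpos_of_le μ3) (le_of_lt (Mathlib.Tactic.Linarith.sub_neg_of_lt h_nl)), mul_pos_of_neg_of_neg (Mathlib.Tactic.Linarith.sub_neg_of_lt s0) (Mathlib.Tactic.Linarith.sub_neg_of_lt s0), mul_nonneg_of_nonpos_of_nonpos (le_of_lt (Mathlib.Tactic.Linarith.sub_neg_of_lt s0)) (Mathlib.Tactic.Linarith.sub_nonpos_of_le s2), mul_pos_of_neg_of_neg (Mathlib.Tactic.Linarith.sub_neg_of_lt s0) (Mathlib.Tactic.Linarith.sub_neg_of_lt e2), mul_pos_of_neg_of_neg (Mathlib.Tactic.Linarith.sub_neg_of_lt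 s0) (Mathlib.Tactic.Linarith.sub_neg_of_lt h_nl), mul_nonneg_of_nonpos_of_nonpos (Mathlib.Tactic.Linarith.sub_nonpos_of_le s2) (le_of_lt (Mathlib.Tactic.Linarith.sub_neg_of_lt e2)), mul_nonneg_of_nonpos_of_nonpos (Mathlib.Tactic.Linarith.sub_nonpos_of_le s2) (le_of_lt (Mathlib.Tactic.Linarith.sub_neg_of_lt h_nl)), mul_nonneg_of_nonpos_of_nonpos (Mathlib.Tactic.Linarith.sub_nonpos_of_le z) (Mathlib.Tactic.Linarith.sub_nonpos_of_le (abs_nonneg (ph0 σ - φ σ)))])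
      · rw [le_antisymm this (abs_nonneg _), zero_mul]; positivity
    · rw [integral_const_mul, integral_exp0 p, one_div_one_div]; linarith
  have P1 : |∫ σ, exp (2 * σ) * (JJ σ * f σ) ∂m0| ≤ 1 * √(∫ σ, f' σ ^ 2 ∂m0) := by
    simp only [← mul_assoc]
    refine h.ip_le fun σ _ => ?_
    rw [abs_mul, abs_of_pos (exp_pos _), one_mul]
    exact mul_le_of_le_one_right (exp_pos _).le (abs_JJ_le σ)
  have N1 := h.N_le_D
  have N0 : 0 ≤ ∫ σ, exp (2 * σ) * f σ ^ 2 ∂m0 := integral_nonneg fun _ => by positivity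
  have hd := sq_sqrt (show 0 ≤ ∫ σ, f' σ ^ 2 ∂m0 from integral_nonneg fun _ => sq_nonneg _)
  rw [X1] at co
  exact ray_alg (a' := y * c) rfl rfl K'0 D0 μ0 μ1 μ2 s0 s1 hc0 s2 s3 jj_sq_le hc l1 l2 cert co gr
    D1 R1 R2 P1 N1 N0 hd (sq_nonneg _)

end Pool.Agent.Work.MP_267827_an
end

-- merged part: Pool.Agent.Work.MP_267827_an.Defs2
section
/-! Definitions for the analytic part. -/

set_option autoImplicit false

namespace Pool.Agent.Work.MP_267827_an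

open MeasureTheory Set Filter Topology Metric Real

noncomputable section

/-- the boundary layer weight -/
def Om (M σ : ℝ) : ℝ := M ^ 4 / (σ ^ 2 * (M ^ 2 + σ ^ 2))

/-- the unit interval -/
abbrev m1 : Measure ℝ := volume.restrict (Ioo 0 1)

/-- mass in the boundary layer -/
def OI (M : ℝ) (V : ℝ × ℝ → ℝ) : ℝ := ∫ p, Om M p.1 * V p ^ 2 ∂nu

/-- unweighted mass -/
def N0 (V : ℝ × ℝ → ℝ) : ℝ := ∫ p, exp (2 * p.1) * V p ^ 2 ∂nu

/-- the bilinear form of a triangle -/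
def BB (β b c lam : ℝ) (V V' : ℝ × ℝ → ℝ) : ℝ :=
  π * β * (∫ p, ds V p * ds V' p ∂nu) + (∫ p, dt V p * dt V' p ∂nu) / (π * β) -
    lam * exp (2 * c) * (π * β) * ∫ p, exp (2 * p.1) * WW β b p * (V p * V' p) ∂nu

/-- mass of the ground state of the disc -/
def NJ : ℝ := ∫ σ, exp (2 * σ) * JJ σ ^ 2 ∂m0

/-- the share of the angular energy that is used for the coupling -/
def kap : ℝ := 9 / 10 / (4 + 4 * jj ^ 2 / 3 + jj ^ 4 / 8)

/-- the weight `φ` in the conformal coordinate of the first side of a triangle -/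
def Ps (φ : ℝ → ℝ) (c β b σ : ℝ) : ℝ := φ (c + SS β b σ) * (he β b σ / ke β b σ)

/-- even periodic functions with compact support in the radial variable -/
structure VC (V : ℝ × ℝ → ℝ) : Prop where
  vv : VV V
  per : ∀ σ t, V (σ, t + 1) = V (σ, t)
  even : ∀ σ t, V (σ, 1 - t) = V (σ, t)
  supp : ∃ A B : ℝ, B < 0 ∧ ∀ p : ℝ × ℝ, p.1 < 0 → V p ≠ 0 → A ≤ p.1 ∧ p.1 ≤ B

/-- `lam` is the bottom of the spectrum of the reference triangle -/
structure Bot (β lam : ℝ) : Prop where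
  pos : ∀ V, VV V → 0 ≤ QQ β 0 0 lam V
  near : ∀ ε : ℝ, 0 < ε → ∃ V, VC V ∧ NW β 0 V = 1 ∧ QQ β 0 0 lam V ≤ ε

/-- a normalised almost minimiser of the reference problem -/
structure Ref (φ : ℝ → ℝ) (K β lam ε : ℝ) (v : ℝ × ℝ → ℝ) : Prop where
  vv : VV v
  even : ∀ σ t, v (σ, 1 - t) = v (σ, t)
  pos : ∀ V, VV V → 0 ≤ QQ β 0 0 lam V
  near : QQ β 0 0 lam v ≤ ε * β ^ 10
  norm : ∫ p, v p * Ps φ 0 β 0 p.1 ∂nu = ∫ σ, φ σ * JJ σ ∂m0
  lam_le : lam ≤ jj ^ 2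
  le_lam : jj ^ 2 - K * β ^ 3 ≤ lam
  ds_le : Ds v ≤ K
  dt_le : Dt v ≤ K * β ^ 8
  e_le : Ds (fun p => -1 * JJ p.1 + v p) ≤ K * β ^ 3

/-- the margin of a good triangle -/
def Mg (β₀ β b : ℝ) : ℝ := max β β₀ ^ 2 * (β - β₀) ^ 2 + β ^ 2 * b ^ 2

/-- Lagrange multipliers -/
structure Mult (K c β₀ lam : ℝ) (v : ℝ × ℝ → ℝ) (bh al K0 : ℝ) : Prop where
  bh_low : c ≤ bh
  bh_J : (bh - lam * NJ) ^ 2 ≤ K * β₀ ^ 3
  al_le : al - bh ≤ K * β₀ ^ 3
  K0_le : K0 ≤ -(c * β₀ ^ 4)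
  tot : 0 ≤ -(bh * (π * β₀ + LL β₀ 0)) + al * (π * β₀) + K0
  piece : ∀ β b x : ℝ, 0 < β → β ^ 2 ≤ β₀ → b ^ 4 ≤ β₀ → |x| ≤ 1 / 4 →
    -(bh * (exp (2 * x) * (π * β + LL β b))) + al * (π * β) + K0 +
      c * Mg β₀ β b - K * |x| * β₀ ^ 3 * |β - β₀| ≤ QQ β b x lam v

/-- the coupling function on a good triangle -/
def HG (φ : ℝ → ℝ) (β₀ β b c y : ℝ) (v V : ℝ × ℝ → ℝ) (t : ℝ) : ℝ :=
  (∫ σ, V (σ, t) * ((1 - t) * Ps φ c β b σ + t * Ps φ c β (-b) σ) ∂m0) -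
    y * ∫ σ, v (σ, t) * Ps φ 0 β₀ 0 σ ∂m0

/-- the function in logarithmic polar coordinates -/
def UU (u : ℂ → ℝ) (O : ℂ) (p : ℝ × ℝ) : ℝ := u (O + Complex.exp (pt 1 1 p))

/-- the energy density in logarithmic polar coordinates -/
def den (u : ℂ → ℝ) (O : ℂ) (lam : ℝ) (p : ℝ × ℝ) : ℝ :=
  ds (UU u O) p ^ 2 + dt (UU u O) p ^ 2 - lam * (exp (2 * p.1) * UU u O p ^ 2)

/-- the projection on the weight `φ` along a ray -/
def Gp (φ : ℝ → ℝ) (u : ℂ → ℝ) (O : ℂ) (x : ℝ) : ℝ := ∫ s, UU u O (s, x) * φ s ∂m0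

/-- its derivative -/
def Gp' (φ : ℝ → ℝ) (u : ℂ → ℝ) (O : ℂ) (x : ℝ) : ℝ := ∫ s, dt (UU u O) (s, x) * φ s ∂m0

/-- logarithm of the truncated distance to a side -/
def s0 (s₁ γ h x : ℝ) : ℝ := min (log (h / cos (x - γ))) s₁

/-- the visible part of an arc -/
def In (s₁ a a' γ h : ℝ) : Set (ℝ × ℝ) := {p | p.2 ∈ Ioo a a' ∧ p.1 < s0 s₁ γ h p.2}

/-- the radial form of the remainder -/
def RR (c lam y : ℝ) (w : ℝ × ℝ → ℝ) : ℝ :=
  Ds w - lam * exp (2 * c) * N0 w -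
    2 * y * lam * (exp (2 * c) - 1) * ∫ p, exp (2 * p.1) * (JJ p.1 * w p) ∂nu

/-- parameters of a good triangle -/
structure Par (c₁ δ β₀ β b c : ℝ) : Prop where
  low : c₁ * β₀ ≤ β
  up : β ^ 2 ≤ β₀
  bb : b ^ 4 ≤ β₀
  cc : |c| ≤ δ

/-- the derivative of the coupling function -/
def HG' (φ : ℝ → ℝ) (β₀ β b c y : ℝ) (v V : ℝ × ℝ → ℝ) (t : ℝ) : ℝ :=
  (∫ σ, dt V (σ, t) * ((1 - t) * Ps φ c β b σ + t * Ps φ c β (-b) σ) ∂m0) +
    (∫ σ, V (σ, t) * (Ps φ c β (-b) σ - Ps φ c β b σ) ∂m0) -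
    y * ∫ σ, dt v (σ, t) * Ps φ 0 β₀ 0 σ ∂m0

/-- good arcs -/
def Gd (c₁ β₀ s₁ a a' γ h : ℝ) : Prop :=
  c₁ * β₀ ≤ (a' - a) / π ∧ ((a' - a) / π) ^ 2 ≤ β₀ ∧ (2 * (γ - a) / π - (a' - a) / π) ^ 4 ≤ β₀ ∧
    ∀ x ∈ Ioo a a', log (h / cos (x - γ)) ≤ s₁

/-- the scale of the triangle over an arc -/
def sc (a a' γ h : ℝ) : ℝ := log (h / hh ((a' - a) / π) (2 * (γ - a) / π - (a' - a) / π))

open Classical in
/-- the logarithmic displacement over an arc -/
def cf (c₁ β₀ s₁ a a' γ h x : ℝ) : ℝ :=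
  if Gd c₁ β₀ s₁ a a' γ h then sc a a' γ h else s0 s₁ γ h x

open Classical in
/-- the margin of an arc -/
def mg (c₁ β₀ s₁ a a' γ h : ℝ) : ℝ :=
  if Gd c₁ β₀ s₁ a a' γ h then
    Mg β₀ ((a' - a) / π) (2 * (γ - a) / π - (a' - a) / π) + (a' - a) * sc a a' γ h ^ 2
  else β₀ ^ 4

/-- the lower bound for the energy over one arc -/
structure ArcP (φ : ℝ → ℝ) (cm Km Mb c₁ s₁ β₀ lam ε μ bh al K0 ω : ℝ) (u : ℂ → ℝ) (O : ℂ)
    (a a' γ h : ℝ) (G G' G₂ G₂' : ℝ → ℝ) : Prop where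
  cont : ContinuousOn G (Icc a a') ∧ ContinuousOn G₂ (Icc a a')
  der : ∀ x ∈ Ioo a a', HasDerivAt G (G' x) x ∧ HasDerivAt G₂ (G₂' x) x
  bd : ∃ K, ∀ x ∈ Ioo a a', |G' x| ≤ K ∧ |G₂' x| ≤ K
  left : G a = Gp φ u O a ∧ G₂ a = ω
  right : G a' = Gp φ u O a' ∧ G₂ a' = ω
  pos : 0 < ∫ x in Ioo a a', G₂ x
  main : ∀ y : ℝ, y ^ 2 * (-(bh * ∫ x in Ioo a a', exp (2 * s0 s₁ γ h x)) + al * (a' - a) + K0 +
        cm * mg c₁ β₀ s₁ a a' γ h - (ε + Km * μ) * (a' - a)) +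
      (y * DD) ^ 2 * (4 + jj ^ 2 / 6 - 1 / 50) * (∫ x in Ioo a a', cf c₁ β₀ s₁ a a' γ h x ^ 2) +
      (kap * (∫ x in Ioo a a', (G' x - y * G₂' x) ^ 2) -
        1 / 200 * (∫ x in Ioo a a', (G x - y * G₂ x) ^ 2) -
        2 * ∫ x in Ioo a a', y * DD * cf c₁ β₀ s₁ a a' γ h x * (G x - y * G₂ x)) ≤
    (∫ p in In s₁ a a' γ h, den u O (lam + μ) p) + Mb * ∫ x in Ioo a a', UU u O (s₁, x) ^ 2

end

end Pool.Agent.Work.MP_267827_an
end
end

-- merged part: Pool.Agent.Work.MP_267827_an.Weight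
section
/-! Pointwise estimates for the conformal weight. -/

set_option autoImplicit false

namespace Pool.Agent.Work.MP_267827_an

open MeasureTheory Set Filter Topology Metric Real

/-- the squared distance from one -/
noncomputable def Weight_D (k a : ℝ) : ℝ := 1 - 2 * k * exp a + exp a ^ 2

/-- the real form of the potentials -/
noncomputable def Weight_U (k a : ℝ) : ℝ := -(1 / 2) * log (Weight_D k a)

theorem Weight_normsq (e a x : ℝ) (he : e ^ 2 = 1) :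
    ‖1 - (e : ℂ) * Complex.exp (a + x * Complex.I)‖ ^ 2 = Weight_D (e * cos x) a := by
  rw [Complex.sq_norm, Complex.normSq_apply]
  simp only [Complex.sub_re, Complex.sub_im, Complex.mul_re, Complex.mul_im, Complex.one_re,
    Complex.one_im, Complex.ofReal_re, Complex.ofReal_im, Complex.exp_re, Complex.exp_im,
    Complex.add_re, Complex.add_im, Complex.I_re, Complex.I_im, mul_zero, mul_one, zero_mul,
    sub_zero, add_zero, zero_add, Weight_D]
  have := sin_sq_add_cos_sq x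
  linear_combination (exp a ^ 2 * e ^ 2) * this + exp a ^ 2 * he

theorem Weight_u1 (a t : ℝ) : u1 a t = Weight_U (cos (π * t)) a := by
  have h := Weight_normsq 1 a (π * t) (by norm_num)
  rw [one_mul] at h
  rw [Weight_U, ← h, log_pow, u1]
  push_cast
  rw [one_mul]
  ring

theorem Weight_u2 (a t : ℝ) : u2 a t = Weight_U (-cos (π * t)) a := by
  have h := Weight_normsq (-1) a (π * t) (by norm_num)
  rw [neg_one_mul] at h
  rw [Weight_U, ← h, log_pow, u2]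
  push_cast
  rw [neg_one_mul, sub_neg_eq_add]
  ring

theorem Weight_r {a : ℝ} (ha : a < 0) : 0 < exp a ∧ exp a < 1 := ⟨exp_pos a, exp_lt_one_iff.2 ha⟩

theorem Weight_D_ge {k a : ℝ} (hk : |k| ≤ 1) : (1 - exp a) ^ 2 ≤ Weight_D k a := by
  have := exp_pos a
  have := (abs_le.1 hk).2
  unfold Weight_D
  nlinarith

theorem Weight_D_pos {k a : ℝ} (hk : |k| ≤ 1) (ha : a < 0) : 0 < Weight_D k a :=
  lt_of_lt_of_le (pow_pos (sub_pos.2 (Weight_r ha).2) 2) (Weight_D_ge hk)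

theorem Weight_U_abs {k a : ℝ} (hk : |k| ≤ 1) (ha : a < 0) : |Weight_U k a| ≤ -log (1 - exp a) := by
  obtain ⟨r0, r1⟩ := Weight_r ha
  have y0 : 0 < 1 - exp a := sub_pos.2 r1
  have h1 : 2 * log (1 - exp a) ≤ log (Weight_D k a) := by
    have := log_le_log (pow_pos y0 2) (Weight_D_ge (a := a) hk)
    rwa [log_pow] at this
  have h2 : log (Weight_D k a) + 2 * log (1 - exp a) ≤ 0 := by
    have e : log (Weight_D k a * (1 - exp a) ^ 2) = log (Weight_D k a) + 2 * log (1 - exp a) := by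
      rw [log_mul (Weight_D_pos hk ha).ne' (pow_pos y0 2).ne', log_pow]; norm_num
    rw [← e]
    refine log_nonpos (mul_pos (Weight_D_pos hk ha) (pow_pos y0 2)).le ?_
    have h3 : Weight_D k a ≤ (1 + exp a) ^ 2 := by
      have := (abs_le.1 hk).1
      unfold Weight_D
      linarith only [r0, this, mul_nonneg_of_nonpos_of_nonpos (le_of_lt (Mathlib.Tactic.Linarith.sub_neg_of_lt r0)) (Mathlib.Tactic.Linarith.sub_nonpos_of_le this)]
    calc Weight_D k a * (1 - exp a) ^ 2 ≤ (1 + exp a) ^ 2 * (1 - exp a) ^ 2 := by gcongr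
      _ = (1 - exp a ^ 2) ^ 2 := by ring
      _ ≤ 1 := by
        clear * - a r1 r0
        have : 0 ≤ exp a ^ 2 := by positivity
        have : exp a ^ 2 ≤ 1 := by linarith only [r1, r0, mul_pos_of_neg_of_neg (Mathlib.Tactic.Linarith.sub_neg_of_lt r0) (Mathlib.Tactic.Linarith.sub_neg_of_lt r1)]
        linarith only [this, sq_nonneg (rexp a), mul_nonneg_of_nonpos_of_nonpos (Mathlib.Tactic.Linarith.sub_nonpos_of_le (sq_nonneg (rexp a))) (Mathlib.Tactic.Linarith.sub_nonpos_of_le this)]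
  rw [abs_le, Weight_U]
  constructor <;> linarith only [h2, h1]

theorem u_abs_le {a : ℝ} (ha : a < 0) (t : ℝ) :
    |u1 a t| ≤ -log (1 - exp a) ∧ |u2 a t| ≤ -log (1 - exp a) := by
  rw [Weight_u1, Weight_u2]
  exact ⟨Weight_U_abs (abs_cos_le_one _) ha, Weight_U_abs (by simpa using abs_cos_le_one _) ha⟩

theorem u1_symm (a t : ℝ) : u1 a (1 - t) = u2 a t := by
  rw [Weight_u1, Weight_u2, mul_sub, mul_one, cos_pi_sub]

theorem u2_symm (a t : ℝ) : u2 a (1 - t) = u1 a t := by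
  rw [Weight_u1, Weight_u2, mul_sub, mul_one, cos_pi_sub, neg_neg]

theorem Weight_U_cont {X : Type} [TopologicalSpace X] {k a : X → ℝ} {s : Set X}
    (hk : Continuous k) (ha : Continuous a) (h1 : ∀ x, |k x| ≤ 1) (h2 : ∀ x ∈ s, a x < 0) :
    ContinuousOn (fun x => Weight_U (k x) (a x)) s := by
  refine continuousOn_const.mul (ContinuousOn.log ?_ fun x hx => (Weight_D_pos (h1 x) (h2 x hx)).ne')
  unfold Weight_D
  fun_prop

theorem u_cont : ContinuousOn (fun p : ℝ × ℝ => u1 p.1 p.2) {p | p.1 < 0} ∧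
    ContinuousOn (fun p : ℝ × ℝ => u2 p.1 p.2) {p | p.1 < 0} := by
  simp only [Weight_u1, Weight_u2]
  exact ⟨Weight_U_cont (by fun_prop) continuous_fst (fun _ => abs_cos_le_one _) fun _ h => h,
    Weight_U_cont (by fun_prop) continuous_fst (fun _ => by simpa using abs_cos_le_one _)
      fun _ h => h⟩

theorem Weight_cont_t {a : ℝ} (ha : a < 0) : Continuous (u1 a) ∧ Continuous (u2 a) := by
  have e : ∀ t : ℝ, ((a, t) : ℝ × ℝ) ∈ {p : ℝ × ℝ | p.1 < 0} := fun _ => ha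
  exact ⟨u_cont.1.comp_continuous (f := fun t : ℝ => (a, t)) (by fun_prop) e,
    u_cont.2.comp_continuous (f := fun t : ℝ => (a, t)) (by fun_prop) e⟩

theorem u_mean {a : ℝ} (ha : a < 0) :
    ∫ t in Ioo (0 : ℝ) 1, u1 a t = 0 ∧ ∫ t in Ioo (0 : ℝ) 1, u2 a t = 0 := by
  have c1 := (Weight_cont_t ha).1
  have h0 := circleAverage_log_norm_sub_const₀ (a := (exp a : ℝ))
    (by rw [Complex.norm_real, norm_eq_abs, abs_of_pos (exp_pos a)]; exact exp_lt_one_iff.2 ha)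
  rw [circleAverage_def, smul_eq_mul, mul_eq_zero] at h0
  have h1 : ∫ θ in (0 : ℝ)..2 * π, log ‖circleMap 0 1 θ - (exp a : ℝ)‖ = 0 :=
    h0.resolve_left (by positivity)
  have h2 : ∀ t : ℝ, log ‖circleMap 0 1 (π * t) - (exp a : ℝ)‖ = -u1 a t := by
    intro t
    have e : ‖circleMap 0 1 (π * t) - (exp a : ℝ)‖ ^ 2 = Weight_D (cos (π * t)) a := by
      rw [Complex.sq_norm, Complex.normSq_apply]
      simp only [circleMap, Complex.sub_re, Complex.sub_im, Complex.mul_re, Complex.mul_im,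
        Complex.ofReal_re, Complex.ofReal_im, Complex.exp_re, Complex.exp_im,
        Complex.I_re, Complex.I_im, mul_zero, mul_one, zero_mul,
        sub_zero, add_zero, zero_add, Weight_D, exp_zero, one_mul]
      have := sin_sq_add_cos_sq (π * t)
      linear_combination this
    rw [Weight_u1, Weight_U, ← e, log_pow]
    push_cast
    ring
  have h3 : ∫ t in (0 : ℝ)..2, u1 a t = 0 := by
    have := intervalIntegral.integral_comp_mul_left (a := 0) (b := 2)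
      (fun θ => log ‖circleMap 0 1 θ - (exp a : ℝ)‖) pi_ne_zero
    rw [mul_zero, mul_comm π 2, h1, smul_zero] at this
    simp only [h2, intervalIntegral.integral_neg, neg_eq_zero] at this
    exact this
  have h4 : ∫ t in (1 : ℝ)..2, u1 a t = ∫ t in (0 : ℝ)..1, u1 a t := by
    have := intervalIntegral.integral_comp_sub_left (a := 0) (b := 1) (u1 a) 2
    rw [show (2 : ℝ) - 1 = 1 by norm_num, sub_zero] at this
    rw [← this]
    refine intervalIntegral.integral_congr fun t _ => ?_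
    simp only [Weight_u1]
    rw [mul_sub, mul_comm π 2, cos_two_pi_sub]
  have h5 := intervalIntegral.integral_add_adjacent_intervals (a := 0) (b := 1) (c := 2)
    (μ := volume) (c1.intervalIntegrable _ _) (c1.intervalIntegrable _ _)
  have h6 : ∫ t in (0 : ℝ)..1, u1 a t = 0 := by linarith only [h3, h4, h5]
  have h7 : ∫ t in (0 : ℝ)..1, u2 a t = 0 := by
    have := intervalIntegral.integral_comp_sub_left (a := 0) (b := 1) (u1 a) 1
    rw [sub_self, sub_zero, h6] at this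
    simpa only [u1_symm] using this
  rw [intervalIntegral.integral_of_le zero_le_one, integral_Ioc_eq_integral_Ioo] at h6 h7
  exact ⟨h6, h7⟩

theorem u_meas : Measurable (fun p : ℝ × ℝ => u1 p.1 p.2) ∧
    Measurable (fun p : ℝ × ℝ => u2 p.1 p.2) := by
  simp only [Weight_u1, Weight_u2, Weight_U, Weight_D]
  constructor <;> fun_prop

theorem WW_meas (β b : ℝ) : Measurable (WW β b) := by
  unfold WW xx
  simp only [Weight_u1, Weight_u2, Weight_U, Weight_D]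
  fun_prop

theorem WW_symm (β b σ t : ℝ) : WW β b (σ, 1 - t) = WW β (-b) (σ, t) := by
  simp only [WW, xx, u1_symm, u2_symm]
  congr 1
  ring

/-- the mean of the weight is at least one -/
theorem WW_mean {β : ℝ} (hβ : 0 < β) (b : ℝ) {σ : ℝ} (hσ : σ < 0) :
    IntegrableOn (fun t => WW β b (σ, t)) (Ioo 0 1) ∧ 1 ≤ ∫ t in Ioo (0 : ℝ) 1, WW β b (σ, t) := by
  have ha : σ / β < 0 := div_neg_of_neg_of_pos hσ hβ
  obtain ⟨c1, c2⟩ := Weight_cont_t ha
  obtain ⟨m1, m2⟩ := u_mean ha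
  have io : ∀ {f : ℝ → ℝ}, Continuous f → IntegrableOn f (Ioo 0 1) := fun hf =>
    hf.integrableOn_Icc.mono_set Ioo_subset_Icc_self
  have cW : Continuous fun t => WW β b (σ, t) := by
    simp only [WW, xx]
    fun_prop
  refine ⟨io cW, ?_⟩
  have e : ∫ t in Ioo (0 : ℝ) 1,
      (2 * (β + b) * u1 (σ / β) t + 2 * (β - b) * u2 (σ / β) t + 1) = 1 := by
    rw [integral_add (io (by fun_prop)) (io continuous_const),
      integral_add (io (by fun_prop)) (io (by fun_prop)), integral_const_mul, integral_const_mul,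
      m1, m2]
    simp
  refine e.symm.le.trans (integral_mono (io (by fun_prop)) (io cW) fun t => ?_)
  exact add_one_le_exp _

theorem Om_nonneg (M σ : ℝ) : 0 ≤ Om M σ := by
  unfold Om
  positivity

theorem Om_mono {M M' : ℝ} (h0 : 0 ≤ M) (h : M ≤ M') (σ : ℝ) : Om M σ ≤ Om M' σ := by
  unfold Om
  by_cases hσ : σ = 0
  · simp [hσ]
  have s0 : 0 < σ ^ 2 := by positivity
  rw [div_le_div_iff₀ (by positivity) (by positivity)]
  have h2 : M ^ 2 ≤ M' ^ 2 := by gcongr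
  have h4 : M ^ 4 ≤ M' ^ 4 := by gcongr
  have h5 : M ^ 4 * M' ^ 2 ≤ M' ^ 4 * M ^ 2 := by
    have : 0 ≤ M ^ 2 * M' ^ 2 := by positivity
    linarith only [h2, this, mul_nonneg_of_nonpos_of_nonpos (Mathlib.Tactic.Linarith.sub_nonpos_of_le h2) (Mathlib.Tactic.Linarith.sub_nonpos_of_le this)]
  have h6 := mul_le_mul_of_nonneg_right h4 s0.le
  have h7 : M ^ 4 * (M' ^ 2 + σ ^ 2) ≤ M' ^ 4 * (M ^ 2 + σ ^ 2) := by linarith only [h5, h6]
  linarith only [h5, h6, mul_nonneg_of_nonpos_of_nonpos (Mathlib.Tactic.Linarith.sub_nonpos_of_le (sq_nonneg σ)) (Mathlib.Tactic.Linarith.sub_nonpos_of_le h5), mul_nonneg_of_nonpos_of_nonpos (Mathlib.Tactic.Linarith.sub_nonpos_of_le (sq_nonneg σ)) (Mathlib.Tactic.Linarith.sub_nonpos_of_le h6)]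

theorem Om_le_two (M σ : ℝ) : Om M σ ≤ M ^ 2 * (σ ^ 2)⁻¹ := by
  unfold Om
  by_cases hσ : σ = 0
  · simp [hσ]
  have s0 : 0 < σ ^ 2 := by positivity
  rw [← div_eq_mul_inv, div_le_div_iff₀ (by positivity) (by positivity)]
  have : 0 ≤ M ^ 2 * σ ^ 2 * σ ^ 2 := by positivity
  linarith only [this]

theorem Om_le_four (M σ : ℝ) : Om M σ ≤ M ^ 4 * (σ ^ 4)⁻¹ := by
  unfold Om
  by_cases hσ : σ = 0
  · simp [hσ]
  have s0 : 0 < σ ^ 2 := by positivity
  rw [← div_eq_mul_inv, div_le_div_iff₀ (by positivity) (by positivity)]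
  have : 0 ≤ M ^ 4 * (σ ^ 2 * M ^ 2) := by positivity
  linarith only [this]

/-- the bound for the potentials -/
noncomputable def Weight_l (a : ℝ) : ℝ := -log (1 - exp a)

/-- the bound for the first derivative -/
noncomputable def Weight_m (a : ℝ) : ℝ := -a * (exp a / (1 - exp a))

/-- the bound for the second derivative -/
noncomputable def Weight_n (a : ℝ) : ℝ := a ^ 2 * (exp a / (1 - exp a) ^ 2)

theorem Weight_y {a : ℝ} (ha : a < 0) : -a * exp a ≤ 1 - exp a := by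
  have h := add_one_le_exp (-a)
  have e : exp a * exp (-a) = 1 := by rw [← exp_add]; simp
  have := exp_pos a
  linarith only [e, h, this, mul_nonneg_of_nonpos_of_nonpos (Mathlib.Tactic.Linarith.sub_nonpos_of_le h) (le_of_lt (Mathlib.Tactic.Linarith.sub_neg_of_lt this))]

theorem Weight_l0 {a : ℝ} (ha : a < 0) : 0 ≤ Weight_l a := by
  obtain ⟨r0, r1⟩ := Weight_r ha
  exact neg_nonneg.2 (log_nonpos (by linarith) (by linarith))

theorem Weight_m0 {a : ℝ} (ha : a < 0) : 0 ≤ Weight_m a ∧ Weight_m a ≤ 1 := by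
  obtain ⟨r0, r1⟩ := Weight_r ha
  have y0 : 0 < 1 - exp a := sub_pos.2 r1
  refine ⟨mul_nonneg (by linarith) (by positivity), ?_⟩
  rw [Weight_m, ← mul_div_assoc, div_le_one y0]
  exact Weight_y ha

theorem Weight_n0 (a : ℝ) : 0 ≤ Weight_n a := by
  unfold Weight_n
  positivity

theorem Weight_E {a : ℝ} (ha : a < 0) : 1 ≤ exp (Weight_l a / 8) ∧
    Weight_l a ≤ 8 * exp (Weight_l a / 8) ∧ exp (Weight_l a / 8) ^ 8 * (1 - exp a) = 1 := by
  obtain ⟨r0, r1⟩ := Weight_r ha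
  have l0 := Weight_l0 ha
  refine ⟨one_le_exp (by positivity), by linarith only [r0, r1, add_one_le_exp (Weight_l a / 8)], ?_⟩
  rw [← exp_nat_mul, show ((8 : ℕ) : ℝ) * (Weight_l a / 8) = -log (1 - exp a) by
    unfold Weight_l; push_cast; ring, exp_neg, exp_log (by linarith)]
  exact inv_mul_cancel₀ (by linarith)

theorem Weight_near {a : ℝ} (ha : a < 0) (h1 : -1 ≤ a) :
    -a * exp (Weight_l a / 8) ^ 8 ≤ 3 ∧ Weight_n a ≤ 9 ∧ 1 ≤ 3 * exp a := by
  obtain ⟨r0, r1⟩ := Weight_r ha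
  have h3 : 1 ≤ 3 * exp a := by
    have h4 : exp (-1) ≤ exp a := exp_le_exp.2 h1
    have h5 : exp 1 * exp (-1) = 1 := by rw [← exp_add]; simp
    have h6 := exp_one_lt_d9
    have := exp_pos (-1)
    (refine le_of_not_gt fun h_nl => ?_; linarith only [h_nl, h4, h5, r0, r1, h6, this, mul_pos_of_neg_of_neg (Mathlib.Tactic.Linarith.sub_neg_of_lt r0) (Mathlib.Tactic.Linarith.sub_neg_of_lt r0), mul_pos_of_neg_of_neg (Mathlib.Tactic.Linarith.sub_neg_of_lt r0) (Mathlib.Tactic.Linarith.sub_neg_of_lt h_nl), mul_pos_of_neg_of_neg (Mathlib.Tactic.Linarith.sub_neg_of_lt r1) (Mathlib.Tactic.Linarith.sub_neg_of_lt h_nl), mul_pos_of_neg_of_neg (Mathlib.Tactic.Linarith.sub_neg_of_lt h6) (Mathlib.Tactic.Linarith.sub_neg_of_lt this)])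
  have hy : -a ≤ 3 * (1 - exp a) := by linarith only [ha, h3, Weight_y ha, mul_nonneg_of_nonpos_of_nonpos (le_of_lt (Mathlib.Tactic.Linarith.sub_neg_of_lt ha)) (Mathlib.Tactic.Linarith.sub_nonpos_of_le h3)]
  have hE := (Weight_E ha).2.2
  refine ⟨?_, ?_, h3⟩
  · have : 0 ≤ exp (Weight_l a / 8) ^ 8 := by positivity
    (refine le_of_not_gt fun h_nl => ?_; linarith only [h_nl, hy, ha, hE, r1, Mathlib.Tactic.Linarith.mul_zero_eq (Mathlib.Tactic.Linarith.sub_neg_of_lt ha) (sub_eq_zero_of_eq hE), mul_pos_of_neg_of_neg (Mathlib.Tactic.Linarith.sub_neg_of_lt r1) (Mathlib.Tactic.Linarith.sub_neg_of_lt h_nl)])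
  · rw [Weight_n, ← mul_div_assoc, div_le_iff₀ (pow_pos (by linarith only [r1]) 2)]
    linarith only [r1, ha, hy, mul_nonneg_of_nonpos_of_nonpos (Mathlib.Tactic.Linarith.sub_nonpos_of_le (sq_nonneg a)) (le_of_lt (Mathlib.Tactic.Linarith.sub_neg_of_lt r1)), mul_nonneg_of_nonpos_of_nonpos (le_of_lt (Mathlib.Tactic.Linarith.sub_neg_of_lt ha)) (Mathlib.Tactic.Linarith.sub_nonpos_of_le hy), mul_nonneg_of_nonpos_of_nonpos (le_of_lt (Mathlib.Tactic.Linarith.sub_neg_of_lt r1)) (Mathlib.Tactic.Linarith.sub_nonpos_of_le hy)]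

theorem Weight_far {a : ℝ} (h1 : a ≤ -1) : exp (Weight_l a / 8) ≤ 2 ∧ Weight_l a ≤ 2 * exp a ∧
    Weight_m a ≤ 2 * (-a * exp a) ∧ Weight_n a ≤ 4 * (a ^ 2 * exp a) ∧ exp a ≤ 1 / 2 ∧
    a ^ 6 * exp a ≤ 720 ∧ a ^ 2 * exp a ≤ 2 := by
  have ha : a < 0 := by linarith
  obtain ⟨r0, r1⟩ := Weight_r ha
  have e : exp a * exp (-a) = 1 := by rw [← exp_add]; simp
  have h2 : exp a ≤ 1 / 2 := by linarith only [e, h1, r0, add_one_le_exp (-a), mul_nonneg_of_nonpos_of_nonpos (Mathlib.Tactic.Linarith.sub_nonpos_of_le h1) (le_of_lt (Mathlib.Tactic.Linarith.sub_neg_of_lt r0)), mul_nonneg_of_nonpos_of_nonpos (le_of_lt (Mathlib.Tactic.Linarith.sub_neg_of_lt r0)) (Mathlib.Tactic.Linarith.sub_nonpos_of_le (add_one_le_exp (-a)))]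
  obtain ⟨E1, -, E3⟩ := Weight_E ha
  have y0 : 0 < 1 - exp a := by linarith only [r1]
  refine ⟨?_, ?_, ?_, ?_, h2, ?_, ?_⟩
  · have : exp (Weight_l a / 8) ≤ exp (Weight_l a / 8) ^ 8 := le_self_pow₀ E1 (by norm_num)
    have h8 : 0 ≤ exp (Weight_l a / 8) ^ 8 := by positivity
    (refine le_of_not_gt fun h_nl => ?_; linarith only [h_nl, h2, E3, r1, this, mul_nonneg_of_nonpos_of_nonpos (le_of_lt (Mathlib.Tactic.Linarith.sub_neg_of_lt r1)) (Mathlib.Tactic.Linarith.sub_nonpos_of_le this), mul_pos_of_neg_of_neg (Mathlib.Tactic.Linarith.sub_neg_of_lt r1) (Mathlib.Tactic.Linarith.sub_neg_of_lt h_nl)])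
  · have h := log_le_sub_one_of_pos (inv_pos.2 y0)
    rw [log_inv] at h
    have h4 : (1 - exp a)⁻¹ ≤ 1 + 2 * exp a := by
      rw [inv_le_iff_one_le_mul₀ y0]
      linarith only [r0, h2, mul_nonneg_of_nonpos_of_nonpos (le_of_lt (Mathlib.Tactic.Linarith.sub_neg_of_lt r0)) (Mathlib.Tactic.Linarith.sub_nonpos_of_le h2)]
    unfold Weight_l
    linarith only [h, h4]
  · rw [Weight_m, ← mul_div_assoc, div_le_iff₀ y0]
    have : 0 ≤ -a * exp a := mul_nonneg (by linarith only [h1, r0, r1]) r0.le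
    (refine le_of_not_gt fun h_nl => ?_; linarith only [h_nl, r0, r1, h2, this, mul_pos_of_neg_of_neg (Mathlib.Tactic.Linarith.sub_neg_of_lt r0) (Mathlib.Tactic.Linarith.sub_neg_of_lt h_nl), mul_pos_of_neg_of_neg (Mathlib.Tactic.Linarith.sub_neg_of_lt r1) (Mathlib.Tactic.Linarith.sub_neg_of_lt h_nl), mul_nonneg_of_nonpos_of_nonpos (Mathlib.Tactic.Linarith.sub_nonpos_of_le h2) (Mathlib.Tactic.Linarith.sub_nonpos_of_le this)])
  · rw [Weight_n, ← mul_div_assoc, div_le_iff₀ (pow_pos y0 2)]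
    have : 0 ≤ a ^ 2 * exp a := by positivity
    have : 1 ≤ 4 * (1 - exp a) ^ 2 := by clear * - a h2 r1; linarith only [h2, r1, mul_nonneg_of_nonpos_of_nonpos (le_of_lt (Mathlib.Tactic.Linarith.sub_neg_of_lt r1)) (Mathlib.Tactic.Linarith.sub_nonpos_of_le h2)]
    nlinarith
  · have h := pow_div_factorial_le_exp (-a) (by linarith only [h1, r0, r1]) 6
    rw [div_le_iff₀ (by positivity), show ((Nat.factorial 6 : ℕ) : ℝ) = 720 by
      norm_num [Nat.factorial], show (-a) ^ 6 = a ^ 6 by ring] at h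
    linarith only [e, r0, h, mul_nonneg_of_nonpos_of_nonpos (le_of_lt (Mathlib.Tactic.Linarith.sub_neg_of_lt r0)) (Mathlib.Tactic.Linarith.sub_nonpos_of_le h)]
  · have h := pow_div_factorial_le_exp (-a) (by linarith only [h1, r0, r1]) 2
    rw [div_le_iff₀ (by positivity), show ((Nat.factorial 2 : ℕ) : ℝ) = 2 by
      norm_num [Nat.factorial], show (-a) ^ 2 = a ^ 2 by ring] at h
    linarith only [e, r0, h, mul_nonneg_of_nonpos_of_nonpos (le_of_lt (Mathlib.Tactic.Linarith.sub_neg_of_lt r0)) (Mathlib.Tactic.Linarith.sub_nonpos_of_le h)]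

/-- the common majorant -/
noncomputable def Weight_G (a : ℝ) : ℝ :=
  (Weight_l a + Weight_m a + (Weight_l a + Weight_m a) ^ 2 + Weight_n a) * exp (Weight_l a / 8) ^ 2

theorem Weight_G_le {a : ℝ} (ha : a < 0) : Weight_G a * (a ^ 2 * (1 + a ^ 2)) ≤ 10 ^ 5 ∧
    -a * (Weight_l a * exp (Weight_l a / 8)) ≤ 24 := by
  obtain ⟨E1, E2, -⟩ := Weight_E ha
  obtain ⟨m0, m1⟩ := Weight_m0 ha
  have l0 := Weight_l0 ha
  have n0 := Weight_n0 a
  unfold Weight_G
  set E := exp (Weight_l a / 8)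
  set l := Weight_l a
  set m := Weight_m a
  rcases le_total (-1) a with h1 | h1
  · obtain ⟨h2, h3, -⟩ := Weight_near ha h1
    have h4 : l + m ≤ 9 * E := by linarith only [E1, E2, m1]
    have h5 : (l + m) ^ 2 ≤ 81 * E ^ 2 := by clear * - l m E E1 E2 m1 l0 m0; linarith only [E1, E2, m1, l0, m0, mul_nonneg_of_nonpos_of_nonpos (Mathlib.Tactic.Linarith.sub_nonpos_of_le E1) (Mathlib.Tactic.Linarith.sub_nonpos_of_le E1), mul_nonneg_of_nonpos_of_nonpos (Mathlib.Tactic.Linarith.sub_nonpos_of_le E1) (Mathlib.Tactic.Linarith.sub_nonpos_of_le E2), mul_nonneg_of_nonpos_of_nonpos (Mathlib.Tactic.Linarith.sub_nonpos_of_le l0) (Mathlib.Tactic.Linarith.sub_nonpos_of_le E2), mul_nonneg_of_nonpos_of_nonpos (Mathlib.Tactic.Linarith.sub_nonpos_of_le l0) (Mathlib.Tactic.Linarith.sub_nonpos_of_le m1), mul_nonneg_of_nonpos_of_nonpos (Mathlib.Tactic.Linarith.sub_nonpos_of_le m0) (Mathlib.Tactic.Linarith.sub_nonpos_of_le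 m1)]
    have h6 : l + m + (l + m) ^ 2 + Weight_n a ≤ 99 * E ^ 2 := by clear * - l m a E E1 E2 m1 h3 h5; linarith only [E1, E2, m1, h3, h5, mul_nonneg_of_nonpos_of_nonpos (Mathlib.Tactic.Linarith.sub_nonpos_of_le E1) (Mathlib.Tactic.Linarith.sub_nonpos_of_le E1)]
    have h7 : E ^ 4 ≤ E ^ 16 := pow_le_pow_right₀ E1 (by norm_num)
    have h8 : E ^ 2 ≤ E ^ 8 := pow_le_pow_right₀ E1 (by norm_num)
    have h9 : a ^ 2 * E ^ 16 ≤ 9 := by
      clear * - a E ha h2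
      have : 0 ≤ -a * E ^ 8 := mul_nonneg (by linarith) (by positivity)
      linarith only [h2, this, mul_nonneg_of_nonpos_of_nonpos (Mathlib.Tactic.Linarith.sub_nonpos_of_le h2) (Mathlib.Tactic.Linarith.sub_nonpos_of_le this)]
    constructor
    · have h10 : a ^ 2 ≤ 1 := by clear * - a h1 ha E l m; nlinarith
      calc (l + m + (l + m) ^ 2 + Weight_n a) * E ^ 2 * (a ^ 2 * (1 + a ^ 2))
          ≤ 99 * E ^ 2 * E ^ 2 * (a ^ 2 * (1 + 1)) := by clear * - l m a E h6 h10; gcongr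
        _ = 198 * (a ^ 2 * E ^ 4) := by ring
        _ ≤ 198 * (a ^ 2 * E ^ 16) := by gcongr
        _ ≤ 10 ^ 5 := by linarith only [h9]
    · have : l * E ≤ 8 * E ^ 8 := by clear * - l E E2 h8 E1; linarith only [E2, h8, E1, mul_nonneg_of_nonpos_of_nonpos (Mathlib.Tactic.Linarith.sub_nonpos_of_le E1) (Mathlib.Tactic.Linarith.sub_nonpos_of_le E2)]
      clear * - a l E h2 ha this
      linarith only [h2, ha, this, mul_nonneg_of_nonpos_of_nonpos (le_of_lt (Mathlib.Tactic.Linarith.sub_neg_of_lt ha)) (Mathlib.Tactic.Linarith.sub_nonpos_of_le this)]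
  · obtain ⟨h2, h3, h4, h5, h6, h7, h8⟩ := Weight_far h1
    have r0 := exp_pos a
    have h9 : -a * exp a ≤ a ^ 2 * exp a := by
      clear * - a ha h1
      have : -a ≤ a ^ 2 := by nlinarith
      gcongr
    have h10 : exp a ≤ -a * exp a := by clear * - a h9 ha; (refine le_of_not_gt fun h_nl => ?_; linarith only [h_nl, h9, ha, mul_pos_of_neg_of_neg (Mathlib.Tactic.Linarith.sub_neg_of_lt ha) (Mathlib.Tactic.Linarith.sub_neg_of_lt h_nl)])
    have h11 : l + m ≤ 4 * (a ^ 2 * exp a) := by linarith only [h3, h4, h9, h10]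
    have h12 : l + m ≤ 2 := by linarith only [m1, h3, h6]
    have h13 : (l + m) ^ 2 ≤ 8 * (a ^ 2 * exp a) := by clear * - l m a h3 h4 h9 h10 l0 m1 h6 m0; linarith only [h3, h4, h9, h10, l0, m1, h6, m0, mul_nonneg_of_nonpos_of_nonpos (Mathlib.Tactic.Linarith.sub_nonpos_of_le l0) (Mathlib.Tactic.Linarith.sub_nonpos_of_le m1), mul_nonneg_of_nonpos_of_nonpos (Mathlib.Tactic.Linarith.sub_nonpos_of_le l0) (Mathlib.Tactic.Linarith.sub_nonpos_of_le h3), mul_nonneg_of_nonpos_of_nonpos (Mathlib.Tactic.Linarith.sub_nonpos_of_le l0) (Mathlib.Tactic.Linarith.sub_nonpos_of_le h6), mul_nonneg_of_nonpos_of_nonpos (Mathlib.Tactic.Linarith.sub_nonpos_of_le m0) (Mathlib.Tactic.Linarith.sub_nonpos_of_le m1)]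
    constructor
    · have h14 : 1 ≤ a ^ 2 := by clear * - a h1 ha E l m; nlinarith
      calc (l + m + (l + m) ^ 2 + Weight_n a) * E ^ 2 * (a ^ 2 * (1 + a ^ 2))
          ≤ 16 * (a ^ 2 * exp a) * 2 ^ 2 * (a ^ 2 * (a ^ 2 + a ^ 2)) := by
            clear * - l m a E h3 h4 h5 h9 h10 h13 h2 h14
            gcongr
            linarith only [h3, h4, h5, h9, h10, h13]
        _ = 128 * (a ^ 6 * exp a) := by ring
        _ ≤ 10 ^ 5 := by linarith only [h6, h7, r0]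
    · have : l * E ≤ 2 * exp a * 2 := by gcongr
      clear * - a l E h6 h8 r0 h9 ha this
      linarith only [h6, h8, r0, h9, ha, this, mul_nonneg_of_nonpos_of_nonpos (le_of_lt (Mathlib.Tactic.Linarith.sub_neg_of_lt ha)) (Mathlib.Tactic.Linarith.sub_nonpos_of_le this)]

theorem Weight_G_Om {β σ : ℝ} (hβ : 0 < β) (hσ : σ < 0) : Weight_G (σ / β) ≤ 10 ^ 5 * Om β σ := by
  have h := (Weight_G_le (div_neg_of_neg_of_pos hσ hβ)).1
  have s0 : 0 < σ ^ 2 := by have := hσ.ne; positivity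
  rw [Om, ← mul_div_assoc, le_div_iff₀ (by positivity)]
  have e : σ ^ 2 * (β ^ 2 + σ ^ 2) = (σ / β) ^ 2 * (1 + (σ / β) ^ 2) * β ^ 4 := by
    field_simp
  rw [e, ← mul_assoc]
  gcongr

/-- an integrable majorant in the boundary layer variable -/
theorem ell_int : Integrable (fun a => log (1 - exp a) ^ 2 * (1 + |a| - log (1 - exp a)) *
    exp (-log (1 - exp a) / 4)) m0 := by
  have h0 : IntegrableOn (fun x : ℝ => exp (-x) * x ^ ((3 / 8 : ℝ) - 1)) (Ioi (-0)) := by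
    rw [neg_zero]
    exact GammaIntegral_convergent (by norm_num)
  refine (h0.comp_neg_Iio.const_mul 6000).mono' (Measurable.aestronglyMeasurable (by fun_prop))
    (ae_m0 fun a ha => ?_)
  obtain ⟨E1, E2, -⟩ := Weight_E ha
  have l0 := Weight_l0 ha
  have r0 := exp_pos a
  have e1 : log (1 - exp a) = -Weight_l a := by simp [Weight_l]
  have e2 : exp (Weight_l a / 4) = exp (Weight_l a / 8) ^ 2 := by
    rw [← exp_nat_mul]; congr 1; push_cast; ring
  simp only [e1, neg_neg, e2, neg_sq, abs_of_neg ha, sub_neg_eq_add]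
  have a0 : 0 < -a := by linarith only [ha]
  rw [norm_eq_abs, abs_of_nonneg (by positivity)]
  set E := exp (Weight_l a / 8)
  set l := Weight_l a
  set P := (-a) ^ ((3 / 8 : ℝ) - 1) with hP
  have P0 : 0 < P := rpow_pos_of_pos a0 _
  rcases le_total (-1) a with h1 | h1
  · obtain ⟨h2, -, h3⟩ := Weight_near ha h1
    have h4 : E ^ 5 ≤ 3 * P := by
      clear * - E P a a0 hP h2
      refine (pow_le_pow_iff_left₀ (by positivity) (by positivity) (n := 8) (by norm_num)).1 ?_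
      have e3 : P ^ 8 * (-a) ^ 5 = 1 := by
        rw [hP, ← rpow_natCast, ← rpow_natCast, ← rpow_mul a0.le, ← rpow_add a0]
        norm_num
      have h5 : (-a * E ^ 8) ^ 5 ≤ 3 ^ 5 := by gcongr
      refine le_of_mul_le_mul_right ?_ (pow_pos a0 5)
      calc (E ^ 5) ^ 8 * (-a) ^ 5 = (-a * E ^ 8) ^ 5 := by ring
        _ ≤ 3 ^ 8 * 1 := by linarith only [h5]
        _ = (3 * P) ^ 8 * (-a) ^ 5 := by rw [← e3]; ring
    calc l ^ 2 * (1 + -a + l) * E ^ 2 ≤ (8 * E) ^ 2 * (10 * E) * E ^ 2 := by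
          clear * - E l a l0 E2 E1 h1 a0
          gcongr
          linarith only [E1, E2, h1]
      _ = 640 * E ^ 5 := by ring
      _ ≤ 640 * (3 * P) := by gcongr
      _ ≤ 6000 * (exp a * P) := by clear * - P a r0 P0 h3; linarith only [r0, P0, h3, mul_pos_of_neg_of_neg (Mathlib.Tactic.Linarith.sub_neg_of_lt r0) (Mathlib.Tactic.Linarith.sub_neg_of_lt P0), mul_nonneg_of_nonpos_of_nonpos (le_of_lt (Mathlib.Tactic.Linarith.sub_neg_of_lt P0)) (Mathlib.Tactic.Linarith.sub_nonpos_of_le h3)]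
  · obtain ⟨h2, h3, -, -, h6, -, h8⟩ := Weight_far h1
    have h4 : 1 ≤ -a * P := by
      have : (-a) ^ (-1 : ℝ) ≤ P := rpow_le_rpow_of_exponent_le (by linarith only [h1]) (by norm_num)
      rw [rpow_neg_one, inv_le_iff_one_le_mul₀ a0] at this
      linarith only [this]
    calc l ^ 2 * (1 + -a + l) * E ^ 2 ≤ (2 * exp a) ^ 2 * (3 * -a) * 2 ^ 2 := by
          clear * - l a E l0 h3 h1 h6 a0 h2
          gcongr
          linarith only [h1, h3, h6]
      _ = 48 * exp a * (-a * exp a) * 1 := by ring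
      _ ≤ 48 * exp a * (-a * exp a) * (-a * P) := by gcongr
      _ = 48 * (a ^ 2 * exp a) * (exp a * P) := by ring
      _ ≤ 6000 * (exp a * P) := by
          gcongr
          linarith only [r0, h6, h8]

/-- first derivative of the potential -/
noncomputable def Weight_U1 (k a : ℝ) : ℝ := (k * exp a - exp a ^ 2) / Weight_D k a

/-- second derivative of the potential -/
noncomputable def Weight_U2 (k a : ℝ) : ℝ :=
  ((k * exp a - 2 * exp a ^ 2) * Weight_D k a + 2 * (k * exp a - exp a ^ 2) ^ 2) / Weight_D k a ^ 2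

theorem Weight_D_der (k a : ℝ) : HasDerivAt (Weight_D k) (-2 * (k * exp a - exp a ^ 2)) a := by
  have h := (((hasDerivAt_exp a).const_mul (2 * k)).const_sub 1).add ((hasDerivAt_exp a).fun_pow 2)
  refine HasDerivAt.congr_deriv h ?_
  push_cast
  ring

theorem Weight_U_der {k a : ℝ} (hk : |k| ≤ 1) (ha : a < 0) :
    HasDerivAt (Weight_U k) (Weight_U1 k a) a := by
  have D0 := (Weight_D_pos hk ha).ne'
  refine HasDerivAt.congr_deriv (((Weight_D_der k a).log D0).const_mul (-(1 / 2))) ?_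
  unfold Weight_U1
  field_simp

theorem Weight_U1_der {k a : ℝ} (hk : |k| ≤ 1) (ha : a < 0) :
    HasDerivAt (Weight_U1 k) (Weight_U2 k a) a := by
  have D0 := (Weight_D_pos hk ha).ne'
  have h := ((hasDerivAt_exp a).const_mul k).sub ((hasDerivAt_exp a).fun_pow 2)
  refine HasDerivAt.congr_deriv (h.div (Weight_D_der k a) D0) ?_
  unfold Weight_U2
  simp only [Pi.sub_apply]
  push_cast
  field_simp
  ring

theorem Weight_U1_abs {k a : ℝ} (hk : |k| ≤ 1) (ha : a < 0) :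
    |a * Weight_U1 k a| ≤ Weight_m a := by
  obtain ⟨r0, r1⟩ := Weight_r ha
  have D0 := Weight_D_pos hk ha
  have y0 : 0 < 1 - exp a := sub_pos.2 r1
  rw [abs_mul, abs_of_neg ha, Weight_m]
  refine mul_le_mul_of_nonneg_left ?_ (by linarith)
  rw [Weight_U1, abs_div, abs_of_pos D0, div_le_div_iff₀ D0 y0,
    show k * exp a - exp a ^ 2 = exp a * (k - exp a) by ring, abs_mul, abs_of_pos r0, mul_assoc]
  refine mul_le_mul_of_nonneg_left ?_ r0.le
  have h1 := Weight_D_ge (a := a) hk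
  have h2 : |k - exp a| ^ 2 ≤ Weight_D k a := by
    rw [sq_abs]
    have : k ^ 2 ≤ 1 := by rw [← sq_abs]; linarith only [hk, abs_nonneg k, mul_nonneg_of_nonpos_of_nonpos (Mathlib.Tactic.Linarith.sub_nonpos_of_le hk) (Mathlib.Tactic.Linarith.sub_nonpos_of_le (abs_nonneg k))]
    unfold Weight_D
    linarith only [this]
  linarith only [h1, h2, sq_nonneg (|k - exp a| - (1 - exp a)), sq_nonneg (|k - rexp a| - ((1 : ℝ) - rexp a))]

theorem Weight_U2_abs {k a : ℝ} (hk : |k| ≤ 1) (ha : a < 0) :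
    |a ^ 2 * Weight_U2 k a| ≤ 5 * Weight_n a := by
  obtain ⟨r0, r1⟩ := Weight_r ha
  have D0 := Weight_D_pos hk ha
  have y0 : 0 < 1 - exp a := sub_pos.2 r1
  rw [abs_mul, abs_of_nonneg (sq_nonneg a), Weight_n, mul_left_comm]
  refine mul_le_mul_of_nonneg_left ?_ (sq_nonneg a)
  have h1 := Weight_D_ge (a := a) hk
  have h2 : (k - exp a) ^ 2 ≤ Weight_D k a := by
    have : k ^ 2 ≤ 1 := by rw [← sq_abs]; linarith only [hk, abs_nonneg k, mul_nonneg_of_nonpos_of_nonpos (Mathlib.Tactic.Linarith.sub_nonpos_of_le hk) (Mathlib.Tactic.Linarith.sub_nonpos_of_le (abs_nonneg k))]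
    unfold Weight_D
    linarith only [this]
  have h3 : |Weight_U2 k a| ≤ 5 * (exp a / Weight_D k a) := by
    rw [Weight_U2, abs_div, abs_of_pos (pow_pos D0 2), div_le_iff₀ (pow_pos D0 2),
      show 5 * (exp a / Weight_D k a) * Weight_D k a ^ 2 = exp a * (5 * Weight_D k a) by
        field_simp,
      show (k * exp a - 2 * exp a ^ 2) * Weight_D k a + 2 * (k * exp a - exp a ^ 2) ^ 2 =
        exp a * ((k - 2 * exp a) * Weight_D k a + 2 * exp a * (k - exp a) ^ 2) by ring,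
      abs_mul, abs_of_pos r0]
    refine mul_le_mul_of_nonneg_left ?_ r0.le
    obtain ⟨k1, k2⟩ := abs_le.1 hk
    have h4 : 0 ≤ exp a * (k - exp a) ^ 2 := by positivity
    have h5 : exp a * (k - exp a) ^ 2 ≤ Weight_D k a := by clear * - a k h2 r1; linarith only [h2, r1, sq_nonneg (k - exp a), mul_nonneg_of_nonpos_of_nonpos (Mathlib.Tactic.Linarith.sub_nonpos_of_le (sq_nonneg (k - rexp a))) (le_of_lt (Mathlib.Tactic.Linarith.sub_neg_of_lt r1))]
    rw [abs_le]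
    constructor <;> (refine le_of_not_gt fun h_nl => ?_; linarith only [h_nl, h4, r0, D0, r1, k1, h5, k2, mul_pos_of_neg_of_neg (Mathlib.Tactic.Linarith.sub_neg_of_lt r0) (Mathlib.Tactic.Linarith.sub_neg_of_lt D0), mul_pos_of_neg_of_neg (Mathlib.Tactic.Linarith.sub_neg_of_lt r0) (Mathlib.Tactic.Linarith.sub_neg_of_lt h_nl), mul_pos_of_neg_of_neg (Mathlib.Tactic.Linarith.sub_neg_of_lt r1) (Mathlib.Tactic.Linarith.sub_neg_of_lt D0), mul_pos_of_neg_of_neg (Mathlib.Tactic.Linarith.sub_neg_of_lt r1) (Mathlib.Tactic.Linarith.sub_neg_of_lt h_nl), mul_nonneg_of_nonpos_of_nonpos (le_of_lt (Mathlib.Tactic.Linarith.sub_neg_of_lt D0)) (Mathlib.Tactic.Linarith.sub_nonpos_of_le k1), mul_nonneg_of_nonpos_of_nonpos (le_of_lt (Mathlib.Tactic.Linarith.sub_neg_of_lt D0)) (Mathlib.Tactic.Linarith.sub_nonpos_of_le k2)])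
  refine h3.trans ?_
  gcongr

/-- the exponent of the symmetric weight -/
noncomputable def Weight_X (k σ β : ℝ) : ℝ := 2 * β * (Weight_U k (σ / β) + Weight_U (-k) (σ / β))

/-- its derivative in the angle -/
noncomputable def Weight_X1 (k σ β : ℝ) : ℝ := 2 * (Weight_U k (σ / β) + Weight_U (-k) (σ / β)) -
  2 * (σ / β * Weight_U1 k (σ / β) + σ / β * Weight_U1 (-k) (σ / β))

/-- the second derivative times the angle -/
noncomputable def Weight_X2 (k σ β : ℝ) : ℝ :=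
  2 * ((σ / β) ^ 2 * Weight_U2 k (σ / β) + (σ / β) ^ 2 * Weight_U2 (-k) (σ / β))

theorem Weight_xx (β σ t : ℝ) : xx β 0 (σ / β) t = Weight_X (cos (π * t)) σ β := by
  rw [xx, Weight_u1, Weight_u2, Weight_X]
  ring

theorem Weight_a_der (σ : ℝ) {β : ℝ} (hβ : 0 < β) :
    HasDerivAt (fun β => σ / β) (-(σ / β) / β) β := by
  refine HasDerivAt.congr_deriv ((hasDerivAt_const β σ).div (hasDerivAt_id' β) hβ.ne') ?_
  field_simp
  ring

theorem Weight_X_der {k σ β : ℝ} (hk : |k| ≤ 1) (hσ : σ < 0) (hβ : 0 < β) :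
    HasDerivAt (Weight_X k σ) (Weight_X1 k σ β) β := by
  have ha := div_neg_of_neg_of_pos hσ hβ
  have hk' : |-k| ≤ 1 := by rwa [abs_neg]
  have h1 := (Weight_U_der hk ha).comp β (Weight_a_der σ hβ)
  have h2 := (Weight_U_der hk' ha).comp β (Weight_a_der σ hβ)
  refine HasDerivAt.congr_deriv (((hasDerivAt_id β).const_mul 2).mul (h1.add h2)) ?_
  unfold Weight_X1
  simp only [id, Pi.add_apply, Function.comp]
  field_simp
  ring

theorem Weight_X1_der {k σ β : ℝ} (hk : |k| ≤ 1) (hσ : σ < 0) (hβ : 0 < β) :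
    HasDerivAt (Weight_X1 k σ) (Weight_X2 k σ β / β) β := by
  have ha := div_neg_of_neg_of_pos hσ hβ
  have hk' : |-k| ≤ 1 := by rwa [abs_neg]
  have h0 := Weight_a_der σ hβ
  have h1 := (Weight_U_der hk ha).comp β h0
  have h2 := (Weight_U_der hk' ha).comp β h0
  have h3 := (Weight_U1_der hk ha).comp β h0
  have h4 := (Weight_U1_der hk' ha).comp β h0
  refine HasDerivAt.congr_deriv
    (((h1.add h2).const_mul 2).sub (((h0.mul h3).add (h0.mul h4)).const_mul 2)) ?_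
  unfold Weight_X2
  simp only [Function.comp]
  field_simp
  ring

theorem Weight_X_abs {k σ β : ℝ} (hk : |k| ≤ 1) (hσ : σ < 0) (hβ : 0 < β) :
    |Weight_X k σ β| ≤ 4 * β * Weight_l (σ / β) ∧
    |Weight_X1 k σ β| ≤ 4 * (Weight_l (σ / β) + Weight_m (σ / β)) ∧
    |Weight_X2 k σ β| ≤ 20 * Weight_n (σ / β) := by
  have ha := div_neg_of_neg_of_pos hσ hβ
  have hk' : |-k| ≤ 1 := by rwa [abs_neg]
  obtain ⟨a1, a2⟩ := abs_le.1 (Weight_U_abs hk ha)
  obtain ⟨a3, a4⟩ := abs_le.1 (Weight_U_abs hk' ha)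
  obtain ⟨a5, a6⟩ := abs_le.1 (Weight_U1_abs hk ha)
  obtain ⟨a7, a8⟩ := abs_le.1 (Weight_U1_abs hk' ha)
  obtain ⟨a9, a10⟩ := abs_le.1 (Weight_U2_abs hk ha)
  obtain ⟨a11, a12⟩ := abs_le.1 (Weight_U2_abs hk' ha)
  unfold Weight_X Weight_X1 Weight_X2 Weight_l
  refine ⟨abs_le.2 ⟨by clear * - β σ k hβ a1 a3; linarith only [hβ, a1, a3, mul_nonneg_of_nonpos_of_nonpos (le_of_lt (Mathlib.Tactic.Linarith.sub_neg_of_lt hβ)) (Mathlib.Tactic.Linarith.sub_nonpos_of_le a1), mul_nonneg_of_nonpos_of_nonpos (le_of_lt (Mathlib.Tactic.Linarith.sub_neg_of_lt hβ)) (Mathlib.Tactic.Linarith.sub_nonpos_of_le a3)], by clear * - β k σ hβ a2 a4; linarith only [hβ, a2, a4, mul_nonneg_of_nonpos_of_nonpos (le_of_lt (Mathlib.Tactic.Linarith.sub_neg_of_lt hβ)) (Mathlib.Tactic.Linarith.sub_nonpos_of_le a2), mul_nonneg_of_nonpos_of_nonpos (le_of_lt (Mathlib.Tactic.Linarith.sub_neg_of_lt hβ)) (Mathlib.Tactic.Linarith.sub_nonpos_of_le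 a4)]⟩, abs_le.2 ⟨by linarith only [a1, a3, a6, a8], by linarith only [a2, a4, a5, a7]⟩,
    abs_le.2 ⟨by linarith only [a9, a11], by linarith only [a10, a12]⟩⟩

theorem Weight_exp_sub {x y c : ℝ} (hx : x ≤ c) (hy : y ≤ c) : |exp x - exp y| ≤ |x - y| * exp c := by
  wlog h : y ≤ x generalizing x y
  · rw [abs_sub_comm, abs_sub_comm x]
    exact this hy hx (le_of_not_ge h)
  rw [abs_of_nonneg (sub_nonneg.2 (exp_le_exp.2 h)), abs_of_nonneg (sub_nonneg.2 h)]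
  have h1 := add_one_le_exp (y - x)
  have h2 : exp y = exp x * exp (y - x) := by rw [← exp_add]; congr 1; ring
  have h3 := exp_le_exp.2 hx
  have h4 := exp_pos x
  have h5 := mul_le_mul_of_nonneg_left h3 (sub_nonneg.2 h)
  linarith only [h2, h5, h1, h4, mul_nonneg_of_nonpos_of_nonpos (Mathlib.Tactic.Linarith.sub_nonpos_of_le h1) (le_of_lt (Mathlib.Tactic.Linarith.sub_neg_of_lt h4))]

theorem Weight_cosh {y c : ℝ} (hy : |y| ≤ c) : (exp y + exp (-y)) / 2 - 1 ≤ y ^ 2 * exp c := by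
  obtain ⟨y1, y2⟩ := abs_le.1 hy
  have h1 := Weight_exp_sub (x := y / 2) (y := -y / 2) (c := c / 2) (by linarith only [y2]) (by linarith)
  have h2 := pow_le_pow_left₀ (abs_nonneg _) h1 2
  have e1 : exp (y / 2) ^ 2 = exp y := by rw [← exp_nat_mul]; congr 1; push_cast; ring
  have e2 : exp (-y / 2) ^ 2 = exp (-y) := by rw [← exp_nat_mul]; congr 1; push_cast; ring
  have e3 : exp (c / 2) ^ 2 = exp c := by rw [← exp_nat_mul]; congr 1; push_cast; ring
  have e4 : exp (y / 2) * exp (-y / 2) = 1 := by rw [← exp_add, ← exp_zero]; congr 1; ring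
  rw [mul_pow, sq_abs, sq_abs, e3, show y / 2 - -y / 2 = y by ring] at h2
  have : 0 ≤ y ^ 2 * exp c := by positivity
  clear * - y c h2 e1 e2 e4
  linarith only [h2, e1, e2, e4, sq_nonneg ((1 : ℝ) * rexp (y / (2 : ℝ)) - (1 : ℝ) * rexp (-y / (2 : ℝ)))]

theorem Weight_parts {β σ : ℝ} (hβ : 0 < β) (hσ : σ < 0) :
    (Weight_l (σ / β) + Weight_m (σ / β)) * exp (Weight_l (σ / β) / 8) ≤ 10 ^ 5 * Om β σ ∧
    (Weight_l (σ / β) + Weight_m (σ / β)) ^ 2 * exp (Weight_l (σ / β) / 8) ^ 2 ≤ 10 ^ 5 * Om β σ ∧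
    (Weight_l (σ / β) + Weight_m (σ / β) + (Weight_l (σ / β) + Weight_m (σ / β)) ^ 2 +
      Weight_n (σ / β)) * exp (Weight_l (σ / β) / 8) ≤ 10 ^ 5 * Om β σ := by
  have ha := div_neg_of_neg_of_pos hσ hβ
  have h := Weight_G_Om hβ hσ
  have l0 := Weight_l0 ha
  have m0 := (Weight_m0 ha).1
  have n0 := Weight_n0 (σ / β)
  have E1 := (Weight_E ha).1
  have E2 : exp (Weight_l (σ / β) / 8) ≤ exp (Weight_l (σ / β) / 8) ^ 2 := by linarith only [E1, mul_nonneg_of_nonpos_of_nonpos (Mathlib.Tactic.Linarith.sub_nonpos_of_le E1) (Mathlib.Tactic.Linarith.sub_nonpos_of_le E1)]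
  unfold Weight_G at h
  refine ⟨le_trans ?_ h, le_trans ?_ h, le_trans ?_ h⟩
  · exact mul_le_mul (by linarith only [n0, sq_nonneg (Weight_l (σ / β) + Weight_m (σ / β))]) E2
      (by positivity) (by positivity)
  · exact mul_le_mul_of_nonneg_right (by linarith only [l0, m0, n0]) (by positivity)
  · gcongr

theorem Weight_mvt {f f' : ℝ → ℝ} {σ C β β₀ : ℝ} (C0 : 0 ≤ C) (hβ : 0 < β) (hβ' : β ≤ 1 / 64)
    (h0 : 0 < β₀) (h0' : β₀ ≤ 1 / 64) (hd : ∀ x, 0 < x → HasDerivAt f (f' x) x)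
    (hb : ∀ x, 0 < x → x ≤ 1 / 64 → |f' x| ≤ C * Om x σ) {x : ℝ} (hx : x ∈ uIcc β₀ β) :
    |f x - f β₀| ≤ C * Om (max β β₀) σ * |β - β₀| := by
  have hs : ∀ y ∈ uIcc β₀ β, 0 < y ∧ y ≤ max β β₀ := fun y hy =>
    ⟨lt_of_lt_of_le (lt_min h0 hβ) hy.1, by rw [max_comm]; exact hy.2⟩
  have h := (convex_uIcc β₀ β).norm_image_sub_le_of_norm_hasDerivWithin_le
    (C := C * Om (max β β₀) σ) (fun y hy => (hd y (hs y hy).1).hasDerivWithinAt)
    (fun y hy => (hb y (hs y hy).1 ((hs y hy).2.trans (max_le hβ' h0'))).trans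
      (mul_le_mul_of_nonneg_left (Om_mono (hs y hy).1.le (hs y hy).2 σ) C0)) left_mem_uIcc hx
  exact h.trans (mul_le_mul_of_nonneg_left (abs_sub_left_of_mem_uIcc hx)
    (mul_nonneg C0 (Om_nonneg _ _)))

theorem Weight_est1 {β b σ : ℝ} (t : ℝ) (hβ : 0 < β) (hβ' : β ≤ 1 / 64) (hb : |b| ≤ 1 / 64)
    (hσ : σ < 0) : |xx β b (σ / β) t| ≤ 4 * (β + |b|) * Weight_l (σ / β) ∧
      xx β b (σ / β) t ≤ Weight_l (σ / β) / 8 ∧
      |xx β b (σ / β) t - xx β 0 (σ / β) t| ≤ 4 * |b| * Weight_l (σ / β) := by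
  have ha := div_neg_of_neg_of_pos hσ hβ
  obtain ⟨a1, a2⟩ : |u1 (σ / β) t| ≤ Weight_l (σ / β) ∧ |u2 (σ / β) t| ≤ Weight_l (σ / β) :=
    u_abs_le ha t
  have l0 := Weight_l0 ha
  have b0 := abs_nonneg b
  have h1 : |xx β b (σ / β) t - xx β 0 (σ / β) t| ≤ 4 * |b| * Weight_l (σ / β) := by
    clear * - β b σ t hβ hβ' a1 b0 a2
    rw [show xx β b (σ / β) t - xx β 0 (σ / β) t = 2 * (b * (u1 (σ / β) t - u2 (σ / β) t)) by
      unfold xx; ring, abs_mul, abs_mul, abs_two]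
    have := abs_sub (u1 (σ / β) t) (u2 (σ / β) t)
    (refine le_of_not_gt fun h_nl => ?_; linarith only [h_nl, hβ, hβ', a1, b0, a2, this, mul_pos_of_neg_of_neg (Mathlib.Tactic.Linarith.sub_neg_of_lt hβ) (Mathlib.Tactic.Linarith.sub_neg_of_lt h_nl), mul_nonneg_of_nonpos_of_nonpos (Mathlib.Tactic.Linarith.sub_nonpos_of_le hβ') (le_of_lt (Mathlib.Tactic.Linarith.sub_neg_of_lt h_nl)), mul_nonneg_of_nonpos_of_nonpos (Mathlib.Tactic.Linarith.sub_nonpos_of_le a1) (Mathlib.Tactic.Linarith.sub_nonpos_of_le b0), mul_nonneg_of_nonpos_of_nonpos (Mathlib.Tactic.Linarith.sub_nonpos_of_le a2) (Mathlib.Tactic.Linarith.sub_nonpos_of_le b0), mul_nonneg_of_nonpos_of_nonpos (Mathlib.Tactic.Linarith.sub_nonpos_of_le b0) (Mathlib.Tactic.Linarith.sub_nonpos_of_le this)])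
  have h2 : |xx β 0 (σ / β) t| ≤ 4 * β * Weight_l (σ / β) := by
    rw [Weight_xx]
    exact (Weight_X_abs (abs_cos_le_one _) hσ hβ).1
  have h3 : |xx β b (σ / β) t| ≤ 4 * (β + |b|) * Weight_l (σ / β) := by
    have := abs_add_le (xx β b (σ / β) t - xx β 0 (σ / β) t) (xx β 0 (σ / β) t)
    rw [sub_add_cancel] at this
    linarith only [h1, h2, this]
  refine ⟨h3, ?_, h1⟩
  have := le_abs_self (xx β b (σ / β) t)
  clear * - β b σ t h3 this hβ hβ' l0 hb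
  (refine le_of_not_gt fun h_nl => ?_; linarith only [h_nl, h3, this, hβ, hβ', l0, hb, mul_pos_of_neg_of_neg (Mathlib.Tactic.Linarith.sub_neg_of_lt hβ) (Mathlib.Tactic.Linarith.sub_neg_of_lt h_nl), mul_nonneg_of_nonpos_of_nonpos (Mathlib.Tactic.Linarith.sub_nonpos_of_le hβ') (Mathlib.Tactic.Linarith.sub_nonpos_of_le l0), mul_nonneg_of_nonpos_of_nonpos (Mathlib.Tactic.Linarith.sub_nonpos_of_le hβ') (le_of_lt (Mathlib.Tactic.Linarith.sub_neg_of_lt h_nl)), mul_nonneg_of_nonpos_of_nonpos (Mathlib.Tactic.Linarith.sub_nonpos_of_le hb) (Mathlib.Tactic.Linarith.sub_nonpos_of_le l0)])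

theorem weight_est : ∃ K : ℝ, 1 ≤ K ∧ ∀ β b σ t : ℝ, 0 < β → β ≤ 1 / 64 → |b| ≤ 1 / 64 → σ < 0 →
    |WW β b (σ, t) - 1| ≤ K * (β + |b|) * Om β σ ∧
    |WW β b (σ, t) - 1| * |σ| ≤ K * (β + |b|) * β ∧
    |xx β b (σ / β) t| ≤ K * (β + |b|) * Om β σ ∧
    (WW β b (σ, t) + WW β (-b) (σ, t)) / 2 - WW β 0 (σ, t) ≤ K * b ^ 2 * Om β σ ∧
    ∀ β₀ : ℝ, 0 < β₀ → β₀ ≤ 1 / 64 →
      |WW β b (σ, t) - WW β₀ 0 (σ, t)| ≤ K * (|β - β₀| + |b|) * Om (max β β₀) σ ∧
      |xx β b (σ / β) t - xx β₀ 0 (σ / β₀) t| ≤ K * (|β - β₀| + |b|) * Om (max β β₀) σ := by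
  refine ⟨16 * 10 ^ 5, by norm_num, fun β b σ t hβ hβ' hb hσ => ?_⟩
  have ha := div_neg_of_neg_of_pos hσ hβ
  obtain ⟨x1, x2, x3⟩ := Weight_est1 t hβ hβ' hb hσ
  obtain ⟨z1, z2, -⟩ := Weight_est1 (b := 0) t hβ hβ' (by norm_num) hσ
  obtain ⟨p1, p2, -⟩ := Weight_parts hβ hσ
  have l0 := Weight_l0 ha
  have m0 := (Weight_m0 ha).1
  have E1 := (Weight_E ha).1
  have b0 := abs_nonneg b
  have O0 := Om_nonneg β σ
  have hG := (Weight_G_le ha).2
  have hk := abs_cos_le_one (π * t)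
  simp only [WW]
  set l := Weight_l (σ / β) with hl
  set E := exp (l / 8) with hE
  have q1 : l * E ≤ 10 ^ 5 * Om β σ := by clear * - l E β σ m0 p1 hβ hβ' E1; (refine le_of_not_gt fun h_nl => ?_; linarith only [h_nl, m0, p1, hβ, hβ', E1, mul_pos_of_neg_of_neg (Mathlib.Tactic.Linarith.sub_neg_of_lt hβ) (Mathlib.Tactic.Linarith.sub_neg_of_lt h_nl), mul_nonneg_of_nonpos_of_nonpos (Mathlib.Tactic.Linarith.sub_nonpos_of_le hβ') (le_of_lt (Mathlib.Tactic.Linarith.sub_neg_of_lt h_nl)), mul_nonneg_of_nonpos_of_nonpos (Mathlib.Tactic.Linarith.sub_nonpos_of_le m0) (Mathlib.Tactic.Linarith.sub_nonpos_of_le E1)])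
  have q2 : l ≤ 10 ^ 5 * Om β σ := by clear * - l β σ E q1 hβ hβ' l0 E1; (refine le_of_not_gt fun h_nl => ?_; linarith only [h_nl, q1, hβ, hβ', l0, E1, mul_pos_of_neg_of_neg (Mathlib.Tactic.Linarith.sub_neg_of_lt hβ) (Mathlib.Tactic.Linarith.sub_neg_of_lt h_nl), mul_nonneg_of_nonpos_of_nonpos (Mathlib.Tactic.Linarith.sub_nonpos_of_le hβ') (le_of_lt (Mathlib.Tactic.Linarith.sub_neg_of_lt h_nl)), mul_nonneg_of_nonpos_of_nonpos (Mathlib.Tactic.Linarith.sub_nonpos_of_le l0) (Mathlib.Tactic.Linarith.sub_nonpos_of_le E1)])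
  have q3 : l ^ 2 * E ^ 2 ≤ 10 ^ 5 * Om β σ := le_trans (by clear * - E l σ β l0 m0 p2; gcongr; linarith only [m0]) p2
  have w1 : |exp (xx β b (σ / β) t) - 1| ≤ 4 * (β + |b|) * (l * E) := by
    have := Weight_exp_sub x2 (show 0 ≤ l / 8 by positivity)
    rw [exp_zero, sub_zero] at this
    refine this.trans ?_
    rw [← mul_assoc]
    gcongr
  have c0 : 0 ≤ β + |b| := by positivity
  refine ⟨by clear * - β b σ t l E w1 c0 O0 hβ q1 hβ' b0; (refine le_of_not_gt fun h_nl => ?_; linarith only [h_nl, w1, c0, O0, hβ, q1, hβ', b0, mul_nonneg c0 O0, mul_nonneg_of_nonpos_of_nonpos (le_of_lt (Mathlib.Tactic.Linarith.sub_neg_of_lt hβ)) (Mathlib.Tactic.Linarith.sub_nonpos_of_le q1), mul_pos_of_neg_of_neg (Mathlib.Tactic.Linarith.sub_neg_of_lt hβ) (Mathlib.Tactic.Linarith.sub_neg_of_lt h_nl), mul_nonneg_of_nonpos_of_nonpos (Mathlib.Tactic.Linarith.sub_nonpos_of_le hβ') (le_of_lt (Mathlib.Tactic.Linarith.sub_neg_of_lt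 h_nl)), mul_nonneg_of_nonpos_of_nonpos (Mathlib.Tactic.Linarith.sub_nonpos_of_le b0) (Mathlib.Tactic.Linarith.sub_nonpos_of_le q1)]), ?_, by clear * - β b σ t l x1 c0 O0 hβ q2 hβ' b0; (refine le_of_not_gt fun h_nl => ?_; linarith only [h_nl, x1, c0, O0, hβ, q2, hβ', b0, mul_nonneg c0 O0, mul_nonneg_of_nonpos_of_nonpos (le_of_lt (Mathlib.Tactic.Linarith.sub_neg_of_lt hβ)) (Mathlib.Tactic.Linarith.sub_nonpos_of_le q2), mul_pos_of_neg_of_neg (Mathlib.Tactic.Linarith.sub_neg_of_lt hβ) (Mathlib.Tactic.Linarith.sub_neg_of_lt h_nl), mul_nonneg_of_nonpos_of_nonpos (Mathlib.Tactic.Linarith.sub_nonpos_of_le hβ') (le_of_lt (Mathlib.Tactic.Linarith.sub_neg_of_lt h_nl)), mul_nonneg_of_nonpos_of_nonpos (Mathlib.Tactic.Linarith.sub_nonpos_of_le b0) (Mathlib.Tactic.Linarith.sub_nonpos_of_le q2)]), ?_, ?_⟩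
  · have e : |σ| = β * -(σ / β) := by rw [abs_of_neg hσ]; field_simp
    calc |exp (xx β b (σ / β) t) - 1| * |σ| ≤ 4 * (β + |b|) * (l * E) * |σ| := by gcongr
      _ = 4 * ((β + |b|) * β) * (-(σ / β) * (l * E)) := by rw [e]; ring
      _ ≤ 4 * ((β + |b|) * β) * 24 := by gcongr
      _ ≤ _ := by clear * - β b c0 hβ; linarith only [c0, hβ, mul_nonneg c0 hβ.le]
  · set y := xx β b (σ / β) t - xx β 0 (σ / β) t with hy
    have e1 : xx β b (σ / β) t = xx β 0 (σ / β) t + y := by rw [hy]; ring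
    have e2 : xx β (-b) (σ / β) t = xx β 0 (σ / β) t + -y := by rw [hy]; unfold xx; ring
    have h1 := Weight_cosh (y := y) (c := l / 8) (x3.trans (by clear * - b l β l0 hβ hβ' hb x3 y; (refine le_of_not_gt fun h_nl => ?_; linarith only [h_nl, l0, hβ, hβ', hb, mul_pos_of_neg_of_neg (Mathlib.Tactic.Linarith.sub_neg_of_lt hβ) (Mathlib.Tactic.Linarith.sub_neg_of_lt h_nl), mul_nonneg_of_nonpos_of_nonpos (Mathlib.Tactic.Linarith.sub_nonpos_of_le hβ') (le_of_lt (Mathlib.Tactic.Linarith.sub_neg_of_lt h_nl)), mul_nonneg_of_nonpos_of_nonpos (Mathlib.Tactic.Linarith.sub_nonpos_of_le hb) (Mathlib.Tactic.Linarith.sub_nonpos_of_le l0)])))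
    have h2 : y ^ 2 ≤ (4 * |b| * l) ^ 2 := by
      rw [← sq_abs y]
      gcongr
    rw [mul_pow, mul_pow, sq_abs] at h2
    rw [e1, e2, exp_add, exp_add]
    calc (exp (xx β 0 (σ / β) t) * exp y + exp (xx β 0 (σ / β) t) * exp (-y)) / 2 -
          exp (xx β 0 (σ / β) t) = exp (xx β 0 (σ / β) t) * ((exp y + exp (-y)) / 2 - 1) := by ring
      _ ≤ exp (xx β 0 (σ / β) t) * (y ^ 2 * E) := by gcongr
      _ ≤ E * (4 ^ 2 * b ^ 2 * l ^ 2 * E) := by clear * - β σ t E y b l z2 h2; gcongr; exact exp_le_exp.2 z2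
      _ = 16 * b ^ 2 * (l ^ 2 * E ^ 2) := by ring
      _ ≤ 16 * b ^ 2 * (10 ^ 5 * Om β σ) := by gcongr
      _ = _ := by ring
  · intro β₀ h0 h0'
    have OM := Om_mono hβ.le (le_max_left β β₀) σ
    have d0 := abs_nonneg (β - β₀)
    have v1 := Weight_mvt (f := Weight_X (cos (π * t)) σ) (σ := σ) (C := 4 * 10 ^ 5) (by norm_num)
      hβ hβ' h0 h0' (fun x hx => Weight_X_der hk hσ hx) (fun x hx _ => by
        clear * - t σ x hk hσ hx β hβ hβ'
        have := (Weight_X_abs hk hσ hx).2.1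
        have := (Weight_parts hx hσ).1
        have := (Weight_E (div_neg_of_neg_of_pos hσ hx)).1
        have := Weight_l0 (div_neg_of_neg_of_pos hσ hx)
        have := (Weight_m0 (div_neg_of_neg_of_pos hσ hx)).1
        nlinarith) right_mem_uIcc
    have v2 := Weight_mvt (f := fun x => exp (Weight_X (cos (π * t)) σ x)) (σ := σ)
      (C := 4 * 10 ^ 5) (by norm_num) hβ hβ' h0 h0' (fun x hx => (Weight_X_der hk hσ hx).exp)
      (fun x hx hx' => by
        clear * - t σ x hk hσ hx hx' b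
        have a1 := (Weight_X_abs hk hσ hx).2.1
        have a2 := (Weight_parts hx hσ).1
        have a3 := exp_le_exp.2 (Weight_est1 (b := 0) t hx hx' (by norm_num) hσ).2.1
        rw [Weight_xx] at a3
        rw [abs_mul, abs_of_pos (exp_pos _)]
        have := mul_le_mul a3 a1 (abs_nonneg _) (exp_pos _).le
        linarith only [a2, this]) right_mem_uIcc
    simp only [← Weight_xx] at v1 v2
    have v3 := Weight_exp_sub x2 z2
    have v4 : |xx β b (σ / β) t - xx β 0 (σ / β) t| * E ≤ 4 * |b| * (l * E) := by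
      rw [← mul_assoc]; gcongr
    have OM0 := Om_nonneg (max β β₀) σ
    have q4 : |b| * (l * E) ≤ |b| * (10 ^ 5 * Om (max β β₀) σ) :=
      mul_le_mul_of_nonneg_left (by clear * - l E β β₀ σ q1 OM b0; linarith only [q1, OM]) b0
    have q5 : |b| * l ≤ |b| * (10 ^ 5 * Om (max β β₀) σ) :=
      mul_le_mul_of_nonneg_left (by linarith only [q2, OM]) b0
    constructor
    · have := abs_sub_le (exp (xx β b (σ / β) t)) (exp (xx β 0 (σ / β) t))
        (exp (xx β₀ 0 (σ / β₀) t))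
      clear * - β b σ t β₀ l E v2 v3 v4 q4 this b0 OM0 d0
      linarith only [v2, v3, v4, q4, this, b0, OM0, d0, mul_nonneg b0 OM0, mul_nonneg d0 OM0]
    · have := abs_sub_le (xx β b (σ / β) t) (xx β 0 (σ / β) t) (xx β₀ 0 (σ / β₀) t)
      clear * - β b σ t β₀ l x3 v1 q5 this b0 OM0 d0
      linarith only [x3, v1, q5, this, b0, OM0, d0, mul_nonneg b0 OM0, mul_nonneg d0 OM0]

theorem weight_taylor : ∃ K : ℝ, 1 ≤ K ∧ ∀ β₀ : ℝ, 0 < β₀ → β₀ ≤ 1 / 64 →
    ∃ g : ℝ × ℝ → ℝ, Measurable g ∧ (∀ p : ℝ × ℝ, p.1 < 0 → |g p| ≤ K * β₀ * Om β₀ p.1) ∧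
      ∀ β : ℝ, 0 < β → β ≤ 1 / 64 → ∀ p : ℝ × ℝ, p.1 < 0 →
        |β * (WW β 0 p - 1) - β₀ * (WW β₀ 0 p - 1) - g p * (β - β₀)| ≤
          K * (β - β₀) ^ 2 * Om (max β β₀) p.1 := by
  refine ⟨20 * 10 ^ 5, by norm_num, fun β₀ h0 h0' => ?_⟩
  have hE : ∀ (p : ℝ × ℝ) (x : ℝ), p.1 < 0 → 0 < x → x ≤ 1 / 64 →
      Weight_X (cos (π * p.2)) p.1 x ≤ Weight_l (p.1 / x) / 8 := fun p x hσ hx hx' => by
    rw [← Weight_xx]
    exact (Weight_est1 (b := 0) p.2 hx hx' (by norm_num) hσ).2.1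
  refine ⟨fun p => exp (Weight_X (cos (π * p.2)) p.1 β₀) - 1 +
    β₀ * (exp (Weight_X (cos (π * p.2)) p.1 β₀) * Weight_X1 (cos (π * p.2)) p.1 β₀), ?_, ?_, ?_⟩
  · unfold Weight_X Weight_X1 Weight_U Weight_U1 Weight_D
    fun_prop
  · intro p hσ
    have ha := div_neg_of_neg_of_pos hσ h0
    obtain ⟨a1, a2, -⟩ := Weight_X_abs (abs_cos_le_one (π * p.2)) hσ h0
    have l0 := Weight_l0 ha
    have m0 := (Weight_m0 ha).1
    have a3 := Weight_exp_sub (hE p β₀ hσ h0 h0') (show 0 ≤ Weight_l (p.1 / β₀) / 8 by positivity)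
    rw [exp_zero, sub_zero] at a3
    have a4 := (Weight_parts h0 hσ).1
    have a5 := mul_le_mul (exp_le_exp.2 (hE p β₀ hσ h0 h0')) a2 (abs_nonneg _) (exp_pos _).le
    have a6 := mul_le_mul_of_nonneg_right a1 (exp_pos (Weight_l (p.1 / β₀) / 8)).le
    have O0 := Om_nonneg β₀ p.1
    refine (abs_add_le _ _).trans ?_
    rw [abs_mul, abs_mul, abs_of_pos h0, abs_of_pos (exp_pos _)]
    have a7 := mul_le_mul_of_nonneg_left a5 h0.le
    have a8 := mul_le_mul_of_nonneg_left a4 h0.le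
    have a9 : 0 ≤ β₀ * (Weight_m (p.1 / β₀) * exp (Weight_l (p.1 / β₀) / 8)) := by positivity
    clear * - p β₀ a3 a6 a7 a8 a9 h0 O0
    linarith only [a3, a6, a7, a8, a9, h0, O0, mul_nonneg h0.le O0]
  · intro β hβ hβ' p hσ
    have hk := abs_cos_le_one (π * p.2)
    set k := cos (π * p.2) with hk'
    set f1 : ℝ → ℝ := fun x => exp (Weight_X k p.1 x) - 1 +
      x * (exp (Weight_X k p.1 x) * Weight_X1 k p.1 x) with hf1
    have d1 : ∀ x, 0 < x → HasDerivAt f1 (exp (Weight_X k p.1 x) *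
        (2 * Weight_X1 k p.1 x + x * Weight_X1 k p.1 x ^ 2 + Weight_X2 k p.1 x)) x := by
      intro x hx
      have e := (Weight_X_der hk hσ hx).exp
      refine HasDerivAt.congr_deriv
        ((e.sub_const 1).add ((hasDerivAt_id x).mul (e.mul (Weight_X1_der hk hσ hx)))) ?_
      simp only [id]
      field_simp
      ring
    have v1 : ∀ x ∈ uIcc β₀ β, |f1 x - f1 β₀| ≤ 20 * 10 ^ 5 * Om (max β β₀) p.1 * |β - β₀| :=
      fun x hx => Weight_mvt (by norm_num) hβ hβ' h0 h0' d1 (fun x hx hx' => by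
        clear * - p x hσ hx k hk β₀ h0 h0' hx' hE
        have ha := div_neg_of_neg_of_pos hσ hx
        obtain ⟨-, a2, a3⟩ := Weight_X_abs hk hσ hx
        have l0 := Weight_l0 ha
        have m0 := (Weight_m0 ha).1
        have a4 := (Weight_parts hx hσ).2.2
        have a5 : Weight_X1 k p.1 x ^ 2 ≤ (4 * (Weight_l (p.1 / x) + Weight_m (p.1 / x))) ^ 2 := by
          rw [← sq_abs (Weight_X1 k p.1 x)]
          gcongr
        have a6 : |2 * Weight_X1 k p.1 x + x * Weight_X1 k p.1 x ^ 2 + Weight_X2 k p.1 x| ≤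
            20 * (Weight_l (p.1 / x) + Weight_m (p.1 / x) +
              (Weight_l (p.1 / x) + Weight_m (p.1 / x)) ^ 2 + Weight_n (p.1 / x)) := by
          obtain ⟨b1, b2⟩ := abs_le.1 a2
          obtain ⟨b3, b4⟩ := abs_le.1 a3
          have b5 : 0 ≤ x * Weight_X1 k p.1 x ^ 2 := by positivity
          have b6 : x * Weight_X1 k p.1 x ^ 2 ≤ Weight_X1 k p.1 x ^ 2 :=
            mul_le_of_le_one_left (sq_nonneg _) (by linarith only [h0, h0', hx'])
          have b7 := sq_nonneg (Weight_l (p.1 / x) + Weight_m (p.1 / x))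
          rw [abs_le]
          constructor <;> linarith only [l0, m0, b1, b3, b5, a5, b2, b4, b6, sq_nonneg ((1 : ℝ) * Weight_l (p.1 / x) + (1 : ℝ) * Weight_m (p.1 / x))]
        rw [abs_mul, abs_of_pos (exp_pos _)]
        have := mul_le_mul (exp_le_exp.2 (hE p x hσ hx hx')) a6 (abs_nonneg _) (exp_pos _).le
        linarith only [a4, this]) hx
    have h := (convex_uIcc β₀ β).norm_image_sub_le_of_norm_hasDerivWithin_le
      (f := fun x => x * (exp (Weight_X k p.1 x) - 1) - f1 β₀ * x) (f' := fun x => f1 x - f1 β₀)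
      (fun x hx => by
        have hx0 : 0 < x := lt_of_lt_of_le (lt_min h0 hβ) hx.1
        refine (HasDerivAt.congr_deriv (((hasDerivAt_id x).mul
          ((Weight_X_der hk hσ hx0).exp.sub_const 1)).sub
            ((hasDerivAt_id x).const_mul (f1 β₀))) ?_).hasDerivWithinAt
        simp only [id, hf1]
        ring) v1 left_mem_uIcc right_mem_uIcc
    rw [norm_eq_abs, norm_eq_abs, mul_assoc, ← sq, sq_abs] at h
    simp only [WW, Weight_xx]
    refine le_of_eq_of_le ?_ (h.trans (le_of_eq (by ring)))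
    congr 1
    simp only [hf1]
    ring

end Pool.Agent.Work.MP_267827_an
end
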